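import Mathlib
import Pool.Agent.Helpers29.Corson2

set_option autoImplicit false

namespace Pool.Agent.Helpers29.Corson

open Set Topology

section converse

variable {T Y : Type} [TopologicalSpace T] [CompactSpace T] [T2Space T]

/-- a continuous function on a compact space depends on countably many coordinates -/
lemma det_countable {e : T → Y → ℝ} (he : ∀ y, Continuous fun t => e t y)
    (hsep : ∀ p q, (∀ y, e p y = e q y) → p = q) {ψ : T → ℝ} (hψ : Continuous ψ) :
    ∃ C : Set Y, C.Countable ∧ ∀ p q, (∀ y ∈ C, e p y = e q y) → ψ p = ψ q := by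
  have h : ∀ n : ℕ, ∃ s : Finset Y, {x : T × T | 1 / ((n : ℝ) + 1) ≤ |ψ x.1 - ψ x.2|} ⊆
      ⋃ y ∈ s, {x : T × T | e x.1 y ≠ e x.2 y} := by
    intro n
    have hK : IsCompact {x : T × T | 1 / ((n : ℝ) + 1) ≤ |ψ x.1 - ψ x.2|} := by
      apply IsClosed.isCompact
      apply isClosed_le continuous_const
      exact ((hψ.comp continuous_fst).sub (hψ.comp continuous_snd)).abs
    refine hK.elim_finite_subcover (fun y => {x : T × T | e x.1 y ≠ e x.2 y}) ?_ ?_
    · intro y
      exact isOpen_ne_fun ((he y).comp continuous_fst) ((he y).comp continuous_snd)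
    · rintro ⟨p, q⟩ hpq
      by_contra hcon
      simp only [mem_iUnion, not_exists] at hcon
      have hpq' : p = q := by
        apply hsep
        intro y
        by_contra hy
        exact hcon y hy
      have h1 : (0 : ℝ) < 1 / ((n : ℝ) + 1) := by positivity
      simp only [mem_ofPred_eq] at hpq
      rw [hpq', sub_self, abs_zero] at hpq
      linarith
  choose s hs using h
  refine ⟨⋃ n, ↑(s n), countable_iUnion fun n => (s n).countable_toSet, ?_⟩
  intro p q hpq
  by_contra hne
  have hpos : 0 < |ψ p - ψ q| := abs_pos.2 (sub_ne_zero.2 hne)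
  obtain ⟨n, hn⟩ := exists_nat_one_div_lt hpos
  have h1 := hs n (show (p, q) ∈ {x : T × T | 1 / ((n : ℝ) + 1) ≤ |ψ x.1 - ψ x.2|} from hn.le)
  simp only [mem_iUnion] at h1
  obtain ⟨y, hy, hyne⟩ := h1
  exact hyne (hpq y (mem_iUnion.2 ⟨n, hy⟩))

/-- Theorem B: a Corson compact space satisfies the criterion. -/
lemma crit_of_corson {e : T → Y → ℝ} (he : ∀ y, Continuous fun t => e t y)
    (hsep : ∀ p q, (∀ y, e p y = e q y) → p = q) {Γ : Type} {φ : T → (Γ → ℝ)}
    (hφ : IsEmbedding φ) (hs : ∀ t, (Function.support (φ t)).Countable) :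
    ∃ C : T → Set Y, (∀ t, (C t).Countable) ∧ ∀ (N : Set T) (V : Set Y), (∀ g ∈ N, C g ⊆ V) →
      ∀ p ∈ closure N, ∀ q ∈ closure N, (∀ y ∈ V, e p y = e q y) → p = q := by
  have hc : ∀ γ, Continuous (fun t => φ t γ) := fun γ => (continuous_apply γ).comp hφ.continuous
  choose Cγ hC1 hC2 using fun γ => det_countable he hsep (hc γ)
  refine ⟨fun t => ⋃ γ ∈ Function.support (φ t), Cγ γ, fun t => (hs t).biUnion fun γ _ => hC1 γ, ?_⟩
  intro N V hNV p hp q hq hpq
  apply hφ.injective
  ext γ
  by_cases h : ∃ g ∈ N, γ ∈ Function.support (φ g)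
  · obtain ⟨g, hg, hγ⟩ := h
    apply hC2 γ
    intro y hy
    exact hpq y (hNV g hg (mem_biUnion hγ hy))
  · have hz : ∀ g ∈ closure N, φ g γ = 0 := by
      have hcl : IsClosed {g : T | φ g γ = 0} := isClosed_eq (hc γ) continuous_const
      intro g hg
      refine closure_minimal (s := N) (t := {g : T | φ g γ = 0}) ?_ hcl hg
      intro g hg
      by_contra hcon
      exact h ⟨g, hg, hcon⟩
    rw [hz p hp, hz q hq]

end converse

/-- `2^A` is not Corson compact for uncountable `A` -/
lemma no_cube {A : Type} (hA : ¬ Countable A) {Γ : Type} {ψ : (A → Bool) → (Γ → ℝ)}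
    (hψ : IsEmbedding ψ) (hs : ∀ t, (Function.support (ψ t)).Countable) : False := by
  classical
  let e : (A → Bool) → A → ℝ := fun s a => if s a then 1 else 0
  have he : ∀ a, Continuous fun s => e s a := fun a =>
    (continuous_of_discreteTopology (f := fun b : Bool => if b then (1 : ℝ) else 0)).comp
      (continuous_apply a)
  have hsep : ∀ p q, (∀ a, e p a = e q a) → p = q := by
    intro p q h
    ext a
    have := h a
    simp only [e] at this
    cases hp : p a <;> cases hq : q a <;> simp_all
  obtain ⟨C, hC1, hC2⟩ := crit_of_corson he hsep hψ hs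
  let z : A → Bool := fun _ => false
  let co : Finset A → (A → Bool) := fun t a => decide (a ∉ t)
  let Sk : Finset A → Set A := fun t => C (co t) ∪ C z
  have hSk : ∀ t, (Sk t).Countable := fun t => (hC1 _).union (hC1 _)
  let B := hull Sk ∅
  have hBc : B.Countable := hull_countable hSk countable_empty
  have hB : Cld Sk B := hull_cld Sk ∅
  let N : Set (A → Bool) := insert z (co '' {t | (↑t : Set A) ⊆ B})
  have hN : ∀ g ∈ N, C g ⊆ B := by
    rintro g (rfl | ⟨t, ht, rfl⟩)
    · exact subset_union_right.trans (hB ∅ (by simp))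
    · exact subset_union_left.trans (hB t ht)
  let p : A → Bool := fun a => decide (a ∉ B)
  have hp : p ∈ closure N := by
    rw [mem_closure_iff]
    intro U hU hpU
    obtain ⟨I, u, hu, hsub⟩ := isOpen_pi_iff.1 hU p hpU
    refine ⟨co (I.filter (· ∈ B)), hsub ?_, Or.inr ⟨_, ?_, rfl⟩⟩
    · intro a ha
      have : co (I.filter (· ∈ B)) a = p a := by
        simp only [co, p, Finset.mem_filter]
        simp [Finset.mem_coe.1 ha]
      rw [this]
      exact (hu a ha).2
    · intro a ha
      simp only [Finset.coe_filter, mem_ofPred_eq] at ha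
      exact ha.2
  have hq : z ∈ closure N := subset_closure (mem_insert _ _)
  have heq := hC2 N B hN p hp z hq (by
    intro a ha
    simp [e, p, z, ha])
  apply hA
  have huniv : B = univ := by
    ext a
    simp only [mem_univ, iff_true]
    by_contra hcon
    have := congrFun heq a
    simp [p, z, hcon] at this
  rw [huniv] at hBc
  exact countable_univ_iff.1 hBc

section sep

variable {X K : Type} [TopologicalSpace X] [TopologicalSpace K] [CompactSpace K]

/-- the hypothesis on `X` -/
def Hyp (X : Type) [TopologicalSpace X] : Prop :=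
  ∀ S : Set (X → ℝ), (∀ f ∈ S, Continuous f) → IsCompact S →
    ∃ (Γ : Type) (e : S → (Γ → ℝ)), Topology.IsEmbedding e ∧
      ∀ s, (Function.support (e s)).Countable

/-- no uncountable separated set in the image of a continuous map to a metric space -/
lemma separated_countable (hX : Hyp X) {E : Type} [MetricSpace E] {Φ : X → E}
    (hΦ : Continuous Φ) {ε : ℝ} (hε : 0 < ε) {t : Set E} (ht : t ⊆ range Φ)
    (hsep : ∀ a ∈ t, ∀ b ∈ t, a ≠ b → ε ≤ dist a b) : t.Countable := by
  classical
  by_contra hunc
  have hA : ¬ Countable t := fun h => hunc (to_countable t)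
  choose x hx using fun a : t => ht a.2
  let b : t → X → ℝ := fun a y => max 0 (1 - 3 * dist (Φ y) (a : E) / ε)
  have hb : ∀ a, Continuous (b a) := fun a => by
    refine continuous_const.max (continuous_const.sub ?_)
    exact (continuous_const.mul (hΦ.dist continuous_const)).div_const ε
  have hb0 : ∀ (a : t) (y : X), ε / 3 ≤ dist (Φ y) (a : E) → b a y = 0 := by
    intro a y h
    apply max_eq_left
    have h1 : 1 ≤ 3 * dist (Φ y) (a : E) / ε := by
      rw [le_div_iff₀ hε]; linarith
    linarith
  have hball : ∀ y y' (a a' : t), dist (Φ y) (Φ y') < ε / 6 → dist (Φ y) (a : E) < ε / 2 →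
      dist (Φ y') (a' : E) < ε / 3 → a' = a := by
    intro y y' a a' h1 h2 h3
    by_contra hne
    have h4 := hsep a a.2 a' a'.2 (fun h => hne (Subtype.ext h.symm))
    have h5 := dist_triangle4 (a : E) (Φ y) (Φ y') (a' : E)
    rw [dist_comm (a : E) (Φ y)] at h5
    linarith
  let c : Bool → ℝ := fun s => if s then 1 else 0
  let F : (t → Bool) → X → ℝ := fun s y => ∑ᶠ a, c (s a) * b a y
  have hcase : ∀ y : X, (∃ a : t, ∀ y', dist (Φ y) (Φ y') < ε / 6 → ∀ s, F s y' = c (s a) * b a y') ∨
      (∀ y', dist (Φ y) (Φ y') < ε / 6 → ∀ s, F s y' = 0) := by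
    intro y
    by_cases h : ∃ a : t, dist (Φ y) (a : E) < ε / 2
    · obtain ⟨a, ha⟩ := h
      refine Or.inl ⟨a, fun y' hy' s => ?_⟩
      apply finsum_eq_single
      intro a' ha'
      rw [hb0 a' y', mul_zero]
      by_contra hcon
      exact ha' (hball y y' a a' hy' ha (not_le.1 hcon))
    · push Not at h
      refine Or.inr fun y' hy' s => ?_
      apply finsum_eq_zero_of_forall_eq_zero
      intro a
      rw [hb0 a y', mul_zero]
      have h1 := h a
      have h2 := dist_triangle (Φ y) (Φ y') (a : E)
      linarith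
  have hFx : ∀ s, Continuous (F s) := by
    intro s
    rw [continuous_iff_continuousAt]
    intro y
    have hnb : {y' | dist (Φ y) (Φ y') < ε / 6} ∈ 𝓝 y := by
      apply (isOpen_lt (continuous_const.dist hΦ) continuous_const).mem_nhds
      simp only [mem_ofPred_eq, dist_self]
      positivity
    rcases hcase y with ⟨a, ha⟩ | h
    · have h1 : ContinuousAt (fun y' => c (s a) * b a y') y :=
        (continuous_const.mul (hb a)).continuousAt
      refine h1.congr ?_
      filter_upwards [hnb] with y' hy'
      exact (ha y' hy' s).symm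
    · have h1 : ContinuousAt (fun _ : X => (0 : ℝ)) y := continuousAt_const
      refine h1.congr ?_
      filter_upwards [hnb] with y' hy'
      exact (h y' hy' s).symm
  have hFs : Continuous F := by
    refine continuous_pi fun y => ?_
    have hd : dist (Φ y) (Φ y) < ε / 6 := by rw [dist_self]; positivity
    rcases hcase y with ⟨a, ha⟩ | h
    · have h1 : (fun s => F s y) = fun s => c (s a) * b a y := by
        ext s; exact ha y hd s
      rw [h1]
      refine Continuous.mul ?_ continuous_const
      exact (continuous_of_discreteTopology (f := c)).comp (continuous_apply a)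
    · have h1 : (fun s => F s y) = fun _ => 0 := by
        ext s; exact h y hd s
      rw [h1]
      exact continuous_const
  have hFval : ∀ s a, F s (x a) = c (s a) := by
    intro s a
    have h1 : F s (x a) = c (s a) * b a (x a) := by
      apply finsum_eq_single
      intro a' ha'
      rw [hb0 a' (x a), mul_zero]
      rw [hx a]
      have := hsep a a.2 a' a'.2 (fun h => ha' (Subtype.ext h.symm))
      linarith
    rw [h1]
    simp only [b, hx a, dist_self]
    simp
  have hinj : Function.Injective F := by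
    intro s s' h
    ext a
    have h1 := congrFun h (x a)
    rw [hFval, hFval] at h1
    simp only [c] at h1
    cases hs : s a <;> cases hs' : s' a <;> simp_all
  obtain ⟨Γ, e, he, hes⟩ := hX (range F) (by rintro _ ⟨s, rfl⟩; exact hFx s)
    (isCompact_range hFs)
  let G : (t → Bool) → range F := fun s => ⟨F s, s, rfl⟩
  have hG : Continuous G := hFs.subtype_mk _
  have hGemb : IsEmbedding G := (hG.isClosedEmbedding (fun s s' h =>
    hinj (congrArg Subtype.val h))).isEmbedding
  exact no_cube hA (he.comp hGemb) (fun s => hes (G s))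

/-- Step (1'). -/
lemma exists_countable_det (hX : Hyp X) {f : X × K → ℝ} (hf : Continuous f) :
    ∃ Q : Set X, Q.Countable ∧ ∀ k k', (∀ x ∈ Q, f (x, k) = f (x, k')) →
      ∀ x, f (x, k) = f (x, k') := by
  classical
  let Φ : X → C(K, ℝ) := fun x => (ContinuousMap.curry ⟨f, hf⟩) x
  have hΦ : Continuous Φ := (ContinuousMap.curry ⟨f, hf⟩).continuous
  have hΦa : ∀ x k, Φ x k = f (x, k) := fun x k => rfl
  have key : ∀ n : ℕ, ∃ Q : Set X, Q.Countable ∧ ∀ x, ∃ x' ∈ Q,
      dist (Φ x) (Φ x') ≤ 1 / ((n : ℝ) + 1) := by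
    intro n
    have hε : (0 : ℝ) < 1 / ((n : ℝ) + 1) := by positivity
    obtain ⟨t, ht⟩ := zorn_subset
      {t : Set C(K, ℝ) | t ⊆ range Φ ∧ ∀ a ∈ t, ∀ b ∈ t, a ≠ b → 1 / ((n : ℝ) + 1) ≤ dist a b}
      (by
        intro c hc hchain
        refine ⟨⋃₀ c, ⟨?_, ?_⟩, fun s hs => subset_sUnion_of_mem hs⟩
        · exact sUnion_subset fun s hs => (hc hs).1
        · rintro a ⟨s, hs, has⟩ b ⟨s', hs', hbs'⟩ hab
          rcases hchain.total hs hs' with h | h
          · exact (hc hs').2 a (h has) b hbs' hab
          · exact (hc hs).2 a has b (h hbs') hab)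
    have hcount := separated_countable hX hΦ hε ht.prop.1 ht.prop.2
    choose x hx using fun a : t => ht.prop.1 a.2
    have : Countable t := hcount.to_subtype
    refine ⟨range x, countable_range x, fun y => ?_⟩
    by_contra hcon
    push Not at hcon
    have hfar : ∀ a ∈ t, 1 / ((n : ℝ) + 1) < dist (Φ y) a := by
      intro a ha
      have := hcon (x ⟨a, ha⟩) ⟨_, rfl⟩
      rwa [hx ⟨a, ha⟩] at this
    have hins : insert (Φ y) t ∈ {t : Set C(K, ℝ) | t ⊆ range Φ ∧
        ∀ a ∈ t, ∀ b ∈ t, a ≠ b → 1 / ((n : ℝ) + 1) ≤ dist a b} := by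
      refine ⟨insert_subset ⟨y, rfl⟩ ht.prop.1, ?_⟩
      rintro a (rfl | ha) b (rfl | hb) hab
      · exact absurd rfl hab
      · exact (hfar b hb).le
      · rw [dist_comm]; exact (hfar a ha).le
      · exact ht.prop.2 a ha b hb hab
    have hmem : Φ y ∈ t := ht.le_of_ge hins (subset_insert _ _) (mem_insert _ _)
    have := hfar _ hmem
    rw [dist_self] at this
    linarith
  choose Q hQ1 hQ2 using key
  refine ⟨⋃ n, Q n, countable_iUnion hQ1, fun k k' hkk x => ?_⟩
  by_contra hne
  have hpos : 0 < |f (x, k) - f (x, k')| / 2 := by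
    have := abs_pos.2 (sub_ne_zero.2 hne)
    positivity
  obtain ⟨n, hn⟩ := exists_nat_one_div_lt hpos
  obtain ⟨x', hx', hd⟩ := hQ2 n x
  have h1 : |f (x, k) - f (x', k)| ≤ 1 / ((n : ℝ) + 1) := by
    rw [← Real.dist_eq]
    exact (ContinuousMap.dist_apply_le_dist (f := Φ x) (g := Φ x') k).trans hd
  have h2 : |f (x, k') - f (x', k')| ≤ 1 / ((n : ℝ) + 1) := by
    rw [← Real.dist_eq]
    exact (ContinuousMap.dist_apply_le_dist (f := Φ x) (g := Φ x') k').trans hd
  have h3 := hkk x' (mem_iUnion.2 ⟨n, hx'⟩)
  have h4 : |f (x, k) - f (x, k')| ≤ |f (x, k) - f (x', k)| + |f (x, k') - f (x', k')| := by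
    have : f (x, k) - f (x, k') = (f (x, k) - f (x', k)) - (f (x, k') - f (x', k')) := by
      rw [h3]; ring
    rw [this]
    exact abs_sub _ _
  linarith

end sep

end Pool.Agent.Helpers29.Corson
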