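import Mathlib
import Pool.Agent.Helpers29.Corson3

set_option autoImplicit false

namespace Pool.Agent.Helpers29.Corson

open Set Topology

theorem main (X : Type) [TopologicalSpace X] (hX : Hyp X)
    (K : Type) [TopologicalSpace K] [CompactSpace K] [T2Space K]
    (S : Set (X × K → ℝ)) (hS : ∀ f ∈ S, Continuous f) (hSc : IsCompact S) :
    ∃ (Γ : Type) (e : S → (Γ → ℝ)), Topology.IsEmbedding e ∧
      ∀ s, (Function.support (e s)).Countable := by
  classical
  have hTc : CompactSpace S := isCompact_iff_compactSpace.1 hSc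
  let e : S → X × K → ℝ := fun f z => f.1 z
  have he : ∀ z, Continuous fun t => e t z := fun z =>
    (continuous_apply z).comp continuous_subtype_val
  have hsep : ∀ p q : S, (∀ z, e p z = e q z) → p = q := fun p q h =>
    Subtype.ext (funext h)
  by_cases hne : Nonempty (X × K)
  swap
  · -- trivial case
    have hsub : Subsingleton S := ⟨fun p q => hsep p q fun z => absurd ⟨z⟩ hne⟩
    exact corson_of_crit (e := e) (Sk := fun _ => ∅) he (fun _ => countable_empty)
      (fun M _ _ p q _ _ _ => Subsingleton.elim p q)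
  obtain ⟨x0, k0⟩ := hne.some
  -- sections
  let sec : K → (X × K → ℝ) → (X → ℝ) := fun k f x => f (x, k)
  have hsec : ∀ k, Continuous (sec k) := fun k => continuous_pi fun x => continuous_apply _
  let Sk' : K → Set (X → ℝ) := fun k => sec k '' S
  have hSk'c : ∀ k, IsCompact (Sk' k) := fun k => hSc.image (hsec k)
  have hSk'cont : ∀ k, ∀ f ∈ Sk' k, Continuous f := by
    rintro k _ ⟨f, hf, rfl⟩
    exact (hS f hf).comp (continuous_id.prodMk continuous_const)
  have hC : ∀ k, ∃ C : Sk' k → Set X, (∀ t, (C t).Countable) ∧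
      ∀ (N : Set (Sk' k)) (V : Set X), (∀ g ∈ N, C g ⊆ V) →
      ∀ p ∈ closure N, ∀ q ∈ closure N, (∀ y ∈ V, p.1 y = q.1 y) → p = q := by
    intro k
    have : CompactSpace (Sk' k) := isCompact_iff_compactSpace.1 (hSk'c k)
    obtain ⟨Γ, φ, hφ, hφs⟩ := hX (Sk' k) (hSk'cont k) (hSk'c k)
    exact crit_of_corson (e := fun (g : Sk' k) x => g.1 x)
      (fun x => (continuous_apply x).comp continuous_subtype_val)
      (fun p q h => Subtype.ext (funext h)) hφ hφs
  choose C hC1 hC2 using hC
  let sx : ∀ k, S → Sk' k := fun k f => ⟨sec k f.1, f.1, f.2, rfl⟩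
  have hsx : ∀ k, Continuous (sx k) := fun k =>
    ((hsec k).comp continuous_subtype_val).subtype_mk _
  -- countable determining sets
  choose Q hQ1 hQ2 using fun f : S => exists_countable_det hX (hS f.1 f.2)
  -- density in `K`
  let eK : K → (X × S) → ℝ := fun k z => z.2.1 (z.1, k)
  have heK : ∀ z, Continuous fun k => eK k z := fun z =>
    (hS z.2.1 z.2.2).comp (continuous_const.prodMk continuous_id)
  let prs : Finset ((X × K) ⊕ S) → Finset (X × S) := fun t =>
    (t.toLeft.image Prod.fst) ×ˢ t.toRight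
  choose D hD1 hD2 hD3 using fun t : Finset ((X × K) ⊕ S) => exists_dense eK univ (prs t)
  -- the operation
  let Op : Finset ((X × K) ⊕ S) → Set ((X × K) ⊕ S) := fun t =>
    {Sum.inl (x0, k0)} ∪
    (⋃ y ∈ t.toLeft, ⋃ y' ∈ t.toLeft, {Sum.inl (y.1, y'.2)}) ∪
    (⋃ y ∈ t.toLeft, ⋃ f ∈ t.toRight, (fun x => Sum.inl (x, y.2)) '' (C y.2 (sx y.2 f))) ∪
    (⋃ y ∈ t.toLeft, ⋃ f ∈ t.toRight, (fun x => Sum.inl (x, y.2)) '' (Q f)) ∪
    (⋃ y ∈ t.toLeft, (fun k => Sum.inl (y.1, k)) '' (D t))
  have hOp : ∀ t, (Op t).Countable := by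
    intro t
    refine ((((countable_singleton _).union ?_).union ?_).union ?_).union ?_
    · exact (t.toLeft.countable_toSet).biUnion fun y _ =>
        (t.toLeft.countable_toSet).biUnion fun y' _ => countable_singleton _
    · exact (t.toLeft.countable_toSet).biUnion fun y _ =>
        (t.toRight.countable_toSet).biUnion fun f _ => (hC1 _ _).image _
    · exact (t.toLeft.countable_toSet).biUnion fun y _ =>
        (t.toRight.countable_toSet).biUnion fun f _ => (hQ1 _).image _
    · exact (t.toLeft.countable_toSet).biUnion fun y _ => (hD2 _).image _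
  refine corson_of_crit (e := e) (Sk := Op) he hOp ?_
  intro M _ hM p q hp hq hpq
  -- closure properties
  have hM0 : Sum.inl (x0, k0) ∈ M := by
    refine hM ∅ (by simp) ?_
    exact Or.inl (Or.inl (Or.inl (Or.inl rfl)))
  have hMprod : ∀ y y' : X × K, Sum.inl y ∈ M → Sum.inl y' ∈ M → Sum.inl (y.1, y'.2) ∈ M := by
    intro y y' hy hy'
    refine hM {Sum.inl y, Sum.inl y'} ?_ ?_
    · intro z hz
      simp only [Finset.coe_insert, Finset.coe_singleton, mem_insert_iff,
        mem_singleton_iff] at hz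
      rcases hz with rfl | rfl
      · exact hy
      · exact hy'
    · refine Or.inl (Or.inl (Or.inl (Or.inr ?_)))
      refine mem_biUnion (x := y) (by simp) ?_
      exact mem_biUnion (x := y') (by simp) rfl
  have hMC : ∀ (y : X × K) (f : S), Sum.inl y ∈ M → Sum.inr f ∈ M →
      ∀ x ∈ C y.2 (sx y.2 f), Sum.inl (x, y.2) ∈ M := by
    intro y f hy hf x hx
    refine hM {Sum.inl y, Sum.inr f} ?_ ?_
    · intro z hz
      simp only [Finset.coe_insert, Finset.coe_singleton, mem_insert_iff,
        mem_singleton_iff] at hz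
      rcases hz with rfl | rfl
      · exact hy
      · exact hf
    · refine Or.inl (Or.inl (Or.inr ?_))
      refine mem_biUnion (x := y) (by simp) ?_
      exact mem_biUnion (x := f) (by simp) ⟨x, hx, rfl⟩
  have hMQ : ∀ (y : X × K) (f : S), Sum.inl y ∈ M → Sum.inr f ∈ M →
      ∀ x ∈ Q f, Sum.inl (x, y.2) ∈ M := by
    intro y f hy hf x hx
    refine hM {Sum.inl y, Sum.inr f} ?_ ?_
    · intro z hz
      simp only [Finset.coe_insert, Finset.coe_singleton, mem_insert_iff,
        mem_singleton_iff] at hz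
      rcases hz with rfl | rfl
      · exact hy
      · exact hf
    · refine Or.inl (Or.inr ?_)
      refine mem_biUnion (x := y) (by simp) ?_
      exact mem_biUnion (x := f) (by simp) ⟨x, hx, rfl⟩
  let KM : Set K := {k | ∃ x, Sum.inl (x, k) ∈ M}
  let XM : Set X := {x | ∃ k, Sum.inl (x, k) ∈ M}
  -- Step i
  have step1 : ∀ k ∈ KM, ∀ x, p.1 (x, k) = q.1 (x, k) := by
    rintro k ⟨x1, hx1⟩ x
    let N : Set (Sk' k) := sx k '' (MT M)
    have hcl : ∀ t ∈ closure (MT M), sx k t ∈ closure N := fun t ht =>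
      image_closure_subset_closure_image (hsx k) ⟨t, ht, rfl⟩
    have heq := hC2 k N {x | Sum.inl (x, k) ∈ M} (by
      rintro _ ⟨f, hf, rfl⟩ x hx
      exact hMC (x1, k) f hx1 hf x hx) (sx k p) (hcl p hp) (sx k q) (hcl q hq)
      (fun y hy => hpq (y, k) hy)
    exact congrFun (congrArg Subtype.val heq) x
  -- Step ii
  apply hsep
  rintro ⟨x, k⟩
  obtain ⟨k', hk', hk'2⟩ := density' (T := K) heK (E := univ) (G := KM)
    (V := {z : X × S | z.1 ∈ XM ∧ Sum.inr z.2 ∈ M}) (by
      intro s hs f _ ε hε
      -- choose witnesses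
      have hx : ∀ z ∈ s, ∃ k, Sum.inl (z.1, k) ∈ M := fun z hz => (hs hz).1
      have hKne : Nonempty K := ⟨k0⟩
      choose! κ hκ using hx
      let t : Finset ((X × K) ⊕ S) :=
        insert (Sum.inl (x0, k0)) ((s.image fun z => Sum.inl (z.1, κ z)) ∪
          (s.image fun z => Sum.inr z.2))
      have ht : (↑t : Set ((X × K) ⊕ S)) ⊆ M := by
        intro w hw
        simp only [t, Finset.coe_insert, Finset.coe_union, Finset.coe_image, mem_insert_iff,
          mem_union, mem_image, Finset.mem_coe] at hw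
        rcases hw with rfl | ⟨z, hz, rfl⟩ | ⟨z, hz, rfl⟩
        · exact hM0
        · exact hκ z hz
        · exact (hs hz).2
      obtain ⟨g, hg, hg2⟩ := hD3 t f (mem_univ _) ε hε
      refine ⟨g, ⟨x0, ?_⟩, ?_⟩
      · refine hM t ht (Or.inr ?_)
        exact mem_biUnion (x := (x0, k0)) (by simp [t]) ⟨g, hg, rfl⟩
      · intro z hz
        apply hg2
        simp only [prs, Finset.mem_product, Finset.mem_image, Finset.mem_toLeft,
          Finset.mem_toRight]
        constructor
        · refine ⟨(z.1, κ z), ?_, rfl⟩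
          simp only [t, Finset.mem_insert, Finset.mem_union, Finset.mem_image]
          exact Or.inr (Or.inl ⟨z, hz, rfl⟩)
        · simp only [t, Finset.mem_insert, Finset.mem_union, Finset.mem_image]
          exact Or.inr (Or.inr ⟨z, hz, rfl⟩)) (p := k) (by simp)
  -- `p` and `q` agree at `k'`
  have h1 : p.1 (x, k') = q.1 (x, k') := by
    have hclosed : IsClosed {k : K | p.1 (x, k) = q.1 (x, k)} :=
      isClosed_eq ((hS p.1 p.2).comp (continuous_const.prodMk continuous_id))
        ((hS q.1 q.2).comp (continuous_const.prodMk continuous_id))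
    exact closure_minimal (s := KM) (t := {k : K | p.1 (x, k) = q.1 (x, k)})
      (fun k hk => step1 k hk x) hclosed hk'
  -- members of the closure do not distinguish `k` and `k'`
  have h2 : ∀ t ∈ closure (MT M), t.1 (x, k') = t.1 (x, k) := by
    have hclosed : IsClosed {t : S | t.1 (x, k') = t.1 (x, k)} :=
      isClosed_eq (he (x, k')) (he (x, k))
    intro t ht
    refine closure_minimal (s := MT M) (t := {t : S | t.1 (x, k') = t.1 (x, k)}) ?_ hclosed ht
    intro f hf
    refine hQ2 f k' k ?_ x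
    intro x' hx'
    have hx'M : x' ∈ XM := ⟨k0, hMQ (x0, k0) f hM0 hf x' hx'⟩
    exact hk'2 (x', f) ⟨hx'M, hf⟩
  change p.1 (x, k) = q.1 (x, k)
  rw [← h2 p hp, h1, h2 q hq]

end Pool.Agent.Helpers29.Corson
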