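import Mathlib

namespace Pool.Agent.Helpers29.Fox47cbd1

open ProfiniteGrp ProfiniteGrp.ProfiniteCompletion CategoryTheory

/-- The free profinite group on two generators, as the profinite completion of the free group. -/
def F2hat : Type := completion (GrpCat.of (FreeGroup (Fin 2)))

/-- The group structure of `F2hat`, that of the profinite completion. -/
noncomputable instance instGroupF2hat : Group F2hat :=
  (completion (GrpCat.of (FreeGroup (Fin 2)))).group

/-- The topology of `F2hat`, that of the profinite completion. -/
instance instTopF2hat : TopologicalSpace F2hat :=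
  (completion (GrpCat.of (FreeGroup (Fin 2)))).toProfinite.toTop.str

instance instTopGroupF2hat : IsTopologicalGroup F2hat :=
  (completion (GrpCat.of (FreeGroup (Fin 2)))).topologicalGroup

/-- The profinite completion of `ℤ` (written multiplicatively). -/
def Zhat : Type := completion (GrpCat.of (Multiplicative ℤ))

/-- The group structure of `Zhat`, that of the profinite completion. -/
noncomputable instance instGroupZhat : Group Zhat :=
  (completion (GrpCat.of (Multiplicative ℤ))).group

/-- The topology of `Zhat`, that of the profinite completion. -/
instance instTopZhat : TopologicalSpace Zhat :=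
  (completion (GrpCat.of (Multiplicative ℤ))).toProfinite.toTop.str

/-- The generators `x = gen 0` and `y = gen 1` of `F2hat`. -/
noncomputable def gen (i : Fin 2) : F2hat :=
  etaFn (GrpCat.of (FreeGroup (Fin 2))) (FreeGroup.of i)

/-- The canonical map from `ℤ` to `Zhat`. -/
noncomputable def toZhat (n : Multiplicative ℤ) : Zhat := etaFn (GrpCat.of (Multiplicative ℤ)) n

/-- The element `1` of (the ring) `Zhat`, i.e. its topological generator. -/
noncomputable def oneZ : Zhat := toZhat (Multiplicative.ofAdd 1)

/-- `h = g ^ l`: the continuous homomorphism `Zhat → P` which sends `1` to `g` sends `l` to `h`. -/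
def IsPow {P : Type} [Group P] [TopologicalSpace P] (g : P) (l : Zhat) (h : P) : Prop :=
  ∃ θ : Zhat →ₜ* P, θ oneZ = g ∧ θ l = h

/-- `l` is a unit of the ring `Zhat`: some `m` has `l * m = 1` (the product of the ring `Zhat` is
`l * m = l ^ m` in the notation of the multiplicatively written group `Zhat`). -/
def IsUnitZhat (l : Zhat) : Prop := ∃ m : Zhat, IsPow l m oneZ

/-- The derived subgroup of `F2hat`: the closed subgroup generated by the commutators. -/
noncomputable def derived : Subgroup F2hat := (commutator F2hat).topologicalClosure

/-- `φ` is the continuous endomorphism `x ↦ x ^ l`, `y ↦ f⁻¹ y ^ l f`. -/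
def IsPhi (l : Zhat) (f : F2hat) (φ : F2hat →ₜ* F2hat) : Prop :=
  IsPow (gen 0) l (φ (gen 0)) ∧ ∃ h : F2hat, IsPow (gen 1) l h ∧ φ (gen 1) = f⁻¹ * h * f

end Pool.Agent.Helpers29.Fox47cbd1
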