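import Mathlib

set_option autoImplicit false

namespace Pool.Agent.Helpers29.Deg

open Finset

/-- constant-coefficient linear recurrence sequence, indexed by `n ≥ 1` -/
def IsLRS (L : ℕ → ℂ) : Prop :=
  ∃ (k : ℕ) (_ : 1 ≤ k) (c : Fin k → ℂ), ∀ n, 1 ≤ n → L (n + k) = ∑ i : Fin k, c i * L (n + i)

theorem ap_rel {L : ℕ → ℂ} {k : ℕ} (hk : 1 ≤ k) {c : Fin k → ℂ}
    (h : ∀ n, 1 ≤ n → L (n + k) = ∑ i : Fin k, c i * L (n + i)) (n₀ d : ℕ) (hn : 1 ≤ n₀) :
    ∃ q : Polynomial ℂ, q.coeff k = 1 ∧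
      ∀ j, ∑ i ∈ range (k + 1), q.coeff i * L (n₀ + (j + i) * d) = 0 := by
  let T : (Fin k → ℂ) →ₗ[ℂ] (Fin k → ℂ) :=
    { toFun := fun v i => if hi : (i : ℕ) + 1 < k then v ⟨i + 1, hi⟩ else ∑ j, c j * v j
      map_add' := by
        intro v w
        funext i
        simp only [Pi.add_apply]
        split_ifs
        · rfl
        · simp only [mul_add, Finset.sum_add_distrib]
      map_smul' := by
        intro a v
        funext i
        simp only [Pi.smul_apply, smul_eq_mul, RingHom.id_apply]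
        split_ifs
        · rfl
        · rw [Finset.mul_sum]
          refine Finset.sum_congr rfl (fun j _ => by ring) }
  let s : ℕ → (Fin k → ℂ) := fun n i => L (n + i)
  have hT : ∀ n, 1 ≤ n → T (s n) = s (n + 1) := by
    intro n hn1
    funext i
    change (if hi : (i : ℕ) + 1 < k then L (n + (i + 1)) else ∑ j, c j * L (n + j)) = L (n + 1 + i)
    split_ifs with hi
    · congr 1; ring
    · have : (i : ℕ) + 1 = k := by have := i.2; omega
      rw [← h n hn1]
      congr 1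
      omega
  have hTm : ∀ m n, 1 ≤ n → (T ^ m) (s n) = s (n + m) := by
    intro m
    induction m with
    | zero => intro n _; simp
    | succ m ih =>
      intro n hn1
      rw [pow_succ', Module.End.mul_apply, ih n hn1, hT _ (by omega)]
      rfl
  set f : (Fin k → ℂ) →ₗ[ℂ] (Fin k → ℂ) := T ^ d with hf
  have hfi : ∀ i n, 1 ≤ n → (f ^ i) (s n) = s (n + d * i) := by
    intro i n hn1
    rw [hf, ← pow_mul, hTm _ _ hn1]
  have hdeg : f.charpoly.natDegree = k := by
    rw [LinearMap.charpoly_natDegree, Module.finrank_fin_fun]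
  have hmon : f.charpoly.Monic := LinearMap.charpoly_monic f
  refine ⟨f.charpoly, ?_, ?_⟩
  · have := hmon.coeff_natDegree
    rwa [hdeg] at this
  · intro j
    have h0 := LinearMap.aeval_self_charpoly f
    rw [Polynomial.aeval_eq_sum_range, hdeg] at h0
    have h1 := congrArg (fun g : (Fin k → ℂ) →ₗ[ℂ] (Fin k → ℂ) => g (s (n₀ + j * d)) ⟨0, hk⟩) h0
    simp only [LinearMap.sum_apply, LinearMap.smul_apply, LinearMap.zero_apply, Pi.zero_apply,
      Finset.sum_apply, Pi.smul_apply, smul_eq_mul] at h1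
    rw [← h1]
    refine Finset.sum_congr rfl (fun i _ => ?_)
    rw [hfi i _ (by omega)]
    congr 1
    change L (n₀ + (j + i) * d) = L (n₀ + j * d + d * i + 0)
    congr 1
    ring

theorem affine_ext (u : ℕ → ℂ) (k : ℕ) (q : Polynomial ℂ) (hq : q.coeff k = 1)
    (h : ∀ j, ∑ i ∈ range (k + 1), q.coeff i * u (j + i) = 0) (α β : ℂ)
    (h0 : ∀ j, j ≤ k + 1 → u j = α + β * j) : ∀ j, u j = α + β * j := by
  have hv : ∀ j, ∑ i ∈ range (k + 1), q.coeff i * (u (j + i + 1) - u (j + i)) = 0 := by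
    intro j
    have e1 := h j
    have e2 := h (j + 1)
    rw [← sub_eq_zero.2 (e2.trans e1.symm), ← Finset.sum_sub_distrib]
    refine Finset.sum_congr rfl (fun i _ => ?_)
    have : j + 1 + i = j + i + 1 := by ring
    rw [this]; ring
  have hv0 : ∀ j, j ≤ k → u (j + 1) - u j = β := by
    intro j hj
    rw [h0 _ (by omega), h0 _ (by omega)]
    push_cast; ring
  have hs : ∑ i ∈ range k, q.coeff i * β + β = 0 := by
    have e := hv 0
    rw [Finset.sum_range_succ, hq] at e
    have e2 : ∑ i ∈ range k, q.coeff i * (u (0 + i + 1) - u (0 + i)) =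
        ∑ i ∈ range k, q.coeff i * β := by
      refine Finset.sum_congr rfl (fun i hi => ?_)
      rw [Nat.zero_add, hv0 i (le_of_lt (Finset.mem_range.1 hi))]
    rw [e2, Nat.zero_add, hv0 k le_rfl, one_mul] at e
    exact e
  have hvall : ∀ j, u (j + 1) - u j = β := by
    intro j
    induction j using Nat.strong_induction_on with
    | _ j ih =>
      by_cases hj : j ≤ k
      · exact hv0 j hj
      · obtain ⟨m, rfl⟩ : ∃ m, j = m + k := ⟨j - k, by omega⟩
        have hm : 1 ≤ m := by omega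
        have e := hv m
        rw [Finset.sum_range_succ, hq, one_mul] at e
        have e2 : ∑ i ∈ range k, q.coeff i * (u (m + i + 1) - u (m + i)) =
            ∑ i ∈ range k, q.coeff i * β := by
          refine Finset.sum_congr rfl (fun i hi => ?_)
          rw [ih (m + i) (by have := Finset.mem_range.1 hi; omega)]
        rw [e2] at e
        linear_combination e - hs
  intro j
  induction j with
  | zero => exact h0 0 (by omega)
  | succ j ih =>
    have := hvall j
    push_cast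
    linear_combination this + ih

theorem window (r ℓ : ℕ) : ∃ H : ℕ, ∀ (C : ℕ → Fin r) (s : ℕ), ∃ b a : ℕ, 1 ≤ a ∧ a ≤ H ∧
    b ≤ H * ℓ ∧ ∃ col, ∀ x, x ≤ ℓ → C (s + b + x * a) = col := by
  classical
  obtain ⟨ι, hι, hmono⟩ := Combinatorics.Line.exists_mono_in_high_dimension (Fin (ℓ + 1)) (Fin r)
  refine ⟨Fintype.card ι, fun C s => ?_⟩
  obtain ⟨l, col, hl⟩ := hmono (fun v => C (s + ∑ i, (v i : ℕ)))
  refine ⟨∑ i, ((l.idxFun i).elim 0 (fun y => (y : ℕ))),
    (Finset.univ.filter (fun i => l.idxFun i = none)).card, ?_, ?_, ?_, col, ?_⟩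
  · obtain ⟨i, hi⟩ := l.proper
    exact Finset.card_pos.2 ⟨i, by simp [hi]⟩
  · exact Finset.card_le_univ _
  · calc ∑ i, ((l.idxFun i).elim 0 (fun y => (y : ℕ))) ≤ ∑ _i : ι, ℓ := by
          refine Finset.sum_le_sum (fun i _ => ?_)
          cases h : l.idxFun i with
          | none => simp
          | some y => simpa using Nat.lt_succ_iff.1 y.2
      _ = Fintype.card ι * ℓ := by simp
  · intro x hx
    rw [← hl ⟨x, Nat.lt_succ_of_le hx⟩]
    congr 1
    rw [add_assoc]
    congr 1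
    have e : ∀ i, ((l ⟨x, Nat.lt_succ_of_le hx⟩ i : Fin (ℓ + 1)) : ℕ) =
        ((l.idxFun i).elim 0 (fun y => (y : ℕ))) + (if l.idxFun i = none then x else 0) := by
      intro i
      cases h : l.idxFun i with
      | none => simp [Combinatorics.Line.coe_apply, h]
      | some y => simp [Combinatorics.Line.coe_apply, h]
    rw [Finset.sum_congr rfl (fun i _ => e i), Finset.sum_add_distrib]
    congr 1
    rw [Finset.sum_ite, Finset.sum_const_zero, add_zero, Finset.sum_const, smul_eq_mul]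
    ring

theorem not_lrs (p : ℕ) (hp : 2 ≤ p) (D : ℕ → ℕ)
    (hD : ∀ K n, p ^ K < n → n ≤ p ^ (K + 1) → D n + (K + 1) = 2 * n + 1) :
    ¬ ∃ (r : ℕ) (L : Fin r → ℕ → ℂ) (ι : ℕ → Fin r), (∀ i, IsLRS (L i)) ∧
      ∀ n, 1 ≤ n → (D n : ℂ) = L (ι n) n := by
  rintro ⟨r, L, ι, hL, hDL⟩
  choose k hk c hc using hL
  obtain ⟨ℓ, hℓ⟩ : ∃ ℓ, ∀ i, k i + 1 ≤ ℓ :=
    ⟨Finset.univ.sup (fun i => k i + 1), fun i => Finset.le_sup (f := fun i => k i + 1) (Finset.mem_univ i)⟩
  obtain ⟨H, hH⟩ := window r ℓ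
  set K0 := 2 * (H * ℓ) + 1 with hK0
  have hdata : ∀ m : ℕ, ∃ b a : ℕ, 1 ≤ a ∧ a ≤ H ∧ b ≤ H * ℓ ∧
      ∃ col, ∀ x, x ≤ ℓ → ι (p ^ (K0 + m) + 1 + b + x * a) = col := fun m => hH ι _
  choose b a ha1 haH hb col hcol using hdata
  have hwin : ∀ m x, x ≤ ℓ → p ^ (K0 + m) < p ^ (K0 + m) + 1 + b m + x * a m ∧
      p ^ (K0 + m) + 1 + b m + x * a m ≤ p ^ (K0 + m + 1) := by
    intro m x hx
    refine ⟨by omega, ?_⟩
    have h1 : K0 + m < p ^ (K0 + m) :=
      lt_of_lt_of_le Nat.lt_two_pow_self (Nat.pow_le_pow_left hp _)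
    have h2 : p ^ (K0 + m + 1) ≥ 2 * p ^ (K0 + m) := by
      rw [pow_succ, mul_comm]
      exact Nat.mul_le_mul_right _ hp
    have h3 : x * a m ≤ ℓ * H := Nat.mul_le_mul hx (haH m)
    have h4 := hb m
    have h5 : ℓ * H = H * ℓ := mul_comm _ _
    omega
  haveI : NeZero H.factorial := ⟨Nat.factorial_ne_zero H⟩
  obtain ⟨x, y, hxy, hfxy⟩ := Finite.exists_ne_map_eq_of_infinite
    (fun m : ℕ => (col m, ((p ^ (K0 + m) + 1 + b m : ℕ) : ZMod H.factorial)))
  have main : ∀ x y : ℕ, x < y → col x = col y →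
      ((p ^ (K0 + x) + 1 + b x : ℕ) : ZMod H.factorial) = ((p ^ (K0 + y) + 1 + b y : ℕ) : ZMod H.factorial) →
      False := by
    intro x y hlt hcxy hmod
    set nx := p ^ (K0 + x) + 1 + b x with hnx
    set ny := p ^ (K0 + y) + 1 + b y with hny
    have hnlt : nx ≤ ny := by
      have e1 := (hwin x 0 (Nat.zero_le _)).2
      have e2 := (hwin y 0 (Nat.zero_le _)).1
      have e3 : p ^ (K0 + x + 1) ≤ p ^ (K0 + y) := Nat.pow_le_pow_right (by omega) (by omega)
      simp only [Nat.zero_mul, Nat.add_zero] at e1 e2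
      omega
    have hdvd : a x ∣ ny - nx := by
      refine dvd_trans (Nat.dvd_factorial (ha1 x) (haH x)) ?_
      exact (Nat.modEq_iff_dvd' hnlt).1 ((ZMod.natCast_eq_natCast_iff _ _ _).1 hmod)
    obtain ⟨j, hj⟩ := hdvd
    have hny2 : ny = nx + j * a x := by
      rw [mul_comm] at hj
      omega
    obtain ⟨q, hq, hrel⟩ := ap_rel (hk (col x)) (hc (col x)) nx (a x) (by omega)
    have hval : ∀ m z, z ≤ ℓ → L (col m) (p ^ (K0 + m) + 1 + b m + z * a m) =
        2 * ((p ^ (K0 + m) + 1 + b m + z * a m : ℕ) : ℂ) + 1 - ((K0 + m + 1 : ℕ) : ℂ) := by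
      intro m z hz
      have e1 := hDL (p ^ (K0 + m) + 1 + b m + z * a m) (by omega)
      rw [hcol m z hz] at e1
      rw [← e1]
      have e2 := hD (K0 + m) _ (hwin m z hz).1 (hwin m z hz).2
      have e3 : ((D (p ^ (K0 + m) + 1 + b m + z * a m) + (K0 + m + 1) : ℕ) : ℂ) =
          ((2 * (p ^ (K0 + m) + 1 + b m + z * a m) + 1 : ℕ) : ℂ) := by rw [e2]
      push_cast at e3 ⊢
      linear_combination e3
    have haff := affine_ext (fun j => L (col x) (nx + j * a x)) (k (col x)) q hq hrel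
      (2 * (nx : ℂ) + 1 - ((K0 + x + 1 : ℕ) : ℂ)) (2 * (a x : ℂ)) (by
        intro j hj
        have := hval x j (hj.trans (hℓ _))
        simp only [← hnx] at this
        rw [this]
        push_cast
        ring)
    have e1 := haff j
    simp only [← hny2] at e1
    have e2 := hval y 0 (Nat.zero_le _)
    simp only [Nat.zero_mul, Nat.add_zero, ← hny] at e2
    rw [hcxy, e2] at e1
    have e3 : ((K0 + x + 1 : ℕ) : ℂ) = ((K0 + y + 1 : ℕ) : ℂ) := by
      have : (ny : ℂ) = nx + j * a x := by exact_mod_cast congrArg (Nat.cast : ℕ → ℂ) hny2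
      rw [this] at e1
      linear_combination e1
    have e4 : K0 + x + 1 = K0 + y + 1 := by exact_mod_cast e3
    omega
  rw [Prod.mk.injEq] at hfxy
  rcases lt_or_gt_of_ne hxy with hlt | hlt
  · exact main x y hlt hfxy.1 hfxy.2
  · exact main y x hlt hfxy.1.symm hfxy.2.symm

end Pool.Agent.Helpers29.Deg
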