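import Pool.Agent.Helpers29.DegA

set_option autoImplicit false

namespace Pool.Agent.Helpers29.Deg

open MvPolynomial Finset

section defs

variable {K : Type} [Field K] {N : ℕ}

/-- the `n`-fold composition of the tuple `F`, computed by substitution (nothing divided out) -/
noncomputable def iter (F : Fin (N + 1) → MvPolynomial (Fin (N + 1)) K) :
    ℕ → Fin (N + 1) → MvPolynomial (Fin (N + 1)) K
  | 0 => X
  | n + 1 => fun i => bind₁ (iter F n) (F i)

/-- every common factor of the coordinates is a unit (a nonzero constant) -/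
def NoCommonFactor (G : Fin (N + 1) → MvPolynomial (Fin (N + 1)) K) : Prop :=
  ∀ g : MvPolynomial (Fin (N + 1)) K, (∀ i, g ∣ G i) → IsUnit g

/-- `F` is the reduced tuple of a rational self-map of `ℙ^N` of degree `d` -/
def IsRationalMap (F : Fin (N + 1) → MvPolynomial (Fin (N + 1)) K) (d : ℕ) : Prop :=
  (∀ i, (F i).IsHomogeneous d) ∧ NoCommonFactor F

/-- the coordinates satisfy no nontrivial polynomial relation -/
def Dominant (F : Fin (N + 1) → MvPolynomial (Fin (N + 1)) K) : Prop :=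
  ∀ P : MvPolynomial (Fin (N + 1)) K, aeval F P = 0 → P = 0

/-- `e = deg (f^n)`: after removing a common factor `h` from the `n`-th iterate one gets a tuple `G`
without common factors, homogeneous of degree `e` -/
def IsIterateDegree (F : Fin (N + 1) → MvPolynomial (Fin (N + 1)) K) (n e : ℕ) : Prop :=
  ∃ (h : MvPolynomial (Fin (N + 1)) K) (G : Fin (N + 1) → MvPolynomial (Fin (N + 1)) K),
    h ≠ 0 ∧ (∀ i, iter F n i = h * G i) ∧ IsRationalMap G e

end defs

section arith

variable {K : Type} [Field K] (p : ℕ) [Fact p.Prime] [Algebra (ZMod p) K]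

/-- the coefficient `c_j` -/
def cc (t : K) (j : ℕ) : K := (1 + t) ^ j - t ^ j - 1

theorem cc_zero_iff {t : K} (ht : Transcendental (ZMod p) t) (j : ℕ) :
    cc t j = 0 ↔ ∃ k, j = p ^ k := by
  have hp : p.Prime := Fact.out
  have : CharP K p := charP_of_injective_algebraMap (algebraMap (ZMod p) K).injective p
  constructor
  · intro h
    set q : Polynomial (ZMod p) := (1 + Polynomial.X) ^ j - Polynomial.X ^ j - 1 with hq
    have hq0 : q = 0 := by
      by_contra hne
      apply ht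
      refine ⟨q, hne, ?_⟩
      rw [hq]
      simpa [cc] using h
    rcases Nat.eq_zero_or_pos j with rfl | hj
    · rw [hq] at hq0
      simp at hq0
    · obtain ⟨a, m, hm, rfl⟩ := Nat.exists_eq_pow_mul_and_not_dvd hj.ne' p hp.one_lt.ne'
      by_cases hm1 : m = 1
      · exact ⟨a, by rw [hm1, mul_one]⟩
      · exfalso
        have hpa : 0 < p ^ a := pow_pos hp.pos a
        have e1 : (1 + Polynomial.X : Polynomial (ZMod p)) ^ (p ^ a * m) =
            Polynomial.expand (ZMod p) (p ^ a) ((1 + Polynomial.X) ^ m) := by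
          rw [pow_mul, add_pow_char_pow, one_pow, map_pow, map_add, map_one, Polynomial.expand_X]
        have e2 := congrArg (fun r => Polynomial.coeff r (1 * p ^ a)) hq0
        have e3 := Polynomial.coeff_expand_mul hpa ((1 + Polynomial.X) ^ m :
          Polynomial (ZMod p)) 1
        rw [one_mul, Polynomial.coeff_one_add_X_pow, Nat.choose_one_right] at e3
        simp only [hq, Polynomial.coeff_sub, Polynomial.coeff_zero, e1, one_mul, e3,
          Polynomial.coeff_X_pow, Polynomial.coeff_one] at e2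
        rw [if_neg, if_neg hpa.ne', sub_zero, sub_zero] at e2
        · exact hm ((ZMod.natCast_eq_zero_iff _ _).1 e2)
        · intro h'
          apply hm1
          exact (Nat.eq_of_mul_eq_mul_left hpa (by rw [mul_one]; exact h')).symm
  · rintro ⟨k, rfl⟩
    rw [cc, add_pow_char_pow, one_pow]
    ring

end arith

section main

variable {K : Type} [Field K] (t : K)


noncomputable def FF : Fin 5 → MvPolynomial (Fin 5) K :=
  ![X 0 ^ 3, (1 + C t) * X 1 * X 0 ^ 2 + C t * X 3 ^ 2 * X 0,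
    C t * X 2 * X 0 ^ 2 + (C t - 1) * X 3 ^ 2 * X 0, X 3 * X 0 ^ 2,
    X 4 * (X 1 * X 0 - X 2 * X 0 - X 3 ^ 2)]

noncomputable def AP (n : ℕ) : MvPolynomial (Fin 5) K :=
  (1 + C t) ^ n * X 1 * X 0 + ((1 + C t) ^ n - 1) * X 3 ^ 2

noncomputable def BP (n : ℕ) : MvPolynomial (Fin 5) K :=
  (C t) ^ n * X 2 * X 0 + ((C t) ^ n - 1) * X 3 ^ 2

noncomputable def QP (n : ℕ) : MvPolynomial (Fin 5) K := AP t n - BP t n - X 3 ^ 2

noncomputable def LP (n : ℕ) : MvPolynomial (Fin 5) K := (1 + C t) ^ n * X 1 - (C t) ^ n * X 2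

theorem QP_eq (n : ℕ) : QP t n = X 0 * LP t n + C (cc t n) * X 3 ^ 2 := by
  simp only [QP, AP, BP, LP, cc, map_sub, map_pow, map_add, map_one]
  ring

theorem forms (n : ℕ) :
    iter (N := 4) (FF t) n 0 = X 0 ^ (3 ^ n) ∧
    X 0 ^ 2 * iter (N := 4) (FF t) n 1 = X 0 ^ (3 ^ n) * AP t n ∧
    X 0 ^ 2 * iter (N := 4) (FF t) n 2 = X 0 ^ (3 ^ n) * BP t n ∧
    X 0 * iter (N := 4) (FF t) n 3 = X 0 ^ (3 ^ n) * X 3 ∧
    X 0 ^ (2 * n + 1) * iter (N := 4) (FF t) n 4 =
      X 0 ^ (3 ^ n) * (X 4 * ∏ j ∈ range n, QP t j) := by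
  induction n with
  | zero =>
    refine ⟨by simp [iter], ?_, ?_, ?_, ?_⟩
    · simp [iter, AP]; ring
    · simp [iter, BP]; ring
    · simp [iter]
    · simp [iter]
  | succ n ih =>
    obtain ⟨h0, h1, h2, h3, h4⟩ := ih
    have hE : (X 0 : MvPolynomial (Fin 5) K) ^ (3 ^ (n + 1)) = (X 0 ^ (3 ^ n)) ^ 3 := by
      rw [pow_succ 3 n, pow_mul]
    have k0 : iter (N := 4) (FF t) (n + 1) 0 = (iter (N := 4) (FF t) n 0) ^ 3 := by
      simp [iter, FF]
    have k1 : iter (N := 4) (FF t) (n + 1) 1 = (1 + C t) * iter (N := 4) (FF t) n 1 *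
        (iter (N := 4) (FF t) n 0) ^ 2 + C t * (iter (N := 4) (FF t) n 3) ^ 2 *
        iter (N := 4) (FF t) n 0 := by
      simp [iter, FF]
    have k2 : iter (N := 4) (FF t) (n + 1) 2 = C t * iter (N := 4) (FF t) n 2 *
        (iter (N := 4) (FF t) n 0) ^ 2 + (C t - 1) * (iter (N := 4) (FF t) n 3) ^ 2 *
        iter (N := 4) (FF t) n 0 := by
      simp [iter, FF]
    have k3 : iter (N := 4) (FF t) (n + 1) 3 = iter (N := 4) (FF t) n 3 *
        (iter (N := 4) (FF t) n 0) ^ 2 := by
      simp [iter, FF]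
    have k4 : iter (N := 4) (FF t) (n + 1) 4 = iter (N := 4) (FF t) n 4 *
        (iter (N := 4) (FF t) n 1 * iter (N := 4) (FF t) n 0 -
          iter (N := 4) (FF t) n 2 * iter (N := 4) (FF t) n 0 - iter (N := 4) (FF t) n 3 ^ 2) := by
      simp [iter, FF]
    rw [k0, k1, k2, k3, k4, h0, hE]
    generalize iter (N := 4) (FF t) n 1 = a1 at *
    generalize iter (N := 4) (FF t) n 2 = a2 at *
    generalize iter (N := 4) (FF t) n 3 = a3 at *
    generalize iter (N := 4) (FF t) n 4 = a4 at *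
    generalize (X 0 : MvPolynomial (Fin 5) K) ^ (3 ^ n) = E at *
    refine ⟨rfl, ?_, ?_, ?_, ?_⟩
    · unfold AP at *
      linear_combination (1 + C t) * E ^ 2 * h1 + C t * E * (X 0 * a3 + E * X 3) * h3
    · unfold BP at *
      linear_combination (C t) * E ^ 2 * h2 + (C t - 1) * E * (X 0 * a3 + E * X 3) * h3
    · linear_combination E ^ 2 * h3
    · rw [Finset.prod_range_succ]
      have hQ : QP t n = AP t n - BP t n - X 3 ^ 2 := rfl
      rw [hQ]
      generalize (∏ j ∈ range n, QP t j) = Pn at *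
      linear_combination (X 0 ^ 2 * (a1 * E - a2 * E - a3 ^ 2)) * h4 +
        (E * X 4 * Pn) * (E * h1 - E * h2 - (X 0 * a3 + E * X 3) * h3)

end main

end Pool.Agent.Helpers29.Deg
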