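import Pool.Agent.Helpers29.DegB

set_option autoImplicit false

namespace Pool.Agent.Helpers29.Deg

open MvPolynomial Finset

section reduced

variable {K : Type} [Field K] (t : K)

open Classical in
noncomputable def ee (j : ℕ) : ℕ := if cc t j = 0 then 1 else 0

open Classical in
noncomputable def QQ (j : ℕ) : MvPolynomial (Fin 5) K := if cc t j = 0 then LP t j else QP t j

theorem QP_split (j : ℕ) : QP t j = X 0 ^ (ee t j) * QQ t j := by
  unfold ee QQ
  split_ifs with h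
  · rw [QP_eq, h]; simp
  · simp

noncomputable def ZZ (n : ℕ) : ℕ := ∑ j ∈ range n, ee t j

theorem prod_split (n : ℕ) :
    ∏ j ∈ range n, QP t j = X 0 ^ (ZZ t n) * ∏ j ∈ range n, QQ t j := by
  rw [ZZ, ← Finset.prod_pow_eq_pow_sum, ← Finset.prod_mul_distrib]
  exact Finset.prod_congr rfl (fun j _ => QP_split t j)

theorem ee_zero : ee t 0 = 0 := by
  unfold ee cc
  simp

theorem ee_le (j : ℕ) : ee t j ≤ 1 := by
  unfold ee
  split_ifs <;> simp

theorem ZZ_lt (n : ℕ) (hn : 1 ≤ n) : ZZ t n + 1 ≤ n := by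
  obtain ⟨m, rfl⟩ : ∃ m, n = m + 1 := ⟨n - 1, by omega⟩
  rw [ZZ, Finset.sum_range_succ', ee_zero]
  have : ∑ j ∈ range m, ee t (j + 1) ≤ ∑ j ∈ range m, 1 :=
    Finset.sum_le_sum (fun j _ => ee_le t _)
  simp at this
  omega

noncomputable def NN (n : ℕ) : ℕ := 2 * n + 1 - ZZ t n

noncomputable def GG (n : ℕ) : Fin 5 → MvPolynomial (Fin 5) K :=
  ![X 0 ^ (NN t n), X 0 ^ (NN t n - 2) * AP t n, X 0 ^ (NN t n - 2) * BP t n,
    X 0 ^ (NN t n - 1) * X 3, X 4 * ∏ j ∈ range n, QQ t j]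

theorem pow3 (n : ℕ) : 2 * n + 1 ≤ 3 ^ n := by
  induction n with
  | zero => simp
  | succ n ih => rw [pow_succ]; omega

theorem iter_eq (n : ℕ) (hn : 1 ≤ n) (i : Fin 5) :
    iter (N := 4) (FF t) n i = X 0 ^ (3 ^ n - NN t n) * GG t n i := by
  obtain ⟨h0, h1, h2, h3, h4⟩ := forms t n
  have hZ := ZZ_lt t n hn
  have h3n := pow3 n
  have hX : (X 0 : MvPolynomial (Fin 5) K) ≠ 0 := X_ne_zero 0
  have hN : NN t n = 2 * n + 1 - ZZ t n := rfl
  have hc : ∀ m, (X 0 : MvPolynomial (Fin 5) K) ^ m ≠ 0 := fun m => pow_ne_zero m hX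
  fin_cases i
  · change iter (N := 4) (FF t) n 0 = _ * X 0 ^ (NN t n)
    rw [h0, ← pow_add]
    congr 1
    omega
  · change iter (N := 4) (FF t) n 1 = _ * (X 0 ^ (NN t n - 2) * AP t n)
    apply mul_left_cancel₀ (hc 2)
    rw [h1, ← mul_assoc, ← mul_assoc, ← pow_add, ← pow_add]
    congr 2
    omega
  · change iter (N := 4) (FF t) n 2 = _ * (X 0 ^ (NN t n - 2) * BP t n)
    apply mul_left_cancel₀ (hc 2)
    rw [h2, ← mul_assoc, ← mul_assoc, ← pow_add, ← pow_add]
    congr 2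
    omega
  · change iter (N := 4) (FF t) n 3 = _ * (X 0 ^ (NN t n - 1) * X 3)
    apply mul_left_cancel₀ hX
    rw [h3, ← mul_assoc, ← mul_assoc, ← pow_succ', ← pow_add]
    congr 2
    omega
  · change iter (N := 4) (FF t) n 4 = _ * (X 4 * ∏ j ∈ range n, QQ t j)
    apply mul_left_cancel₀ (hc (2 * n + 1))
    rw [h4, prod_split, ← mul_assoc (X 0 ^ (2 * n + 1)), ← pow_add]
    have : 2 * n + 1 + (3 ^ n - NN t n) = 3 ^ n + ZZ t n := by omega
    rw [this, pow_add]
    ring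

theorem hom_c (c : MvPolynomial (Fin 5) K) (hc : c.IsHomogeneous 0) (m : ℕ)
    (q : MvPolynomial (Fin 5) K) (hq : q.IsHomogeneous m) : (c * q).IsHomogeneous m := by
  simpa using hc.mul hq

theorem homX (i : Fin 5) (m : ℕ) : (X i ^ m : MvPolynomial (Fin 5) K).IsHomogeneous m := by
  simpa using (isHomogeneous_X K i).pow m

theorem hom_a (n : ℕ) : ((1 + C t) ^ n : MvPolynomial (Fin 5) K).IsHomogeneous 0 := by
  simpa using ((isHomogeneous_one (Fin 5) K).add (isHomogeneous_C (Fin 5) t)).pow n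

theorem hom_b (n : ℕ) : ((C t) ^ n : MvPolynomial (Fin 5) K).IsHomogeneous 0 := by
  simpa using (isHomogeneous_C (Fin 5) t).pow n

theorem AP_hom (n : ℕ) : (AP t n).IsHomogeneous 2 := by
  unfold AP
  refine IsHomogeneous.add ?_ ?_
  · exact ((hom_c _ (hom_a t n) 1 _ (isHomogeneous_X K 1)).mul (isHomogeneous_X K 0))
  · exact hom_c _ ((hom_a t n).sub (isHomogeneous_one (Fin 5) K)) 2 _ (homX 3 2)

theorem BP_hom (n : ℕ) : (BP t n).IsHomogeneous 2 := by
  unfold BP
  refine IsHomogeneous.add ?_ ?_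
  · exact ((hom_c _ (hom_b t n) 1 _ (isHomogeneous_X K 2)).mul (isHomogeneous_X K 0))
  · exact hom_c _ ((hom_b t n).sub (isHomogeneous_one (Fin 5) K)) 2 _ (homX 3 2)

theorem QP_hom (n : ℕ) : (QP t n).IsHomogeneous 2 :=
  ((AP_hom t n).sub (BP_hom t n)).sub (homX 3 2)

theorem LP_hom (n : ℕ) : (LP t n).IsHomogeneous 1 :=
  (hom_c _ (hom_a t n) 1 _ (isHomogeneous_X K 1)).sub
    (hom_c _ (hom_b t n) 1 _ (isHomogeneous_X K 2))

theorem QQ_hom (n : ℕ) : (QQ t n).IsHomogeneous (2 - ee t n) := by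
  unfold QQ ee
  split_ifs
  · exact LP_hom t n
  · exact QP_hom t n

theorem prod_hom (n : ℕ) :
    (X 4 * ∏ j ∈ range n, QQ t j).IsHomogeneous (NN t n) := by
  have h := (isHomogeneous_X K (4 : Fin 5)).mul
    (IsHomogeneous.prod (range n) (fun j => QQ t j) (fun j => 2 - ee t j)
      (fun j _ => QQ_hom t j))
  have e : 1 + ∑ j ∈ range n, (2 - ee t j) = NN t n := by
    have h1 : ∑ j ∈ range n, (2 - ee t j) + ZZ t n = 2 * n := by
      rw [ZZ, ← Finset.sum_add_distrib]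
      have : ∀ j ∈ range n, (2 - ee t j) + ee t j = 2 := by
        intro j _
        have := ee_le t j
        omega
      rw [Finset.sum_congr rfl this]
      simp [mul_comm]
    unfold NN
    omega
  rw [e] at h
  exact h

theorem GG_hom (n : ℕ) (hn : 1 ≤ n) (i : Fin 5) : (GG t n i).IsHomogeneous (NN t n) := by
  have hZ := ZZ_lt t n hn
  have hN : NN t n = 2 * n + 1 - ZZ t n := rfl
  fin_cases i
  · exact homX 0 _
  · change (X 0 ^ (NN t n - 2) * AP t n).IsHomogeneous (NN t n)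
    have := (homX (K := K) 0 (NN t n - 2)).mul (AP_hom t n)
    rwa [show NN t n - 2 + 2 = NN t n by omega] at this
  · change (X 0 ^ (NN t n - 2) * BP t n).IsHomogeneous (NN t n)
    have := (homX (K := K) 0 (NN t n - 2)).mul (BP_hom t n)
    rwa [show NN t n - 2 + 2 = NN t n by omega] at this
  · change (X 0 ^ (NN t n - 1) * X 3 : MvPolynomial (Fin 5) K).IsHomogeneous (NN t n)
    have := (homX (K := K) 0 (NN t n - 1)).mul (isHomogeneous_X K 3)
    rwa [show NN t n - 1 + 1 = NN t n by omega] at this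
  · exact prod_hom t n

/-- a common factor with a power of `X 0` that does not vanish at a point with `X 0 = 0` -/
theorem unit_of_dvd (g : MvPolynomial (Fin 5) K) (m : ℕ) (h0 : g ∣ X 0 ^ m)
    (q : MvPolynomial (Fin 5) K) (hq : g ∣ q) (v : Fin 5 → K) (hv : v 0 = 0)
    (hqv : eval v q ≠ 0) : IsUnit g := by
  obtain ⟨i, _, hi⟩ := (dvd_prime_pow (MvPolynomial.X_prime :
    Prime (X 0 : MvPolynomial (Fin 5) K)) m).1 h0
  rcases Nat.eq_zero_or_pos i with rfl | hpos
  · rw [pow_zero] at hi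
    exact associated_one_iff_isUnit.1 hi
  · exfalso
    apply hqv
    have h1 : (X 0 : MvPolynomial (Fin 5) K) ∣ q :=
      (dvd_pow_self _ hpos.ne').trans ((hi.symm.dvd).trans hq)
    obtain ⟨r, rfl⟩ := h1
    simp [hv]

theorem GG_ncf (ht : ∀ j, (1 + t) ^ j ≠ 0) (n : ℕ) : NoCommonFactor (N := 4) (GG t n) := by
  intro g hg
  refine unit_of_dvd g (NN t n) (hg 0) _ (hg 4) ![0, 1, 0, 1, 1] (by simp) ?_
  change eval _ (X 4 * ∏ j ∈ range n, QQ t j) ≠ 0
  rw [map_mul, map_prod]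
  refine mul_ne_zero (by simp) (Finset.prod_ne_zero_iff.2 (fun j _ => ?_))
  unfold QQ
  split_ifs with h
  · simp only [LP]
    simpa using ht j
  · rw [QP_eq]
    simpa using h

end reduced

end Pool.Agent.Helpers29.Deg
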