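import Pool.Agent.Helpers29.DegC

set_option autoImplicit false

namespace Pool.Agent.Helpers29.Deg

open MvPolynomial Finset

section gen

variable {K : Type} [Field K] (t : K)

theorem FF_hom (i : Fin 5) : (FF t i).IsHomogeneous 3 := by
  fin_cases i
  · exact homX 0 3
  · change ((1 + C t) * X 1 * X 0 ^ 2 + C t * X 3 ^ 2 * X 0 :
      MvPolynomial (Fin 5) K).IsHomogeneous 3
    refine IsHomogeneous.add ?_ ?_
    · exact (hom_c _ (by simpa using hom_a t 1) 1 _ (isHomogeneous_X K 1)).mul (homX 0 2)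
    · exact (hom_c _ (by simpa using hom_b t 1) 2 _ (homX 3 2)).mul (isHomogeneous_X K 0)
  · change (C t * X 2 * X 0 ^ 2 + (C t - 1) * X 3 ^ 2 * X 0 :
      MvPolynomial (Fin 5) K).IsHomogeneous 3
    refine IsHomogeneous.add ?_ ?_
    · exact (hom_c _ (by simpa using hom_b t 1) 1 _ (isHomogeneous_X K 2)).mul (homX 0 2)
    · exact (hom_c _ ((isHomogeneous_C (Fin 5) t).sub (isHomogeneous_one (Fin 5) K)) 2 _
        (homX 3 2)).mul (isHomogeneous_X K 0)
  · exact (isHomogeneous_X K 3).mul (homX 0 2)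
  · change (X 4 * (X 1 * X 0 - X 2 * X 0 - X 3 ^ 2) : MvPolynomial (Fin 5) K).IsHomogeneous 3
    exact (isHomogeneous_X K 4).mul ((((isHomogeneous_X K 1).mul (isHomogeneous_X K 0)).sub
      ((isHomogeneous_X K 2).mul (isHomogeneous_X K 0))).sub (homX 3 2))

theorem FF_ncf : NoCommonFactor (N := 4) (FF t) := by
  intro g hg
  refine unit_of_dvd g 3 (hg 0) _ (hg 4) ![0, 0, 0, 1, 1] (by simp) ?_
  change eval _ (X 4 * (X 1 * X 0 - X 2 * X 0 - X 3 ^ 2)) ≠ 0
  simp

theorem FF_dom (h0 : t ≠ 0) (h1 : 1 + t ≠ 0) : Dominant (N := 4) (FF t) := by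
  intro P hP
  let L := FractionRing (MvPolynomial (Fin 5) K)
  have hinj : Function.Injective (algebraMap (MvPolynomial (Fin 5) K) L) := IsFractionRing.injective (MvPolynomial (Fin 5) K) L
  let y : Fin 5 → L := fun i => algebraMap (MvPolynomial (Fin 5) K) L (X i)
  have hy0 : y 0 ≠ 0 := by
    intro h
    exact X_ne_zero (R := K) (0 : Fin 5) (hinj (by rw [map_zero]; exact h))
  let T : L := algebraMap K L t
  have hT0 : T ≠ 0 := by
    intro h
    exact h0 ((algebraMap K L).injective (by rw [map_zero]; exact h))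
  have hT1 : 1 + T ≠ 0 := by
    intro h
    apply h1
    apply (algebraMap K L).injective
    rw [map_zero, map_add, map_one]
    exact h
  let Pp : MvPolynomial (Fin 5) K := C t * X 1 ^ 3 * X 0 ^ 3 - (1 + C t) * X 2 ^ 3 * X 0 ^ 3 -
    (1 + C t + C t ^ 2) * X 3 ^ 6
  have hPp : Pp ≠ 0 := by
    intro h
    have := congrArg (eval (![1, 1, 0, 0, 0] : Fin 5 → K)) h
    simp [Pp, h0] at this
  have hCT : algebraMap (MvPolynomial (Fin 5) K) L (C t) = T := (IsScalarTower.algebraMap_apply K (MvPolynomial (Fin 5) K) L t).symm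
  have hmap : algebraMap (MvPolynomial (Fin 5) K) L Pp = T * y 1 ^ 3 * y 0 ^ 3 - (1 + T) * y 2 ^ 3 * y 0 ^ 3 -
      (1 + T + T ^ 2) * y 3 ^ 6 := by
    simp only [Pp, map_sub, map_mul, map_add, map_pow, map_one, hCT]
    rfl
  have hPpL : T * y 1 ^ 3 * y 0 ^ 3 - (1 + T) * y 2 ^ 3 * y 0 ^ 3 -
      (1 + T + T ^ 2) * y 3 ^ 6 ≠ 0 := by
    rw [← hmap]
    intro h
    exact hPp (hinj (by rw [map_zero]; exact h))
  let w : L := y 3 ^ 3 / y 0 ^ 2
  let x : L := (y 1 ^ 3 - T * w ^ 2 * y 0) / ((1 + T) * y 0 ^ 2)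
  let x' : L := (y 2 ^ 3 - (T - 1) * w ^ 2 * y 0) / (T * y 0 ^ 2)
  let S : L := x * y 0 - x' * y 0 - w ^ 2
  have hw : w * y 0 ^ 2 = y 3 ^ 3 := div_mul_cancel₀ _ (pow_ne_zero 2 hy0)
  have hx0 : x * ((1 + T) * y 0 ^ 2) = y 1 ^ 3 - T * w ^ 2 * y 0 :=
    div_mul_cancel₀ _ (mul_ne_zero hT1 (pow_ne_zero 2 hy0))
  have hx1 : x' * (T * y 0 ^ 2) = y 2 ^ 3 - (T - 1) * w ^ 2 * y 0 :=
    div_mul_cancel₀ _ (mul_ne_zero hT0 (pow_ne_zero 2 hy0))
  have hx : (1 + T) * x * y 0 ^ 2 + T * w ^ 2 * y 0 = y 1 ^ 3 := by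
    linear_combination hx0
  have hx' : T * x' * y 0 ^ 2 + (T - 1) * w ^ 2 * y 0 = y 2 ^ 3 := by
    linear_combination hx1
  have hS : S ≠ 0 := by
    intro h
    apply hPpL
    have e : (1 + T) * T * y 0 ^ 4 * S = T * y 1 ^ 3 * y 0 ^ 3 - (1 + T) * y 2 ^ 3 * y 0 ^ 3 -
      (1 + T + T ^ 2) * y 3 ^ 6 := by
      rw [← hx, ← hx', show y 3 ^ 6 = (y 3 ^ 3) ^ 2 by ring, ← hw]
      simp only [S]
      ring
    rw [← e, h, mul_zero]
  let z : L := y 4 ^ 3 / S
  have hz : z * S = y 4 ^ 3 := div_mul_cancel₀ _ hS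
  let u : Fin 5 → L := ![y 0, x, x', w, z]
  have hu : ∀ i, aeval u (FF t i) = y i ^ 3 := by
    intro i
    fin_cases i
    · change aeval u (X 0 ^ 3) = y 0 ^ 3
      simp [u]
    · change aeval u ((1 + C t) * X 1 * X 0 ^ 2 + C t * X 3 ^ 2 * X 0) = y 1 ^ 3
      rw [← hx]
      simp [u, T]
    · change aeval u (C t * X 2 * X 0 ^ 2 + (C t - 1) * X 3 ^ 2 * X 0) = y 2 ^ 3
      rw [← hx']
      simp [u, T]
    · change aeval u (X 3 * X 0 ^ 2) = y 3 ^ 3
      rw [← hw]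
      simp [u]
    · change aeval u (X 4 * (X 1 * X 0 - X 2 * X 0 - X 3 ^ 2)) = y 4 ^ 3
      rw [← hz]
      simp [u, S]
  have h2 : aeval u (aeval (FF t) P) = algebraMap (MvPolynomial (Fin 5) K) L (expand 3 P) := by
    have e1 : (aeval u).comp (aeval (R := K) (FF t)) =
        (IsScalarTower.toAlgHom K (MvPolynomial (Fin 5) K) L).comp (expand 3) := by
      apply MvPolynomial.algHom_ext
      intro i
      rw [AlgHom.comp_apply, aeval_X, hu, AlgHom.comp_apply, MvPolynomial.expand_X, map_pow]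
      rfl
    exact DFunLike.congr_fun e1 P
  rw [hP, map_zero] at h2
  have h3 : expand 3 P = 0 := hinj (by rw [map_zero]; exact h2.symm)
  exact (MvPolynomial.expand_eq_zero (by norm_num)).1 h3

end gen

section count

variable {K : Type} [Field K] (p : ℕ) [Fact p.Prime] [Algebra (ZMod p) K]

theorem ZZ_eq {t : K} (ht : Transcendental (ZMod p) t) (k n : ℕ) (h1 : p ^ k < n)
    (h2 : n ≤ p ^ (k + 1)) : ZZ t n = k + 1 := by
  classical
  have hp : p.Prime := Fact.out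
  have e : ZZ t n = ((range n).filter (fun j => ∃ a, j = p ^ a)).card := by
    rw [ZZ, Finset.card_filter]
    refine Finset.sum_congr rfl (fun j _ => ?_)
    unfold ee
    by_cases h : cc t j = 0
    · rw [if_pos h, if_pos ((cc_zero_iff p ht j).1 h)]
    · rw [if_neg h, if_neg (fun h' => h ((cc_zero_iff p ht j).2 h'))]
  have e2 : (range n).filter (fun j => ∃ a, j = p ^ a) = (range (k + 1)).image (fun a => p ^ a) := by
    ext j
    simp only [Finset.mem_filter, Finset.mem_range, Finset.mem_image]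
    constructor
    · rintro ⟨hj, a, rfl⟩
      refine ⟨a, ?_, rfl⟩
      have : p ^ a < p ^ (k + 1) := lt_of_lt_of_le hj h2
      exact (Nat.pow_lt_pow_iff_right hp.one_lt).1 this
    · rintro ⟨a, ha, rfl⟩
      refine ⟨lt_of_le_of_lt (Nat.pow_le_pow_right hp.pos (by omega)) h1, a, rfl⟩
  rw [e, e2, Finset.card_image_of_injective _ (Nat.pow_right_injective hp.two_le),
    Finset.card_range]

end count

end Pool.Agent.Helpers29.Deg
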