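import Pool.Agent.Helpers29.DegD

set_option autoImplicit false

namespace Pool.Agent.Helpers29.Deg

open MvPolynomial Finset

theorem reduced_unique {K : Type} [Field K] {N : ℕ}
    {h h' : MvPolynomial (Fin (N + 1)) K} {G G' : Fin (N + 1) → MvPolynomial (Fin (N + 1)) K}
    (hG : NoCommonFactor G) (hG' : NoCommonFactor G')
    (e : ∀ i, h * G i = h' * G' i) : Associated h h' := by
  classical
  let _ : StrongNormalizationMonoid (MvPolynomial (Fin (N + 1)) K) :=
    UniqueFactorizationMonoid.strongNormalizationMonoid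
  let _ : StrongNormalizedGCDMonoid (MvPolynomial (Fin (N + 1)) K) :=
    UniqueFactorizationMonoid.toStrongNormalizedGCDMonoid _
  have key : ∀ (a : MvPolynomial (Fin (N + 1)) K)
      (H : Fin (N + 1) → MvPolynomial (Fin (N + 1)) K), NoCommonFactor H →
      Associated (Finset.univ.gcd fun i => a * H i) a := by
    intro a H hH
    have hu : IsUnit (Finset.univ.gcd H) := hH _ (fun i => Finset.gcd_dvd (Finset.mem_univ i))
    exact (Finset.gcd_mul_left' (s := Finset.univ) (f := H) a).trans
      (associated_mul_unit_left a _ hu)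
  have h1 := key h G hG
  have h2 := key h' G' hG'
  have h3 : (fun i => h * G i) = fun i => h' * G' i := funext e
  rw [h3] at h1
  exact h1.symm.trans h2

theorem degree_unique {K : Type} [Field K] {N : ℕ}
    {F : Fin (N + 1) → MvPolynomial (Fin (N + 1)) K} {n d d' : ℕ}
    (h1 : IsIterateDegree F n d) (h2 : IsIterateDegree F n d') : d = d' := by
  obtain ⟨h, G, hh, e, hG, hGn⟩ := h1
  obtain ⟨h', G', hh', e', hG', hGn'⟩ := h2
  have ha : Associated h h' := reduced_unique hGn hGn' (fun i => by rw [← e, ← e'])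
  obtain ⟨u, hu⟩ := ha
  obtain ⟨i, hi⟩ : ∃ i, G i ≠ 0 := by
    by_contra hne
    push Not at hne
    exact not_isUnit_zero (hGn 0 (fun i => by rw [hne i]))
  have h3 : G i = u * G' i := by
    apply mul_left_cancel₀ hh
    rw [← e, e', ← hu]
    ring
  have hi' : G' i ≠ 0 := by
    intro h0
    rw [h3, h0, mul_zero] at hi
    exact hi rfl
  have hdu : (u : MvPolynomial (Fin (N + 1)) K).totalDegree = 0 := by
    obtain ⟨c, _, hc⟩ := (MvPolynomial.isUnit_iff_eq_C_of_isReduced).1 u.isUnit
    rw [hc, totalDegree_C]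
  rw [← (hG i).totalDegree hi, ← (hG' i).totalDegree hi', h3,
    totalDegree_mul_of_isDomain u.ne_zero hi', hdu, zero_add]

end Pool.Agent.Helpers29.Deg
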