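import Pool.Agent.Helpers29.DegB

set_option autoImplicit false

namespace Pool.Agent.Helpers29.Deg

open MvPolynomial

theorem prod_monomial_pow {K : Type} [Field K] {N : ℕ}
    (E : Fin (N+1) → (Fin (N+1) →₀ ℕ)) (m : Fin (N+1) →₀ ℕ) :
    ∏ i, (monomial (E i) (1 : K)) ^ (m i) = monomial (∑ i, m i • E i) (1 : K) := by
  rw [MvPolynomial.monomial_sum_one]
  apply Finset.prod_congr rfl
  intro i _
  rw [monomial_pow, one_pow]

theorem aeval_monomials_inj {K : Type} [Field K] {N : ℕ}
    (E : Fin (N+1) → (Fin (N+1) →₀ ℕ))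
    (hE : Function.Injective (fun m : Fin (N+1) →₀ ℕ => ∑ i, m i • E i))
    (P : MvPolynomial (Fin (N+1)) K)
    (h : aeval (fun i => (monomial (E i) (1 : K) : MvPolynomial (Fin (N+1)) K)) P = 0) : P = 0 := by
  classical
  ext m0
  rw [coeff_zero]
  have h1 := congrArg (coeff (∑ i, m0 i • E i)) h
  rw [aeval_def, eval₂_eq', coeff_sum, coeff_zero] at h1
  have h2 : ∀ m ∈ P.support, coeff (∑ i, m0 i • E i)
      ((algebraMap K (MvPolynomial (Fin (N+1)) K)) (coeff m P) *
        ∏ i, (monomial (E i) (1 : K)) ^ (m i)) = if m = m0 then coeff m P else 0 := by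
    intro m _
    rw [prod_monomial_pow, MvPolynomial.algebraMap_eq, coeff_C_mul, coeff_monomial]
    by_cases hm : m = m0
    · subst hm; simp
    · rw [if_neg hm, if_neg, mul_zero]
      intro h'
      exact hm (hE h')
  rw [Finset.sum_congr rfl h2, Finset.sum_ite_eq'] at h1
  by_cases hm : m0 ∈ P.support
  · rwa [if_pos hm] at h1
  · exact notMem_support_iff.1 hm

theorem dominant_skew {K : Type} [Field K] {N : ℕ} (E : Fin (N+1) → (Fin (N+1) →₀ ℕ)) (hE : Function.Injective (fun m : Fin (N+1) →₀ ℕ => ∑ i, m i • E i)) (l : Fin (N+1)) (Q : MvPolynomial (Fin (N+1)) K) (hQ : Q ≠ 0) (hQl : l ∉ Q.vars) (hEl : E l = Finsupp.single l 1) (hEi : ∀ i, i ≠ l → (E i) l = 0) (F : Fin (N+1) → MvPolynomial (Fin (N+1)) K) (hFl : F l = X l * Q) (hF : ∀ i, i ≠ l → F i = monomial (E i) 1) : Dominant F := by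
  classical
  intro P hP
  let R := MvPolynomial (Fin (N+1)) K
  let L := FractionRing R
  let φ : R →ₐ[K] L := IsScalarTower.toAlgHom K R L
  have hφ : Function.Injective φ := IsFractionRing.injective R L
  let u : Fin (N+1) → L := fun i => if i = l then φ (X l) / φ Q else φ (X i)
  have hφQ : φ Q ≠ 0 := fun h => hQ (hφ (by rw [h, map_zero]))
  have hX : ∀ p : R, φ p = aeval (fun i => φ (X i)) p := by
    intro p
    have := comp_aeval_apply (σ := Fin (N+1)) (R := K) (f := (X : Fin (N+1) → R)) φ p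
    rw [← this, aeval_X_left_apply]
  have huQ : ∀ p : R, l ∉ p.vars → aeval u p = φ p := by
    intro p hp
    rw [hX p, aeval_def, aeval_def]
    exact eval₂Hom_congr' (f₁ := algebraMap K L) (f₂ := algebraMap K L) rfl (fun i hi _ => by
      have hil : i ≠ l := fun h => hp (h ▸ hi)
      simp only [u, if_neg hil]) rfl
  have hmon : ∀ i, aeval u (F i) = φ (monomial (E i) (1 : K)) := by
    intro i
    by_cases hi : i = l
    · subst hi
      rw [hFl, map_mul, aeval_X, huQ Q hQl, hEl]
      have : u i = φ (X i) / φ Q := if_pos rfl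
      rw [this, div_mul_cancel₀ _ hφQ]
      rfl
    · rw [hF i hi]
      apply huQ
      rw [vars_monomial one_ne_zero, Finsupp.mem_support_iff, not_not]
      exact hEi i hi
  apply aeval_monomials_inj E hE
  apply hφ
  rw [map_zero]
  have h1 := comp_aeval_apply (σ := Fin (N+1)) (R := K)
    (f := fun i => (monomial (E i) (1 : K) : R)) φ P
  rw [h1]
  have h2 : (fun i => φ (monomial (E i) (1 : K))) = fun i => aeval u (F i) := by
    funext i; rw [hmon i]
  rw [h2]
  have h3 := comp_aeval_apply (σ := Fin (N+1)) (R := K) (f := F) (aeval u : R →ₐ[K] L) P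
  rw [← h3, hP, map_zero]

end Pool.Agent.Helpers29.Deg
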