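import Pool.Agent.Helpers29.DgXY

set_option autoImplicit false

namespace Pool.Agent.Helpers29.Deg

theorem XY_angle : ∃ t : ℝ, ∀ n : ℕ, ((XY n).1 : ℝ) = 5 ^ n * Real.cos (n * t) ∧
    ((XY n).2 : ℝ) = 5 ^ n * Real.sin (n * t) := by
  have hc : Real.cos (Real.arccos (3 / 5)) = 3 / 5 :=
    Real.cos_arccos (by norm_num) (by norm_num)
  have hs : Real.sin (Real.arccos (3 / 5)) = 4 / 5 := by
    rw [Real.sin_arccos]
    rw [show (1 : ℝ) - (3 / 5) ^ 2 = (4 / 5) ^ 2 by norm_num]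
    exact Real.sqrt_sq (by norm_num)
  refine ⟨Real.arccos (3 / 5), fun n => ?_⟩
  induction n with
  | zero => simp [XY]
  | succ n ih =>
    obtain ⟨h1, h2⟩ := ih
    have h3 : ((n + 1 : ℕ) : ℝ) * Real.arccos (3 / 5) = n * Real.arccos (3 / 5) +
        Real.arccos (3 / 5) := by push_cast; ring
    rw [h3, Real.cos_add, Real.sin_add, hc, hs]
    constructor
    · simp only [XY]
      push_cast
      rw [h1, h2, pow_succ]
      ring
    · simp only [XY]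
      push_cast
      rw [h1, h2, pow_succ]
      ring

theorem dirichlet_large (ξ : ℝ) (N : ℕ) (hN : 1 ≤ N) :
    ∃ (n : ℕ) (m : ℤ), N ≤ n ∧ |(n : ℝ) * ξ - m| ≤ 1 / n := by
  obtain ⟨q, hq0, hqQ, hq⟩ := Real.exists_nat_abs_mul_sub_round_le ξ (n := N ^ 3) (by positivity)
  have hq0' : (0 : ℝ) < q := by exact_mod_cast hq0
  have hN0 : (0 : ℝ) < N := by exact_mod_cast hN
  by_cases h : N ≤ q
  · refine ⟨q, round (q * ξ), h, hq.trans ?_⟩
    apply one_div_le_one_div_of_le hq0'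
    have : (q : ℝ) ≤ ((N ^ 3 : ℕ) : ℝ) := by exact_mod_cast hqQ
    linarith
  · push Not at h
    refine ⟨q * N, (N : ℤ) * round (q * ξ), Nat.le_mul_of_pos_left _ hq0, ?_⟩
    have h1 : (((q * N : ℕ) : ℝ)) * ξ - (((N : ℤ) * round ((q : ℝ) * ξ) : ℤ) : ℝ) =
        N * (q * ξ - round ((q : ℝ) * ξ)) := by push_cast; ring
    rw [h1, abs_mul, abs_of_pos hN0]
    have h2 : (N : ℝ) * |(q : ℝ) * ξ - round ((q : ℝ) * ξ)| ≤ N * (1 / ((N ^ 3 : ℕ) + 1)) :=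
      mul_le_mul_of_nonneg_left hq hN0.le
    refine h2.trans ?_
    rw [mul_one_div, div_le_div_iff₀ (by positivity) (by positivity)]
    push_cast
    have h3 : (q : ℝ) ≤ N := by exact_mod_cast h.le
    nlinarith [mul_le_mul_of_nonneg_left h3 (by positivity : (0 : ℝ) ≤ (N : ℝ) * N)]

theorem XY_inf : ∀ N : ℕ, ∃ n : ℕ, N ≤ n ∧ (n : ℤ) * (5 ^ n - (XY n).1) < 5 ^ n := by
  intro N
  obtain ⟨t, ht⟩ := XY_angle
  obtain ⟨n, m, hn, hm⟩ := dirichlet_large (t / (2 * Real.pi)) (N + 20) (by omega)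
  refine ⟨n, by omega, ?_⟩
  have hn20 : (20 : ℝ) ≤ n := by
    have : 20 ≤ n := by omega
    exact_mod_cast this
  have hn0 : (0 : ℝ) < n := by linarith
  obtain ⟨h1, _⟩ := ht n
  have hcos : Real.cos (n * t) = Real.cos (2 * Real.pi * (n * (t / (2 * Real.pi)) - m)) := by
    have hpi : Real.pi ≠ 0 := Real.pi_ne_zero
    have : 2 * Real.pi * (n * (t / (2 * Real.pi)) - m) = n * t - m * (2 * Real.pi) := by
      field_simp
    rw [this, Real.cos_sub_int_mul_two_pi]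
  set y : ℝ := n * (t / (2 * Real.pi)) - m with hy
  have h2 := Real.one_sub_sq_div_two_le_cos (x := 2 * Real.pi * y)
  have h3 : y ^ 2 ≤ 1 / (n : ℝ) ^ 2 := by
    rw [← sq_abs]
    calc |y| ^ 2 ≤ (1 / (n : ℝ)) ^ 2 := by
          apply pow_le_pow_left₀ (abs_nonneg _) hm
      _ = 1 / (n : ℝ) ^ 2 := by rw [one_div, one_div, inv_pow]
  have hpi : Real.pi < 3.15 := Real.pi_lt_d2
  have hpi0 : 0 < Real.pi := Real.pi_pos
  have hpi2 : Real.pi ^ 2 < 9.9225 := by nlinarith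
  have h4 : 1 - Real.cos (n * t) ≤ 2 * Real.pi ^ 2 * (1 / (n : ℝ) ^ 2) := by
    rw [hcos]
    have : (2 * Real.pi * y) ^ 2 / 2 = 2 * Real.pi ^ 2 * y ^ 2 := by ring
    have h5 : 2 * Real.pi ^ 2 * y ^ 2 ≤ 2 * Real.pi ^ 2 * (1 / (n : ℝ) ^ 2) :=
      mul_le_mul_of_nonneg_left h3 (by positivity)
    linarith
  have h6 : (n : ℝ) * (1 - Real.cos (n * t)) < 1 := by
    have h7 : (n : ℝ) * (1 - Real.cos (n * t)) ≤ n * (2 * Real.pi ^ 2 * (1 / (n : ℝ) ^ 2)) :=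
      mul_le_mul_of_nonneg_left h4 hn0.le
    have h8 : (n : ℝ) * (2 * Real.pi ^ 2 * (1 / (n : ℝ) ^ 2)) = 2 * Real.pi ^ 2 / n := by
      field_simp
    rw [h8] at h7
    refine lt_of_le_of_lt h7 ?_
    rw [div_lt_one hn0]
    linarith
  have h9 : (n : ℝ) * (5 ^ n - ((XY n).1 : ℝ)) < 5 ^ n := by
    rw [h1]
    have h10 : (0 : ℝ) < 5 ^ n := by positivity
    have h11 : (n : ℝ) * (5 ^ n - 5 ^ n * Real.cos (n * t)) =
        5 ^ n * ((n : ℝ) * (1 - Real.cos (n * t))) := by ring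
    rw [h11]
    calc (5 : ℝ) ^ n * ((n : ℝ) * (1 - Real.cos (n * t))) < 5 ^ n * 1 :=
          mul_lt_mul_of_pos_left h6 h10
      _ = 5 ^ n := mul_one _
  exact_mod_cast h9

end Pool.Agent.Helpers29.Deg
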