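import Pool.Agent.Helpers29.DgXY

set_option autoImplicit false

open Filter Topology

namespace Pool.Agent.Helpers29.Deg

theorem XY_add (n d : ℕ) : XY (n + d) = ((XY n).1 * (XY d).1 - (XY n).2 * (XY d).2,
    (XY n).1 * (XY d).2 + (XY n).2 * (XY d).1) := by
  induction d with
  | zero => simp [XY]
  | succ d ih =>
    rw [← add_assoc, XY, ih, XY]
    simp only
    ext
    · simp only; ring
    · simp only; ring

theorem XY_norm (n : ℕ) : (XY n).1 ^ 2 + (XY n).2 ^ 2 = (5 ^ n) ^ 2 := by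
  induction n with
  | zero => simp [XY]
  | succ n ih =>
    rw [XY]
    simp only
    have h : ((5 : ℤ) ^ (n + 1)) ^ 2 = 25 * (5 ^ n) ^ 2 := by rw [pow_succ]; ring
    rw [h, ← ih]
    ring

theorem XY_mod (n : ℕ) : (XY (n + 1)).1 % 5 = 3 ∧ (XY (n + 1)).2 % 5 = 4 := by
  induction n with
  | zero => simp [XY]
  | succ n ih =>
    obtain ⟨h1, h2⟩ := ih
    rw [XY]
    simp only
    constructor <;> omega

theorem XY_lt (d : ℕ) (hd : 1 ≤ d) : (XY d).1 < 5 ^ d := by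
  have h1 : (XY d).1 ≤ 5 ^ d := by
    have h := XY_norm d
    have h5 : (0 : ℤ) < 5 ^ d := by positivity
    nlinarith [sq_nonneg (XY d).2]
  refine lt_of_le_of_ne h1 fun h => ?_
  obtain ⟨k, rfl⟩ : ∃ k, d = k + 1 := ⟨d - 1, by omega⟩
  have h2 := (XY_mod k).1
  rw [h, pow_succ] at h2
  omega

theorem XY_gap_one (d : ℕ) (hd : 1 ≤ d) : ∀ᶠ n : ℕ in atTop,
    (n : ℤ) * (5 ^ n - (XY n).1) < 5 ^ n →
      (5 : ℤ) ^ (n + d) ≤ ((n + d : ℕ) : ℤ) * (5 ^ (n + d) - (XY (n + d)).1) := by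
  have h5d : (0 : ℝ) < 5 ^ d := by positivity
  set c : ℝ := ((XY d).1 : ℝ) / 5 ^ d with hc
  set s : ℝ := ((XY d).2 : ℝ) / 5 ^ d with hs
  have hcs : c ^ 2 + s ^ 2 = 1 := by
    have h : (((XY d).1 : ℝ)) ^ 2 + ((XY d).2 : ℝ) ^ 2 = ((5 : ℝ) ^ d) ^ 2 := by
      exact_mod_cast XY_norm d
    rw [hc, hs, div_pow, div_pow, ← add_div, h]
    exact div_self (by positivity)
  have hc1 : c < 1 := by
    rw [hc, div_lt_one h5d]
    exact_mod_cast XY_lt d hd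
  set e : ℝ := 1 - c with he
  have hepos : 0 < e := by linarith
  have ht : Tendsto (fun n : ℕ => (1 : ℝ) / n + Real.sqrt (2 / n)) atTop (𝓝 0) := by
    have h1 : Tendsto (fun n : ℕ => (1 : ℝ) / n) atTop (𝓝 0) := tendsto_one_div_atTop_nhds_zero_nat
    have h2 : Tendsto (fun n : ℕ => (2 : ℝ) / n) atTop (𝓝 0) := by
      have := h1.const_mul 2
      simpa [div_eq_mul_inv] using this
    have h3 : Tendsto (fun n : ℕ => Real.sqrt ((2 : ℝ) / n)) atTop (𝓝 (Real.sqrt 0)) :=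
      (Real.continuous_sqrt.tendsto 0).comp h2
    rw [Real.sqrt_zero] at h3
    simpa using h1.add h3
  filter_upwards [ht.eventually (gt_mem_nhds (half_pos hepos)), eventually_ge_atTop 1] with n hn hn1 hyp
  have hnpos : (0 : ℝ) < n := by exact_mod_cast hn1
  have h5n : (0 : ℝ) < 5 ^ n := by positivity
  set a : ℝ := ((XY n).1 : ℝ) / 5 ^ n with ha
  set b : ℝ := ((XY n).2 : ℝ) / 5 ^ n with hb
  have hab : a ^ 2 + b ^ 2 = 1 := by
    have h : (((XY n).1 : ℝ)) ^ 2 + ((XY n).2 : ℝ) ^ 2 = ((5 : ℝ) ^ n) ^ 2 := by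
      exact_mod_cast XY_norm n
    rw [ha, hb, div_pow, div_pow, ← add_div, h]
    exact div_self (by positivity)
  have hyp' : (n : ℝ) * ((5 : ℝ) ^ n - (XY n).1) < 5 ^ n := by exact_mod_cast hyp
  have hX : ((XY n).1 : ℝ) = a * 5 ^ n := by rw [ha]; field_simp
  have hY : ((XY n).2 : ℝ) = b * 5 ^ n := by rw [hb]; field_simp
  have hXd : ((XY d).1 : ℝ) = c * 5 ^ d := by rw [hc]; field_simp
  have hYd : ((XY d).2 : ℝ) = s * 5 ^ d := by rw [hs]; field_simp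
  have h1 : (n : ℝ) * (1 - a) < 1 := by
    rw [hX] at hyp'
    have : ((n : ℝ) * (1 - a)) * 5 ^ n < 1 * 5 ^ n := by
      calc ((n : ℝ) * (1 - a)) * 5 ^ n = (n : ℝ) * (5 ^ n - a * 5 ^ n) := by ring
        _ < 5 ^ n := hyp'
        _ = 1 * 5 ^ n := by ring
    exact lt_of_mul_lt_mul_right this h5n.le
  have h2 : 1 - a < 1 / n := by
    rw [lt_div_iff₀ hnpos]
    linarith
  have ha1 : a ≤ 1 := by nlinarith [sq_nonneg b]
  have h3 : b ^ 2 ≤ 2 / n := by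
    have h4 : b ^ 2 = (1 - a) * (1 + a) := by linarith
    have h6 : (1 - a) * (1 + a) ≤ (1 - a) * 2 := by nlinarith
    have h7 : (2 : ℝ) / n = (1 / n) * 2 := by ring
    rw [h4, h7]
    nlinarith
  have h4 : |b| ≤ Real.sqrt (2 / n) := Real.abs_le_sqrt h3
  have hs1 : |s| ≤ 1 := by
    rw [abs_le_one_iff_mul_self_le_one]
    nlinarith [sq_nonneg c]
  have hcabs : |c| ≤ 1 := by
    rw [abs_le_one_iff_mul_self_le_one]
    nlinarith [sq_nonneg s]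
  have h5 : b * s ≥ - Real.sqrt (2 / n) := by
    have : |b * s| ≤ Real.sqrt (2 / n) := by
      rw [abs_mul]
      calc |b| * |s| ≤ Real.sqrt (2 / n) * 1 := mul_le_mul h4 hs1 (abs_nonneg _) (Real.sqrt_nonneg _)
        _ = _ := mul_one _
    exact (abs_le.1 this).1
  have h6 : a * c ≤ c + 1 / n := by
    have h7 : (a - 1) * c ≤ (a - 1) * (-1) :=
      mul_le_mul_of_nonpos_left (abs_le.1 hcabs).1 (by linarith)
    have h7' : a * c = (a - 1) * c + c := by ring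
    rw [h7']
    linarith
  have h7 : e / 2 ≤ 1 - (a * c - b * s) := by
    have h8 : (1 : ℝ) / n + Real.sqrt (2 / n) < e / 2 := hn
    linarith
  have h8 : (1 : ℝ) / n ≤ e / 2 := by
    have h9 : (1 : ℝ) / n + Real.sqrt (2 / n) < e / 2 := hn
    have := Real.sqrt_nonneg ((2 : ℝ) / n)
    linarith
  have h9 : (1 : ℝ) ≤ ((n + d : ℕ) : ℝ) * (1 - (a * c - b * s)) := by
    have h10 : (1 : ℝ) ≤ n * (e / 2) := by
      rw [div_le_iff₀ hnpos] at h8
      linarith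
    have h11 : (n : ℝ) ≤ ((n + d : ℕ) : ℝ) := by push_cast; linarith [(Nat.cast_nonneg d : (0:ℝ) ≤ d)]
    calc (1 : ℝ) ≤ n * (e / 2) := h10
      _ ≤ ((n + d : ℕ) : ℝ) * (1 - (a * c - b * s)) := by
        apply mul_le_mul h11 h7 (by positivity) (by positivity)
  have h10 : (((XY (n + d)).1 : ℤ) : ℝ) = (a * c - b * s) * 5 ^ (n + d) := by
    rw [XY_add]
    push_cast
    rw [hX, hY, hXd, hYd, pow_add]
    ring
  have h11 : ((5 : ℝ)) ^ (n + d) ≤ ((n + d : ℕ) : ℝ) * (5 ^ (n + d) - ((XY (n + d)).1 : ℝ)) := by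
    rw [h10]
    have h12 : (0 : ℝ) < 5 ^ (n + d) := by positivity
    calc (5 : ℝ) ^ (n + d) = 1 * 5 ^ (n + d) := by ring
      _ ≤ (((n + d : ℕ) : ℝ) * (1 - (a * c - b * s))) * 5 ^ (n + d) := by gcongr
      _ = _ := by ring
  exact_mod_cast h11

theorem XY_gap : ∀ H : ℕ, ∃ N : ℕ, ∀ n : ℕ, N ≤ n → (n : ℤ) * (5 ^ n - (XY n).1) < 5 ^ n →
    ∀ δ : ℕ, 1 ≤ δ → δ ≤ H → 5 ^ (n + δ) ≤ ((n + δ : ℕ) : ℤ) * (5 ^ (n + δ) - (XY (n + δ)).1) := by
  intro H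
  have h : ∀ᶠ n : ℕ in atTop, ∀ d ∈ Finset.Icc 1 H, (n : ℤ) * (5 ^ n - (XY n).1) < 5 ^ n →
      (5 : ℤ) ^ (n + d) ≤ ((n + d : ℕ) : ℤ) * (5 ^ (n + d) - (XY (n + d)).1) := by
    rw [Filter.eventually_all_finset]
    intro d hd
    exact XY_gap_one d (Finset.mem_Icc.1 hd).1
  obtain ⟨N, hN⟩ := eventually_atTop.1 h
  exact ⟨N, fun n hn hyp d hd1 hd2 => hN n hn d (Finset.mem_Icc.2 ⟨hd1, hd2⟩) hyp⟩

end Pool.Agent.Helpers29.Deg
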