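import Pool.Agent.Helpers29.DegA

set_option autoImplicit false

namespace Pool.Agent.Helpers29.Deg

open Finset

/-- the shift operator -/
noncomputable def shiftC : (ℕ → ℂ) →ₗ[ℂ] (ℕ → ℂ) := LinearMap.funLeft ℂ ℂ Nat.succ

theorem shiftC_pow (i : ℕ) (u : ℕ → ℂ) (n : ℕ) : ((shiftC ^ i) u) n = u (n + i) := by
  induction i generalizing n with
  | zero => simp
  | succ i ih =>
    rw [pow_succ', Module.End.mul_apply]
    change ((shiftC ^ i) u) (n + 1) = _
    rw [ih]
    congr 1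
    ring

theorem aeval_shiftC (q : Polynomial ℂ) (u : ℕ → ℂ) (n : ℕ) :
    (Polynomial.aeval shiftC q u) n = ∑ i ∈ range (q.natDegree + 1), q.coeff i * u (n + i) := by
  rw [Polynomial.aeval_eq_sum_range]
  simp only [LinearMap.sum_apply, LinearMap.smul_apply, Finset.sum_apply, Pi.smul_apply,
    smul_eq_mul, shiftC_pow]

theorem lrs_iff (L : ℕ → ℂ) :
    IsLRS L ↔ ∃ q : Polynomial ℂ, q.Monic ∧ ∀ n, 1 ≤ n → (Polynomial.aeval shiftC q L) n = 0 := by
  constructor
  · rintro ⟨k, hk, c, hc⟩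
    refine ⟨Polynomial.X ^ k - ∑ i : Fin k, Polynomial.C (c i) * Polynomial.X ^ (i : ℕ),
      Polynomial.monic_X_pow_sub (Polynomial.degree_sum_fin_lt c), fun n hn => ?_⟩
    rw [map_sub, map_pow, Polynomial.aeval_X, LinearMap.sub_apply, Pi.sub_apply, shiftC_pow,
      hc n hn, map_sum, LinearMap.sum_apply, Finset.sum_apply, sub_eq_zero]
    refine Finset.sum_congr rfl (fun i _ => ?_)
    rw [map_mul, map_pow, Polynomial.aeval_X, Polynomial.aeval_C, Module.End.mul_apply]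
    change _ = (algebraMap ℂ (Module.End ℂ (ℕ → ℂ)) (c i)) ((shiftC ^ (i : ℕ)) L) n
    rw [Module.algebraMap_end_apply, Pi.smul_apply, smul_eq_mul, shiftC_pow]
  · rintro ⟨q, hq, h⟩
    have hq' : (Polynomial.X * q).Monic := Polynomial.monic_X.mul hq
    have hd : (Polynomial.X * q).natDegree = q.natDegree + 1 := by
      rw [Polynomial.natDegree_X_mul hq.ne_zero]
    refine ⟨q.natDegree + 1, by omega, fun i => -(Polynomial.X * q).coeff i, fun n hn => ?_⟩
    have h1 : (Polynomial.aeval shiftC (Polynomial.X * q) L) n = 0 := by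
      rw [map_mul, Polynomial.aeval_X, Module.End.mul_apply]
      exact h (n + 1) (by omega)
    rw [aeval_shiftC, Finset.sum_range_succ, hd] at h1
    have h2 : (Polynomial.X * q).coeff (q.natDegree + 1) = 1 := by
      rw [← hd]; exact hq'.coeff_natDegree
    rw [h2, one_mul, Finset.sum_range] at h1
    simp only [neg_mul, Finset.sum_neg_distrib]
    linear_combination h1

theorem aeval_shiftC_zero (q : Polynomial ℂ) (u : ℕ → ℂ) (hu : ∀ n, 1 ≤ n → u n = 0) (n : ℕ)
    (hn : 1 ≤ n) : (Polynomial.aeval shiftC q u) n = 0 := by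
  rw [aeval_shiftC]
  refine Finset.sum_eq_zero (fun i _ => ?_)
  rw [hu _ (by omega), mul_zero]

theorem IsLRS.sub {A B : ℕ → ℂ} (hA : IsLRS A) (hB : IsLRS B) :
    IsLRS (fun n => A n - B n) := by
  obtain ⟨p, hp, h1⟩ := (lrs_iff A).1 hA
  obtain ⟨q, hq, h2⟩ := (lrs_iff B).1 hB
  refine (lrs_iff _).2 ⟨p * q, hp.mul hq, fun n hn => ?_⟩
  have e : (fun n => A n - B n) = A - B := rfl
  rw [e, map_sub, Pi.sub_apply]
  have e1 : (Polynomial.aeval shiftC (p * q) A) n = 0 := by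
    rw [mul_comm, map_mul, Module.End.mul_apply]
    exact aeval_shiftC_zero q _ h1 n hn
  have e2 : (Polynomial.aeval shiftC (p * q) B) n = 0 := by
    rw [map_mul, Module.End.mul_apply]
    exact aeval_shiftC_zero p _ h2 n hn
  rw [e1, e2, sub_zero]

theorem lrs_of_matrix {m : ℕ} (M : Matrix (Fin m) (Fin m) ℂ) (v c : Fin m → ℂ) (_hm : 1 ≤ m) :
    IsLRS (fun n => ∑ i, c i * ((M ^ n).mulVec v) i) := by
  refine (lrs_iff _).2 ⟨M.charpoly, M.charpoly_monic, fun n _ => ?_⟩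
  let φ : Matrix (Fin m) (Fin m) ℂ →ₗ[ℂ] ℂ :=
    { toFun := fun A => ∑ i, c i * (A.mulVec v) i
      map_add' := by
        intro A B
        simp only [Matrix.add_mulVec, Pi.add_apply, mul_add, Finset.sum_add_distrib]
      map_smul' := by
        intro a A
        simp only [Matrix.smul_mulVec, Pi.smul_apply, smul_eq_mul, RingHom.id_apply,
          Finset.mul_sum]
        refine Finset.sum_congr rfl (fun i _ => by ring) }
  rw [aeval_shiftC]
  change ∑ i ∈ range (M.charpoly.natDegree + 1), M.charpoly.coeff i * φ (M ^ (n + i)) = 0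
  have h1 : ∑ i ∈ range (M.charpoly.natDegree + 1), M.charpoly.coeff i * φ (M ^ (n + i)) =
      φ (M ^ n * Polynomial.aeval M M.charpoly) := by
    rw [Polynomial.aeval_eq_sum_range, Finset.mul_sum, map_sum]
    refine Finset.sum_congr rfl (fun i _ => ?_)
    rw [mul_smul_comm, map_smul, smul_eq_mul, pow_add]
  rw [h1, Matrix.aeval_self_charpoly, mul_zero, map_zero]

theorem lrs_main (B C : ℕ → ℂ) (hB : IsLRS B)
    (hC : ∀ (H : ℕ) (S : Finset ℂ), ∃ n, 1 ≤ n ∧ C n ∉ S ∧ ∀ j, j ≤ H → C (n + j) = C n) :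
    ¬ ∃ (r : ℕ) (L : Fin r → ℕ → ℂ) (ι : ℕ → Fin r), (∀ i, IsLRS (L i)) ∧
      ∀ n, 1 ≤ n → B n + C n = L (ι n) n := by
  rintro ⟨r, L₀, ι, hL₀, hBL⟩
  obtain ⟨L, hLdef⟩ : ∃ L : Fin r → ℕ → ℂ, ∀ i n, L i n = L₀ i n - B n := ⟨_, fun _ _ => rfl⟩
  have hL : ∀ i, IsLRS (L i) := by
    intro i
    have : L i = fun n => L₀ i n - B n := funext (hLdef i)
    rw [this]
    exact (hL₀ i).sub hB
  have hDL : ∀ n, 1 ≤ n → C n = L (ι n) n := by
    intro n hn
    rw [hLdef, ← hBL n hn]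
    ring
  choose k hk c hc using hL
  obtain ⟨ℓ, hℓ⟩ : ∃ ℓ, ∀ i, k i + 1 ≤ ℓ :=
    ⟨Finset.univ.sup (fun i => k i + 1), fun i => Finset.le_sup (f := fun i => k i + 1) (Finset.mem_univ i)⟩
  obtain ⟨H, hH⟩ := window r ℓ
  set V : Set ℂ := {v | ∃ n, 1 ≤ n ∧ C n = v ∧ ∀ j, j ≤ 2 * (H * ℓ) → C (n + j) = v} with hV
  have hVinf : V.Infinite := by
    intro hfin
    obtain ⟨n, hn, hnS, hcon⟩ := hC (2 * (H * ℓ)) hfin.toFinset
    apply hnS
    rw [Set.Finite.mem_toFinset]
    exact ⟨n, hn, rfl, hcon⟩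
  haveI : Infinite V := hVinf.to_subtype
  have hex : ∀ v : V, ∃ s : ℕ, 1 ≤ s ∧ ∃ a : ℕ, 1 ≤ a ∧ a ≤ H ∧
      ∃ col, ∀ j, L col (s + j * a) = v.1 := by
    rintro ⟨v, n, hn, hnv, hcon⟩
    obtain ⟨b, a, ha1, haH, hb, col, hcol⟩ := hH ι n
    refine ⟨n + b, by omega, a, ha1, haH, col, ?_⟩
    obtain ⟨q, hq, hrel⟩ := ap_rel (hk col) (hc col) (n + b) a (by omega)
    have hval : ∀ x, x ≤ ℓ → L col (n + b + x * a) = v := by
      intro x hx
      rw [← hcol x hx, ← hDL _ (by omega), add_assoc]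
      apply hcon
      have : x * a ≤ ℓ * H := Nat.mul_le_mul hx haH
      have h5 : ℓ * H = H * ℓ := mul_comm _ _
      omega
    have haff := affine_ext (fun j => L col (n + b + j * a)) (k col) q hq hrel v 0 (by
      intro j hj
      change L col (n + b + j * a) = _
      rw [hval j (hj.trans (hℓ _))]
      ring)
    intro j
    have := haff j
    simpa using this
  choose s hs1 a ha1 haH col hcol using hex
  haveI : NeZero H.factorial := ⟨Nat.factorial_ne_zero H⟩
  obtain ⟨x, y, hxy, hfxy⟩ := Finite.exists_ne_map_eq_of_infinite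
    (fun v : V => (col v, ((s v : ℕ) : ZMod H.factorial)))
  have main : ∀ x y : V, s x ≤ s y → col x = col y →
      ((s x : ℕ) : ZMod H.factorial) = ((s y : ℕ) : ZMod H.factorial) → x = y := by
    intro x y hle hcxy hmod
    have hdvd : a x ∣ s y - s x := by
      refine dvd_trans (Nat.dvd_factorial (ha1 x) (haH x)) ?_
      exact (Nat.modEq_iff_dvd' hle).1 ((ZMod.natCast_eq_natCast_iff _ _ _).1 hmod)
    obtain ⟨j, hj⟩ := hdvd
    have hny2 : s y = s x + j * a x := by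
      rw [mul_comm] at hj
      omega
    have e1 := hcol x j
    have e2 := hcol y 0
    rw [Nat.zero_mul, Nat.add_zero, hny2, ← hcxy, e1] at e2
    exact Subtype.ext e2
  rw [Prod.mk.injEq] at hfxy
  rcases le_total (s x) (s y) with hle | hle
  · exact hxy (main x y hle hfxy.1 hfxy.2)
  · exact hxy (main y x hle hfxy.1.symm hfxy.2.symm).symm

theorem lrs_sum (u : ℕ → ℂ) (hu : IsLRS u) (c : ℂ) :
    IsLRS (fun n => c + ∑ j ∈ Finset.range n, u j) := by
  obtain ⟨q, hq, h⟩ := (lrs_iff u).1 hu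
  refine (lrs_iff _).2 ⟨q * (Polynomial.X - Polynomial.C 1),
    hq.mul (Polynomial.monic_X_sub_C 1), fun n hn => ?_⟩
  have e : (Polynomial.aeval shiftC (Polynomial.X - Polynomial.C (1 : ℂ)))
      (fun n => c + ∑ j ∈ Finset.range n, u j) = u := by
    rw [map_sub, Polynomial.aeval_X, map_one, map_one]
    funext m
    rw [LinearMap.sub_apply, Pi.sub_apply, Module.End.one_apply]
    change (c + ∑ j ∈ Finset.range (m + 1), u j) - (c + ∑ j ∈ Finset.range m, u j) = u m
    rw [Finset.sum_range_succ]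
    ring
  rw [map_mul, Module.End.mul_apply, e]
  exact h n hn

end Pool.Agent.Helpers29.Deg
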