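import Mathlib

set_option autoImplicit false

namespace Pool.Agent.Helpers29.Deg

/-- real and imaginary part of the powers of `3 + 4i` -/
def XY : ℕ → ℤ × ℤ
  | 0 => (1, 0)
  | n + 1 => (3 * (XY n).1 - 4 * (XY n).2, 4 * (XY n).1 + 3 * (XY n).2)

theorem XY_zero_eq : XY 0 = (1, 0) := by simp only [XY]

theorem XY_succ_eq (n : ℕ) :
    XY (n + 1) = (3 * (XY n).1 - 4 * (XY n).2, 4 * (XY n).1 + 3 * (XY n).2) := by
  simp only [XY]

theorem XY_unfold (n : ℕ) : XY n = XY n := by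
  unfold XY
  split <;> rfl

end Pool.Agent.Helpers29.Deg
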