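import Pool.Agent.Helpers29.DgN
import Pool.Agent.Helpers29.DgXY

set_option autoImplicit false

namespace Pool.Agent.Helpers29.Deg

open Finset

/-- exponent matrix of the monomial part; order of the variables: w, s, r, P0..P3, R0..R3 -/
def M0 : Fin 11 → Fin 11 → ℕ :=
  ![![1, 0, 0, 0, 0, 0, 0, 0, 0, 0, 0],
    ![0, 5, 0, 0, 0, 0, 0, 0, 0, 0, 0],
    ![0, 5, 5, 0, 0, 0, 0, 0, 0, 0, 0],
    ![1, 0, 0, 3, 4, 0, 0, 0, 0, 0, 0],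
    ![0, 0, 0, 0, 3, 4, 0, 0, 0, 0, 0],
    ![0, 0, 0, 0, 0, 3, 4, 0, 0, 0, 0],
    ![0, 0, 0, 4, 0, 0, 3, 0, 0, 0, 0],
    ![0, 0, 0, 1, 0, 0, 0, 3, 4, 0, 0],
    ![0, 0, 0, 0, 1, 0, 0, 0, 3, 4, 0],
    ![0, 0, 0, 0, 0, 1, 0, 0, 0, 3, 4],
    ![0, 0, 0, 0, 0, 0, 1, 4, 0, 0, 3]]

def va0 : Fin 11 → ℕ := ![5, 5, 6, 5, 5, 8, 9, 15, 5, 5, 25]

def vb0 : Fin 11 → ℕ := ![5, 7, 5, 8, 9, 5, 5, 5, 25, 15, 5]

theorem M0_sum : ∀ i, ∑ k, M0 i k ≤ 95 := by decide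

theorem va0_sum : 1 + ∑ k, va0 k ≤ 95 := by decide

theorem vb0_sum : 1 + ∑ k, vb0 k ≤ 95 := by decide

theorem M0_le : ∀ i k, M0 i k ≤ 5 := by decide

theorem va0_ge : ∀ k, 5 ≤ va0 k := by decide

theorem dom0 (n : ℕ) (i : Fin 11) : dl M0 (n + 1) i ≤ tt M0 va0 vb0 n := by
  refine le_trans ?_ (le_max_left _ _)
  change ∑ l, M0 i l * dl M0 n l ≤ ∑ l, va0 l * dl M0 n l
  exact Finset.sum_le_sum (fun l _ => Nat.mul_le_mul_right _ ((M0_le i l).trans (va0_ge l)))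

theorem dl_succ (n : ℕ) :
    dl M0 (n + 1) 0 = dl M0 n 0 ∧
    dl M0 (n + 1) 1 = 5 * dl M0 n 1 ∧
    dl M0 (n + 1) 2 = 5 * dl M0 n 1 + 5 * dl M0 n 2 ∧
    dl M0 (n + 1) 3 = dl M0 n 0 + 3 * dl M0 n 3 + 4 * dl M0 n 4 ∧
    dl M0 (n + 1) 4 = 3 * dl M0 n 4 + 4 * dl M0 n 5 ∧
    dl M0 (n + 1) 5 = 3 * dl M0 n 5 + 4 * dl M0 n 6 ∧
    dl M0 (n + 1) 6 = 4 * dl M0 n 3 + 3 * dl M0 n 6 ∧
    dl M0 (n + 1) 7 = dl M0 n 3 + 3 * dl M0 n 7 + 4 * dl M0 n 8 ∧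
    dl M0 (n + 1) 8 = dl M0 n 4 + 3 * dl M0 n 8 + 4 * dl M0 n 9 ∧
    dl M0 (n + 1) 9 = dl M0 n 5 + 3 * dl M0 n 9 + 4 * dl M0 n 10 ∧
    dl M0 (n + 1) 10 = dl M0 n 6 + 4 * dl M0 n 7 + 3 * dl M0 n 10 := by
  refine ⟨?_, ?_, ?_, ?_, ?_, ?_, ?_, ?_, ?_, ?_, ?_⟩ <;>
  · change ∑ l, M0 _ l * dl M0 n l = _
    simp [M0, Fin.sum_univ_succ]
    try rfl
    try ring_nf
    try rfl

theorem dl_formulas (n : ℕ) :
    (dl M0 n 0 : ℤ) = 1 ∧ (dl M0 n 1 : ℤ) = 5 ^ n ∧ (dl M0 n 2 : ℤ) = (n + 1) * 5 ^ n ∧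
    2 * ((dl M0 n 3 : ℤ) - dl M0 n 5) + 4 * ((dl M0 n 4 : ℤ) - dl M0 n 6) + 1 = (XY n).1 ∧
    4 * ((dl M0 n 3 : ℤ) - dl M0 n 5) - 2 * ((dl M0 n 4 : ℤ) - dl M0 n 6) = (XY n).2 ∧
    -10 * ((dl M0 n 7 : ℤ) - dl M0 n 9) + 20 * ((dl M0 n 8 : ℤ) - dl M0 n 10) +
      3 * ((dl M0 n 3 : ℤ) - dl M0 n 5) + 4 * ((dl M0 n 4 : ℤ) - dl M0 n 6) = n * (XY n).1 ∧
    20 * ((dl M0 n 7 : ℤ) - dl M0 n 9) + 10 * ((dl M0 n 8 : ℤ) - dl M0 n 10) +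
      4 * ((dl M0 n 3 : ℤ) - dl M0 n 5) - 3 * ((dl M0 n 4 : ℤ) - dl M0 n 6) = n * (XY n).2 := by
  induction n with
  | zero => simp [dl, XY]
  | succ n ih =>
    obtain ⟨a0, a1, a2, a3, a4, a5, a6⟩ := ih
    obtain ⟨e0, e1, e2, e3, e4, e5, e6, e7, e8, e9, e10⟩ := dl_succ n
    rw [e0, e1, e2, e3, e4, e5, e6, e7, e8, e9, e10]
    simp only [XY]
    push_cast
    refine ⟨a0, ?_, ?_, ?_, ?_, ?_, ?_⟩
    · rw [a1, pow_succ]; ring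
    · rw [a1, a2, pow_succ]; ring
    · linear_combination 3 * a3 - 4 * a4 + 2 * a0
    · linear_combination 4 * a3 + 3 * a4 + 4 * a0
    · linear_combination 3 * a5 - 4 * a6 + 3 * a3 - 4 * a4 + 3 * a0
    · linear_combination 4 * a5 + 3 * a6 + 4 * a3 + 3 * a4 + 4 * a0

theorem diff0 (n : ℕ) : ((al M0 vb0 n : ℤ)) - al M0 va0 n = 5 ^ n - n * (5 ^ n - (XY n).1) := by
  obtain ⟨a0, a1, a2, a3, a4, a5, a6⟩ := dl_formulas n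
  have ea : (al M0 va0 n : ℤ) = 5 * dl M0 n 0 + 5 * dl M0 n 1 + 6 * dl M0 n 2 + 5 * dl M0 n 3 +
      5 * dl M0 n 4 + 8 * dl M0 n 5 + 9 * dl M0 n 6 + 15 * dl M0 n 7 + 5 * dl M0 n 8 +
      5 * dl M0 n 9 + 25 * dl M0 n 10 := by
    unfold al
    simp [va0, Fin.sum_univ_succ]
    try ring_nf
    try rfl
  have eb : (al M0 vb0 n : ℤ) = 5 * dl M0 n 0 + 7 * dl M0 n 1 + 5 * dl M0 n 2 + 8 * dl M0 n 3 +
      9 * dl M0 n 4 + 5 * dl M0 n 5 + 5 * dl M0 n 6 + 5 * dl M0 n 7 + 25 * dl M0 n 8 +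
      15 * dl M0 n 9 + 5 * dl M0 n 10 := by
    unfold al
    simp [vb0, Fin.sum_univ_succ]
    try ring_nf
    try rfl
  rw [ea, eb]
  linear_combination a5 + 2 * a1 - a2

theorem Mn_two (n : ℕ) : ∀ i, Mn M0 n i 2 = if i = 2 then 5 ^ n else 0 := by
  induction n with
  | zero => intro i; simp [Mn]
  | succ n ih =>
    intro i
    have : Mn M0 (n + 1) i 2 = ∑ l, M0 i l * Mn M0 n l 2 := rfl
    rw [this]
    simp only [ih, mul_ite, mul_zero, Finset.sum_ite_eq', Finset.mem_univ, if_true]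
    have hc : ∀ i, M0 i 2 = if i = 2 then 5 else 0 := by decide
    rw [hc]
    split_ifs
    · rw [pow_succ]; ring
    · simp

theorem ne0 (n : ℕ) : Av M0 va0 n 2 ≠ Av M0 vb0 n 2 := by
  have h : ∀ v : Fin 11 → ℕ, Av M0 v n 2 = v 2 * 5 ^ n := by
    intro v
    unfold Av
    simp only [Mn_two, mul_ite, mul_zero, Finset.sum_ite_eq', Finset.mem_univ, if_true]
  rw [h, h]
  have : 0 < 5 ^ n := pow_pos (by norm_num) n
  change 6 * 5 ^ n ≠ 5 * 5 ^ n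
  omega

theorem circ {a b c e : ℤ} (h1 : a * 3 + e * 4 = 0) (h2 : a * 4 + b * 3 = 0)
    (h3 : b * 4 + c * 3 = 0) (h4 : c * 4 + e * 3 = 0) : a = 0 ∧ b = 0 ∧ c = 0 ∧ e = 0 := by
  refine ⟨?_, ?_, ?_, ?_⟩ <;> linarith

theorem M0_inj (m m' : Fin 11 → ℕ) (h : ∀ k, ∑ i, m i * M0 i k = ∑ i, m' i * M0 i k) :
    m = m' := by
  have h0 := h 0
  have h1 := h 1
  have h2 := h 2
  have h3 := h 3
  have h4 := h 4
  have h5 := h 5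
  have h6 := h 6
  have h7 := h 7
  have h8 := h 8
  have h9 := h 9
  have h10 := h 10
  simp [M0, Fin.sum_univ_succ] at h0 h1 h2 h3 h4 h5 h6 h7 h8 h9 h10
  clear h
  obtain ⟨k7, k8, k9, k10⟩ := circ (a := (m 7 : ℤ) - m' 7) (b := (m 8 : ℤ) - m' 8)
    (c := (m 9 : ℤ) - m' 9) (e := (m 10 : ℤ) - m' 10) (by zify at h7; linarith)
    (by zify at h8; linarith) (by zify at h9; linarith) (by zify at h10; linarith)
  have k7 : m 7 = m' 7 := by zify; linarith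
  have k8 : m 8 = m' 8 := by zify; linarith
  have k9 : m 9 = m' 9 := by zify; linarith
  have k10 : m 10 = m' 10 := by zify; linarith
  rw [k7] at h3
  rw [k8] at h4
  rw [k9] at h5
  rw [k10] at h6
  obtain ⟨k3, k4, k5, k6⟩ := circ (a := (m 3 : ℤ) - m' 3) (b := (m 4 : ℤ) - m' 4)
    (c := (m 5 : ℤ) - m' 5) (e := (m 6 : ℤ) - m' 6) (by zify at h3; linarith)
    (by zify at h4; linarith) (by zify at h5; linarith) (by zify at h6; linarith)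
  have k3 : m 3 = m' 3 := by zify; linarith
  have k4 : m 4 = m' 4 := by zify; linarith
  have k5 : m 5 = m' 5 := by zify; linarith
  have k6 : m 6 = m' 6 := by zify; linarith
  rw [k3] at h0
  rw [h2] at h1
  have k0 : m 0 = m' 0 := by linarith
  have k1 : m 1 = m' 1 := by linarith
  funext i
  fin_cases i
  · exact k0
  · exact k1
  · exact h2
  · exact k3
  · exact k4
  · exact k5
  · exact k6
  · exact k7
  · exact k8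
  · exact k9
  · exact k10

end Pool.Agent.Helpers29.Deg
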