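import Pool.Agent.Helpers29.DegE

set_option autoImplicit false

namespace Pool.Agent.Helpers29.Deg

open MvPolynomial Finset

section mono

variable {K : Type} [Field K] {d : ℕ}

/-- index of the `i`-th base variable -/
def ix (i : Fin d) : Fin (d + 1 + 1) := i.castSucc.succ

/-- index of the fibre variable -/
def zx : Fin (d + 1 + 1) := (Fin.last d).succ

noncomputable def mon (v : Fin d → ℕ) : MvPolynomial (Fin (d + 1 + 1)) K :=
  ∏ i, X (ix i) ^ v i

theorem mon_hom (v : Fin d → ℕ) : (mon v : MvPolynomial (Fin (d + 1 + 1)) K).IsHomogeneous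
    (∑ i, v i) := by
  unfold mon
  refine IsHomogeneous.prod _ _ _ (fun i _ => ?_)
  simpa using (isHomogeneous_X K (ix i)).pow (v i)

theorem mon_comb {ι : Type} (s : Finset ι) (c : ι → ℕ) (v : ι → Fin d → ℕ) :
    ∏ l ∈ s, (mon (v l) : MvPolynomial (Fin (d + 1 + 1)) K) ^ c l =
      mon (fun k => ∑ l ∈ s, c l * v l k) := by
  unfold mon
  have : ∀ l ∈ s, (∏ i, (X (ix i) : MvPolynomial (Fin (d + 1 + 1)) K) ^ v l i) ^ c l =
      ∏ i, X (ix i) ^ (c l * v l i) := by
    intro l _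
    rw [← Finset.prod_pow]
    exact Finset.prod_congr rfl (fun i _ => by rw [← pow_mul, mul_comm])
  rw [Finset.prod_congr rfl this, Finset.prod_comm]
  exact Finset.prod_congr rfl (fun i _ => by rw [Finset.prod_pow_eq_pow_sum])

variable (M : Fin d → Fin d → ℕ) (va vb : Fin d → ℕ) (D : ℕ)

noncomputable def Fm : Fin (d + 1 + 1) → MvPolynomial (Fin (d + 1 + 1)) K :=
  Fin.cons (α := fun _ => MvPolynomial (Fin (d + 1 + 1)) K) (X 0 ^ D)
    (Fin.snoc (α := fun _ => MvPolynomial (Fin (d + 1 + 1)) K)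
      (fun i : Fin d => X 0 ^ (D - ∑ k, M i k) * mon (M i))
      (X zx * (X 0 ^ (D - 1 - ∑ k, va k) * mon va + X 0 ^ (D - 1 - ∑ k, vb k) * mon vb)))

theorem Fm_zero : (Fm M va vb D 0 : MvPolynomial (Fin (d + 1 + 1)) K) = X 0 ^ D := by
  simp [Fm]

theorem Fm_ix (i : Fin d) : (Fm M va vb D (ix i) : MvPolynomial (Fin (d + 1 + 1)) K) =
    X 0 ^ (D - ∑ k, M i k) * mon (M i) := by
  simp [Fm, ix]

theorem Fm_zx : (Fm M va vb D zx : MvPolynomial (Fin (d + 1 + 1)) K) =
    X zx * (X 0 ^ (D - 1 - ∑ k, va k) * mon va + X 0 ^ (D - 1 - ∑ k, vb k) * mon vb) := by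
  simp [Fm, zx]

/-- exponents of the iterates of the monomial part -/
def Mn : ℕ → Fin d → Fin d → ℕ
  | 0 => fun i k => if i = k then 1 else 0
  | n + 1 => fun i k => ∑ l, M i l * Mn n l k

/-- degrees of the iterates of the monomial part -/
def dl : ℕ → Fin d → ℕ
  | 0 => fun _ => 1
  | n + 1 => fun i => ∑ l, M i l * dl n l

theorem dl_eq (n : ℕ) (i : Fin d) : ∑ k, Mn M n i k = dl M n i := by
  induction n generalizing i with
  | zero => simp [Mn, dl]
  | succ n ih =>
    simp only [Mn, dl]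
    rw [Finset.sum_comm]
    exact Finset.sum_congr rfl (fun l _ => by rw [← Finset.mul_sum, ih])

def al (v : Fin d → ℕ) (n : ℕ) : ℕ := ∑ i, v i * dl M n i

def Av (v : Fin d → ℕ) (n : ℕ) : Fin d → ℕ := fun k => ∑ i, v i * Mn M n i k

theorem Av_sum (v : Fin d → ℕ) (n : ℕ) : ∑ k, Av M v n k = al M v n := by
  unfold Av al
  rw [Finset.sum_comm]
  exact Finset.sum_congr rfl (fun l _ => by rw [← Finset.mul_sum, dl_eq])

def tt (n : ℕ) : ℕ := max (al M va n) (al M vb n)

noncomputable def Qm (n : ℕ) : MvPolynomial (Fin (d + 1 + 1)) K :=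
  X 0 ^ (tt M va vb n - al M va n) * mon (Av M va n) +
    X 0 ^ (tt M va vb n - al M vb n) * mon (Av M vb n)

/-- the degree of the `n`-th iterate -/
def Dn (n : ℕ) : ℕ := 1 + ∑ j ∈ range n, tt M va vb j

theorem prod_key (n : ℕ) (E : MvPolynomial (Fin (d + 1 + 1)) K)
    (a : Fin d → MvPolynomial (Fin (d + 1 + 1)) K)
    (h : ∀ i, X 0 ^ (dl M n i) * a i = E * mon (Mn M n i)) (v : Fin d → ℕ) :
    X 0 ^ (al M v n) * ∏ i, a i ^ v i = E ^ (∑ i, v i) * mon (Av M v n) := by
  have e1 : (X 0 : MvPolynomial (Fin (d + 1 + 1)) K) ^ (al M v n) =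
      ∏ i, (X 0 ^ (dl M n i)) ^ v i := by
    unfold al
    rw [← Finset.prod_pow_eq_pow_sum]
    exact Finset.prod_congr rfl (fun i _ => by rw [← pow_mul, mul_comm])
  rw [e1, ← Finset.prod_mul_distrib]
  have e2 : ∀ i ∈ Finset.univ, (X 0 ^ (dl M n i)) ^ v i * a i ^ v i =
      E ^ v i * (mon (Mn M n i)) ^ v i := by
    intro i _
    rw [← mul_pow, h, mul_pow]
  rw [Finset.prod_congr rfl e2, Finset.prod_mul_distrib, Finset.prod_pow_eq_pow_sum, mon_comb]
  rfl

theorem bind_mon (g : Fin (d + 1 + 1) → MvPolynomial (Fin (d + 1 + 1)) K) (v : Fin d → ℕ) :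
    bind₁ g (mon v) = ∏ i, g (ix i) ^ v i := by
  unfold mon
  simp

theorem forms2 (hM : ∀ i, ∑ k, M i k ≤ D) (ha : 1 + ∑ k, va k ≤ D) (hb : 1 + ∑ k, vb k ≤ D)
    (n : ℕ) :
    (iter (N := d + 1) (Fm (K := K) M va vb D) n 0 = X 0 ^ (D ^ n)) ∧
    (∀ i, X 0 ^ (dl M n i) * iter (N := d + 1) (Fm (K := K) M va vb D) n (ix i) =
      X 0 ^ (D ^ n) * mon (Mn M n i)) ∧
    (X 0 ^ (Dn M va vb n) * iter (N := d + 1) (Fm (K := K) M va vb D) n zx =
      X 0 ^ (D ^ n) * (X zx * ∏ j ∈ range n, Qm M va vb j)) := by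
  induction n with
  | zero =>
    refine ⟨by simp [iter], ?_, ?_⟩
    · intro i
      simp [iter, Mn, mon, dl]
    · simp [iter, Dn]
  | succ n ih =>
    obtain ⟨h0, h1, h2⟩ := ih
    have hE : (X 0 : MvPolynomial (Fin (d + 1 + 1)) K) ^ (D ^ (n + 1)) = (X 0 ^ (D ^ n)) ^ D := by
      rw [pow_succ D n, pow_mul]
    have k0 : iter (N := d + 1) (Fm (K := K) M va vb D) (n + 1) 0 =
        (iter (N := d + 1) (Fm (K := K) M va vb D) n 0) ^ D := by
      simp only [iter]
      rw [Fm_zero]; simp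
    have k1 : ∀ i, iter (N := d + 1) (Fm (K := K) M va vb D) (n + 1) (ix i) =
        (iter (N := d + 1) (Fm (K := K) M va vb D) n 0) ^ (D - ∑ k, M i k) *
          ∏ k, (iter (N := d + 1) (Fm (K := K) M va vb D) n (ix k)) ^ M i k := by
      intro i
      simp only [iter]
      rw [Fm_ix, map_mul, bind_mon]; simp
    have k2 : iter (N := d + 1) (Fm (K := K) M va vb D) (n + 1) zx =
        iter (N := d + 1) (Fm (K := K) M va vb D) n zx *
        ((iter (N := d + 1) (Fm (K := K) M va vb D) n 0) ^ (D - 1 - ∑ k, va k) *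
          ∏ k, (iter (N := d + 1) (Fm (K := K) M va vb D) n (ix k)) ^ va k +
        (iter (N := d + 1) (Fm (K := K) M va vb D) n 0) ^ (D - 1 - ∑ k, vb k) *
          ∏ k, (iter (N := d + 1) (Fm (K := K) M va vb D) n (ix k)) ^ vb k) := by
      simp only [iter]
      rw [Fm_zx, map_mul, map_add, map_mul, map_mul, bind_mon, bind_mon]; simp
    rw [k0, k2, h0, hE]
    simp only [k1, h0]
    generalize iter (N := d + 1) (Fm (K := K) M va vb D) n = g at *
    set E := (X 0 : MvPolynomial (Fin (d + 1 + 1)) K) ^ (D ^ n) with hEdef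
    refine ⟨trivial, ?_, ?_⟩
    · intro i
      have := prod_key M n E (fun k => g (ix k)) h1 (M i)
      have e1 : dl M (n + 1) i = al M (M i) n := rfl
      have e2 : Mn M (n + 1) i = Av M (M i) n := rfl
      rw [e1, e2]
      calc X 0 ^ al M (M i) n * (E ^ (D - ∑ k, M i k) * ∏ k, g (ix k) ^ M i k)
          = E ^ (D - ∑ k, M i k) * (X 0 ^ al M (M i) n * ∏ k, g (ix k) ^ M i k) := by ring
        _ = E ^ (D - ∑ k, M i k) * (E ^ (∑ k, M i k) * mon (Av M (M i) n)) := by rw [this]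
        _ = E ^ (D - ∑ k, M i k + ∑ k, M i k) * mon (Av M (M i) n) := by rw [pow_add]; ring
        _ = E ^ D * mon (Av M (M i) n) := by rw [Nat.sub_add_cancel (hM i)]
    · have pa := prod_key M n E (fun k => g (ix k)) h1 va
      have pb := prod_key M n E (fun k => g (ix k)) h1 vb
      have hDn : Dn M va vb (n + 1) = Dn M va vb n + tt M va vb n := by
        unfold Dn
        rw [Finset.sum_range_succ]
        ring
      have hta : tt M va vb n = (tt M va vb n - al M va n) + al M va n :=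
        (Nat.sub_add_cancel (le_max_left _ _)).symm
      have htb : tt M va vb n = (tt M va vb n - al M vb n) + al M vb n :=
        (Nat.sub_add_cancel (le_max_right _ _)).symm
      have qa : X 0 ^ (tt M va vb n) * (E ^ (D - 1 - ∑ k, va k) * ∏ k, g (ix k) ^ va k) =
          E ^ (D - 1) * (X 0 ^ (tt M va vb n - al M va n) * mon (Av M va n)) := by
        calc X 0 ^ (tt M va vb n) * (E ^ (D - 1 - ∑ k, va k) * ∏ k, g (ix k) ^ va k)
            = X 0 ^ ((tt M va vb n - al M va n) + al M va n) *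
              (E ^ (D - 1 - ∑ k, va k) * ∏ k, g (ix k) ^ va k) := by rw [← hta]
          _ = X 0 ^ (tt M va vb n - al M va n) * E ^ (D - 1 - ∑ k, va k) *
              (X 0 ^ al M va n * ∏ k, g (ix k) ^ va k) := by rw [pow_add]; ring
          _ = X 0 ^ (tt M va vb n - al M va n) *
              E ^ (D - 1 - ∑ k, va k + ∑ k, va k) * mon (Av M va n) := by
              rw [pa, pow_add]; ring
          _ = _ := by
              rw [Nat.sub_add_cancel (by omega)]; ring
      have qb : X 0 ^ (tt M va vb n) * (E ^ (D - 1 - ∑ k, vb k) * ∏ k, g (ix k) ^ vb k) =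
          E ^ (D - 1) * (X 0 ^ (tt M va vb n - al M vb n) * mon (Av M vb n)) := by
        calc X 0 ^ (tt M va vb n) * (E ^ (D - 1 - ∑ k, vb k) * ∏ k, g (ix k) ^ vb k)
            = X 0 ^ ((tt M va vb n - al M vb n) + al M vb n) *
              (E ^ (D - 1 - ∑ k, vb k) * ∏ k, g (ix k) ^ vb k) := by rw [← htb]
          _ = X 0 ^ (tt M va vb n - al M vb n) * E ^ (D - 1 - ∑ k, vb k) *
              (X 0 ^ al M vb n * ∏ k, g (ix k) ^ vb k) := by rw [pow_add]; ring
          _ = X 0 ^ (tt M va vb n - al M vb n) *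
              E ^ (D - 1 - ∑ k, vb k + ∑ k, vb k) * mon (Av M vb n) := by
              rw [pb, pow_add]; ring
          _ = _ := by
              rw [Nat.sub_add_cancel (by omega)]; ring
      rw [hDn, pow_add, Finset.prod_range_succ]
      have hED : E ^ D = E * E ^ (D - 1) := by
        rw [← pow_succ', Nat.sub_add_cancel (by omega)]
      calc X 0 ^ Dn M va vb n * X 0 ^ tt M va vb n *
            (g zx * (E ^ (D - 1 - ∑ k, va k) * ∏ k, g (ix k) ^ va k +
              E ^ (D - 1 - ∑ k, vb k) * ∏ k, g (ix k) ^ vb k))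
          = (X 0 ^ Dn M va vb n * g zx) *
            (X 0 ^ tt M va vb n * (E ^ (D - 1 - ∑ k, va k) * ∏ k, g (ix k) ^ va k) +
            X 0 ^ tt M va vb n * (E ^ (D - 1 - ∑ k, vb k) * ∏ k, g (ix k) ^ vb k)) := by ring
        _ = (E * (X zx * ∏ j ∈ range n, Qm M va vb j)) * (E ^ (D - 1) * Qm M va vb n) := by
            rw [h2, qa, qb]; unfold Qm; ring
        _ = _ := by rw [hED]; ring

end mono

end Pool.Agent.Helpers29.Deg
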