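import Pool.Agent.Helpers29.DgM

set_option autoImplicit false

namespace Pool.Agent.Helpers29.Deg

open MvPolynomial Finset

section mono

variable {K : Type} [Field K] {d : ℕ}
variable (M : Fin d → Fin d → ℕ) (va vb : Fin d → ℕ) (D : ℕ)

theorem dl_le (hM : ∀ i, ∑ k, M i k ≤ D) (n : ℕ) (i : Fin d) : dl M n i ≤ D ^ n := by
  induction n generalizing i with
  | zero => simp [dl]
  | succ n ih =>
    calc dl M (n + 1) i = ∑ l, M i l * dl M n l := rfl
      _ ≤ ∑ l, M i l * D ^ n := Finset.sum_le_sum (fun l _ => Nat.mul_le_mul_left _ (ih l))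
      _ = (∑ l, M i l) * D ^ n := by rw [Finset.sum_mul]
      _ ≤ D * D ^ n := Nat.mul_le_mul_right _ (hM i)
      _ = D ^ (n + 1) := by rw [pow_succ, mul_comm]

theorem al_le (hM : ∀ i, ∑ k, M i k ≤ D) (v : Fin d → ℕ) (n : ℕ) :
    al M v n ≤ (∑ k, v k) * D ^ n := by
  unfold al
  rw [Finset.sum_mul]
  exact Finset.sum_le_sum (fun l _ => Nat.mul_le_mul_left _ (dl_le M D hM n l))

theorem Dn_le (hM : ∀ i, ∑ k, M i k ≤ D) (ha : 1 + ∑ k, va k ≤ D) (hb : 1 + ∑ k, vb k ≤ D)
    (n : ℕ) : Dn M va vb n ≤ D ^ n := by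
  induction n with
  | zero => simp [Dn]
  | succ n ih =>
    have h1 : Dn M va vb (n + 1) = Dn M va vb n + tt M va vb n := by
      unfold Dn
      rw [Finset.sum_range_succ]
      ring
    have h2 : tt M va vb n ≤ (D - 1) * D ^ n := by
      refine max_le ((al_le M D hM va n).trans ?_) ((al_le M D hM vb n).trans ?_)
      · exact Nat.mul_le_mul_right _ (by omega)
      · exact Nat.mul_le_mul_right _ (by omega)
    have h3 : D ^ (n + 1) = D ^ n + (D - 1) * D ^ n := by
      obtain ⟨c, rfl⟩ : ∃ c, D = c + 1 := ⟨D - 1, by omega⟩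
      rw [Nat.add_sub_cancel, pow_succ]
      ring
    omega

noncomputable def Gm (n : ℕ) : Fin (d + 1 + 1) → MvPolynomial (Fin (d + 1 + 1)) K :=
  Fin.cons (α := fun _ => MvPolynomial (Fin (d + 1 + 1)) K) (X 0 ^ (Dn M va vb n))
    (Fin.snoc (α := fun _ => MvPolynomial (Fin (d + 1 + 1)) K)
      (fun i : Fin d => X 0 ^ (Dn M va vb n - dl M n i) * mon (Mn M n i))
      (X zx * ∏ j ∈ range n, Qm M va vb j))

theorem Gm_zero (n : ℕ) : (Gm M va vb n 0 : MvPolynomial (Fin (d + 1 + 1)) K) =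
    X 0 ^ (Dn M va vb n) := by
  simp [Gm]

theorem Gm_ix (n : ℕ) (i : Fin d) :
    (Gm M va vb n (ix i) : MvPolynomial (Fin (d + 1 + 1)) K) =
    X 0 ^ (Dn M va vb n - dl M n i) * mon (Mn M n i) := by
  simp [Gm, ix]

theorem Gm_zx (n : ℕ) : (Gm M va vb n zx : MvPolynomial (Fin (d + 1 + 1)) K) =
    X zx * ∏ j ∈ range n, Qm M va vb j := by
  simp [Gm, zx]

theorem cases3 {P : Fin (d + 1 + 1) → Prop} (h0 : P 0) (h1 : ∀ i, P (ix i)) (h2 : P zx)
    (i : Fin (d + 1 + 1)) : P i := by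
  refine Fin.cases h0 (fun j => ?_) i
  exact Fin.lastCases (motive := fun j => P j.succ) h2 (fun k => h1 k) j

/-- the domination hypothesis gives that the fibre coordinate has the largest degree -/
theorem dl_le_Dn (hdom : ∀ n i, dl M (n + 1) i ≤ tt M va vb n) (n : ℕ) (i : Fin d) :
    dl M n i ≤ Dn M va vb n := by
  cases n with
  | zero => simp [dl, Dn]
  | succ n =>
    have := hdom n i
    unfold Dn
    rw [Finset.sum_range_succ]
    omega

theorem iter_eq2 (hM : ∀ i, ∑ k, M i k ≤ D) (ha : 1 + ∑ k, va k ≤ D) (hb : 1 + ∑ k, vb k ≤ D)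
    (hdom : ∀ n i, dl M (n + 1) i ≤ tt M va vb n) (n : ℕ) (i : Fin (d + 1 + 1)) :
    iter (N := d + 1) (Fm (K := K) M va vb D) n i =
      X 0 ^ (D ^ n - Dn M va vb n) * Gm M va vb n i := by
  obtain ⟨h0, h1, h2⟩ := forms2 (K := K) M va vb D hM ha hb n
  have hle := Dn_le M va vb D hM ha hb n
  have hc : ∀ m, (X 0 : MvPolynomial (Fin (d + 1 + 1)) K) ^ m ≠ 0 :=
    fun m => pow_ne_zero m (X_ne_zero 0)
  revert i
  refine cases3 ?_ ?_ ?_
  · rw [h0, Gm_zero, ← pow_add, Nat.sub_add_cancel hle]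
  · intro i
    have hdi := dl_le_Dn M va vb hdom n i
    apply mul_left_cancel₀ (hc (dl M n i))
    rw [h1, Gm_ix, ← mul_assoc, ← mul_assoc, ← pow_add, ← pow_add]
    congr 2
    omega
  · apply mul_left_cancel₀ (hc (Dn M va vb n))
    rw [h2, Gm_zx, ← mul_assoc, ← mul_assoc, ← mul_assoc, ← pow_add, Nat.add_sub_cancel' hle]

theorem Qm_hom (n : ℕ) :
    (Qm M va vb n : MvPolynomial (Fin (d + 1 + 1)) K).IsHomogeneous (tt M va vb n) := by
  have key : ∀ v : Fin d → ℕ, al M v n ≤ tt M va vb n →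
      (X 0 ^ (tt M va vb n - al M v n) * mon (Av M v n) :
        MvPolynomial (Fin (d + 1 + 1)) K).IsHomogeneous (tt M va vb n) := by
    intro v hv
    have h1 : (X 0 ^ (tt M va vb n - al M v n) :
        MvPolynomial (Fin (d + 1 + 1)) K).IsHomogeneous (tt M va vb n - al M v n) := by
      simpa using (isHomogeneous_X K (0 : Fin (d + 1 + 1))).pow (tt M va vb n - al M v n)
    have h2 := h1.mul (mon_hom (K := K) (Av M v n))
    rwa [Av_sum, Nat.sub_add_cancel hv] at h2
  exact (key va (le_max_left _ _)).add (key vb (le_max_right _ _))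

theorem Gm_hom (hdom : ∀ n i, dl M (n + 1) i ≤ tt M va vb n) (n : ℕ) (i : Fin (d + 1 + 1)) :
    (Gm M va vb n i : MvPolynomial (Fin (d + 1 + 1)) K).IsHomogeneous (Dn M va vb n) := by
  revert i
  refine cases3 ?_ ?_ ?_
  · rw [Gm_zero]
    simpa using (isHomogeneous_X K (0 : Fin (d + 1 + 1))).pow (Dn M va vb n)
  · intro i
    rw [Gm_ix]
    have h1 : (X 0 ^ (Dn M va vb n - dl M n i) :
        MvPolynomial (Fin (d + 1 + 1)) K).IsHomogeneous (Dn M va vb n - dl M n i) := by
      simpa using (isHomogeneous_X K (0 : Fin (d + 1 + 1))).pow (Dn M va vb n - dl M n i)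
    have h2 := h1.mul (mon_hom (K := K) (Mn M n i))
    rwa [dl_eq, Nat.sub_add_cancel (dl_le_Dn M va vb hdom n i)] at h2
  · rw [Gm_zx]
    exact (isHomogeneous_X K zx).mul
      (IsHomogeneous.prod (range n) (fun j => Qm M va vb j) (fun j => tt M va vb j)
        (fun j _ => Qm_hom M va vb j))

/-- the specialisation used to see that `X 0` does not divide the fibre coordinate -/
noncomputable def spec (κ : Fin d) : MvPolynomial (Fin (d + 1 + 1)) K →ₐ[K] Polynomial K :=
  aeval (fun i => if i = 0 then 0 else if i = ix κ then Polynomial.X else 1)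

theorem spec_zero (κ : Fin d) : spec (K := K) κ (X 0) = 0 := by
  simp [spec]

theorem spec_zx (κ : Fin d) : spec (K := K) κ (X zx) = 1 := by
  have h1 : (zx : Fin (d + 1 + 1)) ≠ 0 := Fin.succ_ne_zero _
  have h2 : (zx : Fin (d + 1 + 1)) ≠ ix κ := by
    intro h
    exact (Fin.castSucc_lt_last κ).ne (Fin.succ_injective _ h).symm
  simp [spec, h1, h2]

theorem spec_mon (κ : Fin d) (v : Fin d → ℕ) : spec (K := K) κ (mon v) = Polynomial.X ^ v κ := by
  unfold mon
  rw [map_prod]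
  have : ∀ i ∈ Finset.univ, spec (K := K) κ (X (ix i) ^ v i) =
      if i = κ then Polynomial.X ^ v κ else 1 := by
    intro i _
    have h1 : (ix i : Fin (d + 1 + 1)) ≠ 0 := Fin.succ_ne_zero _
    by_cases h : i = κ
    · subst h
      simp [spec, h1]
    · have h2 : (ix i : Fin (d + 1 + 1)) ≠ ix κ := by
        intro h'
        exact h (Fin.castSucc_injective _ (Fin.succ_injective _ h'))
      simp [spec, h1, h2, h]
  rw [Finset.prod_congr rfl this, Finset.prod_ite_eq' Finset.univ κ]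
  simp

theorem spec_Qm (κ : Fin d) (n : ℕ) (hne : Av M va n κ ≠ Av M vb n κ) :
    spec (K := K) κ (Qm M va vb n) ≠ 0 := by
  unfold Qm
  rw [map_add, map_mul, map_mul, map_pow, map_pow, spec_zero, spec_mon, spec_mon]
  rcases lt_trichotomy (al M va n) (al M vb n) with h | h | h
  · have h1 : tt M va vb n - al M va n ≠ 0 := by unfold tt; omega
    have h2 : tt M va vb n - al M vb n = 0 := by unfold tt; omega
    rw [h2, zero_pow h1]
    simp
  · have h1 : tt M va vb n - al M va n = 0 := by unfold tt; omega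
    have h2 : tt M va vb n - al M vb n = 0 := by unfold tt; omega
    rw [h1, h2, pow_zero, one_mul, one_mul]
    intro h0
    have := congrArg (fun q => Polynomial.coeff q (Av M va n κ)) h0
    simp [Polynomial.coeff_X_pow, hne] at this
  · have h1 : tt M va vb n - al M va n = 0 := by unfold tt; omega
    have h2 : tt M va vb n - al M vb n ≠ 0 := by unfold tt; omega
    rw [h1, zero_pow h2]
    simp

theorem Gm_ncf (κ : Fin d) (hne : ∀ n, Av M va n κ ≠ Av M vb n κ) (n : ℕ) :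
    NoCommonFactor (N := d + 1) (Gm (K := K) M va vb n) := by
  intro g hg
  have h0 := hg 0
  rw [Gm_zero] at h0
  obtain ⟨i, _, hi⟩ := (dvd_prime_pow (MvPolynomial.X_prime :
    Prime (X 0 : MvPolynomial (Fin (d + 1 + 1)) K)) _).1 h0
  rcases Nat.eq_zero_or_pos i with rfl | hpos
  · rw [pow_zero] at hi
    exact associated_one_iff_isUnit.1 hi
  · exfalso
    have h1 : (X 0 : MvPolynomial (Fin (d + 1 + 1)) K) ∣ Gm M va vb n zx :=
      (dvd_pow_self _ hpos.ne').trans ((hi.symm.dvd).trans (hg zx))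
    rw [Gm_zx] at h1
    have h2 := map_dvd (spec (K := K) κ) h1
    rw [spec_zero, zero_dvd_iff, map_mul, spec_zx, one_mul, map_prod] at h2
    rw [Finset.prod_eq_zero_iff] at h2
    obtain ⟨j, _, hj⟩ := h2
    exact spec_Qm M va vb κ j (hne j) hj

theorem isIterateDegree_main (hM : ∀ i, ∑ k, M i k ≤ D) (ha : 1 + ∑ k, va k ≤ D)
    (hb : 1 + ∑ k, vb k ≤ D) (hdom : ∀ n i, dl M (n + 1) i ≤ tt M va vb n)
    (κ : Fin d) (hne : ∀ n, Av M va n κ ≠ Av M vb n κ) (n : ℕ) :
    IsIterateDegree (N := d + 1) (Fm (K := K) M va vb D) n (Dn M va vb n) :=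
  ⟨X 0 ^ (D ^ n - Dn M va vb n), Gm M va vb n, pow_ne_zero _ (X_ne_zero 0),
    iter_eq2 M va vb D hM ha hb hdom n, Gm_hom M va vb hdom n, Gm_ncf M va vb κ hne n⟩

end mono

end Pool.Agent.Helpers29.Deg
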