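import Pool.Agent.Helpers29.DgN
import Pool.Agent.Helpers29.DgA1

set_option autoImplicit false

namespace Pool.Agent.Helpers29.Deg

open MvPolynomial Finset

section dom

variable {K : Type} [Field K] {d : ℕ}
variable (M : Fin d → Fin d → ℕ) (va vb : Fin d → ℕ) (D : ℕ)

theorem sum3 {α : Type} [AddCommMonoid α] (f : Fin (d + 1 + 1) → α) :
    ∑ i, f i = f 0 + ((∑ i : Fin d, f (ix i)) + f zx) := by
  rw [Fin.sum_univ_succ, Fin.sum_univ_castSucc]
  rfl

theorem ix_ne_zero (i : Fin d) : (ix i : Fin (d + 1 + 1)) ≠ 0 := Fin.succ_ne_zero _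

theorem zx_ne_zero : (zx : Fin (d + 1 + 1)) ≠ 0 := Fin.succ_ne_zero _

theorem zx_ne_ix (i : Fin d) : (zx : Fin (d + 1 + 1)) ≠ ix i := by
  intro h
  exact (Fin.castSucc_lt_last i).ne (Fin.succ_injective _ h).symm

theorem ix_inj {i j : Fin d} (h : ix i = ix j) : i = j :=
  Fin.castSucc_injective _ (Fin.succ_injective _ h)

noncomputable def Ex : Fin (d + 1 + 1) → (Fin (d + 1 + 1) →₀ ℕ) :=
  Fin.cons (α := fun _ => (Fin (d + 1 + 1) →₀ ℕ)) (Finsupp.single 0 D)
    (Fin.snoc (α := fun _ => (Fin (d + 1 + 1) →₀ ℕ))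
      (fun i => Finsupp.single 0 (D - ∑ k, M i k) + ∑ k, Finsupp.single (ix k) (M i k))
      (Finsupp.single zx 1))

theorem Ex_zero : Ex M D 0 = Finsupp.single 0 D := by simp [Ex]

theorem Ex_ix (i : Fin d) : Ex M D (ix i) =
    Finsupp.single 0 (D - ∑ k, M i k) + ∑ k, Finsupp.single (ix k) (M i k) := by simp [Ex, ix]

theorem Ex_zx : Ex M D zx = Finsupp.single zx 1 := by simp [Ex, zx]

theorem mon_eq (v : Fin d → ℕ) : (mon v : MvPolynomial (Fin (d + 1 + 1)) K) =
    monomial (∑ k, Finsupp.single (ix k) (v k)) 1 := by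
  rw [monomial_sum_one]
  unfold mon
  exact Finset.prod_congr rfl (fun i _ => X_pow_eq_monomial)

theorem vars_mon (v : Fin d → ℕ) : (zx : Fin (d + 1 + 1)) ∉
    (mon v : MvPolynomial (Fin (d + 1 + 1)) K).vars := by
  classical
  intro h
  have h1 := (vars_prod (fun i => (X (ix i) : MvPolynomial (Fin (d + 1 + 1)) K) ^ v i)) h
  rw [Finset.mem_biUnion] at h1
  obtain ⟨i, _, hi⟩ := h1
  have h2 := (vars_pow _ _) hi
  rw [vars_X, Finset.mem_singleton] at h2
  exact zx_ne_ix i h2

theorem vars_term (v : Fin d → ℕ) (n : ℕ) : (zx : Fin (d + 1 + 1)) ∉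
    (X 0 ^ n * mon v : MvPolynomial (Fin (d + 1 + 1)) K).vars := by
  classical
  intro h
  have h1 := (vars_mul _ _) h
  rw [Finset.mem_union] at h1
  rcases h1 with h1 | h1
  · have h2 := (vars_pow _ _) h1
    rw [vars_X, Finset.mem_singleton] at h2
    exact zx_ne_zero h2
  · exact vars_mon v h1

theorem Q_ne (κ : Fin d) (hne : va κ ≠ vb κ) (e1 e2 : ℕ) :
    (X 0 ^ e1 * mon va + X 0 ^ e2 * mon vb : MvPolynomial (Fin (d + 1 + 1)) K) ≠ 0 := by
  intro h
  let φ : MvPolynomial (Fin (d + 1 + 1)) K →ₐ[K] Polynomial K :=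
    aeval (fun i => if i = ix κ then Polynomial.X else 1)
  have hφ : ∀ v : Fin d → ℕ, φ (mon v) = Polynomial.X ^ v κ := by
    intro v
    unfold mon
    rw [map_prod]
    have : ∀ i ∈ Finset.univ, φ (X (ix i) ^ v i) =
        if i = κ then Polynomial.X ^ v κ else 1 := by
      intro i _
      by_cases h : i = κ
      · subst h
        simp [φ]
      · have h2 : (ix i : Fin (d + 1 + 1)) ≠ ix κ := fun h' => h (ix_inj h')
        simp [φ, h2, h]
    rw [Finset.prod_congr rfl this, Finset.prod_ite_eq' Finset.univ κ]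
    simp
  have h0 : φ (X 0) = 1 := by
    have : (0 : Fin (d + 1 + 1)) ≠ ix κ := (ix_ne_zero κ).symm
    simp [φ, this]
  have h1 := congrArg φ h
  rw [map_add, map_mul, map_mul, map_pow, map_pow, h0, hφ, hφ, one_pow, one_pow, one_mul,
    one_mul, map_zero] at h1
  have := congrArg (fun q => Polynomial.coeff q (va κ)) h1
  simp [Polynomial.coeff_X_pow, hne] at this

theorem Ex_inj (hD : 0 < D)
    (hinj : ∀ m m' : Fin d → ℕ, (∀ k, ∑ i, m i * M i k = ∑ i, m' i * M i k) → m = m') :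
    Function.Injective (fun m : Fin (d + 1 + 1) →₀ ℕ => ∑ i, m i • Ex M D i) := by
  have hval : ∀ (m : Fin (d + 1 + 1) →₀ ℕ) (x : Fin (d + 1 + 1)),
      (∑ i, m i • Ex M D i) x = m 0 * (Ex M D 0) x + ((∑ i, m (ix i) * (Ex M D (ix i)) x) +
        m zx * (Ex M D zx) x) := by
    intro m x
    rw [Finsupp.finsetSum_apply, sum3]
    simp [Finsupp.smul_apply, smul_eq_mul]
  intro m m' h
  have hx : ∀ x, m 0 * (Ex M D 0) x + ((∑ i, m (ix i) * (Ex M D (ix i)) x) +
        m zx * (Ex M D zx) x) = m' 0 * (Ex M D 0) x + ((∑ i, m' (ix i) * (Ex M D (ix i)) x) +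
        m' zx * (Ex M D zx) x) := by
    intro x
    rw [← hval, ← hval]
    exact congrArg (fun f : Fin (d + 1 + 1) →₀ ℕ => f x) h
  have hs0 : ∀ i, (∑ k, Finsupp.single (ix k) (M i k) : Fin (d + 1 + 1) →₀ ℕ) 0 = 0 := by
    intro i
    rw [Finsupp.finsetSum_apply]
    exact Finset.sum_eq_zero (fun k _ => Finsupp.single_eq_of_ne (ix_ne_zero k).symm)
  have hsz : ∀ i, (∑ k, Finsupp.single (ix k) (M i k) : Fin (d + 1 + 1) →₀ ℕ) zx = 0 := by
    intro i
    rw [Finsupp.finsetSum_apply]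
    exact Finset.sum_eq_zero (fun k _ => Finsupp.single_eq_of_ne (zx_ne_ix k))
  have hsk : ∀ i l, (∑ k, Finsupp.single (ix k) (M i k) : Fin (d + 1 + 1) →₀ ℕ) (ix l) =
      M i l := by
    intro i l
    rw [Finsupp.finsetSum_apply, Finset.sum_eq_single l]
    · exact Finsupp.single_eq_same
    · intro k _ hk
      exact Finsupp.single_eq_of_ne (fun h => hk (ix_inj h).symm)
    · intro hl
      exact absurd (Finset.mem_univ l) hl
  -- base coordinates
  have hb : ∀ i, m (ix i) = m' (ix i) := by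
    have := hinj (fun i => m (ix i)) (fun i => m' (ix i)) (fun k => by
      have h1 := hx (ix k)
      have e0 : (Ex M D 0) (ix k) = 0 := by
        rw [Ex_zero]; exact Finsupp.single_eq_of_ne (ix_ne_zero k)
      have ez : (Ex M D zx) (ix k) = 0 := by
        rw [Ex_zx]; exact Finsupp.single_eq_of_ne (zx_ne_ix k).symm
      have ei : ∀ i, (Ex M D (ix i)) (ix k) = M i k := by
        intro i
        rw [Ex_ix, Finsupp.add_apply, hsk, Finsupp.single_eq_of_ne (ix_ne_zero k), zero_add]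
      rw [e0, ez] at h1
      simpa [ei] using h1)
    exact fun i => congrFun this i
  have hz : m zx = m' zx := by
    have h1 := hx zx
    have e0 : (Ex M D 0) zx = 0 := by
      rw [Ex_zero]; exact Finsupp.single_eq_of_ne zx_ne_zero
    have ez : (Ex M D zx) zx = 1 := by
      rw [Ex_zx]; exact Finsupp.single_eq_same
    have ei : ∀ i, (Ex M D (ix i)) zx = 0 := by
      intro i
      rw [Ex_ix, Finsupp.add_apply, hsz, Finsupp.single_eq_of_ne zx_ne_zero, zero_add]
    rw [e0, ez] at h1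
    simpa [ei] using h1
  have h0 : m 0 = m' 0 := by
    have h1 := hx 0
    have e0 : (Ex M D 0) 0 = D := by
      rw [Ex_zero]; exact Finsupp.single_eq_same
    rw [e0, hz] at h1
    simp only [hb] at h1
    have h2 : m 0 * D = m' 0 * D := by omega
    exact Nat.eq_of_mul_eq_mul_right hD h2
  ext i
  exact cases3 (P := fun i => m i = m' i) h0 hb hz i

theorem Fm_dom (hD : 0 < D) (κ : Fin d) (hne : va κ ≠ vb κ)
    (hinj : ∀ m m' : Fin d → ℕ, (∀ k, ∑ i, m i * M i k = ∑ i, m' i * M i k) → m = m') :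
    Dominant (N := d + 1) (Fm (K := K) M va vb D) := by
  classical
  refine dominant_skew (N := d + 1) (Ex M D) (Ex_inj M D hD hinj) zx
    (X 0 ^ (D - 1 - ∑ k, va k) * mon va + X 0 ^ (D - 1 - ∑ k, vb k) * mon vb)
    (Q_ne va vb κ hne _ _) ?_ (Ex_zx M D) ?_ _ (Fm_zx M va vb D) ?_
  · intro h
    have h1 := (vars_add_subset _ _) h
    rw [Finset.mem_union] at h1
    rcases h1 with h1 | h1
    · exact vars_term va _ h1
    · exact vars_term vb _ h1
  · refine cases3 ?_ ?_ ?_
    · intro _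
      rw [Ex_zero]; exact Finsupp.single_eq_of_ne zx_ne_zero
    · intro i _
      rw [Ex_ix, Finsupp.add_apply, Finsupp.finsetSum_apply,
        Finset.sum_eq_zero (fun k _ => Finsupp.single_eq_of_ne (zx_ne_ix k)),
        Finsupp.single_eq_of_ne zx_ne_zero, add_zero]
    · intro h
      exact absurd rfl h
  · refine cases3 ?_ ?_ ?_
    · intro _
      rw [Fm_zero, Ex_zero, X_pow_eq_monomial]
    · intro i _
      rw [Fm_ix, Ex_ix, mon_eq, X_pow_eq_monomial, monomial_mul, one_mul]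
    · intro h
      exact absurd rfl h

end dom

end Pool.Agent.Helpers29.Deg
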