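import Pool.Agent.Helpers29.DgP
import Pool.Agent.Helpers29.DgL
import Pool.Agent.Helpers29.DgB1
import Pool.Agent.Helpers29.DgB2
import Pool.Agent.Helpers29.DgC

set_option autoImplicit false

namespace Pool.Agent.Helpers29.Deg

open MvPolynomial Finset

/-- the jump part of the degree sequence -/
def cj (n : ℕ) : ℕ := ∑ j ∈ range n, (tt M0 va0 vb0 j - al M0 va0 j)

theorem cj_succ (n : ℕ) : cj (n + 1) = cj n + (tt M0 va0 vb0 n - al M0 va0 n) := by
  unfold cj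
  rw [Finset.sum_range_succ]

theorem cj_mono : Monotone cj := monotone_nat_of_le_succ (fun n => by rw [cj_succ]; omega)

theorem jump_pos (n : ℕ) (h : (n : ℤ) * (5 ^ n - (XY n).1) < 5 ^ n) :
    1 ≤ tt M0 va0 vb0 n - al M0 va0 n := by
  have h1 := diff0 n
  have h2 : al M0 va0 n < al M0 vb0 n := by
    zify
    linarith
  unfold tt
  omega

theorem jump_zero (n : ℕ) (h : 5 ^ n ≤ (n : ℤ) * (5 ^ n - (XY n).1)) :
    tt M0 va0 vb0 n - al M0 va0 n = 0 := by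
  have h1 := diff0 n
  have h2 : al M0 vb0 n ≤ al M0 va0 n := by
    zify
    linarith
  unfold tt
  omega

theorem cj_unbounded : ∀ m : ℕ, ∃ n, m ≤ cj n := by
  intro m
  induction m with
  | zero => exact ⟨0, Nat.zero_le _⟩
  | succ m ih =>
    obtain ⟨n, hn⟩ := ih
    obtain ⟨k, hk, hlt⟩ := XY_inf n
    refine ⟨k + 1, ?_⟩
    rw [cj_succ]
    have h1 := jump_pos k hlt
    have h2 := cj_mono hk
    omega

theorem cj_const (H n : ℕ) (h : ∀ δ, 1 ≤ δ → δ ≤ H →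
    5 ^ (n + δ) ≤ ((n + δ : ℕ) : ℤ) * (5 ^ (n + δ) - (XY (n + δ)).1)) :
    ∀ j, j ≤ H → cj (n + 1 + j) = cj (n + 1) := by
  intro j
  induction j with
  | zero => intro _; rfl
  | succ j ih =>
    intro hj
    have e : n + 1 + (j + 1) = (n + (j + 1)) + 1 := by ring
    rw [e, cj_succ, jump_zero _ (h (j + 1) (by omega) hj), add_zero]
    have e2 : n + (j + 1) = n + 1 + j := by ring
    rw [e2]
    exact ih (by omega)

theorem hC_main (H : ℕ) (S : Finset ℂ) : ∃ n, 1 ≤ n ∧ ((cj n : ℕ) : ℂ) ∉ S ∧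
    ∀ j, j ≤ H → ((cj (n + j) : ℕ) : ℂ) = ((cj n : ℕ) : ℂ) := by
  obtain ⟨N, hN⟩ := XY_gap H
  obtain ⟨m, hm⟩ := exists_nat_gt (∑ s ∈ S, ‖s‖)
  obtain ⟨n1, hn1⟩ := cj_unbounded m
  obtain ⟨k, hk, hlt⟩ := XY_inf (max N n1)
  refine ⟨k + 1, by omega, ?_, ?_⟩
  · intro hS
    have h1 : ‖((cj (k + 1) : ℕ) : ℂ)‖ ≤ ∑ s ∈ S, ‖s‖ :=
      Finset.single_le_sum (f := fun s : ℂ => ‖s‖) (fun s _ => norm_nonneg s) hS
    rw [Complex.norm_natCast] at h1
    have h2 : (cj (k + 1) : ℝ) < m := lt_of_le_of_lt h1 hm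
    have h3 : cj (k + 1) < m := by exact_mod_cast h2
    have h4 : cj n1 ≤ cj (k + 1) := cj_mono (by have := le_max_right N n1; omega)
    omega
  · intro j hj
    rw [cj_const H k (hN k (le_trans (le_max_left _ _) hk) hlt) j hj]

theorem dl_matrix (n : ℕ) :
    (((Matrix.of (fun i k => (M0 i k : ℂ))) ^ n).mulVec (fun _ => (1 : ℂ))) =
      fun i => (dl M0 n i : ℂ) := by
  induction n with
  | zero => simp [dl]
  | succ n ih =>
    rw [pow_succ', ← Matrix.mulVec_mulVec, ih]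
    funext i
    simp [Matrix.mulVec, dotProduct, dl]

theorem hB_main : IsLRS (fun n => 1 + ∑ j ∈ range n, (al M0 va0 j : ℂ)) := by
  refine lrs_sum (fun j => (al M0 va0 j : ℂ)) ?_ 1
  have h := lrs_of_matrix (m := 11) (Matrix.of (fun i k => (M0 i k : ℂ)))
    (fun _ => (1 : ℂ)) (fun i => (va0 i : ℂ)) (by norm_num)
  simp only [dl_matrix] at h
  have e : (fun n => ∑ i, (va0 i : ℂ) * (dl M0 n i : ℂ)) = fun j => (al M0 va0 j : ℂ) := by
    funext n
    simp [al]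
  rw [e] at h
  exact h

theorem Dn_split_gen {d : ℕ} (M : Fin d → Fin d → ℕ) (va vb : Fin d → ℕ) (n : ℕ) :
    (Dn M va vb n : ℂ) = (1 + ∑ j ∈ range n, (al M va j : ℂ)) +
      ((∑ j ∈ range n, (tt M va vb j - al M va j) : ℕ) : ℂ) := by
  have h : Dn M va vb n = (1 + ∑ j ∈ range n, al M va j) +
      ∑ j ∈ range n, (tt M va vb j - al M va j) := by
    unfold Dn
    rw [add_assoc, ← Finset.sum_add_distrib]
    congr 1
    refine Finset.sum_congr rfl (fun j _ => ?_)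
    have : al M va j ≤ tt M va vb j := le_max_left _ _
    omega
  rw [h, Nat.cast_add, Nat.cast_add, Nat.cast_one, Nat.cast_sum]

theorem Dn_split (n : ℕ) : (Dn M0 va0 vb0 n : ℂ) =
    (1 + ∑ j ∈ range n, (al M0 va0 j : ℂ)) + ((cj n : ℕ) : ℂ) :=
  Dn_split_gen M0 va0 vb0 n

theorem Fm_rational {K : Type} [Field K] {d : ℕ} (M : Fin d → Fin d → ℕ) (va vb : Fin d → ℕ)
    (D : ℕ) (hM : ∀ i, ∑ k, M i k ≤ D) (ha : 1 + ∑ k, va k ≤ D)
    (hb : 1 + ∑ k, vb k ≤ D) (hdom : ∀ n i, dl M (n + 1) i ≤ tt M va vb n)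
    (κ : Fin d) (hne : ∀ n, Av M va n κ ≠ Av M vb n κ) (hD1 : Dn M va vb 1 = D) :
    IsRationalMap (N := d + 1) (Fm (K := K) M va vb D) D := by
  have hFG : (Fm (K := K) M va vb D) = Gm M va vb 1 := by
    funext i
    have h := iter_eq2 (K := K) M va vb D hM ha hb hdom 1 i
    rw [hD1, pow_one, Nat.sub_self, pow_zero, one_mul] at h
    rw [← h]
    simp [iter]
  refine ⟨fun i => ?_, ?_⟩
  · rw [hFG]
    have := Gm_hom (K := K) M va vb hdom 1 i
    rwa [hD1] at this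
  · rw [hFG]
    exact Gm_ncf M va vb κ hne 1

theorem D1 : Dn M0 va0 vb0 1 = 95 := by decide

theorem va_ne : va0 2 ≠ vb0 2 := by decide

end Pool.Agent.Helpers29.Deg
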