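import Mathlib

set_option autoImplicit false

namespace Pool.Agent.Helpers29.Erd

open Finset

theorem card_classes (T : Finset ℕ) (hT : ∀ q ∈ T, q.Prime) (A : ℕ → Finset ℕ)
    (hA : ∀ q ∈ T, A q ⊆ range q) :
    ((range (∏ q ∈ T, q)).filter (fun r => ∀ q ∈ T, r % q ∈ A q)).card =
      ∏ q ∈ T, (A q).card := by
  classical
  induction T using Finset.induction_on with
  | empty => simp
  | insert p T hp ih =>
    have ih' := ih (fun q hq => hT q (mem_insert_of_mem hq))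
      (fun q hq => hA q (mem_insert_of_mem hq))
    have hpp : p.Prime := hT p (mem_insert_self _ _)
    have hco : Nat.Coprime p (∏ q ∈ T, q) := by
      refine Nat.Coprime.prod_right fun q hq => ?_
      refine (Nat.coprime_primes hpp (hT q (mem_insert_of_mem hq))).2 ?_
      rintro rfl
      exact hp hq
    have hQ : 0 < ∏ q ∈ T, q := Finset.prod_pos fun q hq => (hT q (mem_insert_of_mem hq)).pos
    rw [prod_insert hp, prod_insert hp, ← ih', ← card_product]
    refine Finset.card_nbij' (fun r => (r % p, r % (∏ q ∈ T, q)))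
      (fun x => (Nat.chineseRemainder hco x.1 x.2 : ℕ)) ?_ ?_ ?_ ?_
    · intro r hr
      simp only [coe_filter, mem_range, mem_insert, forall_eq_or_imp, Set.mem_ofPred_eq] at hr
      simp only [coe_product, Set.mem_prod, mem_coe, mem_filter, mem_range]
      refine ⟨hr.2.1, Nat.mod_lt _ hQ, fun q hq => ?_⟩
      rw [Nat.mod_mod_of_dvd _ (dvd_prod_of_mem _ hq)]
      exact hr.2.2 q hq
    · rintro ⟨a, b⟩ hab
      simp only [coe_product, Set.mem_prod, mem_coe, mem_filter, mem_range] at hab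
      simp only [coe_filter, mem_range, mem_insert, forall_eq_or_imp, Set.mem_ofPred_eq]
      obtain ⟨ha, hb, hb2⟩ := hab
      have h1 := (Nat.chineseRemainder hco a b).2.1
      have h2 := (Nat.chineseRemainder hco a b).2.2
      have hap : a < p := mem_range.1 (hA p (mem_insert_self _ _) ha)
      refine ⟨Nat.chineseRemainder_lt_mul hco a b hpp.ne_zero hQ.ne', ?_, fun q hq => ?_⟩
      · have : (Nat.chineseRemainder hco a b : ℕ) % p = a % p := h1
        rw [this, Nat.mod_eq_of_lt hap]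
        exact ha
      · have h3 : (Nat.chineseRemainder hco a b : ℕ) % q = b % q :=
          h2.of_dvd (dvd_prod_of_mem _ hq)
        rw [h3]
        exact hb2 q hq
    · intro r hr
      simp only [coe_filter, mem_range, mem_insert, forall_eq_or_imp, Set.mem_ofPred_eq] at hr
      have h1 := (Nat.chineseRemainder hco (r % p) (r % ∏ q ∈ T, q)).2.1
      have h2 := (Nat.chineseRemainder hco (r % p) (r % ∏ q ∈ T, q)).2.2
      have h3 : (Nat.chineseRemainder hco (r % p) (r % ∏ q ∈ T, q) : ℕ) ≡ r [MOD p] :=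
        h1.trans (Nat.mod_modEq _ _)
      have h4 : (Nat.chineseRemainder hco (r % p) (r % ∏ q ∈ T, q) : ℕ) ≡ r [MOD ∏ q ∈ T, q] :=
        h2.trans (Nat.mod_modEq _ _)
      have h5 := (Nat.modEq_and_modEq_iff_modEq_mul hco).1 ⟨h3, h4⟩
      exact Nat.ModEq.eq_of_lt_of_lt h5
        (Nat.chineseRemainder_lt_mul hco _ _ hpp.ne_zero hQ.ne') hr.1
    · rintro ⟨a, b⟩ hab
      simp only [coe_product, Set.mem_prod, mem_coe, mem_filter, mem_range] at hab
      obtain ⟨ha, hb, hb2⟩ := hab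
      have h1 := (Nat.chineseRemainder hco a b).2.1
      have h2 := (Nat.chineseRemainder hco a b).2.2
      have hap : a < p := mem_range.1 (hA p (mem_insert_self _ _) ha)
      refine Prod.ext ?_ ?_
      · have : (Nat.chineseRemainder hco a b : ℕ) % p = a % p := h1
        simp only
        rw [this, Nat.mod_eq_of_lt hap]
      · have : (Nat.chineseRemainder hco a b : ℕ) % (∏ q ∈ T, q) = b % (∏ q ∈ T, q) := h2
        simp only
        rw [this, Nat.mod_eq_of_lt hb]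

theorem count_class (Q r Y : ℕ) (hQ : 0 < Q) :
    |(((Icc 1 Y).filter (fun k => k ≡ r [MOD Q])).card : ℝ) - Y / Q| ≤ 1 := by
  have h1 : Icc 1 Y = Ioc 0 Y := by
    ext k
    simp only [mem_Icc, mem_Ioc]
    omega
  have h2 := Nat.Ioc_filter_modEq_card 0 Y hQ r
  rw [h1]
  have hQ' : (0 : ℚ) < Q := by exact_mod_cast hQ
  have h3 : ⌊(((0 : ℕ) : ℚ) - r) / Q⌋ ≤ ⌊((Y : ℚ) - r) / Q⌋ := by
    refine Int.floor_le_floor ?_
    refine div_le_div_of_nonneg_right ?_ hQ'.le
    push_cast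
    have : (0 : ℚ) ≤ Y := Nat.cast_nonneg _
    linarith
  rw [max_eq_left (by linarith)] at h2
  have h4 : (((Ioc 0 Y).filter (fun k => k ≡ r [MOD Q])).card : ℚ) =
      (⌊((Y : ℚ) - r) / Q⌋ : ℚ) - (⌊(((0 : ℕ) : ℚ) - r) / Q⌋ : ℚ) := by
    exact_mod_cast h2
  have h5 : |(((Ioc 0 Y).filter (fun k => k ≡ r [MOD Q])).card : ℚ) - Y / Q| ≤ 1 := by
    rw [h4]
    have a1 := Int.floor_le (((Y : ℚ) - r) / Q)
    have a2 := Int.lt_floor_add_one (((Y : ℚ) - r) / Q)
    have a3 := Int.floor_le ((((0 : ℕ) : ℚ) - r) / Q)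
    have a4 := Int.lt_floor_add_one ((((0 : ℕ) : ℚ) - r) / Q)
    have a5 : ((Y : ℚ) - r) / Q - (((0 : ℕ) : ℚ) - r) / Q = Y / Q := by
      push_cast
      ring
    rw [abs_le]
    constructor <;> linarith
  have h6 : ((|(((Ioc 0 Y).filter (fun k => k ≡ r [MOD Q])).card : ℚ) - Y / Q| : ℚ) : ℝ) ≤
      ((1 : ℚ) : ℝ) := Rat.cast_le.2 h5
  push_cast at h6
  exact h6

theorem count_T (T : Finset ℕ) (hT : ∀ q ∈ T, q.Prime) (A : ℕ → Finset ℕ)
    (hA : ∀ q ∈ T, A q ⊆ range q) (Y : ℕ) :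
    |(((Icc 1 Y).filter (fun k => ∀ q ∈ T, k % q ∈ A q)).card : ℝ) -
      Y * ∏ q ∈ T, ((A q).card : ℝ) / q| ≤ ∏ q ∈ T, ((A q).card : ℝ) := by
  classical
  set Q := ∏ q ∈ T, q with hQdef
  have hQ : 0 < Q := Finset.prod_pos fun q hq => (hT q hq).pos
  set S := (range Q).filter (fun r => ∀ q ∈ T, r % q ∈ A q) with hS
  have hcard : (S.card : ℝ) = ∏ q ∈ T, ((A q).card : ℝ) := by
    rw [hS, card_classes T hT A hA]
    push_cast
    rfl
  have h1 : (Icc 1 Y).filter (fun k => ∀ q ∈ T, k % q ∈ A q) =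
      S.biUnion (fun r => (Icc 1 Y).filter (fun k => k ≡ r [MOD Q])) := by
    ext k
    simp only [mem_filter, mem_biUnion, hS, mem_range]
    constructor
    · rintro ⟨hk, hq⟩
      refine ⟨k % Q, ⟨Nat.mod_lt _ hQ, fun q hq' => ?_⟩, hk, (Nat.mod_modEq _ _).symm⟩
      rw [Nat.mod_mod_of_dvd _ (dvd_prod_of_mem _ hq')]
      exact hq q hq'
    · rintro ⟨r, ⟨-, hr⟩, hk, hkr⟩
      refine ⟨hk, fun q hq => ?_⟩
      have : k % q = r % q := hkr.of_dvd (dvd_prod_of_mem _ hq)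
      rw [this]
      exact hr q hq
  have h2 : ((Icc 1 Y).filter (fun k => ∀ q ∈ T, k % q ∈ A q)).card =
      ∑ r ∈ S, ((Icc 1 Y).filter (fun k => k ≡ r [MOD Q])).card := by
    rw [h1]
    refine card_biUnion fun a ha b hb hab => ?_
    refine Finset.disjoint_left.2 ?_
    intro k hk1 hk2
    rw [mem_filter] at hk1 hk2
    rw [mem_coe, hS, mem_filter, mem_range] at ha hb
    exact hab (Nat.ModEq.eq_of_lt_of_lt (hk1.2.symm.trans hk2.2) ha.1 hb.1)
  have h3 : (Y : ℝ) * ∏ q ∈ T, ((A q).card : ℝ) / q = ∑ r ∈ S, (Y : ℝ) / Q := by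
    rw [sum_const, nsmul_eq_mul, hcard, prod_div_distrib, hQdef]
    push_cast
    ring
  rw [h2, h3, ← hcard]
  push_cast
  rw [← sum_sub_distrib]
  refine (abs_sum_le_sum_abs _ _).trans ?_
  calc ∑ r ∈ S, |(((Icc 1 Y).filter (fun k => k ≡ r [MOD Q])).card : ℝ) - Y / Q|
      ≤ ∑ r ∈ S, (1 : ℝ) := sum_le_sum fun r _ => count_class Q r Y hQ
    _ = S.card := by rw [sum_const, nsmul_eq_mul, mul_one]

end Pool.Agent.Helpers29.Erd
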