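import Mathlib

set_option autoImplicit false

open Finset

namespace Pool.Agent.Helpers29.Erd

/-- the truncated alternating sum -/
noncomputable def SB (P : Finset ℕ) (x : ℕ → ℝ) (M : ℕ) : ℝ :=
  ∑ T ∈ P.powerset.filter (fun T => T.card ≤ M), (-1 : ℝ) ^ T.card * ∏ q ∈ T, x q

theorem SB_insert (a : ℕ) (P : Finset ℕ) (ha : a ∉ P) (x : ℕ → ℝ) (M : ℕ) :
    SB (insert a P) x (M + 1) = SB P x (M + 1) - x a * SB P x M := by
  unfold SB
  rw [Finset.sum_filter, Finset.sum_powerset_insert ha, ← Finset.sum_filter, sub_eq_add_neg]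
  congr 1
  rw [Finset.sum_filter, Finset.mul_sum, ← Finset.sum_neg_distrib]
  refine Finset.sum_congr rfl (fun T hT => ?_)
  have haT : a ∉ T := fun h => ha (Finset.mem_powerset.1 hT h)
  rw [Finset.card_insert_of_notMem haT, Finset.prod_insert haT]
  by_cases h : T.card ≤ M
  · rw [if_pos (by omega), if_pos h]; ring
  · rw [if_neg (by omega), if_neg h]; ring

theorem SB_zero (P : Finset ℕ) (x : ℕ → ℝ) : SB P x 0 = 1 := by
  unfold SB
  have : P.powerset.filter (fun T => T.card ≤ 0) = {∅} := by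
    ext T
    simp only [mem_filter, mem_powerset, Nat.le_zero, card_eq_zero, mem_singleton]
    constructor
    · exact fun h => h.2
    · rintro rfl; simp
  rw [this]; simp

theorem SB_sign (P : Finset ℕ) (x : ℕ → ℝ) (hx : ∀ q ∈ P, 0 ≤ x q ∧ x q ≤ 1) :
    ∀ M : ℕ, 0 ≤ (-1 : ℝ) ^ M * (SB P x M - ∏ q ∈ P, (1 - x q)) := by
  induction P using Finset.induction_on with
  | empty =>
    intro M
    have : SB ∅ x M = 1 := by
      unfold SB
      simp
      rw [Finset.filter_singleton]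
      simp
    rw [this]; simp
  | insert a P ha ih =>
    have hxP : ∀ q ∈ P, 0 ≤ x q ∧ x q ≤ 1 := fun q hq => hx q (Finset.mem_insert_of_mem hq)
    have ihP := ih hxP
    have hxa := hx a (Finset.mem_insert_self a P)
    intro M
    rcases M with _ | M
    · rw [SB_zero]
      have : ∏ q ∈ insert a P, (1 - x q) ≤ 1 := by
        apply Finset.prod_le_one
        · intro q hq; linarith [(hx q hq).2]
        · intro q hq; linarith [(hx q hq).1]
      simp; linarith
    · rw [SB_insert a P ha, Finset.prod_insert ha]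
      have h1 := ihP (M + 1)
      have h2 := ihP M
      have h3 : (-1 : ℝ) ^ (M + 1) * (SB P x (M + 1) - x a * SB P x M - (1 - x a) * ∏ q ∈ P, (1 - x q)) =
          (-1 : ℝ) ^ (M + 1) * (SB P x (M + 1) - ∏ q ∈ P, (1 - x q)) +
            x a * ((-1 : ℝ) ^ M * (SB P x M - ∏ q ∈ P, (1 - x q))) := by
        rw [pow_succ]; ring
      rw [h3]
      have := mul_nonneg hxa.1 h2
      linarith

theorem SB_succ (P : Finset ℕ) (x : ℕ → ℝ) (M : ℕ) :
    SB P x (M + 1) = SB P x M + (-1 : ℝ) ^ (M + 1) * ∑ T ∈ P.powersetCard (M+1), ∏ q ∈ T, x q := by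
  unfold SB
  have : P.powerset.filter (fun T => T.card ≤ M + 1) =
      (P.powerset.filter (fun T => T.card ≤ M)) ∪ P.powersetCard (M+1) := by
    ext T
    simp only [mem_filter, mem_powerset, mem_union, mem_powersetCard]
    constructor
    · rintro ⟨h1, h2⟩
      rcases Nat.lt_or_ge M T.card with h | h
      · exact Or.inr ⟨h1, by omega⟩
      · exact Or.inl ⟨h1, h⟩
    · rintro (⟨h1, h2⟩ | ⟨h1, h2⟩)
      · exact ⟨h1, by omega⟩
      · exact ⟨h1, by omega⟩
  rw [this, Finset.sum_union]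
  · congr 1
    rw [Finset.mul_sum]
    refine Finset.sum_congr rfl (fun T hT => ?_)
    rw [(Finset.mem_powersetCard.1 hT).2]
  · rw [Finset.disjoint_left]
    intro T h1 h2
    have := (Finset.mem_filter.1 h1).2
    have := (Finset.mem_powersetCard.1 h2).2
    omega

theorem bonf_prod (P : Finset ℕ) (x : ℕ → ℝ) (hx : ∀ q ∈ P, 0 ≤ x q ∧ x q ≤ 1) (M : ℕ)
    (hM : Odd M) :
    ∏ q ∈ P, (1 - x q) - ∑ T ∈ P.powersetCard (M+1), ∏ q ∈ T, x q ≤
      ∑ T ∈ P.powerset.filter (fun T => T.card ≤ M), (-1 : ℝ) ^ T.card * ∏ q ∈ T, x q := by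
  have h1 := SB_sign P x hx (M + 1)
  have h2 : (-1 : ℝ) ^ (M + 1) = 1 := (Odd.add_one hM).neg_one_pow
  rw [SB_succ, h2, one_mul, one_mul] at h1
  have h3 : SB P x M = ∑ T ∈ P.powerset.filter (fun T => T.card ≤ M), (-1 : ℝ) ^ T.card * ∏ q ∈ T, x q := rfl
  rw [← h3]
  linarith

end Pool.Agent.Helpers29.Erd
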