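import Pool.Agent.Helpers29.ErdDefs

set_option autoImplicit false

namespace Pool.Agent.Helpers29.Erd

open Finset

theorem alt_nonpos (B : Finset ℕ) (hB : B.Nonempty) (M : ℕ) (hM : Odd M) :
    ∑ T ∈ B.powerset.filter (fun T => T.card ≤ M), (-1 : ℝ) ^ T.card ≤ 0 := by
  have h1 : ∑ T ∈ B.powerset.filter (fun T => T.card ≤ M), (-1 : ℝ) ^ T.card =
      ∑ i ∈ range (M + 1), (-1 : ℝ) ^ i * (B.card.choose i : ℝ) := by
    have hmap : ∀ T ∈ B.powerset.filter (fun T => T.card ≤ M), T.card ∈ range (M + 1) := by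
      intro T hT
      rw [mem_filter] at hT
      exact mem_range.2 (Nat.lt_succ_of_le hT.2)
    rw [← Finset.sum_fiberwise_of_maps_to hmap]
    refine Finset.sum_congr rfl (fun i hi => ?_)
    have hfil : (B.powerset.filter (fun T => T.card ≤ M)).filter (fun T => T.card = i) =
        B.powersetCard i := by
      ext T
      simp only [mem_filter, mem_powerset, mem_powersetCard]
      have := mem_range.1 hi
      constructor
      · rintro ⟨⟨h1, _⟩, h2⟩; exact ⟨h1, h2⟩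
      · rintro ⟨h1, h2⟩; exact ⟨⟨h1, by omega⟩, h2⟩
    rw [hfil]
    rw [Finset.sum_congr rfl (fun T hT => by rw [(mem_powersetCard.1 hT).2])]
    rw [Finset.sum_const, card_powersetCard, nsmul_eq_mul, mul_comm]
  obtain ⟨b, hb⟩ : ∃ b, B.card = b + 1 := ⟨B.card - 1, by
    have := hB.card_pos
    omega⟩
  have h2 : ∀ M : ℕ, ∑ i ∈ range (M + 1), (-1 : ℝ) ^ i * ((b + 1).choose i : ℝ) =
      (-1) ^ M * (b.choose M : ℝ) := by
    intro M
    induction M with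
    | zero => simp
    | succ M ih =>
      rw [Finset.sum_range_succ, ih, Nat.choose_succ_succ]
      push_cast
      ring
  rw [h1, hb, h2, hM.neg_one_pow]
  have : (0 : ℝ) ≤ (b.choose M : ℝ) := Nat.cast_nonneg _
  linarith

theorem brun_aux
    (hcount : ∀ (T : Finset ℕ) (_ : ∀ q ∈ T, q.Prime) (A : ℕ → Finset ℕ)
      (_ : ∀ q ∈ T, A q ⊆ range q) (Y : ℕ),
      |(((Icc 1 Y).filter (fun k => ∀ q ∈ T, k % q ∈ A q)).card : ℝ) -
        Y * ∏ q ∈ T, ((A q).card : ℝ) / q| ≤ ∏ q ∈ T, ((A q).card : ℝ))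
    (hbonf : ∀ (P : Finset ℕ) (x : ℕ → ℝ) (_ : ∀ q ∈ P, 0 ≤ x q ∧ x q ≤ 1) (M : ℕ) (_ : Odd M),
      ∏ q ∈ P, (1 - x q) - ∑ T ∈ P.powersetCard (M+1), ∏ q ∈ T, x q ≤
        ∑ T ∈ P.powerset.filter (fun T => T.card ≤ M), (-1 : ℝ) ^ T.card * ∏ q ∈ T, x q)
    (P : Finset ℕ) (hP : ∀ q ∈ P, q.Prime) (A : ℕ → Finset ℕ) (hA : ∀ q ∈ P, A q ⊆ range q)
    (M Y : ℕ) (hM : Odd M)
    (h : (∑ T ∈ P.powerset.filter (fun T => T.card ≤ M), ∏ q ∈ T, ((A q).card : ℝ)) +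
      Y * (∑ T ∈ P.powersetCard (M+1), ∏ q ∈ T, ((A q).card : ℝ) / q) <
        Y * ∏ q ∈ P, (1 - ((A q).card : ℝ) / q)) :
    ∃ k : ℕ, 1 ≤ k ∧ k ≤ Y ∧ ∀ q ∈ P, k % q ∉ A q := by
  classical
  by_contra hcon
  push Not at hcon
  set W := P.powerset.filter (fun T => T.card ≤ M) with hW
  set B : ℕ → Finset ℕ := fun k => P.filter (fun q => k % q ∈ A q) with hBdef
  have hBne : ∀ k ∈ Icc 1 Y, (B k).Nonempty := by
    intro k hk
    rw [mem_Icc] at hk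
    obtain ⟨q, hq, hq2⟩ := hcon k hk.1 hk.2
    exact ⟨q, mem_filter.2 ⟨hq, hq2⟩⟩
  have hsub : ∀ T ∈ W, T ⊆ P := fun T hT => mem_powerset.1 (mem_filter.1 hT).1
  have h1 : ∑ k ∈ Icc 1 Y, ∑ T ∈ (B k).powerset.filter (fun T => T.card ≤ M), (-1 : ℝ) ^ T.card ≤ 0 :=
    Finset.sum_nonpos (fun k hk => alt_nonpos _ (hBne k hk) M hM)
  have h2 : ∑ k ∈ Icc 1 Y, ∑ T ∈ (B k).powerset.filter (fun T => T.card ≤ M), (-1 : ℝ) ^ T.card =
      ∑ T ∈ W, (-1 : ℝ) ^ T.card * (((Icc 1 Y).filter (fun k => ∀ q ∈ T, k % q ∈ A q)).card : ℝ) := by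
    have e1 : ∀ k, ∑ T ∈ (B k).powerset.filter (fun T => T.card ≤ M), (-1 : ℝ) ^ T.card =
        ∑ T ∈ W, if (∀ q ∈ T, k % q ∈ A q) then (-1 : ℝ) ^ T.card else 0 := by
      intro k
      rw [← Finset.sum_filter]
      congr 1
      ext T
      simp only [hW, hBdef, mem_filter, mem_powerset]
      constructor
      · rintro ⟨h1, h2⟩
        exact ⟨⟨fun q hq => (mem_filter.1 (h1 hq)).1, h2⟩, fun q hq => (mem_filter.1 (h1 hq)).2⟩
      · rintro ⟨⟨h1, h2⟩, h3⟩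
        exact ⟨fun q hq => mem_filter.2 ⟨h1 hq, h3 q hq⟩, h2⟩
    rw [Finset.sum_congr rfl (fun k _ => e1 k), Finset.sum_comm]
    refine Finset.sum_congr rfl (fun T _ => ?_)
    rw [← Finset.sum_filter, Finset.sum_const, nsmul_eq_mul, mul_comm]
  have h3 : ∑ T ∈ W, ((-1 : ℝ) ^ T.card * (Y * ∏ q ∈ T, ((A q).card : ℝ) / q) -
      ∏ q ∈ T, ((A q).card : ℝ)) ≤
      ∑ T ∈ W, (-1 : ℝ) ^ T.card * (((Icc 1 Y).filter (fun k => ∀ q ∈ T, k % q ∈ A q)).card : ℝ) := by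
    refine Finset.sum_le_sum (fun T hT => ?_)
    have hc := abs_le.1 (hcount T (fun q hq => hP q (hsub T hT hq)) A
      (fun q hq => hA q (hsub T hT hq)) Y)
    rcases neg_one_pow_eq_or ℝ T.card with h4 | h4
    · rw [h4]; linarith [hc.1]
    · rw [h4]; linarith [hc.2]
  rw [Finset.sum_sub_distrib] at h3
  have h5 : ∑ T ∈ W, (-1 : ℝ) ^ T.card * (Y * ∏ q ∈ T, ((A q).card : ℝ) / q) =
      Y * ∑ T ∈ W, (-1 : ℝ) ^ T.card * ∏ q ∈ T, ((A q).card : ℝ) / q := by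
    rw [Finset.mul_sum]
    refine Finset.sum_congr rfl (fun T _ => by ring)
  have h6 := hbonf P (fun q => ((A q).card : ℝ) / q) (fun q hq => by
    have hq0 : (0 : ℝ) < q := by exact_mod_cast (hP q hq).pos
    refine ⟨by positivity, ?_⟩
    rw [div_le_one hq0]
    have := card_le_card (hA q hq)
    rw [card_range] at this
    exact_mod_cast this) M hM
  have h7 := mul_le_mul_of_nonneg_left h6 (Nat.cast_nonneg (α := ℝ) Y)
  rw [mul_sub] at h7
  rw [h2] at h1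
  rw [h5] at h3
  linarith

end Pool.Agent.Helpers29.Erd
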