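import Pool.Agent.Helpers29.ErdA
import Pool.Agent.Helpers29.ErdB
import Pool.Agent.Helpers29.ErdC

set_option autoImplicit false

namespace Pool.Agent.Helpers29.Erd

open Finset

theorem brun (P : Finset ℕ) (hP : ∀ q ∈ P, q.Prime) (A : ℕ → Finset ℕ)
    (hA : ∀ q ∈ P, A q ⊆ range q) (M Y : ℕ) (hM : Odd M)
    (h : (∑ T ∈ P.powerset.filter (fun T => T.card ≤ M), ∏ q ∈ T, ((A q).card : ℝ)) +
      Y * (∑ T ∈ P.powersetCard (M+1), ∏ q ∈ T, ((A q).card : ℝ) / q) <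
        Y * ∏ q ∈ P, (1 - ((A q).card : ℝ) / q)) :
    ∃ k : ℕ, 1 ≤ k ∧ k ≤ Y ∧ ∀ q ∈ P, k % q ∉ A q :=
  brun_aux count_T bonf_prod P hP A hA M Y hM h

end Pool.Agent.Helpers29.Erd
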