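import Mathlib

set_option autoImplicit false

namespace Pool.Agent.Helpers29.Erd

/-- prime factors of `2^n - 1` -/
def PP (n : ℕ) : Finset ℕ := (2 ^ n - 1).primeFactors

/-- residues modulo `q` that are `n`-th roots of unity -/
def AA (n q : ℕ) : Finset ℕ := (Finset.range q).filter (fun x => x ^ n % q = 1)

end Pool.Agent.Helpers29.Erd
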