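import Mathlib
import Pool.Agent.Helpers29.ErdDefs

set_option autoImplicit false

namespace Pool.Agent.Helpers29.Erd

open Finset

theorem card_AA {n q : ℕ} (hn : 2 ≤ n) (hq : q ∈ PP n) : (AA n q).card = Nat.gcd n (q - 1) := by
  have hqp : q.Prime := Nat.prime_of_mem_primeFactors hq
  haveI : Fact q.Prime := ⟨hqp⟩
  have h1 := IsCyclic.card_powMonoidHom_ker (G := (ZMod q)ˣ) n
  have h2 : Nat.card (ZMod q)ˣ = q - 1 := by
    rw [Nat.card_eq_fintype_card, ZMod.card_units]
  rw [h2, Nat.gcd_comm] at h1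
  rw [← h1]
  have hn0 : n ≠ 0 := by omega
  have h4 : Nat.card (powMonoidHom n : (ZMod q)ˣ →* (ZMod q)ˣ).ker
      = (Finset.univ.filter (fun u : (ZMod q)ˣ => u ^ n = 1)).card := by
    have h6 : Nat.card {u : (ZMod q)ˣ // u ^ n = 1}
        = (Finset.univ.filter (fun u : (ZMod q)ˣ => u ^ n = 1)).card := by
      rw [Nat.card_eq_fintype_card, Fintype.card_subtype]
    rw [← h6]
    exact Nat.card_congr (Equiv.subtypeEquivRight (fun u => by
      rw [MonoidHom.mem_ker, powMonoidHom_apply]))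
  rw [h4]
  symm
  refine Finset.card_bij (fun u _ => ((u : (ZMod q)ˣ) : ZMod q).val) ?_ ?_ ?_
  · intro u hu
    rw [Finset.mem_filter] at hu
    rw [AA, Finset.mem_filter, Finset.mem_range]
    refine ⟨ZMod.val_lt _, ?_⟩
    have h5 : ((((u : ZMod q).val ^ n : ℕ)) : ZMod q) = ((1 : ℕ) : ZMod q) := by
      push_cast
      rw [ZMod.natCast_zmod_val, ← Units.val_pow_eq_pow_val, hu.2]
      simp
    rw [ZMod.natCast_eq_natCast_iff] at h5
    rw [h5, Nat.mod_eq_of_lt hqp.one_lt]
  · intro u hu v hv huv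
    exact Units.ext (ZMod.val_injective q huv)
  · intro x hx
    rw [AA, Finset.mem_filter, Finset.mem_range] at hx
    have h5 : ((x : ZMod q)) ^ n = 1 := by
      have : (((x ^ n : ℕ)) : ZMod q) = ((1 : ℕ) : ZMod q) := by
        rw [ZMod.natCast_eq_natCast_iff]
        rw [Nat.ModEq, hx.2, Nat.mod_eq_of_lt hqp.one_lt]
      push_cast at this
      exact this
    refine ⟨Units.ofPowEqOne (x : ZMod q) n h5 hn0, ?_, ?_⟩
    · rw [Finset.mem_filter]
      refine ⟨Finset.mem_univ _, ?_⟩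
      apply Units.ext
      simp [h5]
    · simp [ZMod.val_natCast, Nat.mod_eq_of_lt hx.1]

theorem card_PP (n : ℕ) : (PP n).card ≤ n := by
  have hpos : 2 ^ n - 1 ≠ 0 ∨ n = 0 := by
    rcases Nat.eq_zero_or_pos n with h | h
    · right; exact h
    · left
      have : 2 ^ 1 ≤ 2 ^ n := Nat.pow_le_pow_right (by norm_num) h
      omega
  rcases hpos with h | h
  · have h1 : 2 ^ (PP n).card ≤ ∏ p ∈ (2 ^ n - 1).primeFactors, p := by
      unfold PP
      rw [← Finset.prod_const]
      exact Finset.prod_le_prod' (fun p hp => (Nat.prime_of_mem_primeFactors hp).two_le)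
    have h2 : ∏ p ∈ (2 ^ n - 1).primeFactors, p ≤ 2 ^ n - 1 :=
      Nat.le_of_dvd (Nat.pos_of_ne_zero h) (Nat.prod_primeFactors_dvd _)
    have h3 : 2 ^ (PP n).card < 2 ^ n := by omega
    exact ((Nat.pow_lt_pow_iff_right (by norm_num)).1 h3).le
  · subst h
    simp [PP]

end Pool.Agent.Helpers29.Erd
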