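import Pool.Agent.Helpers29.ErdDefs

set_option autoImplicit false

namespace Pool.Agent.Helpers29.Erd

open Finset

theorem coprime_of {n k : ℕ} (hn : 2 ≤ n) (hk : 1 ≤ k) (h : ∀ q ∈ PP n, k % q ∉ AA n q) :
    Nat.Coprime (k ^ n - 1) (2 ^ n - 1) := by
  have h2 : 4 ≤ 2 ^ n := by
    calc 4 = 2 ^ 2 := by norm_num
      _ ≤ 2 ^ n := Nat.pow_le_pow_right (by norm_num) hn
  rw [Nat.coprime_iff_gcd_eq_one]
  by_contra hne
  obtain ⟨q, hq, hqd⟩ := Nat.exists_prime_and_dvd hne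
  have hq1 : q ∣ k ^ n - 1 := hqd.trans (Nat.gcd_dvd_left _ _)
  have hq2 : q ∣ 2 ^ n - 1 := hqd.trans (Nat.gcd_dvd_right _ _)
  have hmem : q ∈ PP n := by
    unfold PP
    rw [Nat.mem_primeFactors]
    exact ⟨hq, hq2, by omega⟩
  apply h q hmem
  unfold AA
  rw [Finset.mem_filter, Finset.mem_range]
  refine ⟨Nat.mod_lt _ hq.pos, ?_⟩
  have hk1 : 1 ≤ k ^ n := Nat.one_le_pow _ _ hk
  have h3 : 1 ≡ k ^ n [MOD q] := (Nat.modEq_iff_dvd' hk1).2 hq1
  have h4 : k ^ n % q = 1 := by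
    have := h3.symm
    unfold Nat.ModEq at this
    rw [this]
    exact Nat.mod_eq_of_lt hq.one_lt
  rw [← Nat.pow_mod]
  exact h4

/-- numerical choice of the parameters -/
theorem numeric (L V S e low N : ℝ) (hL : 1 ≤ L) (hN : 1 ≤ N) (M : ℕ)
    (hM1 : 8 * L + 2 ≤ (M : ℝ) + 1) (hV : Real.exp (-(4 * L)) ≤ V) (hS0 : 0 ≤ S) (hS : S ≤ L)
    (he : e ≤ S ^ (M + 1) / (M + 1).factorial) (hlow : low ≤ N ^ M) (Y : ℝ)
    (hY : 2 * Real.exp (4 * L) * N ^ M + 1 ≤ Y) : low + Y * e < Y * V := by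
  have hfac : (0 : ℝ) < (M + 1).factorial := by exact_mod_cast Nat.factorial_pos _
  have h8 : Real.exp 2 ≤ 8 := by
    have := Real.exp_one_lt_d9
    have h2 : Real.exp 2 = Real.exp 1 * Real.exp 1 := by rw [← Real.exp_add]; norm_num
    rw [h2]
    nlinarith [Real.exp_pos 1]
  have h1 : (8 * L) ^ (M + 1) / (M + 1).factorial ≤ Real.exp (8 * L) :=
    Real.pow_div_factorial_le_exp (8 * L) (by linarith) (M + 1)
  have he1 : e ≤ L ^ (M + 1) / (M + 1).factorial :=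
    he.trans (by gcongr)
  have he2 : e * 8 ^ (M + 1) ≤ Real.exp (8 * L) := by
    calc e * 8 ^ (M + 1) ≤ L ^ (M + 1) / (M + 1).factorial * 8 ^ (M + 1) := by gcongr
      _ = (8 * L) ^ (M + 1) / (M + 1).factorial := by rw [mul_pow]; ring
      _ ≤ _ := h1
  have h3 : Real.exp (2 * ((M : ℝ) + 1)) ≤ 8 ^ (M + 1) := by
    have : Real.exp (2 * ((M : ℝ) + 1)) = (Real.exp 2) ^ (M + 1) := by
      rw [← Real.exp_nat_mul]; push_cast; ring_nf
    rw [this]
    gcongr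
  have he3 : e ≤ Real.exp (8 * L - 2 * ((M : ℝ) + 1)) := by
    rw [Real.exp_sub, le_div_iff₀ (Real.exp_pos _)]
    rcases le_or_gt e 0 with h0 | h0
    · have : e * Real.exp (2 * ((M : ℝ) + 1)) ≤ 0 :=
        mul_nonpos_of_nonpos_of_nonneg h0 (Real.exp_pos _).le
      exact this.trans (Real.exp_pos _).le
    · exact (mul_le_mul_of_nonneg_left h3 h0.le).trans he2
  have he4 : e ≤ Real.exp (-(4 * L)) * Real.exp (-2) := by
    rw [← Real.exp_add]
    refine he3.trans (Real.exp_le_exp.2 ?_)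
    linarith
  have h5 : Real.exp (-2) ≤ 1 / 2 := by
    rw [Real.exp_neg, ← one_div]
    apply one_div_le_one_div_of_le (by norm_num)
    have := Real.add_one_le_exp (2 : ℝ)
    linarith
  have hx : 0 < Real.exp (-(4 * L)) := Real.exp_pos _
  have he5 : e ≤ Real.exp (-(4 * L)) / 2 := by nlinarith
  have hN' : 0 < N ^ M := by positivity
  have hYpos : 0 < Y := by
    have : 0 < 2 * Real.exp (4 * L) * N ^ M := by positivity
    linarith
  have h6 : Real.exp (-(4 * L)) * Real.exp (4 * L) = 1 := by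
    rw [← Real.exp_add]; simp
  have h7 : N ^ M < Y * (Real.exp (-(4 * L)) / 2) := by
    have : (2 * Real.exp (4 * L) * N ^ M + 1) * (Real.exp (-(4 * L)) / 2) ≤
        Y * (Real.exp (-(4 * L)) / 2) := by gcongr
    have h8 : (2 * Real.exp (4 * L) * N ^ M + 1) * (Real.exp (-(4 * L)) / 2) =
        (Real.exp (-(4 * L)) * Real.exp (4 * L)) * N ^ M + Real.exp (-(4 * L)) / 2 := by ring
    rw [h8, h6] at this
    linarith
  have h9 : Y * e ≤ Y * (Real.exp (-(4 * L)) / 2) := by gcongr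
  have h10 : Y * Real.exp (-(4 * L)) ≤ Y * V := by gcongr
  have h11 : Y * Real.exp (-(4 * L)) = Y * (Real.exp (-(4 * L)) / 2) +
    Y * (Real.exp (-(4 * L)) / 2) := by ring
  linarith

theorem size_bound (n τ : ℕ) (hn : 2 ≤ n) (hτ : 1 ≤ τ) (M : ℕ)
    (hM2 : (M : ℝ) ≤ 8 * (τ * (1 + Real.log n)) + 3) :
    2 * Real.exp (4 * (τ * (1 + Real.log n))) * (1 + (n : ℝ) ^ 2) ^ M + 3 ≤
      Real.exp (100 * (τ : ℝ) * (1 + Real.log n) ^ 2) := by
  set l : ℝ := 1 + Real.log n with hl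
  have hn1 : (1 : ℝ) ≤ n := by exact_mod_cast (by omega : 1 ≤ n)
  have hn0 : (0 : ℝ) < n := by linarith
  have hl1 : 1 ≤ l := by
    have := Real.log_nonneg hn1
    rw [hl]; linarith
  have hτ1 : (1 : ℝ) ≤ τ := by exact_mod_cast hτ
  set L : ℝ := τ * l with hL
  have hL1 : 1 ≤ L := by rw [hL]; nlinarith
  have h1 : 1 + (n : ℝ) ^ 2 ≤ Real.exp (2 * l) := by
    have e1 : Real.exp (2 * l) = Real.exp 2 * (n : ℝ) ^ 2 := by
      rw [hl, mul_add, Real.exp_add, mul_one]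
      congr 1
      rw [show 2 * Real.log n = Real.log n + Real.log n by ring, Real.exp_add,
        Real.exp_log hn0]
      ring
    rw [e1]
    have := Real.add_one_le_exp (2 : ℝ)
    nlinarith
  have h2 : (1 + (n : ℝ) ^ 2) ^ M ≤ Real.exp (22 * (L * l)) := by
    calc (1 + (n : ℝ) ^ 2) ^ M ≤ (Real.exp (2 * l)) ^ M := by gcongr
      _ = Real.exp (M * (2 * l)) := by rw [← Real.exp_nat_mul]
      _ ≤ _ := by
        apply Real.exp_le_exp.2
        have : (M : ℝ) ≤ 11 * L := by linarith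
        nlinarith
  have hLl : L ≤ L * l := by nlinarith
  have h3 : 2 * Real.exp (4 * L) * (1 + (n : ℝ) ^ 2) ^ M ≤ 2 * Real.exp (26 * (L * l)) := by
    have : Real.exp (26 * (L * l)) = Real.exp (4 * (L * l)) * Real.exp (22 * (L * l)) := by
      rw [← Real.exp_add]; ring_nf
    rw [this]
    have h4 : Real.exp (4 * L) ≤ Real.exp (4 * (L * l)) := Real.exp_le_exp.2 (by linarith)
    calc 2 * Real.exp (4 * L) * (1 + (n : ℝ) ^ 2) ^ M
        ≤ 2 * Real.exp (4 * (L * l)) * Real.exp (22 * (L * l)) := by gcongr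
      _ = _ := by ring
  have h5 : (100 : ℝ) * (τ : ℝ) * l ^ 2 = 26 * (L * l) + 74 * (L * l) := by rw [hL]; ring
  rw [h5, Real.exp_add]
  have h6 : (74 : ℝ) * 1 + 1 ≤ Real.exp (74 * (L * l)) := by
    have := Real.add_one_le_exp (74 * (L * l))
    nlinarith
  have h7 : 1 ≤ Real.exp (26 * (L * l)) := Real.one_le_exp (by positivity)
  nlinarith [h3, h6, h7, Real.exp_pos (26 * (L * l))]

end Pool.Agent.Helpers29.Erd
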