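import Pool.Agent.Helpers29.ErdDefs

set_option autoImplicit false

namespace Pool.Agent.Helpers29.Erd

open Finset

theorem sum_inv_le (m : ℕ) : ∀ S : Finset ℕ, S.card = m → (∀ j ∈ S, 1 ≤ j) →
    ∑ j ∈ S, (1 : ℝ) / j ≤ ∑ i ∈ Finset.range m, (1 : ℝ) / (i + 1) := by
  induction m with
  | zero =>
    intro S hS _
    rw [Finset.card_eq_zero] at hS
    simp [hS]
  | succ m ih =>
    intro S hS h1
    have hne : S.Nonempty := by rw [← Finset.card_pos]; omega
    have hM := S.max'_mem hne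
    have hcard : S.card ≤ S.max' hne := by
      have : S ⊆ Finset.Icc 1 (S.max' hne) := by
        intro j hj
        rw [Finset.mem_Icc]
        exact ⟨h1 j hj, S.le_max' j hj⟩
      have h2 := Finset.card_le_card this
      rw [Nat.card_Icc] at h2
      omega
    rw [← Finset.sum_erase_add S _ hM, Finset.sum_range_succ]
    have h3 := ih (S.erase (S.max' hne)) (by rw [Finset.card_erase_of_mem hM]; omega)
      (fun j hj => h1 j (Finset.mem_of_mem_erase hj))
    have h4 : (1 : ℝ) / (S.max' hne : ℕ) ≤ 1 / ((m : ℝ) + 1) := by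
      apply one_div_le_one_div_of_le (by positivity)
      have : m + 1 ≤ S.max' hne := by omega
      exact_mod_cast this
    linarith

theorem sum_inv_log (n : ℕ) (hn : 1 ≤ n) (S : Finset ℕ) (hS : S.card ≤ n) (h1 : ∀ j ∈ S, 1 ≤ j) :
    ∑ j ∈ S, (1 : ℝ) / j ≤ 1 + Real.log n := by
  have h2 := sum_inv_le S.card S rfl h1
  have h3 : ∑ i ∈ Finset.range S.card, (1 : ℝ) / (i + 1) ≤ ∑ i ∈ Finset.range n, (1 : ℝ) / (i + 1) := by
    apply Finset.sum_le_sum_of_subset_of_nonneg (Finset.range_mono hS)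
    intro i _ _
    positivity
  have h4 := harmonic_le_one_add_log n
  have h5 : ((harmonic n : ℚ) : ℝ) = ∑ i ∈ Finset.range n, (1 : ℝ) / (i + 1) := by
    rw [harmonic]
    push_cast
    apply Finset.sum_congr rfl
    intro i _
    rw [one_div]
  rw [h5] at h4
  linarith

theorem sum_x (hD : ∀ n q, 2 ≤ n → q ∈ PP n → (AA n q).card = Nat.gcd n (q - 1))
    (hc : ∀ n, (PP n).card ≤ n) (n : ℕ) (hn : 2 ≤ n) :
    ∑ q ∈ PP n, ((AA n q).card : ℝ) / q ≤ n.divisors.card * (1 + Real.log n) := by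
  classical
  have hmaps : ∀ q ∈ PP n, Nat.gcd n (q - 1) ∈ n.divisors := by
    intro q _
    rw [Nat.mem_divisors]
    exact ⟨Nat.gcd_dvd_left _ _, by omega⟩
  rw [← Finset.sum_fiberwise_of_maps_to hmaps]
  have hfib : ∀ g ∈ n.divisors, ∑ q ∈ (PP n).filter (fun q => Nat.gcd n (q - 1) = g), ((AA n q).card : ℝ) / q ≤
      1 + Real.log n := by
    intro g hg
    have hg0 : 0 < g := Nat.pos_of_mem_divisors hg
    have hq : ∀ q ∈ (PP n).filter (fun q => Nat.gcd n (q - 1) = g), g ∣ q - 1 ∧ 2 ≤ q ∧ Nat.gcd n (q - 1) = g ∧ q ∈ PP n := by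
      intro q hq
      rw [Finset.mem_filter] at hq
      refine ⟨?_, (Nat.prime_of_mem_primeFactors hq.1).two_le, hq.2, hq.1⟩
      rw [← hq.2]
      exact Nat.gcd_dvd_right _ _
    have hinj : Set.InjOn (fun q => (q - 1) / g) ((PP n).filter (fun q => Nat.gcd n (q - 1) = g) : Set ℕ) := by
      intro q1 h1 q2 h2 h12
      obtain ⟨d1, t1, _⟩ := hq q1 h1
      obtain ⟨d2, t2, _⟩ := hq q2 h2
      simp only at h12
      have e1 := Nat.div_mul_cancel d1
      have e2 := Nat.div_mul_cancel d2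
      rw [h12] at e1
      omega
    have h1 : ∑ q ∈ (PP n).filter (fun q => Nat.gcd n (q - 1) = g), ((AA n q).card : ℝ) / q ≤
        ∑ q ∈ (PP n).filter (fun q => Nat.gcd n (q - 1) = g), (1 : ℝ) / ((q - 1) / g : ℕ) := by
      apply Finset.sum_le_sum
      intro q hqm
      obtain ⟨d1, t1, e1, m1⟩ := hq q hqm
      rw [hD n q hn m1, e1]
      obtain ⟨j, hj⟩ := d1
      have hj0 : 0 < j := by
        rcases Nat.eq_zero_or_pos j with h0 | h0
        · rw [h0, mul_zero] at hj; omega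
        · exact h0
      rw [hj, Nat.mul_div_cancel_left _ hg0]
      have hqe : (q : ℝ) = g * j + 1 := by
        have : q = g * j + 1 := by omega
        rw [this]; push_cast; ring
      have hgR : (0 : ℝ) < g := by exact_mod_cast hg0
      have hjR : (0 : ℝ) < j := by exact_mod_cast hj0
      rw [hqe, div_le_div_iff₀ (by positivity) hjR]
      nlinarith
    refine h1.trans ?_
    rw [← Finset.sum_image (f := fun j : ℕ => (1 : ℝ) / j) (g := fun q => (q - 1) / g) hinj]
    apply sum_inv_log n (by omega)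
    · refine Finset.card_image_le.trans ?_
      exact (Finset.card_filter_le _ _).trans (hc n)
    · intro j hj
      obtain ⟨q, hqm, rfl⟩ := Finset.mem_image.1 hj
      obtain ⟨d1, t1, _⟩ := hq q hqm
      apply Nat.div_pos _ hg0
      exact Nat.le_of_dvd (by omega) d1
  calc ∑ g ∈ n.divisors, ∑ q ∈ (PP n).filter (fun q => Nat.gcd n (q - 1) = g), ((AA n q).card : ℝ) / q
      ≤ ∑ _g ∈ n.divisors, (1 + Real.log n) := Finset.sum_le_sum hfib
    _ = n.divisors.card * (1 + Real.log n) := by rw [Finset.sum_const, nsmul_eq_mul]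

theorem sum_card (hD : ∀ n q, 2 ≤ n → q ∈ PP n → (AA n q).card = Nat.gcd n (q - 1))
    (hc : ∀ n, (PP n).card ≤ n) (n : ℕ) (hn : 2 ≤ n) :
    ∑ q ∈ PP n, (AA n q).card ≤ n ^ 2 := by
  have h1 : ∑ q ∈ PP n, (AA n q).card ≤ ∑ _q ∈ PP n, n := by
    apply Finset.sum_le_sum
    intro q hq
    rw [hD n q hn hq]
    exact Nat.gcd_le_left _ (by omega)
  refine h1.trans ?_
  rw [Finset.sum_const, smul_eq_mul, pow_two]
  exact Nat.mul_le_mul_right _ (hc n)

end Pool.Agent.Helpers29.Erd
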