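import Pool.Agent.Helpers29.ErdDefs

set_option autoImplicit false

namespace Pool.Agent.Helpers29.Erd

lemma exp_neg_two_le {x : ℝ} (h0 : 0 ≤ x) (h1 : x ≤ 1 / 2) : Real.exp (-(2 * x)) ≤ 1 - x := by
  rw [Real.exp_neg]
  have h2 : 1 + 2 * x ≤ Real.exp (2 * x) := by
    have := Real.add_one_le_exp (2 * x)
    linarith
  have h3 : (Real.exp (2 * x))⁻¹ ≤ (1 + 2 * x)⁻¹ := inv_anti₀ (by linarith) h2
  refine h3.trans ?_
  rw [inv_le_iff_one_le_mul₀ (by linarith)]
  nlinarith

theorem prod_x
    (hD : ∀ n q : ℕ, 2 ≤ n → q ∈ PP n → (AA n q).card = Nat.gcd n (q - 1))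
    (hF : ∀ n : ℕ, 2 ≤ n → ∑ q ∈ PP n, ((AA n q).card : ℝ) / q ≤ n.divisors.card * (1 + Real.log n))
    (n : ℕ) (hn : 2 ≤ n) :
    Real.exp (-(4 * n.divisors.card * (1 + Real.log n))) ≤
      ∏ q ∈ PP n, (1 - ((AA n q).card : ℝ) / q) := by
  classical
  set S1 := (PP n).filter (fun q => Nat.gcd n (q - 1) = q - 1) with hS1
  set S2 := (PP n).filter (fun q => ¬ Nat.gcd n (q - 1) = q - 1) with hS2
  set L := Real.log n with hL
  have hn0 : (0 : ℝ) < n := by positivity
  have hL0 : 0 ≤ L := Real.log_natCast_nonneg n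
  have hprime : ∀ q ∈ PP n, q.Prime := fun q hq => Nat.prime_of_mem_primeFactors hq
  have hlog : Real.log (n + 1) ≤ 1 + L := by
    have h1 : Real.log ((n : ℝ) + 1) ≤ Real.log (2 * n) := by
      apply Real.log_le_log (by positivity)
      have : (1 : ℝ) ≤ n := by exact_mod_cast (by omega : 1 ≤ n)
      linarith
    rw [Real.log_mul (by norm_num) hn0.ne'] at h1
    have h2 : Real.log 2 ≤ 1 := by
      have := Real.log_two_lt_d9
      linarith
    linarith
  have h1 : Real.exp (-(n.divisors.card * (1 + L))) ≤ ∏ q ∈ S1, (1 - ((AA n q).card : ℝ) / q) := by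
    have hcard : S1.card ≤ n.divisors.card := by
      apply Finset.card_le_card_of_injOn (fun q => q - 1)
      · intro q hq
        have hq' := Finset.mem_filter.1 (Finset.mem_coe.1 hq)
        simp only [Finset.mem_coe, Nat.mem_divisors]
        refine ⟨?_, by omega⟩
        rw [← hq'.2]
        exact Nat.gcd_dvd_left n (q - 1)
      · intro q hq r hr h
        have h1 := (hprime q (Finset.mem_filter.1 (Finset.mem_coe.1 hq)).1).two_le
        have h2 := (hprime r (Finset.mem_filter.1 (Finset.mem_coe.1 hr)).1).two_le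
        simp only at h
        omega
    have hterm : ∀ q ∈ S1, Real.exp (-(1 + L)) ≤ 1 - ((AA n q).card : ℝ) / q := by
      intro q hq
      have hq' := Finset.mem_filter.1 hq
      have hp := hprime q hq'.1
      have hq2 := hp.two_le
      rw [hD n q hn hq'.1, hq'.2, Nat.cast_sub (by omega : 1 ≤ q)]
      have hqpos : (0 : ℝ) < q := by positivity
      have h3 : 1 - ((q : ℝ) - (1 : ℕ)) / q = 1 / q := by
        field_simp
        push_cast
        ring
      rw [h3]
      have hdvd : q - 1 ∣ n := by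
        rw [← hq'.2]
        exact Nat.gcd_dvd_left n (q - 1)
      have hle : q ≤ n + 1 := by
        have := Nat.le_of_dvd (by omega) hdvd
        omega
      have hle' : (q : ℝ) ≤ n + 1 := by exact_mod_cast hle
      calc Real.exp (-(1 + L)) ≤ Real.exp (-Real.log (n + 1)) := by
            apply Real.exp_le_exp.2; linarith
        _ = 1 / (n + 1) := by
            rw [Real.exp_neg, Real.exp_log (by positivity), one_div]
        _ ≤ 1 / q := one_div_le_one_div_of_le hqpos hle'
    calc Real.exp (-(n.divisors.card * (1 + L))) ≤ Real.exp (-(S1.card * (1 + L))) := by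
          apply Real.exp_le_exp.2
          have : (S1.card : ℝ) ≤ n.divisors.card := by exact_mod_cast hcard
          nlinarith
      _ = ∏ q ∈ S1, Real.exp (-(1 + L)) := by
          rw [Finset.prod_const, ← Real.exp_nat_mul]
          congr 1
          ring
      _ ≤ _ := Finset.prod_le_prod (fun _ _ => (Real.exp_pos _).le) hterm
  have h2 : Real.exp (-(2 * (n.divisors.card * (1 + L)))) ≤ ∏ q ∈ S2, (1 - ((AA n q).card : ℝ) / q) := by
    have hterm : ∀ q ∈ S2, Real.exp (-(2 * (((AA n q).card : ℝ) / q))) ≤ 1 - ((AA n q).card : ℝ) / q := by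
      intro q hq
      have hq' := Finset.mem_filter.1 hq
      have hp := hprime q hq'.1
      have hq2 := hp.two_le
      have hqpos : (0 : ℝ) < q := by positivity
      apply exp_neg_two_le (by positivity)
      rw [hD n q hn hq'.1, div_le_iff₀ hqpos]
      obtain ⟨j, hj⟩ := Nat.gcd_dvd_right n (q - 1)
      have hj2 : 2 ≤ j := by
        rcases j with _ | _ | j
        · omega
        · exfalso; apply hq'.2; omega
        · omega
      have h4 : 2 * Nat.gcd n (q - 1) ≤ q := by
        have : Nat.gcd n (q - 1) * 2 ≤ Nat.gcd n (q - 1) * j := Nat.mul_le_mul_left _ hj2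
        omega
      have h5 : (2 : ℝ) * (Nat.gcd n (q - 1) : ℝ) ≤ q := by exact_mod_cast h4
      linarith
    have hsum : ∑ q ∈ S2, ((AA n q).card : ℝ) / q ≤ n.divisors.card * (1 + L) :=
      (Finset.sum_le_sum_of_subset_of_nonneg (Finset.filter_subset _ _)
        (fun _ _ _ => by positivity)).trans (hF n hn)
    calc Real.exp (-(2 * (n.divisors.card * (1 + L))))
        ≤ Real.exp (∑ q ∈ S2, -(2 * (((AA n q).card : ℝ) / q))) := by
          apply Real.exp_le_exp.2
          rw [Finset.sum_neg_distrib, ← Finset.mul_sum]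
          linarith
      _ = ∏ q ∈ S2, Real.exp (-(2 * (((AA n q).card : ℝ) / q))) := Real.exp_sum _ _
      _ ≤ _ := Finset.prod_le_prod (fun _ _ => (Real.exp_pos _).le) hterm
  have h3 : ∏ q ∈ PP n, (1 - ((AA n q).card : ℝ) / q) =
      (∏ q ∈ S1, (1 - ((AA n q).card : ℝ) / q)) * ∏ q ∈ S2, (1 - ((AA n q).card : ℝ) / q) :=
    (Finset.prod_filter_mul_prod_filter_not _ _ _).symm
  rw [h3]
  calc Real.exp (-(4 * n.divisors.card * (1 + L)))
      ≤ Real.exp (-(n.divisors.card * (1 + L))) * Real.exp (-(2 * (n.divisors.card * (1 + L)))) := by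
        rw [← Real.exp_add]
        apply Real.exp_le_exp.2
        have : 0 ≤ (n.divisors.card : ℝ) * (1 + L) := by positivity
        linarith
    _ ≤ _ := mul_le_mul h1 h2 (Real.exp_pos _).le ((Real.exp_pos _).le.trans h1)

end Pool.Agent.Helpers29.Erd
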