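import Mathlib

set_option autoImplicit false

namespace Pool.Agent.Helpers29.Erd

open Filter Topology

theorem tau_le (n : ℕ) (hn : n ≠ 0) (y : ℝ) (hy : 1 < y) (L : ℝ) (hL1 : 1 ≤ L)
    (hL : 1 + Real.log n / Real.log 2 ≤ L) :
    (n.divisors.card : ℝ) ≤ L ^ (⌈y⌉₊) * (n:ℝ) ^ (Real.log 2 / Real.log y) := by
  have hly : 0 < Real.log y := Real.log_pos hy
  have hl2 : 0 < Real.log 2 := Real.log_pos (by norm_num)
  set θ := Real.log 2 / Real.log y with hθ
  have hθ0 : 0 < θ := by positivity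
  rw [Nat.card_divisors hn]
  push_cast
  have hterm : ∀ p ∈ n.primeFactors, ((n.factorization p : ℝ) + 1) ≤
      (if (p:ℝ) < y then L else 1) * (((p:ℝ) ^ n.factorization p) ^ θ) := by
    intro p hp
    have hpp := Nat.prime_of_mem_primeFactors hp
    have hp2 : (2:ℝ) ≤ p := by exact_mod_cast hpp.two_le
    have hp0 : (0:ℝ) < p := by linarith
    set a := n.factorization p with ha
    have hpa : (p:ℝ) ^ a ≤ n := by
      have : p ^ a ≤ n := Nat.ordProj_le p hn
      exact_mod_cast this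
    have hpa1 : (1:ℝ) ≤ (p:ℝ) ^ a := one_le_pow₀ (by linarith)
    have h1 : (1:ℝ) ≤ ((p:ℝ) ^ a) ^ θ := Real.one_le_rpow hpa1 hθ0.le
    split_ifs with h
    · have h2 : (a:ℝ) * Real.log 2 ≤ Real.log n := by
        have h3 : Real.log ((2:ℝ) ^ a) ≤ Real.log n := by
          refine Real.log_le_log (by positivity) (le_trans ?_ hpa)
          exact pow_le_pow_left₀ (by norm_num) hp2 a
        rwa [Real.log_pow] at h3
      have h4 : (a:ℝ) ≤ Real.log n / Real.log 2 := by rwa [le_div_iff₀ hl2]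
      have h5 : (a:ℝ) + 1 ≤ L := by linarith
      nlinarith
    · rw [one_mul]
      have hyp : y ≤ p := not_lt.1 h
      have h2 : (a:ℝ) + 1 ≤ (2:ℝ) ^ a := by
        have : a + 1 ≤ 2 ^ a := Nat.lt_two_pow_self
        exact_mod_cast this
      refine h2.trans ?_
      rw [← Real.rpow_natCast, ← Real.rpow_natCast, ← Real.rpow_mul hp0.le,
        Real.rpow_def_of_pos (by norm_num : (0:ℝ) < 2), Real.rpow_def_of_pos hp0]
      refine Real.exp_le_exp.2 ?_
      have h6 : Real.log y ≤ Real.log p := Real.log_le_log (by linarith) hyp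
      have h7 : Real.log 2 ≤ Real.log p * θ := by
        rw [hθ, ← mul_div_assoc, le_div_iff₀ hly]
        nlinarith
      have h8 : (0:ℝ) ≤ a := Nat.cast_nonneg a
      nlinarith
  refine (Finset.prod_le_prod (fun p _ => by positivity) hterm).trans ?_
  rw [Finset.prod_mul_distrib]
  have h1 : ∏ p ∈ n.primeFactors, (if (p:ℝ) < y then L else 1) ≤ L ^ (⌈y⌉₊) := by
    rw [← Finset.prod_filter, Finset.prod_const]
    refine pow_le_pow_right₀ hL1 ?_
    have hsub : (n.primeFactors.filter (fun p : ℕ => (p:ℝ) < y)) ⊆ Finset.range ⌈y⌉₊ := by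
      intro p hp
      rw [Finset.mem_filter] at hp
      rw [Finset.mem_range]
      exact Nat.lt_ceil.2 hp.2
    simpa using Finset.card_le_card hsub
  have h2 : ∏ p ∈ n.primeFactors, (((p:ℝ) ^ n.factorization p) ^ θ) = (n:ℝ) ^ θ := by
    rw [Real.finsetProd_rpow _ _ (fun p _ => by positivity)]
    congr 1
    have h3 := Nat.prod_factorization_pow_eq_self hn
    unfold Finsupp.prod at h3
    rw [Nat.support_factorization] at h3
    exact_mod_cast h3
  rw [h2]
  exact mul_le_mul_of_nonneg_right h1 (by positivity)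

theorem num_u (u : ℝ) (hu : 3 ≤ u) (hl : Real.log u ^ 2 ≤ 3 / 10 * u) :
    Real.log 100 + 2 * Real.log (1 + u ^ 2) + (u + 1) * Real.log (1 + 2 * u ^ 2)
      + Real.log 2 * u ^ 2 / Real.log u < 5 * u ^ 2 / Real.log u := by
  have h1 : 1 ≤ Real.log u := by
    rw [Real.le_log_iff_exp_le (by linarith)]
    have := Real.exp_one_lt_d9
    linarith
  have h3 : Real.log (1 + 2 * u ^ 2) ≤ 4 * Real.log u := by
    have : Real.log (1 + 2 * u ^ 2) ≤ Real.log (u ^ 4) := by
      refine Real.log_le_log (by positivity) ?_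
      nlinarith [sq_nonneg (u ^ 2 - 9), sq_nonneg u]
    rwa [Real.log_pow] at this
  have h4 : Real.log (1 + u ^ 2) ≤ 3 * Real.log u := by
    have : Real.log (1 + u ^ 2) ≤ Real.log (u ^ 3) := by
      refine Real.log_le_log (by positivity) ?_
      nlinarith [sq_nonneg u]
    rwa [Real.log_pow] at this
  have h5 : Real.log 100 ≤ 5 * Real.log u := by
    have : Real.log 100 ≤ Real.log (u ^ 5) := by
      refine Real.log_le_log (by norm_num) ?_
      have : (3:ℝ) ^ 5 ≤ u ^ 5 := pow_le_pow_left₀ (by norm_num) hu 5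
      linarith
    rwa [Real.log_pow] at this
  have hl2 : Real.log 2 < 1 := by
    have := Real.log_two_lt_d9
    linarith
  have hl0 : 0 < Real.log u := by linarith
  have h6 : (u + 1) * Real.log (1 + 2 * u ^ 2) ≤ (u + 1) * (4 * Real.log u) :=
    mul_le_mul_of_nonneg_left h3 (by linarith)
  have h7 : Real.log 100 + 2 * Real.log (1 + u ^ 2) + (u + 1) * Real.log (1 + 2 * u ^ 2)
      ≤ 10 * u * Real.log u := by
    nlinarith
  have h8 : 10 * u * Real.log u < 4 * u ^ 2 / Real.log u := by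
    rw [lt_div_iff₀ hl0]
    nlinarith
  have h9 : Real.log 2 * u ^ 2 / Real.log u + 4 * u ^ 2 / Real.log u ≤ 5 * u ^ 2 / Real.log u := by
    rw [← add_div]
    refine div_le_div_of_nonneg_right ?_ hl0.le
    nlinarith [sq_nonneg u]
  linarith

theorem tau_asymp : ∃ C : ℝ, 0 < C ∧ ∀ᶠ n : ℕ in Filter.atTop,
    100 * (n.divisors.card : ℝ) * (1 + Real.log n) ^ 2 <
      (n : ℝ) ^ (C / Real.log (Real.log n)) := by
  refine ⟨10, by norm_num, ?_⟩
  have hu : Tendsto (fun n : ℕ => Real.sqrt (Real.log n)) atTop atTop :=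
    (Real.tendsto_sqrt_atTop.comp Real.tendsto_log_atTop).comp tendsto_natCast_atTop_atTop
  have hlit : ∀ᶠ u : ℝ in atTop, Real.log u ^ 2 ≤ 3 / 10 * u := by
    have h := (Real.isLittleO_pow_log_id_atTop (n := 2)).bound (c := 3 / 10) (by norm_num)
    filter_upwards [h, eventually_ge_atTop (0:ℝ)] with u h1 h2
    rw [Real.norm_of_nonneg (by positivity)] at h1
    simpa [abs_of_nonneg h2] using h1
  filter_upwards [hu.eventually hlit, hu.eventually (eventually_ge_atTop 3),
    eventually_ge_atTop 1] with n h1 h2 h3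
  set u := Real.sqrt (Real.log n) with hudef
  have hn0 : n ≠ 0 := by omega
  have hn1 : (1:ℝ) ≤ n := by exact_mod_cast h3
  have hlog0 : 0 ≤ Real.log n := Real.log_nonneg hn1
  have hX : Real.log n = u ^ 2 := (Real.sq_sqrt hlog0).symm
  have hu0 : 0 < u := by linarith
  have hlu : 0 < Real.log u := Real.log_pos (by linarith)
  have hLL : Real.log (Real.log n) = 2 * Real.log u := by
    rw [hX, Real.log_pow]; norm_num
  have hl2 : 1 / 2 ≤ Real.log 2 := by
    have := Real.log_two_gt_d9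
    linarith
  have hL : 1 + Real.log n / Real.log 2 ≤ 1 + 2 * u ^ 2 := by
    rw [hX]
    have : u ^ 2 / Real.log 2 ≤ 2 * u ^ 2 := by
      rw [div_le_iff₀ (by linarith)]
      nlinarith [sq_nonneg u]
    linarith
  have ht := tau_le n hn0 u (by linarith) (1 + 2 * u ^ 2) (by nlinarith [sq_nonneg u]) hL
  have hτ0 : (0:ℝ) < n.divisors.card := by
    have : 0 < n.divisors.card := Finset.card_pos.2 ⟨1, by simp [hn0]⟩
    exact_mod_cast this
  have hnpos : (0:ℝ) < n := by linarith
  have hL0 : (0:ℝ) < 1 + 2 * u ^ 2 := by positivity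
  have hLone : 0 ≤ Real.log (1 + 2 * u ^ 2) := Real.log_nonneg (by nlinarith [sq_nonneg u])
  have hlogτ : Real.log n.divisors.card ≤ (u + 1) * Real.log (1 + 2 * u ^ 2)
      + Real.log 2 * u ^ 2 / Real.log u := by
    have h4 := Real.log_le_log hτ0 ht
    rw [Real.log_mul (by positivity) (by positivity), Real.log_pow, Real.log_rpow hnpos, hX] at h4
    have h5 : (⌈u⌉₊ : ℝ) ≤ u + 1 := (Nat.ceil_lt_add_one hu0.le).le
    have h6 : (⌈u⌉₊ : ℝ) * Real.log (1 + 2 * u ^ 2) ≤ (u + 1) * Real.log (1 + 2 * u ^ 2) :=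
      mul_le_mul_of_nonneg_right h5 hLone
    have h7 : Real.log 2 / Real.log u * u ^ 2 = Real.log 2 * u ^ 2 / Real.log u := by ring
    rw [h7] at h4
    linarith
  have hmain := num_u u h2 h1
  have h1l : 0 < 1 + Real.log n := by linarith
  have hA : (0:ℝ) < 100 * (n.divisors.card : ℝ) := mul_pos (by norm_num) hτ0
  have hB : (0:ℝ) < (1 + Real.log n) ^ 2 := pow_pos h1l 2
  have hAB : (0:ℝ) < 100 * (n.divisors.card : ℝ) * (1 + Real.log n) ^ 2 := mul_pos hA hB
  rw [← Real.exp_log hAB, Real.rpow_def_of_pos hnpos]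
  refine Real.exp_lt_exp.2 ?_
  rw [Real.log_mul hA.ne' hB.ne',
    Real.log_mul (by norm_num) hτ0.ne', Real.log_pow, hLL, hX]
  have h8 : u ^ 2 * (10 / (2 * Real.log u)) = 5 * u ^ 2 / Real.log u := by
    field_simp
    norm_num
  rw [h8]
  push_cast
  linarith

end Pool.Agent.Helpers29.Erd
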