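import Mathlib
import Pool.Agent.Helpers29.ErdDefs

set_option autoImplicit false

namespace Pool.Agent.Helpers29.Erd

open Finset

lemma I_bern {s x : ℝ} (hs : 0 ≤ s) (hx : 0 ≤ x) (k : ℕ) :
    s ^ (k + 1) + (k + 1) * s ^ k * x ≤ (s + x) ^ (k + 1) := by
  induction k with
  | zero => simp
  | succ k ih =>
    have h1 : 0 ≤ (k + 1) * s ^ k * x ^ 2 := by positivity
    calc s ^ (k + 1 + 1) + ((k + 1 : ℕ) + 1) * s ^ (k + 1) * x
        ≤ (s + x) * (s ^ (k + 1) + (k + 1) * s ^ k * x) := by push_cast; ring_nf; ring_nf at h1; nlinarith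
      _ ≤ (s + x) * (s + x) ^ (k + 1) := mul_le_mul_of_nonneg_left ih (by positivity)
      _ = (s + x) ^ (k + 1 + 1) := by ring

lemma I_insert (P : Finset ℕ) (a : ℕ) (ha : a ∉ P) (x : ℕ → ℝ) (k : ℕ) :
    ∑ T ∈ (insert a P).powersetCard (k + 1), ∏ q ∈ T, x q =
      ∑ T ∈ P.powersetCard (k + 1), ∏ q ∈ T, x q + x a * ∑ T ∈ P.powersetCard k, ∏ q ∈ T, x q := by
  have hmem : ∀ {j : ℕ} {T : Finset ℕ}, T ∈ P.powersetCard j → a ∉ T := fun hT h =>
    ha ((mem_powersetCard.1 hT).1 h)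
  rw [powersetCard_succ_insert ha, sum_union, sum_image, mul_sum]
  · congr 1
    exact sum_congr rfl fun T hT => prod_insert (hmem hT)
  · intro T hT T' hT' h
    have h1 := hmem hT
    have h2 := hmem hT'
    rw [← erase_insert h1, ← erase_insert h2, h]
  · rw [disjoint_left]
    intro T hT hT'
    obtain ⟨T', _, rfl⟩ := mem_image.1 hT'
    exact hmem hT (mem_insert_self _ _)

theorem esymm_le (P : Finset ℕ) (x : ℕ → ℝ) (hx : ∀ q ∈ P, 0 ≤ x q) (k : ℕ) :
    ∑ T ∈ P.powersetCard k, ∏ q ∈ T, x q ≤ (∑ q ∈ P, x q) ^ k / k.factorial := by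
  induction P using Finset.induction_on generalizing k with
  | empty =>
    rcases k with _ | k
    · simp
    · have : powersetCard (k + 1) (∅ : Finset ℕ) = ∅ := by
        apply powersetCard_eq_empty.2; simp
      rw [this]; simp
  | insert a P ha ih =>
    have hx' : ∀ q ∈ P, 0 ≤ x q := fun q hq => hx q (mem_insert_of_mem hq)
    have hxa : 0 ≤ x a := hx a (mem_insert_self _ _)
    have hs : 0 ≤ ∑ q ∈ P, x q := sum_nonneg hx'
    rcases k with _ | k
    · simp
    · rw [I_insert P a ha x k, sum_insert ha]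
      have h1 := ih hx' (k + 1)
      have h2 := mul_le_mul_of_nonneg_left (ih hx' k) hxa
      have h3 := I_bern hs hxa k
      have hf : (0:ℝ) < ((k + 1).factorial : ℝ) := by exact_mod_cast (k + 1).factorial_pos
      have hf0 : (0:ℝ) < (k.factorial : ℝ) := by exact_mod_cast k.factorial_pos
      have e : ((k + 1).factorial : ℝ) = (k + 1) * k.factorial := by rw [Nat.factorial_succ]; push_cast; ring
      calc _ ≤ (∑ q ∈ P, x q) ^ (k + 1) / (k + 1).factorial + x a * ((∑ q ∈ P, x q) ^ k / k.factorial) :=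
            add_le_add h1 h2
        _ = ((∑ q ∈ P, x q) ^ (k + 1) + (k + 1) * (∑ q ∈ P, x q) ^ k * x a) / (k + 1).factorial := by
            rw [e]; field_simp
        _ ≤ (x a + ∑ q ∈ P, x q) ^ (k + 1) / (k + 1).factorial := by
            apply div_le_div_of_nonneg_right _ hf.le
            rw [add_comm (x a)]; exact h3

theorem low_sum (P : Finset ℕ) (c : ℕ → ℝ) (hc : ∀ q ∈ P, 0 ≤ c q) (M : ℕ) :
    ∑ T ∈ P.powerset.filter (fun T => T.card ≤ M), ∏ q ∈ T, c q ≤ (1 + ∑ q ∈ P, c q) ^ M := by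
  have hs : 0 ≤ ∑ q ∈ P, c q := sum_nonneg hc
  have h1 : ∑ T ∈ P.powerset.filter (fun T => T.card ≤ M), ∏ q ∈ T, c q =
      ∑ j ∈ range (M + 1), ∑ T ∈ P.powersetCard j, ∏ q ∈ T, c q := by
    rw [← sum_fiberwise_of_maps_to (s := P.powerset.filter (fun T => T.card ≤ M)) (t := range (M + 1))
      (g := fun T => T.card) (fun T hT => mem_range.2 (Nat.lt_succ_of_le (mem_filter.1 hT).2))]
    refine sum_congr rfl fun j hj => ?_
    refine sum_congr ?_ fun _ _ => rfl
    ext T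
    have := mem_range.1 hj
    simp only [mem_filter, mem_powerset, mem_powersetCard]
    constructor
    · rintro ⟨⟨h1, h2⟩, h3⟩; exact ⟨h1, h3⟩
    · rintro ⟨h1, h3⟩; exact ⟨⟨h1, by omega⟩, h3⟩
  rw [h1, add_comm (1:ℝ), add_pow]
  refine sum_le_sum fun j hj => ?_
  have hj' : j ≤ M := Nat.lt_succ_iff.1 (mem_range.1 hj)
  refine (esymm_le P c hc j).trans ?_
  have hp : 0 ≤ (∑ q ∈ P, c q) ^ j := by positivity
  have h2 : (1:ℝ) ≤ (j.factorial : ℝ) := by exact_mod_cast j.factorial_pos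
  have h3 : (1:ℝ) ≤ (M.choose j : ℝ) := by exact_mod_cast Nat.choose_pos hj'
  calc (∑ q ∈ P, c q) ^ j / j.factorial ≤ (∑ q ∈ P, c q) ^ j := div_le_self hp h2
    _ = (∑ q ∈ P, c q) ^ j * 1 ^ (M - j) * 1 := by ring
    _ ≤ (∑ q ∈ P, c q) ^ j * 1 ^ (M - j) * (M.choose j : ℝ) := by
        apply mul_le_mul_of_nonneg_left h3; positivity

end Pool.Agent.Helpers29.Erd
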