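import Pool.Agent.Helpers29.ErdZ
import Pool.Agent.Helpers29.ErdA
import Pool.Agent.Helpers29.ErdB
import Pool.Agent.Helpers29.ErdC
import Pool.Agent.Helpers29.ErdD
import Pool.Agent.Helpers29.ErdH

set_option autoImplicit false

namespace Pool.Agent.Helpers29.Erd

open Finset

theorem main_result : ∃ c > (0 : ℝ), ∀ ε > (0 : ℝ), ∀ᶠ n : ℕ in Filter.atTop,
    (N97cf5353.K n : ℝ) <
      Real.exp ((n : ℝ) ^ ((c + ε) / Real.log (Real.log (n : ℝ)))) := by
  have hD : ∀ n q : ℕ, 2 ≤ n → q ∈ PP n → (AA n q).card = Nat.gcd n (q - 1) :=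
    fun n q hn hq => card_AA hn hq
  have hF : ∀ n : ℕ, 2 ≤ n → ∑ q ∈ PP n, ((AA n q).card : ℝ) / q ≤
      n.divisors.card * (1 + Real.log n) := fun n hn => sum_x hD card_PP n hn
  exact final (exists_good
    (fun P hP A hA M Y hM h => brun_aux count_T bonf_prod P hP A hA M Y hM h)
    hF (fun n hn => sum_card hD card_PP n hn) (fun n hn => prod_x hD hF n hn)) tau_asymp

end Pool.Agent.Helpers29.Erd
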