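import Pool.Agent.Helpers29.ErdE
import Pool.Agent.Helpers29.ErdI
import Pool.Agent.Helpers29.ErdF
import Pool.Agent.Helpers29.ErdG
import Pool.Prelude.Def_F_6b510ad2

set_option autoImplicit false

namespace Pool.Agent.Helpers29.Erd

open Finset

theorem exists_good
    (brun : ∀ (P : Finset ℕ), (∀ q ∈ P, q.Prime) → ∀ (A : ℕ → Finset ℕ),
      (∀ q ∈ P, A q ⊆ range q) → ∀ (M Y : ℕ), Odd M →
      ((∑ T ∈ P.powerset.filter (fun T => T.card ≤ M), ∏ q ∈ T, ((A q).card : ℝ)) +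
        Y * (∑ T ∈ P.powersetCard (M+1), ∏ q ∈ T, ((A q).card : ℝ) / q) <
        Y * ∏ q ∈ P, (1 - ((A q).card : ℝ) / q)) →
      ∃ k : ℕ, 1 ≤ k ∧ k ≤ Y ∧ ∀ q ∈ P, k % q ∉ A q)
    (hF : ∀ n : ℕ, 2 ≤ n → ∑ q ∈ PP n, ((AA n q).card : ℝ) / q ≤
      n.divisors.card * (1 + Real.log n))
    (hF2 : ∀ n : ℕ, 2 ≤ n → ∑ q ∈ PP n, (AA n q).card ≤ n ^ 2)
    (hG : ∀ n : ℕ, 2 ≤ n → Real.exp (-(4 * n.divisors.card * (1 + Real.log n))) ≤
      ∏ q ∈ PP n, (1 - ((AA n q).card : ℝ) / q))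
    (n : ℕ) (hn : 2 ≤ n) :
    ∃ k : ℕ, 2 ≤ k ∧ Nat.Coprime (k ^ n - 1) (2 ^ n - 1) ∧
      (k : ℝ) < Real.exp (100 * (n.divisors.card : ℝ) * (1 + Real.log n) ^ 2) := by
  have hn1 : (1 : ℝ) ≤ n := by exact_mod_cast (by omega : 1 ≤ n)
  have hlog : 0 ≤ Real.log n := Real.log_nonneg hn1
  have hτ : 1 ≤ n.divisors.card := Finset.card_pos.2 ⟨1, Nat.one_mem_divisors.2 (by omega)⟩
  have hτ1 : (1 : ℝ) ≤ n.divisors.card := by exact_mod_cast hτ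
  set L : ℝ := n.divisors.card * (1 + Real.log n) with hL
  have hL1 : 1 ≤ L := by rw [hL]; nlinarith
  set M : ℕ := 2 * ⌈4 * L⌉₊ + 1 with hM
  have hModd : Odd M := ⟨⌈4 * L⌉₊, by rw [hM]⟩
  have hceil1 : 4 * L ≤ (⌈4 * L⌉₊ : ℝ) := Nat.le_ceil _
  have hceil2 : (⌈4 * L⌉₊ : ℝ) < 4 * L + 1 := Nat.ceil_lt_add_one (by linarith)
  have hM1 : 8 * L + 2 ≤ (M : ℝ) + 1 := by rw [hM]; push_cast; linarith
  have hM2 : (M : ℝ) ≤ 8 * L + 3 := by rw [hM]; push_cast; linarith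
  set N : ℝ := 1 + (n : ℝ) ^ 2 with hN
  have hN1 : 1 ≤ N := by rw [hN]; nlinarith
  set Y : ℕ := ⌈2 * Real.exp (4 * L) * N ^ M⌉₊ + 1 with hY
  have hpos : 0 ≤ 2 * Real.exp (4 * L) * N ^ M := by positivity
  have hY1 : 2 * Real.exp (4 * L) * N ^ M + 1 ≤ (Y : ℝ) := by
    rw [hY]; push_cast
    have := Nat.le_ceil (2 * Real.exp (4 * L) * N ^ M)
    linarith
  have hY2 : (Y : ℝ) < 2 * Real.exp (4 * L) * N ^ M + 3 := by
    rw [hY]; push_cast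
    have := Nat.ceil_lt_add_one hpos
    linarith
  have hlow : ∑ T ∈ (PP n).powerset.filter (fun T => T.card ≤ M),
      ∏ q ∈ T, ((AA n q).card : ℝ) ≤ N ^ M := by
    refine (low_sum (PP n) (fun q => ((AA n q).card : ℝ)) (fun _ _ => Nat.cast_nonneg _) M).trans ?_
    have : ∑ q ∈ PP n, ((AA n q).card : ℝ) ≤ (n : ℝ) ^ 2 := by exact_mod_cast hF2 n hn
    have h0 : 0 ≤ ∑ q ∈ PP n, ((AA n q).card : ℝ) :=
      Finset.sum_nonneg (fun _ _ => Nat.cast_nonneg _)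
    exact pow_le_pow_left₀ (by linarith) (by rw [hN]; linarith) M
  have hS0 : 0 ≤ ∑ q ∈ PP n, ((AA n q).card : ℝ) / q :=
    Finset.sum_nonneg (fun _ _ => by positivity)
  have he := esymm_le (PP n) (fun q => ((AA n q).card : ℝ) / q) (fun _ _ => by positivity) (M + 1)
  have hV : Real.exp (-(4 * L)) ≤ ∏ q ∈ PP n, (1 - ((AA n q).card : ℝ) / q) := by
    have := hG n hn
    rw [hL]
    convert this using 2
    ring
  have hkey := numeric L (∏ q ∈ PP n, (1 - ((AA n q).card : ℝ) / q))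
    (∑ q ∈ PP n, ((AA n q).card : ℝ) / q)
    (∑ T ∈ (PP n).powersetCard (M+1), ∏ q ∈ T, ((AA n q).card : ℝ) / q)
    (∑ T ∈ (PP n).powerset.filter (fun T => T.card ≤ M), ∏ q ∈ T, ((AA n q).card : ℝ))
    N hL1 hN1 M hM1 hV hS0 (hF n hn) he hlow Y hY1
  obtain ⟨k, hk1, hkY, hk⟩ := brun (PP n) (fun q hq => Nat.prime_of_mem_primeFactors hq)
    (AA n) (fun q _ => Finset.filter_subset _ _) M Y hModd hkey
  have hcop := coprime_of hn hk1 hk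
  have hk2 : 2 ≤ k := by
    by_contra hlt
    have hk' : k = 1 := by omega
    rw [hk'] at hcop
    rw [one_pow, Nat.sub_self, Nat.coprime_zero_left] at hcop
    have h2 : 4 ≤ 2 ^ n := by
      calc 4 = 2 ^ 2 := by norm_num
        _ ≤ 2 ^ n := Nat.pow_le_pow_right (by norm_num) hn
    omega
  refine ⟨k, hk2, hcop, ?_⟩
  have h1 : (k : ℝ) ≤ Y := by exact_mod_cast hkY
  have h2 := size_bound n n.divisors.card hn hτ M hM2
  exact lt_of_le_of_lt h1 (lt_of_lt_of_le hY2 h2)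

theorem final
    (hgood : ∀ n : ℕ, 2 ≤ n → ∃ k : ℕ, 2 ≤ k ∧ Nat.Coprime (k ^ n - 1) (2 ^ n - 1) ∧
      (k : ℝ) < Real.exp (100 * (n.divisors.card : ℝ) * (1 + Real.log n) ^ 2))
    (hH : ∃ C : ℝ, 0 < C ∧ ∀ᶠ n : ℕ in Filter.atTop,
      100 * (n.divisors.card : ℝ) * (1 + Real.log n) ^ 2 <
        (n : ℝ) ^ (C / Real.log (Real.log n))) :
    ∃ c > (0 : ℝ), ∀ ε > (0 : ℝ), ∀ᶠ n : ℕ in Filter.atTop, (N97cf5353.K n : ℝ) <
      Real.exp ((n : ℝ) ^ ((c + ε) / Real.log (Real.log (n : ℝ)))) := by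
  obtain ⟨C, hC, hev⟩ := hH
  refine ⟨C, hC, fun ε hε => ?_⟩
  filter_upwards [hev, Filter.eventually_ge_atTop 16] with n h1 hn
  obtain ⟨k, hk2, hcop, hk⟩ := hgood n (by omega)
  have hK : N97cf5353.K n ≤ k := Nat.sInf_le ⟨hk2, hcop⟩
  have hKr : (N97cf5353.K n : ℝ) ≤ k := by exact_mod_cast hK
  refine lt_of_le_of_lt hKr (hk.trans (Real.exp_lt_exp.2 (h1.trans_le ?_)))
  have hn16 : (16 : ℝ) ≤ n := by exact_mod_cast hn
  have hlog : 1 < Real.log n := by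
    rw [Real.lt_log_iff_exp_lt (by linarith)]
    have := Real.exp_one_lt_d9
    linarith
  have hll : 0 < Real.log (Real.log n) := Real.log_pos hlog
  apply Real.rpow_le_rpow_of_exponent_le (by linarith)
  apply div_le_div_of_nonneg_right (by linarith) hll.le

end Pool.Agent.Helpers29.Erd
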