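import Mathlib
import Pool.Agent.Helpers29.Defs47cbd1

namespace Pool.Agent.Helpers29.Fox47cbd1

open ProfiniteGrp ProfiniteGrp.ProfiniteCompletion CategoryTheory

/-- `F2hat` as an object of `ProfiniteGrp`. -/
noncomputable abbrev F2P : ProfiniteGrp.{0} := completion (GrpCat.of (FreeGroup (Fin 2)))

/-- `Zhat` as an object of `ProfiniteGrp`. -/
noncomputable abbrev ZP : ProfiniteGrp.{0} := completion (GrpCat.of (Multiplicative ℤ))

/-- The canonical map from the free group to `F2hat`. -/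
noncomputable def etaF (w : FreeGroup (Fin 2)) : F2P := etaFn (GrpCat.of (FreeGroup (Fin 2))) w

/-- The canonical map from `ℤ` to `Zhat`. -/
noncomputable def etaZ (n : Multiplicative ℤ) : ZP := etaFn (GrpCat.of (Multiplicative ℤ)) n

/-- The generators `x = gen 0` and `y = gen 1` of `F2hat`. -/
noncomputable def genP (i : Fin 2) : F2P := etaF (FreeGroup.of i)

/-- The element `1`. -/
noncomputable def oneZP : ZP := etaZ (Multiplicative.ofAdd 1)

/-- The continuous homomorphism `Zhat → P` which sends `1` to `g`. -/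
noncomputable def powHom {P : ProfiniteGrp.{0}} (g : P) : ZP →ₜ* P :=
  (lift (G := GrpCat.of (Multiplicative ℤ)) (GrpCat.ofHom (zpowersHom P g))).hom

/-- The power `g ^ l` for `l ∈ Zhat`. -/
noncomputable def pow {P : ProfiniteGrp.{0}} (g : P) (l : ZP) : P := powHom g l

/-- The derived subgroup of `F2hat`: the closed subgroup generated by the commutators. -/
noncomputable def derivedP : Subgroup F2P := (commutator F2P).topologicalClosure

/-- The continuous homomorphism from `F2hat` extending a homomorphism from the free group. -/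
noncomputable def extF {P : ProfiniteGrp.{0}} (u : FreeGroup (Fin 2) →* P) : F2P →ₜ* P :=
  (lift (G := GrpCat.of (FreeGroup (Fin 2))) (GrpCat.ofHom u)).hom

lemma lift_etaFn {G : GrpCat.{0}} {P : ProfiniteGrp.{0}} (f : G ⟶ GrpCat.of P) (x : G) :
    (lift f).hom (etaFn G x) = f.hom x :=
  congrArg (fun k : G ⟶ GrpCat.of P => k.hom x) (lift_eta f)

lemma extF_eta {P : ProfiniteGrp.{0}} (u : FreeGroup (Fin 2) →* P) (w : FreeGroup (Fin 2)) :
    extF u (etaF w) = u w :=
  lift_etaFn (G := GrpCat.of (FreeGroup (Fin 2))) (GrpCat.ofHom u) w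

lemma powHom_eta {P : ProfiniteGrp.{0}} (g : P) (n : Multiplicative ℤ) :
    powHom g (etaZ n) = g ^ (Multiplicative.toAdd n) :=
  lift_etaFn (G := GrpCat.of (Multiplicative ℤ)) (GrpCat.ofHom (zpowersHom P g)) n

lemma pow_one {P : ProfiniteGrp.{0}} (g : P) : pow g oneZP = g := by
  have := powHom_eta g (Multiplicative.ofAdd 1)
  rw [toAdd_ofAdd, zpow_one] at this
  exact this

lemma dense_etaF : DenseRange etaF := denseRange (G := GrpCat.of (FreeGroup (Fin 2)))

lemma dense_etaZ : DenseRange etaZ := denseRange (G := GrpCat.of (Multiplicative ℤ))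

/-- a continuous homomorphism from `Zhat` is determined by the image of `1` -/
lemma hom_eq_powHom {P : ProfiniteGrp.{0}} (θ : ZP →ₜ* P) (l : ZP) :
    θ l = pow (θ oneZP) l := by
  have h : (fun l => θ l) = fun l => powHom (θ oneZP) l := by
    apply dense_etaZ.equalizer θ.continuous_toFun (powHom (θ oneZP)).continuous_toFun
    funext n
    change θ (etaZ n) = powHom (θ oneZP) (etaZ n)
    rw [powHom_eta]
    have e : etaZ n = oneZP ^ (Multiplicative.toAdd n) := by
      have hn : n = (Multiplicative.ofAdd (1 : ℤ)) ^ (Multiplicative.toAdd n) := by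
        rw [← ofAdd_zsmul]; simp
      conv_lhs => rw [hn]
      exact map_zpow (eta (GrpCat.of (Multiplicative ℤ))).hom _ _
    rw [e, map_zpow]
  exact congrFun h l

/-- powers are natural -/
lemma map_pow' {P Q : ProfiniteGrp.{0}} (θ : P →ₜ* Q) (g : P) (l : ZP) :
    θ (pow g l) = pow (θ g) l := by
  have h : (fun l => θ (powHom g l)) = fun l => powHom (θ g) l := by
    apply dense_etaZ.equalizer (θ.continuous_toFun.comp (powHom g).continuous_toFun)
      (powHom (θ g)).continuous_toFun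
    funext n
    change θ (powHom g (etaZ n)) = powHom (θ g) (etaZ n)
    rw [powHom_eta, powHom_eta, map_zpow]
  exact congrFun h l

/-- The symmetric group on three letters as a profinite group. -/
def S3 : ProfiniteGrp.{0} := ProfiniteGrp.ofFiniteGrp (FiniteGrp.of (Equiv.Perm (Fin 3)))

instance : DiscreteTopology S3 := ⟨rfl⟩

/-- a transposition -/
def ta : S3 := (Equiv.swap 0 1 : Equiv.Perm (Fin 3))
/-- another transposition -/
def tb : S3 := (Equiv.swap 1 2 : Equiv.Perm (Fin 3))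

lemma pow_mem (g : S3) (l : ZP) : ∃ n : ℤ, pow g l = g ^ n := by
  have hc : IsClosed ((fun l => powHom g l) ⁻¹' {h : S3 | ∃ n : ℤ, h = g ^ n}) :=
    IsClosed.preimage (powHom g).continuous_toFun (isClosed_discrete _)
  exact dense_etaZ.induction_on (p := fun l => ∃ n : ℤ, powHom g l = g ^ n) l hc
    (fun n => ⟨Multiplicative.toAdd n, powHom_eta g n⟩)

/-- the homomorphism to `S3` -/
noncomputable def psi : F2P →ₜ* S3 := extF (FreeGroup.lift ![ta, tb])

lemma psi_gen0 : psi (genP 0) = ta := by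
  unfold psi genP
  rw [extF_eta, FreeGroup.lift_apply_of]
  rfl

lemma psi_gen1 : psi (genP 1) = tb := by
  unfold psi genP
  rw [extF_eta, FreeGroup.lift_apply_of]
  rfl

/-- The element `f = y x y⁻¹ x⁻¹` of the derived subgroup. -/
noncomputable def fP : F2P := genP 1 * genP 0 * (genP 1)⁻¹ * (genP 0)⁻¹

lemma f_mem : fP ∈ derivedP := by
  apply (commutator F2P).le_topologicalClosure
  exact Subgroup.commutator_mem_commutator (Subgroup.mem_top _) (Subgroup.mem_top _)

lemma conj_eq : (tb * ta * tb⁻¹ * ta⁻¹)⁻¹ * tb * (tb * ta * tb⁻¹ * ta⁻¹) = ta := by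
  have h : ((Equiv.swap 1 2 : Equiv.Perm (Fin 3)) * (Equiv.swap 0 1 : Equiv.Perm (Fin 3)) *
      (Equiv.swap 1 2 : Equiv.Perm (Fin 3))⁻¹ * (Equiv.swap 0 1 : Equiv.Perm (Fin 3))⁻¹)⁻¹ *
      (Equiv.swap 1 2 : Equiv.Perm (Fin 3)) *
      ((Equiv.swap 1 2 : Equiv.Perm (Fin 3)) * (Equiv.swap 0 1 : Equiv.Perm (Fin 3)) *
      (Equiv.swap 1 2 : Equiv.Perm (Fin 3))⁻¹ * (Equiv.swap 0 1 : Equiv.Perm (Fin 3))⁻¹) =
      (Equiv.swap 0 1 : Equiv.Perm (Fin 3)) := by decide
  exact h

lemma tb_ne (n : ℤ) : tb ≠ ta ^ n := by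
  have h2 : ta * ta = 1 := by
    have h : (Equiv.swap 0 1 : Equiv.Perm (Fin 3)) * (Equiv.swap 0 1 : Equiv.Perm (Fin 3)) = 1 := by
      decide
    exact h
  have h3 : tb ≠ 1 := by
    have h : (Equiv.swap 1 2 : Equiv.Perm (Fin 3)) ≠ 1 := by decide
    exact h
  have h4 : tb ≠ ta := by
    have h : (Equiv.swap 1 2 : Equiv.Perm (Fin 3)) ≠ (Equiv.swap 0 1 : Equiv.Perm (Fin 3)) := by
      decide
    exact h
  rcases Int.even_or_odd' n with ⟨k, rfl | rfl⟩
  · rw [zpow_mul, zpow_two, h2, one_zpow]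
    exact h3
  · rw [zpow_add, zpow_mul, zpow_two, h2, one_zpow, one_mul, zpow_one]
    exact h4

lemma not_surj (l : ZP) (φ : F2P →ₜ* F2P) (h0 : φ (genP 0) = pow (genP 0) l)
    (h1 : φ (genP 1) = fP⁻¹ * pow (genP 1) l * fP) : ¬ Function.Surjective φ := by
  intro hs
  have e0 : ∃ n : ℤ, psi (φ (genP 0)) = ta ^ n := by
    rw [h0, map_pow', psi_gen0]
    exact pow_mem _ _
  have e1 : ∃ n : ℤ, psi (φ (genP 1)) = ta ^ n := by
    obtain ⟨n, hn⟩ := pow_mem tb l
    refine ⟨n, ?_⟩
    have hf : psi fP = tb * ta * tb⁻¹ * ta⁻¹ := by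
      unfold fP
      rw [map_mul, map_mul, map_mul, map_inv, map_inv, psi_gen0, psi_gen1]
    rw [h1, map_mul, map_mul, map_inv, map_pow', psi_gen1, hn, hf]
    have := conj_zpow (a := (tb * ta * tb⁻¹ * ta⁻¹ : S3)⁻¹) (b := tb) (i := n)
    rw [inv_inv, conj_eq] at this
    exact this.symm
  have key : ∀ z : F2P, psi (φ z) ∈ Subgroup.zpowers ta := by
    intro z
    refine dense_etaF.induction_on
      (p := fun z => psi (φ z) ∈ Subgroup.zpowers ta) z ?_ ?_
    · have : IsClosed ((fun z => psi (φ z)) ⁻¹' (Subgroup.zpowers ta : Set S3)) :=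
        IsClosed.preimage (psi.continuous_toFun.comp φ.continuous_toFun) (isClosed_discrete _)
      exact this
    · intro w
      let χ : FreeGroup (Fin 2) →* S3 :=
        (psi.toMonoidHom.comp φ.toMonoidHom).comp (eta (GrpCat.of (FreeGroup (Fin 2)))).hom
      have hχ : ∀ w, χ w ∈ Subgroup.zpowers ta := by
        have : (⊤ : Subgroup (FreeGroup (Fin 2))) ≤ (Subgroup.zpowers ta).comap χ := by
          rw [← FreeGroup.closure_range_of, Subgroup.closure_le]
          rintro _ ⟨i, rfl⟩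
          fin_cases i
          · obtain ⟨n, hn⟩ := e0
            exact ⟨n, hn.symm⟩
          · obtain ⟨n, hn⟩ := e1
            exact ⟨n, hn.symm⟩
        intro w
        exact this (Subgroup.mem_top w)
      exact hχ w
  obtain ⟨z, hz⟩ := hs (genP 1)
  have := key z
  rw [hz, psi_gen1] at this
  obtain ⟨n, hn⟩ := this
  exact tb_ne n hn.symm

/-- the endomorphism with prescribed values exists and is unique -/
lemma exists_endo (u v : F2P) : ∃! φ : F2P →ₜ* F2P, φ (genP 0) = u ∧ φ (genP 1) = v := by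
  refine ⟨extF (FreeGroup.lift ![u, v]), ⟨?_, ?_⟩, ?_⟩
  · unfold genP
    rw [extF_eta, FreeGroup.lift_apply_of]
    rfl
  · unfold genP
    rw [extF_eta, FreeGroup.lift_apply_of]
    rfl
  · rintro φ ⟨h0, h1⟩
    have hfree : (φ.toMonoidHom.comp (eta (GrpCat.of (FreeGroup (Fin 2)))).hom) =
        FreeGroup.lift ![u, v] := by
      apply FreeGroup.ext_hom
      intro i
      rw [FreeGroup.lift_apply_of]
      fin_cases i
      · exact h0
      · exact h1
    have h : (fun z => φ z) = fun z => extF (FreeGroup.lift ![u, v]) z := by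
      apply dense_etaF.equalizer φ.continuous_toFun (extF (FreeGroup.lift ![u, v])).continuous_toFun
      funext w
      change φ (etaF w) = extF (FreeGroup.lift ![u, v]) (etaF w)
      rw [extF_eta]
      exact DFunLike.congr_fun hfree w
    ext z
    exact congrFun h z

/-- the relation on the object level -/
def IsPhiP (l : ZP) (f : F2P) (φ : F2P →ₜ* F2P) : Prop :=
  φ (genP 0) = pow (genP 0) l ∧ φ (genP 1) = f⁻¹ * pow (genP 1) l * f

lemma isPow_iff {P : ProfiniteGrp.{0}} (g : P) (l : ZP) (h : P) :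
    IsPow (P := P) g l h ↔ h = pow g l := by
  constructor
  · rintro ⟨θ, h0, h1⟩
    have h0' : (θ : ZP →ₜ* P) oneZP = g := h0
    have := hom_eq_powHom (P := P) θ l
    exact h1.symm.trans (this.trans (congrArg (fun z => pow z l) h0'))
  · rintro rfl
    exact ⟨powHom g, (pow_one g : powHom g oneZP = g), rfl⟩

lemma isPhi_iff (l : ZP) (f : F2P) (φ : F2P →ₜ* F2P) :
    IsPhi l f φ ↔ IsPhiP l f φ := by
  constructor
  · rintro ⟨h0, h, h1, h2⟩
    have h0' := (isPow_iff (P := F2P) (genP 0) l _).1 h0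
    have h1' := (isPow_iff (P := F2P) (genP 1) l h).1 h1
    refine ⟨h0', ?_⟩
    rw [← h1']
    exact h2
  · rintro ⟨h0, h1⟩
    exact ⟨(isPow_iff (P := F2P) _ _ _).2 h0, _, (isPow_iff (P := F2P) _ _ _).2 rfl, h1⟩

theorem main : IsUnitZhat oneZ ∧ ∃ f ∈ derived, ∀ l : Zhat,
    (∃! φ : F2hat →ₜ* F2hat, IsPhi l f φ) ∧
      ∀ φ : F2hat →ₜ* F2hat, IsPhi l f φ → ¬ Function.Surjective φ := by
  refine ⟨⟨oneZ, (isPow_iff (P := ZP) _ _ _).2 (pow_one (P := ZP) _).symm⟩, fP, f_mem, fun l => ⟨?_, ?_⟩⟩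
  · obtain ⟨φ, h, hu⟩ := exists_endo (pow (genP 0) l) (fP⁻¹ * pow (genP 1) l * fP)
    exact ⟨φ, (isPhi_iff l fP φ).2 h, fun ψ hψ => hu ψ ((isPhi_iff l fP ψ).1 hψ)⟩
  · intro φ h
    have h' := (isPhi_iff l fP φ).1 h
    exact not_surj l φ h'.1 h'.2

end Pool.Agent.Helpers29.Fox47cbd1
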