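import Mathlib

set_option autoImplicit false

namespace Pool.Agent.Helpers29.Hech

open Set Filter Topology

/-- the Hechler space -/
def HX : Type := ℕ → ℕ

/-- basic neighbourhoods -/
def U (n : ℕ) (x : HX) : Set HX := {y : ℕ → ℕ | (∀ i < n, y i = (x : ℕ → ℕ) i) ∧ ∀ i, (x : ℕ → ℕ) i ≤ y i}

lemma mem_U {n : ℕ} {x y : HX} :
    y ∈ U n x ↔ (∀ i < n, (y : ℕ → ℕ) i = (x : ℕ → ℕ) i) ∧ ∀ i, (x : ℕ → ℕ) i ≤ (y : ℕ → ℕ) i := Iff.rfl

lemma self_mem_U (n : ℕ) (x : HX) : x ∈ U n x := ⟨fun _ _ => rfl, fun _ => le_rfl⟩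

lemma U_trans {n m : ℕ} {x y : HX} (hy : y ∈ U n x) (hnm : n ≤ m) : U m y ⊆ U n x := by
  intro z hz
  refine ⟨fun i hi => (hz.1 i (hi.trans_le hnm)).trans (hy.1 i hi), fun i => (hy.2 i).trans (hz.2 i)⟩

instance : TopologicalSpace HX where
  IsOpen s := ∀ x ∈ s, ∃ n, U n x ⊆ s
  isOpen_univ := fun _ _ => ⟨0, subset_univ _⟩
  isOpen_inter := by
    rintro s t hs ht x ⟨hxs, hxt⟩
    obtain ⟨n, hn⟩ := hs x hxs
    obtain ⟨m, hm⟩ := ht x hxt
    exact ⟨max n m, subset_inter ((U_trans (self_mem_U _ _) (le_max_left _ _)).trans hn)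
      ((U_trans (self_mem_U _ _) (le_max_right _ _)).trans hm)⟩
  isOpen_sUnion := by
    rintro S hS x ⟨s, hs, hx⟩
    obtain ⟨n, hn⟩ := hS s hs x hx
    exact ⟨n, hn.trans (subset_sUnion_of_mem hs)⟩

lemma isOpen_iff' {s : Set HX} : IsOpen s ↔ ∀ x ∈ s, ∃ n, U n x ⊆ s := Iff.rfl

lemma isOpen_U (n : ℕ) (x : HX) : IsOpen (U n x) := by
  rw [isOpen_iff']
  intro y hy
  exact ⟨n, U_trans hy le_rfl⟩

lemma isClosed_U (n : ℕ) (x : HX) : IsClosed (U n x) := by
  rw [← isOpen_compl_iff, isOpen_iff']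
  intro z hz
  rw [mem_compl_iff, mem_U, not_and_or] at hz
  rcases hz with hz | hz
  · refine ⟨n, fun w hw hw' => hz fun i hi => ?_⟩
    rw [← hw'.1 i hi, hw.1 i hi]
  · push Not at hz
    obtain ⟨i, hi⟩ := hz
    refine ⟨i + 1, fun w hw hw' => ?_⟩
    have h1 := hw.1 i (Nat.lt_succ_self i)
    have h2 := hw'.2 i
    rw [h1] at h2
    exact absurd h2 (not_le.2 hi)

lemma nhds_basis (x : HX) : (𝓝 x).HasBasis (fun _ : ℕ => True) (fun n => U n x) := by
  refine ⟨fun s => ?_⟩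
  rw [mem_nhds_iff]
  constructor
  · rintro ⟨t, hts, ht, hxt⟩
    obtain ⟨n, hn⟩ := ht x hxt
    exact ⟨n, trivial, hn.trans hts⟩
  · rintro ⟨n, -, hn⟩
    exact ⟨U n x, hn, isOpen_U n x, self_mem_U n x⟩

instance : T35Space HX where
  t0 := by
    intro x y h
    have h1 : y ∈ U 0 x := by
      rw [inseparable_iff_forall_isOpen] at h
      exact (h _ (isOpen_U 0 x)).1 (self_mem_U 0 x)
    have h2 : x ∈ U 0 y := by
      rw [inseparable_iff_forall_isOpen] at h
      exact (h _ (isOpen_U 0 y)).2 (self_mem_U 0 y)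
    exact funext fun i => le_antisymm (h1.2 i) (h2.2 i)
  completely_regular := by
    classical
    intro x K hK hx
    obtain ⟨n, hn⟩ := (isOpen_compl_iff.2 hK) x hx
    refine ⟨(U n x).piecewise (fun _ => 0) (fun _ => 1), ?_, ?_, ?_⟩
    · refine Continuous.piecewise ?_ continuous_const continuous_const
      intro a ha
      rw [IsClopen.frontier_eq ⟨isClosed_U n x, isOpen_U n x⟩] at ha
      exact absurd ha (notMem_empty _)
    · exact piecewise_eq_of_mem _ _ _ (self_mem_U n x)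
    · intro y hy
      exact piecewise_eq_of_notMem _ _ _ (fun h => hn h hy)

/-- The key lemma. -/
lemma key {A : Set (HX → ℝ)} (hc : ∀ f ∈ A, Continuous f) (hA : IsCompact A) {r r' : ℝ}
    (hr : r < r') (n : ℕ) (x : HX) :
    ∃ k : ℕ, ∀ x' : HX, ∀ p ∈ A, ∀ q ∈ A, (∀ i < k, (x' : ℕ → ℕ) i = (x : ℕ → ℕ) i) →
      (∀ y ∈ U n x', p y < r ∧ r' < q y) → p x ≠ q x := by
  by_contra hcon
  push Not at hcon
  choose X P hP Q hQ hX hPQ he using hcon
  obtain ⟨p, hpA, hp⟩ := hA.ultrafilter_le_nhds ((hyperfilter ℕ).map P) (by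
    rw [le_principal_iff]
    exact mem_map.2 (Filter.Eventually.of_forall hP))
  obtain ⟨q, hqA, hq⟩ := hA.ultrafilter_le_nhds ((hyperfilter ℕ).map Q) (by
    rw [le_principal_iff]
    exact mem_map.2 (Filter.Eventually.of_forall hQ))
  have hp' : ∀ y, Tendsto (fun k => P k y) (hyperfilter ℕ) (𝓝 (p y)) := by
    intro y
    have : Tendsto P (hyperfilter ℕ) (𝓝 p) := hp
    exact ((continuous_apply y).tendsto p).comp this
  have hq' : ∀ y, Tendsto (fun k => Q k y) (hyperfilter ℕ) (𝓝 (q y)) := by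
    intro y
    have : Tendsto Q (hyperfilter ℕ) (𝓝 q) := hq
    exact ((continuous_apply y).tendsto q).comp this
  have ha : p x = q x := tendsto_nhds_unique (hp' x) (by
    refine (hq' x).congr fun k => ?_
    exact (he k).symm)
  -- the points y_j
  let Y : ℕ → HX := fun j => (fun i : ℕ =>
    ((Finset.Icc j i).sup (fun k => (X k : ℕ → ℕ) i)) ⊔ (x : ℕ → ℕ) i : ℕ → ℕ)
  have hYge : ∀ j k, j ≤ k → ∀ i, (X k : ℕ → ℕ) i ≤ (Y j : ℕ → ℕ) i := by
    intro j k hjk i
    by_cases hki : k ≤ i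
    · exact le_sup_of_le_left (Finset.le_sup (f := fun k => (X k : ℕ → ℕ) i) (Finset.mem_Icc.2 ⟨hjk, hki⟩))
    · rw [hX k i (not_le.1 hki)]
      exact le_sup_right
  have hYeq : ∀ j i, i < j → (Y j : ℕ → ℕ) i = (x : ℕ → ℕ) i := by
    intro j i hij
    change ((Finset.Icc j i).sup (fun k => (X k : ℕ → ℕ) i)) ⊔ (x : ℕ → ℕ) i = _
    rw [Finset.Icc_eq_empty (not_le.2 hij)]
    simp
  have hYx : ∀ j, Y j ∈ U j x := by
    intro j
    exact ⟨fun i hi => hYeq j i hi, fun i => le_sup_right⟩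
  have hYU : ∀ j k, n ≤ j → j ≤ k → Y j ∈ U n (X k) := by
    intro j k hnj hjk
    refine ⟨fun i hi => ?_, hYge j k hjk⟩
    rw [hYeq j i (hi.trans_le hnj), hX k i (hi.trans_le (hnj.trans hjk))]
  have hev : ∀ j, ∀ᶠ k in (hyperfilter ℕ : Filter ℕ), j ≤ k := fun j =>
    Nat.hyperfilter_le_atTop (eventually_ge_atTop j)
  have hpY : ∀ j, n ≤ j → p (Y j) ≤ r := by
    intro j hj
    refine le_of_tendsto (hp' (Y j)) ?_
    filter_upwards [hev j] with k hk
    exact (hPQ k _ (hYU j k hj hk)).1.le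
  have hqY : ∀ j, n ≤ j → r' ≤ q (Y j) := by
    intro j hj
    refine ge_of_tendsto (hq' (Y j)) ?_
    filter_upwards [hev j] with k hk
    exact (hPQ k _ (hYU j k hj hk)).2.le
  have hYt : Tendsto Y atTop (𝓝 x) := by
    rw [(nhds_basis x).tendsto_right_iff]
    intro m _
    filter_upwards [eventually_ge_atTop m] with j hj
    exact U_trans (self_mem_U m x) hj (hYx j)
  have h1 : p x ≤ r := by
    refine le_of_tendsto (((hc p hpA).tendsto x).comp hYt) ?_
    filter_upwards [eventually_ge_atTop n] with j hj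
    exact hpY j hj
  have h2 : r' ≤ q x := by
    refine ge_of_tendsto (((hc q hqA).tendsto x).comp hYt) ?_
    filter_upwards [eventually_ge_atTop n] with j hj
    exact hqY j hj
  rw [ha] at h1
  linarith

/-- initial segments -/
def seg (k : ℕ) (x : ℕ → ℕ) : List ℕ := (List.range k).map x

lemma seg_eq {k k' : ℕ} {x x' : ℕ → ℕ} (h : seg k x = seg k' x') :
    k = k' ∧ ∀ i < k, x i = x' i := by
  have hlen : k = k' := by
    have := congrArg List.length h
    simpa [seg] using this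
  refine ⟨hlen, fun i hi => ?_⟩
  have h1 : (seg k x)[i]? = (seg k' x')[i]? := by rw [h]
  unfold seg at h1
  rw [List.getElem?_map, List.getElem?_map, List.getElem?_range hi,
    List.getElem?_range (by rw [← hlen]; exact hi)] at h1
  simpa using h1

/-- a countable separating set -/
lemma exists_sep {A : Set (HX → ℝ)} (hc : ∀ f ∈ A, Continuous f) (hA : IsCompact A) :
    ∃ D : Set HX, D.Countable ∧ ∀ p ∈ A, ∀ q ∈ A, (∀ d ∈ D, p d = q d) → p = q := by
  classical
  have hk : ∀ (c : {c : (ℚ × ℚ) × ℕ // (c.1.1 : ℝ) < (c.1.2 : ℝ)}) (x : HX),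
      ∃ k : ℕ, ∀ x' : HX, ∀ p ∈ A, ∀ q ∈ A, (∀ i < k, (x' : ℕ → ℕ) i = (x : ℕ → ℕ) i) →
      (∀ y ∈ U c.1.2 x', p y < c.1.1.1 ∧ c.1.1.2 < q y) → p x ≠ q x := fun c x =>
    key hc hA c.2 c.1.2 x
  choose k hk using hk
  let g : {c : (ℚ × ℚ) × ℕ // (c.1.1 : ℝ) < (c.1.2 : ℝ)} × List ℕ → HX := fun cu =>
    if h : ∃ x : HX, seg (k cu.1 x) x = cu.2 then h.choose else (fun _ => 0 : ℕ → ℕ)
  refine ⟨range g, countable_range g, ?_⟩
  intro p hp q hq hd
  by_contra hne
  have hmain : ∀ p ∈ A, ∀ q ∈ A, (∀ d ∈ range g, p d = q d) → ∀ x, ¬ p x < q x := by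
    intro p hp q hq hd x hx
    obtain ⟨r, hr1, hr2⟩ := exists_rat_btwn hx
    obtain ⟨r', hr3, hr4⟩ := exists_rat_btwn hr2
    have hop : IsOpen ({y | p y < r} ∩ {y | (r' : ℝ) < q y}) :=
      (isOpen_lt (hc p hp) continuous_const).inter (isOpen_lt continuous_const (hc q hq))
    obtain ⟨n, hn⟩ := hop x ⟨hr1, hr4⟩
    let c : {c : (ℚ × ℚ) × ℕ // (c.1.1 : ℝ) < (c.1.2 : ℝ)} := ⟨((r, r'), n), hr3⟩
    have hex : ∃ z : HX, seg (k c z) z = seg (k c x) x := ⟨x, rfl⟩
    have hg : g (c, seg (k c x) x) = hex.choose := dif_pos hex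
    have hspec := seg_eq hex.choose_spec
    have hdd := hd _ ⟨(c, seg (k c x) x), rfl⟩
    rw [hg] at hdd
    refine hk c hex.choose x p hp q hq ?_ (fun y hy => hn hy) hdd
    intro i hi
    exact (hspec.2 i hi).symm
  apply hne
  funext x
  exact le_antisymm (not_lt.1 (hmain q hq p hp (fun d hd' => (hd d hd').symm) x))
    (not_lt.1 (hmain p hp q hq hd x))

/-- pointwise compact sets of continuous functions on the Hechler space are Eberlein -/
theorem eberlein {A : Set (HX → ℝ)} (hc : ∀ f ∈ A, Continuous f) (hA : IsCompact A) :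
    ∃ (E : Type) (_ : NormedAddCommGroup E) (_ : NormedSpace ℝ E) (_ : CompleteSpace E)
          (e : A → WeakSpace ℝ E), Topology.IsEmbedding e := by
  obtain ⟨D, hD, hsep⟩ := exists_sep hc hA
  haveI : Countable D := hD.to_subtype
  haveI : CompactSpace A := isCompact_iff_compactSpace.1 hA
  let R : A → (D → ℝ) := fun f d => f.1 d.1
  have hR : Continuous R := by
    refine continuous_pi fun d => (continuous_apply d.1).comp continuous_subtype_val
  have hRi : Function.Injective R := by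
    intro f g h
    apply Subtype.ext
    apply hsep f.1 f.2 g.1 g.2
    intro d hd
    exact congrFun h ⟨d, hd⟩
  have hemb : IsEmbedding R := (hR.isClosedEmbedding hRi).isEmbedding
  haveI : TopologicalSpace.MetrizableSpace A := hemb.metrizableSpace
  letI : MetricSpace A := TopologicalSpace.metrizableSpaceMetric A
  let e : A → WeakSpace ℝ (lp (fun _ : ℕ => ℝ) ⊤) := fun a => toWeakSpaceCLM ℝ _ (kuratowskiEmbedding A a)
  refine ⟨lp (fun _ : ℕ => ℝ) ⊤, inferInstance, inferInstance, inferInstance, e, ?_⟩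
  have he : Continuous e :=
    (toWeakSpaceCLM ℝ (lp (fun _ : ℕ => ℝ) ⊤)).continuous.comp (kuratowskiEmbedding.isometry A).continuous
  have hei : Function.Injective e := by
    intro a b hab
    exact (kuratowskiEmbedding.isometry A).injective ((toWeakSpaceCLM_bijective).1 hab)
  exact (he.isClosedEmbedding hei).isEmbedding

end Pool.Agent.Helpers29.Hech
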