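import Mathlib

set_option autoImplicit false

namespace Pool.Agent.Helpers29.Hech

open Set Filter Topology

/-- first difference -/
def fd (γ δ : ℕ → ℕ) (n : ℕ) : Prop := (∀ i < n, γ i = δ i) ∧ γ n ≠ δ n

lemma exists_fd {γ δ : ℕ → ℕ} (h : γ ≠ δ) : ∃ n, fd γ δ n := by
  classical
  have h1 : ∃ n, γ n ≠ δ n := Function.ne_iff.1 h
  refine ⟨Nat.find h1, fun i hi => ?_, Nat.find_spec h1⟩
  have := Nat.find_min h1 hi
  push Not at this
  exact this

lemma fd_unique {γ δ : ℕ → ℕ} {n m : ℕ} (h : fd γ δ n) (h' : fd γ δ m) : n = m := by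
  rcases lt_trichotomy n m with h1 | h1 | h1
  · exact absurd (h'.1 n h1) h.2
  · exact h1
  · exact absurd (h.1 m h1) h'.2

/-- The Talagrand family. -/
def TF : Set ((ℕ → ℕ) → Bool) := {a | ∀ γ δ γ' δ' : ℕ → ℕ, ∀ n, a γ = true → a δ = true →
  a γ' = true → a δ' = true → fd γ δ n → γ' ≠ δ' → fd γ' δ' n}

lemma isClosed_TF : IsClosed TF := by
  have : TF = ⋂ (γ : ℕ → ℕ) (δ : ℕ → ℕ) (γ' : ℕ → ℕ) (δ' : ℕ → ℕ) (n : ℕ),
      {a : (ℕ → ℕ) → Bool | a γ = true → a δ = true →
        a γ' = true → a δ' = true → fd γ δ n → γ' ≠ δ' → fd γ' δ' n} := by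
    ext a
    simp only [mem_iInter]
    rfl
  rw [this]
  refine isClosed_iInter fun γ => isClosed_iInter fun δ => isClosed_iInter fun γ' =>
    isClosed_iInter fun δ' => isClosed_iInter fun n => ?_
  have hcont : Continuous (fun a : (ℕ → ℕ) → Bool => ((a γ, a δ), (a γ', a δ'))) := by fun_prop
  have : {a : (ℕ → ℕ) → Bool | a γ = true → a δ = true →
        a γ' = true → a δ' = true → fd γ δ n → γ' ≠ δ' → fd γ' δ' n} =
      (fun a : (ℕ → ℕ) → Bool => ((a γ, a δ), (a γ', a δ'))) ⁻¹'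
        {b | b.1.1 = true → b.1.2 = true → b.2.1 = true → b.2.2 = true → fd γ δ n → γ' ≠ δ' →
          fd γ' δ' n} := rfl
  rw [this]
  exact (isClosed_discrete _).preimage hcont

lemma isCompact_TF : IsCompact TF := isClosed_TF.isCompact

/-- restricted injectivity at one coordinate -/
lemma TF_inj {a : (ℕ → ℕ) → Bool} (ha : a ∈ TF) :
    ∃ n : ℕ, ∀ γ δ : ℕ → ℕ, a γ = true → a δ = true → γ n = δ n → γ = δ := by
  by_cases h : ∃ γ δ : ℕ → ℕ, a γ = true ∧ a δ = true ∧ γ ≠ δ
  · obtain ⟨γ, δ, h1, h2, h3⟩ := h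
    obtain ⟨n, hn⟩ := exists_fd h3
    refine ⟨n, fun γ' δ' h1' h2' h3' => ?_⟩
    by_contra hne
    exact (ha γ δ γ' δ' n h1 h2 h1' h2' hn hne).2 h3'
  · push Not at h
    exact ⟨0, fun γ δ h1 h2 _ => h γ δ h1 h2⟩

lemma TF_of_subset {a b : (ℕ → ℕ) → Bool} (ha : a ∈ TF) (h : ∀ γ, b γ = true → a γ = true) :
    b ∈ TF := fun γ δ γ' δ' n h1 h2 h3 h4 => ha γ δ γ' δ' n (h γ h1) (h δ h2) (h γ' h3) (h δ' h4)

/-- a sequence with common initial segment and distinct next values -/
lemma TF_seq {g : ℕ → ℕ → ℕ} {n : ℕ} (h1 : ∀ k l, ∀ i < n, g k i = g l i)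
    (h2 : Function.Injective fun k => g k n) (a : (ℕ → ℕ) → Bool)
    (ha : ∀ γ, a γ = true → ∃ k, g k = γ) : a ∈ TF := by
  intro γ δ γ' δ' m hγ hδ hγ' hδ' hfd hne
  obtain ⟨k, rfl⟩ := ha γ hγ
  obtain ⟨l, rfl⟩ := ha δ hδ
  obtain ⟨k', rfl⟩ := ha γ' hγ'
  obtain ⟨l', rfl⟩ := ha δ' hδ'
  have hkl : k ≠ l := by
    rintro rfl
    exact hfd.2 rfl
  have hkl' : k' ≠ l' := by
    rintro rfl
    exact hne rfl
  have hn : fd (g k) (g l) n := ⟨h1 k l, fun h => hkl (h2 h)⟩
  have hnm : n = m := fd_unique hn hfd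
  subst hnm
  exact ⟨h1 k' l', fun h => hkl' (h2 h)⟩

/-- Diagonalisation: `ω^ω` is not a countable union of sets all of whose trees are finitely
branching. -/
lemma diag (G : ℕ → Set (ℕ → ℕ))
    (hG : ∀ m n : ℕ, ∀ u : ℕ → ℕ, {v : ℕ | ∃ δ ∈ G m, (∀ i < n, δ i = u i) ∧ δ n = v}.Finite) :
    ∃ γ : ℕ → ℕ, ∀ m, γ ∉ G m := by
  classical
  have hc : ∀ (n : ℕ) (u : ℕ → ℕ), ∃ v : ℕ,
      v ∉ {v : ℕ | ∃ δ ∈ G n, (∀ i < n, δ i = u i) ∧ δ n = v} := fun n u =>
    (hG n n u).exists_notMem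
  choose c hc using hc
  let γ : ℕ → ℕ := fun n => Nat.strongRecOn (motive := fun _ => ℕ) n
    (fun n ih => c n (fun i => if h : i < n then ih i h else 0))
  have hγ : ∀ n, γ n = c n (fun i => if i < n then γ i else 0) := by
    intro n
    change Nat.strongRecOn (motive := fun _ => ℕ) n _ = _
    rw [Nat.strongRecOn_eq]
    congr 1
  refine ⟨γ, fun n hn => ?_⟩
  apply hc n (fun i => if i < n then γ i else 0)
  refine ⟨γ, hn, fun i hi => by simp [hi], hγ n⟩

/-- A compact set of `Bool`-valued functions containing `TF`-like family is not Eberlein. -/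
theorem not_eberlein {E : Type} [NormedAddCommGroup E] [NormedSpace ℝ E]
    (j : TF → WeakSpace ℝ E) (hj : Continuous j) (hinj : Function.Injective j) : False := by
  classical
  haveI : CompactSpace TF := isCompact_iff_compactSpace.1 isCompact_TF
  -- evaluation
  have hev : ∀ φ : StrongDual ℝ E, Continuous fun t : TF => φ (j t) := by
    intro φ
    exact (WeakBilin.eval_continuous (topDualPairing ℝ E).flip φ).comp hj
  -- the sets
  let G : ℕ → Set (ℕ → ℕ) := fun m => {γ | ∃ φ : ℕ → StrongDual ℝ E, (∀ i, ‖φ i‖ ≤ m) ∧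
    ∀ t t' : TF, t.1 γ = true → t'.1 γ = false →
      1 ≤ ∑ i ∈ Finset.range m, |φ i (j t) - φ i (j t')|}
  have hcover : ∀ γ : ℕ → ℕ, ∃ m, γ ∈ G m := by
    intro γ
    have hK : IsCompact {p : TF × TF | p.1.1 γ = true ∧ p.2.1 γ = false} := by
      apply IsClosed.isCompact
      have hc : Continuous fun p : TF × TF => (p.1.1 γ, p.2.1 γ) := by
        have h1 : Continuous fun t : TF => t.1 γ := (continuous_apply γ).comp continuous_subtype_val
        exact (h1.comp continuous_fst).prodMk (h1.comp continuous_snd)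
      have : {p : TF × TF | p.1.1 γ = true ∧ p.2.1 γ = false} =
          (fun p : TF × TF => (p.1.1 γ, p.2.1 γ)) ⁻¹' {b | b.1 = true ∧ b.2 = false} := rfl
      rw [this]
      exact (isClosed_discrete _).preimage hc
    obtain ⟨F, hF⟩ := hK.elim_finite_subcover
      (fun φ : StrongDual ℝ E => {p : TF × TF | 1 < |φ (j p.1) - φ (j p.2)|})
      (fun φ => isOpen_lt continuous_const
        ((((hev φ).comp continuous_fst).sub ((hev φ).comp continuous_snd)).abs))
      (by
        rintro ⟨t, t'⟩ ⟨h1, h2⟩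
        have hne : j t ≠ j t' := by
          intro h
          have := hinj h
          rw [this] at h1
          rw [h1] at h2
          exact absurd h2 (by decide)
        obtain ⟨φ, hφ⟩ := SeparatingDual.exists_separating_of_ne (R := ℝ) (V := E)
          (x := (j t : E)) (y := (j t' : E)) hne
        rw [mem_iUnion]
        have hpos : 0 < |φ (j t) - φ (j t')| := abs_pos.2 (sub_ne_zero.2 hφ)
        refine ⟨(2 / |φ (j t) - φ (j t')|) • φ, ?_⟩
        change 1 < |((2 / |φ (j t) - φ (j t')|) • φ) (j t) - ((2 / |φ (j t) - φ (j t')|) • φ) (j t')|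
        have : ((2 / |φ (j t) - φ (j t')|) • φ) (j t) - ((2 / |φ (j t) - φ (j t')|) • φ) (j t') =
            (2 / |φ (j t) - φ (j t')|) * (φ (j t) - φ (j t')) := by
          change (2 / |φ (j t) - φ (j t')|) * φ (j t) - (2 / |φ (j t) - φ (j t')|) * φ (j t') = _
          ring
        rw [this, abs_mul, abs_of_pos (by positivity), div_mul_cancel₀ _ hpos.ne']
        norm_num)
    obtain ⟨M, hM⟩ : ∃ M : ℕ, ∀ φ ∈ F, ‖φ‖ ≤ M := by
      refine ⟨F.sup fun φ => ⌈‖φ‖⌉₊, fun φ hφ => ?_⟩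
      exact (Nat.le_ceil _).trans (by exact_mod_cast Finset.le_sup (f := fun φ => ⌈‖φ‖⌉₊) hφ)
    refine ⟨max M F.card, fun i => F.toList.getD i 0, fun i => ?_, ?_⟩
    · change ‖F.toList.getD i 0‖ ≤ ((max M F.card : ℕ) : ℝ)
      by_cases hi : i < F.toList.length
      · rw [List.getD_eq_getElem _ _ hi]
        refine (hM _ (Finset.mem_toList.1 (List.getElem_mem hi))).trans ?_
        exact_mod_cast le_max_left _ _
      · rw [List.getD_eq_default _ _ (not_lt.1 hi), norm_zero]
        positivity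
    · intro t t' h1 h2
      have := hF (show (t, t') ∈ {p : TF × TF | p.1.1 γ = true ∧ p.2.1 γ = false} from ⟨h1, h2⟩)
      simp only [mem_iUnion] at this
      obtain ⟨φ, hφF, hφ⟩ := this
      obtain ⟨i, hi, hiφ⟩ := List.getElem_of_mem (Finset.mem_toList.2 hφF)
      have hi' : i ∈ Finset.range (max M F.card) := by
        rw [Finset.mem_range]
        rw [Finset.length_toList] at hi
        exact lt_max_of_lt_right hi
      refine le_trans ?_ (Finset.single_le_sum (f := fun i => |F.toList.getD i 0 (j t) - F.toList.getD i 0 (j t')|) (fun _ _ => abs_nonneg _) hi')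
      change (1 : ℝ) ≤ |F.toList.getD i 0 (j t) - F.toList.getD i 0 (j t')|
      rw [List.getD_eq_getElem _ _ hi, hiφ]
      exact le_of_lt hφ
  obtain ⟨γ, hγ⟩ := diag G (by
    intro m n u
    by_contra hinf
    have hinf' : {v : ℕ | ∃ δ ∈ G m, (∀ i < n, δ i = u i) ∧ δ n = v}.Infinite := hinf
    let v := hinf'.natEmbedding
    have hv : ∀ k, ∃ δ ∈ G m, (∀ i < n, δ i = u i) ∧ δ n = (v k : ℕ) := fun k => (v k).2
    choose g hgG hgu hgn using hv
    have h2 : Function.Injective fun k => g k n := by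
      intro k l hkl
      have : (v k : ℕ) = v l := by rw [← hgn k, ← hgn l]; exact hkl
      exact v.injective (Subtype.ext this)
    have h1 : ∀ k l, ∀ i < n, g k i = g l i := fun k l i hi => by rw [hgu k i hi, hgu l i hi]
    choose φ hφn hφ using hgG
    -- elements of TF
    let A : TF := ⟨fun γ => decide (∃ k, g k = γ), TF_seq h1 h2 _ (fun γ h => of_decide_eq_true h)⟩
    let B : ℕ → TF := fun N => ⟨fun γ => decide (∃ k < N, g k = γ), TF_seq h1 h2 _
      (fun γ h => by obtain ⟨k, _, hk⟩ := of_decide_eq_true h; exact ⟨k, hk⟩)⟩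
    have hBA : Tendsto B atTop (𝓝 A) := by
      rw [tendsto_subtype_rng, tendsto_pi_nhds]
      intro γ
      apply tendsto_const_nhds.congr'
      by_cases h : ∃ k, g k = γ
      · obtain ⟨k, hk⟩ := h
        filter_upwards [eventually_gt_atTop k] with N hN
        change decide (∃ k, g k = γ) = decide (∃ k < N, g k = γ)
        rw [decide_eq_true (show ∃ k, g k = γ from ⟨k, hk⟩),
          decide_eq_true (show ∃ k < N, g k = γ from ⟨k, hN, hk⟩)]
      · filter_upwards with N
        change decide (∃ k, g k = γ) = decide (∃ k < N, g k = γ)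
        rw [decide_eq_false h, decide_eq_false (fun ⟨k, _, hk⟩ => h ⟨k, hk⟩)]
    -- limits of functionals
    have hψ : ∀ i, ∃ ψ : E → ℝ, (∃ Ψ : StrongDual ℝ E, ∀ x, Ψ x = ψ x) ∧ ∀ x : E,
        Tendsto (fun k => φ k i x) (hyperfilter ℕ) (𝓝 (ψ x)) := by
      intro i
      have hcomp := WeakDual.isCompact_closedBall (𝕜 := ℝ) (E := E) 0 (m : ℝ)
      obtain ⟨Ψ, -, hΨ⟩ := hcomp.ultrafilter_le_nhds
        ((hyperfilter ℕ).map (fun k => StrongDual.toWeakDual (φ k i))) (by
          rw [le_principal_iff]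
          refine mem_map.2 (Filter.Eventually.of_forall fun k => ?_)
          simpa using hφn k i)
      refine ⟨fun x => Ψ x, ⟨WeakDual.toStrongDual Ψ, fun x => rfl⟩, fun x => ?_⟩
      have h3 : Tendsto (fun k => StrongDual.toWeakDual (φ k i)) (hyperfilter ℕ) (𝓝 Ψ) := hΨ
      exact ((WeakDual.eval_continuous x).tendsto Ψ).comp h3
    choose ψ hψc hψt using hψ
    have hlim1 : ∀ N, 1 ≤ ∑ i ∈ Finset.range m, |ψ i (j A) - ψ i (j (B N))| := by
      intro N
      have ht : Tendsto (fun k => ∑ i ∈ Finset.range m, |φ k i (j A) - φ k i (j (B N))|)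
          (hyperfilter ℕ) (𝓝 (∑ i ∈ Finset.range m, |ψ i (j A) - ψ i (j (B N))|)) :=
        tendsto_finsetSum _ fun i _ => ((hψt i _).sub (hψt i _)).abs
      refine ge_of_tendsto ht ?_
      have : ∀ᶠ k in (hyperfilter ℕ : Filter ℕ), N ≤ k :=
        Nat.hyperfilter_le_atTop (eventually_ge_atTop N)
      filter_upwards [this] with k hk
      apply hφ k A (B N)
      · exact decide_eq_true ⟨k, rfl⟩
      · refine decide_eq_false ?_
        rintro ⟨l, hl, hlk⟩
        have : l = k := h2 (by change g l n = g k n; rw [hlk])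
        omega
    have hlim2 : Tendsto (fun N => ∑ i ∈ Finset.range m, |ψ i (j A) - ψ i (j (B N))|) atTop
        (𝓝 (∑ i ∈ Finset.range m, |ψ i (j A) - ψ i (j A)|)) := by
      refine tendsto_finsetSum _ fun i _ => ?_
      obtain ⟨Ψ, hΨ⟩ := hψc i
      have h4 : Tendsto (fun N => ψ i (j (B N))) atTop (𝓝 (ψ i (j A))) := by
        have := ((hev Ψ).tendsto A).comp hBA
        have h5 : ((fun t : TF => Ψ (j t)) ∘ B) = fun N => ψ i (j (B N)) := by
          funext N
          exact hΨ _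
        rw [h5, show Ψ (j A) = ψ i (j A) from hΨ _] at this
        exact this
      exact (tendsto_const_nhds.sub h4).abs
    have : (1 : ℝ) ≤ ∑ i ∈ Finset.range m, |ψ i (j A) - ψ i (j A)| :=
      ge_of_tendsto hlim2 (Filter.Eventually.of_forall hlim1)
    simp at this
    linarith)
  obtain ⟨m, hm⟩ := hcover γ
  exact hγ m hm

end Pool.Agent.Helpers29.Hech
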