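import Mathlib

set_option autoImplicit false

namespace Pool.Agent.Helpers29.Hn

open Filter Finset Chebyshev

theorem block : ∃ W : ℝ, 4 ≤ W ∧ ∀ w : ℝ, W ≤ w → w ≤ theta (4 * w) - theta w := by
  have h1 := (isLittleO_log_rpow_atTop (show (0:ℝ) < 1 / 2 by norm_num)).def
    (show (0:ℝ) < 1 / 40 by norm_num)
  obtain ⟨W0, hW0⟩ := Filter.eventually_atTop.mp h1
  refine ⟨max W0 4, le_max_right _ _, fun w hw => ?_⟩
  have hw0 : W0 ≤ w := (le_max_left _ _).trans hw
  have hw4 : 4 ≤ w := (le_max_right _ _).trans hw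
  have hl := hW0 w hw0
  have hlog0 : 0 ≤ Real.log w := Real.log_nonneg (by linarith)
  rw [Real.norm_of_nonneg hlog0, Real.norm_of_nonneg (by positivity), ← Real.sqrt_eq_rpow] at hl
  have hs1 : 1 ≤ Real.sqrt w := by
    rw [Real.one_le_sqrt]; linarith
  have hsq : Real.sqrt w * Real.sqrt w = w := Real.mul_self_sqrt (by linarith)
  have h2 := theta_ge' (x := 4 * w) (by linarith)
  have h3 := theta_le_log4_mul_x (x := w) (by linarith)
  have h4 : Real.log 4 = 2 * Real.log 2 := by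
    rw [show (4:ℝ) = 2 ^ 2 by norm_num, Real.log_pow]; norm_num
  have h5 : Real.log (4 * w) ≤ 2 * Real.log w := by
    have : Real.log (4 * w) ≤ Real.log (w ^ 2) := by
      apply Real.log_le_log (by linarith)
      nlinarith
    rw [Real.log_pow] at this
    exact_mod_cast this
  have h6 : Real.log (4 * w + 2) ≤ 4 * Real.log w := by
    have : Real.log (4 * w + 2) ≤ Real.log (w ^ 4) := by
      apply Real.log_le_log (by linarith)
      nlinarith [sq_nonneg (w ^ 2 - 16), mul_nonneg (by linarith : (0:ℝ) ≤ w - 4) (by positivity : (0:ℝ) ≤ w ^ 3),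
        mul_nonneg (by linarith : (0:ℝ) ≤ w - 4) (by positivity : (0:ℝ) ≤ w ^ 2),
        mul_nonneg (by linarith : (0:ℝ) ≤ w - 4) (by positivity : (0:ℝ) ≤ w)]
    rw [Real.log_pow] at this
    exact_mod_cast this
  have h7 : Real.log 2 ≤ Real.log w := Real.log_le_log (by norm_num) (by linarith)
  have h8 : Real.sqrt (4 * w) = 2 * Real.sqrt w := by
    rw [Real.sqrt_mul (by norm_num), show (4:ℝ) = 2 ^ 2 by norm_num, Real.sqrt_sq (by norm_num)]
  have h9 := Real.log_two_gt_d9
  rw [h8] at h2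
  rw [h4] at h3
  have h10 : 2 * (2 * Real.sqrt w) * Real.log (4 * w) ≤ 8 * (Real.sqrt w * Real.log w) := by
    have := mul_le_mul_of_nonneg_left h5 (by positivity : (0:ℝ) ≤ 2 * (2 * Real.sqrt w))
    linarith
  have h11 : Real.log w ≤ Real.sqrt w * Real.log w := by
    have := mul_le_mul_of_nonneg_right hs1 hlog0
    linarith
  have h12 : Real.sqrt w * Real.log w ≤ 1 / 40 * w := by
    have := mul_le_mul_of_nonneg_left hl (by positivity : (0:ℝ) ≤ Real.sqrt w)
    nlinarith
  nlinarith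

/-- partial sums of the reciprocals of the primes -/
noncomputable def R (x : ℝ) : ℝ := ∑ p ∈ (Finset.Ioc 0 ⌊x⌋₊).filter Nat.Prime, (1:ℝ) / p

theorem R_sub (w x : ℝ) (h : w ≤ x) :
    R x - R w = ∑ p ∈ (Finset.Ioc ⌊w⌋₊ ⌊x⌋₊).filter Nat.Prime, (1:ℝ) / p := by
  unfold R
  rw [Finset.sum_filter, Finset.sum_filter, Finset.sum_filter,
    ← Finset.sum_Ioc_consecutive _ (Nat.zero_le ⌊w⌋₊) (Nat.floor_le_floor h)]
  ring

theorem theta_sub (w x : ℝ) (h : w ≤ x) :
    theta x - theta w = ∑ p ∈ (Finset.Ioc ⌊w⌋₊ ⌊x⌋₊).filter Nat.Prime, Real.log p := by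
  unfold theta
  rw [Finset.sum_filter, Finset.sum_filter, Finset.sum_filter,
    ← Finset.sum_Ioc_consecutive _ (Nat.zero_le ⌊w⌋₊) (Nat.floor_le_floor h)]
  ring

theorem R_block (w : ℝ) (hw : 1 ≤ w) :
    theta (4 * w) - theta w ≤ 4 * w * Real.log (4 * w) * (R (4 * w) - R w) := by
  rw [R_sub w (4 * w) (by linarith), theta_sub w (4 * w) (by linarith), Finset.mul_sum]
  apply Finset.sum_le_sum
  intro p hp
  rw [Finset.mem_filter, Finset.mem_Ioc] at hp
  have hp0 : (0:ℝ) < p := by exact_mod_cast hp.2.pos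
  have hp1 : (1:ℝ) ≤ p := by exact_mod_cast hp.2.one_lt.le
  have hple : (p:ℝ) ≤ 4 * w := (Nat.le_floor_iff (by linarith)).mp hp.1.2
  have hl : Real.log p ≤ Real.log (4 * w) := Real.log_le_log hp0 hple
  have hl0 : 0 ≤ Real.log p := Real.log_nonneg hp1
  rw [mul_one_div, le_div_iff₀ hp0]
  have := mul_le_mul hl hple hp0.le (hl0.trans hl)
  linarith

theorem tele (W : ℝ) (hW : 4 ≤ W) (hb : ∀ w : ℝ, W ≤ w → w ≤ theta (4 * w) - theta w)
    (v : ℝ) (J : ℕ) (hJ : W ≤ v / 4 ^ J) : (J : ℝ) / (4 * Real.log v) ≤ R v - R (v / 4 ^ J) := by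
  induction J with
  | zero => simp
  | succ J ih =>
    set w : ℝ := v / 4 ^ (J + 1) with hw
    have e : v / 4 ^ J = 4 * w := by rw [hw, pow_succ]; field_simp
    have hw4 : W ≤ v / 4 ^ J := by rw [e]; linarith
    have h1 := ih hw4
    rw [e] at h1
    have h2 := (hb w hJ).trans (R_block w (by linarith))
    have hv : 4 * w ≤ v := by
      rw [← e]
      apply div_le_self
      · have hpos : 0 < v / 4 ^ J := by linarith
        have := mul_pos hpos (by positivity : (0:ℝ) < 4 ^ J)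
        rw [div_mul_cancel₀ _ (by positivity)] at this
        exact this.le
      · exact one_le_pow₀ (by norm_num)
    have hlv : Real.log (4 * w) ≤ Real.log v := Real.log_le_log (by linarith) hv
    have hlw : 0 < Real.log (4 * w) := Real.log_pos (by linarith)
    have hlv0 : 0 < Real.log v := hlw.trans_le hlv
    have hw0 : 0 < w := by linarith
    have h3 : 1 / (4 * Real.log v) ≤ R (4 * w) - R w := by
      rw [div_le_iff₀ (by positivity)]
      have hR : 0 ≤ R (4 * w) - R w := by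
        by_contra hneg
        push Not at hneg
        have : 4 * w * Real.log (4 * w) * (R (4 * w) - R w) < 0 :=
          mul_neg_of_pos_of_neg (by positivity) hneg
        linarith
      have h5 : 1 ≤ 4 * Real.log (4 * w) * (R (4 * w) - R w) := by
        have h6 : w * 1 ≤ w * (4 * Real.log (4 * w) * (R (4 * w) - R w)) := by
          rw [mul_one]
          calc w ≤ 4 * w * Real.log (4 * w) * (R (4 * w) - R w) := h2
            _ = w * (4 * Real.log (4 * w) * (R (4 * w) - R w)) := by ring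
        exact le_of_mul_le_mul_left h6 hw0
      have h7 := mul_le_mul_of_nonneg_right hlv hR
      nlinarith
    push_cast
    have : ((J : ℝ) + 1) / (4 * Real.log v) = J / (4 * Real.log v) + 1 / (4 * Real.log v) := by ring
    rw [this]
    linarith

theorem mert (u : ℕ) (hu : 1 ≤ u) : ∃ c : ℝ, 0 < c ∧ ∃ V0 : ℕ, ∀ v : ℕ, V0 ≤ v →
    c ≤ ∑ p ∈ (Finset.Icc 1 v).filter (fun p => p.Prime ∧ v ^ (u-1) < p ^ u), (1:ℝ)/p := by
  rcases Nat.lt_or_ge u 2 with hu2 | hu2
  · have hu1 : u = 1 := by omega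
    subst hu1
    refine ⟨1 / 2, by norm_num, 2, fun v hv => ?_⟩
    have hmem : 2 ∈ (Finset.Icc 1 v).filter (fun p => p.Prime ∧ v ^ (1-1) < p ^ 1) := by
      rw [Finset.mem_filter, Finset.mem_Icc]
      exact ⟨⟨by norm_num, hv⟩, Nat.prime_two, by norm_num⟩
    have := Finset.single_le_sum (f := fun p : ℕ => (1:ℝ)/p) (fun p _ => by positivity) hmem
    simpa using this
  · obtain ⟨W, hW4, hb⟩ := block
    have hl4 : 0 < Real.log 4 := Real.log_pos (by norm_num)
    refine ⟨1 / (8 * u * Real.log 4), by positivity, max (4 ^ u) (⌈W ^ 2⌉₊ + 1), fun v hv => ?_⟩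
    have hv1 : 4 ^ u ≤ v := (le_max_left _ _).trans hv
    have hv2 : ⌈W ^ 2⌉₊ + 1 ≤ v := (le_max_right _ _).trans hv
    have hv3 : W ^ 2 ≤ v := by
      have h1 : W ^ 2 ≤ (⌈W ^ 2⌉₊ : ℝ) := Nat.le_ceil _
      have h2 : ((⌈W ^ 2⌉₊ + 1 : ℕ) : ℝ) ≤ v := by exact_mod_cast hv2
      push_cast at h2
      linarith
    have hb1 : 1 < 4 ^ u := Nat.one_lt_pow (by omega) (by norm_num)
    set J := Nat.log (4 ^ u) v with hJ
    have hv0 : v ≠ 0 := by
      have : 0 < 4 ^ u := by positivity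
      omega
    have hJ1 : (4 ^ u) ^ J ≤ v := Nat.pow_log_le_self _ hv0
    have hJ2 : v < (4 ^ u) ^ (J + 1) := Nat.lt_pow_succ_log_self hb1 v
    have hJ3 : 1 ≤ J := Nat.log_pos hb1 hv1
    have hvR : (0:ℝ) < v := by exact_mod_cast Nat.pos_of_ne_zero hv0
    have hJ1' : ((4:ℝ) ^ J) ^ u ≤ v := by
      have : (((4 ^ u) ^ J : ℕ) : ℝ) ≤ v := by exact_mod_cast hJ1
      push_cast at this
      rw [← pow_mul, mul_comm, pow_mul] at this
      exact this
    have h4J : (1:ℝ) ≤ 4 ^ J := one_le_pow₀ (by norm_num)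
    have hsq : ((4:ℝ) ^ J) ^ 2 ≤ v := (pow_le_pow_right₀ h4J hu2).trans hJ1'
    have hWJ : W ≤ (v:ℝ) / 4 ^ J := by
      rw [le_div_iff₀ (by positivity)]
      have h1 : (W * 4 ^ J) ^ 2 ≤ (v:ℝ) ^ 2 := by
        rw [mul_pow]
        calc W ^ 2 * (4 ^ J) ^ 2 ≤ v * v := mul_le_mul hv3 hsq (by positivity) hvR.le
          _ = (v:ℝ) ^ 2 := by ring
      exact le_of_sq_le_sq h1 hvR.le |> fun h => h
    have ht := tele W hW4 hb v J hWJ
    have hlv : 0 < Real.log v := Real.log_pos (by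
      have : (1:ℕ) < v := lt_of_lt_of_le hb1 hv1
      exact_mod_cast this)
    have hlog : Real.log v ≤ (J + 1) * u * Real.log 4 := by
      have h1 : (v:ℝ) ≤ (4:ℝ) ^ (u * (J + 1)) := by
        have : (v:ℝ) ≤ (((4 ^ u) ^ (J + 1) : ℕ) : ℝ) := by exact_mod_cast hJ2.le
        push_cast at this
        rwa [← pow_mul] at this
      have h2 := Real.log_le_log hvR h1
      rw [Real.log_pow] at h2
      push_cast at h2
      linarith
    have hJr : (1:ℝ) ≤ J := by exact_mod_cast hJ3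
    have huR : (0:ℝ) < u := by exact_mod_cast (by omega : 0 < u)
    have hc : 1 / (8 * u * Real.log 4) ≤ (J : ℝ) / (4 * Real.log v) := by
      rw [div_le_div_iff₀ (by positivity) (by positivity)]
      have h1 : Real.log v ≤ 2 * J * u * Real.log 4 := by
        refine hlog.trans ?_
        have h2 : 0 < u * Real.log 4 := by positivity
        nlinarith
      linarith
    refine hc.trans (ht.trans ?_)
    rw [R_sub _ _ (div_le_self hvR.le h4J)]
    apply Finset.sum_le_sum_of_subset_of_nonneg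
    · intro p hp
      rw [Finset.mem_filter, Finset.mem_Ioc, Nat.floor_natCast] at hp
      rw [Finset.mem_filter, Finset.mem_Icc]
      refine ⟨⟨hp.2.one_lt.le, hp.1.2⟩, hp.2, ?_⟩
      have h1 : (v:ℝ) / 4 ^ J < p := by
        have := (Nat.floor_lt (by positivity)).mp hp.1.1
        exact this
      have h2 : ((v:ℝ) / 4 ^ J) ^ u < (p:ℝ) ^ u :=
        pow_lt_pow_left₀ h1 (by positivity) (by omega)
      have h3 : (v:ℝ) ^ (u - 1) ≤ ((v:ℝ) / 4 ^ J) ^ u := by
        rw [div_pow, le_div_iff₀ (by positivity)]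
        calc (v:ℝ) ^ (u - 1) * (4 ^ J) ^ u ≤ (v:ℝ) ^ (u - 1) * v :=
              mul_le_mul_of_nonneg_left hJ1' (by positivity)
          _ = (v:ℝ) ^ u := by rw [← pow_succ]; congr 1; omega
      have h4 := lt_of_le_of_lt h3 h2
      exact_mod_cast h4
    · intro p _ _
      positivity

end Pool.Agent.Helpers29.Hn
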