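import Mathlib

set_option autoImplicit false

namespace Pool.Agent.Helpers29.Hn

open Finset

open Classical in
/-- PART B -/
theorem smooth_count (hA : ∀ u : ℕ, 1 ≤ u → ∃ c : ℝ, 0 < c ∧ ∃ V0 : ℕ, ∀ v : ℕ, V0 ≤ v →
      c ≤ ∑ p ∈ (Finset.Icc 1 v).filter (fun p => p.Prime ∧ v ^ (u-1) < p ^ u), (1:ℝ)/p)
    (u : ℕ) (hu : 2 ≤ u) : ∃ c : ℝ, 0 < c ∧ ∃ V0 : ℕ, ∀ v : ℕ, V0 ≤ v →
      c * (v:ℝ)^u ≤
        (((Finset.Icc 1 (v^u)).filter (fun a => ∀ p, p.Prime → p ∣ a → p ≤ v)).card : ℝ) := by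
  classical
  obtain ⟨c, hc, V0, hV⟩ := hA u (by omega)
  refine ⟨c ^ u / (2 * (2 * u) ^ u), by positivity, max V0 2, fun v hv => ?_⟩
  have hv2 : 2 ≤ v := (le_max_right _ _).trans hv
  have hsum := hV v ((le_max_left _ _).trans hv)
  set P := (Finset.Icc 1 v).filter (fun p => p.Prime ∧ v ^ (u-1) < p ^ u) with hP
  set S := (Finset.Icc 1 (v^u)).filter (fun a => ∀ p, p.Prime → p ∣ a → p ≤ v) with hS
  have hPp : ∀ p ∈ P, p.Prime ∧ p ≤ v ∧ v ^ (u-1) < p ^ u := by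
    intro p hp
    rw [hP, mem_filter, mem_Icc] at hp
    exact ⟨hp.2.1, hp.1.2, hp.2.2⟩
  set T : Finset (Fin u → ℕ) := Fintype.piFinset (fun _ => P) with hT
  have hTm : ∀ t ∈ T, ∀ i, t i ∈ P := fun t ht i => Fintype.mem_piFinset.1 ht i
  have hprodpos : ∀ t ∈ T, 0 < ∏ i, t i := fun t ht =>
    prod_pos fun i _ => (hPp _ (hTm t ht i)).1.pos
  have hprodle : ∀ t ∈ T, ∏ i, t i ≤ v ^ u := by
    intro t ht
    calc ∏ i, t i ≤ ∏ _i : Fin u, v := prod_le_prod' fun i _ => (hPp _ (hTm t ht i)).2.1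
      _ = v ^ u := by rw [prod_const, card_univ, Fintype.card_fin]
  have hprodge : ∀ t ∈ T, v ^ (u - 1) ≤ ∏ i, t i := by
    intro t ht
    rw [← Nat.pow_le_pow_iff_left (n := u) (by omega), ← prod_pow]
    calc (v ^ (u-1)) ^ u = ∏ _i : Fin u, v ^ (u-1) := by
          rw [prod_const, card_univ, Fintype.card_fin]
      _ ≤ ∏ i, t i ^ u := prod_le_prod' fun i _ => (hPp _ (hTm t ht i)).2.2.le
  set D : Finset (Σ _ : (Fin u → ℕ), ℕ) := T.sigma (fun t => Icc 1 (v ^ u / ∏ i, t i)) with hD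
  have hmaps : ∀ x ∈ D, (∏ i, x.1 i) * x.2 ∈ S := by
    rintro ⟨t, b⟩ hx
    rw [hD, mem_sigma, mem_Icc] at hx
    simp only at hx ⊢
    have hpos := hprodpos t hx.1
    have hb : (∏ i, t i) * b ≤ v ^ u := by
      have := Nat.mul_le_mul_left (∏ i, t i) hx.2.2
      exact this.trans (Nat.mul_div_le _ _)
    rw [hS, mem_filter, mem_Icc]
    refine ⟨⟨Nat.mul_pos hpos hx.2.1, hb⟩, fun q hq hqd => ?_⟩
    rcases (Nat.Prime.dvd_mul hq).1 hqd with h | h
    · obtain ⟨i, _, hi⟩ := (Nat.Prime.prime hq).exists_mem_finset_dvd h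
      have h1 := hPp _ (hTm t hx.1 i)
      exact (Nat.le_of_dvd h1.1.pos hi).trans h1.2.1
    · refine (Nat.le_of_dvd hx.2.1 h).trans (hx.2.2.trans ?_)
      have h1 := hprodge t hx.1
      have hvp : 0 < v ^ (u - 1) := by positivity
      calc v ^ u / ∏ i, t i ≤ v ^ u / v ^ (u - 1) := Nat.div_le_div_left h1 hvp
        _ = v := by
          rw [Nat.pow_div (by omega) (by omega)]
          have : u - (u - 1) = 1 := by omega
          rw [this, pow_one]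
  have hfib : ∀ a ∈ S, (D.filter fun x => (∏ i, x.1 i) * x.2 = a).card ≤ (2 * u) ^ u := by
    intro a ha
    rw [hS, mem_filter, mem_Icc] at ha
    have hPa : (P.filter (· ∣ a)).card ≤ 2 * u := by
      set Q := P.filter (· ∣ a) with hQ
      have hQm : ∀ p ∈ Q, p ∈ P ∧ p ∣ a := fun p hp => mem_filter.1 hp
      have hdvd : ∏ p ∈ Q, p ∣ a := by
        refine Finset.prod_primes_dvd a (fun p hp => ?_) (fun p hp => (hQm p hp).2)
        exact (hPp p (hQm p hp).1).1.prime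
      have hle : ∏ p ∈ Q, p ≤ v ^ u := (Nat.le_of_dvd ha.1.1 hdvd).trans ha.1.2
      have h1 : (v ^ (u-1)) ^ Q.card ≤ (v ^ u) ^ u := by
        calc (v ^ (u-1)) ^ Q.card = ∏ _p ∈ Q, v ^ (u-1) := by rw [prod_const]
          _ ≤ ∏ p ∈ Q, p ^ u := prod_le_prod' fun p hp => (hPp p (hQm p hp).1).2.2.le
          _ = (∏ p ∈ Q, p) ^ u := by rw [prod_pow]
          _ ≤ (v ^ u) ^ u := Nat.pow_le_pow_left hle u
      rw [← pow_mul, ← pow_mul] at h1
      have h2 : (u - 1) * Q.card ≤ u * u := (Nat.pow_le_pow_iff_right (by omega)).1 h1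
      by_contra hcon
      push Not at hcon
      obtain ⟨w, rfl⟩ : ∃ w, u = w + 2 := ⟨u - 2, by omega⟩
      have h3 : w + 2 - 1 = w + 1 := by omega
      rw [h3] at h2
      nlinarith
    have hinj := card_le_card_of_injOn (s := D.filter fun x => (∏ i, x.1 i) * x.2 = a)
      (t := Fintype.piFinset (fun _ : Fin u => P.filter (· ∣ a))) (fun x => x.1) ?_ ?_
    · refine hinj.trans ?_
      rw [Fintype.card_piFinset, prod_const, card_univ, Fintype.card_fin]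
      exact Nat.pow_le_pow_left hPa u
    · rintro ⟨t, b⟩ hx
      rw [mem_coe, mem_filter, hD, mem_sigma] at hx
      rw [mem_coe, Fintype.mem_piFinset]
      intro i
      rw [mem_filter]
      refine ⟨hTm t hx.1.1 i, ?_⟩
      have h1 : t i ∣ ∏ i, t i := dvd_prod_of_mem _ (mem_univ i)
      have h2 := hx.2
      simp only at h2 ⊢
      rw [← h2]
      exact h1.mul_right b
    · rintro ⟨t, b⟩ hx ⟨t', b'⟩ hx' htt
      rw [mem_coe, mem_filter, hD, mem_sigma] at hx hx'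
      simp only at htt
      subst htt
      have h1 := hx.2
      have h2 := hx'.2
      simp only at h1 h2
      have h3 : b = b' := Nat.eq_of_mul_eq_mul_left (hprodpos t hx.1.1) (h1.trans h2.symm)
      rw [h3]
  have hcard := card_le_mul_card_image_of_maps_to hmaps ((2 * u) ^ u) hfib
  have hDcard : (D.card : ℝ) = ∑ t ∈ T, ((v ^ u / ∏ i, t i : ℕ) : ℝ) := by
    rw [hD, card_sigma]
    push_cast
    refine sum_congr rfl fun t _ => ?_
    rw [Nat.card_Icc, Nat.add_sub_cancel]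
  have hhalf : ∀ t ∈ T, (v : ℝ) ^ u / 2 * ∏ i, (1 / (t i : ℝ)) ≤
      ((v ^ u / ∏ i, t i : ℕ) : ℝ) := by
    intro t ht
    have hpos := hprodpos t ht
    have h1 : 1 ≤ v ^ u / ∏ i, t i := (Nat.one_le_div_iff hpos).2 (hprodle t ht)
    have h2 : v ^ u < (∏ i, t i) * (v ^ u / (∏ i, t i) + 1) := Nat.lt_mul_div_succ _ hpos
    have h3 : ((v ^ u : ℕ) : ℝ) ≤ ((∏ i, t i : ℕ) : ℝ) * (2 * ((v ^ u / ∏ i, t i : ℕ) : ℝ)) := by
      have : v ^ u ≤ (∏ i, t i) * (2 * (v ^ u / ∏ i, t i)) := by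
        refine h2.le.trans (Nat.mul_le_mul_left _ ?_)
        omega
      exact_mod_cast this
    have hposR : (0 : ℝ) < ((∏ i, t i : ℕ) : ℝ) := by exact_mod_cast hpos
    have h4 : ∏ i, (1 / (t i : ℝ)) = 1 / ((∏ i, t i : ℕ) : ℝ) := by
      push_cast
      rw [prod_div_distrib, prod_const_one]
    rw [h4, mul_one_div, div_le_iff₀ hposR]
    push_cast at h3 ⊢
    linarith
  have hDge : (v : ℝ) ^ u / 2 * c ^ u ≤ D.card := by
    rw [hDcard]
    calc (v : ℝ) ^ u / 2 * c ^ u ≤ (v : ℝ) ^ u / 2 * (∑ p ∈ P, (1:ℝ)/p) ^ u := by gcongr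
      _ = (v : ℝ) ^ u / 2 * ∑ t ∈ T, ∏ i, (1 / (t i : ℝ)) := by
          congr 1
          rw [hT, ← prod_univ_sum (fun _ : Fin u => P) (fun _ p => (1:ℝ)/p), prod_const,
            card_univ, Fintype.card_fin]
      _ = ∑ t ∈ T, (v : ℝ) ^ u / 2 * ∏ i, (1 / (t i : ℝ)) := by rw [mul_sum]
      _ ≤ _ := sum_le_sum hhalf
  have hcardR : (D.card : ℝ) ≤ (2 * u) ^ u * S.card := by exact_mod_cast hcard
  have hpos2 : (0 : ℝ) < (2 * u) ^ u := by positivity
  rw [div_mul_eq_mul_div, div_le_iff₀ (by positivity)]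
  nlinarith

end Pool.Agent.Helpers29.Hn
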