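import Mathlib

namespace Pool.Agent.Helpers29.Hn

/-- pairwise distinct primes `> K`, one for each `k ≤ K` -/
theorem primes_seq (K : ℕ) : ∃ p : ℕ → ℕ, (∀ k, (p k).Prime) ∧ (∀ k, K < p k) ∧ Function.Injective p := by
  have hinf : {q : ℕ | q.Prime ∧ K < q}.Infinite := by
    have h1 : {q : ℕ | q.Prime}.Infinite := Nat.infinite_setOf_prime
    have h2 := h1.diff (Set.finite_Iic K)
    refine h2.mono ?_
    intro q hq
    simp only [Set.mem_diff, Set.mem_setOf_eq, Set.mem_Iic, not_le] at hq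
    exact hq
  refine ⟨fun k => Nat.nth (fun q => q.Prime ∧ K < q) k, ?_, ?_, ?_⟩
  · intro k; exact (Nat.nth_mem_of_infinite hinf k).1
  · intro k; exact (Nat.nth_mem_of_infinite hinf k).2
  · exact Nat.nth_injective hinf

theorem compo (K N : ℕ) : ∃ l : ℕ, N < l ∧ l.Prime ∧ ∀ k, 1 ≤ k → k ≤ K → ¬ (k*l+1).Prime := by
  obtain ⟨p, hp, hK, hinj⟩ := primes_seq K
  have hcop : Set.Pairwise (↑(Finset.Icc 1 K) : Set ℕ) (Function.onFun Nat.Coprime p) := by
    intro i _ j _ hij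
    exact (Nat.coprime_primes (hp i) (hp j)).2 (fun h => hij (hinj h))
  have hinv : ∀ k, 1 ≤ k → k ≤ K → ∃ r : ℕ, p k ∣ k * r + 1 := by
    intro k hk1 hk
    have hc : Nat.Coprime k (p k) := by
      rw [Nat.coprime_comm, (hp k).coprime_iff_not_dvd]
      intro h
      have := Nat.le_of_dvd (by omega) h
      have := hK k
      omega
    haveI := Fact.mk (hp k)
    have hne : ((k : ℕ) : ZMod (p k)) ≠ 0 := by
      rw [Ne, ZMod.natCast_eq_zero_iff]
      intro h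
      have := Nat.le_of_dvd (by omega) h
      have := hK k
      omega
    refine ⟨((-(((k : ℕ) : ZMod (p k)))⁻¹).val), ?_⟩
    rw [← ZMod.natCast_eq_zero_iff]
    push_cast
    rw [ZMod.natCast_val, ZMod.cast_id]
    field_simp
    ring
  choose! r hr using hinv
  obtain ⟨x, hx⟩ := Nat.chineseRemainderOfFinset r p (Finset.Icc 1 K) (fun k _ => (hp k).ne_zero) hcop
  set M := ∏ k ∈ Finset.Icc 1 K, p k with hM
  have hxk : ∀ k, 1 ≤ k → k ≤ K → p k ∣ k * x + 1 := by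
    intro k hk1 hk
    have h := hx k (Finset.mem_Icc.2 ⟨hk1, hk⟩)
    have h2 : k * x + 1 ≡ k * r k + 1 [MOD p k] := (h.mul_left k).add_right 1
    exact (h2.dvd_iff dvd_rfl).2 (hr k hk1 hk)
  have hMpos : 0 < M := Finset.prod_pos (fun k _ => (hp k).pos)
  have hcM : Nat.Coprime x M := by
    rw [hM]
    apply Nat.Coprime.prod_right
    intro k hk
    rw [Finset.mem_Icc] at hk
    rw [Nat.coprime_comm, (hp k).coprime_iff_not_dvd]
    intro h
    have h1 := hxk k hk.1 hk.2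
    have h3 : p k ∣ 1 := (Nat.dvd_add_right (h.mul_left k)).1 h1
    exact (hp k).one_lt.ne' (Nat.dvd_one.1 h3)
  haveI : NeZero M := ⟨hMpos.ne'⟩
  obtain ⟨l, hl1, hl2, hl3⟩ := Nat.forall_exists_prime_gt_and_eq_mod (q := M) (a := (x : ZMod M))
    ((ZMod.isUnit_iff_coprime x M).2 hcM) (N + ∑ k ∈ Finset.Icc 1 K, p k)
  refine ⟨l, by omega, hl2, ?_⟩
  intro k hk1 hk hpr
  have hlx : l ≡ x [MOD M] := (ZMod.natCast_eq_natCast_iff _ _ _).1 hl3
  have hpM : p k ∣ M := Finset.dvd_prod_of_mem _ (Finset.mem_Icc.2 ⟨hk1, hk⟩)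
  have hlx2 : l ≡ x [MOD p k] := hlx.of_dvd hpM
  have h2 : k * l + 1 ≡ k * x + 1 [MOD p k] := (hlx2.mul_left k).add_right 1
  have hd : p k ∣ k * l + 1 := (h2.dvd_iff dvd_rfl).2 (hxk k hk1 hk)
  have heq : p k = k * l + 1 := (Nat.prime_dvd_prime_iff_eq (hp k) hpr).1 hd
  have hple : p k ≤ ∑ k ∈ Finset.Icc 1 K, p k :=
    Finset.single_le_sum (f := p) (fun _ _ => Nat.zero_le _) (Finset.mem_Icc.2 ⟨hk1, hk⟩)
  have : l ≤ k * l := Nat.le_mul_of_pos_left l (by omega)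
  omega

end Pool.Agent.Helpers29.Hn
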