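import Mathlib

set_option autoImplicit false

namespace Pool.Agent.Helpers29.Hn

theorem grp {q l : ℕ} (hq : q.Prime) (hl : l.Prime) (h2 : 2 ^ l ≡ 1 [MOD q]) :
    ∃ k, 1 ≤ k ∧ q = k * l + 1 := by
  have : Fact q.Prime := ⟨hq⟩
  have hq2 : q ≠ 2 := by
    rintro rfl
    have h : 2 ^ l % 2 = 1 % 2 := h2
    have h3 : 2 ^ l % 2 = 0 := by
      rw [Nat.pow_mod, Nat.mod_self, Nat.zero_pow hl.pos, Nat.zero_mod]
    omega
  have hz : ((2 : ZMod q)) ^ l = 1 := by
    have := (ZMod.natCast_eq_natCast_iff _ _ _).2 h2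
    push_cast at this
    exact this
  have h20 : (2 : ZMod q) ≠ 0 := by
    intro h
    have h' : ((2 : ℕ) : ZMod q) = 0 := by exact_mod_cast h
    rw [ZMod.natCast_eq_zero_iff] at h'
    exact hq2 ((Nat.prime_dvd_prime_iff_eq hq Nat.prime_two).1 h')
  have hord : orderOf (2 : ZMod q) ∣ l := orderOf_dvd_of_pow_eq_one hz
  have hne1 : orderOf (2 : ZMod q) ≠ 1 := by
    intro h
    rw [orderOf_eq_one_iff] at h
    have : (1 : ZMod q) = 0 := by
      calc (1 : ZMod q) = 2 - 1 := by ring
        _ = 0 := by rw [h]; ring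
    exact one_ne_zero this
  have hordl : orderOf (2 : ZMod q) = l := (hl.eq_one_or_self_of_dvd _ hord).resolve_left hne1
  have hdvd : l ∣ q - 1 := by
    rw [← hordl]
    exact orderOf_dvd_of_pow_eq_one (ZMod.pow_card_sub_one_eq_one h20)
  obtain ⟨k, hk⟩ := hdvd
  have hq1 : 2 ≤ q := hq.two_le
  refine ⟨k, ?_, ?_⟩
  · rcases Nat.eq_zero_or_pos k with h | h
    · subst h; rw [mul_zero] at hk; omega
    · exact h
  · rw [mul_comm k l, ← hk]; omega

theorem cnt {q l : ℕ} (hq : q.Prime) (hl : 0 < l) :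
    ((Finset.Icc 1 (q - 1)).filter (fun a => a ^ l ≡ 1 [MOD q])).card ≤ l := by
  classical
  have : Fact q.Prime := ⟨hq⟩
  have h1 : ((Finset.Icc 1 (q - 1)).filter (fun a => a ^ l ≡ 1 [MOD q])).card ≤
      (Polynomial.nthRootsFinset l (1 : ZMod q)).card := by
    apply Finset.card_le_card_of_injOn (fun a : ℕ => (a : ZMod q))
    · intro a ha
      simp only [Finset.coe_filter, Set.mem_ofPred_eq] at ha
      have h2 := (ZMod.natCast_eq_natCast_iff _ _ _).2 ha.2
      push_cast at h2
      simp only [Finset.mem_coe]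
      rw [Polynomial.mem_nthRootsFinset hl]
      exact h2
    · intro a ha b hb hab
      simp only [Finset.coe_filter, Set.mem_ofPred_eq, Finset.mem_Icc] at ha hb
      have h2 : a ≡ b [MOD q] := (ZMod.natCast_eq_natCast_iff _ _ _).1 hab
      have hq1 := hq.two_le
      exact Nat.ModEq.eq_of_lt_of_lt h2 (by omega) (by omega)
  refine h1.trans ?_
  unfold Polynomial.nthRootsFinset
  exact (@Multiset.toFinset_card_le _ (Classical.decEq _) _).trans (Polynomial.card_nthRoots l 1)

theorem smo {q l m : ℕ} (h : ∀ p, p.Prime → p ≤ m → p ^ l ≡ 1 [MOD q]) {a : ℕ} (ha : 0 < a)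
    (hs : ∀ p, p.Prime → p ∣ a → p ≤ m) : a ^ l ≡ 1 [MOD q] := by
  induction a using Nat.recOnMul with
  | zero => omega
  | one => simp [Nat.ModEq]
  | prime p hp => exact h p hp (hs p hp dvd_rfl)
  | mul a b iha ihb =>
    have ha' : 0 < a := Nat.pos_of_mul_pos_right ha |> fun _ => by
      rcases Nat.eq_zero_or_pos a with h0 | h0
      · subst h0; simp at ha
      · exact h0
    have hb' : 0 < b := by
      rcases Nat.eq_zero_or_pos b with h0 | h0
      · subst h0; simp at ha
      · exact h0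
    have h1 := iha ha' (fun p hp hd => hs p hp (hd.trans (dvd_mul_right a b)))
    have h2 := ihb hb' (fun p hp hd => hs p hp (hd.trans (dvd_mul_left b a)))
    rw [mul_pow]
    exact (h1.mul h2).trans (by simp [Nat.ModEq])

end Pool.Agent.Helpers29.Hn
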