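import Mathlib
import Pool.Agent.Helpers29.HnA
import Pool.Agent.Helpers29.HnB
import Pool.Agent.Helpers29.HnD
import Pool.Agent.Helpers29.HnE
set_option autoImplicit false
namespace Pool.Agent.Helpers29.Hn
open Finset

lemma exists_root (u x : ℕ) (hu : 1 ≤ u) : ∃ w : ℕ, w ^ u ≤ x ∧ x < (w+1)^u := by
  have hex : ∃ w : ℕ, x < (w+1)^u := ⟨x, lt_of_lt_of_le (Nat.lt_succ_self x)
    (Nat.le_self_pow (by omega) _)⟩
  classical
  refine ⟨Nat.find hex, ?_, Nat.find_spec hex⟩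
  by_cases h0 : Nat.find hex = 0
  · rw [h0]; simp [Nat.zero_pow hu]
  · obtain ⟨k, hk⟩ := Nat.exists_eq_succ_of_ne_zero h0
    have := Nat.find_min hex (m := k) (by omega)
    rw [hk]; push Not at this; exact this

theorem main (u : ℕ) (hu : 1 ≤ u) (N : ℕ) : ∃ l : ℕ, N < l ∧ l.Prime ∧ ∃ m : ℕ, 2 < m ∧ m ^ u ≤ l ∧
    (Finset.Icc 2 m).gcd (fun i => i ^ l - 1) = 1 := by
  classical
  obtain ⟨c, hc, V0, hV⟩ := smooth_count mert (2*u) (by omega)
  -- constants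
  obtain ⟨K, hK⟩ := exists_nat_gt (2^(2*u) / c)
  obtain ⟨M1, hM1⟩ := exists_nat_gt (4^(2*u) / c)
  obtain ⟨l, hlN, hlp, hcomp⟩ := compo K (N + (V0+3)^(2*u) + (V0+4)^u + M1)
  refine ⟨l, by omega, hlp, ?_⟩
  obtain ⟨m, hm1, hm2⟩ := exists_root u l hu
  have hmV : V0 + 3 < m + 1 := by
    by_contra hcon
    have : (m+1)^u ≤ (V0+4)^u := Nat.pow_le_pow_left (by omega) _
    omega
  refine ⟨m, by omega, hm1, ?_⟩
  by_contra hg
  obtain ⟨q, hqp, hqd⟩ := Nat.exists_prime_and_dvd hg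
  rw [Finset.dvd_gcd_iff] at hqd
  have hpow : ∀ i, 1 ≤ i → i ≤ m → i ^ l ≡ 1 [MOD q] := by
    intro i hi1 hi2
    by_cases h1 : i = 1
    · subst h1; simp; rfl
    · have h := hqd i (Finset.mem_Icc.2 ⟨by omega, hi2⟩)
      exact ((Nat.modEq_iff_dvd' (Nat.one_le_pow _ _ (by omega))).2 h).symm
  obtain ⟨k, hk1, hqk⟩ := grp hqp hlp (hpow 2 (by norm_num) (by omega))
  have hkK : K < k := by
    by_contra hcon
    exact hcomp k hk1 (by omega) (hqk ▸ hqp)
  have hcard := cnt hqp hlp.pos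
  -- smooth numbers
  have hsmooth : ∀ v : ℕ, v ≤ m → V0 ≤ v → v ^ (2*u) ≤ q - 1 → c * (v:ℝ)^(2*u) ≤ l := by
    intro v hvm hvV hvq
    refine (hV v hvV).trans ?_
    rw [Nat.cast_le]
    refine le_trans (Finset.card_le_card ?_) hcard
    intro a ha
    rw [Finset.mem_filter, Finset.mem_Icc] at ha ⊢
    refine ⟨⟨ha.1.1, ha.1.2.trans hvq⟩, ?_⟩
    exact smo (m := m) (fun p hp hpm => hpow p hp.one_lt.le hpm) (by omega)
      (fun p hp hpa => (ha.2 p hp hpa).trans hvm)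
  have hlpos : (0:ℝ) < l := by exact_mod_cast hlp.pos
  obtain ⟨w, hw1, hw2⟩ := exists_root (2*u) (q-1) (by omega)
  by_cases hwm : w ≤ m
  · have hwV : V0 ≤ w := by
      by_contra hcon
      have h1 : (w+1)^(2*u) ≤ (V0+3)^(2*u) := Nat.pow_le_pow_left (by omega) _
      have h2 : l ≤ k * l := Nat.le_mul_of_pos_left _ (by omega)
      omega
    have h3 := hsmooth w hwm hwV hw1
    have hw0 : 1 ≤ w := by
      by_contra hcon
      have h0 : w = 0 := by omega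
      have h1 : (w+1)^(2*u) = 1 := by rw [h0]; simp
      have h2 : l ≤ k * l := Nat.le_mul_of_pos_left _ (by omega)
      have := hlp.two_le
      omega
    have h4 : ((w:ℝ)+1)^(2*u) ≤ 2^(2*u) * (w:ℝ)^(2*u) := by
      rw [← mul_pow]
      apply pow_le_pow_left₀ (by positivity)
      have : (1:ℝ) ≤ w := by exact_mod_cast hw0
      linarith
    have h5 : ((k:ℝ) * l) < ((w:ℝ)+1)^(2*u) := by
      have : k * l < (w+1)^(2*u) := by omega
      exact_mod_cast this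
    have h6 : (2:ℝ)^(2*u) / c < k := hK.trans (by exact_mod_cast hkK)
    rw [div_lt_iff₀ hc] at h6
    have h7 : (2:ℝ)^(2*u) * l < k * c * l := by
      exact mul_lt_mul_of_pos_right h6 hlpos
    have h8 : c * ((k:ℝ) * l) < c * (2^(2*u) * (w:ℝ)^(2*u)) :=
      mul_lt_mul_of_pos_left (h5.trans_le h4) hc
    have h9 : c * (2^(2*u) * (w:ℝ)^(2*u)) ≤ 2^(2*u) * l := by
      have := mul_le_mul_of_nonneg_left h3 (by positivity : (0:ℝ) ≤ 2^(2*u))
      linarith
    linarith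
  · have hmw : m ≤ w := by omega
    have hmq : m ^ (2*u) ≤ q - 1 := (Nat.pow_le_pow_left hmw _).trans hw1
    have h3 := hsmooth m le_rfl (by omega) hmq
    have hm0 : (1:ℝ) ≤ m := by
      have : 1 ≤ m := by omega
      exact_mod_cast this
    have h4 : (l:ℝ) ≤ 2^u * (m:ℝ)^u := by
      have h5 : (l:ℝ) < ((m:ℝ)+1)^u := by exact_mod_cast hm2
      refine h5.le.trans ?_
      rw [← mul_pow]
      apply pow_le_pow_left₀ (by positivity)
      linarith
    have h5 : (l:ℝ)^2 ≤ 2^(2*u) * (m:ℝ)^(2*u) := by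
      have := pow_le_pow_left₀ hlpos.le h4 2
      calc (l:ℝ)^2 ≤ (2^u * (m:ℝ)^u)^2 := this
        _ = 2^(2*u) * (m:ℝ)^(2*u) := by rw [mul_pow, ← pow_mul, ← pow_mul, mul_comm u 2]
    have h6 : (4:ℝ)^(2*u) / c < l := hM1.trans (by exact_mod_cast (by omega : M1 < l))
    rw [div_lt_iff₀ hc] at h6
    have h7 : (2:ℝ)^(2*u) ≤ 4^(2*u) := pow_le_pow_left₀ (by norm_num) (by norm_num) _
    have h8 : c * (l:ℝ)^2 ≤ 2^(2*u) * l := by
      have h9 := mul_le_mul_of_nonneg_left h5 hc.le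
      have h10 := mul_le_mul_of_nonneg_left h3 (by positivity : (0:ℝ) ≤ 2^(2*u))
      linarith
    have h9 : (2:ℝ)^(2*u) * l < l * c * l := mul_lt_mul_of_pos_right (h7.trans_lt h6) hlpos
    nlinarith
end Pool.Agent.Helpers29.Hn
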