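import Mathlib

set_option autoImplicit false

namespace Pool.Agent.Helpers29.LO

open MeasureTheory FourierTransform SchwartzMap
open scoped ContDiff

/-- Integral Fourier transform, the normalisation of the frozen statement. -/
lemma fourier_pt (F : ℝ → ℂ) (ξ : ℝ) :
    𝓕 F ξ = ∫ x : ℝ, Complex.exp (((-2 * Real.pi * x * ξ : ℝ) : ℂ) * Complex.I) * F x := by
  rw [Real.fourier_real_eq_integral_exp_smul]
  rfl

lemma fubini {F G : ℝ → ℂ} (hF : Integrable F) (hG : Integrable G) :
    ∫ ξ : ℝ, 𝓕 F ξ * G ξ = ∫ x : ℝ, F x * 𝓕 G x := by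
  have h := VectorFourier.integral_fourierIntegral_smul_eq_flip (L := innerₗ ℝ)
    (μ := (volume : Measure ℝ)) (ν := (volume : Measure ℝ)) (e := Real.fourierChar)
    Real.continuous_fourierChar continuous_inner hF hG
  rw [flip_innerₗ] at h
  simpa only [smul_eq_mul] using! h

lemma exists_fourier (F : ℝ → ℂ) (h1 : Integrable F) (h2 : MemLp F 2) :
    ∃ Φ : ℝ → ℂ, MemLp Φ 2 ∧
      (∀ h : SchwartzMap ℝ ℂ,
          ∫ ξ : ℝ, Φ ξ * h ξ =
            ∫ x : ℝ, F x *
              ∫ ξ : ℝ, Complex.exp (((-2 * Real.pi * x * ξ : ℝ) : ℂ) * Complex.I) * h ξ) ∧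
      ∀ᵐ ξ : ℝ, Φ ξ =
        ∫ x : ℝ, Complex.exp (((-2 * Real.pi * x * ξ : ℝ) : ℂ) * Complex.I) * F x := by
  have hw : ∀ h : SchwartzMap ℝ ℂ, ∫ ξ : ℝ, ((𝓕 (h2.toLp F) : Lp ℂ 2 (volume : Measure ℝ)) : ℝ → ℂ) ξ * h ξ =
      ∫ x : ℝ, F x * 𝓕 (h : ℝ → ℂ) x := by
    intro h
    have e := congrArg (fun T => T h) (MeasureTheory.Lp.fourier_toTemperedDistribution_eq (h2.toLp F))
    simp only [TemperedDistribution.fourier_apply] at e
    rw [MeasureTheory.Lp.toTemperedDistribution_apply,
      MeasureTheory.Lp.toTemperedDistribution_apply] at e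
    have e1 : ∫ x : ℝ, (𝓕 h : SchwartzMap ℝ ℂ) x • (h2.toLp F : ℝ → ℂ) x =
        ∫ x : ℝ, F x * 𝓕 (h : ℝ → ℂ) x := by
      apply integral_congr_ae
      filter_upwards [h2.coeFn_toLp] with x hx
      rw [hx, smul_eq_mul, mul_comm, SchwartzMap.fourier_coe]
    rw [e1] at e
    rw [e]
    apply integral_congr_ae
    filter_upwards with x
    rw [smul_eq_mul, mul_comm]
  refine ⟨((𝓕 (h2.toLp F) : Lp ℂ 2 (volume : Measure ℝ)) : ℝ → ℂ), Lp.memLp _, ?_, ?_⟩
  · intro h
    rw [hw h]
    congr 1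
    funext x
    rw [fourier_pt]
    congr 2
    funext ξ
    congr 3
    push_cast
    ring
  · simp only [← fourier_pt]
    apply ae_eq_of_integral_contDiff_smul_eq
    · exact (Lp.memLp _).locallyIntegrable (by norm_num)
    · have : Continuous (𝓕 F) := by
        have := VectorFourier.fourierIntegral_continuous (L := innerₗ ℝ) (μ := (volume : Measure ℝ))
          (e := Real.fourierChar) Real.continuous_fourierChar continuous_inner h1
        exact this
      exact this.locallyIntegrable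
    · intro g hg hc
      have hc' : HasCompactSupport (fun x => (g x : ℂ)) :=
        hc.comp_left (g := fun r : ℝ => (r : ℂ)) Complex.ofReal_zero
      have hg' : ContDiff ℝ ∞ (fun x => (g x : ℂ)) := Complex.ofRealCLM.contDiff.comp hg
      have e1 := hw (hc'.toSchwartzMap hg')
      have e2 := fubini h1 (hc'.toSchwartzMap hg').integrable
      have e3 : ∀ x, (hc'.toSchwartzMap hg') x = (g x : ℂ) := fun x => rfl
      simp only [Complex.real_smul]
      calc ∫ x : ℝ, (g x : ℂ) * ((𝓕 (h2.toLp F) : Lp ℂ 2 (volume : Measure ℝ)) : ℝ → ℂ) x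
          = ∫ ξ : ℝ, ((𝓕 (h2.toLp F) : Lp ℂ 2 (volume : Measure ℝ)) : ℝ → ℂ) ξ * (hc'.toSchwartzMap hg') ξ := by
            congr 1
            funext x
            rw [e3, mul_comm]
        _ = ∫ ξ : ℝ, 𝓕 F ξ * (hc'.toSchwartzMap hg') ξ := by rw [e1, e2]
        _ = ∫ x : ℝ, (g x : ℂ) * 𝓕 F x := by
            congr 1
            funext x
            rw [e3, mul_comm]

/-- the characters of the circle -/
noncomputable def ch (n : ℤ) (t : ℝ) : ℂ :=
  Complex.exp (((-2 * Real.pi * n * t : ℝ) : ℂ) * Complex.I)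

lemma ch_norm (n : ℤ) (t : ℝ) : ‖ch n t‖ = 1 := Complex.norm_exp_ofReal_mul_I _

lemma ch_add (m n : ℤ) (t : ℝ) : ch (m + n) t = ch m t * ch n t := by
  unfold ch
  rw [← Complex.exp_add]
  congr 1
  push_cast
  ring

lemma ch_mul (m : ℤ) (N : ℕ) (t : ℝ) : ch (m * N) t = ch m (N * t) := by
  unfold ch
  congr 2
  push_cast
  ring_nf

lemma ch_zero (t : ℝ) : ch 0 t = 1 := by
  unfold ch
  simp

/-- The kernels: absolutely summable coefficients, mean one, supported near the integers. -/
lemma exists_kernel {δ : ℝ} (hδ : 0 < δ) :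
    ∃ c : ℤ → ℂ, Summable (fun n => ‖c n‖) ∧ c 0 = 1 ∧
      ∀ t : ℝ, (∀ n : ℤ, δ ≤ |t - n|) → ∑' n : ℤ, c n * ch n t = 0 := by
  let b : ContDiffBump (0 : ℝ) := ⟨δ / 2, δ, by positivity, by linarith⟩
  have hc : HasCompactSupport (fun x => ((b.normed volume x : ℝ) : ℂ)) :=
    b.hasCompactSupport_normed.comp_left (g := fun r : ℝ => (r : ℂ)) Complex.ofReal_zero
  have hg : ContDiff ℝ ∞ (fun x => ((b.normed volume x : ℝ) : ℂ)) :=
    Complex.ofRealCLM.contDiff.comp b.contDiff_normed
  let f : SchwartzMap ℝ ℂ := hc.toSchwartzMap hg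
  have hf : ∀ x, f x = ((b.normed volume x : ℝ) : ℂ) := fun x => rfl
  refine ⟨fun n => 𝓕 f (n : ℝ), ?_, ?_, ?_⟩
  · have h := summable_of_isBigO (Real.summable_abs_int_rpow one_lt_two)
      (((𝓕 f).isBigO_cocompact_rpow (-2)).comp_tendsto Int.tendsto_coe_cofinite)
    exact h.norm
  · change (𝓕 f) ((0 : ℤ) : ℝ) = 1
    rw [SchwartzMap.fourier_coe, fourier_pt]
    simp only [Int.cast_zero, mul_zero, Complex.ofReal_zero, zero_mul, Complex.exp_zero, one_mul]
    have : ∫ x : ℝ, f x = ((∫ x : ℝ, b.normed volume x : ℝ) : ℂ) := by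
      rw [← integral_complex_ofReal]
      rfl
    rw [this, b.integral_normed]
    simp
  · intro t ht
    have hp := SchwartzMap.tsum_eq_tsum_fourier f (-t)
    have h0 : ∀ n : ℤ, f (-t + n) = 0 := by
      intro n
      rw [hf]
      have : b.normed volume (-t + n) = 0 := by
        by_contra hne
        have hs : (-t + n) ∈ Function.support (b.normed volume) := hne
        rw [b.support_normed_eq, Metric.mem_ball, dist_zero_right, Real.norm_eq_abs] at hs
        have h1 := ht n
        have h2 : |-t + n| = |t - n| := by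
          rw [← abs_neg]
          congr 1
          ring
        rw [h2] at hs
        change |t - n| < δ at hs
        linarith
      rw [this]
      simp
    simp only [h0, tsum_zero] at hp
    rw [hp]
    congr 1
    funext n
    congr 1
    rw [fourier_coe_apply]
    unfold ch
    congr 1
    push_cast
    ring

end Pool.Agent.Helpers29.LO
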