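import Pool.Agent.Helpers29.LO1

set_option autoImplicit false

namespace Pool.Agent.Helpers29.LO

open MeasureTheory

/-- evaluation of an absolutely convergent Fourier series -/
noncomputable def ev (c : ℤ → ℂ) (t : ℝ) : ℂ := ∑' n : ℤ, c n * ch n t

/-- the push-forward of a summable family of weights -/
noncomputable def push {I : Type} (w : I → ℂ) (φ : I → ℤ) (ν : ℤ) : ℂ :=
  ∑' i : φ ⁻¹' {ν}, w i

lemma push_norm {I : Type} {w : I → ℂ} (φ : I → ℤ) (hw : Summable (fun i => ‖w i‖)) :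
    Summable (fun ν => ‖push w φ ν‖) ∧ ∑' ν, ‖push w φ ν‖ ≤ ∑' i, ‖w i‖ := by
  have h1 := hw.hasSum.tsum_fiberwise φ
  have h2 : ∀ ν, ‖push w φ ν‖ ≤ ∑' i : φ ⁻¹' {ν}, ‖w i‖ := by
    intro ν
    unfold push
    exact norm_tsum_le_tsum_norm (hw.subtype _)
  have h3 : Summable (fun ν => ‖push w φ ν‖) :=
    Summable.of_nonneg_of_le (fun _ => norm_nonneg _) h2 h1.summable
  exact ⟨h3, (h3.tsum_le_tsum h2 h1.summable).trans (le_of_eq h1.tsum_eq)⟩

lemma push_ev {I : Type} {w : I → ℂ} (φ : I → ℤ) (hw : Summable (fun i => ‖w i‖)) (t : ℝ) :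
    ev (push w φ) t = ∑' i, w i * ch (φ i) t := by
  have h0 : Summable (fun i => w i * ch (φ i) t) := by
    apply Summable.of_norm
    simp only [norm_mul, ch_norm, mul_one]
    exact hw
  have h1 := h0.hasSum.tsum_fiberwise φ
  rw [← h1.tsum_eq]
  unfold ev push
  congr 1
  funext ν
  rw [← tsum_mul_right]
  congr 1
  funext i
  have : φ i = ν := i.2
  rw [this]

lemma push_ne {I : Type} {w : I → ℂ} {φ : I → ℤ} {ν : ℤ} (h : push w φ ν ≠ 0) :
    ∃ i, φ i = ν ∧ w i ≠ 0 := by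
  by_contra hcon
  push Not at hcon
  apply h
  unfold push
  have : ∀ i : φ ⁻¹' {ν}, w i = 0 := fun i => hcon i i.2
  simp only [this, tsum_zero]

lemma summable_ev {c : ℤ → ℂ} (hc : Summable (fun n => ‖c n‖)) (t : ℝ) :
    Summable (fun n => c n * ch n t) := by
  apply Summable.of_norm
  simp only [norm_mul, ch_norm, mul_one]
  exact hc

lemma ev_norm_le {c : ℤ → ℂ} (hc : Summable (fun n => ‖c n‖)) (t : ℝ) :
    ‖ev c t‖ ≤ ∑' n, ‖c n‖ := by
  unfold ev
  refine (norm_tsum_le_tsum_norm ?_).trans (le_of_eq ?_)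
  · simp only [norm_mul, ch_norm, mul_one]
    exact hc
  · simp only [norm_mul, ch_norm, mul_one]

/-- tails of summable families tend to zero -/
lemma exists_tail {g : ℤ → ℝ} (hg : Summable g) (h0 : ∀ n, 0 ≤ g n) {ε : ℝ} (hε : 0 < ε) :
    ∃ L : ℕ, ∑' n : ℤ, (if |n| ≤ (L : ℤ) then 0 else g n) ≤ ε := by
  have h1 : Filter.Tendsto (fun s : Finset ℤ => ∑ b ∈ s, g b) Filter.atTop (nhds (∑' n, g n)) :=
    hg.hasSum
  have h2 : ∀ᶠ s : Finset ℤ in Filter.atTop, (∑' n, g n) - ε < ∑ b ∈ s, g b :=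
    h1.eventually (lt_mem_nhds (sub_lt_self _ hε))
  obtain ⟨s, hs⟩ := h2.exists
  obtain ⟨L, hL⟩ : ∃ L : ℕ, ∀ n ∈ s, |n| ≤ (L : ℤ) := by
    refine ⟨(s.sup Int.natAbs), fun n hn => ?_⟩
    have := Finset.le_sup (f := Int.natAbs) hn
    rw [Int.abs_eq_natAbs]
    exact_mod_cast this
  refine ⟨L, ?_⟩
  have hsum1 : Summable (fun n : ℤ => if |n| ≤ (L : ℤ) then 0 else g n) := by
    refine Summable.of_nonneg_of_le (fun n => ?_) (fun n => ?_) hg
    · split_ifs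
      · exact le_refl _
      · exact h0 n
    · split_ifs
      · exact h0 n
      · exact le_refl _
  have hsum2 : Summable (fun n : ℤ => if |n| ≤ (L : ℤ) then g n else 0) := by
    refine Summable.of_nonneg_of_le (fun n => ?_) (fun n => ?_) hg
    · split_ifs
      · exact h0 n
      · exact le_refl _
    · split_ifs
      · exact le_refl _
      · exact h0 n
  have h3 : ∑' n, g n = ∑' n : ℤ, (if |n| ≤ (L : ℤ) then g n else 0) +
      ∑' n : ℤ, (if |n| ≤ (L : ℤ) then 0 else g n) := by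
    rw [← hsum2.tsum_add hsum1]
    congr 1
    funext n
    split_ifs <;> simp
  have h4 : ∑ b ∈ s, g b ≤ ∑' n : ℤ, (if |n| ≤ (L : ℤ) then g n else 0) := by
    have : ∑ b ∈ s, g b = ∑ b ∈ s, (if |b| ≤ (L : ℤ) then g b else 0) :=
      Finset.sum_congr rfl fun b hb => by rw [if_pos (hL b hb)]
    rw [this]
    refine hsum2.sum_le_tsum s fun n _ => ?_
    split_ifs
    · exact h0 n
    · exact le_refl _
  linarith

lemma prod_norm {q c : ℤ → ℂ} (sq : Summable (fun n => ‖q n‖)) (sc : Summable (fun n => ‖c n‖)) :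
    Summable (fun p : ℤ × ℤ => ‖q p.1 * c p.2‖) ∧
      ∑' p : ℤ × ℤ, ‖q p.1 * c p.2‖ = (∑' n, ‖q n‖) * ∑' n, ‖c n‖ := by
  have h : Summable (fun p : ℤ × ℤ => ‖q p.1‖ * ‖c p.2‖) :=
    sq.mul_of_nonneg sc (fun _ => norm_nonneg _) (fun _ => norm_nonneg _)
  simp only [norm_mul]
  exact ⟨h, (sq.tsum_mul_tsum sc h).symm⟩

/-- The combinatorial step. -/
lemma comb_step {u c : ℤ → ℂ} (hu : Summable (fun n => ‖u n‖)) (hc : Summable (fun n => ‖c n‖))
    (hc0 : c 0 = 1) {δ : ℝ}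
    (hz : ∀ t : ℝ, (∀ n : ℤ, δ ≤ |t - n|) → ∑' n : ℤ, c n * ch n t = 0) {ε : ℝ} (hε : 0 < ε) :
    ∃ L M : ℕ, ∀ N : ℕ, ∃ T u' : ℤ → ℂ, Summable (fun n => ‖T n‖) ∧
      ∑' n, ‖T n‖ ≤ (∑' n, ‖u n‖) * ∑' n, ‖c n‖ ∧
      Summable (fun n => ‖u' n‖) ∧ ∑' n, ‖u' n‖ ≤ ε ∧
      (∀ t : ℝ, (∀ n : ℤ, δ ≤ |N * t - n|) → ev u t + ev T t = ev u' t) ∧
      (∀ ν, T ν ≠ 0 → ∃ a m : ℤ, |a| ≤ L ∧ m ≠ 0 ∧ |m| ≤ M ∧ ν = a + m * N) := by
  have hU : 0 ≤ ∑' n, ‖u n‖ := tsum_nonneg fun _ => norm_nonneg _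
  obtain ⟨L, hL⟩ := exists_tail hu (fun n => norm_nonneg _) (show 0 < ε / 2 by positivity)
  obtain ⟨M, hM⟩ := exists_tail hc (fun n => norm_nonneg _)
    (show 0 < ε / 2 / (∑' n, ‖u n‖ + 1) by positivity)
  refine ⟨L, M, fun N => ?_⟩
  classical
  let q : ℤ → ℂ := fun a => if |a| ≤ (L : ℤ) then u a else 0
  let w1 : ℤ → ℂ := fun a => if |a| ≤ (L : ℤ) then 0 else u a
  let c2 : ℤ → ℂ := fun m => if |m| ≤ (M : ℤ) then 0 else c m
  let c3 : ℤ → ℂ := fun m => if m ≠ 0 ∧ |m| ≤ (M : ℤ) then c m else 0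
  let w2 : ℤ × ℤ → ℂ := fun p => -(q p.1 * c2 p.2)
  let w3 : ℤ × ℤ → ℂ := fun p => q p.1 * c3 p.2
  let φ : ℤ × ℤ → ℤ := fun p => p.1 + p.2 * N
  have hq : ∀ a, ‖q a‖ ≤ ‖u a‖ := by
    intro a
    simp only [q]
    split_ifs
    · exact le_refl _
    · simp
  have hc3 : ∀ a, ‖c3 a‖ ≤ ‖c a‖ := by
    intro a
    simp only [c3]
    split_ifs
    · exact le_refl _
    · simp
  have hc2 : ∀ a, ‖c2 a‖ ≤ ‖c a‖ := by
    intro a
    simp only [c2]
    split_ifs
    · simp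
    · exact le_refl _
  have hw1 : ∀ a, ‖w1 a‖ ≤ ‖u a‖ := by
    intro a
    simp only [w1]
    split_ifs
    · simp
    · exact le_refl _
  have sq : Summable (fun n => ‖q n‖) := Summable.of_nonneg_of_le (fun _ => norm_nonneg _) hq hu
  have sw1 : Summable (fun n => ‖w1 n‖) := Summable.of_nonneg_of_le (fun _ => norm_nonneg _) hw1 hu
  have sc3 : Summable (fun n => ‖c3 n‖) := Summable.of_nonneg_of_le (fun _ => norm_nonneg _) hc3 hc
  have sc2 : Summable (fun n => ‖c2 n‖) := Summable.of_nonneg_of_le (fun _ => norm_nonneg _) hc2 hc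
  have hn2 : ∀ p, ‖w2 p‖ = ‖q p.1 * c2 p.2‖ := fun p => norm_neg _
  have sw3 : Summable (fun p => ‖w3 p‖) := (prod_norm sq sc3).1
  have sw2 : Summable (fun p => ‖w2 p‖) := by
    simp only [hn2]
    exact (prod_norm sq sc2).1
  have t3 : ∑' p, ‖w3 p‖ = (∑' n, ‖q n‖) * ∑' n, ‖c3 n‖ := (prod_norm sq sc3).2
  have t2 : ∑' p, ‖w2 p‖ = (∑' n, ‖q n‖) * ∑' n, ‖c2 n‖ := by
    simp only [hn2]
    exact (prod_norm sq sc2).2
  have lq : ∑' n, ‖q n‖ ≤ ∑' n, ‖u n‖ := sq.tsum_le_tsum hq hu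
  have lc3 : ∑' n, ‖c3 n‖ ≤ ∑' n, ‖c n‖ := sc3.tsum_le_tsum hc3 hc
  have hQ : 0 ≤ ∑' n, ‖q n‖ := tsum_nonneg fun _ => norm_nonneg _
  have hC3 : 0 ≤ ∑' n, ‖c3 n‖ := tsum_nonneg fun _ => norm_nonneg _
  have hC2 : 0 ≤ ∑' n, ‖c2 n‖ := tsum_nonneg fun _ => norm_nonneg _
  have hL' : ∑' n, ‖w1 n‖ ≤ ε / 2 := by
    have : (fun n => ‖w1 n‖) = fun n : ℤ => if |n| ≤ (L : ℤ) then 0 else ‖u n‖ := by
      funext n
      simp only [w1]
      split_ifs <;> simp
    rw [this]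
    exact hL
  have hM' : ∑' n, ‖c2 n‖ ≤ ε / 2 / (∑' n, ‖u n‖ + 1) := by
    have : (fun n => ‖c2 n‖) = fun n : ℤ => if |n| ≤ (M : ℤ) then 0 else ‖c n‖ := by
      funext n
      simp only [c2]
      split_ifs <;> simp
    rw [this]
    exact hM
  obtain ⟨p3, p3'⟩ := push_norm φ sw3
  obtain ⟨p2, p2'⟩ := push_norm φ sw2
  have su' : Summable (fun n => ‖w1 n + push w2 φ n‖) :=
    Summable.of_nonneg_of_le (fun _ => norm_nonneg _) (fun _ => norm_add_le _ _) (sw1.add p2)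
  refine ⟨push w3 φ, fun n => w1 n + push w2 φ n, p3, ?_, su', ?_, ?_, ?_⟩
  · refine p3'.trans ?_
    rw [t3]
    exact mul_le_mul lq lc3 hC3 hU
  · have h1 : ∑' n, ‖w1 n + push w2 φ n‖ ≤ ∑' n, ‖w1 n‖ + ∑' n, ‖push w2 φ n‖ := by
      rw [← sw1.tsum_add p2]
      exact su'.tsum_le_tsum (fun _ => norm_add_le _ _) (sw1.add p2)
    have h2 : (∑' n, ‖q n‖) * ∑' n, ‖c2 n‖ ≤ ε / 2 := by
      calc (∑' n, ‖q n‖) * ∑' n, ‖c2 n‖ ≤ (∑' n, ‖u n‖ + 1) * (ε / 2 / (∑' n, ‖u n‖ + 1)) :=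
            mul_le_mul (by linarith) hM' hC2 (by positivity)
        _ = ε / 2 := by field_simp
    rw [t2] at p2'
    linarith
  · intro t ht
    have e1 : ev (fun n => w1 n + push w2 φ n) t = ev w1 t + ev (push w2 φ) t := by
      unfold ev
      rw [← (summable_ev sw1 t).tsum_add (summable_ev p2 t)]
      congr 1
      funext n
      ring
    have e2 : ev u t = ev w1 t + ev q t := by
      unfold ev
      rw [← (summable_ev sw1 t).tsum_add (summable_ev sq t)]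
      congr 1
      funext n
      simp only [w1, q]
      split_ifs <;> ring
    have s3 : Summable (fun p : ℤ × ℤ => w3 p * ch (φ p) t) := by
      apply Summable.of_norm
      simp only [norm_mul (w3 _), ch_norm, mul_one]
      exact sw3
    have s2 : Summable (fun p : ℤ × ℤ => w2 p * ch (φ p) t) := by
      apply Summable.of_norm
      simp only [norm_mul (w2 _), ch_norm, mul_one]
      exact sw2
    let c4 : ℤ → ℂ := fun m => if m = 0 then 0 else c m
    have hc4 : ∀ a, ‖c4 a‖ ≤ ‖c a‖ := by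
      intro a
      simp only [c4]
      split_ifs
      · simp
      · exact le_refl _
    have sc4 : Summable (fun n => ‖c4 n‖) :=
      Summable.of_nonneg_of_le (fun _ => norm_nonneg _) hc4 hc
    have e3 : ∑' p : ℤ × ℤ, w3 p * ch (φ p) t - ∑' p : ℤ × ℤ, w2 p * ch (φ p) t =
        ev q t * ev c4 (N * t) := by
      rw [← s3.tsum_sub s2]
      unfold ev
      have hn1 : Summable (fun n => ‖q n * ch n t‖) := by
        simp only [norm_mul, ch_norm, mul_one]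
        exact sq
      have hn2 : Summable (fun n => ‖c4 n * ch n (N * t)‖) := by
        simp only [norm_mul, ch_norm, mul_one]
        exact sc4
      rw [tsum_mul_tsum_of_summable_norm hn1 hn2]
      congr 1
      funext p
      have hsplit : w3 p - w2 p = q p.1 * c4 p.2 := by
        simp only [w3, w2, c2, c3, c4]
        by_cases h0 : p.2 = 0
        · simp [h0]
        · by_cases h1 : |p.2| ≤ (M : ℤ)
          · simp [h0, h1]
          · simp [h0, h1]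
      rw [← sub_mul, hsplit]
      simp only [φ]
      rw [ch_add, ch_mul]
      ring
    have e4 : ev c4 (N * t) = -1 := by
      have h1 := hz (N * t) ht
      have h2 : ∑' n : ℤ, c n * ch n (N * t) = ev c4 (N * t) + 1 := by
        unfold ev
        rw [(summable_ev hc (N * t)).tsum_eq_add_tsum_ite 0]
        rw [hc0, ch_zero, mul_one, add_comm]
        congr 1
        congr 1
        funext n
        simp only [c4]
        split_ifs <;> simp
      rw [h2] at h1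
      exact eq_neg_of_add_eq_zero_left h1
    rw [e1, e2, push_ev φ sw3, push_ev φ sw2]
    rw [e4] at e3
    linear_combination e3
  · intro ν hν
    obtain ⟨⟨a, m⟩, h1, h2⟩ := push_ne hν
    simp only [w3, q, c3] at h2
    by_cases ha : |a| ≤ (L : ℤ)
    · by_cases hm : m ≠ 0 ∧ |m| ≤ (M : ℤ)
      · exact ⟨a, m, ha, hm.1, hm.2, h1.symm⟩
      · simp [hm] at h2
    · simp [ha] at h2

end Pool.Agent.Helpers29.LO
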