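import Mathlib

set_option autoImplicit false

namespace Pool.Agent.Helpers29.LO

open Finset

/-- polynomial vanishing at the nonzero integers of modulus at most `M` -/
noncomputable def QQ (M : ℕ) (w : ℂ) : ℂ := ∏ m ∈ Icc 1 M, (1 - w ^ 2 / (m : ℂ) ^ 2)

lemma factor_le {m : ℕ} (hm : 1 ≤ m) (w : ℂ) : ‖1 - w ^ 2 / (m : ℂ) ^ 2‖ ≤ 1 + ‖w‖ ^ 2 := by
  refine (norm_sub_le _ _).trans ?_
  rw [norm_one, norm_div, norm_pow, norm_pow, Complex.norm_natCast]
  have h1 : (1 : ℝ) ≤ (m : ℝ) ^ 2 := by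
    have : (1 : ℝ) ≤ m := by exact_mod_cast hm
    nlinarith
  have : ‖w‖ ^ 2 / (m : ℝ) ^ 2 ≤ ‖w‖ ^ 2 := div_le_self (by positivity) h1
  linarith

lemma QQ_le (M : ℕ) (w : ℂ) : ‖QQ M w‖ ≤ (1 + ‖w‖ ^ 2) ^ M := by
  unfold QQ
  rw [norm_prod]
  refine (Finset.prod_le_prod (fun _ _ => norm_nonneg _)
    (fun m hm => factor_le (Finset.mem_Icc.1 hm).1 w)).trans ?_
  rw [Finset.prod_const, Nat.card_Icc]
  simp

lemma QQ_zero (M : ℕ) : QQ M 0 = 1 := by
  unfold QQ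
  simp

lemma QQ_diff (M : ℕ) : Differentiable ℂ (QQ M) := by
  unfold QQ
  apply Differentiable.fun_finsetProd
  intro m _
  fun_prop

/-- near an integer -/
lemma QQ_near {M : ℕ} {m : ℤ} (hm : m ≠ 0) (hmM : |m| ≤ (M : ℤ)) {w : ℂ} {r : ℝ}
    (hr : ‖w - m‖ ≤ r) (hr1 : r ≤ 1) :
    ‖QQ M w‖ ≤ r * (2 * M + 1) * (1 + ((M : ℝ) + 1) ^ 2) ^ M := by
  have hk1 : 1 ≤ m.natAbs := Nat.one_le_iff_ne_zero.2 (Int.natAbs_ne_zero.2 hm)
  have hkM : m.natAbs ≤ M := by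
    have := Int.abs_eq_natAbs m
    omega
  have hmem : m.natAbs ∈ Icc 1 M := Finset.mem_Icc.2 ⟨hk1, hkM⟩
  have hMm : ‖(m : ℂ)‖ ≤ M := by
    rw [Complex.norm_intCast]
    exact_mod_cast hmM
  have hw : ‖w‖ ≤ M + 1 := by
    have : w = (w - m) + m := by ring
    rw [this]
    refine (norm_add_le _ _).trans ?_
    linarith
  have h1m : (1 : ℝ) ≤ ‖(m : ℂ)‖ := by
    rw [Complex.norm_intCast]
    exact_mod_cast Int.one_le_abs hm
  have hsq : ((m.natAbs : ℕ) : ℂ) ^ 2 = (m : ℂ) ^ 2 := by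
    rw [← Int.cast_natCast (R := ℂ), ← Int.cast_pow, Int.natAbs_sq, Int.cast_pow]
  unfold QQ
  rw [← Finset.mul_prod_erase _ _ hmem, norm_mul, norm_prod]
  have h1 : ‖1 - w ^ 2 / ((m.natAbs : ℕ) : ℂ) ^ 2‖ ≤ r * (2 * M + 1) := by
    rw [hsq]
    have hm0 : (m : ℂ) ≠ 0 := by exact_mod_cast hm
    have : 1 - w ^ 2 / (m : ℂ) ^ 2 = -((w - m) * (w + m) / (m : ℂ) ^ 2) := by
      field_simp
      ring
    rw [this, norm_neg, norm_div, norm_mul, norm_pow]
    have h2 : ‖w + m‖ ≤ 2 * M + 1 := by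
      refine (norm_add_le _ _).trans ?_
      linarith
    have h3 : ‖w - m‖ * ‖w + m‖ ≤ r * (2 * M + 1) :=
      mul_le_mul hr h2 (norm_nonneg _) ((norm_nonneg _).trans hr)
    refine (div_le_self (by positivity) ?_).trans h3
    nlinarith
  have hbase : (1 : ℝ) ≤ 1 + ((M : ℝ) + 1) ^ 2 := by nlinarith [sq_nonneg ((M : ℝ) + 1)]
  have h2 : ∏ i ∈ (Icc 1 M).erase m.natAbs, ‖1 - w ^ 2 / (i : ℂ) ^ 2‖ ≤
      (1 + ((M : ℝ) + 1) ^ 2) ^ M := by
    calc ∏ i ∈ (Icc 1 M).erase m.natAbs, ‖1 - w ^ 2 / (i : ℂ) ^ 2‖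
        ≤ ∏ i ∈ (Icc 1 M).erase m.natAbs, (1 + ((M : ℝ) + 1) ^ 2) := by
          apply Finset.prod_le_prod (fun _ _ => norm_nonneg _)
          intro i hi
          have := factor_le (Finset.mem_Icc.1 (Finset.mem_of_mem_erase hi)).1 w
          refine this.trans ?_
          have : ‖w‖ ^ 2 ≤ ((M : ℝ) + 1) ^ 2 := pow_le_pow_left₀ (norm_nonneg _) hw 2
          linarith
      _ = (1 + ((M : ℝ) + 1) ^ 2) ^ ((Icc 1 M).erase m.natAbs).card := by
          rw [Finset.prod_const]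
      _ ≤ (1 + ((M : ℝ) + 1) ^ 2) ^ M := by
          apply pow_le_pow_right₀ hbase
          refine (Finset.card_erase_le).trans ?_
          simp
  refine mul_le_mul h1 h2 (Finset.prod_nonneg fun _ _ => norm_nonneg _) ?_
  have : 0 ≤ r := (norm_nonneg _).trans hr
  positivity

lemma one_add_sq_le_exp {r : ℝ} (hr : 0 ≤ r) : 1 + r ^ 2 ≤ Real.exp (4 * Real.sqrt r) := by
  have h0 : 0 ≤ 4 * Real.sqrt r := by positivity
  have h := Real.sum_le_exp_of_nonneg h0 5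
  simp only [Finset.sum_range_succ, Finset.sum_range_zero] at h
  have hs : Real.sqrt r ^ 4 = r ^ 2 := by
    have : Real.sqrt r ^ 2 = r := Real.sq_sqrt hr
    calc Real.sqrt r ^ 4 = (Real.sqrt r ^ 2) ^ 2 := by ring
      _ = r ^ 2 := by rw [this]
  refine le_trans ?_ h
  have h1 : (4 * Real.sqrt r) ^ 4 = 256 * r ^ 2 := by rw [mul_pow, hs]; norm_num
  simp only [Nat.factorial, pow_zero, Nat.cast_one]
  rw [h1]
  push_cast
  have h2 : 0 ≤ (4 * Real.sqrt r) ^ 2 := by positivity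
  have h3 : 0 ≤ (4 * Real.sqrt r) ^ 3 := by positivity
  have h4 : 0 ≤ r ^ 2 := by positivity
  norm_num
  nlinarith [Real.sqrt_nonneg r]

/-- The analytic step. -/
lemma ana_step {K : ℂ → ℂ} (hK : Differentiable ℂ K) {D : ℕ} (hKD : ∀ z, ‖K z‖ ≤ (1 + ‖z‖) ^ D)
    {R η τ : ℝ} (hR : 0 ≤ R) (hη : 0 < η) (hτ : 0 < τ) (L M : ℕ) :
    ∃ N : ℕ, 0 < N ∧ ∃ (K' : ℂ → ℂ) (D' : ℕ), Differentiable ℂ K' ∧
      (∀ z, ‖K' z‖ ≤ (1 + ‖z‖) ^ D') ∧
      (∀ z, ‖z‖ ≤ R → ‖K' z - K z‖ ≤ η) ∧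
      (∀ z, ‖K' z‖ ≤ ‖K z‖ * Real.exp (τ * Real.sqrt ‖z‖)) ∧
      (∀ m : ℤ, m ≠ 0 → |m| ≤ (M : ℤ) → ∀ x : ℝ, |x - m * N| ≤ L + 1 → ‖K' x‖ ≤ η) := by
  -- closeness to one near the origin
  have hcont : Continuous (fun w => QQ M w ^ (D + 1)) := ((QQ_diff M).continuous).pow _
  obtain ⟨ρ, hρ, hρ'⟩ : ∃ ρ > 0, ∀ w : ℂ, ‖w‖ < ρ → ‖QQ M w ^ (D + 1) - 1‖ < η / (1 + R) ^ D := by
    have h := Metric.continuous_iff.1 hcont 0 (η / (1 + R) ^ D) (by positivity)
    obtain ⟨ρ, h1, h2⟩ := h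
    refine ⟨ρ, h1, fun w hw => ?_⟩
    have := h2 w (by simpa using hw)
    rw [QQ_zero, one_pow, dist_eq_norm] at this
    exact this
  set C1 : ℝ := ((L : ℝ) + 1) * (2 * M + 1) * (1 + ((M : ℝ) + 1) ^ 2) ^ M with hC1
  have hC1pos : 0 < C1 := by positivity
  obtain ⟨N1, hN1⟩ := exists_nat_gt (R / ρ)
  obtain ⟨N2, hN2⟩ := exists_nat_gt ((4 * M * (D + 1) / τ) ^ 2)
  obtain ⟨N3, hN3⟩ := exists_nat_gt (C1 ^ (D + 1) * ((M : ℝ) + 2) ^ D / η)
  set N : ℕ := N1 + N2 + N3 + L + 1 with hN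
  have hNpos : (0 : ℝ) < N := by
    have : 0 < N := by omega
    exact_mod_cast this
  have hN1' : (1 : ℝ) ≤ N := by
    have : 1 ≤ N := by omega
    exact_mod_cast this
  have hNc : (N : ℂ) ≠ 0 := by
    have : N ≠ 0 := by omega
    exact_mod_cast this
  refine ⟨N, by omega, fun z => K z * QQ M (z / N) ^ (D + 1), D + 2 * (M * (D + 1)), ?_, ?_, ?_,
    ?_, ?_⟩
  · apply hK.mul
    apply Differentiable.pow
    exact (QQ_diff M).comp (differentiable_id.div_const _)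
  · intro z
    rw [norm_mul, norm_pow, pow_add (1 + ‖z‖) D]
    refine mul_le_mul (hKD z) ?_ (by positivity) (by positivity)
    have h1 : ‖QQ M (z / N)‖ ≤ ((1 + ‖z‖) ^ 2) ^ M := by
      refine (QQ_le M _).trans ?_
      apply pow_le_pow_left₀ (by positivity)
      rw [norm_div, Complex.norm_natCast]
      have : ‖z‖ / N ≤ ‖z‖ := div_le_self (norm_nonneg _) hN1'
      have h0 : 0 ≤ ‖z‖ / N := by positivity
      have : (‖z‖ / N) ^ 2 ≤ ‖z‖ ^ 2 := pow_le_pow_left₀ h0 this 2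
      nlinarith [norm_nonneg z]
    refine (pow_le_pow_left₀ (norm_nonneg _) h1 _).trans (le_of_eq ?_)
    rw [← pow_mul, ← pow_mul]
  · intro z hz
    have h1 : ‖z / N‖ < ρ := by
      rw [norm_div, Complex.norm_natCast, div_lt_iff₀ hNpos]
      have : R / ρ < N := by
        refine lt_of_lt_of_le hN1 ?_
        have : N1 ≤ N := by omega
        exact_mod_cast this
      rw [div_lt_iff₀ hρ] at this
      linarith
    have h2 := (hρ' _ h1).le
    have h3 : K z * QQ M (z / N) ^ (D + 1) - K z = K z * (QQ M (z / N) ^ (D + 1) - 1) := by ring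
    rw [h3, norm_mul]
    have h4 : ‖K z‖ ≤ (1 + R) ^ D :=
      (hKD z).trans (pow_le_pow_left₀ (by positivity) (by linarith) D)
    calc ‖K z‖ * ‖QQ M (z / N) ^ (D + 1) - 1‖ ≤ (1 + R) ^ D * (η / (1 + R) ^ D) :=
          mul_le_mul h4 h2 (norm_nonneg _) (by positivity)
      _ = η := by field_simp
  · intro z
    rw [norm_mul]
    apply mul_le_mul_of_nonneg_left _ (norm_nonneg _)
    rw [norm_pow]
    have h1 : ‖QQ M (z / N)‖ ≤ Real.exp (4 * Real.sqrt (‖z‖ / N)) ^ M := by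
      refine (QQ_le M _).trans ?_
      apply pow_le_pow_left₀ (by positivity)
      rw [norm_div, Complex.norm_natCast]
      exact one_add_sq_le_exp (by positivity)
    refine (pow_le_pow_left₀ (norm_nonneg _) h1 _).trans ?_
    rw [← Real.exp_nat_mul, ← Real.exp_nat_mul]
    apply Real.exp_le_exp.2
    rw [Real.sqrt_div' _ (le_of_lt hNpos)]
    have hsN : 0 < Real.sqrt N := Real.sqrt_pos.2 hNpos
    have h2 : 4 * M * (D + 1) / τ < Real.sqrt N := by
      apply Real.lt_sqrt_of_sq_lt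
      refine lt_of_lt_of_le hN2 ?_
      have : N2 ≤ N := by omega
      exact_mod_cast this
    have h3 : 4 * M * (D + 1) ≤ τ * Real.sqrt N := by
      rw [div_lt_iff₀ hτ] at h2
      linarith
    have h4 : ((D + 1 : ℕ) : ℝ) * ((M : ℝ) * (4 * (Real.sqrt ‖z‖ / Real.sqrt N))) =
        (4 * M * (D + 1)) * Real.sqrt ‖z‖ / Real.sqrt N := by
      push_cast
      ring
    rw [h4, div_le_iff₀ hsN]
    nlinarith [Real.sqrt_nonneg ‖z‖]
  · intro m hm hmM x hx
    have hr : ‖(x : ℂ) / N - m‖ ≤ (L + 1) / N := by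
      have : (x : ℂ) / N - m = ((x - m * N : ℝ) : ℂ) / N := by
        push_cast
        field_simp
      rw [this, norm_div, Complex.norm_natCast, Complex.norm_real, Real.norm_eq_abs]
      gcongr
    have hr1 : ((L : ℝ) + 1) / N ≤ 1 := by
      rw [div_le_one hNpos]
      have : L + 1 ≤ N := by omega
      exact_mod_cast this
    have h1 := QQ_near hm hmM hr hr1
    have h2 : ‖QQ M ((x : ℂ) / N)‖ ≤ C1 / N := by
      refine h1.trans (le_of_eq ?_)
      rw [hC1]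
      ring
    have h3 : ‖K x‖ ≤ (((M : ℝ) + 2) * N) ^ D := by
      refine (hKD _).trans (pow_le_pow_left₀ (by positivity) ?_ D)
      rw [Complex.norm_real, Real.norm_eq_abs]
      have hmM' : |(m : ℝ)| ≤ M := by exact_mod_cast hmM
      have h4 : |x| ≤ |x - m * N| + |(m : ℝ)| * N := by
        have : x = (x - m * N) + m * N := by ring
        calc |x| = |(x - m * N) + m * N| := by rw [← this]
          _ ≤ |x - m * N| + |(m : ℝ) * N| := abs_add_le _ _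
          _ = |x - m * N| + |(m : ℝ)| * N := by rw [abs_mul, abs_of_pos hNpos]
      have h5 : |(m : ℝ)| * N ≤ M * N := mul_le_mul_of_nonneg_right hmM' hNpos.le
      have h6 : (L : ℝ) + 1 ≤ N := by
        have : L + 1 ≤ N := by omega
        exact_mod_cast this
      nlinarith
    rw [norm_mul, norm_pow]
    calc ‖K x‖ * ‖QQ M ((x : ℂ) / N)‖ ^ (D + 1)
        ≤ (((M : ℝ) + 2) * N) ^ D * (C1 / N) ^ (D + 1) :=
          mul_le_mul h3 (pow_le_pow_left₀ (norm_nonneg _) h2 _) (by positivity) (by positivity)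
      _ = C1 ^ (D + 1) * ((M : ℝ) + 2) ^ D / N := by
          rw [mul_pow, div_pow, pow_succ (N : ℝ) D]
          field_simp
      _ ≤ η := by
          rw [div_le_iff₀ hNpos]
          have : C1 ^ (D + 1) * ((M : ℝ) + 2) ^ D / η < N := by
            refine lt_of_lt_of_le hN3 ?_
            have : N3 ≤ N := by omega
            exact_mod_cast this
          rw [div_lt_iff₀ hη] at this
          linarith

end Pool.Agent.Helpers29.LO
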