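import Pool.Agent.Helpers29.LO2
import Pool.Agent.Helpers29.LO3

set_option autoImplicit false

namespace Pool.Agent.Helpers29.LO

open MeasureTheory Filter Topology

/-- gap parameters -/
noncomputable def del (n : ℕ) : ℝ := (1 / 2) ^ (n + 9)

lemma del_pos (n : ℕ) : 0 < del n := by unfold del; positivity

/-- kernels -/
noncomputable def ker (n : ℕ) : ℤ → ℂ := (exists_kernel (del_pos n)).choose

lemma ker_summable (n : ℕ) : Summable (fun m => ‖ker n m‖) :=
  (exists_kernel (del_pos n)).choose_spec.1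

lemma ker_zero (n : ℕ) : ker n 0 = 1 := (exists_kernel (del_pos n)).choose_spec.2.1

lemma ker_ev (n : ℕ) : ∀ t : ℝ, (∀ m : ℤ, del n ≤ |t - m|) → ∑' m : ℤ, ker n m * ch m t = 0 :=
  (exists_kernel (del_pos n)).choose_spec.2.2

/-- norm of the kernels -/
noncomputable def AA (n : ℕ) : ℝ := ∑' m, ‖ker n m‖

lemma AA_nonneg (n : ℕ) : 0 ≤ AA n := tsum_nonneg fun _ => norm_nonneg _

/-- accuracies -/
noncomputable def eps (n : ℕ) : ℝ := if n = 0 then 1 else (1 / 2) ^ n / (AA n + 1)

lemma eps_pos (n : ℕ) : 0 < eps n := by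
  have := AA_nonneg n
  unfold eps
  split_ifs
  · norm_num
  · positivity

lemma eps_le (n : ℕ) : eps n ≤ (1 / 2) ^ n := by
  have := AA_nonneg n
  unfold eps
  split_ifs with h
  · simp [h]
  · exact div_le_self (by positivity) (by linarith)

lemma eps_mul (n : ℕ) : eps n * AA n ≤ (1 / 2) ^ n + (if n = 0 then AA 0 else 0) := by
  have := AA_nonneg n
  unfold eps
  split_ifs with h
  · subst h
    simp
  · have h1 : (1 / 2 : ℝ) ^ n / (AA n + 1) * AA n = (1 / 2) ^ n * (AA n / (AA n + 1)) := by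
      field_simp
    rw [h1, add_zero]
    apply mul_le_of_le_one_right (by positivity)
    rw [div_le_one (by positivity)]
    linarith

/-- the final accuracy -/
noncomputable def eta : ℝ := 1 / (4 * (AA 0 + 3))

lemma eta_pos : 0 < eta := by
  have := AA_nonneg 0
  unfold eta
  positivity

/-- state of the construction -/
structure St where
  u : ℤ → ℂ
  K : ℂ → ℂ
  D : ℕ
  R : ℝ

/-- invariant -/
def Valid (n : ℕ) (s : St) : Prop :=
  Summable (fun m => ‖s.u m‖) ∧ ∑' m, ‖s.u m‖ ≤ eps n ∧ Differentiable ℂ s.K ∧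
    (∀ z, ‖s.K z‖ ≤ (1 + ‖z‖) ^ s.D) ∧ (n : ℝ) + 1 ≤ s.R

/-- one step -/
def Step (n : ℕ) (s s' : St) (N : ℕ) (T : ℤ → ℂ) : Prop :=
  0 < N ∧ Summable (fun m => ‖T m‖) ∧ ∑' m, ‖T m‖ ≤ eps n * AA n ∧
    (∀ t : ℝ, (∀ m : ℤ, del n ≤ |N * t - m|) → ev s.u t + ev T t = ev s'.u t) ∧
    (∀ ν, T ν ≠ 0 → ∀ x : ℝ, ν ≤ x → x ≤ ν + 1 → |x| ≤ s'.R ∧ ‖s'.K x‖ ≤ eta / 2 ^ (n + 2)) ∧
    (∀ z, ‖z‖ ≤ s.R → ‖s'.K z - s.K z‖ ≤ eta / 2 ^ (n + 2)) ∧
    (∀ z, ‖s'.K z‖ ≤ ‖s.K z‖ * Real.exp ((1 / 2) ^ n * Real.sqrt ‖z‖)) ∧ s.R ≤ s'.R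

lemma exists_step (n : ℕ) (s : St) (hs : Valid n s) :
    ∃ s' : St, Valid (n + 1) s' ∧ ∃ (N : ℕ) (T : ℤ → ℂ), Step n s s' N T := by
  obtain ⟨h1, h2, h3, h4, h5⟩ := hs
  have hR : 0 ≤ s.R := by
    have : (0 : ℝ) ≤ n := Nat.cast_nonneg n
    linarith
  obtain ⟨L, M, hLM⟩ := comb_step h1 (ker_summable n) (ker_zero n) (ker_ev n) (eps_pos (n + 1))
  obtain ⟨N, hN, K', D', k1, k2, k3, k4, k5⟩ := ana_step h3 h4 hR
    (show 0 < eta / 2 ^ (n + 2) by have := eta_pos; positivity)
    (show (0 : ℝ) < (1 / 2) ^ n by positivity) L M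
  obtain ⟨T, u', t1, t2, t3, t4, t5, t6⟩ := hLM N
  refine ⟨⟨u', K', D', s.R + 1 + (L + 1) + M * N⟩, ⟨t3, t4, k1, k2, ?_⟩, N, T, hN, t1, ?_, t5, ?_,
    k3, k4, ?_⟩
  · push_cast
    have : (0 : ℝ) ≤ M * N := by positivity
    have : (0 : ℝ) ≤ L := by positivity
    change (n : ℝ) + 1 + 1 ≤ s.R + 1 + (L + 1) + M * N
    linarith
  · refine t2.trans ?_
    exact mul_le_mul_of_nonneg_right h2 (AA_nonneg n)
  · intro ν hν x hx1 hx2
    obtain ⟨a, m, ha, hm, hmM, hνe⟩ := t6 ν hν
    have ha' : |(a : ℝ)| ≤ L := by exact_mod_cast ha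
    have hmM' : |(m : ℝ)| ≤ M := by exact_mod_cast hmM
    have hν' : (ν : ℝ) = a + m * N := by rw [hνe]; push_cast; ring
    have ha2 := abs_le.1 ha'
    have hx : |x - m * N| ≤ L + 1 := by
      rw [abs_le]
      constructor <;> linarith [ha2.1, ha2.2]
    refine ⟨?_, k5 m hm hmM x hx⟩
    have h6 : |x| ≤ |x - m * N| + |(m : ℝ)| * N := by
      calc |x| = |(x - m * N) + m * N| := by congr 1; ring
        _ ≤ |x - m * N| + |(m : ℝ) * N| := abs_add_le _ _
        _ = |x - m * N| + |(m : ℝ)| * N := by rw [abs_mul, Nat.abs_cast]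
    have h7 : |(m : ℝ)| * N ≤ M * N := mul_le_mul_of_nonneg_right hmM' (Nat.cast_nonneg N)
    change |x| ≤ s.R + 1 + (L + 1) + M * N
    linarith
  · change s.R ≤ s.R + 1 + (L + 1) + M * N
    have : (0 : ℝ) ≤ M * N := by positivity
    have : (0 : ℝ) ≤ L := by positivity
    linarith

lemma exists_seq : ∃ (s : ℕ → St) (N : ℕ → ℕ) (T : ℕ → ℤ → ℂ),
    (s 0).u = (fun m => if m = 0 then 1 else 0) ∧ (s 0).K = (fun _ => 1) ∧ (s 0).R = 1 ∧
    (∀ n, Valid n (s n)) ∧ ∀ n, Step n (s n) (s (n + 1)) (N n) (T n) := by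
  classical
  have h0s : Summable (fun m : ℤ => ‖(if m = 0 then 1 else 0 : ℂ)‖) := by
    apply summable_of_ne_finset_zero (s := {0})
    intro m hm
    simp only [Finset.mem_singleton] at hm
    simp [hm]
  let s0 : St := ⟨fun m => if m = 0 then 1 else 0, fun _ => 1, 0, 1⟩
  have hs0 : Valid 0 s0 := by
    refine ⟨h0s, ?_, differentiable_const _, ?_, ?_⟩
    · have : ∑' m : ℤ, ‖(if m = 0 then 1 else 0 : ℂ)‖ = 1 := by
        rw [tsum_eq_single 0]
        · simp
        · intro m hm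
          simp [hm]
      change ∑' m : ℤ, ‖(if m = 0 then 1 else 0 : ℂ)‖ ≤ eps 0
      rw [this]
      simp [eps]
    · intro z
      simp [s0]
    · simp [s0]
  choose f hf using exists_step
  let S : (n : ℕ) → {s : St // Valid n s} := fun n =>
    Nat.rec ⟨s0, hs0⟩ (fun n s => ⟨f n s.1 s.2, (hf n s.1 s.2).1⟩) n
  refine ⟨fun n => (S n).1, fun n => (hf n (S n).1 (S n).2).2.choose,
    fun n => (hf n (S n).1 (S n).2).2.choose_spec.choose, rfl, rfl, rfl, fun n => (S n).2,
    fun n => (hf n (S n).1 (S n).2).2.choose_spec.choose_spec⟩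

theorem construction : ∃ (k : ℂ → ℂ) (c : ℤ → ℂ) (G : ℤ → ℝ) (N : ℕ → ℕ) (η : ℝ),
    Differentiable ℂ k ∧ (∀ z, ‖k z‖ ≤ Real.exp (2 * Real.sqrt ‖z‖)) ∧ 0 ≤ η ∧
    (∀ ν, 0 ≤ G ν) ∧ Summable G ∧ η * ∑' ν, G ν ≤ 1 / 4 ∧ (∀ ν, ‖c ν‖ ≤ G ν) ∧
    (∀ ν : ℤ, ∀ x : ℝ, ν ≤ x → x ≤ ν + 1 → ‖k x * c ν - (if ν = 0 then 1 else 0)‖ ≤ η * G ν) ∧
    (∀ n, 0 < N n) ∧
    (∀ t : ℝ, (∀ n : ℕ, ∀ m : ℤ, del n ≤ |N n * t - m|) → ev c t = 0) := by
  classical
  obtain ⟨s, N, T, hu0, hK0, hR0, hV, hS⟩ := exists_seq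
  have hηp := eta_pos
  -- monotonicity of the radii
  have hRmono : Monotone (fun n => (s n).R) := monotone_nat_of_le_succ fun n => (hS n).2.2.2.2.2.2.2
  -- geometric closeness
  have hclose : ∀ m : ℕ, ∀ z : ℂ, ‖z‖ ≤ (s m).R → ∀ n : ℕ,
      dist ((s (m + n)).K z) ((s (m + (n + 1))).K z) ≤ eta / 2 ^ (m + 2) * (1 / 2) ^ n := by
    intro m z hz n
    have h1 : ‖z‖ ≤ (s (m + n)).R := hz.trans (hRmono (Nat.le_add_right m n))
    have h2 := (hS (m + n)).2.2.2.2.2.1 z h1
    rw [dist_comm, dist_eq_norm]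
    refine h2.trans (le_of_eq ?_)
    rw [show m + n + 2 = (m + 2) + n by ring, pow_add _ (m + 2) n, one_div, inv_pow]
    field_simp
  have hlim : ∀ z : ℂ, ∃ l : ℂ, Tendsto (fun n => (s n).K z) atTop (𝓝 l) := by
    intro z
    obtain ⟨m, hm⟩ := exists_nat_ge ‖z‖
    have hz : ‖z‖ ≤ (s m).R := by
      have := (hV m).2.2.2.2
      linarith
    have hc : CauchySeq (fun n => (s (m + n)).K z) :=
      cauchySeq_of_le_geometric (1 / 2) (eta / 2 ^ (m + 2)) (by norm_num) (hclose m z hz)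
    obtain ⟨l, hl⟩ := cauchySeq_tendsto_of_complete hc
    refine ⟨l, ?_⟩
    have : (fun n => (s (m + n)).K z) = fun n => (fun j => (s j).K z) (n + m) := by
      funext n
      rw [add_comm]
    rw [this] at hl
    exact (tendsto_add_atTop_iff_nat m).1 hl
  choose k hk using hlim
  have hkm : ∀ m : ℕ, ∀ z : ℂ, ‖z‖ ≤ (s m).R → ‖k z - (s m).K z‖ ≤ eta / 2 ^ (m + 1) := by
    intro m z hz
    have hl : Tendsto (fun n => (s (m + n)).K z) atTop (𝓝 (k z)) := by
      have : (fun n => (s (m + n)).K z) = fun n => (fun j => (s j).K z) (n + m) := by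
        funext n
        rw [add_comm]
      rw [this]
      exact (tendsto_add_atTop_iff_nat m).2 (hk z)
    have h := dist_le_of_le_geometric_of_tendsto₀ (1 / 2) (eta / 2 ^ (m + 2)) (by norm_num)
      (hclose m z hz) hl
    rw [dist_comm, dist_eq_norm] at h
    refine h.trans (le_of_eq ?_)
    rw [pow_succ 2 (m + 1)]
    field_simp
    norm_num
  have hdiff : Differentiable ℂ k := by
    rw [← differentiableOn_univ]
    have hloc : TendstoLocallyUniformlyOn (fun n => (s n).K) k atTop Set.univ := by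
      rw [Metric.tendstoLocallyUniformlyOn_iff]
      intro ε hε z _
      refine ⟨Metric.ball z 1, mem_nhdsWithin_of_mem_nhds (Metric.ball_mem_nhds z one_pos), ?_⟩
      obtain ⟨m1, hm1⟩ := exists_nat_ge (‖z‖ + 1)
      obtain ⟨m2, hm2⟩ := exists_pow_lt_of_lt_one (show 0 < ε / eta by positivity)
        (show (1 / 2 : ℝ) < 1 by norm_num)
      filter_upwards [eventually_ge_atTop (max m1 m2)] with n hn y hy
      have hn1 : m1 ≤ n := (le_max_left _ _).trans hn
      have hn2 : m2 ≤ n := (le_max_right _ _).trans hn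
      have hy' : ‖y‖ ≤ (s n).R := by
        have h1 : ‖y‖ ≤ ‖z‖ + 1 := by
          have := mem_ball_iff_norm.1 hy
          have h2 := norm_add_le (y - z) z
          rw [sub_add_cancel] at h2
          linarith
        have h2 := (hV n).2.2.2.2
        have h3 : (m1 : ℝ) ≤ n := by exact_mod_cast hn1
        linarith
      rw [dist_eq_norm]
      refine lt_of_le_of_lt (hkm n y hy') ?_
      have h4 : (1 / 2 : ℝ) ^ (n + 1) ≤ (1 / 2) ^ m2 :=
        pow_le_pow_of_le_one (by norm_num) (by norm_num) (by omega)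
      have h5 : eta / 2 ^ (n + 1) = eta * (1 / 2) ^ (n + 1) := by
        rw [one_div, inv_pow]
        rfl
      rw [h5]
      calc eta * (1 / 2) ^ (n + 1) ≤ eta * (1 / 2) ^ m2 := by gcongr
        _ < eta * (ε / eta) := by gcongr
        _ = ε := by field_simp
    exact hloc.differentiableOn
      (Eventually.of_forall fun n => (hV n).2.2.1.differentiableOn) isOpen_univ
  have hgrow : ∀ z, ‖k z‖ ≤ Real.exp (2 * Real.sqrt ‖z‖) := by
    intro z
    have h1 : ∀ n, ‖(s n).K z‖ ≤ Real.exp ((2 - 2 * (1 / 2) ^ n) * Real.sqrt ‖z‖) := by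
      intro n
      induction n with
      | zero => simp [hK0]
      | succ n ih =>
        refine ((hS n).2.2.2.2.2.2.1 z).trans ?_
        refine (mul_le_mul_of_nonneg_right ih (Real.exp_pos _).le).trans ?_
        rw [← Real.exp_add]
        apply Real.exp_le_exp.2
        rw [pow_succ]
        apply le_of_eq
        ring
    have h2 : ∀ n, ‖(s n).K z‖ ≤ Real.exp (2 * Real.sqrt ‖z‖) := by
      intro n
      refine (h1 n).trans (Real.exp_le_exp.2 ?_)
      have : (0 : ℝ) ≤ (1 / 2) ^ n := by positivity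
      nlinarith [Real.sqrt_nonneg ‖z‖]
    exact le_of_tendsto ((hk z).norm) (Eventually.of_forall h2)
  -- summability
  have hTn : ∀ n, ∑' m, ‖T n m‖ ≤ (1 / 2) ^ n + (if n = 0 then AA 0 else 0) := fun n =>
    (hS n).2.2.1.trans (eps_mul n)
  have hbs : Summable (fun n : ℕ => (1 / 2 : ℝ) ^ n + (if n = 0 then AA 0 else 0)) := by
    apply Summable.add (summable_geometric_of_lt_one (by norm_num) (by norm_num))
    apply summable_of_ne_finset_zero (s := {0})
    intro n hn
    simp only [Finset.mem_singleton] at hn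
    simp [hn]
  have hbt : ∑' n : ℕ, ((1 / 2 : ℝ) ^ n + (if n = 0 then AA 0 else 0)) = 2 + AA 0 := by
    rw [Summable.tsum_add (summable_geometric_of_lt_one (by norm_num) (by norm_num))]
    · rw [tsum_geometric_of_lt_one (by norm_num) (by norm_num), tsum_ite_eq]
      norm_num
    · apply summable_of_ne_finset_zero (s := {0})
      intro n hn
      simp only [Finset.mem_singleton] at hn
      simp [hn]
  have hsT : Summable (fun n => ∑' m, ‖T n m‖) :=
    Summable.of_nonneg_of_le (fun n => tsum_nonneg fun _ => norm_nonneg _) hTn hbs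
  have hprod : Summable (fun p : ℕ × ℤ => ‖T p.1 p.2‖) :=
    (summable_prod_of_nonneg fun _ => norm_nonneg _).2 ⟨fun n => (hS n).2.1, hsT⟩
  have hprod' : Summable (fun p : ℤ × ℕ => ‖T p.2 p.1‖) := hprod.prod_symm
  have hcol : ∀ ν, Summable (fun n => ‖T n ν‖) := fun ν =>
    ((summable_prod_of_nonneg fun _ => norm_nonneg _).1 hprod').1 ν
  have hrow : Summable (fun ν => ∑' n, ‖T n ν‖) :=
    ((summable_prod_of_nonneg fun _ => norm_nonneg _).1 hprod').2
  have hd0 : Summable (fun ν : ℤ => if ν = 0 then (1 : ℝ) else 0) := by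
    apply summable_of_ne_finset_zero (s := {0})
    intro n hn
    simp only [Finset.mem_singleton] at hn
    simp [hn]
  have hGsum : ∑' ν, ((if ν = 0 then (1 : ℝ) else 0) + ∑' n, ‖T n ν‖) ≤ AA 0 + 3 := by
    rw [hd0.tsum_add hrow, tsum_ite_eq]
    have h1 : ∑' ν, ∑' n, ‖T n ν‖ = ∑' n, ∑' ν, ‖T n ν‖ := hprod.tsum_comm
    rw [h1]
    have h2 := hsT.tsum_le_tsum hTn hbs
    rw [hbt] at h2
    linarith
  refine ⟨k, fun ν => (if ν = 0 then 1 else 0) + ∑' n, T n ν,
    fun ν => (if ν = 0 then 1 else 0) + ∑' n, ‖T n ν‖, N, eta, hdiff, hgrow, hηp.le, ?_,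
    hd0.add hrow, ?_, ?_, ?_, fun n => (hS n).1, ?_⟩
  · intro ν
    have : 0 ≤ ∑' n, ‖T n ν‖ := tsum_nonneg fun _ => norm_nonneg _
    dsimp only
    split_ifs <;> linarith
  · have hA := AA_nonneg 0
    calc eta * ∑' ν, ((if ν = 0 then (1 : ℝ) else 0) + ∑' n, ‖T n ν‖) ≤ eta * (AA 0 + 3) := by
          gcongr
      _ = 1 / 4 := by
          unfold eta
          field_simp
  · intro ν
    refine (norm_add_le _ _).trans (add_le_add ?_ (norm_tsum_le_tsum_norm (hcol ν)))
    split_ifs <;> simp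
  · intro ν x hx1 hx2
    have hterm : ∀ n, ‖k x * T n ν‖ ≤ eta * ‖T n ν‖ := by
      intro n
      by_cases h0 : T n ν = 0
      · simp [h0]
      · obtain ⟨h1, h2⟩ := (hS n).2.2.2.2.1 ν h0 x hx1 hx2
        have h3 := hkm (n + 1) x (by rw [Complex.norm_real, Real.norm_eq_abs]; exact h1)
        rw [norm_mul]
        apply mul_le_mul_of_nonneg_right _ (norm_nonneg _)
        have h4 : ‖k x‖ ≤ ‖k x - (s (n + 1)).K x‖ + ‖(s (n + 1)).K x‖ := by
          have := norm_add_le (k x - (s (n + 1)).K x) ((s (n + 1)).K x)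
          rwa [sub_add_cancel] at this
        have h5 : eta / 2 ^ (n + 1 + 1) ≤ eta / 2 := by
          apply div_le_div_of_nonneg_left hηp.le (by norm_num)
          calc (2 : ℝ) = 2 ^ 1 := by norm_num
            _ ≤ 2 ^ (n + 1 + 1) := pow_le_pow_right₀ (by norm_num) (by omega)
        have h6 : eta / 2 ^ (n + 2) ≤ eta / 2 := h5
        linarith
    have hs1 : Summable (fun n => k x * T n ν) := by
      apply Summable.of_norm
      exact Summable.of_nonneg_of_le (fun _ => norm_nonneg _) hterm ((hcol ν).mul_left _)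
    have h1 : k x * ((if ν = 0 then 1 else 0) + ∑' n, T n ν) - (if ν = 0 then 1 else 0) =
        (if ν = 0 then (k x - 1) else 0) + ∑' n, k x * T n ν := by
      rw [tsum_mul_left]
      split_ifs <;> ring
    rw [h1, mul_add]
    refine (norm_add_le _ _).trans (add_le_add ?_ ?_)
    · split_ifs with h0
      · subst h0
        have h2 := hkm 0 x (by
          rw [Complex.norm_real, Real.norm_eq_abs, hR0, abs_le]
          push_cast at hx1 hx2
          constructor <;> linarith)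
        rw [hK0] at h2
        refine h2.trans ?_
        rw [mul_one]
        apply div_le_self hηp.le
        norm_num
      · simp
    · refine (norm_tsum_le_tsum_norm (hs1.norm)).trans ?_
      rw [← tsum_mul_left]
      exact hs1.norm.tsum_le_tsum hterm ((hcol ν).mul_left _)
  · intro t ht
    have hev : ∀ n, ev (s n).u t + ev (T n) t = ev (s (n + 1)).u t := fun n =>
      (hS n).2.2.2.1 t (ht n)
    have hu1 : ev (s 0).u t = 1 := by
      rw [hu0]
      unfold ev
      rw [tsum_eq_single 0]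
      · simp [ch_zero]
      · intro m hm
        simp [hm]
    have hpart : ∀ m, ∑ n ∈ Finset.range m, ev (T n) t = ev (s m).u t - 1 := by
      intro m
      induction m with
      | zero => simp [hu1]
      | succ m ih =>
        rw [Finset.sum_range_succ, ih, ← hev m]
        ring
    have hto0 : Tendsto (fun m => ev (s m).u t) atTop (𝓝 0) := by
      apply squeeze_zero_norm (a := fun m : ℕ => (1 / 2 : ℝ) ^ m)
      · intro m
        exact (ev_norm_le (hV m).1 t).trans ((hV m).2.1.trans (eps_le m))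
      · exact tendsto_pow_atTop_nhds_zero_of_lt_one (by norm_num) (by norm_num)
    have hsum : HasSum (fun n => ev (T n) t) (-1) := by
      have hsm : Summable (fun n => ev (T n) t) := by
        apply Summable.of_norm
        exact Summable.of_nonneg_of_le (fun _ => norm_nonneg _)
          (fun n => ev_norm_le (hS n).2.1 t) hsT
      have h1 := hsm.hasSum.tendsto_sum_nat
      have h2 : Tendsto (fun m => ∑ n ∈ Finset.range m, ev (T n) t) atTop (𝓝 (-1)) := by
        simp only [hpart]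
        have := hto0.sub_const 1
        simpa using this
      rw [← tendsto_nhds_unique h1 h2]
      exact hsm.hasSum
    have hd0' : Summable (fun ν : ℤ => (if ν = 0 then (1 : ℂ) else 0) * ch ν t) := by
      apply summable_of_ne_finset_zero (s := {0})
      intro n hn
      simp only [Finset.mem_singleton] at hn
      simp [hn]
    have hprodc : Summable (fun p : ℕ × ℤ => T p.1 p.2 * ch p.2 t) := by
      apply Summable.of_norm
      simp only [norm_mul, ch_norm, mul_one]
      exact hprod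
    have hrowc : Summable (fun ν => (∑' n, T n ν) * ch ν t) := by
      apply Summable.of_norm
      simp only [norm_mul, ch_norm, mul_one]
      exact Summable.of_nonneg_of_le (fun _ => norm_nonneg _)
        (fun ν => norm_tsum_le_tsum_norm (hcol ν)) hrow
    have hswap : ∑' ν, (∑' n, T n ν) * ch ν t = ∑' n, ev (T n) t := by
      unfold ev
      have h1 : ∑' n, ∑' ν, T n ν * ch ν t = ∑' ν, ∑' n, T n ν * ch ν t := hprodc.tsum_comm.symm
      rw [h1]
      congr 1
      funext ν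
      rw [tsum_mul_right]
    unfold ev
    simp only [add_mul]
    rw [hd0'.tsum_add hrowc, hswap, hsum.tsum_eq, tsum_eq_single 0]
    · simp [ch_zero]
    · intro m hm
      simp [hm]

end Pool.Agent.Helpers29.LO
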