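import Pool.Agent.Helpers29.LO4

set_option autoImplicit false

namespace Pool.Agent.Helpers29.LO

open MeasureTheory Filter Topology

lemma floor_on {ν : ℤ} {x : ℝ} (hx : x ∈ Set.Ico (ν : ℝ) (ν + 1)) : ⌊x⌋ = ν :=
  Int.floor_eq_iff.2 ⟨hx.1, hx.2⟩

lemma floor_int {G : ℤ → ℝ} (h0 : ∀ n, 0 ≤ G n) (hG : Summable G) :
    Integrable (fun x : ℝ => G ⌊x⌋) ∧ ∫ x : ℝ, G ⌊x⌋ = ∑' n, G n := by
  have hm : Measurable (fun x : ℝ => G ⌊x⌋) := (measurable_of_countable G).comp Int.measurable_floor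
  have h1 : ∫⁻ x : ℝ, ENNReal.ofReal (G ⌊x⌋) = ENNReal.ofReal (∑' n, G n) := by
    rw [← setLIntegral_univ, ← iUnion_Ico_intCast ℝ, lintegral_iUnion (fun _ => measurableSet_Ico)
      (Set.pairwise_disjoint_Ico_intCast ℝ), ENNReal.ofReal_tsum_of_nonneg h0 hG]
    congr 1
    funext ν
    rw [setLIntegral_congr_fun (g := fun _ => ENNReal.ofReal (G ν)) measurableSet_Ico
      (fun x hx => by
        change ENNReal.ofReal (G ⌊x⌋) = ENNReal.ofReal (G ν)
        rw [floor_on hx])]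
    rw [setLIntegral_const, Real.volume_Ico]
    simp
  constructor
  · refine ⟨hm.aestronglyMeasurable, ?_⟩
    rw [hasFiniteIntegral_iff_norm]
    have : ∀ x : ℝ, ‖G ⌊x⌋‖ = G ⌊x⌋ := fun x => by rw [Real.norm_eq_abs, abs_of_nonneg (h0 _)]
    simp only [this]
    rw [h1]
    exact ENNReal.ofReal_lt_top
  · rw [integral_eq_lintegral_of_nonneg_ae (Eventually.of_forall fun x => h0 _)
      hm.aestronglyMeasurable, h1, ENNReal.toReal_ofReal (tsum_nonneg h0)]

lemma dom {G : ℤ → ℝ} (h0 : ∀ n, 0 ≤ G n) (hG : Summable G) {F : ℝ → ℂ} (hF : Measurable F)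
    (hFG : ∀ x, ‖F x‖ ≤ G ⌊x⌋) : Integrable F ∧ MemLp F 2 := by
  obtain ⟨h1, h2⟩ := floor_int h0 hG
  have hi : Integrable F := h1.mono' hF.aestronglyMeasurable (Eventually.of_forall hFG)
  refine ⟨hi, ?_⟩
  rw [memLp_two_iff_integrable_sq_norm hF.aestronglyMeasurable]
  have h3 : Integrable (fun x : ℝ => (∑' n, G n) * G ⌊x⌋) := h1.const_mul _
  refine h3.mono' (hF.norm.pow_const 2).aestronglyMeasurable (Eventually.of_forall fun x => ?_)
  rw [Real.norm_eq_abs, abs_of_nonneg (by positivity), sq]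
  have h4 : G ⌊x⌋ ≤ ∑' n, G n := hG.le_tsum _ fun j _ => h0 j
  exact mul_le_mul ((hFG x).trans h4) (hFG x) (norm_nonneg _) (tsum_nonneg h0)

/-- the exponential -/
noncomputable def ex (x ξ : ℝ) : ℂ := Complex.exp (((-2 * Real.pi * x * ξ : ℝ) : ℂ) * Complex.I)

lemma ex_norm (x ξ : ℝ) : ‖ex x ξ‖ = 1 := Complex.norm_exp_ofReal_mul_I _

lemma ex_cont (ξ : ℝ) : Continuous (fun x => ex x ξ) := by
  unfold ex
  fun_prop

lemma ex_add (x : ℝ) (ν : ℤ) (ξ : ℝ) : ex (x + ν) ξ = ch ν ξ * ex x ξ := by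
  unfold ex ch
  rw [← Complex.exp_add]
  congr 1
  push_cast
  ring

lemma ex_int (ν : ℤ) (ξ : ℝ) :
    ∫ x in Set.Ico (ν : ℝ) (ν + 1), ex x ξ = ch ν ξ * ∫ x in (0 : ℝ)..1, ex x ξ := by
  rw [integral_Ico_eq_integral_Ioc, ← intervalIntegral.integral_of_le (by linarith)]
  have h := intervalIntegral.integral_comp_add_right (a := 0) (b := 1) (fun x => ex x ξ) (ν : ℝ)
  rw [zero_add, add_comm (1 : ℝ)] at h
  rw [← h, ← intervalIntegral.integral_const_mul]
  congr 1
  funext x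
  rw [ex_add]

lemma ft_floor {c : ℤ → ℂ} (hc : Summable (fun n => ‖c n‖)) (ξ : ℝ) :
    ∫ x : ℝ, ex x ξ * c ⌊x⌋ = ev c ξ * ∫ x in (0 : ℝ)..1, ex x ξ := by
  have hm : Measurable (fun x : ℝ => c ⌊x⌋) := (measurable_of_countable c).comp Int.measurable_floor
  have h1 := (dom (fun n => norm_nonneg (c n)) hc hm (fun x => le_refl _)).1
  have h2 : Integrable (fun x : ℝ => ex x ξ * c ⌊x⌋) := by
    refine h1.norm.mono' ((ex_cont ξ).measurable.mul hm).aestronglyMeasurable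
      (Eventually.of_forall fun x => ?_)
    rw [norm_mul, ex_norm, one_mul]
  have h3 := hasSum_integral_iUnion (μ := volume) (f := fun x : ℝ => ex x ξ * c ⌊x⌋)
    (s := fun ν : ℤ => Set.Ico (ν : ℝ) (ν + 1)) (fun _ => measurableSet_Ico)
    (Set.pairwise_disjoint_Ico_intCast ℝ) h2.integrableOn
  rw [iUnion_Ico_intCast, setIntegral_univ] at h3
  rw [← h3.tsum_eq]
  unfold ev
  rw [← tsum_mul_right]
  congr 1
  funext ν
  rw [setIntegral_congr_fun (g := fun x => c ν * ex x ξ) measurableSet_Ico (fun x hx => by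
    change ex x ξ * c ⌊x⌋ = c ν * ex x ξ
    rw [floor_on hx, mul_comm])]
  rw [integral_const_mul, ex_int]
  ring

lemma ex_near {ξ : ℝ} (h0 : 0 ≤ ξ) (h1 : ξ ≤ 1 / 16) : ‖(∫ x in (0 : ℝ)..1, ex x ξ) - 1‖ ≤ 2 / 5 := by
  have e : (∫ x in (0 : ℝ)..1, ex x ξ) - 1 = ∫ x in (0 : ℝ)..1, (ex x ξ - 1) := by
    rw [intervalIntegral.integral_sub ((ex_cont ξ).intervalIntegrable _ _)
      (continuous_const.intervalIntegrable _ _)]
    simp
  rw [e]
  have h2 := intervalIntegral.norm_integral_le_of_norm_le_const (a := 0) (b := 1) (C := 2 / 5)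
    (f := fun x => ex x ξ - 1) (fun x hx => ?_)
  · simpa using h2
  · rw [Set.uIoc_of_le zero_le_one] at hx
    unfold ex
    rw [mul_comm]
    refine (Real.norm_exp_I_mul_ofReal_sub_one_le).trans ?_
    rw [Real.norm_eq_abs]
    have hpi := Real.pi_lt_d2
    have hpi0 := Real.pi_pos
    have : -2 * Real.pi * x * ξ = -(2 * Real.pi * x * ξ) := by ring
    rw [this, abs_neg, abs_of_nonneg (by have := hx.1.le; positivity)]
    have h3 : x * ξ ≤ 1 / 16 := by nlinarith [hx.1, hx.2]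
    have h4 : 0 ≤ x * ξ := mul_nonneg hx.1.le h0
    nlinarith

/-- measure of one bad set -/
lemma bad_meas {N : ℕ} (hN : 0 < N) {δ : ℝ} (hδ : 0 < δ) (hδ1 : δ < 1 / 2) :
    volume {t : ℝ | t ∈ Set.Icc (0 : ℝ) (1 / 16) ∧ ∃ m : ℤ, |N * t - m| < δ} ≤
      ENNReal.ofReal (4 * δ) := by
  have hN' : (0 : ℝ) < N := by exact_mod_cast hN
  have hN1 : (1 : ℝ) ≤ N := by exact_mod_cast hN
  have hsub : {t : ℝ | t ∈ Set.Icc (0 : ℝ) (1 / 16) ∧ ∃ m : ℤ, |N * t - m| < δ} ⊆
      ⋃ j ∈ Finset.range (N + 1), Metric.ball ((j : ℝ) / N) (δ / N) := by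
    rintro t ⟨⟨ht0, ht1⟩, m, hm⟩
    rw [abs_lt] at hm
    have h1 : (-1 : ℝ) < m := by nlinarith
    have h2 : (m : ℝ) < N + 1 := by nlinarith
    have h1' : -1 < m := by exact_mod_cast h1
    have h2' : m < N + 1 := by exact_mod_cast h2
    obtain ⟨j, rfl⟩ := Int.eq_ofNat_of_zero_le (by omega : 0 ≤ m)
    rw [Set.mem_iUnion₂]
    refine ⟨j, Finset.mem_range.2 (by omega), ?_⟩
    rw [Metric.mem_ball, Real.dist_eq]
    have h3 : t - (j : ℝ) / N = (N * t - j) / N := by field_simp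
    rw [h3, abs_div, abs_of_pos hN']
    apply div_lt_div_of_pos_right _ hN'
    rw [abs_lt]
    push_cast at hm
    exact hm
  refine (measure_mono hsub).trans ((measure_biUnion_finset_le _ _).trans ?_)
  simp only [Real.volume_ball, Finset.sum_const, Finset.card_range, nsmul_eq_mul]
  rw [← ENNReal.ofReal_natCast, ← ENNReal.ofReal_mul (by positivity)]
  apply ENNReal.ofReal_le_ofReal
  push_cast
  have : ((N : ℝ) + 1) * (2 * (δ / N)) = 2 * δ * (((N : ℝ) + 1) / N) := by ring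
  rw [this]
  have h4 : ((N : ℝ) + 1) / N ≤ 2 := by
    rw [div_le_iff₀ hN']
    linarith
  nlinarith

/-- the good set -/
def Good (N : ℕ → ℕ) : Set ℝ :=
  {t : ℝ | t ∈ Set.Icc (0 : ℝ) (1 / 16) ∧ ∀ (n : ℕ) (m : ℤ), del n ≤ |N n * t - m|}

lemma good_closed (N : ℕ → ℕ) : IsClosed (Good N) := by
  have : Good N = Set.Icc (0 : ℝ) (1 / 16) ∩ ⋂ (n : ℕ), ⋂ (m : ℤ), {t : ℝ | del n ≤ |N n * t - m|} := by
    ext t
    simp [Good]
  rw [this]
  apply isClosed_Icc.inter
  refine isClosed_iInter fun n => isClosed_iInter fun m => ?_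
  apply isClosed_le continuous_const
  fun_prop

lemma good_pos {N : ℕ → ℕ} (hN : ∀ n, 0 < N n) : volume (Good N) ≠ 0 := by
  intro h0
  have hsub : Set.Icc (0 : ℝ) (1 / 16) ⊆ Good N ∪
      ⋃ n, {t : ℝ | t ∈ Set.Icc (0 : ℝ) (1 / 16) ∧ ∃ m : ℤ, |N n * t - m| < del n} := by
    intro t ht
    by_cases h : t ∈ Good N
    · exact Or.inl h
    · right
      unfold Good at h
      simp only [Set.mem_ofPred_eq, not_and, not_forall, not_le] at h
      obtain ⟨n, m, hm⟩ := h ht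
      rw [Set.mem_iUnion]
      exact ⟨n, ht, m, hm⟩
  have h1 := (measure_mono hsub).trans (measure_union_le (μ := volume) _ _)
  rw [h0, zero_add, Real.volume_Icc] at h1
  have h2 : volume (⋃ n, {t : ℝ | t ∈ Set.Icc (0 : ℝ) (1 / 16) ∧ ∃ m : ℤ, |N n * t - m| < del n}) ≤
      ENNReal.ofReal (1 / 64) := by
    refine (measure_iUnion_le _).trans ?_
    have hd : ∀ n, del n < 1 / 2 := by
      intro n
      unfold del
      calc (1 / 2 : ℝ) ^ (n + 9) < (1 / 2) ^ 1 :=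
            pow_lt_pow_right_of_lt_one₀ (by norm_num) (by norm_num) (by omega)
        _ = 1 / 2 := by norm_num
    have hs : Summable (fun n => 4 * del n) := by
      unfold del
      apply Summable.mul_left
      simp only [pow_add]
      exact (summable_geometric_of_lt_one (by norm_num) (by norm_num)).mul_right _
    refine (ENNReal.tsum_le_tsum fun n => bad_meas (hN n) (del_pos n) (hd n)).trans ?_
    rw [← ENNReal.ofReal_tsum_of_nonneg (fun n => by have := del_pos n; positivity) hs]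
    apply ENNReal.ofReal_le_ofReal
    unfold del
    simp only [pow_add]
    rw [tsum_mul_left, tsum_mul_right, tsum_geometric_of_lt_one (by norm_num) (by norm_num)]
    norm_num
  have h3 := h1.trans h2
  rw [ENNReal.ofReal_le_ofReal_iff (by norm_num)] at h3
  norm_num at h3

end Pool.Agent.Helpers29.LO
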