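import Mathlib

/-!
The two spaces `SA K` (the double of `X` along a closed set `K`, with the weak topology of the
continuous functions) and `SB K x0` (the disjoint sum of `X` and `X/K`, glued at the points
`x0` and `K`), and the linear homeomorphism between their spaces of continuous functions with the
pointwise topology.
-/

set_option autoImplicit false
set_option linter.unusedSectionVars false
universe u v

namespace Pool.Agent.Helpers29.Lq

open Set Topology

section Gen
variable {X : Type u} [TopologicalSpace X] {S : Type v}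

/-- A set `S` with the weak topology of all real functions whose compositions with the maps
`j i : X → S` are continuous. -/
def Qt (_j : Bool → X → S) : Type v := S

instance (j : Bool → X → S) : TopologicalSpace (Qt j) :=
  TopologicalSpace.induced (fun (p : Qt j) (F : {F : S → ℝ // ∀ i, Continuous (fun x : X => F (j i x))}) =>
    F.1 p) inferInstance

theorem adm_continuous (j : Bool → X → S) (F : S → ℝ)
    (hF : ∀ i, Continuous (fun x : X => F (j i x))) : Continuous (fun p : Qt j => F p) := by
  have h1 : Continuous (fun (p : Qt j)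
      (F : {F : S → ℝ // ∀ i, Continuous (fun x : X => F (j i x))}) => F.1 p) :=
    continuous_induced_dom
  exact (continuous_pi_iff.1 h1) ⟨F, hF⟩

theorem j_continuous (j : Bool → X → S) (i : Bool) :
    Continuous (fun x : X => (show Qt j from j i x)) := by
  refine continuous_induced_rng.2 ?_
  exact continuous_pi (fun F => F.2 i)

theorem continuous_iff_adm (j : Bool → X → S) (F : Qt j → ℝ) :
    Continuous F ↔ ∀ i, Continuous (fun x : X => F (j i x)) :=
  ⟨fun h i => h.comp (j_continuous j i), fun h => adm_continuous j F h⟩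

theorem t35_of_sep (j : Bool → X → S)
    (h : ∀ p q : S, p ≠ q → ∃ F : S → ℝ, (∀ i, Continuous (fun x : X => F (j i x))) ∧ F p ≠ F q) :
    T35Space (Qt j) := by
  have hemb : IsEmbedding (fun (p : Qt j)
      (F : {F : S → ℝ // ∀ i, Continuous (fun x : X => F (j i x))}) => F.1 p) := by
    refine ⟨⟨rfl⟩, ?_⟩
    intro p q hpq
    by_contra hne
    obtain ⟨F, hF, hFne⟩ := h p q hne
    exact hFne (congrFun hpq ⟨F, hF⟩)
  exact hemb.t35Space

end Gen

section Sep
variable {X : Type u} [TopologicalSpace X] [T35Space X]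

theorem exists_fun_compl (C : Set X) (hC : IsClosed C) (x : X) (hx : x ∉ C) :
    ∃ f : X → ℝ, Continuous f ∧ f x = 1 ∧ ∀ y ∈ C, f y = 0 := by
  obtain ⟨f, hf, hfx, hfC⟩ := CompletelyRegularSpace.completely_regular x C hC hx
  refine ⟨fun y => 1 - (f y : ℝ), continuous_const.sub (continuous_subtype_val.comp hf), ?_, ?_⟩
  · simp [hfx]
  · intro y hy
    have := hfC hy
    simp [this]

theorem exists_fun_open (U : Set X) (hU : IsOpen U) (x : X) (hx : x ∈ U) :
    ∃ f : X → ℝ, Continuous f ∧ f x = 1 ∧ ∀ y, f y ≠ 0 → y ∈ U := by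
  obtain ⟨f, hf, h1, h2⟩ := exists_fun_compl Uᶜ hU.isClosed_compl x (by simpa using hx)
  exact ⟨f, hf, h1, fun y hy => by
    by_contra hyU
    exact hy (h2 y hyU)⟩

end Sep

section AB
variable {X : Type u}

/-- The underlying set of both spaces. -/
abbrev Car (K : Set X) : Type u := {x : X // x ∉ K} ⊕ X

open Classical in
/-- The copies of `X` in the double: `true` the first copy, `false` the second copy. -/
noncomputable def jA (K : Set X) : Bool → X → Car K
  | true, x => if h : x ∈ K then Sum.inr x else Sum.inl ⟨x, h⟩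
  | false, x => Sum.inr x

open Classical in
/-- The maps of `X` to the second space: `true` collapses `K` to the point `x0` of the second
copy. -/
noncomputable def jB (K : Set X) (x0 : X) : Bool → X → Car K
  | true, x => if h : x ∈ K then Sum.inr x0 else Sum.inl ⟨x, h⟩
  | false, x => Sum.inr x

theorem jA_true_mem (K : Set X) {x : X} (h : x ∈ K) : jA K true x = Sum.inr x := by
  simp [jA, h]
theorem jA_true_not (K : Set X) {x : X} (h : x ∉ K) : jA K true x = Sum.inl ⟨x, h⟩ := by
  simp [jA, h]
theorem jB_true_mem (K : Set X) (x0 : X) {x : X} (h : x ∈ K) : jB K x0 true x = Sum.inr x0 := by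
  simp [jB, h]
theorem jB_true_not (K : Set X) (x0 : X) {x : X} (h : x ∉ K) :
    jB K x0 true x = Sum.inl ⟨x, h⟩ := by
  simp [jB, h]
@[simp] theorem jA_false (K : Set X) (x : X) : jA K false x = Sum.inr x := rfl
@[simp] theorem jB_false (K : Set X) (x0 : X) (x : X) : jB K x0 false x = Sum.inr x := rfl

theorem jA_injective (K : Set X) (i : Bool) : Function.Injective (jA K i) := by
  cases i
  · intro x y h
    simpa using h
  · intro x y h
    by_cases hx : x ∈ K <;> by_cases hy : y ∈ K
    · rw [jA_true_mem K hx, jA_true_mem K hy] at h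
      simpa using h
    · rw [jA_true_mem K hx, jA_true_not K hy] at h
      simp at h
    · rw [jA_true_not K hx, jA_true_mem K hy] at h
      simp at h
    · rw [jA_true_not K hx, jA_true_not K hy] at h
      simpa using h

variable [TopologicalSpace X]

abbrev SA (K : Set X) : Type u := Qt (jA K)
abbrev SB (K : Set X) (x0 : X) : Type u := Qt (jB K x0)

theorem continuous_SA_iff (K : Set X) (F : SA K → ℝ) :
    Continuous F ↔ Continuous (fun x : X => F (jA K true x)) ∧
      Continuous (fun x : X => F (Sum.inr x : Car K)) := by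
  rw [continuous_iff_adm]
  constructor
  · intro h
    exact ⟨h true, by simpa using h false⟩
  · rintro ⟨h1, h2⟩ i
    cases i
    · simpa using h2
    · exact h1

theorem continuous_SB_iff (K : Set X) (x0 : X) (F : SB K x0 → ℝ) :
    Continuous F ↔ Continuous (fun x : X => F (jB K x0 true x)) ∧
      Continuous (fun x : X => F (Sum.inr x : Car K)) := by
  rw [continuous_iff_adm]
  constructor
  · intro h
    exact ⟨h true, by simpa using h false⟩
  · rintro ⟨h1, h2⟩ i
    cases i
    · simpa using h2
    · exact h1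

/-- A function on the second copy / first copy. -/
def mk (K : Set X) (f g : X → ℝ) : Car K → ℝ := Sum.elim (fun x => f x.1) g

@[simp] theorem mk_inl (K : Set X) (f g : X → ℝ) (x) : mk K f g (Sum.inl x) = f x.1 := rfl
@[simp] theorem mk_inr (K : Set X) (f g : X → ℝ) (x) : mk K f g (Sum.inr x) = g x := rfl

theorem mk_jA_true (K : Set X) (f g : X → ℝ) (h : ∀ x ∈ K, f x = g x) (x : X) :
    mk K f g (jA K true x) = f x := by
  by_cases hx : x ∈ K
  · rw [jA_true_mem K hx, mk_inr, h x hx]
  · rw [jA_true_not K hx, mk_inl]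

theorem mk_jB_true (K : Set X) (x0 : X) (f g : X → ℝ) (h : ∀ x ∈ K, f x = g x0) (x : X) :
    mk K f g (jB K x0 true x) = f x := by
  by_cases hx : x ∈ K
  · rw [jB_true_mem K x0 hx, mk_inr, h x hx]
  · rw [jB_true_not K x0 hx, mk_inl]

theorem mk_admA (K : Set X) (f g : X → ℝ) (hf : Continuous f) (hg : Continuous g)
    (h : ∀ x ∈ K, f x = g x) : ∀ i, Continuous (fun x : X => mk K f g (jA K i x)) := by
  intro i
  cases i
  · simpa using hg
  · simpa only [mk_jA_true K f g h] using hf

theorem mk_admB (K : Set X) (x0 : X) (f g : X → ℝ) (hf : Continuous f) (hg : Continuous g)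
    (h : ∀ x ∈ K, f x = g x0) : ∀ i, Continuous (fun x : X => mk K f g (jB K x0 i x)) := by
  intro i
  cases i
  · simpa using hg
  · simpa only [mk_jB_true K x0 f g h] using hf

variable [T35Space X]

theorem t35_SA (K : Set X) (hK : IsClosed K) : T35Space (SA K) := by
  apply t35_of_sep
  rintro (⟨x, hx⟩ | x) (⟨y, hy⟩ | y) hne
  · have hxy : x ≠ y := by
      intro h; apply hne; subst h; rfl
    obtain ⟨f, hf, h1, h2⟩ := exists_fun_compl (K ∪ {y}) (hK.union isClosed_singleton) x
      (by simp [hx, hxy])
    refine ⟨mk K f (fun _ => 0), mk_admA K f _ hf continuous_const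
      (fun z hz => h2 z (Or.inl hz)), ?_⟩
    simp [h1, h2 y (Or.inr rfl)]
  · obtain ⟨f, hf, h1, h2⟩ := exists_fun_compl K hK x hx
    refine ⟨mk K f (fun _ => 0), mk_admA K f _ hf continuous_const (fun z hz => h2 z hz), ?_⟩
    simp [h1]
  · obtain ⟨f, hf, h1, h2⟩ := exists_fun_compl K hK y hy
    refine ⟨mk K f (fun _ => 0), mk_admA K f _ hf continuous_const (fun z hz => h2 z hz), ?_⟩
    simp [h1]
  · have hxy : x ≠ y := by
      intro h; apply hne; subst h; rfl
    obtain ⟨f, hf, h1, h2⟩ := exists_fun_compl {y} isClosed_singleton x (by simpa using hxy)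
    refine ⟨mk K f f, mk_admA K f f hf hf (fun z _ => rfl), ?_⟩
    simp [h1, h2 y rfl]

theorem t35_SB (K : Set X) (hK : IsClosed K) (x0 : X) : T35Space (SB K x0) := by
  apply t35_of_sep
  rintro (⟨x, hx⟩ | x) (⟨y, hy⟩ | y) hne
  · have hxy : x ≠ y := by
      intro h; apply hne; subst h; rfl
    obtain ⟨f, hf, h1, h2⟩ := exists_fun_compl (K ∪ {y}) (hK.union isClosed_singleton) x
      (by simp [hx, hxy])
    refine ⟨mk K f (fun _ => 0), mk_admB K x0 f _ hf continuous_const
      (fun z hz => h2 z (Or.inl hz)), ?_⟩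
    simp [h1, h2 y (Or.inr rfl)]
  · obtain ⟨f, hf, h1, h2⟩ := exists_fun_compl K hK x hx
    refine ⟨mk K f (fun _ => 0), mk_admB K x0 f _ hf continuous_const (fun z hz => h2 z hz), ?_⟩
    simp [h1]
  · obtain ⟨f, hf, h1, h2⟩ := exists_fun_compl K hK y hy
    refine ⟨mk K f (fun _ => 0), mk_admB K x0 f _ hf continuous_const (fun z hz => h2 z hz), ?_⟩
    simp [h1]
  · have hxy : x ≠ y := by
      intro h; apply hne; subst h; rfl
    obtain ⟨f, hf, h1, h2⟩ := exists_fun_compl {y} isClosed_singleton x (by simpa using hxy)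
    refine ⟨mk K (fun _ => f x0) f, mk_admB K x0 _ f continuous_const hf (fun z _ => rfl), ?_⟩
    simp [h1, h2 y rfl]

/-- The topology of `SA K` is the gluing topology. -/
theorem isOpen_SA (K : Set X) (hK : IsClosed K) (W : Set (SA K))
    (h1 : IsOpen {x : X | (jA K true x : SA K) ∈ W})
    (h2 : IsOpen {x : X | ((Sum.inr x : Car K) : SA K) ∈ W}) : IsOpen W := by
  rw [isOpen_iff_forall_mem_open]
  have key : ∀ (p : SA K) (F : SA K → ℝ), Continuous F → F p = 1 → (∀ q, F q ≠ 0 → q ∈ W) →
      ∃ t ⊆ W, IsOpen t ∧ p ∈ t := by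
    intro p F hF hp hq
    refine ⟨{q | F q ≠ 0}, hq, ?_, by simp [hp]⟩
    exact isOpen_ne_fun hF continuous_const
  rintro (⟨x, hx⟩ | x) hp
  · have hA : IsOpen ({x : X | (jA K true x : SA K) ∈ W} ∩ Kᶜ) := h1.inter hK.isOpen_compl
    obtain ⟨f, hf, hf1, hf2⟩ := exists_fun_open _ hA x ⟨by
      show jA K true x ∈ W
      rw [jA_true_not K hx]
      exact hp, hx⟩
    have hf0 : ∀ z ∈ K, f z = 0 := by
      intro z hz
      by_contra hne
      exact (hf2 z hne).2 hz
    refine key _ (mk K f (fun _ => 0)) (adm_continuous _ _ (mk_admA K f _ hf continuous_const hf0))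
      (by show mk K f _ (Sum.inl ⟨x, hx⟩) = 1; simp [hf1]) ?_
    rintro (⟨y, hy⟩ | y) hq
    · have := (hf2 y (by simpa using hq)).1
      have h3 : jA K true y ∈ W := this
      rw [jA_true_not K hy] at h3
      exact h3
    · exact absurd rfl hq
  · by_cases hx : x ∈ K
    · obtain ⟨f, hf, hf1, hf2⟩ := exists_fun_open _ (h1.inter h2) x ⟨by
        show jA K true x ∈ W
        rw [jA_true_mem K hx]
        exact hp, hp⟩
      refine key _ (mk K f f) (adm_continuous _ _ (mk_admA K f f hf hf (fun _ _ => rfl)))
        (by show mk K f _ (Sum.inr x) = 1; simp [hf1]) ?_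
      rintro (⟨y, hy⟩ | y) hq
      · have := (hf2 y (by simpa using hq)).1
        have h3 : jA K true y ∈ W := this
        rw [jA_true_not K hy] at h3
        exact h3
      · exact (hf2 y (by simpa using hq)).2
    · obtain ⟨f, hf, hf1, hf2⟩ := exists_fun_open _ (h2.inter hK.isOpen_compl) x ⟨hp, hx⟩
      have hf0 : ∀ z ∈ K, f z = 0 := by
        intro z hz
        by_contra hne
        exact (hf2 z hne).2 hz
      refine key _ (mk K (fun _ => 0) f) (adm_continuous _ _
        (mk_admA K _ f continuous_const hf (fun z hz => (hf0 z hz).symm)))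
        (by show mk K _ f (Sum.inr x) = 1; simp [hf1]) ?_
      rintro (⟨y, hy⟩ | y) hq
      · exact absurd rfl hq
      · exact (hf2 y (by simpa using hq)).1

end AB

section Equiv
variable {X : Type u}

/-- The linear homeomorphism of the function spaces, on all functions. -/
def T (K : Set X) (x0 : X) (F : Car K → ℝ) : Car K → ℝ :=
  Sum.elim (fun x => F (Sum.inl x) - F (Sum.inr x.1) + F (Sum.inr x0)) (fun x => F (Sum.inr x))

/-- Its inverse. -/
def Ti (K : Set X) (x0 : X) (G : Car K → ℝ) : Car K → ℝ :=
  Sum.elim (fun x => G (Sum.inl x) + G (Sum.inr x.1) - G (Sum.inr x0)) (fun x => G (Sum.inr x))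

theorem Ti_T (K : Set X) (x0 : X) (F : Car K → ℝ) : Ti K x0 (T K x0 F) = F := by
  funext p
  rcases p with x | x
  · simp only [T, Ti, Sum.elim_inl, Sum.elim_inr]
    ring
  · simp [T, Ti]

theorem T_Ti (K : Set X) (x0 : X) (F : Car K → ℝ) : T K x0 (Ti K x0 F) = F := by
  funext p
  rcases p with x | x
  · simp only [T, Ti, Sum.elim_inl, Sum.elim_inr]
    ring
  · simp [T, Ti]

variable [TopologicalSpace X]

theorem T_continuous_map (K : Set X) (x0 : X) (F : SA K → ℝ) (hF : Continuous F) :
    Continuous (show SB K x0 → ℝ from T K x0 F) := by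
  obtain ⟨h1, h2⟩ := (continuous_SA_iff K F).1 hF
  refine (continuous_SB_iff K x0 _).2 ⟨?_, ?_⟩
  · have : (fun x : X => (show SB K x0 → ℝ from T K x0 F) (jB K x0 true x)) =
        fun x : X => F (jA K true x) - F (Sum.inr x : Car K) + F (Sum.inr x0 : Car K) := by
      funext x
      by_cases hx : x ∈ K
      · rw [jB_true_mem K x0 hx, jA_true_mem K hx]
        simp [T]
      · rw [jB_true_not K x0 hx, jA_true_not K hx]
        simp [T]
    rw [this]
    exact (h1.sub h2).add continuous_const
  · exact h2

theorem Ti_continuous_map (K : Set X) (x0 : X) (G : SB K x0 → ℝ) (hG : Continuous G) :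
    Continuous (show SA K → ℝ from Ti K x0 G) := by
  obtain ⟨h1, h2⟩ := (continuous_SB_iff K x0 G).1 hG
  refine (continuous_SA_iff K _).2 ⟨?_, ?_⟩
  · have : (fun x : X => (show SA K → ℝ from Ti K x0 G) (jA K true x)) =
        fun x : X => G (jB K x0 true x) + G (Sum.inr x : Car K) - G (Sum.inr x0 : Car K) := by
      funext x
      by_cases hx : x ∈ K
      · rw [jB_true_mem K x0 hx, jA_true_mem K hx]
        simp [Ti]
      · rw [jB_true_not K x0 hx, jA_true_not K hx]
        simp [Ti]
    rw [this]
    exact (h1.add h2).sub continuous_const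
  · exact h2

theorem T_cont (K : Set X) (x0 : X) : Continuous (T K x0) := by
  refine continuous_pi (fun p => ?_)
  rcases p with x | x
  · simp only [T, Sum.elim_inl]
    fun_prop
  · simp only [T, Sum.elim_inr]
    fun_prop

theorem Ti_cont (K : Set X) (x0 : X) : Continuous (Ti K x0) := by
  refine continuous_pi (fun p => ?_)
  rcases p with x | x
  · simp only [Ti, Sum.elim_inl]
    fun_prop
  · simp only [Ti, Sum.elim_inr]
    fun_prop

/-- The homeomorphism of the function spaces. -/
def homeo (K : Set X) (x0 : X) :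
    {f : SA K → ℝ // Continuous f} ≃ₜ {g : SB K x0 → ℝ // Continuous g} where
  toFun f := ⟨T K x0 f.1, T_continuous_map K x0 f.1 f.2⟩
  invFun g := ⟨Ti K x0 g.1, Ti_continuous_map K x0 g.1 g.2⟩
  left_inv f := Subtype.ext (Ti_T K x0 f.1)
  right_inv g := Subtype.ext (T_Ti K x0 g.1)
  continuous_toFun := ((T_cont K x0).comp continuous_subtype_val).subtype_mk _
  continuous_invFun := ((Ti_cont K x0).comp continuous_subtype_val).subtype_mk _

end Equiv

end Pool.Agent.Helpers29.Lq
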