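import Pool.Agent.Helpers29.Lq1

/-!
Spaces in which every point has a clopen base consisting of sets `{p} ∪ (B p m \ C)`, where
`B p m` consists of isolated points and `C` runs over an ideal.
-/

set_option autoImplicit false
universe u v

namespace Pool.Agent.Helpers29.Lq

open Set Topology

/-- Data for a zero-dimensional space all of whose points in the sets `B p m` are isolated. -/
structure NB (X : Type u) where
  B : X → ℕ → Set X
  anti : ∀ p, Antitone (B p)
  iso : ∀ p m q, q ∈ B p m → ∀ m', B q m' = ∅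
  sep : ∀ p p', p ≠ p' → ∀ m, ∃ m', Disjoint (insert p (B p m)) (B p' m')
  I : Set X → Prop
  I0 : I ∅
  IU : ∀ C D, I C → I D → I (C ∪ D)

variable {X : Type u} (N : NB X)

/-- The topology of the data. -/
def NB.top : TopologicalSpace X where
  IsOpen U := ∀ p ∈ U, ∃ m, ∃ C : Set X, N.I C ∧ ∀ q ∈ N.B p m, q ∉ C → q ∈ U
  isOpen_univ := fun _ _ => ⟨0, ∅, N.I0, fun _ _ _ => mem_univ _⟩
  isOpen_inter := by
    intro U V hU hV p hp
    obtain ⟨m, C, hC, h1⟩ := hU p hp.1
    obtain ⟨m', C', hC', h2⟩ := hV p hp.2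
    refine ⟨max m m', C ∪ C', N.IU _ _ hC hC', ?_⟩
    intro q hq hqC
    exact ⟨h1 q (N.anti p (le_max_left _ _) hq) (fun h => hqC (Or.inl h)),
      h2 q (N.anti p (le_max_right _ _) hq) (fun h => hqC (Or.inr h))⟩
  isOpen_sUnion := by
    intro s hs p hp
    obtain ⟨U, hU, hpU⟩ := hp
    obtain ⟨m, C, hC, h1⟩ := hs U hU p hpU
    exact ⟨m, C, hC, fun q hq hqC => ⟨U, hU, h1 q hq hqC⟩⟩

theorem NB.isOpen_iff (U : Set X) : IsOpen[N.top] U ↔
    ∀ p ∈ U, ∃ m, ∃ C : Set X, N.I C ∧ ∀ q ∈ N.B p m, q ∉ C → q ∈ U := Iff.rfl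

/-- The basic sets. -/
def NB.U (p : X) (m : ℕ) (C : Set X) : Set X := insert p (N.B p m \ C)

theorem NB.U_open (p : X) (m : ℕ) (C : Set X) (hC : N.I C) : IsOpen[N.top] (N.U p m C) := by
  rw [N.isOpen_iff]
  rintro q (rfl | ⟨hq, hqC⟩)
  · exact ⟨m, C, hC, fun r hr hrC => Or.inr ⟨hr, hrC⟩⟩
  · refine ⟨0, ∅, N.I0, ?_⟩
    intro r hr
    rw [N.iso p m q hq 0] at hr
    exact absurd hr (notMem_empty _)

theorem NB.U_closed (p : X) (m : ℕ) (C : Set X) : IsClosed[N.top] (N.U p m C) := by
  let _ := N.top
  rw [← isOpen_compl_iff]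
  show IsOpen[N.top] _
  rw [N.isOpen_iff]
  intro q hq
  have hqp : p ≠ q := by
    rintro rfl
    exact hq (Or.inl rfl)
  obtain ⟨m', hd⟩ := N.sep p q hqp m
  refine ⟨m', ∅, N.I0, ?_⟩
  intro r hr _ hrU
  rw [Set.disjoint_left] at hd
  rcases hrU with h | ⟨h, _⟩
  · exact hd (Or.inl h) hr
  · exact hd (Or.inr h) hr

theorem NB.t1 : @T1Space X N.top := by
  letI := N.top
  refine ⟨fun p => ?_⟩
  rw [← isOpen_compl_iff]
  show IsOpen[N.top] _
  rw [N.isOpen_iff]
  intro q hq
  have hqp : p ≠ q := fun h => hq (by simp [h])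
  obtain ⟨m', hd⟩ := N.sep p q hqp 0
  refine ⟨m', ∅, N.I0, ?_⟩
  intro r hr _ hrU
  rw [Set.disjoint_left] at hd
  exact hd (Or.inl hrU) hr

theorem NB.t35 : @T35Space X N.top := by
  letI := N.top
  haveI := N.t1
  haveI : CompletelyRegularSpace X := by
    refine ⟨?_⟩
    intro x K hK hx
    have hKo : IsOpen[N.top] Kᶜ := hK.isOpen_compl
    rw [N.isOpen_iff] at hKo
    obtain ⟨m, C, hC, h⟩ := hKo x hx
    have hcl : IsClopen (N.U x m C) := ⟨N.U_closed x m C, N.U_open x m C hC⟩
    classical
    refine ⟨fun y => if y ∈ N.U x m C then 0 else 1, ?_, ?_, ?_⟩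
    · have : IsLocallyConstant (fun y : X => if y ∈ N.U x m C then (0 : unitInterval) else 1) := by
        rw [IsLocallyConstant.iff_isOpen_fiber]
        intro r
        by_cases h0 : (0 : unitInterval) = r
        · by_cases h1 : (1 : unitInterval) = r
          · exfalso
            have : (0 : unitInterval) = 1 := h0.trans h1.symm
            exact zero_ne_one this
          · have : {y : X | (if y ∈ N.U x m C then (0 : unitInterval) else 1) = r} = N.U x m C := by
              ext y
              by_cases hy : y ∈ N.U x m C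
              · simp [hy, h0]
              · simp [hy, h1]
            have h2 : (fun y : X => if y ∈ N.U x m C then (0 : unitInterval) else 1) ⁻¹' {r} =
              N.U x m C := this
            rw [h2]
            exact hcl.2
        · by_cases h1 : (1 : unitInterval) = r
          · have h2 : (fun y : X => if y ∈ N.U x m C then (0 : unitInterval) else 1) ⁻¹' {r} =
              (N.U x m C)ᶜ := by
              ext y
              by_cases hy : y ∈ N.U x m C
              · simp [hy, h0]
              · simp [hy, h1]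
            rw [h2]
            exact hcl.1.isOpen_compl
          · have h2 : (fun y : X => if y ∈ N.U x m C then (0 : unitInterval) else 1) ⁻¹' {r} =
              ∅ := by
              ext y
              by_cases hy : y ∈ N.U x m C
              · simp [hy, h0]
              · simp [hy, h1]
            rw [h2]
            exact isOpen_empty
      exact this.continuous
    · have : x ∈ N.U x m C := Or.inl rfl
      simp [this]
    · intro y hy
      have : y ∉ N.U x m C := by
        rintro (rfl | ⟨h1, h2⟩)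
        · exact hx hy
        · exact h y h1 h2 hy
      simp [this]
  exact {}

/-- A set of points none of which is in a set `B p m` is closed. -/
theorem NB.closed_of (K : Set X) (hK : ∀ p m, ∀ q ∈ N.B p m, q ∉ K) : IsClosed[N.top] K := by
  let _ := N.top
  rw [← isOpen_compl_iff]
  show IsOpen[N.top] _
  rw [N.isOpen_iff]
  intro p _
  exact ⟨0, ∅, N.I0, fun q hq _ => hK p 0 q hq⟩

end Pool.Agent.Helpers29.Lq
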