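import Pool.Agent.Helpers29.Lq2

/-!
The space for the property that all countable sets are closed.
-/

set_option autoImplicit false
universe u v

namespace Pool.Agent.Helpers29.Lq

open Set Topology

/-- The points: `k n`, `d n`, `x g` and the isolated points `i n s g w`. -/
inductive P3 : Type u
  | k (n : ℕ) : P3
  | d (n : ℕ) : P3
  | x (g : ℕ → ℕ) : P3
  | i (n : ℕ) (s : Bool) (g : ℕ → ℕ) (w : ℝ) : P3

/-- The basic sets. -/
def B3 : P3.{u} → ℕ → Set P3.{u}
  | .k n, m => {q | ∃ g w, m ≤ g n ∧ q = .i n false g w}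
  | .d n, m => {q | ∃ g w, m ≤ g n ∧ q = .i n true g w}
  | .x g, m => {q | ∃ n s w, m ≤ n ∧ q = .i n s g w}
  | .i _ _ _ _, _ => ∅

theorem B3_iso (p : P3.{u}) (m : ℕ) (q : P3.{u}) (hq : q ∈ B3 p m) (m' : ℕ) : B3 q m' = ∅ := by
  rcases p with n | n | g | _
  · obtain ⟨g, w, _, rfl⟩ := hq
    rfl
  · obtain ⟨g, w, _, rfl⟩ := hq
    rfl
  · obtain ⟨n, s, w, _, rfl⟩ := hq
    rfl
  · exact absurd hq (notMem_empty _)

theorem B3_anti (p : P3.{u}) : Antitone (B3 p) := by
  intro m m' hm q hq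
  rcases p with n | n | g | _
  · obtain ⟨g, w, h, rfl⟩ := hq
    exact ⟨g, w, hm.trans h, rfl⟩
  · obtain ⟨g, w, h, rfl⟩ := hq
    exact ⟨g, w, hm.trans h, rfl⟩
  · obtain ⟨n, s, w, h, rfl⟩ := hq
    exact ⟨n, s, w, hm.trans h, rfl⟩
  · exact absurd hq (notMem_empty _)

theorem B3_sep (p p' : P3.{u}) (h : p ≠ p') (m : ℕ) :
    ∃ m', Disjoint (insert p (B3 p m)) (B3 p' m') := by
  rcases p' with n' | n' | g' | ⟨n', s', g', w'⟩
  · -- `k n'`
    rcases p with n | n | g | ⟨n, s, g, w⟩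
    · refine ⟨0, Set.disjoint_left.2 ?_⟩
      rintro q (rfl | ⟨g1, w1, h1, rfl⟩) ⟨g2, w2, h3, h4⟩
      · cases h4
      · cases h4
        exact h rfl
    · refine ⟨0, Set.disjoint_left.2 ?_⟩
      rintro q (rfl | ⟨g1, w1, h1, rfl⟩) ⟨g2, w2, h3, h4⟩
      · cases h4
      · cases h4
    · refine ⟨g n' + 1, Set.disjoint_left.2 ?_⟩
      rintro q (rfl | ⟨n1, s1, w1, h1, rfl⟩) ⟨g2, w2, h3, h4⟩
      · cases h4
      · cases h4
        omega
    · refine ⟨g n' + 1, Set.disjoint_left.2 ?_⟩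
      rintro q (rfl | h1) ⟨g2, w2, h3, h4⟩
      · cases h4
        omega
      · exact absurd h1 (notMem_empty _)
  · -- `d n'`
    rcases p with n | n | g | ⟨n, s, g, w⟩
    · refine ⟨0, Set.disjoint_left.2 ?_⟩
      rintro q (rfl | ⟨g1, w1, h1, rfl⟩) ⟨g2, w2, h3, h4⟩
      · cases h4
      · cases h4
    · refine ⟨0, Set.disjoint_left.2 ?_⟩
      rintro q (rfl | ⟨g1, w1, h1, rfl⟩) ⟨g2, w2, h3, h4⟩
      · cases h4
      · cases h4
        exact h rfl
    · refine ⟨g n' + 1, Set.disjoint_left.2 ?_⟩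
      rintro q (rfl | ⟨n1, s1, w1, h1, rfl⟩) ⟨g2, w2, h3, h4⟩
      · cases h4
      · cases h4
        omega
    · refine ⟨g n' + 1, Set.disjoint_left.2 ?_⟩
      rintro q (rfl | h1) ⟨g2, w2, h3, h4⟩
      · cases h4
        omega
      · exact absurd h1 (notMem_empty _)
  · -- `x g'`
    rcases p with n | n | g | ⟨n, s, g, w⟩
    · refine ⟨n + 1, Set.disjoint_left.2 ?_⟩
      rintro q (rfl | ⟨g1, w1, h1, rfl⟩) ⟨n2, s2, w2, h3, h4⟩
      · cases h4
      · cases h4
        omega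
    · refine ⟨n + 1, Set.disjoint_left.2 ?_⟩
      rintro q (rfl | ⟨g1, w1, h1, rfl⟩) ⟨n2, s2, w2, h3, h4⟩
      · cases h4
      · cases h4
        omega
    · refine ⟨0, Set.disjoint_left.2 ?_⟩
      rintro q (rfl | ⟨n1, s1, w1, h1, rfl⟩) ⟨n2, s2, w2, h3, h4⟩
      · cases h4
      · cases h4
        exact h rfl
    · refine ⟨n + 1, Set.disjoint_left.2 ?_⟩
      rintro q (rfl | h1) ⟨n2, s2, w2, h3, h4⟩
      · cases h4
        omega
      · exact absurd h1 (notMem_empty _)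
  · exact ⟨0, by simp [B3]⟩

/-- The data of the space. -/
def N3 : NB P3.{u} where
  B := B3
  anti := B3_anti
  iso := B3_iso
  sep := B3_sep
  I := Set.Countable
  I0 := countable_empty
  IU := fun _ _ h1 h2 => h1.union h2

instance : TopologicalSpace P3.{u} := N3.top

instance : T35Space P3.{u} := N3.t35

theorem P3_isOpen_iff (U : Set P3.{u}) : IsOpen U ↔
    ∀ p ∈ U, ∃ m, ∃ C : Set P3.{u}, C.Countable ∧ ∀ q ∈ B3 p m, q ∉ C → q ∈ U := Iff.rfl

theorem P3_closed_of_countable (C : Set P3.{u}) (hC : C.Countable) : IsClosed C := by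
  rw [← isOpen_compl_iff, P3_isOpen_iff]
  intro p _
  exact ⟨0, C, hC, fun q _ hqC => hqC⟩

/-- The closed set which is collapsed. -/
def K3 : Set P3.{u} := range P3.k

theorem K3_closed : IsClosed K3.{u} := P3_closed_of_countable _ (countable_range _)

theorem exists_w (C : Set P3.{u}) (hC : C.Countable) (n : ℕ) (s : Bool) (g : ℕ → ℕ) :
    ∃ w : ℝ, P3.i n s g w ∉ C := by
  by_contra hcon
  push Not at hcon
  have hinj : Function.Injective (fun w : ℝ => (P3.i n s g w : P3.{u})) := by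
    intro w w' h
    simpa using h
  have h1 : (univ : Set ℝ).Countable := by
    have := hC.preimage hinj
    refine this.mono ?_
    intro w _
    exact hcon w
  exact not_countable_univ_real h1
where
  not_countable_univ_real (h1 : (univ : Set ℝ).Countable) : False := by
    exact Set.not_countable_univ h1

/-- No continuous function separates the points `k n` from the points `d n`. -/
theorem P3_key (f : P3.{u} → ℝ) (hf : Continuous f) (h0 : ∀ n, f (.k n) = 0)
    (h1 : ∀ n, f (.d n) = 1) : False := by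
  have hlt : IsOpen {p | f p < 1 / 3} := isOpen_lt hf continuous_const
  have hgt : IsOpen {p | 2 / 3 < f p} := isOpen_lt continuous_const hf
  have hlt' : IsOpen {p | f p < 2 / 3} := isOpen_lt hf continuous_const
  have hgt' : IsOpen {p | 1 / 3 < f p} := isOpen_lt continuous_const hf
  rw [P3_isOpen_iff] at hlt hgt hlt' hgt'
  have hk : ∀ n, ∃ m, ∃ C : Set P3.{u}, C.Countable ∧ ∀ q ∈ B3 (.k n) m, q ∉ C → f q < 1 / 3 :=
    fun n => hlt (.k n) (by simp [h0 n])
  have hd : ∀ n, ∃ m, ∃ C : Set P3.{u}, C.Countable ∧ ∀ q ∈ B3 (.d n) m, q ∉ C → 2 / 3 < f q :=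
    fun n => hgt (.d n) (by simp only [mem_setOf_eq, h1 n]; norm_num)
  choose m C hC hk using hk
  choose m' C' hC' hd using hd
  let g : ℕ → ℕ := fun n => max (m n) (m' n)
  rcases le_or_gt (f (.x g)) (1 / 3) with hle | hgt1
  · obtain ⟨l, D, hD, hl⟩ := hlt' (.x g) (by
      simp only [mem_setOf_eq]
      linarith)
    obtain ⟨w, hw⟩ := exists_w (D ∪ C' l) (hD.union (hC' l)) l true g
    have h2 := hl (.i l true g w) ⟨l, true, w, le_rfl, rfl⟩ (fun h => hw (Or.inl h))
    have h3 := hd l (.i l true g w) ⟨g, w, le_max_right _ _, rfl⟩ (fun h => hw (Or.inr h))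
    simp only [mem_setOf_eq] at h2
    linarith
  · obtain ⟨l, D, hD, hl⟩ := hgt' (.x g) hgt1
    obtain ⟨w, hw⟩ := exists_w (D ∪ C l) (hD.union (hC l)) l false g
    have h2 := hl (.i l false g w) ⟨l, false, w, le_rfl, rfl⟩ (fun h => hw (Or.inl h))
    have h3 := hk l (.i l false g w) ⟨g, w, le_max_left _ _, rfl⟩ (fun h => hw (Or.inr h))
    simp only [mem_setOf_eq] at h2
    linarith

/-- The base point of the second copy. -/
def z3 : P3.{u} := .i 0 false (fun _ => 0) 0

theorem SA3_countable_closed (s : Set (SA K3.{u})) (hs : s.Countable) : IsClosed s := by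
  rw [← isOpen_compl_iff]
  refine isOpen_SA K3 K3_closed _ ?_ ?_
  · have h1 : ((fun x : P3.{u} => (jA K3 true x : SA K3)) ⁻¹' s).Countable :=
      hs.preimage (jA_injective K3 true)
    exact (P3_closed_of_countable _ h1).isOpen_compl
  · have h1 : ((fun x : P3.{u} => ((Sum.inr x : Car K3) : SA K3)) ⁻¹' s).Countable :=
      hs.preimage (jA_injective K3 false)
    exact (P3_closed_of_countable _ h1).isOpen_compl

theorem d_notMem (n : ℕ) : (P3.d n : P3.{u}) ∉ K3 := by
  rintro ⟨m, hm⟩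
  cases hm

theorem SB3_not_closed : ∃ t : Set (SB K3.{u} z3), t.Countable ∧ ¬ IsClosed t := by
  refine ⟨range (fun n : ℕ => ((Sum.inl ⟨.d n, d_notMem n⟩ : Car K3.{u}) : SB K3 z3)),
    countable_range _, ?_⟩
  intro hcl
  haveI : T35Space (SB K3.{u} z3) := t35_SB K3 K3_closed z3
  obtain ⟨f, hf, hf1, hf2⟩ := exists_fun_compl _ hcl ((Sum.inr z3 : Car K3.{u}) : SB K3 z3) (by
    rintro ⟨n, hn⟩
    cases hn)
  have hc := ((continuous_SB_iff K3 z3 f).1 hf).1
  refine P3_key (fun x => 1 - f (jB K3 z3 true x)) (continuous_const.sub hc) ?_ ?_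
  · intro n
    have hn : (P3.k n : P3.{u}) ∈ K3 := ⟨n, rfl⟩
    rw [jB_true_mem K3 z3 hn, hf1]
    norm_num
  · intro n
    rw [jB_true_not K3 z3 (d_notMem n), hf2 _ ⟨n, rfl⟩]
    norm_num

/-- The negative answer. -/
theorem not_countable_closed :
    ¬ (∀ (X Y : Type u) [TopologicalSpace X] [TopologicalSpace Y] [T35Space X] [T35Space Y],
      Nonempty ({f : X → ℝ // Continuous f} ≃ₜ {g : Y → ℝ // Continuous g}) →
      (∀ s : Set X, s.Countable → IsClosed s) →
      ∀ t : Set Y, t.Countable → IsClosed t) := by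
  intro h
  obtain ⟨t, ht, htn⟩ := SB3_not_closed.{u}
  haveI : T35Space (SA K3.{u}) := t35_SA K3 K3_closed
  haveI : T35Space (SB K3.{u} z3) := t35_SB K3 K3_closed z3
  exact htn (h (SA K3.{u}) (SB K3.{u} z3) ⟨homeo K3 z3⟩ SA3_countable_closed t ht)

end Pool.Agent.Helpers29.Lq
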