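import Pool.Agent.Helpers29.Lq2

/-!
The space for perfectness: the binary tree with its branches.
-/

set_option autoImplicit false
universe u v

namespace Pool.Agent.Helpers29.Lq

open Set Topology

/-- The points: nodes of the binary tree and branches. -/
inductive P4 : Type
  | node (s : List Bool) : P4
  | br (x : ℕ → Bool) : P4

/-- The initial segment of length `n` of the branch `x`. -/
def seg (x : ℕ → Bool) (n : ℕ) : List Bool := (List.range n).map x

theorem seg_length (x : ℕ → Bool) (n : ℕ) : (seg x n).length = n := by simp [seg]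

theorem seg_inj (x y : ℕ → Bool) (n m k : ℕ) (h : seg x n = seg y m) (hk : k < m) : x k = y k := by
  have hnm : n = m := by
    have := congrArg List.length h
    simpa [seg_length] using this
  subst hnm
  unfold seg at h
  rw [List.map_inj_left] at h
  exact h k (by simpa using hk)

/-- The basic sets. -/
def B4 : P4 → ℕ → Set P4
  | .br x, m => {q | ∃ n, m ≤ n ∧ q = .node (seg x n)}
  | .node _, _ => ∅

theorem B4_iso (p : P4) (m : ℕ) (q : P4) (hq : q ∈ B4 p m) (m' : ℕ) : B4 q m' = ∅ := by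
  rcases p with s | x
  · exact absurd hq (notMem_empty _)
  · obtain ⟨n, _, rfl⟩ := hq
    rfl

theorem B4_anti (p : P4) : Antitone (B4 p) := by
  intro m m' hm q hq
  rcases p with s | x
  · exact absurd hq (notMem_empty _)
  · obtain ⟨n, h, rfl⟩ := hq
    exact ⟨n, hm.trans h, rfl⟩

theorem B4_sep (p p' : P4) (h : p ≠ p') (m : ℕ) :
    ∃ m', Disjoint (insert p (B4 p m)) (B4 p' m') := by
  rcases p' with s' | y
  · exact ⟨0, by simp [B4]⟩
  · rcases p with s | x
    · refine ⟨s.length + 1, Set.disjoint_left.2 ?_⟩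
      rintro q (rfl | h1) ⟨n, h3, h4⟩
      · have : s = seg y n := by cases h4; rfl
        rw [this, seg_length] at h3
        omega
      · exact absurd h1 (notMem_empty _)
    · have hxy : x ≠ y := fun h1 => h (by rw [h1])
      obtain ⟨k, hk⟩ := Function.ne_iff.1 hxy
      refine ⟨k + 1, Set.disjoint_left.2 ?_⟩
      rintro q (rfl | ⟨n, _, rfl⟩) ⟨n', h3, h4⟩
      · cases h4
      · have h5 : seg x n = seg y n' := by
          injection h4
        exact hk (seg_inj x y n n' k h5 (by omega))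

/-- The data of the space. -/
def N4 : NB P4 where
  B := B4
  anti := B4_anti
  iso := B4_iso
  sep := B4_sep
  I := fun C => C = ∅
  I0 := rfl
  IU := fun _ _ h1 h2 => by rw [h1, h2, union_self]

instance : TopologicalSpace P4 := N4.top

instance : T35Space P4 := N4.t35

theorem P4_isOpen_iff (U : Set P4) : IsOpen U ↔
    ∀ p ∈ U, ∃ m, ∀ q ∈ B4 p m, q ∈ U := by
  constructor
  · intro h p hp
    obtain ⟨m, C, hC, h1⟩ := h p hp
    have hC' : C = ∅ := hC
    exact ⟨m, fun q hq => h1 q hq (by rw [hC']; exact notMem_empty _)⟩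
  · intro h p hp
    obtain ⟨m, h1⟩ := h p hp
    exact ⟨m, ∅, rfl, fun q hq _ => h1 q hq⟩

/-- The nodes of level at least `n`. -/
def L4 (n : ℕ) : Set P4 := {q | ∃ s : List Bool, n ≤ s.length ∧ q = .node s}

theorem P4_open_of_L4 (n : ℕ) (U : Set P4) (h : L4 n ⊆ U) : IsOpen U := by
  rw [P4_isOpen_iff]
  intro p _
  refine ⟨n, ?_⟩
  rcases p with s | x
  · intro q hq
    exact absurd hq (notMem_empty _)
  · rintro q ⟨k, hk, rfl⟩
    exact h ⟨seg x k, by rw [seg_length]; exact hk, rfl⟩

/-- The closed set of branches with `x ∈ A`. -/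
def K4 (A : Set (ℕ → Bool)) : Set P4 := P4.br '' A

theorem K4_closed (A : Set (ℕ → Bool)) : IsClosed (K4 A) := by
  apply N4.closed_of
  rintro p m q hq ⟨x, _, rfl⟩
  rcases p with s | y
  · exact absurd hq (notMem_empty _)
  · obtain ⟨n, _, h⟩ := hq
    cases h

theorem br_mem_K4 (A : Set (ℕ → Bool)) (x : ℕ → Bool) : P4.br x ∈ K4 A ↔ x ∈ A := by
  constructor
  · rintro ⟨y, hy, h⟩
    cases h
    exact hy
  · intro h
    exact ⟨x, h, rfl⟩

theorem node_notMem_K4 (A : Set (ℕ → Bool)) (s : List Bool) : P4.node s ∉ K4 A := by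
  rintro ⟨y, hy, h⟩
  cases h

/-- The nodes are dense. -/
theorem nodes_dense : Dense (range P4.node) := by
  rw [dense_iff_inter_open]
  intro U hU hne
  obtain ⟨p, hp⟩ := hne
  rcases p with s | x
  · exact ⟨_, hp, s, rfl⟩
  · obtain ⟨m, hm⟩ := (P4_isOpen_iff U).1 hU _ hp
    exact ⟨.node (seg x m), hm _ ⟨m, le_rfl, rfl⟩, seg x m, rfl⟩

theorem eq_of_nodes (f g : P4 → ℝ) (hf : Continuous f) (hg : Continuous g)
    (h : ∀ s, f (.node s) = g (.node s)) : f = g := by
  apply Continuous.ext_on nodes_dense hf hg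
  rintro _ ⟨s, rfl⟩
  exact h s

/-- There is a set of branches which is not an intersection of countably many zero sets. -/
theorem exists_A : ∃ A : Set (ℕ → Bool), ¬ ∃ f : ℕ → P4 → ℝ, (∀ n, Continuous (f n)) ∧
    ∀ p, p ∈ K4 A ↔ ∀ n, f n p = 0 := by
  by_contra hcon
  push Not at hcon
  choose f hf hz using hcon
  let code : Set (ℕ → Bool) → (ℕ × List Bool → ℝ) := fun A q => f A q.1 (.node q.2)
  have hinj : Function.Injective code := by
    intro A A' h
    have h1 : f A = f A' := by
      funext n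
      apply eq_of_nodes _ _ (hf A n) (hf A' n)
      intro s
      exact congrFun h (n, s)
    ext x
    rw [← br_mem_K4 A x, ← br_mem_K4 A' x, hz A, hz A', h1]
  have h2 := Cardinal.mk_le_of_injective hinj
  rw [Cardinal.mk_set] at h2
  have h3 : Cardinal.mk (ℕ × List Bool → ℝ) = Cardinal.continuum := by
    rw [← Cardinal.power_def, Cardinal.mk_real]
    have : Cardinal.mk (ℕ × List Bool) = Cardinal.aleph0 := Cardinal.mk_eq_aleph0 _
    rw [this, Cardinal.continuum_power_aleph0]
  have h4 : Cardinal.mk (ℕ → Bool) = Cardinal.continuum := by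
    rw [← Cardinal.power_def]
    simp
  rw [h3, h4] at h2
  exact absurd h2 (not_le.2 (Cardinal.cantor _))

/-- Every subset of the double is a Gδ. -/
theorem SA4_perfect (A : Set (ℕ → Bool)) (F : Set (SA (K4 A))) : IsGδ F := by
  let L : ℕ → Set (SA (K4 A)) := fun n =>
    {p | ∃ s : List Bool, n ≤ s.length ∧
      ((p : Car (K4 A)) = Sum.inl ⟨.node s, node_notMem_K4 A s⟩ ∨ (p : Car (K4 A)) = Sum.inr (.node s))}
  have hopen : ∀ n, IsOpen (F ∪ L n) := by
    intro n
    refine isOpen_SA (K4 A) (K4_closed A) _ ?_ ?_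
    · refine P4_open_of_L4 n _ ?_
      rintro q ⟨s, hs, rfl⟩
      right
      refine ⟨s, hs, Or.inl ?_⟩
      exact jA_true_not (K4 A) (node_notMem_K4 A s)
    · refine P4_open_of_L4 n _ ?_
      rintro q ⟨s, hs, rfl⟩
      right
      exact ⟨s, hs, Or.inr rfl⟩
  have heq : F = ⋂ n, (F ∪ L n) := by
    apply Subset.antisymm
    · exact subset_iInter (fun n => subset_union_left)
    · intro p hp
      by_contra hpF
      have h1 : ∀ n, p ∈ L n := fun n => (mem_iInter.1 hp n).resolve_left hpF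
      obtain ⟨s, _, hs⟩ := h1 0
      obtain ⟨t, ht, hts⟩ := h1 (s.length + 1)
      have : s = t := by
        rcases hs with hs | hs <;> rcases hts with hts | hts
        · have := hs.symm.trans hts
          cases this
          rfl
        · have := hs.symm.trans hts
          cases this
        · have := hs.symm.trans hts
          cases this
        · have := hs.symm.trans hts
          cases this
          rfl
      rw [← this] at ht
      omega
  rw [heq]
  exact IsGδ.iInter_of_isOpen hopen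

/-- The point `x0` of the second space is not a Gδ. -/
theorem SB4_not_perfect (A : Set (ℕ → Bool)) (hA : ¬ ∃ f : ℕ → P4 → ℝ, (∀ n, Continuous (f n)) ∧
    ∀ p, p ∈ K4 A ↔ ∀ n, f n p = 0) :
    ¬ IsGδ ({(Sum.inr (.node []) : Car (K4 A))} : Set (SB (K4 A) (.node []))) := by
  haveI : T35Space (SB (K4 A) (.node [])) := t35_SB _ (K4_closed A) _
  intro hG
  obtain ⟨V, hV, hVe⟩ := hG.eq_iInter_nat
  have hmem : ∀ n, (Sum.inr (.node []) : Car (K4 A)) ∈ V n := by
    intro n
    have : (Sum.inr (.node []) : Car (K4 A)) ∈ ⋂ n, V n := by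
      rw [← hVe]
      rfl
    exact mem_iInter.1 this n
  have hf : ∀ n, ∃ f : SB (K4 A) (.node []) → ℝ, Continuous f ∧
      f (Sum.inr (.node []) : Car (K4 A)) = 1 ∧ ∀ y, f y ≠ 0 → y ∈ V n := fun n =>
    exists_fun_open _ (hV n) _ (hmem n)
  choose f hf h1 h2 using hf
  apply hA
  refine ⟨fun n x => 1 - f n (jB (K4 A) (.node []) true x), fun n =>
    continuous_const.sub ((continuous_SB_iff _ _ _).1 (hf n)).1, ?_⟩
  intro p
  constructor
  · intro hp n
    show 1 - f n (jB (K4 A) (.node []) true p) = 0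
    rw [jB_true_mem _ _ hp, h1, sub_self]
  · intro hp
    by_contra hpK
    have h3 : ∀ n, (jB (K4 A) (.node []) true p : SB (K4 A) (.node [])) ∈ V n := by
      intro n
      apply h2
      have h5 : 1 - f n (jB (K4 A) (.node []) true p) = 0 := hp n
      intro h0
      rw [h0] at h5
      norm_num at h5
    have h4 : (jB (K4 A) (.node []) true p : SB (K4 A) (.node [])) ∈
        ({(Sum.inr (.node []) : Car (K4 A))} : Set (SB (K4 A) (.node []))) := by
      rw [hVe]
      exact mem_iInter.2 h3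
    rw [jB_true_not _ _ hpK] at h4
    cases h4

/-- Uniform homeomorphism of the spaces of continuous functions. -/
theorem uniform_equiv {X : Type} [TopologicalSpace X] (K : Set X) (x0 : X) :
    ∃ Φ : C(SA K, ℝ) ≃ C(SB K x0, ℝ),
        (∀ B : Finset (SB K x0), ∀ ε : ℝ, 0 < ε → ∃ A : Finset (SA K), ∃ δ : ℝ, 0 < δ ∧
          ∀ f g : C(SA K, ℝ), (∀ x ∈ A, |f x - g x| < δ) →
            ∀ y ∈ B, |Φ f y - Φ g y| < ε) ∧
        (∀ A : Finset (SA K), ∀ ε : ℝ, 0 < ε → ∃ B : Finset (SB K x0), ∃ δ : ℝ, 0 < δ ∧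
          ∀ f g : C(SB K x0, ℝ), (∀ y ∈ B, |f y - g y| < δ) →
            ∀ x ∈ A, |Φ.symm f x - Φ.symm g x| < ε) := by
  classical
  let Φ : C(SA K, ℝ) ≃ C(SB K x0, ℝ) :=
    { toFun := fun f => ⟨T K x0 f, T_continuous_map K x0 f f.continuous⟩
      invFun := fun g => ⟨Ti K x0 g, Ti_continuous_map K x0 g g.continuous⟩
      left_inv := fun f => by
        apply ContinuousMap.ext
        intro p
        exact congrFun (Ti_T K x0 f) p
      right_inv := fun g => by
        apply ContinuousMap.ext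
        intro p
        exact congrFun (T_Ti K x0 g) p }
  -- the finite set on which the value at `p` depends
  let D : Car K → Finset (Car K) := fun p =>
    Sum.elim (fun x => {Sum.inl x, Sum.inr x.1, Sum.inr x0}) (fun x => {Sum.inr x}) p
  have key1 : ∀ (f g : C(SA K, ℝ)) (p : Car K) (δ : ℝ), 0 < δ →
      (∀ q ∈ D p, |f (q : SA K) - g (q : SA K)| < δ) →
      |Φ f (p : SB K x0) - Φ g (p : SB K x0)| < 3 * δ := by
    intro f g p δ hδ h
    rcases p with x | x
    · have h1 := h (Sum.inl x) (by simp [D])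
      have h2 := h (Sum.inr x.1) (by simp [D])
      have h3 := h (Sum.inr x0) (by simp [D])
      have e1 : Φ f ((Sum.inl x : Car K) : SB K x0) =
        f ((Sum.inl x : Car K) : SA K) - f ((Sum.inr x.1 : Car K) : SA K) + f ((Sum.inr x0 : Car K) : SA K) := rfl
      have e2 : Φ g ((Sum.inl x : Car K) : SB K x0) =
        g ((Sum.inl x : Car K) : SA K) - g ((Sum.inr x.1 : Car K) : SA K) + g ((Sum.inr x0 : Car K) : SA K) := rfl
      rw [e1, e2]
      rw [abs_lt] at h1 h2 h3 ⊢
      constructor <;> linarith [h1.1, h1.2, h2.1, h2.2, h3.1, h3.2]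
    · have h1 := h (Sum.inr x) (by simp [D])
      have e1 : Φ f ((Sum.inr x : Car K) : SB K x0) = f ((Sum.inr x : Car K) : SA K) := rfl
      have e2 : Φ g ((Sum.inr x : Car K) : SB K x0) = g ((Sum.inr x : Car K) : SA K) := rfl
      rw [e1, e2]
      linarith
  have key2 : ∀ (f g : C(SB K x0, ℝ)) (p : Car K) (δ : ℝ), 0 < δ →
      (∀ q ∈ D p, |f (q : SB K x0) - g (q : SB K x0)| < δ) →
      |Φ.symm f (p : SA K) - Φ.symm g (p : SA K)| < 3 * δ := by
    intro f g p δ hδ h
    rcases p with x | x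
    · have h1 := h (Sum.inl x) (by simp [D])
      have h2 := h (Sum.inr x.1) (by simp [D])
      have h3 := h (Sum.inr x0) (by simp [D])
      have e1 : Φ.symm f ((Sum.inl x : Car K) : SA K) =
        f ((Sum.inl x : Car K) : SB K x0) + f ((Sum.inr x.1 : Car K) : SB K x0) - f ((Sum.inr x0 : Car K) : SB K x0) := rfl
      have e2 : Φ.symm g ((Sum.inl x : Car K) : SA K) =
        g ((Sum.inl x : Car K) : SB K x0) + g ((Sum.inr x.1 : Car K) : SB K x0) - g ((Sum.inr x0 : Car K) : SB K x0) := rfl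
      rw [e1, e2]
      rw [abs_lt] at h1 h2 h3 ⊢
      constructor <;> linarith [h1.1, h1.2, h2.1, h2.2, h3.1, h3.2]
    · have h1 := h (Sum.inr x) (by simp [D])
      have e1 : Φ.symm f ((Sum.inr x : Car K) : SA K) = f ((Sum.inr x : Car K) : SB K x0) := rfl
      have e2 : Φ.symm g ((Sum.inr x : Car K) : SA K) = g ((Sum.inr x : Car K) : SB K x0) := rfl
      rw [e1, e2]
      linarith
  refine ⟨Φ, ?_, ?_⟩
  · intro B ε hε
    refine ⟨B.biUnion D, ε / 3, by positivity, ?_⟩
    intro f g h y hy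
    have := key1 f g y (ε / 3) (by positivity) (fun q hq => h q (Finset.mem_biUnion.2 ⟨y, hy, hq⟩))
    linarith
  · intro B ε hε
    refine ⟨B.biUnion D, ε / 3, by positivity, ?_⟩
    intro f g h y hy
    have := key2 f g y (ε / 3) (by positivity) (fun q hq => h q (Finset.mem_biUnion.2 ⟨y, hy, hq⟩))
    linarith

/-- The negative answer for uniform equivalence. -/
theorem not_perfect_u :
    ¬ (∀ (X Y : Type) [TopologicalSpace X] [TopologicalSpace Y] [T35Space X] [T35Space Y],
      (∃ Φ : C(X, ℝ) ≃ C(Y, ℝ),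
        (∀ B : Finset Y, ∀ ε : ℝ, 0 < ε → ∃ A : Finset X, ∃ δ : ℝ, 0 < δ ∧
          ∀ f g : C(X, ℝ), (∀ x ∈ A, |f x - g x| < δ) →
            ∀ y ∈ B, |Φ f y - Φ g y| < ε) ∧
        (∀ A : Finset X, ∀ ε : ℝ, 0 < ε → ∃ B : Finset Y, ∃ δ : ℝ, 0 < δ ∧
          ∀ f g : C(Y, ℝ), (∀ y ∈ B, |f y - g y| < δ) →
            ∀ x ∈ A, |Φ.symm f x - Φ.symm g x| < ε)) →
      (∀ s : Set X, IsClosed s → IsGδ s) →
      (∀ t : Set Y, IsClosed t → IsGδ t)) := by
  intro h
  obtain ⟨A, hA⟩ := exists_A
  haveI : T35Space (SA (K4 A)) := t35_SA _ (K4_closed A)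
  haveI : T35Space (SB (K4 A) (.node [])) := t35_SB _ (K4_closed A) _
  exact SB4_not_perfect A hA (h (SA (K4 A)) (SB (K4 A) (.node [])) (uniform_equiv _ _)
    (fun s _ => SA4_perfect A s) _ isClosed_singleton)

end Pool.Agent.Helpers29.Lq
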