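import Mathlib

/-! Groups of triples (sign, vector, centre): the extension by `-1` of the class two group of a
biadditive map. -/

set_option autoImplicit false

namespace Pool.Agent.Helpers29.Lv

variable {V Z : Type} [AddCommGroup V] [AddCommGroup Z]

/-- triples (sign, vector, centre) -/
@[ext] structure TG (b : V →+ V →+ Z) where
  e : ℤˣ
  v : V
  z : Z

namespace TG

variable {b : V →+ V →+ Z}

instance : Mul (TG b) := ⟨fun x y => ⟨x.e * y.e, x.v + x.e • y.v, x.z + y.z + x.e • b x.v y.v⟩⟩
instance : One (TG b) := ⟨⟨1, 0, 0⟩⟩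
instance : Inv (TG b) := ⟨fun x => ⟨x.e, -(x.e • x.v), -x.z + b x.v x.v⟩⟩

@[simp] lemma mul_e (x y : TG b) : (x * y).e = x.e * y.e := rfl
@[simp] lemma mul_v (x y : TG b) : (x * y).v = x.v + x.e • y.v := rfl
@[simp] lemma mul_z (x y : TG b) : (x * y).z = x.z + y.z + x.e • b x.v y.v := rfl
@[simp] lemma one_e : (1 : TG b).e = 1 := rfl
@[simp] lemma one_v : (1 : TG b).v = 0 := rfl
@[simp] lemma one_z : (1 : TG b).z = 0 := rfl
@[simp] lemma inv_e (x : TG b) : (x⁻¹).e = x.e := rfl
@[simp] lemma inv_v (x : TG b) : (x⁻¹).v = -(x.e • x.v) := rfl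
@[simp] lemma inv_z (x : TG b) : (x⁻¹).z = -x.z + b x.v x.v := rfl

instance : Group (TG b) := Group.ofLeftAxioms
  (by
    intro x y w
    obtain ⟨xe, xv, xz⟩ := x
    obtain ⟨ye, yv, yz⟩ := y
    obtain ⟨we, wv, wz⟩ := w
    ext
    · simp [mul_assoc]
    · rcases Int.units_eq_one_or xe with rfl | rfl <;> rcases Int.units_eq_one_or ye with rfl | rfl <;>
        simp <;> abel
    · rcases Int.units_eq_one_or xe with rfl | rfl <;> rcases Int.units_eq_one_or ye with rfl | rfl <;>
        simp <;> abel)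
  (by
    intro x
    ext <;> simp)
  (by
    intro x
    obtain ⟨xe, xv, xz⟩ := x
    ext
    · simp
    · rcases Int.units_eq_one_or xe with rfl | rfl <;> simp
    · rcases Int.units_eq_one_or xe with rfl | rfl <;> simp)

end TG

/-- the subgroup of triples with vector in a subgroup -/
def sub (b : V →+ V →+ Z) (U : AddSubgroup V) : Subgroup (TG b) where
  carrier := {x | x.v ∈ U}
  mul_mem' := by
    intro x y hx hy
    simp only [Set.mem_setOf_eq, TG.mul_v] at *
    rcases Int.units_eq_one_or x.e with h | h <;> rw [h]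
    · simpa using U.add_mem hx hy
    · simpa using U.add_mem hx (U.neg_mem hy)
  one_mem' := by simp [U.zero_mem]
  inv_mem' := by
    intro x hx
    simp only [Set.mem_setOf_eq, TG.inv_v] at *
    rcases Int.units_eq_one_or x.e with h | h <;> rw [h]
    · simpa using hx
    · simpa using hx

/-- homomorphisms from compatible additive maps -/
def mkHom {V' Z' : Type} [AddCommGroup V'] [AddCommGroup Z'] (b : V →+ V →+ Z)
    (b' : V' →+ V' →+ Z') (U : AddSubgroup V) (a : V →+ V') (l : Z →+ Z')
    (h : ∀ u ∈ U, ∀ w ∈ U, l (b u w) = b' (a u) (a w)) : sub b U →* TG b' where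
  toFun x := ⟨x.1.e, a x.1.v, l x.1.z⟩
  map_one' := by
    ext <;> simp
  map_mul' := by
    intro x y
    ext
    · simp
    · simp only [Subgroup.coe_mul, TG.mul_v, map_add]
      rcases Int.units_eq_one_or x.1.e with h | h <;> rw [h] <;> simp
    · simp only [Subgroup.coe_mul, TG.mul_z, map_add]
      rw [← h x.1.v x.2 y.1.v y.2]
      rcases Int.units_eq_one_or x.1.e with h | h <;> rw [h] <;> simp

end Pool.Agent.Helpers29.Lv
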