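import Mathlib

/-! The field part: alternating forms on the dual of `L = GF(3^n)`. -/

set_option autoImplicit false

namespace Pool.Agent.Helpers29.Lv

abbrev F3 := ZMod 3

variable {L : Type} [Field L] [Algebra F3 L]

/-- the value of a list of pairs -/
def val (l : List (L × L)) : L := (l.map fun x => x.1 * x.2 ^ 3 - x.2 * x.1 ^ 3).sum

lemma charP_L : CharP L 3 := charP_of_injective_algebraMap (algebraMap F3 L).injective 3

lemma smul_pow (t : F3) (x : L) : (t • x) ^ 3 = t • x ^ 3 := by
  rw [Algebra.smul_def, mul_pow, ← map_pow, Algebra.smul_def]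
  congr 2
  revert t; decide

lemma add_pow3 (x y : L) : (x + y) ^ 3 = x ^ 3 + y ^ 3 := by
  have : CharP L 3 := charP_L
  have : Fact (Nat.Prime 3) := ⟨Nat.prime_three⟩
  exact add_pow_char x y 3

/-- values of lists with first components in a submodule -/
def SS (A : Submodule F3 L) : Submodule F3 L where
  carrier := {x | ∃ l : List (L × L), (∀ p ∈ l, p.1 ∈ A) ∧ val l = x}
  add_mem' := by
    rintro x y ⟨l, hl, rfl⟩ ⟨m, hm, rfl⟩
    refine ⟨l ++ m, ?_, ?_⟩
    · intro p hp
      rcases List.mem_append.1 hp with h | h
      · exact hl p h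
      · exact hm p h
    · simp [val]
  zero_mem' := ⟨[], by simp, by simp [val]⟩
  smul_mem' := by
    rintro t x ⟨l, hl, rfl⟩
    refine ⟨l.map fun p => (t • p.1, p.2), ?_, ?_⟩
    · intro p hp
      obtain ⟨q, hq, rfl⟩ := List.mem_map.1 hp
      exact A.smul_mem t (hl q hq)
    · unfold val
      clear hl
      induction l with
      | nil => simp
      | cons p l ih =>
        simp only [List.map_cons, List.sum_cons, smul_add] at ih ⊢
        rw [ih]
        congr 1
        rw [smul_pow, smul_sub, smul_mul_assoc, mul_smul_comm]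

lemma SS_mem (A : Submodule F3 L) {a b : L} (ha : a ∈ A) : a * b ^ 3 - b * a ^ 3 ∈ SS A :=
  ⟨[(a, b)], by simpa using ha, by simp [val]⟩

/-- the key surjectivity -/
lemma SS_eq_top [Finite L] (A : Submodule F3 L) (hA : 9 < Nat.card A) : SS A = ⊤ := by
  classical
  by_contra hne
  obtain ⟨c, hc, hle⟩ := Submodule.exists_le_ker_of_lt_top (SS A) (lt_top_iff_ne_top.2 hne)
  have : CharP L 3 := charP_L
  have : Fact (Nat.Prime 3) := ⟨Nat.prime_three⟩
  obtain ⟨y0, hy0⟩ : ∃ y, c y ≠ 0 := by
    by_contra h
    push Not at h
    exact hc (LinearMap.ext h)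
  have hker : ∀ a ∈ A, ∀ b : L, c (a * b ^ 3) = c (b * a ^ 3) := by
    intro a ha b
    have := hle (SS_mem A ha (b := b))
    rw [LinearMap.mem_ker, map_sub, sub_eq_zero] at this
    exact this
  -- a nonzero element
  have hnb : A ≠ ⊥ := by
    rintro rfl
    simp at hA
  obtain ⟨a2, ha2, hne2⟩ := Submodule.exists_mem_ne_zero_of_ne_bot hnb
  have hroot : ∀ a ∈ A, a ^ 9 = a2 ^ 8 * a := by
    intro a ha
    obtain ⟨r, hr⟩ : ∃ r : L, r ^ 3 = a / a2 := by
      have : Function.Surjective (frobenius L 3) :=
        Finite.surjective_of_injective (frobenius_inj L 3)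
      obtain ⟨r, hr⟩ := this (a / a2)
      exact ⟨r, by simpa [frobenius_def] using hr⟩
    have h1 : ∀ b : L, c (b * (a ^ 3 - r * a2 ^ 3)) = 0 := by
      intro b
      have e1 := hker a ha b
      have e2 := hker a2 ha2 (r * b)
      have e3 : a2 * (r * b) ^ 3 = a * b ^ 3 := by
        rw [mul_pow, hr]
        field_simp
      rw [e3, e1] at e2
      rw [mul_sub, map_sub, e2, sub_eq_zero]
      congr 1
      ring
    have h2 : a ^ 3 - r * a2 ^ 3 = 0 := by
      by_contra h
      have := h1 (y0 / (a ^ 3 - r * a2 ^ 3))
      rw [div_mul_cancel₀ _ h] at this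
      exact hy0 this
    have h3 : a ^ 3 = r * a2 ^ 3 := sub_eq_zero.1 h2
    calc a ^ 9 = (a ^ 3) ^ 3 := by ring
      _ = r ^ 3 * a2 ^ 9 := by rw [h3]; ring
      _ = a2 ^ 8 * a := by
        rw [hr]
        field_simp
  -- counting
  let P : Polynomial L := Polynomial.X ^ 9 - Polynomial.C (a2 ^ 8) * Polynomial.X
  have hPd : P.natDegree = 9 := by
    have : P = Polynomial.X ^ 9 - Polynomial.C (a2 ^ 8) * Polynomial.X := rfl
    rw [this]
    compute_degree!
  have hP0 : P ≠ 0 := by
    intro h
    rw [h] at hPd
    simp at hPd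
  have hsub : (A : Set L) ⊆ (P.roots.toFinset : Set L) := by
    intro a ha
    simp only [Finset.mem_coe, Multiset.mem_toFinset, Polynomial.mem_roots hP0,
      Polynomial.IsRoot.def]
    have := hroot a ha
    simp [P, this]
  have hcard : Nat.card A ≤ P.roots.toFinset.card := by
    have h := Nat.card_mono (Finset.finite_toSet _) hsub
    rw [Nat.card_coe_set_eq (P.roots.toFinset : Set L), Set.ncard_coe_finset] at h
    exact h
  have h1 := Multiset.toFinset_card_le P.roots
  have h2 := Polynomial.card_roots' P
  omega

/-- the lists of value zero -/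
abbrev Wt (L : Type) [Field L] [Algebra F3 L] := {l : List (L × L) // val l = 0}

/-- the form of a list -/
def form (l : List (L × L)) (v w : Module.Dual F3 L) : F3 :=
  (l.map fun x => v x.1 * w x.2 - v x.2 * w x.1).sum

lemma form_add_left (l : List (L × L)) (v v' w : Module.Dual F3 L) :
    form l (v + v') w = form l v w + form l v' w := by
  unfold form
  rw [← List.sum_map_add]
  congr 1
  refine List.map_congr_left fun x _ => ?_
  simp only [LinearMap.add_apply]
  ring

lemma form_add_right (l : List (L × L)) (v w w' : Module.Dual F3 L) :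
    form l v (w + w') = form l v w + form l v w' := by
  unfold form
  rw [← List.sum_map_add]
  congr 1
  refine List.map_congr_left fun x _ => ?_
  simp only [LinearMap.add_apply]
  ring

/-- the pairing of the big group -/
def bL (L : Type) [Field L] [Algebra F3 L] :
    Module.Dual F3 L →+ Module.Dual F3 L →+ (Wt L → F3) :=
  AddMonoidHom.mk' (fun v => AddMonoidHom.mk' (fun w => fun l => form l.1 v w)
    (by intro w w'; funext l; exact form_add_right _ _ _ _))
    (by intro v v'; ext w l; exact form_add_left _ _ _ _)

lemma bL_apply (v w : Module.Dual F3 L) (l : Wt L) : bL L v w l = form l.1 v w := rfl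

/-- the determinant pairing -/
def det2 : (F3 × F3) →+ (F3 × F3) →+ F3 :=
  AddMonoidHom.mk' (fun v => AddMonoidHom.mk' (fun w => v.1 * w.2 - v.2 * w.1)
    (by intro w w'; simp; ring))
    (by
      intro v v'
      refine DFunLike.ext _ _ fun w => ?_
      simp only [AddMonoidHom.mk'_apply, AddMonoidHom.add_apply, Prod.fst_add, Prod.snd_add]
      ring)

lemma det2_apply (v w : F3 × F3) : det2 v w = v.1 * w.2 - v.2 * w.1 := rfl

/-- local realization of decomposable forms -/
lemma local_form [Finite L] {k : ℕ} (hk : k + 3 ≤ Module.finrank F3 L) (v : Fin k → Module.Dual F3 L)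
    (a b : L) : ∃ m : Wt L, ∀ u ∈ Submodule.span F3 (Set.range v),
      ∀ w ∈ Submodule.span F3 (Set.range v), form m.1 u w = u a * w b - u b * w a := by
  have : Module.Finite F3 L := Module.Finite.of_finite
  let f : L →ₗ[F3] (Fin k → F3) := LinearMap.pi v
  let A := LinearMap.ker f
  have hA3 : 3 ≤ Module.finrank F3 A := by
    have h1 := LinearMap.finrank_range_add_finrank_ker f
    have h2 : Module.finrank F3 (LinearMap.range f) ≤ k := by
      have := Submodule.finrank_le (LinearMap.range f)
      simpa using this
    have : Module.finrank F3 A = Module.finrank F3 (LinearMap.ker f) := rfl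
    omega
  have hcard : 9 < Nat.card A := by
    rw [Module.natCard_eq_pow_finrank (K := F3), Nat.card_zmod]
    calc 9 < 3 ^ 3 := by norm_num
      _ ≤ 3 ^ Module.finrank F3 A := Nat.pow_le_pow_right (by norm_num) hA3
  have htop := SS_eq_top A hcard
  have hmem : a * b ^ 3 - b * a ^ 3 ∈ SS A := by rw [htop]; trivial
  obtain ⟨l, hl, hval⟩ := hmem
  have hvan : ∀ u ∈ Submodule.span F3 (Set.range v), ∀ x ∈ A, u x = 0 := by
    intro u hu x hx
    have hx' : ∀ i, v i x = 0 := fun i => by
      have := congrFun (LinearMap.mem_ker.1 hx) i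
      simpa [f] using this
    induction hu using Submodule.span_induction with
    | mem u hu => obtain ⟨i, rfl⟩ := hu; exact hx' i
    | zero => simp
    | add u w _ _ h1 h2 => simp [h1, h2]
    | smul t u _ h1 => simp [h1]
  refine ⟨⟨(a, b) :: l.map fun p => (-p.1, p.2), ?_⟩, ?_⟩
  · have : val (l.map fun p => (-p.1, p.2)) = - val l := by
      clear hl hval
      unfold val
      induction l with
      | nil => simp
      | cons p l ih =>
        simp only [List.map_cons, List.sum_cons, neg_add] at ih ⊢
        rw [ih]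
        ring
    have h2 : val ((a, b) :: l.map fun p => (-p.1, p.2)) =
        (a * b ^ 3 - b * a ^ 3) + val (l.map fun p => (-p.1, p.2)) := by
      simp [val]
    rw [h2, this, hval]
    ring
  · intro u hu w hw
    have : form (l.map fun p => (-p.1, p.2)) u w = 0 := by
      unfold form
      apply List.sum_eq_zero
      intro y hy
      simp only [List.map_map, List.mem_map, Function.comp] at hy
      obtain ⟨p, hp, rfl⟩ := hy
      have h1 := hvan u hu p.1 (hl p hp)
      have h2 := hvan w hw p.1 (hl p hp)
      simp [h1, h2]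
    have h2 : form ((a, b) :: l.map fun p => (-p.1, p.2)) u w =
        (u a * w b - u b * w a) + form (l.map fun p => (-p.1, p.2)) u w := by
      simp [form]
    show form ((a, b) :: l.map fun p => (-p.1, p.2)) u w = _
    rw [h2, this, add_zero]

end Pool.Agent.Helpers29.Lv
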