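import Pool.Agent.Helpers29.Lv1
import Pool.Agent.Helpers29.Lv2

/-! Local embeddings. -/

set_option autoImplicit false

namespace Pool.Agent.Helpers29.Lv

variable {L : Type} [Field L] [Algebra F3 L]

/-- the finite group of order 54 -/
abbrev HH := TG det2

/-- the big group -/
abbrev GG (L : Type) [Field L] [Algebra F3 L] := TG (bL L)

instance : Finite HH := by
  have : Function.Injective (fun x : HH => (x.e, x.v, x.z)) := by
    intro x y h
    simp only [Prod.mk.injEq] at h
    ext
    · exact congrArg _ h.1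
    · rw [h.2.1]
    · rw [h.2.1]
    · exact h.2.2
  exact Finite.of_injective _ this

/-- residual property of the subgroup over a small subspace -/
lemma resid [Finite L] {k : ℕ} (hk : k + 3 ≤ Module.finrank F3 L) (v : Fin k → Module.Dual F3 L)
    (U : AddSubgroup (Module.Dual F3 L)) (hU : ∀ u ∈ U, u ∈ Submodule.span F3 (Set.range v))
    (x : sub (bL L) U) (hx : x ≠ 1) :
    ∃ φ : sub (bL L) U →* HH, φ x ≠ 1 := by
  classical
  by_cases he : x.1.e = 1
  swap
  · refine ⟨mkHom (bL L) det2 U 0 0 (by intro u _ w _; simp), ?_⟩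
    intro h
    exact he (congrArg TG.e h)
  by_cases hv : x.1.v = 0
  swap
  · obtain ⟨a, ha⟩ : ∃ a, x.1.v a ≠ 0 := by
      by_contra h
      push Not at h
      exact hv (LinearMap.ext h)
    refine ⟨mkHom (bL L) det2 U
      (AddMonoidHom.mk' (fun w => (w a, 0)) (by intro w w'; simp)) 0
      (by intro u _ w _; simp [det2_apply]), ?_⟩
    intro h
    have := congrArg TG.v h
    have h2 : ((x.1.v a, 0) : F3 × F3) = 0 := this
    exact ha (congrArg Prod.fst h2)
  have hz : x.1.z ≠ 0 := by
    intro hz
    apply hx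
    apply Subtype.ext
    exact TG.ext he hv hz
  choose m hm using fun p : L × L => local_form hk v p.1 p.2
  by_cases hex : ∃ p, x.1.z (m p) ≠ 0
  · obtain ⟨p, hp⟩ := hex
    refine ⟨mkHom (bL L) det2 U
      (AddMonoidHom.mk' (fun w => (w p.1, w p.2)) (by intro w w'; simp))
      (AddMonoidHom.mk' (fun z => z (m p)) (by intro w w'; simp)) ?_, ?_⟩
    · intro u hu w hw
      exact hm p u (hU u hu) w (hU w hw)
    · intro h
      exact hp (congrArg TG.z h)
  push Not at hex
  obtain ⟨l, hl⟩ : ∃ l, x.1.z l ≠ 0 := by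
    by_contra h
    push Not at h
    exact hz (funext h)
  refine ⟨mkHom (bL L) det2 U 0
      (AddMonoidHom.mk' (fun z => z l - (l.1.map fun p => z (m p)).sum) ?_) ?_, ?_⟩
  · intro z z'
    have : (l.1.map fun p => (z + z') (m p)).sum =
        (l.1.map fun p => z (m p)).sum + (l.1.map fun p => z' (m p)).sum := by
      rw [← List.sum_map_add]; rfl
    rw [this]
    simp only [Pi.add_apply]
    ring
  · intro u hu w hw
    have h1 : (l.1.map fun p => bL L u w (m p)).sum = form l.1 u w := by
      unfold form
      congr 1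
      refine List.map_congr_left fun p _ => ?_
      exact hm p u (hU u hu) w (hU w hw)
    simp only [AddMonoidHom.mk'_apply, AddMonoidHom.zero_apply, map_zero]
    rw [h1, bL_apply, sub_self]
  · intro h
    have h1 : x.1.z l - (l.1.map fun p => x.1.z (m p)).sum = 0 := congrArg TG.z h
    have h2 : (l.1.map fun p => x.1.z (m p)).sum = 0 := by
      apply List.sum_eq_zero
      intro y hy
      obtain ⟨p, _, rfl⟩ := List.mem_map.1 hy
      exact hex p
    rw [h2, sub_zero] at h1
    exact hl h1

/-- residual groups embed into a power -/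
lemma embed_of_resid {K H : Type} [Group K] [Group H]
    (h : ∀ x : K, x ≠ 1 → ∃ φ : K →* H, φ x ≠ 1) (N : Subgroup K) :
    ∃ (I : Type) (φ : N →* (I → H)), Function.Injective φ := by
  refine ⟨K →* H, (MonoidHom.pi fun φ => φ.comp N.subtype), ?_⟩
  rw [injective_iff_map_eq_one]
  intro a ha
  by_contra hne
  obtain ⟨φ, hφ⟩ := h a.1 (fun h => hne (Subtype.ext h))
  exact hφ (congrFun ha φ)

end Pool.Agent.Helpers29.Lv
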