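import Pool.Agent.Helpers29.Lv3

/-! The normal closure of the sign element does not embed into a power of the finite group. -/

set_option autoImplicit false

namespace Pool.Agent.Helpers29.Lv

variable {L : Type} [Field L] [Algebra F3 L]

lemma bL_self (v : Module.Dual F3 L) : bL L v v = 0 := by
  funext l
  rw [bL_apply]
  unfold form
  apply List.sum_eq_zero
  intro y hy
  obtain ⟨p, _, rfl⟩ := List.mem_map.1 hy
  ring

lemma bL_swap (v w : Module.Dual F3 L) : bL L w v = - bL L v w := by
  have h := bL_self (v + w)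
  simp only [map_add, AddMonoidHom.add_apply, bL_self, add_zero, zero_add] at h
  exact eq_neg_of_add_eq_zero_left h

lemma three_dual (v : Module.Dual F3 L) : v + v + v = 0 := by
  have h3 : ∀ x : F3, x + x + x = 0 := by decide
  ext x
  exact h3 _

lemma three_fun (z : Wt L → F3) : z + z + z = 0 := by
  have h3 : ∀ x : F3, x + x + x = 0 := by decide
  ext x
  exact h3 _

/-- the sign element -/
def tau (L : Type) [Field L] [Algebra F3 L] : GG L := ⟨-1, 0, 0⟩

/-- its normal closure -/
abbrev NN (L : Type) [Field L] [Algebra F3 L] : Subgroup (GG L) :=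
  Subgroup.normalClosure ({tau L} : Set (GG L))

lemma g_mem (v : Module.Dual F3 L) : (⟨1, v, 0⟩ : GG L) ∈ NN L := by
  have h0 : tau L ∈ NN L := Subgroup.subset_normalClosure rfl
  have h1 : (⟨1, -v, 0⟩ : GG L) * tau L * (⟨1, -v, 0⟩ : GG L)⁻¹ ∈ NN L :=
    Subgroup.normalClosure_normal.conj_mem _ h0 _
  have h2 := (NN L).mul_mem h1 h0
  have h3 : (⟨1, -v, 0⟩ : GG L) * tau L * (⟨1, -v, 0⟩ : GG L)⁻¹ * tau L = ⟨1, v, 0⟩ := by
    have h4 := three_dual v
    have h5 : - v + - v = v := by
      have : v - (- v + - v) = 0 := by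
        rw [← h4]; abel
      exact (sub_eq_zero.1 this).symm
    refine TG.ext ?_ ?_ ?_
    · simp [tau]
    · simpa [tau] using h5
    · simp [tau, bL_self]
  rw [h3] at h2
  exact h2

/-- the lifts -/
def gam (v : Module.Dual F3 L) : NN L := ⟨⟨1, v, 0⟩, g_mem v⟩

lemma gam_cube (v : Module.Dual F3 L) : gam v * gam v * gam v = 1 := by
  apply Subtype.ext
  refine TG.ext ?_ ?_ ?_
  · simp [gam]
  · simpa [gam] using three_dual v
  · simp [gam, bL_self]

/-- commutators -/
def com (v w : Module.Dual F3 L) : NN L := gam w * gam v * (gam w)⁻¹ * (gam v)⁻¹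

lemma com_val (v w : Module.Dual F3 L) : (com v w : GG L) = ⟨1, 0, bL L v w⟩ := by
  have h3 := three_fun (bL L v w)
  refine TG.ext ?_ ?_ ?_
  · simp [com, gam]
  · simp [com, gam]
  · simp only [com, gam, Subgroup.coe_mul, Subgroup.coe_inv, TG.mul_z, TG.inv_z, TG.mul_v,
      TG.inv_v, TG.mul_e, TG.inv_e, one_smul, mul_one, map_add, map_neg, AddMonoidHom.add_apply,
      AddMonoidHom.neg_apply, bL_self, bL_swap v w]
    generalize bL L v w = t at h3 ⊢
    have h4 : t = -t - t := by
      have : t - (-t - t) = 0 := by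
        rw [← h3]; abel
      exact sub_eq_zero.1 this
    calc _ = -t - t := by simp; abel
      _ = t := h4.symm

lemma gam_mul (v w : Module.Dual F3 L) : gam v * gam w = gam (v + w) * com v w := by
  apply Subtype.ext
  rw [Subgroup.coe_mul, Subgroup.coe_mul, com_val]
  refine TG.ext ?_ ?_ ?_
  · simp [gam]
  · simp [gam]
  · simp [gam]

lemma hh_com (x y : HH) (hx : x.e = 1) (hy : y.e = 1) :
    y * x * y⁻¹ * x⁻¹ = ⟨1, 0, det2 x.v y.v⟩ := by
  refine TG.ext ?_ ?_ ?_
  · simp [hx, hy]
  · simp [hx, hy]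
  · simp only [TG.mul_z, TG.inv_z, TG.mul_v,
      TG.inv_v, TG.mul_e, TG.inv_e, hx, hy, one_smul, mul_one, map_add, map_neg,
      AddMonoidHom.add_apply, AddMonoidHom.neg_apply, det2_apply]
    generalize x.v.1 = a
    generalize x.v.2 = b
    generalize y.v.1 = c
    generalize y.v.2 = d
    generalize x.z = s
    generalize y.z = t
    revert a b c d s t
    decide

/-- cubing as a linear map -/
def cube (L : Type) [Field L] [Algebra F3 L] : L →ₗ[F3] L where
  toFun x := x ^ 3
  map_add' := add_pow3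
  map_smul' := by intro t x; exact smul_pow t x

lemma basis_sum {ι : Type} [Fintype ι] (B : Module.Basis ι F3 L) (c : Module.Dual F3 L) (x y : L) :
    ∑ i, ∑ j, c (B i * B j ^ 3) * (B.coord i x * B.coord j y) = c (x * y ^ 3) := by
  have hy : y ^ 3 = ∑ j, B.coord j y • B j ^ 3 := by
    have h1 : cube L y = ∑ j, B.coord j y • cube L (B j) := by
      conv_lhs => rw [← B.sum_repr y]
      rw [map_sum]
      refine Finset.sum_congr rfl fun j _ => ?_
      rw [map_smul]; rfl
    exact h1
  conv_rhs => rw [hy, ← B.sum_repr x, Finset.sum_mul, map_sum]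
  refine Finset.sum_congr rfl fun i _ => ?_
  rw [Finset.mul_sum, map_sum]
  refine Finset.sum_congr rfl fun j _ => ?_
  rw [smul_mul_smul_comm, map_smul, smul_eq_mul]
  simp only [Module.Basis.coord_apply]
  ring

/-- the additive subgroup of compatible pairs -/
def PP (φ : NN L →* HH) : AddSubgroup ((Wt L → F3) × F3) where
  carrier := {p | ∃ h : (⟨1, 0, p.1⟩ : GG L) ∈ NN L, φ ⟨_, h⟩ = ⟨1, 0, p.2⟩}
  zero_mem' := ⟨(NN L).one_mem, by
    have : (⟨(⟨1, 0, 0⟩ : GG L), (NN L).one_mem⟩ : NN L) = 1 := rfl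
    exact (congrArg φ this).trans (map_one φ)⟩
  add_mem' := by
    rintro ⟨a, s⟩ ⟨b, t⟩ ⟨h1, e1⟩ ⟨h2, e2⟩
    have e : (⟨1, 0, a⟩ : GG L) * ⟨1, 0, b⟩ = ⟨1, 0, a + b⟩ := by
      refine TG.ext ?_ ?_ ?_ <;> simp
    have h3 : (⟨1, 0, a + b⟩ : GG L) ∈ NN L := by
      rw [← e]; exact (NN L).mul_mem h1 h2
    refine ⟨h3, ?_⟩
    have e3 : (⟨⟨1, 0, a + b⟩, h3⟩ : NN L) = ⟨⟨1, 0, a⟩, h1⟩ * ⟨⟨1, 0, b⟩, h2⟩ :=
      Subtype.ext e.symm
    refine (congrArg φ e3).trans ?_
    rw [map_mul, e1, e2]
    refine TG.ext ?_ ?_ ?_ <;> simp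
  neg_mem' := by
    rintro ⟨a, s⟩ ⟨h1, e1⟩
    have e : (⟨1, 0, a⟩ : GG L)⁻¹ = ⟨1, 0, -a⟩ := by
      refine TG.ext ?_ ?_ ?_ <;> simp
    have h3 : (⟨1, 0, -a⟩ : GG L) ∈ NN L := by
      rw [← e]; exact (NN L).inv_mem h1
    refine ⟨h3, ?_⟩
    have e3 : (⟨⟨1, 0, -a⟩, h3⟩ : NN L) = (⟨⟨1, 0, a⟩, h1⟩)⁻¹ :=
      Subtype.ext e.symm
    refine (congrArg φ e3).trans ?_
    rw [map_inv, e1]
    refine TG.ext ?_ ?_ ?_ <;> simp

/-- every homomorphism to the finite group kills the commutators -/
lemma hom_kills [Finite L] (φ : NN L →* HH) (v w : Module.Dual F3 L) : φ (com v w) = 1 := by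
  classical
  have : Module.Finite F3 L := Module.Finite.of_finite
  -- sign part
  have he : ∀ v, (φ (gam v)).e = 1 := by
    intro v
    have h := congrArg (fun x => (φ x).e) (gam_cube v)
    simp only [map_mul, TG.mul_e, map_one, TG.one_e] at h
    rcases Int.units_eq_one_or (φ (gam v)).e with h1 | h1
    · exact h1
    · rw [h1] at h
      exact absurd h (by decide)
  have hcom : ∀ v w, φ (com v w) = ⟨1, 0, det2 (φ (gam v)).v (φ (gam w)).v⟩ := by
    intro v w
    rw [← hh_com _ _ (he v) (he w)]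
    simp [com]
  -- additivity
  have hadd : ∀ v w, (φ (gam (v + w))).v = (φ (gam v)).v + (φ (gam w)).v := by
    intro v w
    have h := congrArg (fun x => (φ x).v) (gam_mul v w)
    simp only [map_mul, TG.mul_v, hcom, he, one_smul, add_zero] at h
    simpa using h.symm
  let A : Module.Dual F3 L →+ F3 × F3 := AddMonoidHom.mk' (fun v => (φ (gam v)).v) hadd
  let A1 : Module.Dual F3 L →ₗ[F3] F3 :=
    AddMonoidHom.toZModLinearMap 3 ((AddMonoidHom.fst F3 F3).comp A)
  let A2 : Module.Dual F3 L →ₗ[F3] F3 :=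
    AddMonoidHom.toZModLinearMap 3 ((AddMonoidHom.snd F3 F3).comp A)
  obtain ⟨a, ha⟩ := (Module.evalEquiv F3 L).surjective A1
  obtain ⟨b, hb⟩ := (Module.evalEquiv F3 L).surjective A2
  have hA1 : ∀ v : Module.Dual F3 L, (φ (gam v)).v.1 = v a := fun v => by
    have := LinearMap.congr_fun ha v
    exact this.symm
  have hA2 : ∀ v : Module.Dual F3 L, (φ (gam v)).v.2 = v b := fun v => by
    have := LinearMap.congr_fun hb v
    exact this.symm
  have hdet : ∀ v w : Module.Dual F3 L, det2 (φ (gam v)).v (φ (gam w)).v = v a * w b - v b * w a := by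
    intro v w
    rw [det2_apply, hA1, hA2, hA1, hA2]
  -- the relation
  have hrel : a * b ^ 3 - b * a ^ 3 = 0 := by
    rw [← Module.forall_dual_apply_eq_zero_iff F3]
    intro c
    let B := Module.finBasis F3 L
    have hP : ∀ v w, (bL L v w, det2 (φ (gam v)).v (φ (gam w)).v) ∈ PP φ := by
      intro v w
      have hm : (⟨1, 0, bL L v w⟩ : GG L) ∈ NN L := by
        rw [← com_val]; exact (com v w).2
      refine ⟨hm, ?_⟩
      have : (⟨⟨1, 0, bL L v w⟩, hm⟩ : NN L) = com v w := Subtype.ext (com_val v w).symm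
      rw [← hcom]
      exact congrArg φ this
    have hsum : (∑ i, ∑ j, c (B i * B j ^ 3) • (bL L (B.coord i) (B.coord j),
        det2 (φ (gam (B.coord i))).v (φ (gam (B.coord j))).v)) ∈
          (AddSubgroup.toZModSubmodule 3 (PP φ)) := by
      refine Submodule.sum_mem _ fun i _ => Submodule.sum_mem _ fun j _ => ?_
      exact Submodule.smul_mem _ _ (hP _ _)
    have hfst : (∑ i, ∑ j, c (B i * B j ^ 3) • (bL L (B.coord i) (B.coord j),
        det2 (φ (gam (B.coord i))).v (φ (gam (B.coord j))).v)).1 = 0 := by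
      funext l
      have hl := l.2
      have e : ∀ l : List (L × L), ∑ i, ∑ j, c (B i * B j ^ 3) *
          form l (B.coord i) (B.coord j) = c (val l) := by
        intro l
        induction l with
        | nil => simp [form, val]
        | cons p l ih =>
          have h1 : ∀ v w, form (p :: l) v w = (v p.1 * w p.2 - v p.2 * w p.1) + form l v w := by
            intro v w; simp [form]
          have h2 : val (p :: l) = p.1 * p.2 ^ 3 - p.2 * p.1 ^ 3 + val l := by simp [val]
          rw [h2, map_add, ← ih, map_sub, ← basis_sum B c, ← basis_sum B c,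
            ← Finset.sum_sub_distrib, ← Finset.sum_add_distrib]
          refine Finset.sum_congr rfl fun i _ => ?_
          rw [← Finset.sum_sub_distrib, ← Finset.sum_add_distrib]
          refine Finset.sum_congr rfl fun j _ => ?_
          rw [h1]
          ring
      have := e l.1
      rw [hl, map_zero] at this
      simpa [Prod.fst_sum, Finset.sum_apply, bL_apply] using this
    have hsnd : (∑ i, ∑ j, c (B i * B j ^ 3) • (bL L (B.coord i) (B.coord j),
        det2 (φ (gam (B.coord i))).v (φ (gam (B.coord j))).v)).2 =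
          c (a * b ^ 3 - b * a ^ 3) := by
      rw [map_sub, ← basis_sum B c, ← basis_sum B c, ← Finset.sum_sub_distrib]
      simp only [Prod.snd_sum, Prod.smul_snd, hdet]
      refine Finset.sum_congr rfl fun i _ => ?_
      rw [← Finset.sum_sub_distrib]
      refine Finset.sum_congr rfl fun j _ => ?_
      rw [smul_eq_mul]
      ring
    obtain ⟨hm, hφ⟩ := (AddSubgroup.mem_toZModSubmodule 3).1 hsum
    rw [← hsnd]
    have h1 : (⟨⟨1, 0, (∑ i, ∑ j, c (B i * B j ^ 3) • (bL L (B.coord i) (B.coord j),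
        det2 (φ (gam (B.coord i))).v (φ (gam (B.coord j))).v)).1⟩, hm⟩ : NN L) = 1 := by
      exact Subtype.ext (TG.ext rfl rfl hfst)
    have h2 := (congrArg φ h1).symm.trans hφ
    rw [map_one] at h2
    exact (congrArg TG.z h2).symm
  have hfin : ∀ v w : Module.Dual F3 L, v a * w b - v b * w a = 0 := by
    intro v w
    by_cases hb0 : b = 0
    · simp [hb0]
    · have h1 : (a / b) * (a / b - 1) * (a / b + 1) = 0 := by
        have : (a / b) * (a / b - 1) * (a / b + 1) = - (a * b ^ 3 - b * a ^ 3) / b ^ 4 := by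
          field_simp
          ring
        rw [this, hrel]; simp
      rcases mul_eq_zero.1 h1 with h1 | h1
      · rcases mul_eq_zero.1 h1 with h1 | h1
        · have : a = 0 := by
            rcases div_eq_zero_iff.1 h1 with h | h
            · exact h
            · exact absurd h hb0
          simp [this]
        · have : a = b := by
            rw [sub_eq_zero, div_eq_one_iff_eq hb0] at h1
            exact h1
          rw [this]; ring
      · have : a = -b := by
          have : a / b = -1 := eq_neg_of_add_eq_zero_left h1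
          rw [div_eq_iff hb0] at this
          rw [this]; ring
        rw [this, map_neg, map_neg]; ring
  rw [hcom, hdet, hfin]
  rfl

/-- the normal closure is not in the quasivariety -/
lemma not_embed [Finite L] (h5 : 5 ≤ Module.finrank F3 L) (I : Type) (Φ : NN L →* (I → HH)) :
    ¬ Function.Injective Φ := by
  intro hinj
  have : Module.Finite F3 L := Module.Finite.of_finite
  let B := Module.finBasis F3 L
  let i0 : Fin (Module.finrank F3 L) := ⟨0, by omega⟩
  let i1 : Fin (Module.finrank F3 L) := ⟨1, by omega⟩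
  have h01 : i0 ≠ i1 := by simp [i0, i1]
  have h1 : com (B.coord i0) (B.coord i1) = 1 := by
    apply hinj
    rw [map_one]
    funext i
    exact hom_kills ((Pi.evalMonoidHom _ i).comp Φ) _ _
  obtain ⟨m, hm⟩ := local_form (k := 2) (L := L) (by omega) ![B.coord i0, B.coord i1] (B i0) (B i1)
  have h2 := hm (B.coord i0) (Submodule.subset_span ⟨0, rfl⟩) (B.coord i1)
    (Submodule.subset_span ⟨1, rfl⟩)
  have h3 : bL L (B.coord i0) (B.coord i1) = 0 := by
    have := congrArg (fun x : NN L => (x : GG L).z) h1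
    simp only [com_val] at this
    exact this
  have h4 := congrFun h3 m
  rw [bL_apply, h2] at h4
  simp [h01, h01.symm] at h4

end Pool.Agent.Helpers29.Lv
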