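import Mathlib

set_option autoImplicit false

namespace Pool.Agent.Helpers29.MB

/-- isolating one linear form among five -/
lemma iso (P0 Q0 U0 P1 Q1 U1 P2 Q2 U2 P3 Q3 U3 P4 Q4 U4 : ℝ)
    (h : ∀ s t : ℝ, (s * P0 + t * Q0) ^ 5 * U0 + (s * P1 + t * Q1) ^ 5 * U1 +
      (s * P2 + t * Q2) ^ 5 * U2 + (s * P3 + t * Q3) ^ 5 * U3 + (s * P4 + t * Q4) ^ 5 * U4 = 0)
    (h1 : P1 * Q0 - Q1 * P0 ≠ 0) (h2 : P2 * Q0 - Q2 * P0 ≠ 0) (h3 : P3 * Q0 - Q3 * P0 ≠ 0)
    (h4 : P4 * Q0 - Q4 * P0 ≠ 0) : U0 = 0 := by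
  have f0 := h (1) (0)
  have f1 := h (0) (1)
  have f2 := h (1) (1)
  have f3 := h (1) (-1)
  have f4 := h (1) (2)
  have f5 := h (1) (-2)
  have m0 : P0 ^ 5 * Q0 ^ 0 * U0 + P1 ^ 5 * Q1 ^ 0 * U1 + P2 ^ 5 * Q2 ^ 0 * U2 + P3 ^ 5 * Q3 ^ 0 * U3 + P4 ^ 5 * Q4 ^ 0 * U4 = 0 := by
    linear_combination (1) * f0
  have m1 : P0 ^ 4 * Q0 ^ 1 * U0 + P1 ^ 4 * Q1 ^ 1 * U1 + P2 ^ 4 * Q2 ^ 1 * U2 + P3 ^ 4 * Q3 ^ 1 * U3 + P4 ^ 4 * Q4 ^ 1 * U4 = 0 := by
    linear_combination (4 / 5) * f1 + (2 / 15) * f2 + (-2 / 15) * f3 + (-1 / 60) * f4 + (1 / 60) * f5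
  have m2 : P0 ^ 3 * Q0 ^ 2 * U0 + P1 ^ 3 * Q1 ^ 2 * U1 + P2 ^ 3 * Q2 ^ 2 * U2 + P3 ^ 3 * Q3 ^ 2 * U3 + P4 ^ 3 * Q4 ^ 2 * U4 = 0 := by
    linear_combination (-1 / 8) * f0 + (1 / 15) * f2 + (1 / 15) * f3 + (-1 / 240) * f4 + (-1 / 240) * f5
  have m3 : P0 ^ 2 * Q0 ^ 3 * U0 + P1 ^ 2 * Q1 ^ 3 * U1 + P2 ^ 2 * Q2 ^ 3 * U2 + P3 ^ 2 * Q3 ^ 3 * U3 + P4 ^ 2 * Q4 ^ 3 * U4 = 0 := by
    linear_combination (-1 / 2) * f1 + (-1 / 60) * f2 + (1 / 60) * f3 + (1 / 120) * f4 + (-1 / 120) * f5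
  have m4 : P0 ^ 1 * Q0 ^ 4 * U0 + P1 ^ 1 * Q1 ^ 4 * U1 + P2 ^ 1 * Q2 ^ 4 * U2 + P3 ^ 1 * Q3 ^ 4 * U3 + P4 ^ 1 * Q4 ^ 4 * U4 = 0 := by
    linear_combination (1 / 20) * f0 + (-1 / 30) * f2 + (-1 / 30) * f3 + (1 / 120) * f4 + (1 / 120) * f5
  have m5 : P0 ^ 0 * Q0 ^ 5 * U0 + P1 ^ 0 * Q1 ^ 5 * U1 + P2 ^ 0 * Q2 ^ 5 * U2 + P3 ^ 0 * Q3 ^ 5 * U3 + P4 ^ 0 * Q4 ^ 5 * U4 = 0 := by
    linear_combination (1) * f1
  have key : U0 * ((P1 * Q0 - Q1 * P0) * (P2 * Q0 - Q2 * P0) * (P3 * Q0 - Q3 * P0) *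
      (P4 * Q0 - Q4 * P0) * (P1 * Q0 - Q1 * P0)) = 0 := by
    linear_combination (1) * (P1 * P2 * P3 * P4 * P1) * m5 + (-1) * (Q1 * P2 * P3 * P4 * P1 + P1 * Q2 * P3 * P4 * P1 + P1 * P2 * Q3 * P4 * P1 + P1 * P2 * P3 * Q4 * P1 + P1 * P2 * P3 * P4 * Q1) * m4 + (1) * (Q1 * Q2 * P3 * P4 * P1 + Q1 * P2 * Q3 * P4 * P1 + Q1 * P2 * P3 * Q4 * P1 + Q1 * P2 * P3 * P4 * Q1 + P1 * Q2 * Q3 * P4 * P1 + P1 * Q2 * P3 * Q4 * P1 + P1 * Q2 * P3 * P4 * Q1 + P1 * P2 * Q3 * Q4 * P1 + P1 * P2 * Q3 * P4 * Q1 + P1 * P2 * P3 * Q4 * Q1) * m3 + (-1) * (Q1 * Q2 * Q3 * P4 * P1 + Q1 * Q2 * P3 * Q4 * P1 + Q1 * Q2 * P3 * P4 * Q1 + Q1 * P2 * Q3 * Q4 * P1 + Q1 * P2 * Q3 * P4 * Q1 + Q1 * P2 * P3 * Q4 * Q1 + P1 * Q2 * Q3 * Q4 * P1 + P1 * Q2 * Q3 * P4 * Q1 + P1 * Q2 * P3 * Q4 * Q1 + P1 * P2 * Q3 * Q4 * Q1) * m2 + (1) * (Q1 * Q2 * Q3 * Q4 * P1 + Q1 * Q2 * Q3 * P4 * Q1 + Q1 * Q2 * P3 * Q4 * Q1 + Q1 * P2 * Q3 * Q4 * Q1 + P1 * Q2 * Q3 * Q4 * Q1)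 * m1 + (-1) * (Q1 * Q2 * Q3 * Q4 * Q1) * m0
  rcases mul_eq_zero.1 key with h0 | h0
  · exact h0
  · exact absurd h0 (mul_ne_zero (mul_ne_zero (mul_ne_zero (mul_ne_zero h1 h2) h3) h4) h1)

/-- the quintic polar form -/
def G (x0 x1 x2 u0 u1 u2 : ℝ) : ℝ :=
  x0 ^ 5 * u0 + x1 ^ 5 * u1 + x2 ^ 5 * u2 + (x0 + x1 + x2) ^ 5 * (u0 + u1 + u2) +
    (-3 * x0 - x1 + x2) ^ 5 * (-3 * u0 - u1 + u2)

lemma gspan (p0 p1 p2 q0 q1 q2 u0 u1 u2 w1 w2 w3 : ℝ)
    (hw1 : w1 = p1 * q2 - p2 * q1) (hw2 : w2 = p2 * q0 - p0 * q2) (hw3 : w3 = p0 * q1 - p1 * q0)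
    (hω : ¬(w1 = 0 ∧ w2 = 0 ∧ w3 = 0))
    (h : ∀ s t : ℝ, G (s * p0 + t * q0) (s * p1 + t * q1) (s * p2 + t * q2) u0 u1 u2 = 0) :
    ∀ x0 x1 x2 : ℝ, w1 * x0 + w2 * x1 + w3 * x2 = 0 → G x0 x1 x2 u0 u1 u2 = 0 := by
  have hW : w1 ^ 2 + w2 ^ 2 + w3 ^ 2 ≠ 0 := by
    intro h0
    apply hω
    refine ⟨?_, ?_, ?_⟩ <;> nlinarith [sq_nonneg w1, sq_nonneg w2, sq_nonneg w3]
  intro x0 x1 x2 hx
  have e := h (((x1 * q2 - x2 * q1) * w1 + (x2 * q0 - x0 * q2) * w2 +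
      (x0 * q1 - x1 * q0) * w3) / (w1 ^ 2 + w2 ^ 2 + w3 ^ 2))
    (((p1 * x2 - p2 * x1) * w1 + (p2 * x0 - p0 * x2) * w2 +
      (p0 * x1 - p1 * x0) * w3) / (w1 ^ 2 + w2 ^ 2 + w3 ^ 2))
  have e0 : ((x1 * q2 - x2 * q1) * w1 + (x2 * q0 - x0 * q2) * w2 +
      (x0 * q1 - x1 * q0) * w3) / (w1 ^ 2 + w2 ^ 2 + w3 ^ 2) * p0 +
      ((p1 * x2 - p2 * x1) * w1 + (p2 * x0 - p0 * x2) * w2 +
      (p0 * x1 - p1 * x0) * w3) / (w1 ^ 2 + w2 ^ 2 + w3 ^ 2) * q0 = x0 := by
    field_simp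
    subst hw1 hw2 hw3
    linear_combination (-(p1 * q2 - p2 * q1)) * hx
  have e1 : ((x1 * q2 - x2 * q1) * w1 + (x2 * q0 - x0 * q2) * w2 +
      (x0 * q1 - x1 * q0) * w3) / (w1 ^ 2 + w2 ^ 2 + w3 ^ 2) * p1 +
      ((p1 * x2 - p2 * x1) * w1 + (p2 * x0 - p0 * x2) * w2 +
      (p0 * x1 - p1 * x0) * w3) / (w1 ^ 2 + w2 ^ 2 + w3 ^ 2) * q1 = x1 := by
    field_simp
    subst hw1 hw2 hw3
    linear_combination (-(p2 * q0 - p0 * q2)) * hx
  have e2 : ((x1 * q2 - x2 * q1) * w1 + (x2 * q0 - x0 * q2) * w2 +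
      (x0 * q1 - x1 * q0) * w3) / (w1 ^ 2 + w2 ^ 2 + w3 ^ 2) * p2 +
      ((p1 * x2 - p2 * x1) * w1 + (p2 * x0 - p0 * x2) * w2 +
      (p0 * x1 - p1 * x0) * w3) / (w1 ^ 2 + w2 ^ 2 + w3 ^ 2) * q2 = x2 := by
    field_simp
    subst hw1 hw2 hw3
    linear_combination (-(p0 * q1 - p1 * q0)) * hx
  rw [e0, e1, e2] at e
  exact e

lemma two_01_02 (u0 u1 u2 : ℝ) (e1 : G (0) (0) (1) u0 u1 u2 = 0) (e2 : G (0) (-1) (0) u0 u1 u2 = 0) (e3 : G (0) (-1) (1) u0 u1 u2 = 0) :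
    u0 = 0 ∧ u1 = 0 ∧ u2 = 0 := by
  unfold G at e1 e2 e3
  exact ⟨by linear_combination (11 / 30) * e1 + (11 / 30) * e2 + (-1 / 30) * e3,
    by linear_combination (-22 / 45) * e1 + (-37 / 45) * e2 + (2 / 45) * e3,
    by linear_combination (26 / 45) * e1 + (11 / 45) * e2 + (-1 / 45) * e3⟩

lemma two_01_03 (u0 u1 u2 : ℝ) (e1 : G (0) (0) (1) u0 u1 u2 = 0) (e2 : G (0) (-1) (1) u0 u1 u2 = 0) (e3 : G (0) (-1) (2) u0 u1 u2 = 0) :
    u0 = 0 ∧ u1 = 0 ∧ u2 = 0 := by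
  unfold G at e1 e2 e3
  exact ⟨by linear_combination (-121 / 10) * e1 + (-81 / 10) * e2 + (11 / 10) * e3,
    by linear_combination (412 / 15) * e1 + (272 / 15) * e2 + (-37 / 15) * e3,
    by linear_combination (-116 / 15) * e1 + (-27 / 5) * e2 + (11 / 15) * e3⟩

lemma two_01_04 (u0 u1 u2 : ℝ) (e1 : G (0) (0) (1) u0 u1 u2 = 0) (e2 : G (0) (-1) (-1) u0 u1 u2 = 0) (e3 : G (0) (-1) (0) u0 u1 u2 = 0) :
    u0 = 0 ∧ u1 = 0 ∧ u2 = 0 := by
  unfold G at e1 e2 e3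
  exact ⟨by linear_combination (-11 / 10) * e1 + (-1 / 10) * e2 + (11 / 10) * e3,
    by linear_combination (22 / 15) * e1 + (2 / 15) * e2 + (-9 / 5) * e3,
    by linear_combination (-2 / 5) * e1 + (-1 / 15) * e2 + (11 / 15) * e3⟩

lemma two_01_12 (u0 u1 u2 : ℝ) (e1 : G (0) (0) (1) u0 u1 u2 = 0) (e2 : G (1) (0) (0) u0 u1 u2 = 0) (e3 : G (1) (0) (1) u0 u1 u2 = 0) :
    u0 = 0 ∧ u1 = 0 ∧ u2 = 0 := by
  unfold G at e1 e2 e3
  exact ⟨by linear_combination (1311 / 1205) * e1 + (16 / 1205) * e2 + (-61 / 1205) * e3,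
    by linear_combination (-31949 / 14460) * e1 + (-389 / 14460) * e2 + (1709 / 14460) * e3,
    by linear_combination (3827 / 3615) * e1 + (32 / 3615) * e2 + (-122 / 3615) * e3⟩

lemma two_01_13 (u0 u1 u2 : ℝ) (e1 : G (0) (0) (1) u0 u1 u2 = 0) (e2 : G (1) (0) (-1) u0 u1 u2 = 0) (e3 : G (1) (0) (0) u0 u1 u2 = 0) :
    u0 = 0 ∧ u1 = 0 ∧ u2 = 0 := by
  unfold G at e1 e2 e3
  exact ⟨by linear_combination (-191 / 65) * e1 + (-61 / 65) * e2 + (256 / 65) * e3,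
    by linear_combination (5609 / 780) * e1 + (1709 / 780) * e2 + (-7169 / 780) * e3,
    by linear_combination (-317 / 195) * e1 + (-122 / 195) * e2 + (512 / 195) * e3⟩

lemma two_01_14 (u0 u1 u2 : ℝ) (e1 : G (0) (0) (1) u0 u1 u2 = 0) (e2 : G (1) (0) (3) u0 u1 u2 = 0) (e3 : G (1) (0) (4) u0 u1 u2 = 0) :
    u0 = 0 ∧ u1 = 0 ∧ u2 = 0 := by
  unfold G at e1 e2 e3
  exact ⟨by linear_combination (-24291 / 47545) * e1 + (-781 / 47545) * e2 + (256 / 47545) * e3,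
    by linear_combination (296909 / 570540) * e1 + (17669 / 570540) * e2 + (-5609 / 570540) * e3,
    by linear_combination (-1037 / 142635) * e1 + (-1562 / 142635) * e2 + (512 / 142635) * e3⟩

lemma two_01_23 (u0 u1 u2 : ℝ) (e1 : G (0) (0) (1) u0 u1 u2 = 0) (e2 : G (-1) (1) (0) u0 u1 u2 = 0) (e3 : G (-1) (1) (1) u0 u1 u2 = 0) :
    u0 = 0 ∧ u1 = 0 ∧ u2 = 0 := by
  unfold G at e1 e2 e3
  exact ⟨by linear_combination (39 / 700) * e1 + (-241 / 700) * e2 + (31 / 700) * e3,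
    by linear_combination (437 / 2100) * e1 + (1697 / 2100) * e2 + (-227 / 2100) * e3,
    by linear_combination (389 / 1050) * e1 + (-241 / 1050) * e2 + (31 / 1050) * e3⟩

lemma two_01_24 (u0 u1 u2 : ℝ) (e1 : G (0) (0) (1) u0 u1 u2 = 0) (e2 : G (1) (-3) (0) u0 u1 u2 = 0) (e3 : G (1) (-3) (1) u0 u1 u2 = 0) :
    u0 = 0 ∧ u1 = 0 ∧ u2 = 0 := by
  unfold G at e1 e2 e3
  exact ⟨by linear_combination (-541 / 2436) * e1 + (-7 / 348) * e2 + (55 / 2436) * e3,
    by linear_combination (127 / 36540) * e1 + (1 / 5220) * e2 + (-157 / 36540) * e3,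
    by linear_combination (677 / 3654) * e1 + (-7 / 522) * e2 + (55 / 3654) * e3⟩

lemma two_01_34 (u0 u1 u2 : ℝ) (e1 : G (0) (0) (1) u0 u1 u2 = 0) (e2 : G (2) (-4) (2) u0 u1 u2 = 0) (e3 : G (2) (-4) (3) u0 u1 u2 = 0) :
    u0 = 0 ∧ u1 = 0 ∧ u2 = 0 := by
  unfold G at e1 e2 e3
  exact ⟨by linear_combination (-71 / 140) * e1 + (-1 / 140) * e2 + (1 / 140) * e3,
    by linear_combination (-43 / 2688) * e1 + (-29 / 21504) * e2 + (1 / 2688) * e3,
    by linear_combination (-1 / 210) * e1 + (-1 / 210) * e2 + (1 / 210) * e3⟩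

lemma two_02_03 (u0 u1 u2 : ℝ) (e1 : G (0) (-1) (0) u0 u1 u2 = 0) (e2 : G (0) (-1) (1) u0 u1 u2 = 0) (e3 : G (0) (-2) (1) u0 u1 u2 = 0) :
    u0 = 0 ∧ u1 = 0 ∧ u2 = 0 := by
  unfold G at e1 e2 e3
  exact ⟨by linear_combination (-121 / 230) * e1 + (-81 / 230) * e2 + (11 / 230) * e3,
    by linear_combination (127 / 345) * e1 + (54 / 115) * e2 + (-22 / 345) * e3,
    by linear_combination (-401 / 345) * e1 + (-181 / 345) * e2 + (26 / 345) * e3⟩

lemma two_02_04 (u0 u1 u2 : ℝ) (e1 : G (0) (-1) (0) u0 u1 u2 = 0) (e2 : G (0) (-1) (-1) u0 u1 u2 = 0) (e3 : G (0) (-2) (-1) u0 u1 u2 = 0) :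
    u0 = 0 ∧ u1 = 0 ∧ u2 = 0 := by
  unfold G at e1 e2 e3
  exact ⟨by linear_combination (-121 / 370) * e1 + (-81 / 370) * e2 + (11 / 370) * e3,
    by linear_combination (19 / 185) * e1 + (54 / 185) * e2 + (-22 / 555) * e3,
    by linear_combination (119 / 555) * e1 + (-61 / 555) * e2 + (2 / 185) * e3⟩

lemma two_02_12 (u0 u1 u2 : ℝ) (e1 : G (0) (-1) (0) u0 u1 u2 = 0) (e2 : G (1) (0) (0) u0 u1 u2 = 0) (e3 : G (1) (-1) (0) u0 u1 u2 = 0) :
    u0 = 0 ∧ u1 = 0 ∧ u2 = 0 := by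
  unfold G at e1 e2 e3
  exact ⟨by linear_combination (-51 / 245) * e1 + (-16 / 245) * e2 + (121 / 245) * e3,
    by linear_combination (-41 / 735) * e1 + (64 / 735) * e2 + (-484 / 735) * e3,
    by linear_combination (-1007 / 1470) * e1 + (-167 / 1470) * e2 + (1217 / 1470) * e3⟩

lemma two_02_13 (u0 u1 u2 : ℝ) (e1 : G (0) (-1) (0) u0 u1 u2 = 0) (e2 : G (1) (0) (-1) u0 u1 u2 = 0) (e3 : G (1) (-1) (-1) u0 u1 u2 = 0) :
    u0 = 0 ∧ u1 = 0 ∧ u2 = 0 := by
  unfold G at e1 e2 e3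
  exact ⟨by linear_combination (257 / 104) * e1 + (49 / 104) * e2 + (-205 / 104) * e3,
    by linear_combination (-283 / 78) * e1 + (-49 / 78) * e2 + (205 / 78) * e3,
    by linear_combination (5903 / 1560) * e1 + (1223 / 1560) * e2 + (-5123 / 1560) * e3⟩

lemma two_02_14 (u0 u1 u2 : ℝ) (e1 : G (0) (-1) (0) u0 u1 u2 = 0) (e2 : G (1) (0) (3) u0 u1 u2 = 0) (e3 : G (1) (-1) (3) u0 u1 u2 = 0) :
    u0 = 0 ∧ u1 = 0 ∧ u2 = 0 := by
  unfold G at e1 e2 e3
  exact ⟨by linear_combination (-64447 / 63960) * e1 + (-487 / 63960) * e2 + (1267 / 63960) * e3,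
    by linear_combination (48457 / 47970) * e1 + (487 / 47970) * e2 + (-1267 / 47970) * e3,
    by linear_combination (-241 / 191880) * e1 + (-241 / 191880) * e2 + (1021 / 191880) * e3⟩

lemma two_02_23 (u0 u1 u2 : ℝ) (e1 : G (0) (-1) (0) u0 u1 u2 = 0) (e2 : G (-1) (1) (0) u0 u1 u2 = 0) (e3 : G (-1) (0) (0) u0 u1 u2 = 0) :
    u0 = 0 ∧ u1 = 0 ∧ u2 = 0 := by
  unfold G at e1 e2 e3
  exact ⟨by linear_combination (-51 / 245) * e1 + (-121 / 245) * e2 + (16 / 245) * e3,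
    by linear_combination (-41 / 735) * e1 + (484 / 735) * e2 + (-64 / 735) * e3,
    by linear_combination (-1007 / 1470) * e1 + (-1217 / 1470) * e2 + (167 / 1470) * e3⟩

lemma two_02_24 (u0 u1 u2 : ℝ) (e1 : G (0) (-1) (0) u0 u1 u2 = 0) (e2 : G (1) (-3) (0) u0 u1 u2 = 0) (e3 : G (1) (-4) (0) u0 u1 u2 = 0) :
    u0 = 0 ∧ u1 = 0 ∧ u2 = 0 := by
  unfold G at e1 e2 e3
  exact ⟨by linear_combination (-333 / 1345) * e1 + (121 / 17485) * e2 + (-16 / 17485) * e3,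
    by linear_combination (-13 / 4035) * e1 + (-484 / 52455) * e2 + (64 / 52455) * e3,
    by linear_combination (2159 / 8070) * e1 + (4337 / 104910) * e2 + (-1007 / 104910) * e3⟩

lemma two_02_34 (u0 u1 u2 : ℝ) (e1 : G (0) (-1) (0) u0 u1 u2 = 0) (e2 : G (2) (-4) (2) u0 u1 u2 = 0) (e3 : G (2) (-5) (2) u0 u1 u2 = 0) :
    u0 = 0 ∧ u1 = 0 ∧ u2 = 0 := by
  unfold G at e1 e2 e3
  exact ⟨by linear_combination (-701 / 2800) * e1 + (-1 / 2800) * e2 + (1 / 2800) * e3,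
    by linear_combination (1 / 2100) * e1 + (1 / 2100) * e2 + (-1 / 2100) * e3,
    by linear_combination (2231 / 8400) * e1 + (787 / 16800) * e2 + (-131 / 8400) * e3⟩

lemma two_03_04 (u0 u1 u2 : ℝ) (e1 : G (0) (-1) (1) u0 u1 u2 = 0) (e2 : G (0) (-1) (-1) u0 u1 u2 = 0) (e3 : G (0) (-2) (0) u0 u1 u2 = 0) :
    u0 = 0 ∧ u1 = 0 ∧ u2 = 0 := by
  unfold G at e1 e2 e3
  exact ⟨by linear_combination (-1 / 40) * e1 + (-1 / 40) * e2 + (11 / 640) * e3,
    by linear_combination (1 / 30) * e1 + (1 / 30) * e2 + (-1 / 30) * e3,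
    by linear_combination (-1 / 110) * e1 + (-13 / 330) * e2 + (1 / 60) * e3⟩

lemma two_03_12 (u0 u1 u2 : ℝ) (e1 : G (0) (-1) (1) u0 u1 u2 = 0) (e2 : G (1) (0) (0) u0 u1 u2 = 0) (e3 : G (1) (-1) (1) u0 u1 u2 = 0) :
    u0 = 0 ∧ u1 = 0 ∧ u2 = 0 := by
  unfold G at e1 e2 e3
  exact ⟨by linear_combination (27 / 70) * e1 + (11 / 210) * e2 + (-11 / 210) * e3,
    by linear_combination (-647 / 420) * e1 + (-29 / 140) * e2 + (99 / 140) * e3,
    by linear_combination (-163 / 420) * e1 + (-23 / 420) * e2 + (233 / 420) * e3⟩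

lemma two_03_13 (u0 u1 u2 : ℝ) (e1 : G (0) (-1) (1) u0 u1 u2 = 0) (e2 : G (1) (0) (-1) u0 u1 u2 = 0) (e3 : G (1) (-1) (0) u0 u1 u2 = 0) :
    u0 = 0 ∧ u1 = 0 ∧ u2 = 0 := by
  unfold G at e1 e2 e3
  exact ⟨by linear_combination (331 / 960) * e1 + (11 / 960) * e2 + (-11 / 960) * e3,
    by linear_combination (121 / 320) * e1 + (43 / 960) * e2 + (-1003 / 960) * e3,
    by linear_combination (271 / 192) * e1 + (5 / 64) * e2 + (-69 / 64) * e3⟩

lemma two_03_14 (u0 u1 u2 : ℝ) (e1 : G (0) (-1) (1) u0 u1 u2 = 0) (e2 : G (1) (0) (3) u0 u1 u2 = 0) (e3 : G (1) (-1) (4) u0 u1 u2 = 0) :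
    u0 = 0 ∧ u1 = 0 ∧ u2 = 0 := by
  unfold G at e1 e2 e3
  exact ⟨by linear_combination (-97147 / 5588180) * e1 + (-33781 / 16764540) * e2 + (25201 / 16764540) * e3,
    by linear_combination (318319 / 16764540) * e1 + (25593 / 5588180) * e2 + (-17273 / 5588180) * e3,
    by linear_combination (-1 / 780) * e1 + (-1 / 780) * e2 + (1 / 780) * e3⟩

lemma two_03_23 (u0 u1 u2 : ℝ) (e1 : G (0) (-1) (1) u0 u1 u2 = 0) (e2 : G (-1) (1) (0) u0 u1 u2 = 0) (e3 : G (-1) (0) (1) u0 u1 u2 = 0) :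
    u0 = 0 ∧ u1 = 0 ∧ u2 = 0 := by
  unfold G at e1 e2 e3
  exact ⟨by linear_combination (331 / 960) * e1 + (11 / 960) * e2 + (-11 / 960) * e3,
    by linear_combination (121 / 320) * e1 + (1003 / 960) * e2 + (-43 / 960) * e3,
    by linear_combination (271 / 192) * e1 + (69 / 64) * e2 + (-5 / 64) * e3⟩

lemma two_03_24 (u0 u1 u2 : ℝ) (e1 : G (0) (-1) (1) u0 u1 u2 = 0) (e2 : G (1) (-3) (0) u0 u1 u2 = 0) (e3 : G (1) (-4) (1) u0 u1 u2 = 0) :
    u0 = 0 ∧ u1 = 0 ∧ u2 = 0 := by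
  unfold G at e1 e2 e3
  exact ⟨by linear_combination (-557 / 50700) * e1 + (-11957 / 1064700) * e2 + (3377 / 1064700) * e3,
    by linear_combination (1 / 780) * e1 + (1 / 780) * e2 + (-1 / 780) * e3,
    by linear_combination (-19 / 50700) * e1 + (-33419 / 1064700) * e2 + (8459 / 1064700) * e3⟩

lemma two_03_34 (u0 u1 u2 : ℝ) (e1 : G (0) (-1) (1) u0 u1 u2 = 0) (e2 : G (2) (-4) (2) u0 u1 u2 = 0) (e3 : G (2) (-5) (3) u0 u1 u2 = 0) :
    u0 = 0 ∧ u1 = 0 ∧ u2 = 0 := by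
  unfold G at e1 e2 e3
  exact ⟨by linear_combination (-57 / 3850) * e1 + (-131 / 16800) * e2 + (31 / 11550) * e3,
    by linear_combination (-113 / 127050) * e1 + (-23 / 11550) * e2 + (43 / 127050) * e3,
    by linear_combination (-347 / 25410) * e1 + (-19 / 770) * e2 + (69 / 8470) * e3⟩

lemma two_04_12 (u0 u1 u2 : ℝ) (e1 : G (0) (-1) (-1) u0 u1 u2 = 0) (e2 : G (1) (0) (0) u0 u1 u2 = 0) (e3 : G (1) (-1) (-1) u0 u1 u2 = 0) :
    u0 = 0 ∧ u1 = 0 ∧ u2 = 0 := by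
  unfold G at e1 e2 e3
  exact ⟨by linear_combination (-1 / 10) * e1 + (-11 / 10) * e2 + (11 / 10) * e3,
    by linear_combination (2677 / 14580) * e1 + (31897 / 14580) * e2 + (-31867 / 14580) * e3,
    by linear_combination (-341 / 2916) * e1 + (-3269 / 2916) * e2 + (3263 / 2916) * e3⟩

lemma two_04_13 (u0 u1 u2 : ℝ) (e1 : G (0) (-1) (-1) u0 u1 u2 = 0) (e2 : G (1) (0) (-1) u0 u1 u2 = 0) (e3 : G (1) (-1) (-2) u0 u1 u2 = 0) :
    u0 = 0 ∧ u1 = 0 ∧ u2 = 0 := by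
  unfold G at e1 e2 e3
  exact ⟨by linear_combination (32779 / 686410) * e1 + (22869 / 686410) * e2 + (-22539 / 686410) * e3,
    by linear_combination (-226399 / 2059230) * e1 + (-135169 / 2059230) * e2 + (134209 / 2059230) * e3,
    by linear_combination (1 / 30) * e1 + (1 / 30) * e2 + (-1 / 30) * e3⟩

lemma two_04_14 (u0 u1 u2 : ℝ) (e1 : G (0) (-1) (-1) u0 u1 u2 = 0) (e2 : G (1) (0) (3) u0 u1 u2 = 0) (e3 : G (1) (-1) (2) u0 u1 u2 = 0) :
    u0 = 0 ∧ u1 = 0 ∧ u2 = 0 := by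
  unfold G at e1 e2 e3
  exact ⟨by linear_combination (8753 / 3770) * e1 + (363 / 3770) * e2 + (-2673 / 3770) * e3,
    by linear_combination (-23789 / 11310) * e1 + (-959 / 11310) * e2 + (6719 / 11310) * e3,
    by linear_combination (-2017 / 11310) * e1 + (-97 / 11310) * e2 + (1057 / 11310) * e3⟩

lemma two_04_23 (u0 u1 u2 : ℝ) (e1 : G (0) (-1) (-1) u0 u1 u2 = 0) (e2 : G (-1) (1) (0) u0 u1 u2 = 0) (e3 : G (1) (-2) (-1) u0 u1 u2 = 0) :
    u0 = 0 ∧ u1 = 0 ∧ u2 = 0 := by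
  unfold G at e1 e2 e3
  exact ⟨by linear_combination (-1013 / 42250) * e1 + (363 / 42250) * e2 + (693 / 42250) * e3,
    by linear_combination (1 / 30) * e1 + (-1 / 30) * e2 + (-1 / 30) * e3,
    by linear_combination (-5119 / 126750) * e1 + (3169 / 126750) * e2 + (2209 / 126750) * e3⟩

lemma two_04_24 (u0 u1 u2 : ℝ) (e1 : G (0) (-1) (-1) u0 u1 u2 = 0) (e2 : G (1) (-3) (0) u0 u1 u2 = 0) (e3 : G (1) (-4) (-1) u0 u1 u2 = 0) :
    u0 = 0 ∧ u1 = 0 ∧ u2 = 0 := by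
  unfold G at e1 e2 e3
  exact ⟨by linear_combination (72113 / 78020) * e1 + (11253 / 78020) * e2 + (-2673 / 78020) * e3,
    by linear_combination (961 / 234060) * e1 + (-959 / 234060) * e2 + (-1 / 234060) * e3,
    by linear_combination (-217837 / 234060) * e1 + (-31777 / 234060) * e2 + (7777 / 234060) * e3⟩

lemma two_04_34 (u0 u1 u2 : ℝ) (e1 : G (0) (-1) (-1) u0 u1 u2 = 0) (e2 : G (2) (-4) (2) u0 u1 u2 = 0) (e3 : G (2) (-5) (1) u0 u1 u2 = 0) :
    u0 = 0 ∧ u1 = 0 ∧ u2 = 0 := by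
  unfold G at e1 e2 e3
  exact ⟨by linear_combination (-461 / 3290) * e1 + (-5731 / 52640) * e2 + (121 / 3290) * e3,
    by linear_combination (-31 / 29610) * e1 + (-31 / 29610) * e2 + (1 / 29610) * e3,
    by linear_combination (451 / 4230) * e1 + (451 / 4230) * e2 + (-151 / 4230) * e3⟩

lemma two_12_13 (u0 u1 u2 : ℝ) (e1 : G (1) (0) (0) u0 u1 u2 = 0) (e2 : G (1) (0) (-1) u0 u1 u2 = 0) (e3 : G (2) (0) (-1) u0 u1 u2 = 0) :
    u0 = 0 ∧ u1 = 0 ∧ u2 = 0 := by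
  unfold G at e1 e2 e3
  exact ⟨by linear_combination (-1486 / 4435) * e1 + (-2781 / 4435) * e2 + (191 / 4435) * e3,
    by linear_combination (67439 / 53220) * e1 + (76049 / 53220) * e2 + (-5609 / 53220) * e3,
    by linear_combination (3478 / 13305) * e1 + (-6032 / 13305) * e2 + (317 / 13305) * e3⟩

lemma two_12_14 (u0 u1 u2 : ℝ) (e1 : G (1) (0) (0) u0 u1 u2 = 0) (e2 : G (1) (0) (3) u0 u1 u2 = 0) (e3 : G (2) (0) (3) u0 u1 u2 = 0) :
    u0 = 0 ∧ u1 = 0 ∧ u2 = 0 := by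
  unfold G at e1 e2 e3
  exact ⟨by linear_combination (122 / 26615) * e1 + (541 / 79845) * e2 + (-191 / 79845) * e3,
    by linear_combination (-573479 / 77609340) * e1 + (-1074929 / 77609340) * e2 + (391409 / 77609340) * e3,
    by linear_combination (43922 / 19402335) * e1 + (126152 / 19402335) * e2 + (-41537 / 19402335) * e3⟩

lemma two_12_23 (u0 u1 u2 : ℝ) (e1 : G (1) (0) (0) u0 u1 u2 = 0) (e2 : G (-1) (1) (0) u0 u1 u2 = 0) (e3 : G (0) (1) (0) u0 u1 u2 = 0) :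
    u0 = 0 ∧ u1 = 0 ∧ u2 = 0 := by
  unfold G at e1 e2 e3
  exact ⟨by linear_combination (-16 / 245) * e1 + (-121 / 245) * e2 + (51 / 245) * e3,
    by linear_combination (64 / 735) * e1 + (484 / 735) * e2 + (41 / 735) * e3,
    by linear_combination (-167 / 1470) * e1 + (-1217 / 1470) * e2 + (1007 / 1470) * e3⟩

lemma two_12_24 (u0 u1 u2 : ℝ) (e1 : G (1) (0) (0) u0 u1 u2 = 0) (e2 : G (1) (-3) (0) u0 u1 u2 = 0) (e3 : G (2) (-3) (0) u0 u1 u2 = 0) :
    u0 = 0 ∧ u1 = 0 ∧ u2 = 0 := by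
  unfold G at e1 e2 e3
  exact ⟨by linear_combination (-46 / 6405) * e1 + (-41 / 6405) * e2 + (17 / 2135) * e3,
    by linear_combination (5314 / 1556415) * e1 + (-926 / 1556415) * e2 + (-5149 / 1556415) * e3,
    by linear_combination (-69677 / 3112830) * e1 + (-62057 / 3112830) * e2 + (64487 / 3112830) * e3⟩

lemma two_12_34 (u0 u1 u2 : ℝ) (e1 : G (1) (0) (0) u0 u1 u2 = 0) (e2 : G (2) (-4) (2) u0 u1 u2 = 0) (e3 : G (3) (-4) (2) u0 u1 u2 = 0) :
    u0 = 0 ∧ u1 = 0 ∧ u2 = 0 := by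
  unfold G at e1 e2 e3
  exact ⟨by linear_combination (-1 / 210) * e1 + (-1 / 210) * e2 + (1 / 210) * e3,
    by linear_combination (-169 / 225000) * e1 + (-2927 / 1800000) * e2 + (139 / 225000) * e3,
    by linear_combination (-7589 / 393750) * e1 + (-100949 / 6300000) * e2 + (5909 / 393750) * e3⟩

lemma two_13_14 (u0 u1 u2 : ℝ) (e1 : G (1) (0) (-1) u0 u1 u2 = 0) (e2 : G (1) (0) (3) u0 u1 u2 = 0) (e3 : G (2) (0) (2) u0 u1 u2 = 0) :
    u0 = 0 ∧ u1 = 0 ∧ u2 = 0 := by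
  unfold G at e1 e2 e3
  exact ⟨by linear_combination (417 / 60220) * e1 + (347 / 60220) * e2 + (-191 / 30110) * e3,
    by linear_combination (-81209 / 5781120) * e1 + (-67649 / 5781120) * e2 + (1236029 / 92497920) * e3,
    by linear_combination (1039 / 180660) * e1 + (1009 / 180660) * e2 + (-256 / 45165) * e3⟩

lemma two_13_23 (u0 u1 u2 : ℝ) (e1 : G (1) (0) (-1) u0 u1 u2 = 0) (e2 : G (-1) (1) (0) u0 u1 u2 = 0) (e3 : G (0) (1) (-1) u0 u1 u2 = 0) :
    u0 = 0 ∧ u1 = 0 ∧ u2 = 0 := by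
  unfold G at e1 e2 e3
  exact ⟨by linear_combination (11 / 960) * e1 + (11 / 960) * e2 + (-331 / 960) * e3,
    by linear_combination (43 / 960) * e1 + (1003 / 960) * e2 + (-121 / 320) * e3,
    by linear_combination (5 / 64) * e1 + (69 / 64) * e2 + (-271 / 192) * e3⟩

lemma two_13_24 (u0 u1 u2 : ℝ) (e1 : G (1) (0) (-1) u0 u1 u2 = 0) (e2 : G (1) (-3) (0) u0 u1 u2 = 0) (e3 : G (2) (-3) (-1) u0 u1 u2 = 0) :
    u0 = 0 ∧ u1 = 0 ∧ u2 = 0 := by
  unfold G at e1 e2 e3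
  exact ⟨by linear_combination (-1 / 30) * e1 + (-1 / 30) * e2 + (1 / 30) * e3,
    by linear_combination (131071 / 9439290) * e1 + (99361 / 9439290) * e2 + (-130111 / 9439290) * e3,
    by linear_combination (-821581 / 9439290) * e1 + (-844051 / 9439290) * e2 + (813331 / 9439290) * e3⟩

lemma two_13_34 (u0 u1 u2 : ℝ) (e1 : G (1) (0) (-1) u0 u1 u2 = 0) (e2 : G (2) (-4) (2) u0 u1 u2 = 0) (e3 : G (3) (-4) (1) u0 u1 u2 = 0) :
    u0 = 0 ∧ u1 = 0 ∧ u2 = 0 := by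
  unfold G at e1 e2 e3
  exact ⟨by linear_combination (-341 / 38460) * e1 + (-341 / 38460) * e2 + (331 / 38460) * e3,
    by linear_combination (-241 / 205120) * e1 + (-7061 / 3281920) * e2 + (683 / 615360) * e3,
    by linear_combination (-221 / 7692) * e1 + (-221 / 7692) * e2 + (69 / 2564) * e3⟩

lemma two_14_23 (u0 u1 u2 : ℝ) (e1 : G (1) (0) (3) u0 u1 u2 = 0) (e2 : G (-1) (1) (0) u0 u1 u2 = 0) (e3 : G (2) (-1) (3) u0 u1 u2 = 0) :
    u0 = 0 ∧ u1 = 0 ∧ u2 = 0 := by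
  unfold G at e1 e2 e3
  exact ⟨by linear_combination (-1 / 30) * e1 + (1 / 30) * e2 + (1 / 30) * e3,
    by linear_combination (156659 / 2161350) * e1 + (-193709 / 2161350) * e2 + (-155699 / 2161350) * e3,
    by linear_combination (-66623 / 2161350) * e1 + (98273 / 2161350) * e2 + (67553 / 2161350) * e3⟩

lemma two_14_24 (u0 u1 u2 : ℝ) (e1 : G (1) (0) (3) u0 u1 u2 = 0) (e2 : G (1) (-3) (0) u0 u1 u2 = 0) (e3 : G (2) (-3) (3) u0 u1 u2 = 0) :
    u0 = 0 ∧ u1 = 0 ∧ u2 = 0 := by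
  unfold G at e1 e2 e3
  exact ⟨by linear_combination (113 / 64770) * e1 + (251 / 21590) * e2 + (-433 / 64770) * e3,
    by linear_combination (-1 / 7290) * e1 + (-31 / 7290) * e2 + (1 / 7290) * e3,
    by linear_combination (-8047 / 15739110) * e1 + (-93937 / 15739110) * e2 + (83377 / 15739110) * e3⟩

lemma two_14_34 (u0 u1 u2 : ℝ) (e1 : G (1) (0) (3) u0 u1 u2 = 0) (e2 : G (2) (-4) (2) u0 u1 u2 = 0) (e3 : G (3) (-4) (5) u0 u1 u2 = 0) :
    u0 = 0 ∧ u1 = 0 ∧ u2 = 0 := by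
  unfold G at e1 e2 e3
  exact ⟨by linear_combination (1383 / 913220) * e1 + (1383 / 913220) * e2 + (-433 / 913220) * e3,
    by linear_combination (131 / 3984960) * e1 + (-60169 / 63759360) * e2 + (-11 / 3984960) * e3,
    by linear_combination (-181 / 391380) * e1 + (-181 / 391380) * e2 + (151 / 391380) * e3⟩

lemma two_23_24 (u0 u1 u2 : ℝ) (e1 : G (-1) (1) (0) u0 u1 u2 = 0) (e2 : G (1) (-3) (0) u0 u1 u2 = 0) (e3 : G (0) (-2) (0) u0 u1 u2 = 0) :
    u0 = 0 ∧ u1 = 0 ∧ u2 = 0 := by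
  unfold G at e1 e2 e3
  exact ⟨by linear_combination (1 / 280) * e1 + (1 / 280) * e2 + (-51 / 4480) * e3,
    by linear_combination (-1 / 210) * e1 + (-1 / 210) * e2 + (1 / 210) * e3,
    by linear_combination (1007 / 26880) * e1 + (167 / 26880) * e2 + (-12857 / 430080) * e3⟩

lemma two_23_34 (u0 u1 u2 : ℝ) (e1 : G (-1) (1) (0) u0 u1 u2 = 0) (e2 : G (2) (-4) (2) u0 u1 u2 = 0) (e3 : G (1) (-3) (2) u0 u1 u2 = 0) :
    u0 = 0 ∧ u1 = 0 ∧ u2 = 0 := by
  unfold G at e1 e2 e3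
  exact ⟨by linear_combination (-197 / 7870) * e1 + (-71 / 23610) * e2 + (331 / 23610) * e3,
    by linear_combination (-53 / 23610) * e1 + (-11 / 7870) * e2 + (43 / 23610) * e3,
    by linear_combination (-221 / 4722) * e1 + (-791 / 75552) * e2 + (209 / 4722) * e3⟩

lemma two_24_34 (u0 u1 u2 : ℝ) (e1 : G (1) (-3) (0) u0 u1 u2 = 0) (e2 : G (2) (-4) (2) u0 u1 u2 = 0) (e3 : G (3) (-7) (2) u0 u1 u2 = 0) :
    u0 = 0 ∧ u1 = 0 ∧ u2 = 0 := by
  unfold G at e1 e2 e3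
  exact ⟨by linear_combination (-5613 / 85750) * e1 + (-5613 / 85750) * e2 + (433 / 85750) * e3,
    by linear_combination (-211 / 257250) * e1 + (-211 / 257250) * e2 + (1 / 257250) * e3,
    by linear_combination (1441 / 36750) * e1 + (41431 / 588000) * e2 + (-181 / 36750) * e3⟩

lemma ep_core (w1 w2 w3 u0 u1 u2 : ℝ)
    (span : ∀ x0 x1 x2 : ℝ, w1 * x0 + w2 * x1 + w3 * x2 = 0 → G x0 x1 x2 u0 u1 u2 = 0)
    (S0 : ¬((1) * w3 = 0) → ¬((-1) * w2 = 0) → ¬((-1) * w2 + (1) * w3 = 0) → ¬((-1) * w2 + (-1) * w3 = 0) → ((1) * u0) = 0)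
    (S1 : ¬((1) * w3 = 0) → ¬((1) * w1 = 0) → ¬((1) * w1 + (-1) * w3 = 0) → ¬((1) * w1 + (3) * w3 = 0) → ((1) * u1) = 0)
    (S2 : ¬((-1) * w2 = 0) → ¬((1) * w1 = 0) → ¬((-1) * w1 + (1) * w2 = 0) → ¬((1) * w1 + (-3) * w2 = 0) → ((1) * u2) = 0)
    (S3 : ¬((-1) * w2 + (1) * w3 = 0) → ¬((1) * w1 + (-1) * w3 = 0) → ¬((-1) * w1 + (1) * w2 = 0) → ¬((2) * w1 + (-4) * w2 + (2) * w3 = 0) → ((1) * u0 + (1) * u1 + (1) * u2) = 0)
    (S4 : ¬((-1) * w2 + (-1) * w3 = 0) → ¬((1) * w1 + (3) * w3 = 0) → ¬((1) * w1 + (-3) * w2 = 0) → ¬((2) * w1 + (-4) * w2 + (2) * w3 = 0) → ((-3) * u0 + (-1) * u1 + (1) * u2) = 0) :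
    u0 = 0 ∧ u1 = 0 ∧ u2 = 0 := by
  by_cases d01 : (1) * w3 = 0
  · by_cases d02 : (-1) * w2 = 0
    · exact two_01_02 u0 u1 u2 (span _ _ _ (by linear_combination (1) * d01 + (0) * d02)) (span _ _ _ (by linear_combination (0) * d01 + (1) * d02)) (span _ _ _ (by linear_combination (1) * d01 + (1) * d02))
    by_cases d03 : (-1) * w2 + (1) * w3 = 0
    · exact two_01_03 u0 u1 u2 (span _ _ _ (by linear_combination (1) * d01 + (0) * d03)) (span _ _ _ (by linear_combination (0) * d01 + (1) * d03)) (span _ _ _ (by linear_combination (1) * d01 + (1) * d03))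
    by_cases d04 : (-1) * w2 + (-1) * w3 = 0
    · exact two_01_04 u0 u1 u2 (span _ _ _ (by linear_combination (1) * d01 + (0) * d04)) (span _ _ _ (by linear_combination (0) * d01 + (1) * d04)) (span _ _ _ (by linear_combination (1) * d01 + (1) * d04))
    by_cases d12 : (1) * w1 = 0
    · exact two_01_12 u0 u1 u2 (span _ _ _ (by linear_combination (1) * d01 + (0) * d12)) (span _ _ _ (by linear_combination (0) * d01 + (1) * d12)) (span _ _ _ (by linear_combination (1) * d01 + (1) * d12))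
    by_cases d13 : (1) * w1 + (-1) * w3 = 0
    · exact two_01_13 u0 u1 u2 (span _ _ _ (by linear_combination (1) * d01 + (0) * d13)) (span _ _ _ (by linear_combination (0) * d01 + (1) * d13)) (span _ _ _ (by linear_combination (1) * d01 + (1) * d13))
    by_cases d14 : (1) * w1 + (3) * w3 = 0
    · exact two_01_14 u0 u1 u2 (span _ _ _ (by linear_combination (1) * d01 + (0) * d14)) (span _ _ _ (by linear_combination (0) * d01 + (1) * d14)) (span _ _ _ (by linear_combination (1) * d01 + (1) * d14))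
    by_cases d23 : (-1) * w1 + (1) * w2 = 0
    · exact two_01_23 u0 u1 u2 (span _ _ _ (by linear_combination (1) * d01 + (0) * d23)) (span _ _ _ (by linear_combination (0) * d01 + (1) * d23)) (span _ _ _ (by linear_combination (1) * d01 + (1) * d23))
    by_cases d24 : (1) * w1 + (-3) * w2 = 0
    · exact two_01_24 u0 u1 u2 (span _ _ _ (by linear_combination (1) * d01 + (0) * d24)) (span _ _ _ (by linear_combination (0) * d01 + (1) * d24)) (span _ _ _ (by linear_combination (1) * d01 + (1) * d24))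
    by_cases d34 : (2) * w1 + (-4) * w2 + (2) * w3 = 0
    · exact two_01_34 u0 u1 u2 (span _ _ _ (by linear_combination (1) * d01 + (0) * d34)) (span _ _ _ (by linear_combination (0) * d01 + (1) * d34)) (span _ _ _ (by linear_combination (1) * d01 + (1) * d34))
    have s2 := S2 d02 d12 d23 d24
    have s3 := S3 d03 d13 d23 d34
    have s4 := S4 d04 d14 d24 d34
    exact ⟨by linear_combination (1) * s2 + (-1 / 2) * s3 + (-1 / 2) * s4, by linear_combination (-2) * s2 + (3 / 2) * s3 + (1 / 2) * s4, by linear_combination (1) * s2⟩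
  by_cases d02 : (-1) * w2 = 0
  · by_cases d03 : (-1) * w2 + (1) * w3 = 0
    · exact two_02_03 u0 u1 u2 (span _ _ _ (by linear_combination (1) * d02 + (0) * d03)) (span _ _ _ (by linear_combination (0) * d02 + (1) * d03)) (span _ _ _ (by linear_combination (1) * d02 + (1) * d03))
    by_cases d04 : (-1) * w2 + (-1) * w3 = 0
    · exact two_02_04 u0 u1 u2 (span _ _ _ (by linear_combination (1) * d02 + (0) * d04)) (span _ _ _ (by linear_combination (0) * d02 + (1) * d04)) (span _ _ _ (by linear_combination (1) * d02 + (1) * d04))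
    by_cases d12 : (1) * w1 = 0
    · exact two_02_12 u0 u1 u2 (span _ _ _ (by linear_combination (1) * d02 + (0) * d12)) (span _ _ _ (by linear_combination (0) * d02 + (1) * d12)) (span _ _ _ (by linear_combination (1) * d02 + (1) * d12))
    by_cases d13 : (1) * w1 + (-1) * w3 = 0
    · exact two_02_13 u0 u1 u2 (span _ _ _ (by linear_combination (1) * d02 + (0) * d13)) (span _ _ _ (by linear_combination (0) * d02 + (1) * d13)) (span _ _ _ (by linear_combination (1) * d02 + (1) * d13))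
    by_cases d14 : (1) * w1 + (3) * w3 = 0
    · exact two_02_14 u0 u1 u2 (span _ _ _ (by linear_combination (1) * d02 + (0) * d14)) (span _ _ _ (by linear_combination (0) * d02 + (1) * d14)) (span _ _ _ (by linear_combination (1) * d02 + (1) * d14))
    by_cases d23 : (-1) * w1 + (1) * w2 = 0
    · exact two_02_23 u0 u1 u2 (span _ _ _ (by linear_combination (1) * d02 + (0) * d23)) (span _ _ _ (by linear_combination (0) * d02 + (1) * d23)) (span _ _ _ (by linear_combination (1) * d02 + (1) * d23))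
    by_cases d24 : (1) * w1 + (-3) * w2 = 0
    · exact two_02_24 u0 u1 u2 (span _ _ _ (by linear_combination (1) * d02 + (0) * d24)) (span _ _ _ (by linear_combination (0) * d02 + (1) * d24)) (span _ _ _ (by linear_combination (1) * d02 + (1) * d24))
    by_cases d34 : (2) * w1 + (-4) * w2 + (2) * w3 = 0
    · exact two_02_34 u0 u1 u2 (span _ _ _ (by linear_combination (1) * d02 + (0) * d34)) (span _ _ _ (by linear_combination (0) * d02 + (1) * d34)) (span _ _ _ (by linear_combination (1) * d02 + (1) * d34))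
    have s1 := S1 d01 d12 d13 d14
    have s3 := S3 d03 d13 d23 d34
    have s4 := S4 d04 d14 d24 d34
    exact ⟨by linear_combination (-1 / 2) * s1 + (1 / 4) * s3 + (-1 / 4) * s4, by linear_combination (1) * s1, by linear_combination (-1 / 2) * s1 + (3 / 4) * s3 + (1 / 4) * s4⟩
  by_cases d03 : (-1) * w2 + (1) * w3 = 0
  · by_cases d04 : (-1) * w2 + (-1) * w3 = 0
    · exact two_03_04 u0 u1 u2 (span _ _ _ (by linear_combination (1) * d03 + (0) * d04)) (span _ _ _ (by linear_combination (0) * d03 + (1) * d04)) (span _ _ _ (by linear_combination (1) * d03 + (1) * d04))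
    by_cases d12 : (1) * w1 = 0
    · exact two_03_12 u0 u1 u2 (span _ _ _ (by linear_combination (1) * d03 + (0) * d12)) (span _ _ _ (by linear_combination (0) * d03 + (1) * d12)) (span _ _ _ (by linear_combination (1) * d03 + (1) * d12))
    by_cases d13 : (1) * w1 + (-1) * w3 = 0
    · exact two_03_13 u0 u1 u2 (span _ _ _ (by linear_combination (1) * d03 + (0) * d13)) (span _ _ _ (by linear_combination (0) * d03 + (1) * d13)) (span _ _ _ (by linear_combination (1) * d03 + (1) * d13))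
    by_cases d14 : (1) * w1 + (3) * w3 = 0
    · exact two_03_14 u0 u1 u2 (span _ _ _ (by linear_combination (1) * d03 + (0) * d14)) (span _ _ _ (by linear_combination (0) * d03 + (1) * d14)) (span _ _ _ (by linear_combination (1) * d03 + (1) * d14))
    by_cases d23 : (-1) * w1 + (1) * w2 = 0
    · exact two_03_23 u0 u1 u2 (span _ _ _ (by linear_combination (1) * d03 + (0) * d23)) (span _ _ _ (by linear_combination (0) * d03 + (1) * d23)) (span _ _ _ (by linear_combination (1) * d03 + (1) * d23))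
    by_cases d24 : (1) * w1 + (-3) * w2 = 0
    · exact two_03_24 u0 u1 u2 (span _ _ _ (by linear_combination (1) * d03 + (0) * d24)) (span _ _ _ (by linear_combination (0) * d03 + (1) * d24)) (span _ _ _ (by linear_combination (1) * d03 + (1) * d24))
    by_cases d34 : (2) * w1 + (-4) * w2 + (2) * w3 = 0
    · exact two_03_34 u0 u1 u2 (span _ _ _ (by linear_combination (1) * d03 + (0) * d34)) (span _ _ _ (by linear_combination (0) * d03 + (1) * d34)) (span _ _ _ (by linear_combination (1) * d03 + (1) * d34))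
    have s1 := S1 d01 d12 d13 d14
    have s2 := S2 d02 d12 d23 d24
    have s4 := S4 d04 d14 d24 d34
    exact ⟨by linear_combination (-1 / 3) * s1 + (1 / 3) * s2 + (-1 / 3) * s4, by linear_combination (1) * s1, by linear_combination (1) * s2⟩
  by_cases d04 : (-1) * w2 + (-1) * w3 = 0
  · by_cases d12 : (1) * w1 = 0
    · exact two_04_12 u0 u1 u2 (span _ _ _ (by linear_combination (1) * d04 + (0) * d12)) (span _ _ _ (by linear_combination (0) * d04 + (1) * d12)) (span _ _ _ (by linear_combination (1) * d04 + (1) * d12))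
    by_cases d13 : (1) * w1 + (-1) * w3 = 0
    · exact two_04_13 u0 u1 u2 (span _ _ _ (by linear_combination (1) * d04 + (0) * d13)) (span _ _ _ (by linear_combination (0) * d04 + (1) * d13)) (span _ _ _ (by linear_combination (1) * d04 + (1) * d13))
    by_cases d14 : (1) * w1 + (3) * w3 = 0
    · exact two_04_14 u0 u1 u2 (span _ _ _ (by linear_combination (1) * d04 + (0) * d14)) (span _ _ _ (by linear_combination (0) * d04 + (1) * d14)) (span _ _ _ (by linear_combination (1) * d04 + (1) * d14))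
    by_cases d23 : (-1) * w1 + (1) * w2 = 0
    · exact two_04_23 u0 u1 u2 (span _ _ _ (by linear_combination (1) * d04 + (0) * d23)) (span _ _ _ (by linear_combination (0) * d04 + (1) * d23)) (span _ _ _ (by linear_combination (1) * d04 + (-1) * d23))
    by_cases d24 : (1) * w1 + (-3) * w2 = 0
    · exact two_04_24 u0 u1 u2 (span _ _ _ (by linear_combination (1) * d04 + (0) * d24)) (span _ _ _ (by linear_combination (0) * d04 + (1) * d24)) (span _ _ _ (by linear_combination (1) * d04 + (1) * d24))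
    by_cases d34 : (2) * w1 + (-4) * w2 + (2) * w3 = 0
    · exact two_04_34 u0 u1 u2 (span _ _ _ (by linear_combination (1) * d04 + (0) * d34)) (span _ _ _ (by linear_combination (0) * d04 + (1) * d34)) (span _ _ _ (by linear_combination (1) * d04 + (1) * d34))
    have s1 := S1 d01 d12 d13 d14
    have s2 := S2 d02 d12 d23 d24
    have s3 := S3 d03 d13 d23 d34
    exact ⟨by linear_combination (-1) * s1 + (-1) * s2 + (1) * s3, by linear_combination (1) * s1, by linear_combination (1) * s2⟩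
  by_cases d12 : (1) * w1 = 0
  · by_cases d13 : (1) * w1 + (-1) * w3 = 0
    · exact two_12_13 u0 u1 u2 (span _ _ _ (by linear_combination (1) * d12 + (0) * d13)) (span _ _ _ (by linear_combination (0) * d12 + (1) * d13)) (span _ _ _ (by linear_combination (1) * d12 + (1) * d13))
    by_cases d14 : (1) * w1 + (3) * w3 = 0
    · exact two_12_14 u0 u1 u2 (span _ _ _ (by linear_combination (1) * d12 + (0) * d14)) (span _ _ _ (by linear_combination (0) * d12 + (1) * d14)) (span _ _ _ (by linear_combination (1) * d12 + (1) * d14))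
    by_cases d23 : (-1) * w1 + (1) * w2 = 0
    · exact two_12_23 u0 u1 u2 (span _ _ _ (by linear_combination (1) * d12 + (0) * d23)) (span _ _ _ (by linear_combination (0) * d12 + (1) * d23)) (span _ _ _ (by linear_combination (1) * d12 + (1) * d23))
    by_cases d24 : (1) * w1 + (-3) * w2 = 0
    · exact two_12_24 u0 u1 u2 (span _ _ _ (by linear_combination (1) * d12 + (0) * d24)) (span _ _ _ (by linear_combination (0) * d12 + (1) * d24)) (span _ _ _ (by linear_combination (1) * d12 + (1) * d24))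
    by_cases d34 : (2) * w1 + (-4) * w2 + (2) * w3 = 0
    · exact two_12_34 u0 u1 u2 (span _ _ _ (by linear_combination (1) * d12 + (0) * d34)) (span _ _ _ (by linear_combination (0) * d12 + (1) * d34)) (span _ _ _ (by linear_combination (1) * d12 + (1) * d34))
    have s0 := S0 d01 d02 d03 d04
    have s3 := S3 d03 d13 d23 d34
    have s4 := S4 d04 d14 d24 d34
    exact ⟨by linear_combination (1) * s0, by linear_combination (-2) * s0 + (1 / 2) * s3 + (-1 / 2) * s4, by linear_combination (1) * s0 + (1 / 2) * s3 + (1 / 2) * s4⟩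
  by_cases d13 : (1) * w1 + (-1) * w3 = 0
  · by_cases d14 : (1) * w1 + (3) * w3 = 0
    · exact two_13_14 u0 u1 u2 (span _ _ _ (by linear_combination (1) * d13 + (0) * d14)) (span _ _ _ (by linear_combination (0) * d13 + (1) * d14)) (span _ _ _ (by linear_combination (1) * d13 + (1) * d14))
    by_cases d23 : (-1) * w1 + (1) * w2 = 0
    · exact two_13_23 u0 u1 u2 (span _ _ _ (by linear_combination (1) * d13 + (0) * d23)) (span _ _ _ (by linear_combination (0) * d13 + (1) * d23)) (span _ _ _ (by linear_combination (1) * d13 + (1) * d23))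
    by_cases d24 : (1) * w1 + (-3) * w2 = 0
    · exact two_13_24 u0 u1 u2 (span _ _ _ (by linear_combination (1) * d13 + (0) * d24)) (span _ _ _ (by linear_combination (0) * d13 + (1) * d24)) (span _ _ _ (by linear_combination (1) * d13 + (1) * d24))
    by_cases d34 : (2) * w1 + (-4) * w2 + (2) * w3 = 0
    · exact two_13_34 u0 u1 u2 (span _ _ _ (by linear_combination (1) * d13 + (0) * d34)) (span _ _ _ (by linear_combination (0) * d13 + (1) * d34)) (span _ _ _ (by linear_combination (1) * d13 + (1) * d34))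
    have s0 := S0 d01 d02 d03 d04
    have s2 := S2 d02 d12 d23 d24
    have s4 := S4 d04 d14 d24 d34
    exact ⟨by linear_combination (1) * s0, by linear_combination (-3) * s0 + (1) * s2 + (-1) * s4, by linear_combination (1) * s2⟩
  by_cases d14 : (1) * w1 + (3) * w3 = 0
  · by_cases d23 : (-1) * w1 + (1) * w2 = 0
    · exact two_14_23 u0 u1 u2 (span _ _ _ (by linear_combination (1) * d14 + (0) * d23)) (span _ _ _ (by linear_combination (0) * d14 + (1) * d23)) (span _ _ _ (by linear_combination (1) * d14 + (-1) * d23))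
    by_cases d24 : (1) * w1 + (-3) * w2 = 0
    · exact two_14_24 u0 u1 u2 (span _ _ _ (by linear_combination (1) * d14 + (0) * d24)) (span _ _ _ (by linear_combination (0) * d14 + (1) * d24)) (span _ _ _ (by linear_combination (1) * d14 + (1) * d24))
    by_cases d34 : (2) * w1 + (-4) * w2 + (2) * w3 = 0
    · exact two_14_34 u0 u1 u2 (span _ _ _ (by linear_combination (1) * d14 + (0) * d34)) (span _ _ _ (by linear_combination (0) * d14 + (1) * d34)) (span _ _ _ (by linear_combination (1) * d14 + (1) * d34))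
    have s0 := S0 d01 d02 d03 d04
    have s2 := S2 d02 d12 d23 d24
    have s3 := S3 d03 d13 d23 d34
    exact ⟨by linear_combination (1) * s0, by linear_combination (-1) * s0 + (-1) * s2 + (1) * s3, by linear_combination (1) * s2⟩
  by_cases d23 : (-1) * w1 + (1) * w2 = 0
  · by_cases d24 : (1) * w1 + (-3) * w2 = 0
    · exact two_23_24 u0 u1 u2 (span _ _ _ (by linear_combination (1) * d23 + (0) * d24)) (span _ _ _ (by linear_combination (0) * d23 + (1) * d24)) (span _ _ _ (by linear_combination (1) * d23 + (1) * d24))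
    by_cases d34 : (2) * w1 + (-4) * w2 + (2) * w3 = 0
    · exact two_23_34 u0 u1 u2 (span _ _ _ (by linear_combination (1) * d23 + (0) * d34)) (span _ _ _ (by linear_combination (0) * d23 + (1) * d34)) (span _ _ _ (by linear_combination (1) * d23 + (1) * d34))
    have s0 := S0 d01 d02 d03 d04
    have s1 := S1 d01 d12 d13 d14
    have s4 := S4 d04 d14 d24 d34
    exact ⟨by linear_combination (1) * s0, by linear_combination (1) * s1, by linear_combination (3) * s0 + (1) * s1 + (1) * s4⟩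
  by_cases d24 : (1) * w1 + (-3) * w2 = 0
  · by_cases d34 : (2) * w1 + (-4) * w2 + (2) * w3 = 0
    · exact two_24_34 u0 u1 u2 (span _ _ _ (by linear_combination (1) * d24 + (0) * d34)) (span _ _ _ (by linear_combination (0) * d24 + (1) * d34)) (span _ _ _ (by linear_combination (1) * d24 + (1) * d34))
    have s0 := S0 d01 d02 d03 d04
    have s1 := S1 d01 d12 d13 d14
    have s3 := S3 d03 d13 d23 d34
    exact ⟨by linear_combination (1) * s0, by linear_combination (1) * s1, by linear_combination (-1) * s0 + (-1) * s1 + (1) * s3⟩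
  by_cases d34 : (2) * w1 + (-4) * w2 + (2) * w3 = 0
  · have s0 := S0 d01 d02 d03 d04
    have s1 := S1 d01 d12 d13 d14
    have s2 := S2 d02 d12 d23 d24
    exact ⟨by linear_combination (1) * s0, by linear_combination (1) * s1, by linear_combination (1) * s2⟩
  have s0 := S0 d01 d02 d03 d04
  have s1 := S1 d01 d12 d13 d14
  have s2 := S2 d02 d12 d23 d24
  exact ⟨by linear_combination (1) * s0, by linear_combination (1) * s1, by linear_combination (1) * s2⟩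

lemma ep (p0 p1 p2 q0 q1 q2 u0 u1 u2 : ℝ)
    (hω : ¬(p1 * q2 - p2 * q1 = 0 ∧ p2 * q0 - p0 * q2 = 0 ∧ p0 * q1 - p1 * q0 = 0))
    (h : ∀ s t : ℝ, G (s * p0 + t * q0) (s * p1 + t * q1) (s * p2 + t * q2) u0 u1 u2 = 0) :
    u0 = 0 ∧ u1 = 0 ∧ u2 = 0 := by
  have span := gspan p0 p1 p2 q0 q1 q2 u0 u1 u2 _ _ _ rfl rfl rfl hω h
  unfold G at h
  refine ep_core _ _ _ u0 u1 u2 span ?_ ?_ ?_ ?_ ?_
  · intro d01 d02 d03 d04
    exact iso ((1) * p0) ((1) * q0) ((1) * u0) ((1) * p1) ((1) * q1) ((1) * u1) ((1) * p2) ((1) * q2) ((1) * u2) ((1) * p0 + (1) * p1 + (1) * p2) ((1) * q0 + (1) * q1 + (1) * q2) ((1) * u0 + (1) * u1 + (1) * u2) ((-3) * p0 + (-1) * p1 + (1) * p2) ((-3) * q0 + (-1) * q1 + (1) * q2) ((-3) * u0 + (-1) * u1 + (1) * u2)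
      (fun s t => by linear_combination h s t) (fun h0 => d01 (by linear_combination (-1) * h0)) (fun h0 => d02 (by linear_combination (-1) * h0)) (fun h0 => d03 (by linear_combination (-1) * h0)) (fun h0 => d04 (by linear_combination (-1) * h0))
  · intro d01 d12 d13 d14
    exact iso ((1) * p1) ((1) * q1) ((1) * u1) ((1) * p0) ((1) * q0) ((1) * u0) ((1) * p2) ((1) * q2) ((1) * u2) ((1) * p0 + (1) * p1 + (1) * p2) ((1) * q0 + (1) * q1 + (1) * q2) ((1) * u0 + (1) * u1 + (1) * u2) ((-3) * p0 + (-1) * p1 + (1) * p2) ((-3) * q0 + (-1) * q1 + (1) * q2) ((-3) * u0 + (-1) * u1 + (1) * u2)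
      (fun s t => by linear_combination h s t) (fun h0 => d01 (by linear_combination (1) * h0)) (fun h0 => d12 (by linear_combination (-1) * h0)) (fun h0 => d13 (by linear_combination (-1) * h0)) (fun h0 => d14 (by linear_combination (-1) * h0))
  · intro d02 d12 d23 d24
    exact iso ((1) * p2) ((1) * q2) ((1) * u2) ((1) * p0) ((1) * q0) ((1) * u0) ((1) * p1) ((1) * q1) ((1) * u1) ((1) * p0 + (1) * p1 + (1) * p2) ((1) * q0 + (1) * q1 + (1) * q2) ((1) * u0 + (1) * u1 + (1) * u2) ((-3) * p0 + (-1) * p1 + (1) * p2) ((-3) * q0 + (-1) * q1 + (1) * q2) ((-3) * u0 + (-1) * u1 + (1) * u2)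
      (fun s t => by linear_combination h s t) (fun h0 => d02 (by linear_combination (1) * h0)) (fun h0 => d12 (by linear_combination (1) * h0)) (fun h0 => d23 (by linear_combination (-1) * h0)) (fun h0 => d24 (by linear_combination (-1) * h0))
  · intro d03 d13 d23 d34
    exact iso ((1) * p0 + (1) * p1 + (1) * p2) ((1) * q0 + (1) * q1 + (1) * q2) ((1) * u0 + (1) * u1 + (1) * u2) ((1) * p0) ((1) * q0) ((1) * u0) ((1) * p1) ((1) * q1) ((1) * u1) ((1) * p2) ((1) * q2) ((1) * u2) ((-3) * p0 + (-1) * p1 + (1) * p2) ((-3) * q0 + (-1) * q1 + (1) * q2) ((-3) * u0 + (-1) * u1 + (1) * u2)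
      (fun s t => by linear_combination h s t) (fun h0 => d03 (by linear_combination (1) * h0)) (fun h0 => d13 (by linear_combination (1) * h0)) (fun h0 => d23 (by linear_combination (1) * h0)) (fun h0 => d34 (by linear_combination (-1) * h0))
  · intro d04 d14 d24 d34
    exact iso ((-3) * p0 + (-1) * p1 + (1) * p2) ((-3) * q0 + (-1) * q1 + (1) * q2) ((-3) * u0 + (-1) * u1 + (1) * u2) ((1) * p0) ((1) * q0) ((1) * u0) ((1) * p1) ((1) * q1) ((1) * u1) ((1) * p2) ((1) * q2) ((1) * u2) ((1) * p0 + (1) * p1 + (1) * p2) ((1) * q0 + (1) * q1 + (1) * q2) ((1) * u0 + (1) * u1 + (1) * u2)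
      (fun s t => by linear_combination h s t) (fun h0 => d04 (by linear_combination (1) * h0)) (fun h0 => d14 (by linear_combination (1) * h0)) (fun h0 => d24 (by linear_combination (1) * h0)) (fun h0 => d34 (by linear_combination (1) * h0))

end Pool.Agent.Helpers29.MB
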