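import Pool.Agent.Helpers29.MB1

set_option autoImplicit false

namespace Pool.Agent.Helpers29.MB

open Filter Topology

instance fact6 : Fact ((1 : ENNReal) ≤ 6) := ⟨by norm_num⟩

abbrev L6 := lp (fun _ : ℕ => ℝ) 6

/-- coordinates -/
noncomputable def co (k : ℕ) : L6 →L[ℝ] ℝ := lp.evalCLM ℝ (fun _ : ℕ => ℝ) 6 k

lemma co_apply (k : ℕ) (v : L6) : co k v = v k := rfl

/-- the space -/
def FF : Submodule ℝ L6 where
  carrier := {v | v 3 = v 0 + v 1 + v 2 ∧ v 4 = -3 * v 0 - v 1 + v 2}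
  add_mem' := by
    rintro v w ⟨h1, h2⟩ ⟨h3, h4⟩
    constructor
    · simp only [lp.coeFn_add, Pi.add_apply]
      linarith
    · simp only [lp.coeFn_add, Pi.add_apply]
      linarith
  zero_mem' := by
    constructor <;> simp
  smul_mem' := by
    rintro c v ⟨h1, h2⟩
    constructor
    · simp only [lp.coeFn_smul, Pi.smul_apply, smul_eq_mul, h1]
      ring
    · simp only [lp.coeFn_smul, Pi.smul_apply, smul_eq_mul, h2]
      ring

lemma FF_closed : IsClosed (FF : Set L6) := by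
  have : (FF : Set L6) = {v | co 3 v = co 0 v + co 1 v + co 2 v} ∩
      {v | co 4 v = -3 * co 0 v - co 1 v + co 2 v} := rfl
  rw [this]
  apply IsClosed.inter
  · exact isClosed_eq (by fun_prop) (by fun_prop)
  · exact isClosed_eq (by fun_prop) (by fun_prop)

lemma pow6_sum (v : L6) : HasSum (fun k => (v k) ^ 6) (‖v‖ ^ 6) := by
  have hp : 0 < (6 : ENNReal).toReal := by norm_num
  have h := lp.norm_rpow_eq_tsum hp v
  have hs := (lp.memℓp v).summable hp
  have e6 : (6 : ENNReal).toReal = ((6 : ℕ) : ℝ) := by norm_num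
  rw [e6] at h hs
  simp only [Real.rpow_natCast] at h hs
  have h2 : (fun k => ‖v k‖ ^ 6) = fun k => (v k) ^ 6 := by
    funext k
    rw [Real.norm_eq_abs]
    have : (6 : ℕ) = 2 * 3 := rfl
    rw [this, pow_mul, pow_mul, sq_abs]
  rw [h2] at h hs
  rw [h]
  exact hs.hasSum

lemma mixed_bound (y z : ℝ) : |y ^ 5 * z| ≤ y ^ 6 + z ^ 6 := by
  have ha : 0 ≤ y ^ 2 := sq_nonneg y
  have hb : 0 ≤ z ^ 2 := sq_nonneg z
  have h1 : |y ^ 5 * z| = (y ^ 2) ^ 2 * |y * z| := by
    have : y ^ 5 * z = (y ^ 2) ^ 2 * (y * z) := by ring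
    rw [this, abs_mul, abs_of_nonneg (by positivity : 0 ≤ (y ^ 2) ^ 2)]
  have h2 : |y * z| ≤ (y ^ 2 + z ^ 2) / 2 := by
    rw [abs_le]
    constructor <;> nlinarith [sq_nonneg (y - z), sq_nonneg (y + z)]
  rw [h1]
  have h3 : (y ^ 2) ^ 2 * |y * z| ≤ (y ^ 2) ^ 2 * ((y ^ 2 + z ^ 2) / 2) :=
    mul_le_mul_of_nonneg_left h2 (by positivity)
  refine h3.trans ?_
  have h4 : (y ^ 2) ^ 2 * z ^ 2 ≤ (y ^ 2) ^ 3 + (z ^ 2) ^ 3 := by
    rcases le_total (y ^ 2) (z ^ 2) with h | h
    · have : (y ^ 2) ^ 2 ≤ (z ^ 2) ^ 2 := pow_le_pow_left₀ ha h 2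
      nlinarith [mul_le_mul_of_nonneg_right this hb, pow_nonneg ha 3]
    · nlinarith [mul_le_mul_of_nonneg_left h (pow_nonneg ha 2), pow_nonneg hb 3]
  nlinarith [pow_nonneg ha 3, pow_nonneg hb 3]

/-- the duality map -/
noncomputable def J (y z : L6) : ℝ := ∑' k, (y k) ^ 5 * z k

lemma J_summable (y z : L6) : Summable (fun k => (y k) ^ 5 * z k) := by
  apply Summable.of_norm
  refine Summable.of_nonneg_of_le (fun _ => norm_nonneg _) (fun k => ?_)
    ((pow6_sum y).summable.add (pow6_sum z).summable)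
  rw [Real.norm_eq_abs]
  exact mixed_bound _ _

lemma J_add (y z w : L6) : J y (z + w) = J y z + J y w := by
  unfold J
  rw [← (J_summable y z).tsum_add (J_summable y w)]
  congr 1
  funext k
  simp only [lp.coeFn_add, Pi.add_apply]
  ring

lemma J_self (y : L6) : J y y = ‖y‖ ^ 6 := by
  rw [← (pow6_sum y).tsum_eq]
  unfold J
  congr 1

lemma expand_bound (y z t : ℝ) (ht : |t| ≤ 1) :
    (y + t * z) ^ 6 ≤ y ^ 6 + 6 * t * (y ^ 5 * z) + 57 * t ^ 2 * (y ^ 6 + z ^ 6) := by
  have ha : 0 ≤ y ^ 2 := sq_nonneg y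
  have hb : 0 ≤ z ^ 2 := sq_nonneg z
  have ht2 : t ^ 2 ≤ 1 := by
    rw [← sq_abs]
    nlinarith [abs_nonneg t]
  have h1 : (y ^ 2) ^ 2 * z ^ 2 ≤ (y ^ 2) ^ 3 + (z ^ 2) ^ 3 := by
    rcases le_total (y ^ 2) (z ^ 2) with h | h
    · have : (y ^ 2) ^ 2 ≤ (z ^ 2) ^ 2 := pow_le_pow_left₀ ha h 2
      nlinarith [mul_le_mul_of_nonneg_right this hb, pow_nonneg ha 3]
    · nlinarith [mul_le_mul_of_nonneg_left h (pow_nonneg ha 2), pow_nonneg hb 3]
  have h2 : y ^ 2 * (z ^ 2) ^ 2 ≤ (y ^ 2) ^ 3 + (z ^ 2) ^ 3 := by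
    rcases le_total (z ^ 2) (y ^ 2) with h | h
    · have : (z ^ 2) ^ 2 ≤ (y ^ 2) ^ 2 := pow_le_pow_left₀ hb h 2
      nlinarith [mul_le_mul_of_nonneg_left this ha, pow_nonneg hb 3]
    · nlinarith [mul_le_mul_of_nonneg_right h (pow_nonneg hb 2), pow_nonneg ha 3]
  have hyz : |y * z| ≤ (y ^ 2 + z ^ 2) / 2 := by
    rw [abs_le]
    constructor <;> nlinarith [sq_nonneg (y - z), sq_nonneg (y + z)]
  have hyz1 : |t * (y * z)| ≤ (y ^ 2 + z ^ 2) / 2 := by
    rw [abs_mul]
    have := mul_le_mul ht hyz (abs_nonneg _) zero_le_one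
    linarith
  have hyz2 : |t ^ 3 * (y * z)| ≤ (y ^ 2 + z ^ 2) / 2 := by
    rw [abs_mul, abs_pow]
    have h3 : |t| ^ 3 ≤ 1 := pow_le_one₀ (abs_nonneg t) ht
    have := mul_le_mul h3 hyz (abs_nonneg _) zero_le_one
    linarith
  have k1 : t * (y * z) * (y ^ 2 * z ^ 2) ≤ (y ^ 2 + z ^ 2) / 2 * (y ^ 2 * z ^ 2) :=
    mul_le_mul_of_nonneg_right ((le_abs_self _).trans hyz1) (by positivity)
  have k2 : t ^ 3 * (y * z) * (z ^ 2) ^ 2 ≤ (y ^ 2 + z ^ 2) / 2 * (z ^ 2) ^ 2 :=
    mul_le_mul_of_nonneg_right ((le_abs_self _).trans hyz2) (by positivity)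
  have k3 : t ^ 2 * (y ^ 2 * (z ^ 2) ^ 2) ≤ y ^ 2 * (z ^ 2) ^ 2 :=
    mul_le_of_le_one_left (by positivity) ht2
  have k4 : t ^ 4 * (z ^ 2) ^ 3 ≤ (z ^ 2) ^ 3 := by
    apply mul_le_of_le_one_left (by positivity)
    have : t ^ 4 = (t ^ 2) ^ 2 := by ring
    rw [this]
    exact pow_le_one₀ (sq_nonneg t) ht2
  have key : 15 * ((y ^ 2) ^ 2 * z ^ 2) + 20 * (t * (y * z) * (y ^ 2 * z ^ 2)) +
      15 * (t ^ 2 * (y ^ 2 * (z ^ 2) ^ 2)) + 6 * (t ^ 3 * (y * z) * (z ^ 2) ^ 2) +
      t ^ 4 * (z ^ 2) ^ 3 ≤ 57 * ((y ^ 2) ^ 3 + (z ^ 2) ^ 3) := by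
    have e1 : (y ^ 2 + z ^ 2) / 2 * (y ^ 2 * z ^ 2) =
        ((y ^ 2) ^ 2 * z ^ 2 + y ^ 2 * (z ^ 2) ^ 2) / 2 := by ring
    have e2 : (y ^ 2 + z ^ 2) / 2 * (z ^ 2) ^ 2 = (y ^ 2 * (z ^ 2) ^ 2 + (z ^ 2) ^ 3) / 2 := by ring
    rw [e1] at k1
    rw [e2] at k2
    have p1 : 0 ≤ (y ^ 2) ^ 3 := by positivity
    have p2 : 0 ≤ (z ^ 2) ^ 3 := by positivity
    linarith
  have e : (y + t * z) ^ 6 = y ^ 6 + 6 * t * (y ^ 5 * z) + t ^ 2 * (15 * ((y ^ 2) ^ 2 * z ^ 2) +
      20 * (t * (y * z) * (y ^ 2 * z ^ 2)) + 15 * (t ^ 2 * (y ^ 2 * (z ^ 2) ^ 2)) +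
      6 * (t ^ 3 * (y * z) * (z ^ 2) ^ 2) + t ^ 4 * (z ^ 2) ^ 3) := by ring
  rw [e]
  have := mul_le_mul_of_nonneg_left key (sq_nonneg t)
  have e3 : 57 * t ^ 2 * (y ^ 6 + z ^ 6) = t ^ 2 * (57 * ((y ^ 2) ^ 3 + (z ^ 2) ^ 3)) := by ring
  rw [e3]
  linarith

lemma J_zero_of_birkhoff (y z : L6) (h : ∀ t : ℝ, ‖y‖ ≤ ‖y + t • z‖) : J y z = 0 := by
  set K : ℝ := ‖y‖ ^ 6 + ‖z‖ ^ 6 with hK
  have hK0 : 0 ≤ K := by positivity
  have main : ∀ t : ℝ, |t| ≤ 1 → 0 ≤ 6 * t * J y z + 57 * t ^ 2 * K := by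
    intro t ht
    have h1 : ‖y‖ ^ 6 ≤ ‖y + t • z‖ ^ 6 := pow_le_pow_left₀ (norm_nonneg _) (h t) 6
    have hs : HasSum (fun k => (y k) ^ 6 + 6 * t * ((y k) ^ 5 * z k) +
        57 * t ^ 2 * ((y k) ^ 6 + (z k) ^ 6)) (‖y‖ ^ 6 + 6 * t * J y z + 57 * t ^ 2 * K) := by
      apply HasSum.add
      · exact (pow6_sum y).add ((J_summable y z).hasSum.mul_left _)
      · exact ((pow6_sum y).add (pow6_sum z)).mul_left _
    have h2 := hasSum_le (fun k => ?_) (pow6_sum (y + t • z)) hs
    · linarith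
    · simp only [lp.coeFn_add, Pi.add_apply, lp.coeFn_smul, Pi.smul_apply, smul_eq_mul]
      exact expand_bound _ _ _ ht
  by_contra hJ
  set j := J y z with hj
  have hjp : 0 < |j| := abs_pos.2 hJ
  set c : ℝ := 57 * K + 6 * |j| + 1 with hc
  have hc0 : 0 < c := by positivity
  have ht : |-j / c| ≤ 1 := by
    rw [abs_div, abs_neg, abs_of_pos hc0, div_le_one hc0]
    linarith
  have h3 := main (-j / c) ht
  have h4 : 6 * (-j / c) * j + 57 * (-j / c) ^ 2 * K = j ^ 2 / c ^ 2 * (57 * K - 6 * c) := by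
    field_simp
    ring
  rw [h4] at h3
  have h5 : 0 < j ^ 2 / c ^ 2 := by positivity
  have h6 : 57 * K - 6 * c < 0 := by
    rw [hc]
    linarith
  have := mul_neg_of_pos_of_neg h5 h6
  linarith

/-- basis vectors -/
noncomputable def e0 : L6 := lp.single 6 0 1 + lp.single 6 3 1 + lp.single 6 4 (-3)
noncomputable def e1 : L6 := lp.single 6 1 1 + lp.single 6 3 1 + lp.single 6 4 (-1)
noncomputable def e2 : L6 := lp.single 6 2 1 + lp.single 6 3 1 + lp.single 6 4 1

/-- general element of the three-dimensional part -/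
noncomputable def lift0 (a b c : ℝ) : L6 := a • e0 + b • e1 + c • e2

lemma single_val (i k : ℕ) (a : ℝ) : (lp.single (E := fun _ : ℕ => ℝ) 6 i a) k =
    if k = i then a else 0 := by
  rw [lp.single_apply]
  by_cases h : k = i
  · subst h
    simp
  · simp [h]

lemma lift0_val (a b c : ℝ) (k : ℕ) : (lift0 a b c) k =
    if k = 0 then a else if k = 1 then b else if k = 2 then c else if k = 3 then a + b + c else
      if k = 4 then -3 * a - b + c else 0 := by
  unfold lift0 e0 e1 e2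
  simp only [lp.coeFn_add, Pi.add_apply, lp.coeFn_smul, Pi.smul_apply, smul_eq_mul, single_val]
  rcases k with _ | _ | _ | _ | _ | k
  · simp
  · simp
  · simp
  · simp
  · simp
    ring
  · simp

lemma J_lift (y : L6) (hy : y ∈ FF) (a b c : ℝ) : J y (lift0 a b c) = G (y 0) (y 1) (y 2) a b c := by
  unfold J
  rw [tsum_eq_sum (s := Finset.range 5)]
  · simp only [Finset.sum_range_succ, Finset.sum_range_zero, lift0_val]
    simp only [if_true, OfNat.ofNat_ne_zero, if_false, one_ne_zero]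
    rw [hy.1, hy.2]
    unfold G
    norm_num
  · intro k hk
    simp only [Finset.mem_range, not_lt] at hk
    rw [lift0_val]
    have h0 : k ≠ 0 := by omega
    have h1 : k ≠ 1 := by omega
    have h2 : k ≠ 2 := by omega
    have h3 : k ≠ 3 := by omega
    have h4 : k ≠ 4 := by omega
    simp [h0, h1, h2, h3, h4]

lemma lift0_mem (a b c : ℝ) : lift0 a b c ∈ FF := by
  constructor
  · simp [lift0_val]
  · simp [lift0_val]

/-- the lift as a linear map -/
noncomputable def lf : (Fin 3 → ℝ) →ₗ[ℝ] FF where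
  toFun u := ⟨lift0 (u 0) (u 1) (u 2), lift0_mem _ _ _⟩
  map_add' u v := by
    apply Subtype.ext
    change lift0 _ _ _ = lift0 _ _ _ + lift0 _ _ _
    unfold lift0
    simp only [Pi.add_apply, add_smul]
    abel
  map_smul' r u := by
    apply Subtype.ext
    change lift0 _ _ _ = r • lift0 _ _ _
    unfold lift0
    simp only [Pi.smul_apply, smul_add, smul_smul, smul_eq_mul]

/-- the projection as a linear map -/
noncomputable def pr : FF →ₗ[ℝ] (Fin 3 → ℝ) where
  toFun v := ![(v : L6) 0, (v : L6) 1, (v : L6) 2]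
  map_add' u v := by
    ext i
    fin_cases i <;> rfl
  map_smul' r u := by
    ext i
    fin_cases i <;> rfl

lemma pr_cont : Continuous pr := by
  apply continuous_pi
  intro i
  fin_cases i
  · exact (co 0).continuous.comp continuous_subtype_val
  · exact (co 1).continuous.comp continuous_subtype_val
  · exact (co 2).continuous.comp continuous_subtype_val

lemma pr_lf (u : Fin 3 → ℝ) : pr (lf u) = u := by
  ext i
  fin_cases i
  · change (lift0 (u 0) (u 1) (u 2)) 0 = u 0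
    simp [lift0_val]
  · change (lift0 (u 0) (u 1) (u 2)) 1 = u 1
    simp [lift0_val]
  · change (lift0 (u 0) (u 1) (u 2)) 2 = u 2
    simp [lift0_val]

theorem no_basis : ¬ ∃ g : ℕ → FF, (∀ x : FF, ∃! a : ℕ → ℝ,
        Tendsto (fun n : ℕ => ∑ i ∈ Finset.range n, a i • g i) atTop (𝓝 x)) ∧
      (∀ (a : ℕ → ℝ) (n m : ℕ), n ≤ m →
        ‖∑ i ∈ Finset.range n, a i • g i‖ ≤ ‖∑ i ∈ Finset.range m, a i • g i‖) := by
  rintro ⟨g, hg, hmono⟩
  choose A hA hAu using hg
  have hAu' : ∀ x a, Tendsto (fun n : ℕ => ∑ i ∈ Finset.range n, a i • g i) atTop (𝓝 x) →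
      a = A x := fun x a h => hAu x a h
  have hAadd : ∀ x y, A (x + y) = A x + A y := by
    intro x y
    symm
    apply hAu'
    have := (hA x).add (hA y)
    simpa only [Pi.add_apply, add_smul, Finset.sum_add_distrib] using this
  have hAsmul : ∀ (c : ℝ) x, A (c • x) = c • A x := by
    intro c x
    symm
    apply hAu'
    have := (hA x).const_smul c
    simpa only [Pi.smul_apply, smul_eq_mul, mul_smul, Finset.smul_sum] using this
  -- partial sums
  let s : ℕ → FF →ₗ[ℝ] FF := fun n =>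
    { toFun := fun x => ∑ i ∈ Finset.range n, A x i • g i
      map_add' := fun x y => by
        simp only [hAadd, Pi.add_apply, add_smul, Finset.sum_add_distrib]
      map_smul' := fun c x => by
        simp only [hAsmul, Pi.smul_apply, smul_eq_mul, mul_smul, Finset.smul_sum,
          RingHom.id_apply] }
  have hs : ∀ n x, s n x = ∑ i ∈ Finset.range n, A x i • g i := fun n x => rfl
  -- spans
  let L : ℕ → (ℕ → ℝ) →ₗ[ℝ] FF := fun n =>
    { toFun := fun c => ∑ i ∈ Finset.range n, c i • g i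
      map_add' := fun x y => by
        simp only [Pi.add_apply, add_smul, Finset.sum_add_distrib]
      map_smul' := fun c x => by
        simp only [Pi.smul_apply, smul_eq_mul, mul_smul, Finset.smul_sum, RingHom.id_apply] }
  have hL : ∀ n c, L n c = ∑ i ∈ Finset.range n, c i • g i := fun n c => rfl
  -- orthogonality
  have orth : ∀ (n : ℕ) (c : ℕ → ℝ) (x : FF), J (L n c : L6) (x : L6) = J (L n c : L6) (s n x : L6) := by
    intro n c x
    have h0 : J (L n c : L6) ((x - s n x : FF) : L6) = 0 := by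
      apply J_zero_of_birkhoff
      intro t
      have h1 : Tendsto (fun m : ℕ => ∑ i ∈ Finset.range m,
          (if i < n then c i else t * A x i) • g i) atTop (𝓝 (L n c + t • (x - s n x))) := by
        have h2 : Tendsto (fun m : ℕ => L n c + t • (∑ i ∈ Finset.range m, A x i • g i - s n x)) atTop
            (𝓝 (L n c + t • (x - s n x))) :=
          tendsto_const_nhds.add (((hA x).sub_const _).const_smul t)
        apply h2.congr'
        filter_upwards [eventually_ge_atTop n] with m hm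
        obtain ⟨d, rfl⟩ := Nat.exists_eq_add_of_le hm
        rw [hL, hs, Finset.sum_range_add, Finset.sum_range_add, add_sub_cancel_left]
        congr 1
        · apply Finset.sum_congr rfl
          intro i hi
          rw [if_pos (Finset.mem_range.1 hi)]
        · rw [Finset.smul_sum]
          apply Finset.sum_congr rfl
          intro i _
          rw [if_neg (by omega), smul_smul]
      have h3 : ∀ m, n ≤ m → ‖L n c‖ ≤ ‖∑ i ∈ Finset.range m,
          (if i < n then c i else t * A x i) • g i‖ := by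
        intro m hm
        have := hmono (fun i => if i < n then c i else t * A x i) n m hm
        refine le_trans (le_of_eq ?_) this
        rw [hL]
        congr 1
        apply Finset.sum_congr rfl
        intro i hi
        rw [if_pos (Finset.mem_range.1 hi)]
      have h4 : ‖L n c‖ ≤ ‖L n c + t • (x - s n x)‖ := by
        apply ge_of_tendsto h1.norm
        filter_upwards [eventually_ge_atTop n] with m hm
        exact h3 m hm
      exact h4
    have h5 : (x : L6) = ((x - s n x : FF) : L6) + (s n x : L6) := by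
      push_cast
      abel
    conv_lhs => rw [h5]
    rw [J_add, h0, zero_add]
  -- the chain of projections
  let W : ℕ → Submodule ℝ (Fin 3 → ℝ) := fun n => LinearMap.range (pr ∘ₗ L n)
  have hWmono : Monotone W := by
    apply monotone_nat_of_le_succ
    rintro n _ ⟨c, rfl⟩
    refine ⟨fun i => if i < n then c i else 0, ?_⟩
    simp only [LinearMap.comp_apply]
    congr 1
    rw [hL, hL, Finset.sum_range_succ, if_neg (lt_irrefl n), zero_smul, add_zero]
    apply Finset.sum_congr rfl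
    intro i hi
    rw [if_pos (Finset.mem_range.1 hi)]
  have htop : ∃ n, W n = ⊤ := by
    obtain ⟨n, hn⟩ := WellFoundedGT.monotone_chain_condition ⟨W, hWmono⟩
    refine ⟨n, ?_⟩
    rw [eq_top_iff]
    rintro u -
    have hc : IsClosed (W n : Set (Fin 3 → ℝ)) := Submodule.closed_of_finiteDimensional _
    have h1 : Tendsto (fun m => pr (s m (lf u))) atTop (𝓝 u) := by
      have := (pr_cont.tendsto (lf u)).comp (hA (lf u))
      rw [pr_lf] at this
      exact this
    apply hc.mem_of_tendsto h1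
    filter_upwards with m
    have h2 : pr (s m (lf u)) ∈ W m := ⟨A (lf u), rfl⟩
    rcases le_total n m with h | h
    · have := hn m h
      change W n = W m at this
      rw [this]
      exact h2
    · exact hWmono h h2
  classical
  have hmin := Nat.find_spec htop
  set n0 := Nat.find htop with hn0
  have hn0pos : n0 ≠ 0 := by
    intro h
    rw [h] at hmin
    have h1 : (fun _ => 1 : Fin 3 → ℝ) ∈ W 0 := by rw [hmin]; trivial
    obtain ⟨c, hc⟩ := h1
    simp only [LinearMap.comp_apply] at hc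
    rw [hL] at hc
    simp only [Finset.range_zero, Finset.sum_empty, map_zero] at hc
    have := congrFun hc 0
    simp at this
  obtain ⟨m, hm⟩ := Nat.exists_eq_succ_of_ne_zero hn0pos
  have hWm : W m ≠ ⊤ := fun h => by
    have := Nat.find_min' htop h
    omega
  have hWm1 : W (m + 1) = ⊤ := by
    rw [← Nat.succ_eq_add_one, ← hm]
    exact hmin
  -- kernel vector
  obtain ⟨u, hu0, hu⟩ : ∃ u : Fin 3 → ℝ, u ≠ 0 ∧ pr (s m (lf u)) = 0 := by
    let Ψ : (Fin 3 → ℝ) →ₗ[ℝ] (Fin 3 → ℝ) := pr ∘ₗ (s m) ∘ₗ lf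
    have h1 : ¬ Function.Surjective Ψ := by
      intro h
      apply hWm
      rw [eq_top_iff]
      rintro v -
      obtain ⟨u, hu⟩ := h v
      rw [← hu]
      exact ⟨A (lf u), rfl⟩
    have h2 : ¬ Function.Injective Ψ := fun h => h1 (LinearMap.injective_iff_surjective.1 h)
    rw [← LinearMap.ker_eq_bot, Submodule.eq_bot_iff] at h2
    push Not at h2
    obtain ⟨u, hu, hne⟩ := h2
    exact ⟨u, hne, hu⟩
  have hcoord : ∀ v : FF, pr v = 0 → (v : L6) 0 = 0 ∧ (v : L6) 1 = 0 ∧ (v : L6) 2 = 0 := by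
    intro v hv
    exact ⟨congrFun hv 0, congrFun hv 1, congrFun hv 2⟩
  have hJl : ∀ (y : FF) (u : Fin 3 → ℝ), J (y : L6) (lf u : L6) =
      G ((y : L6) 0) ((y : L6) 1) ((y : L6) 2) (u 0) (u 1) (u 2) := fun y u =>
    J_lift _ y.2 _ _ _
  have hw : s m (lf u) = 0 := by
    have h1 := orth m (A (lf u)) (lf u)
    change J (s m (lf u) : L6) (lf u : L6) = J (s m (lf u) : L6) (s m (lf u) : L6) at h1
    obtain ⟨a1, a2, a3⟩ := hcoord _ hu
    rw [J_self, hJl, a1, a2, a3] at h1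
    have h2 : G 0 0 0 (u 0) (u 1) (u 2) = 0 := by
      unfold G
      ring
    rw [h2] at h1
    have h3 : ‖(s m (lf u) : L6)‖ = 0 := by
      have := h1.symm
      exact pow_eq_zero_iff (by norm_num) |>.1 this
    exact norm_eq_zero.1 h3
  have hvan : ∀ c : ℕ → ℝ, G ((L m c : L6) 0) ((L m c : L6) 1) ((L m c : L6) 2)
      (u 0) (u 1) (u 2) = 0 := by
    intro c
    rw [← hJl, orth m c (lf u), hw]
    unfold J
    simp
  -- two independent vectors
  have hrank : 1 < Module.finrank ℝ (W m) := by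
    have h1 : W (m + 1) ≤ W m ⊔ Submodule.span ℝ {pr (g m)} := by
      rintro _ ⟨c, rfl⟩
      simp only [LinearMap.comp_apply]
      rw [hL, Finset.sum_range_succ, map_add, map_smul]
      apply Submodule.add_mem_sup
      · exact ⟨c, rfl⟩
      · exact Submodule.smul_mem _ _ (Submodule.mem_span_singleton_self _)
    rw [hWm1] at h1
    have h2 := Submodule.finrank_mono h1
    rw [finrank_top, Module.finrank_fin_fun] at h2
    have h3 := Submodule.finrank_add_le_finrank_add_finrank (W m) (Submodule.span ℝ {pr (g m)})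
    have h4 := finrank_span_le_card (R := ℝ) ({pr (g m)} : Set (Fin 3 → ℝ))
    simp only [Set.toFinset_singleton, Finset.card_singleton] at h4
    omega
  have : Nontrivial (W m) := Module.nontrivial_of_finrank_pos (R := ℝ) (by omega)
  obtain ⟨p, hp⟩ := exists_ne (0 : W m)
  obtain ⟨q, hq⟩ := exists_linearIndependent_pair_of_one_lt_finrank hrank hp
  have hq' : LinearIndependent ℝ ![(p : Fin 3 → ℝ), (q : Fin 3 → ℝ)] := by
    have := hq.map' (W m).subtype (Submodule.ker_subtype _)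
    have e : (⇑(W m).subtype ∘ ![p, q]) = ![(p : Fin 3 → ℝ), (q : Fin 3 → ℝ)] := by
      ext i
      fin_cases i <;> rfl
    rwa [e] at this
  have hcross := crossProduct_ne_zero_iff_linearIndependent.2 hq'
  obtain ⟨cp, hcp⟩ := p.2
  obtain ⟨cq, hcq⟩ := q.2
  have hfin := ep ((p : Fin 3 → ℝ) 0) ((p : Fin 3 → ℝ) 1) ((p : Fin 3 → ℝ) 2)
    ((q : Fin 3 → ℝ) 0) ((q : Fin 3 → ℝ) 1) ((q : Fin 3 → ℝ) 2) (u 0) (u 1) (u 2) ?_ ?_
  · apply hu0
    ext i
    fin_cases i
    · exact hfin.1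
    · exact hfin.2.1
    · exact hfin.2.2
  · rintro ⟨z1, z2, z3⟩
    apply hcross
    rw [cross_apply]
    ext i
    fin_cases i
    · exact z1
    · exact z2
    · exact z3
  · intro a b
    have h1 := hvan (a • cp + b • cq)
    have hval : ∀ (c : ℕ → ℝ), pr (L m c) = ![(L m c : L6) 0, (L m c : L6) 1, (L m c : L6) 2] :=
      fun c => rfl
    have hcp' : pr (L m cp) = p := hcp
    have hcq' : pr (L m cq) = q := hcq
    have hlin : pr (L m (a • cp + b • cq)) = a • (p : Fin 3 → ℝ) + b • (q : Fin 3 → ℝ) := by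
      rw [map_add, map_smul, map_smul, map_add, map_smul, map_smul, hcp', hcq']
    have c0 : (L m (a • cp + b • cq) : L6) 0 = a * (p : Fin 3 → ℝ) 0 + b * (q : Fin 3 → ℝ) 0 :=
      congrFun hlin 0
    have c1 : (L m (a • cp + b • cq) : L6) 1 = a * (p : Fin 3 → ℝ) 1 + b * (q : Fin 3 → ℝ) 1 :=
      congrFun hlin 1
    have c2 : (L m (a • cp + b • cq) : L6) 2 = a * (p : Fin 3 → ℝ) 2 + b * (q : Fin 3 → ℝ) 2 :=
      congrFun hlin 2
    rw [c0, c1, c2] at h1
    exact h1

end Pool.Agent.Helpers29.MB
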