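import Mathlib

set_option autoImplicit false

namespace Pool.Agent.Helpers29.MB

open Filter Topology

variable {F : Type} [NormedAddCommGroup F] [NormedSpace ℝ F]

/-- sequences with increments along `b`, convergent -/
def BB (b : ℕ → F) : Submodule ℝ C(OnePoint ℕ, F) where
  carrier := {S | S ((0 : ℕ) : OnePoint ℕ) = 0 ∧
    ∀ n : ℕ, S ((n + 1 : ℕ) : OnePoint ℕ) - S ((n : ℕ) : OnePoint ℕ) ∈ Submodule.span ℝ {b n}}
  add_mem' := by
    rintro S T ⟨h1, h2⟩ ⟨h3, h4⟩
    refine ⟨by simp [h1, h3], fun n => ?_⟩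
    have := Submodule.add_mem _ (h2 n) (h4 n)
    convert this using 1
    simp only [ContinuousMap.add_apply]
    abel
  zero_mem' := ⟨by simp, fun n => by simp⟩
  smul_mem' := by
    rintro c S ⟨h1, h2⟩
    refine ⟨by simp [h1], fun n => ?_⟩
    have := Submodule.smul_mem _ c (h2 n)
    convert this using 1
    simp only [ContinuousMap.smul_apply, smul_sub]

lemma BB_closed (b : ℕ → F) : IsClosed (BB b : Set C(OnePoint ℕ, F)) := by
  have : (BB b : Set C(OnePoint ℕ, F)) = {S | S ((0 : ℕ) : OnePoint ℕ) = 0} ∩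
      ⋂ n : ℕ, {S | S ((n + 1 : ℕ) : OnePoint ℕ) - S ((n : ℕ) : OnePoint ℕ) ∈
        (Submodule.span ℝ {b n} : Set F)} := by
    ext S
    simp only [Set.mem_inter_iff, Set.mem_iInter]
    rfl
  rw [this]
  apply IsClosed.inter
  · exact isClosed_eq (continuous_eval_const _) continuous_const
  · refine isClosed_iInter fun n => ?_
    have hc : IsClosed (Submodule.span ℝ {b n} : Set F) := Submodule.closed_of_finiteDimensional _
    exact hc.preimage ((continuous_eval_const _).sub (continuous_eval_const _))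

/-- the sequence of partial sums -/
noncomputable def mkS (s : ℕ → F) (l : F) (h : Tendsto s atTop (𝓝 l)) : C(OnePoint ℕ, F) :=
  OnePoint.continuousMapMkNat s l h

lemma mkS_coe (s : ℕ → F) (l : F) (h : Tendsto s atTop (𝓝 l)) (n : ℕ) :
    mkS s l h (n : OnePoint ℕ) = s n := rfl

lemma mkS_infty (s : ℕ → F) (l : F) (h : Tendsto s atTop (𝓝 l)) :
    mkS s l h OnePoint.infty = l := rfl

/-- A continuous map on the compactification is the limit of its values. -/
lemma tendsto_S (S : C(OnePoint ℕ, F)) :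
    Tendsto (fun n : ℕ => S (n : OnePoint ℕ)) atTop (𝓝 (S OnePoint.infty)) :=
  (OnePoint.continuous_iff_from_nat _).1 S.continuous

lemma norm_le_of_nat {S : C(OnePoint ℕ, F)} {C : ℝ} (hC : 0 ≤ C)
    (h : ∀ n : ℕ, ‖S (n : OnePoint ℕ)‖ ≤ C) : ‖S‖ ≤ C := by
  rw [ContinuousMap.norm_le _ hC]
  intro x
  induction x using OnePoint.rec with
  | infty => exact le_of_tendsto (tendsto_S S).norm (Eventually.of_forall h)
  | coe n => exact h n

/-- unit jumps -/
noncomputable def jump (b : ℕ → F) (i : ℕ) : C(OnePoint ℕ, F) :=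
  mkS (fun m => if i < m then b i else 0) (b i) (by
    apply tendsto_const_nhds.congr'
    filter_upwards [eventually_gt_atTop i] with m hm
    rw [if_pos hm])

lemma jump_mem (b : ℕ → F) (i : ℕ) : jump b i ∈ BB b := by
  refine ⟨by simp [jump, mkS_coe], fun n => ?_⟩
  unfold jump
  rw [mkS_coe, mkS_coe]
  by_cases h : n = i
  · subst h
    simp only [Nat.lt_succ_self, if_true, lt_irrefl, if_false, sub_zero]
    exact Submodule.mem_span_singleton_self _
  · have : (i < n + 1) ↔ (i < n) := by omega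
    simp only [this, sub_self]
    exact Submodule.zero_mem _

/-- the jump as an element of the space -/
noncomputable def ej (b : ℕ → F) (i : ℕ) : BB b := ⟨jump b i, jump_mem b i⟩

lemma sum_coe (b : ℕ → F) (a : ℕ → ℝ) (n m : ℕ) :
    ((∑ i ∈ Finset.range n, a i • ej b i : BB b) : C(OnePoint ℕ, F)) (m : OnePoint ℕ) =
      ∑ i ∈ Finset.range (min n m), a i • b i := by
  rw [Submodule.coe_sum, ContinuousMap.sum_apply]
  have h1 : ∀ i ∈ Finset.range n, ((a i • ej b i : BB b) : C(OnePoint ℕ, F)) (m : OnePoint ℕ) =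
      if i < m then a i • b i else 0 := by
    intro i _
    change (a i • jump b i) (m : OnePoint ℕ) = _
    rw [ContinuousMap.smul_apply]
    unfold jump
    rw [mkS_coe]
    split_ifs <;> simp
  rw [Finset.sum_congr rfl h1, ← Finset.sum_filter]
  congr 1
  ext i
  simp only [Finset.mem_filter, Finset.mem_range]
  omega

/-- existence of coefficients -/
lemma coeffs (b : ℕ → F) (S : BB b) : ∃ a : ℕ → ℝ, ∀ m : ℕ,
    (S : C(OnePoint ℕ, F)) (m : OnePoint ℕ) = ∑ i ∈ Finset.range m, a i • b i := by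
  have h : ∀ n : ℕ, ∃ a : ℝ, a • b n = (S : C(OnePoint ℕ, F)) ((n + 1 : ℕ) : OnePoint ℕ) -
      (S : C(OnePoint ℕ, F)) ((n : ℕ) : OnePoint ℕ) := fun n =>
    Submodule.mem_span_singleton.1 (S.2.2 n)
  choose a ha using h
  refine ⟨a, fun m => ?_⟩
  induction m with
  | zero => simpa using S.2.1
  | succ m ih =>
    rw [Finset.sum_range_succ, ← ih, ha m]
    abel

lemma basis_tendsto (b : ℕ → F) (S : BB b) (a : ℕ → ℝ)
    (ha : ∀ m : ℕ, (S : C(OnePoint ℕ, F)) (m : OnePoint ℕ) = ∑ i ∈ Finset.range m, a i • b i) :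
    Tendsto (fun n : ℕ => ∑ i ∈ Finset.range n, a i • ej b i) atTop (𝓝 S) := by
  rw [Metric.tendsto_atTop]
  intro ε hε
  have h := Metric.tendsto_atTop.1 (tendsto_S (S : C(OnePoint ℕ, F))) (ε / 4) (by positivity)
  obtain ⟨N, hN⟩ := h
  refine ⟨N, fun n hn => ?_⟩
  rw [dist_eq_norm]
  refine lt_of_le_of_lt ?_ (half_lt_self hε)
  change ‖((∑ i ∈ Finset.range n, a i • ej b i : BB b) : C(OnePoint ℕ, F)) - S‖ ≤ ε / 2
  apply norm_le_of_nat (by positivity)
  intro m
  rw [ContinuousMap.sub_apply, sum_coe, ← ha]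
  rcases le_total n m with h | h
  · rw [min_eq_left h]
    have h1 := hN n hn
    have h2 := hN m (hn.le.trans h)
    rw [← dist_eq_norm]
    have := dist_triangle_right ((S : C(OnePoint ℕ, F)) (n : OnePoint ℕ))
      ((S : C(OnePoint ℕ, F)) (m : OnePoint ℕ)) ((S : C(OnePoint ℕ, F)) OnePoint.infty)
    linarith
  · rw [min_eq_right h, sub_self, norm_zero]
    positivity

lemma basis_unique (b : ℕ → F) (hb : ∀ n, b n ≠ 0) (S : BB b) (a a' : ℕ → ℝ)
    (h : Tendsto (fun n : ℕ => ∑ i ∈ Finset.range n, a i • ej b i) atTop (𝓝 S))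
    (h' : Tendsto (fun n : ℕ => ∑ i ∈ Finset.range n, a' i • ej b i) atTop (𝓝 S)) : a = a' := by
  have key : ∀ a : ℕ → ℝ, Tendsto (fun n : ℕ => ∑ i ∈ Finset.range n, a i • ej b i) atTop (𝓝 S) →
      ∀ m : ℕ, (S : C(OnePoint ℕ, F)) (m : OnePoint ℕ) = ∑ i ∈ Finset.range m, a i • b i := by
    intro a h m
    have hc : Continuous (fun T : BB b => (T : C(OnePoint ℕ, F)) (m : OnePoint ℕ)) :=
      (continuous_eval_const _).comp continuous_subtype_val
    have h1 := (hc.tendsto S).comp h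
    refine tendsto_nhds_unique h1 ?_
    apply tendsto_const_nhds.congr'
    filter_upwards [eventually_ge_atTop m] with n hn
    simp only [Function.comp_apply]
    rw [sum_coe, min_eq_right hn]
  have k1 := key a h
  have k2 := key a' h'
  funext m
  have e1 := (k1 (m + 1)).symm.trans (k2 (m + 1))
  rw [Finset.sum_range_succ, Finset.sum_range_succ, ← k1 m, ← k2 m] at e1
  have e2 := add_left_cancel e1
  exact smul_left_injective ℝ (hb m) e2

lemma basis_mono (b : ℕ → F) (a : ℕ → ℝ) (n m : ℕ) (hnm : n ≤ m) :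
    ‖∑ i ∈ Finset.range n, a i • ej b i‖ ≤ ‖∑ i ∈ Finset.range m, a i • ej b i‖ := by
  change ‖((∑ i ∈ Finset.range n, a i • ej b i : BB b) : C(OnePoint ℕ, F))‖ ≤
    ‖((∑ i ∈ Finset.range m, a i • ej b i : BB b) : C(OnePoint ℕ, F))‖
  apply norm_le_of_nat (norm_nonneg _)
  intro x
  have h1 := ContinuousMap.norm_coe_le_norm
    ((∑ i ∈ Finset.range m, a i • ej b i : BB b) : C(OnePoint ℕ, F)) ((min n x : ℕ) : OnePoint ℕ)
  rw [sum_coe] at h1
  rw [sum_coe]
  have : min m (min n x) = min n x := by omega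
  rw [this] at h1
  exact h1

/-- the embedding -/
noncomputable def iot (b : ℕ → F) (φ : ℕ → F →ₗ[ℝ] ℝ)
    (hlim : ∀ x, Tendsto (fun n : ℕ => ∑ i ∈ Finset.range n, φ i x • b i) atTop (𝓝 x))
    (hcon : ∀ x (n : ℕ), ‖∑ i ∈ Finset.range n, φ i x • b i‖ ≤ ‖x‖) : F →ₗᵢ[ℝ] BB b where
  toFun x := ⟨mkS (fun n : ℕ => ∑ i ∈ Finset.range n, φ i x • b i) x (hlim x), by
    refine ⟨by rw [mkS_coe]; simp, fun n => ?_⟩
    rw [mkS_coe, mkS_coe, Finset.sum_range_succ, add_sub_cancel_left]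
    exact Submodule.smul_mem _ _ (Submodule.mem_span_singleton_self _)⟩
  map_add' x y := by
    apply Subtype.ext
    apply ContinuousMap.ext
    intro z
    induction z using OnePoint.rec with
    | infty => rfl
    | coe n =>
      change ∑ i ∈ Finset.range n, φ i (x + y) • b i =
        ∑ i ∈ Finset.range n, φ i x • b i + ∑ i ∈ Finset.range n, φ i y • b i
      simp only [map_add, add_smul, Finset.sum_add_distrib]
  map_smul' c x := by
    apply Subtype.ext
    apply ContinuousMap.ext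
    intro z
    induction z using OnePoint.rec with
    | infty => rfl
    | coe n =>
      change ∑ i ∈ Finset.range n, φ i (c • x) • b i = c • ∑ i ∈ Finset.range n, φ i x • b i
      simp only [map_smul, smul_assoc, Finset.smul_sum]
  norm_map' x := by
    apply le_antisymm
    · change ‖mkS (fun n : ℕ => ∑ i ∈ Finset.range n, φ i x • b i) x (hlim x)‖ ≤ ‖x‖
      apply norm_le_of_nat (norm_nonneg _)
      intro n
      rw [mkS_coe]
      exact hcon x n
    · change ‖x‖ ≤ ‖mkS (fun n : ℕ => ∑ i ∈ Finset.range n, φ i x • b i) x (hlim x)‖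
      exact ContinuousMap.norm_coe_le_norm
        (mkS (fun n : ℕ => ∑ i ∈ Finset.range n, φ i x • b i) x (hlim x)) OnePoint.infty

/-- evaluation at infinity -/
noncomputable def evi (b : ℕ → F) : BB b →L[ℝ] F :=
  LinearMap.mkContinuous
    { toFun := fun S => (S : C(OnePoint ℕ, F)) OnePoint.infty
      map_add' := fun _ _ => rfl
      map_smul' := fun _ _ => rfl } 1 (fun S => by
        rw [one_mul]
        exact ContinuousMap.norm_coe_le_norm (S : C(OnePoint ℕ, F)) OnePoint.infty)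

/-- The embedding theorem, in the form of the frozen statement. -/
theorem embed [CompleteSpace F] (hF : ¬ FiniteDimensional ℝ F)
    (H : ∀ (B : Type) [NormedAddCommGroup B] [NormedSpace ℝ B] [CompleteSpace B],
    ¬ FiniteDimensional ℝ B →
    (∃ e : ℕ → B,
      (∀ x : B, ∃! a : ℕ → ℝ,
        Tendsto (fun n : ℕ => ∑ i ∈ Finset.range n, a i • e i) atTop (𝓝 x)) ∧
      (∀ (a : ℕ → ℝ) (n m : ℕ), n ≤ m →
        ‖∑ i ∈ Finset.range n, a i • e i‖ ≤ ‖∑ i ∈ Finset.range m, a i • e i‖)) →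
    ∀ F : Submodule ℝ B, IsClosed (F : Set B) → ¬ FiniteDimensional ℝ F →
      (∃ P : B →L[ℝ] B, (∀ x : B, P x ∈ F) ∧ (∀ x ∈ F, P x = x) ∧ ‖P‖ ≤ 1) →
      ∃ f : ℕ → B, (∀ i : ℕ, f i ∈ F) ∧
        (∀ x ∈ F, ∃! a : ℕ → ℝ,
          Tendsto (fun n : ℕ => ∑ i ∈ Finset.range n, a i • f i) atTop (𝓝 x)) ∧
        (∀ (a : ℕ → ℝ) (n m : ℕ), n ≤ m →
          ‖∑ i ∈ Finset.range n, a i • f i‖ ≤ ‖∑ i ∈ Finset.range m, a i • f i‖))
    (b : ℕ → F) (hb : ∀ n, b n ≠ 0) (φ : ℕ → F →ₗ[ℝ] ℝ)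
    (hlim : ∀ x, Tendsto (fun n : ℕ => ∑ i ∈ Finset.range n, φ i x • b i) atTop (𝓝 x))
    (hcon : ∀ x (n : ℕ), ‖∑ i ∈ Finset.range n, φ i x • b i‖ ≤ ‖x‖) :
    ∃ g : ℕ → F, (∀ x : F, ∃! a : ℕ → ℝ,
        Tendsto (fun n : ℕ => ∑ i ∈ Finset.range n, a i • g i) atTop (𝓝 x)) ∧
      (∀ (a : ℕ → ℝ) (n m : ℕ), n ≤ m →
        ‖∑ i ∈ Finset.range n, a i • g i‖ ≤ ‖∑ i ∈ Finset.range m, a i • g i‖) := by
  have : CompleteSpace (BB b) := (BB_closed b).completeSpace_coe
  let ι := iot b φ hlim hcon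
  have hfin : ¬ FiniteDimensional ℝ (LinearMap.range ι.toLinearMap) := by
    intro h
    apply hF
    exact Module.Finite.equiv (LinearEquiv.ofInjective ι.toLinearMap ι.injective).symm
  have hB : ¬ FiniteDimensional ℝ (BB b) := by
    intro h
    exact hfin inferInstance
  have f1 : IsClosed ((LinearMap.range ι.toLinearMap : Submodule ℝ (BB b)) : Set (BB b)) := by
    have : ((LinearMap.range ι.toLinearMap : Submodule ℝ (BB b)) : Set (BB b)) = Set.range ι := by
      ext x
      simp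
    rw [this]
    exact ι.isometry.isClosedEmbedding.isClosed_range
  have f2 : ∀ x : BB b, (ι.toContinuousLinearMap.comp (evi b)) x ∈
      (LinearMap.range ι.toLinearMap : Submodule ℝ (BB b)) := fun x => ⟨evi b x, rfl⟩
  have f3 : ∀ x ∈ (LinearMap.range ι.toLinearMap : Submodule ℝ (BB b)),
      (ι.toContinuousLinearMap.comp (evi b)) x = x := by
    rintro _ ⟨x, rfl⟩
    change ι (evi b (ι x)) = ι x
    rfl
  have f4 : ‖ι.toContinuousLinearMap.comp (evi b)‖ ≤ 1 := by
    refine (ContinuousLinearMap.opNorm_comp_le _ _).trans ?_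
    have h1 : ‖ι.toContinuousLinearMap‖ ≤ 1 := ι.norm_toContinuousLinearMap_le
    have h2 : ‖evi b‖ ≤ 1 := LinearMap.mkContinuous_norm_le _ zero_le_one _
    calc ‖ι.toContinuousLinearMap‖ * ‖evi b‖ ≤ 1 * 1 :=
          mul_le_mul h1 h2 (ContinuousLinearMap.opNorm_nonneg _) zero_le_one
      _ = 1 := one_mul 1
  obtain ⟨f, hf, hf1, hf2⟩ := H (BB b) hB ⟨ej b, fun S => by
      obtain ⟨a, ha⟩ := coeffs b S
      exact ⟨a, basis_tendsto b S a ha, fun a' ha' =>
        basis_unique b hb S a' a ha' (basis_tendsto b S a ha)⟩, basis_mono b⟩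
    (LinearMap.range ι.toLinearMap) f1 hfin ⟨ι.toContinuousLinearMap.comp (evi b), f2, f3, f4⟩
  · choose g hg using hf
    have hg' : ∀ i, ι (g i) = f i := hg
    have hsum : ∀ (a : ℕ → ℝ) (n : ℕ), ι (∑ i ∈ Finset.range n, a i • g i) =
        ∑ i ∈ Finset.range n, a i • f i := by
      intro a n
      rw [map_sum]
      simp only [map_smul, hg']
    refine ⟨g, fun x => ?_, fun a n m hnm => ?_⟩
    · obtain ⟨a, ha, hu⟩ := hf1 (ι x) ⟨x, rfl⟩
      have hiff : ∀ a : ℕ → ℝ, Tendsto (fun n : ℕ => ∑ i ∈ Finset.range n, a i • g i) atTop (𝓝 x) ↔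
          Tendsto (fun n : ℕ => ∑ i ∈ Finset.range n, a i • f i) atTop (𝓝 (ι x)) := by
        intro a
        rw [ι.isometry.isEmbedding.tendsto_nhds_iff]
        have : (⇑ι ∘ fun n => ∑ i ∈ Finset.range n, a i • g i) =
            fun n => ∑ i ∈ Finset.range n, a i • f i := by
          funext n
          exact hsum a n
        rw [this]
      refine ⟨a, (hiff a).2 ha, fun a' ha' => hu a' ((hiff a').1 ha')⟩
    · have := hf2 a n m hnm
      rw [← hsum, ← hsum, ι.norm_map, ι.norm_map] at this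
      exact this

end Pool.Agent.Helpers29.MB
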