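import Pool.Agent.Helpers29.MB2

set_option autoImplicit false

namespace Pool.Agent.Helpers29.MB

open Filter Topology

lemma e0_eq : e0 = lift0 1 0 0 := by unfold lift0; simp
lemma e1_eq : e1 = lift0 0 1 0 := by unfold lift0; simp
lemma e2_eq : e2 = lift0 0 0 1 := by unfold lift0; simp

/-- tail vectors -/
noncomputable def tv (k : ℕ) : L6 := lp.single 6 (k + 5) 1

lemma tv_mem (k : ℕ) : tv k ∈ FF := by
  constructor <;> simp [tv, single_val]

/-- the directions -/
noncomputable def bv (n : ℕ) : FF :=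
  if n % 4 = 0 then ⟨e0, e0_eq ▸ lift0_mem _ _ _⟩ else
  if n % 4 = 1 then ⟨e1, e1_eq ▸ lift0_mem _ _ _⟩ else
  if n % 4 = 2 then ⟨e2, e2_eq ▸ lift0_mem _ _ _⟩ else ⟨tv (n / 4), tv_mem _⟩

/-- coordinate functionals -/
noncomputable def cof (k : ℕ) : FF →ₗ[ℝ] ℝ := (co k).toLinearMap ∘ₗ FF.subtype

lemma cof_apply (k : ℕ) (x : FF) : cof k x = (x : L6) k := rfl

/-- the functionals -/
noncomputable def ph (n : ℕ) : FF →ₗ[ℝ] ℝ :=
  if n % 4 = 0 then ((7 / 8 : ℝ) ^ (n / 4) / 8) • cof 0 else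
  if n % 4 = 1 then ((7 / 8 : ℝ) ^ (n / 4) / 8) • cof 1 else
  if n % 4 = 2 then ((7 / 8 : ℝ) ^ (n / 4) / 8) • cof 2 else cof (n / 4 + 5)

lemma term0 (k : ℕ) (x : FF) : ((ph (4 * k) x • bv (4 * k) : FF) : L6) =
    lift0 ((7 / 8 : ℝ) ^ k / 8 * (x : L6) 0) 0 0 := by
  have h1 : 4 * k % 4 = 0 := by omega
  have h2 : 4 * k / 4 = k := by omega
  unfold ph bv
  simp only [h1, h2, if_true]
  change ((7 / 8 : ℝ) ^ k / 8 * (x : L6) 0) • e0 = _
  unfold lift0
  simp

lemma term1 (k : ℕ) (x : FF) : ((ph (4 * k + 1) x • bv (4 * k + 1) : FF) : L6) =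
    lift0 0 ((7 / 8 : ℝ) ^ k / 8 * (x : L6) 1) 0 := by
  have h1 : (4 * k + 1) % 4 = 1 := by omega
  have h2 : (4 * k + 1) / 4 = k := by omega
  unfold ph bv
  simp only [h1, h2, one_ne_zero, if_false, if_true]
  change ((7 / 8 : ℝ) ^ k / 8 * (x : L6) 1) • e1 = _
  unfold lift0
  simp

lemma term2 (k : ℕ) (x : FF) : ((ph (4 * k + 2) x • bv (4 * k + 2) : FF) : L6) =
    lift0 0 0 ((7 / 8 : ℝ) ^ k / 8 * (x : L6) 2) := by
  have h1 : (4 * k + 2) % 4 = 2 := by omega
  have h2 : (4 * k + 2) / 4 = k := by omega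
  have h3 : (2 : ℕ) ≠ 1 := by norm_num
  unfold ph bv
  simp only [h1, h2, OfNat.ofNat_ne_zero, h3, if_false, if_true]
  change ((7 / 8 : ℝ) ^ k / 8 * (x : L6) 2) • e2 = _
  unfold lift0
  simp

lemma term3 (k : ℕ) (x : FF) : ((ph (4 * k + 3) x • bv (4 * k + 3) : FF) : L6) =
    (x : L6) (k + 5) • tv k := by
  have h1 : (4 * k + 3) % 4 = 3 := by omega
  have h2 : (4 * k + 3) / 4 = k := by omega
  have h3 : (3 : ℕ) ≠ 1 := by norm_num
  have h4 : (3 : ℕ) ≠ 2 := by norm_num
  unfold ph bv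
  simp only [h1, h2, OfNat.ofNat_ne_zero, h3, h4, if_false]
  rfl

/-- truncation of the tail -/
noncomputable def pit (x : L6) (k : ℕ) : L6 := ∑ i ∈ Finset.range k, x (i + 5) • tv i

lemma lift0_add (a b c a' b' c' : ℝ) :
    lift0 a b c + lift0 a' b' c' = lift0 (a + a') (b + b') (c + c') := by
  unfold lift0
  simp only [add_smul]
  abel

lemma lift0_smul (r a b c : ℝ) : r • lift0 a b c = lift0 (r * a) (r * b) (r * c) := by
  unfold lift0
  simp only [smul_add, smul_smul]

/-- partial sums -/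
noncomputable def psum (x : FF) (n : ℕ) : L6 := ((∑ i ∈ Finset.range n, ph i x • bv i : FF) : L6)

lemma psum_succ (x : FF) (n : ℕ) : psum x (n + 1) = psum x n + ((ph n x • bv n : FF) : L6) := by
  unfold psum
  rw [Finset.sum_range_succ]
  rfl

lemma psum4 (x : FF) (k : ℕ) : psum x (4 * k) =
    lift0 ((1 - (7 / 8) ^ k) * (x : L6) 0) ((1 - (7 / 8) ^ k) * (x : L6) 1)
      ((1 - (7 / 8) ^ k) * (x : L6) 2) + pit x k := by
  induction k with
  | zero =>
    unfold psum pit lift0
    simp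
  | succ k ih =>
    rw [show 4 * (k + 1) = 4 * k + 1 + 1 + 1 + 1 by ring, psum_succ, psum_succ, psum_succ,
      psum_succ, ih, term0, term1, show 4 * k + 1 + 1 = 4 * k + 2 by ring, term2,
      show 4 * k + 2 + 1 = 4 * k + 3 by ring, term3]
    have h1 : pit x (k + 1) = pit x k + (x : L6) (k + 5) • tv k := by
      unfold pit
      rw [Finset.sum_range_succ]
    rw [h1]
    have h2 : lift0 ((1 - (7 / 8) ^ (k + 1)) * (x : L6) 0) ((1 - (7 / 8) ^ (k + 1)) * (x : L6) 1)
        ((1 - (7 / 8) ^ (k + 1)) * (x : L6) 2) =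
        lift0 ((1 - (7 / 8) ^ k) * (x : L6) 0) ((1 - (7 / 8) ^ k) * (x : L6) 1)
          ((1 - (7 / 8) ^ k) * (x : L6) 2) +
        (lift0 ((7 / 8 : ℝ) ^ k / 8 * (x : L6) 0) 0 0 +
          (lift0 0 ((7 / 8 : ℝ) ^ k / 8 * (x : L6) 1) 0 +
            lift0 0 0 ((7 / 8 : ℝ) ^ k / 8 * (x : L6) 2))) := by
      rw [lift0_add, lift0_add, lift0_add]
      congr 1 <;> · rw [pow_succ]; ring
    rw [h2]
    abel

/-- the finite-dimensional part of a vector -/
noncomputable def xE (x : L6) : L6 := lift0 (x 0) (x 1) (x 2)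

lemma norm_e0 : ‖e0‖ ≤ 5 := by
  unfold e0
  refine (norm_add_le _ _).trans ?_
  have h1 := norm_add_le (lp.single (E := fun _ : ℕ => ℝ) 6 0 1) (lp.single 6 3 1)
  rw [lp.norm_single (by norm_num), lp.norm_single (by norm_num)] at h1
  rw [lp.norm_single (by norm_num)]
  norm_num at h1 ⊢
  linarith

lemma norm_e1 : ‖e1‖ ≤ 3 := by
  unfold e1
  refine (norm_add_le _ _).trans ?_
  have h1 := norm_add_le (lp.single (E := fun _ : ℕ => ℝ) 6 1 1) (lp.single 6 3 1)
  rw [lp.norm_single (by norm_num), lp.norm_single (by norm_num)] at h1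
  rw [lp.norm_single (by norm_num)]
  norm_num at h1 ⊢
  linarith

lemma coord_le (x : L6) (k : ℕ) : |x k| ≤ ‖x‖ := lp.norm_apply_le_norm (by norm_num) x k

lemma part1 (x : L6) : ‖lift0 (x 0) 0 0‖ ≤ 8 * ‖xE x‖ := by
  have h0 : |x 0| ≤ ‖xE x‖ := by
    have := coord_le (xE x) 0
    unfold xE at this ⊢
    rw [lift0_val] at this
    simpa using this
  have h1 : lift0 (x 0) 0 0 = x 0 • e0 := by unfold lift0; simp
  rw [h1, norm_smul, Real.norm_eq_abs]
  have := mul_le_mul h0 norm_e0 (norm_nonneg _) (norm_nonneg _)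
  linarith [norm_nonneg (xE x)]

lemma part2 (x : L6) : ‖lift0 (x 0) (x 1) 0‖ ≤ 8 * ‖xE x‖ := by
  have h0 : |x 0| ≤ ‖xE x‖ := by
    have := coord_le (xE x) 0
    unfold xE at this ⊢
    rw [lift0_val] at this
    simpa using this
  have h0' : |x 1| ≤ ‖xE x‖ := by
    have := coord_le (xE x) 1
    unfold xE at this ⊢
    rw [lift0_val] at this
    simpa using this
  have h1 : lift0 (x 0) (x 1) 0 = x 0 • e0 + x 1 • e1 := by unfold lift0; simp
  rw [h1]
  refine (norm_add_le _ _).trans ?_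
  rw [norm_smul, Real.norm_eq_abs, norm_smul, Real.norm_eq_abs]
  have := mul_le_mul h0 norm_e0 (norm_nonneg _) (norm_nonneg _)
  have := mul_le_mul h0' norm_e1 (norm_nonneg _) (norm_nonneg _)
  linarith [norm_nonneg (xE x)]

/-- structure of the partial sums -/
lemma psum_form (x : FF) (n : ℕ) : ∃ a b c : ℝ, psum x n = lift0 a b c + pit x (n / 4) ∧
    ‖lift0 a b c‖ ≤ ‖xE x‖ ∧ ‖lift0 a b c - xE x‖ ≤ 2 * (7 / 8) ^ (n / 4) * ‖xE x‖ := by
  set k := n / 4 with hk
  set N := ‖xE (x : L6)‖ with hN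
  have hN0 : 0 ≤ N := norm_nonneg _
  set r : ℝ := (7 / 8) ^ k with hr
  have hr0 : 0 ≤ r := by positivity
  have hr1 : r ≤ 1 := pow_le_one₀ (by norm_num) (by norm_num)
  -- general estimate
  have gen : ∀ S : L6, ‖S‖ ≤ 8 * N → ∀ Y : L6, Y = (1 - r) • xE (x : L6) + (r / 8) • S →
      ‖Y‖ ≤ N ∧ ‖Y - xE (x : L6)‖ ≤ 2 * r * N := by
    intro S hS Y hY
    constructor
    · rw [hY]
      refine (norm_add_le _ _).trans ?_
      rw [norm_smul, norm_smul, Real.norm_eq_abs, Real.norm_eq_abs, abs_of_nonneg (by linarith),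
        abs_of_nonneg (by positivity)]
      have := mul_le_mul_of_nonneg_left hS (show 0 ≤ r / 8 by positivity)
      rw [← hN]
      nlinarith
    · have : Y - xE (x : L6) = (-r) • xE (x : L6) + (r / 8) • S := by
        rw [hY]
        module
      rw [this]
      refine (norm_add_le _ _).trans ?_
      rw [norm_smul, norm_smul, Real.norm_eq_abs, Real.norm_eq_abs, abs_neg, abs_of_nonneg hr0,
        abs_of_nonneg (by positivity)]
      have := mul_le_mul_of_nonneg_left hS (show 0 ≤ r / 8 by positivity)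
      rw [← hN]
      nlinarith
  have hj : n % 4 < 4 := Nat.mod_lt _ (by norm_num)
  have hn : n = 4 * k + n % 4 := by omega
  obtain ⟨j, hj'⟩ : ∃ j, j = n % 4 := ⟨_, rfl⟩
  rw [← hj'] at hn hj
  rw [hn]
  interval_cases j
  · refine ⟨_, _, _, psum4 x k, ?_⟩
    apply gen 0 (by rw [norm_zero]; positivity)
    unfold xE
    rw [smul_zero, add_zero, lift0_smul]
  · refine ⟨(1 - r) * (x : L6) 0 + r / 8 * (x : L6) 0, (1 - r) * (x : L6) 1,
      (1 - r) * (x : L6) 2, ?_, ?_⟩
    · rw [psum_succ, psum4, term0, add_right_comm, lift0_add, add_zero, add_zero]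
    · apply gen (lift0 ((x : L6) 0) 0 0) (part1 _)
      unfold xE
      rw [lift0_smul, lift0_smul, lift0_add]
      simp
  · refine ⟨(1 - r) * (x : L6) 0 + r / 8 * (x : L6) 0, (1 - r) * (x : L6) 1 + r / 8 * (x : L6) 1,
      (1 - r) * (x : L6) 2, ?_, ?_⟩
    · have e : ∀ A P B C : L6, A + P + B + C = (A + B + C) + P := by intros; abel
      rw [show 4 * k + 2 = 4 * k + 1 + 1 by ring, psum_succ, psum_succ, psum4, term0, term1,
        e, lift0_add, lift0_add]
      simp only [add_zero, hr]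
    · apply gen (lift0 ((x : L6) 0) ((x : L6) 1) 0) (part2 _)
      unfold xE
      rw [lift0_smul, lift0_smul, lift0_add]
      simp
  · refine ⟨(1 - r) * (x : L6) 0 + r / 8 * (x : L6) 0, (1 - r) * (x : L6) 1 + r / 8 * (x : L6) 1,
      (1 - r) * (x : L6) 2 + r / 8 * (x : L6) 2, ?_, ?_⟩
    · have e : ∀ A P B C D : L6, A + P + B + C + D = (A + B + C + D) + P := by intros; abel
      rw [show 4 * k + 3 = 4 * k + 1 + 1 + 1 by ring, psum_succ, psum_succ, psum_succ, psum4,
        term0, term1, show 4 * k + 1 + 1 = 4 * k + 2 by ring, term2,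
        e, lift0_add, lift0_add, lift0_add]
      simp only [add_zero, hr]
    · apply gen (xE (x : L6)) (by rw [← hN]; linarith)
      unfold xE
      rw [lift0_smul, lift0_smul, lift0_add]

lemma pit_val (x : L6) (k j : ℕ) : (pit x k) j = if 5 ≤ j ∧ j < k + 5 then x j else 0 := by
  unfold pit
  induction k with
  | zero =>
    simp only [Finset.range_zero, Finset.sum_empty, lp.coeFn_zero, Pi.zero_apply]
    rw [if_neg (by omega)]
  | succ k ih =>
    rw [Finset.sum_range_succ]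
    simp only [lp.coeFn_add, Pi.add_apply, lp.coeFn_smul, Pi.smul_apply, smul_eq_mul]
    rw [ih]
    unfold tv
    rw [single_val]
    by_cases h : j = k + 5
    · subst h
      rw [if_neg (by omega), if_pos rfl, if_pos (by omega)]
      simp
    · rw [if_neg h, mul_zero, add_zero]
      have : (5 ≤ j ∧ j < k + 5) ↔ (5 ≤ j ∧ j < k + 1 + 5) := by omega
      simp only [this]

lemma norm6_split (v : L6) : ‖v‖ ^ 6 = ∑ k ∈ Finset.range 5, (v k) ^ 6 + ∑' k, (v (k + 5)) ^ 6 := by
  rw [← (pow6_sum v).tsum_eq]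
  exact ((pow6_sum v).summable.sum_add_tsum_nat_add 5).symm

lemma norm6_lift (a b c : ℝ) : ‖lift0 a b c‖ ^ 6 = ∑ k ∈ Finset.range 5, ((lift0 a b c) k) ^ 6 := by
  rw [norm6_split]
  have : ∀ k, (lift0 a b c) (k + 5) = 0 := by
    intro k
    rw [lift0_val]
    have h0 : k + 5 ≠ 0 := by omega
    have h1 : k + 5 ≠ 1 := by omega
    have h2 : k + 5 ≠ 2 := by omega
    have h3 : k + 5 ≠ 3 := by omega
    have h4 : k + 5 ≠ 4 := by omega
    simp [h0, h1, h2, h3, h4]
  simp [this]

lemma xE_val (x : FF) {k : ℕ} (hk : k < 5) : (xE (x : L6)) k = (x : L6) k := by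
  unfold xE
  rw [lift0_val]
  have h3 := x.2.1
  have h4 := x.2.2
  interval_cases k
  · simp
  · simp
  · simp
  · simp [h3]
  · simp [h4]

lemma contr_core (v x : L6) (h5 : ∑ k ∈ Finset.range 5, (v k) ^ 6 ≤ ∑ k ∈ Finset.range 5, (x k) ^ 6)
    (ht : ∀ k, (v (k + 5)) ^ 6 ≤ (x (k + 5)) ^ 6) : ‖v‖ ≤ ‖x‖ := by
  have h3 : ‖v‖ ^ 6 ≤ ‖x‖ ^ 6 := by
    rw [norm6_split v, norm6_split x]
    apply add_le_add h5
    have s1 : Summable (fun k => (v (k + 5)) ^ 6) :=
      (summable_nat_add_iff (f := fun k => (v k) ^ 6) 5).2 (pow6_sum v).summable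
    have s2 : Summable (fun k => (x (k + 5)) ^ 6) :=
      (summable_nat_add_iff (f := fun k => (x k) ^ 6) 5).2 (pow6_sum x).summable
    exact s1.tsum_le_tsum ht s2
  exact le_of_pow_le_pow_left₀ (by norm_num) (norm_nonneg _) h3

lemma contr (x : FF) (n : ℕ) : ‖psum x n‖ ≤ ‖(x : L6)‖ := by
  obtain ⟨a, b, c, h1, h2, _⟩ := psum_form x n
  · apply contr_core
    · have e1 : ∑ k ∈ Finset.range 5, (psum x n k) ^ 6 = ‖lift0 a b c‖ ^ 6 := by
        rw [norm6_lift]
        apply Finset.sum_congr rfl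
        intro k hk
        rw [h1, lp.coeFn_add, Pi.add_apply, pit_val,
          if_neg (by have := Finset.mem_range.1 hk; omega), add_zero]
      have e2 : ∑ k ∈ Finset.range 5, ((x : L6) k) ^ 6 = ‖xE (x : L6)‖ ^ 6 := by
        have := norm6_lift ((x : L6) 0) ((x : L6) 1) ((x : L6) 2)
        change ‖xE (x : L6)‖ ^ 6 = _ at this
        rw [this]
        apply Finset.sum_congr rfl
        intro k hk
        rw [← xE_val x (Finset.mem_range.1 hk)]
        rfl
      rw [e1, e2]
      exact pow_le_pow_left₀ (norm_nonneg _) h2 6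
    · intro k
      have e3 : psum x n (k + 5) = pit x (n / 4) (k + 5) := by
        rw [h1, lp.coeFn_add, Pi.add_apply, lift0_val]
        have h0 : k + 5 ≠ 0 := by omega
        have h1 : k + 5 ≠ 1 := by omega
        have h2 : k + 5 ≠ 2 := by omega
        have h3 : k + 5 ≠ 3 := by omega
        have h4 : k + 5 ≠ 4 := by omega
        simp [h0, h1, h2, h3, h4]
      rw [e3, pit_val]
      split_ifs
      · exact le_refl _
      · have : (0 : ℝ) ^ 6 = 0 := by norm_num
        rw [this]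
        positivity

lemma pit_tendsto (x : FF) : Tendsto (fun k => xE (x : L6) + pit x k) atTop (𝓝 (x : L6)) := by
  have h := (lp.hasSum_single (E := fun _ : ℕ => ℝ) (p := 6) (by norm_num) (x : L6)).tendsto_sum_nat
  have h1 := (tendsto_add_atTop_iff_nat 5).2 h
  refine h1.congr fun k => ?_
  apply lp.ext
  funext j
  rw [lp.coeFn_sum, Finset.sum_apply]
  simp only [single_val]
  rw [lp.coeFn_add, Pi.add_apply, pit_val]
  rw [Finset.sum_ite_eq (Finset.range (k + 5)) j (fun i => (x : L6) i)]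
  by_cases hj : j < 5
  · rw [xE_val x hj, if_pos (Finset.mem_range.2 (by omega)), if_neg (by omega), add_zero]
  · have : (xE (x : L6)) j = 0 := by
      unfold xE
      rw [lift0_val]
      have h0 : j ≠ 0 := by omega
      have h1 : j ≠ 1 := by omega
      have h2 : j ≠ 2 := by omega
      have h3 : j ≠ 3 := by omega
      have h4 : j ≠ 4 := by omega
      simp [h0, h1, h2, h3, h4]
    rw [this, zero_add]
    by_cases hk : j < k + 5
    · rw [if_pos (Finset.mem_range.2 hk), if_pos (by omega)]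
    · rw [if_neg (by simpa using hk), if_neg (by omega)]

lemma psum_tendsto (x : FF) : Tendsto (fun n => psum x n) atTop (𝓝 (x : L6)) := by
  have hdiv : Tendsto (fun n : ℕ => n / 4) atTop atTop :=
    Nat.tendsto_div_const_atTop (by norm_num)
  have h1 : Tendsto (fun n => xE (x : L6) + pit x (n / 4)) atTop (𝓝 (x : L6)) :=
    (pit_tendsto x).comp hdiv
  have h2 : Tendsto (fun n => psum x n - (xE (x : L6) + pit x (n / 4))) atTop (𝓝 0) := by
    apply squeeze_zero_norm (a := fun n : ℕ => 2 * (7 / 8 : ℝ) ^ (n / 4) * ‖xE (x : L6)‖)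
    · intro n
      obtain ⟨a, b, c, h3, _, h4⟩ := psum_form x n
      have : psum x n - (xE (x : L6) + pit x (n / 4)) = lift0 a b c - xE (x : L6) := by
        rw [h3]
        abel
      rw [this]
      exact h4
    · have h5 : Tendsto (fun n : ℕ => (7 / 8 : ℝ) ^ (n / 4)) atTop (𝓝 0) :=
        (tendsto_pow_atTop_nhds_zero_of_lt_one (by norm_num) (by norm_num)).comp hdiv
      have := (h5.const_mul 2).mul_const ‖xE (x : L6)‖
      simpa using this
  have h3 := h1.add h2
  rw [add_zero] at h3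
  refine h3.congr fun n => ?_
  abel

lemma bv_ne (n : ℕ) : bv n ≠ 0 := by
  intro h
  have h' : ((bv n : FF) : L6) = 0 := by rw [h]; rfl
  unfold bv at h'
  split_ifs at h' with h1 h2 h3
  · have := congrArg (fun v : L6 => v 0) h'
    change e0 0 = (0 : L6) 0 at this
    rw [e0_eq, lift0_val] at this
    simp at this
  · have := congrArg (fun v : L6 => v 1) h'
    change e1 1 = (0 : L6) 1 at this
    rw [e1_eq, lift0_val] at this
    simp at this
  · have := congrArg (fun v : L6 => v 2) h'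
    change e2 2 = (0 : L6) 2 at this
    rw [e2_eq, lift0_val] at this
    simp at this
  · have := congrArg (fun v : L6 => v (n / 4 + 5)) h'
    change (tv (n / 4)) (n / 4 + 5) = (0 : L6) (n / 4 + 5) at this
    unfold tv at this
    rw [single_val] at this
    simp at this

lemma FF_inf : ¬ FiniteDimensional ℝ FF := by
  intro h
  have hli : LinearIndependent ℝ (fun k : ℕ => (⟨tv k, tv_mem k⟩ : FF)) := by
    rw [linearIndependent_iff']
    intro s g hg i hi
    have h1 := congrArg (fun v : FF => (v : L6) (i + 5)) hg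
    simp only [Submodule.coe_sum, Submodule.coe_smul, lp.coeFn_sum, Finset.sum_apply,
      lp.coeFn_smul, Pi.smul_apply, smul_eq_mul, tv, single_val] at h1
    rw [Finset.sum_eq_single i] at h1
    · simpa using h1
    · intro j _ hj
      rw [if_neg (by omega), mul_zero]
    · intro h2
      exact absurd hi h2
  exact Module.Finite.not_linearIndependent_of_infinite _ hli

end Pool.Agent.Helpers29.MB
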