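import Mathlib

set_option autoImplicit false

namespace Pool.Agent.Helpers29.Morera

open MeasureTheory Metric Set Filter Topology Convolution

/-- the conjugate Cauchy kernel -/
noncomputable def ker (w : ℂ) : ℂ := (starRingEnd ℂ w)⁻¹

lemma ker_measurable : Measurable ker := by
  unfold ker
  have : Measurable (fun w : ℂ => starRingEnd ℂ w) := Complex.continuous_conj.measurable
  exact this.inv

lemma norm_ker (w : ℂ) : ‖ker w‖ = ‖w‖⁻¹ := by
  unfold ker
  rw [norm_inv, RCLike.norm_conj]

lemma ker_locInt : LocallyIntegrable ker volume := by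
  refine locallyIntegrable_of_norm_le_rpow (C := 1) (α := 1) ?_ ?_ ?_
    ker_measurable.aestronglyMeasurable
  · rw [Complex.finrank_real_complex]; norm_num
  · rw [Complex.finrank_real_complex]; norm_num
  · refine Eventually.of_forall fun w => ?_
    rw [norm_ker, Real.rpow_neg_one, one_mul]

/-- the potential -/
noncomputable def pot (g : ℂ → ℂ) : ℂ → ℂ := ker ⋆[ContinuousLinearMap.mul ℝ ℂ, volume] g

lemma pot_apply (g : ℂ → ℂ) (z : ℂ) : pot g z = ∫ t, ker t * g (z - t) := rfl

lemma pot_continuous {g : ℂ → ℂ} (hg : Continuous g) (hc : HasCompactSupport g) :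
    Continuous (pot g) :=
  hc.continuous_convolution_right _ ker_locInt hg

lemma pot_integrable {g : ℂ → ℂ} (hg : Continuous g) (hc : HasCompactSupport g) (z : ℂ) :
    Integrable (fun t => ker t * g (z - t)) :=
  hc.convolutionExists_right (ContinuousLinearMap.mul ℝ ℂ) ker_locInt hg z

lemma avg_inv_out {t : ℂ} {r : ℝ} (hr : 0 < r) (ht : r < ‖t‖) :
    Real.circleAverage (fun z : ℂ => z⁻¹) t r = t⁻¹ := by
  have h : DiffContOnCl ℂ (fun z : ℂ => z⁻¹) (ball t |r|) := by
    apply DifferentiableOn.diffContOnCl
    intro z hz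
    have hz' : z ≠ 0 := by
      rintro rfl
      have := closure_ball_subset_closedBall hz
      rw [mem_closedBall, dist_eq_norm, zero_sub, norm_neg, abs_of_pos hr] at this
      linarith
    exact (differentiableAt_inv hz').differentiableWithinAt
  exact h.circleAverage

lemma avg_inv_in {t : ℂ} {r : ℝ} (hr : 0 < r) (ht : ‖t‖ < r) (h0 : t ≠ 0) :
    Real.circleAverage (fun z : ℂ => z⁻¹) t r = 0 := by
  rw [Real.circleAverage_eq_circleIntegral hr.ne']
  have h1 : (∮ z in C(t, r), (z - t)⁻¹ • z⁻¹) =
      ∮ z in C(t, r), (t⁻¹ * (z - t)⁻¹ - t⁻¹ * (z - 0)⁻¹) := by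
    refine circleIntegral.integral_congr hr.le fun z hz => ?_
    have hz1 : z - t ≠ 0 := by
      rw [mem_sphere, dist_eq_norm] at hz
      intro h
      rw [h, norm_zero] at hz
      exact hr.ne hz
    have hz2 : z ≠ 0 := by
      rintro rfl
      rw [mem_sphere, dist_eq_norm, zero_sub, norm_neg] at hz
      linarith
    simp only [smul_eq_mul, sub_zero]
    field_simp
    ring
  rw [h1, circleIntegral.integral_sub, circleIntegral.integral_const_mul,
    circleIntegral.integral_const_mul, circleIntegral.integral_sub_inv_of_mem_ball,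
    circleIntegral.integral_sub_inv_of_mem_ball, sub_self, smul_zero]
  · rw [mem_ball, dist_eq_norm, zero_sub, norm_neg]; exact ht
  · exact mem_ball_self hr
  · apply ContinuousOn.circleIntegrable hr.le
    refine continuousOn_const.mul (ContinuousOn.inv₀ (by fun_prop) ?_)
    intro z hz h
    rw [mem_sphere, dist_eq_norm, h, norm_zero] at hz
    exact hr.ne hz
  · apply ContinuousOn.circleIntegrable hr.le
    refine continuousOn_const.mul (ContinuousOn.inv₀ (by fun_prop) ?_)
    intro z hz h
    rw [sub_zero] at h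
    rw [h, mem_sphere, dist_eq_norm, zero_sub, norm_neg] at hz
    linarith

lemma avg_ker {t : ℂ} {r : ℝ} (hr : 0 < r) :
    Real.circleAverage ker t r = starRingEnd ℂ (Real.circleAverage (fun z : ℂ => z⁻¹) t r) := by
  rw [Real.circleAverage_def, Real.circleAverage_def]
  rw [Complex.real_smul, Complex.real_smul, map_mul, Complex.conj_ofReal]
  congr 1
  have h : ∀ θ, ker (circleMap t r θ) = starRingEnd ℂ ((circleMap t r θ)⁻¹) := by
    intro θ
    unfold ker
    rw [map_inv₀]
  simp_rw [h]
  rw [intervalIntegral, intervalIntegral, map_sub, ← integral_conj, ← integral_conj]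

/-- the weighted circle integral -/
noncomputable def A (g : ℂ → ℂ) (z : ℂ) (s : ℝ) : ℂ :=
  ∫ θ in (0 : ℝ)..(2 * Real.pi), Complex.exp (θ * Complex.I) * g (circleMap z s θ)

lemma circleIntegral_eq (g : ℂ → ℂ) (z : ℂ) (s : ℝ) :
    (∮ ζ in C(z, s), g ζ) = (s * Complex.I) * A g z s := by
  rw [circleIntegral_def_Icc, A, ← intervalIntegral.integral_const_mul,
    intervalIntegral.integral_of_le (by positivity), integral_Icc_eq_integral_Ioc]
  congr 1
  ext θ
  rw [deriv_circleMap, circleMap, circleMap, smul_eq_mul]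
  ring

end Pool.Agent.Helpers29.Morera
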