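import Mathlib
import Pool.Agent.Helpers29.Morera1

set_option autoImplicit false

namespace Pool.Agent.Helpers29.Morera

open MeasureTheory Metric Set Filter Topology Convolution

variable {g : ℂ → ℂ}

lemma pot_shift (z c : ℂ) : pot g (z + c) = ∫ t, ker (t + c) * g (z - t) := by
  rw [pot_apply, ← integral_add_right_eq_self (fun t => ker t * g (z + c - t)) c]
  congr 1
  ext t
  congr 2
  ring

lemma norm_pot_continuous (hg : Continuous g) (hc : HasCompactSupport g) :
    Continuous (fun z => ∫ t, ‖ker t‖ * ‖g (z - t)‖) := by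
  have h1 : LocallyIntegrable (fun t => ‖ker t‖) volume := fun x => by
    obtain ⟨s, hs, h⟩ := ker_locInt x
    exact ⟨s, hs, h.norm⟩
  have h2 : HasCompactSupport (fun t => ‖g t‖) := hc.norm
  exact h2.continuous_convolution_right (ContinuousLinearMap.mul ℝ ℝ) h1 hg.norm

lemma shift_integrable (hg : Continuous g) (hc : HasCompactSupport g) (z c : ℂ) :
    Integrable (fun t => ker (t + c) * g (z - t)) := by
  have h := (pot_integrable hg hc (z + c)).comp_add_right c
  refine h.congr (Eventually.of_forall fun t => ?_)
  simp only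
  congr 2
  ring

lemma fubini_integrable (hg : Continuous g) (hc : HasCompactSupport g) (z : ℂ) (r : ℝ) :
    Integrable (Function.uncurry fun (θ : ℝ) (t : ℂ) => ker (circleMap t r θ) * g (z - t))
      ((volume.restrict (Ioc (0 : ℝ) (2 * Real.pi))).prod volume) := by
  have hmeas : AEStronglyMeasurable
      (Function.uncurry fun (θ : ℝ) (t : ℂ) => ker (circleMap t r θ) * g (z - t))
      ((volume.restrict (Ioc (0 : ℝ) (2 * Real.pi))).prod volume) := by
    apply Measurable.aestronglyMeasurable
    apply Measurable.mul
    · apply ker_measurable.comp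
      apply Continuous.measurable
      unfold circleMap
      fun_prop
    · apply Continuous.measurable
      exact hg.comp (by fun_prop)
  rw [integrable_prod_iff hmeas]
  constructor
  · refine Eventually.of_forall fun θ => ?_
    have := shift_integrable hg hc z (r * Complex.exp (θ * Complex.I))
    exact this
  · have h1 : ∀ θ : ℝ, ∫ t, ‖Function.uncurry
        (fun (θ : ℝ) (t : ℂ) => ker (circleMap t r θ) * g (z - t)) (θ, t)‖ =
        (fun z => ∫ t, ‖ker t‖ * ‖g (z - t)‖) (circleMap z r θ) := by
      intro θ
      simp only [Function.uncurry]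
      rw [← integral_add_right_eq_self
        (fun t => ‖ker t‖ * ‖g (circleMap z r θ - t)‖) (r * Complex.exp (θ * Complex.I))]
      congr 1
      ext t
      rw [norm_mul]
      congr 3
      unfold circleMap
      ring
    simp_rw [h1]
    have h2 : Continuous (fun θ : ℝ => (fun z => ∫ t, ‖ker t‖ * ‖g (z - t)‖) (circleMap z r θ)) :=
      (norm_pot_continuous hg hc).comp (continuous_circleMap z r)
    have h3 : IntegrableOn (fun θ : ℝ => (fun z => ∫ t, ‖ker t‖ * ‖g (z - t)‖) (circleMap z r θ))
      (Icc 0 (2 * Real.pi)) := h2.continuousOn.integrableOn_Icc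
    exact h3.mono_set Ioc_subset_Icc_self

lemma avg_pot (hg : Continuous g) (hc : HasCompactSupport g) (z : ℂ) (r : ℝ) :
    Real.circleAverage (pot g) z r = ∫ t, Real.circleAverage ker t r * g (z - t) := by
  rw [Real.circleAverage_def]
  have h1 : ∀ θ : ℝ, pot g (circleMap z r θ) = ∫ t, ker (circleMap t r θ) * g (z - t) :=
    fun θ => pot_shift z _
  simp_rw [h1]
  rw [intervalIntegral.integral_of_le (by positivity),
    integral_integral_swap (fubini_integrable hg hc z r), ← integral_smul]
  congr 1
  ext t
  rw [integral_mul_const, Real.circleAverage_def, intervalIntegral.integral_of_le (by positivity),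
    smul_mul_assoc]

lemma ae_ne (r : ℝ) : ∀ᵐ t : ℂ, t ≠ 0 ∧ ‖t‖ ≠ r := by
  have h1 : ∀ᵐ t : ℂ, t ≠ 0 := by
    rw [ae_iff]; simp
  have h2 : ∀ᵐ t : ℂ, ‖t‖ ≠ r := by
    rw [ae_iff]
    have : {a : ℂ | ¬‖a‖ ≠ r} = sphere (0 : ℂ) r := by
      ext a; simp
    rw [this]
    exact Measure.addHaar_sphere volume 0 r
  filter_upwards [h1, h2] with t a b using ⟨a, b⟩

lemma avg_pot_sub (hg : Continuous g) (hc : HasCompactSupport g) (z : ℂ) {r : ℝ} (hr : 0 < r) :
    Real.circleAverage (pot g) z r - pot g z = - ∫ t in ball 0 r, ker t * g (z - t) := by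
  have h1 : ∫ t, Real.circleAverage ker t r * g (z - t) =
      ∫ t, (ker t * g (z - t) - (ball (0 : ℂ) r).indicator (fun t => ker t * g (z - t)) t) := by
    apply integral_congr_ae
    filter_upwards [ae_ne r] with t ht
    rw [avg_ker hr]
    rcases lt_or_gt_of_ne ht.2 with h | h
    · rw [avg_inv_in hr h ht.1, map_zero, zero_mul,
        indicator_of_mem (by rw [mem_ball_zero_iff]; exact h), sub_self]
    · rw [avg_inv_out hr h, indicator_of_notMem (by
        rw [mem_ball_zero_iff]; exact not_lt.2 h.le), sub_zero, map_inv₀]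
      rfl
  rw [avg_pot hg hc, h1, integral_sub (pot_integrable hg hc z)
    ((pot_integrable hg hc z).indicator measurableSet_ball), integral_indicator measurableSet_ball,
    pot_apply]
  ring

lemma A_periodic (z : ℂ) (s : ℝ) :
    ∫ θ in (-Real.pi)..Real.pi, Complex.exp (θ * Complex.I) * g (circleMap z s θ) = A g z s := by
  have hp : Function.Periodic
      (fun θ : ℝ => Complex.exp (θ * Complex.I) * g (circleMap z s θ)) (2 * Real.pi) := by
    intro θ
    simp only
    rw [periodic_circleMap z s θ]
    congr 1
    have := Complex.exp_periodic (θ * Complex.I)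
    rw [← this]
    congr 1
    push_cast
    ring
  have := hp.intervalIntegral_add_eq (-Real.pi) 0
  rw [zero_add] at this
  rw [A, ← this]
  congr 1
  ring

lemma polar_ball (hg : Continuous g) (z : ℂ) {r : ℝ} (hr : 0 < r) :
    ∫ t in ball 0 r, ker t * g (z - t) = - ∫ s in (0 : ℝ)..r, A g z s := by
  have h0 : ∫ t in ball 0 r, ker t * g (z - t) = - ∫ t in ball 0 r, ker t * g (z + t) := by
    rw [← integral_indicator measurableSet_ball, ← integral_indicator measurableSet_ball,
      ← integral_neg_eq_self, ← integral_neg]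
    congr 1
    ext t
    by_cases ht : t ∈ ball (0 : ℂ) r
    · rw [indicator_of_mem ht, indicator_of_mem (by simpa using ht)]
      unfold ker
      rw [map_neg, inv_neg, sub_neg_eq_add]
      ring
    · rw [indicator_of_notMem ht, indicator_of_notMem (by simpa using ht), neg_zero]
  rw [h0, neg_inj, ← integral_indicator measurableSet_ball, ← Complex.integral_comp_polarCoord_symm]
  have h1 : ∀ p ∈ polarCoord.target, p.1 • (ball (0 : ℂ) r).indicator
      (fun t => ker t * g (z + t)) (Complex.polarCoord.symm p) =
      (Iio r ×ˢ (univ : Set ℝ)).indicator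
        (fun p : ℝ × ℝ => Complex.exp (p.2 * Complex.I) * g (circleMap z p.1 p.2)) p := by
    intro p hp
    rw [polarCoord_target] at hp
    have hp1 : 0 < p.1 := hp.1
    have hsym : Complex.polarCoord.symm p = p.1 * Complex.exp (p.2 * Complex.I) := by
      rw [Complex.polarCoord_symm_apply, Complex.exp_mul_I]
      simp
    by_cases h : p.1 < r
    · rw [indicator_of_mem, indicator_of_mem]
      · rw [hsym]
        unfold ker circleMap
        rw [map_mul, Complex.conj_ofReal, ← Complex.exp_conj, map_mul, Complex.conj_ofReal,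
          Complex.conj_I, mul_inv, ← Complex.exp_neg, Complex.real_smul]
        have : (p.1 : ℂ) ≠ 0 := by exact_mod_cast hp1.ne'
        have e : -((p.2 : ℂ) * -Complex.I) = p.2 * Complex.I := by ring
        rw [e]
        field_simp
      · exact ⟨h, mem_univ _⟩
      · rw [mem_ball_zero_iff, Complex.norm_polarCoord_symm, abs_of_pos hp1]; exact h
    · rw [indicator_of_notMem, indicator_of_notMem, smul_zero]
      · rintro ⟨h', -⟩; exact h h'
      · rw [mem_ball_zero_iff, Complex.norm_polarCoord_symm, abs_of_pos hp1]; exact h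
  rw [setIntegral_congr_fun polarCoord.open_target.measurableSet h1,
    setIntegral_indicator (measurableSet_Iio.prod MeasurableSet.univ)]
  have h2 : polarCoord.target ∩ Iio r ×ˢ (univ : Set ℝ) = Ioo 0 r ×ˢ Ioo (-Real.pi) Real.pi := by
    rw [polarCoord_target]
    ext p
    simp only [mem_inter_iff, mem_prod, mem_Ioi, mem_Ioo, mem_Iio, mem_univ, and_true]
    tauto
  have hcont : Continuous (fun p : ℝ × ℝ =>
      Complex.exp (p.2 * Complex.I) * g (circleMap z p.1 p.2)) := by
    unfold circleMap
    fun_prop
  rw [h2, Measure.volume_eq_prod, setIntegral_prod]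
  · rw [intervalIntegral.integral_of_le hr.le, integral_Ioc_eq_integral_Ioo]
    refine setIntegral_congr_fun measurableSet_Ioo fun s _ => ?_
    simp only
    rw [← A_periodic, intervalIntegral.integral_of_le (by linarith [Real.pi_pos]),
      integral_Ioc_eq_integral_Ioo]
  · have : IntegrableOn (fun p : ℝ × ℝ =>
      Complex.exp (p.2 * Complex.I) * g (circleMap z p.1 p.2))
        (Icc 0 r ×ˢ Icc (-Real.pi) Real.pi) (volume.prod volume) :=
      hcont.continuousOn.integrableOn_compact (isCompact_Icc.prod isCompact_Icc)
    exact this.mono_set (prod_mono Ioo_subset_Icc_self Ioo_subset_Icc_self)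

/-- The key identity. -/
lemma key (hg : Continuous g) (hc : HasCompactSupport g) (z : ℂ) {r : ℝ} (hr : 0 < r) :
    Real.circleAverage (pot g) z r - pot g z = ∫ s in (0 : ℝ)..r, A g z s := by
  rw [avg_pot_sub hg hc z hr, polar_ball hg z hr, neg_neg]

lemma A_continuous (hg : Continuous g) (z : ℂ) : Continuous (A g z) := by
  unfold A
  apply intervalIntegral.continuous_parametric_intervalIntegral_of_continuous'
  unfold circleMap
  fun_prop

end Pool.Agent.Helpers29.Morera
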