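import Mathlib
import Pool.Agent.Helpers29.Morera2

set_option autoImplicit false

namespace Pool.Agent.Helpers29.Morera

open MeasureTheory Metric Set Filter Topology

/-- continuous functions with the exact mean value property on all circles -/
def MV (P : ℂ → ℂ) : Prop := Continuous P ∧ ∀ z r, Real.circleAverage P z r = P z

lemma MV.of_diff {P : ℂ → ℂ} (h : Differentiable ℂ P) : MV P :=
  ⟨h.continuous, fun _ _ => h.diffContOnCl.circleAverage⟩

lemma circleAverage_conj' (P : ℂ → ℂ) (z : ℂ) (r : ℝ) :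
    Real.circleAverage (fun ζ => starRingEnd ℂ (P ζ)) z r =
      starRingEnd ℂ (Real.circleAverage P z r) := by
  rw [Real.circleAverage_def, Real.circleAverage_def]
  rw [Complex.real_smul, Complex.real_smul, map_mul, Complex.conj_ofReal]
  congr 1
  rw [intervalIntegral, intervalIntegral, map_sub, ← integral_conj, ← integral_conj]

lemma MV.conj {P : ℂ → ℂ} (h : MV P) : MV (fun z => starRingEnd ℂ (P z)) :=
  ⟨Complex.continuous_conj.comp h.1, fun z r => by rw [circleAverage_conj', h.2]⟩

lemma MV.add {P Q : ℂ → ℂ} (hP : MV P) (hQ : MV Q) : MV (fun z => P z + Q z) :=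
  ⟨hP.1.add hQ.1, fun z r => by
    rw [Real.circleAverage_fun_add hP.1.continuousOn.circleIntegrable'
      hQ.1.continuousOn.circleIntegrable', hP.2, hQ.2]⟩

lemma MV.const_mul {P : ℂ → ℂ} (hP : MV P) (c : ℂ) : MV (fun z => c * P z) :=
  ⟨continuous_const.mul hP.1, fun z r => by
    have := Real.circleAverage_fun_smul (a := c) (f := P) (c := z) (R := r)
    simp only [smul_eq_mul] at this
    rw [this, hP.2]⟩

lemma exists_MV_of_span {z0 : ℂ} {R : ℝ} (hR : 0 < R) [Fact (0 < 2 * Real.pi)]
    (φ : C(AddCircle (2 * Real.pi), ℂ))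
    (hφ : φ ∈ Submodule.span ℂ (range (@fourier (2 * Real.pi)))) :
    ∃ P, MV P ∧ ∀ x : AddCircle (2 * Real.pi), P (z0 + R * AddCircle.toCircle x) = φ x := by
  have hR' : (R : ℂ) ≠ 0 := by exact_mod_cast hR.ne'
  induction hφ using Submodule.span_induction with
  | mem φ h =>
    obtain ⟨n, rfl⟩ := h
    obtain ⟨m, rfl | rfl⟩ := n.eq_nat_or_neg
    · refine ⟨fun z => ((z - z0) / R) ^ m, MV.of_diff (by fun_prop), fun x => ?_⟩
      simp only
      rw [add_sub_cancel_left, mul_div_cancel_left₀ _ hR', fourier_apply, natCast_zsmul,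
        AddCircle.toCircle_nsmul, Circle.coe_pow]
    · refine ⟨fun z => starRingEnd ℂ (((z - z0) / R) ^ m), (MV.of_diff (by fun_prop)).conj,
        fun x => ?_⟩
      simp only
      rw [add_sub_cancel_left, mul_div_cancel_left₀ _ hR', fourier_neg, fourier_apply,
        natCast_zsmul, AddCircle.toCircle_nsmul, Circle.coe_pow]
  | zero =>
    exact ⟨fun _ => 0, MV.of_diff (by fun_prop), fun x => rfl⟩
  | add φ ψ _ _ h1 h2 =>
    obtain ⟨P, hP, hP'⟩ := h1
    obtain ⟨Q, hQ, hQ'⟩ := h2
    exact ⟨_, hP.add hQ, fun x => by rw [hP', hQ']; rfl⟩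
  | smul c φ _ h1 =>
    obtain ⟨P, hP, hP'⟩ := h1
    exact ⟨_, hP.const_mul c, fun x => by rw [hP']; rfl⟩

lemma exists_MV {z0 : ℂ} {R ε : ℝ} (hR : 0 < R) (hε : 0 < ε) {H : ℂ → ℂ} (hH : Continuous H) :
    ∃ P, MV P ∧ ∀ ζ ∈ sphere z0 R, ‖H ζ - P ζ‖ ≤ ε := by
  have hpi : Fact (0 < 2 * Real.pi) := ⟨by positivity⟩
  let F : C(AddCircle (2 * Real.pi), ℂ) :=
    ⟨fun x => H (z0 + R * AddCircle.toCircle x), by
      have : Continuous (fun x : AddCircle (2 * Real.pi) => (AddCircle.toCircle x : ℂ)) :=
        continuous_subtype_val.comp AddCircle.continuous_toCircle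
      fun_prop⟩
  have hF : F ∈ (Submodule.span ℂ (range (@fourier (2 * Real.pi)))).topologicalClosure := by
    rw [span_fourier_closure_eq_top]; trivial
  have hF2 : F ∈ closure ((Submodule.span ℂ (range (@fourier (2 * Real.pi))) :
      Submodule ℂ C(AddCircle (2 * Real.pi), ℂ)) : Set C(AddCircle (2 * Real.pi), ℂ)) := hF
  rw [Metric.mem_closure_iff] at hF2
  obtain ⟨φ, hφ, hd⟩ := hF2 ε hε
  obtain ⟨P, hP, hP'⟩ := exists_MV_of_span (z0 := z0) hR φ hφ
  refine ⟨P, hP, fun ζ hζ => ?_⟩
  have hn : ‖(ζ - z0) / R‖ = 1 := by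
    rw [mem_sphere, dist_eq_norm] at hζ
    rw [norm_div, hζ, Complex.norm_real, Real.norm_of_nonneg hR.le, div_self hR.ne']
  obtain ⟨x, hx⟩ := (AddCircle.homeomorphCircle hpi.out.ne').surjective
    (⟨(ζ - z0) / R, by simpa [Submonoid.unitSphere] using hn⟩ : Circle)
  have hx2 : (AddCircle.toCircle x : ℂ) = (ζ - z0) / R := by
    have := congrArg (fun c : Circle => (c : ℂ)) hx
    rw [AddCircle.homeomorphCircle_apply] at this
    exact this
  have hR' : (R : ℂ) ≠ 0 := by exact_mod_cast hR.ne'
  have hζ2 : z0 + R * AddCircle.toCircle x = ζ := by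
    rw [hx2]; field_simp; ring
  have h1 := hP' x
  rw [hζ2] at h1
  have h2 : F x = H ζ := by
    change H (z0 + R * AddCircle.toCircle x) = H ζ
    rw [hζ2]
  rw [h1, ← h2, ← dist_eq_norm]
  exact (ContinuousMap.dist_apply_le_dist x).trans hd.le

lemma avg_sq (z0 z : ℂ) (r : ℝ) :
    Real.circleAverage (fun ζ => ‖ζ - z0‖ ^ 2) z r = ‖z - z0‖ ^ 2 + r ^ 2 := by
  have h1 : EqOn (fun ζ => ‖ζ - z0‖ ^ 2)
      (fun ζ => (‖z - z0‖ ^ 2 + r ^ 2) + (2 * (starRingEnd ℂ (z - z0)) * (ζ - z)).re)
      (sphere z |r|) := by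
    intro ζ hζ
    rw [mem_sphere, dist_eq_norm] at hζ
    have e1 : r ^ 2 = ‖ζ - z‖ ^ 2 := by rw [hζ, sq_abs]
    simp only
    rw [e1, ← Complex.normSq_eq_norm_sq, ← Complex.normSq_eq_norm_sq, ← Complex.normSq_eq_norm_sq]
    simp [Complex.normSq_apply]
    ring
  rw [Real.circleAverage_congr_sphere h1]
  have h2 : Differentiable ℂ (fun ζ => 2 * (starRingEnd ℂ (z - z0)) * (ζ - z)) := by fun_prop
  have h3 := Complex.reCLM.circleAverage_comp_comm
    (f := fun ζ => 2 * (starRingEnd ℂ (z - z0)) * (ζ - z)) (c := z) (R := r)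
    h2.continuous.continuousOn.circleIntegrable'
  rw [(MV.of_diff h2).2 z r] at h3
  have h4 : Real.circleAverage (fun ζ => (2 * (starRingEnd ℂ (z - z0)) * (ζ - z)).re) z r = 0 := by
    have : (fun ζ => (2 * (starRingEnd ℂ (z - z0)) * (ζ - z)).re) =
      (Complex.reCLM : ℂ → ℝ) ∘ (fun ζ => 2 * (starRingEnd ℂ (z - z0)) * (ζ - z)) := rfl
    rw [this, h3]
    simp
  rw [Real.circleAverage_fun_add, h4, Real.circleAverage_const, add_zero]
  · exact continuousOn_const.circleIntegrable'
  · apply ContinuousOn.circleIntegrable'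
    fun_prop

/-- The maximum principle. -/
lemma max_principle {z0 : ℂ} {R M : ℝ} {v : ℂ → ℝ} (hv : Continuous v)
    (hM : ∀ z ∈ sphere z0 R, v z ≤ M)
    (hasy : ∀ z ∈ ball z0 R,
      Tendsto (fun r : ℝ => (Real.circleAverage v z r - v z) / r ^ 2) (𝓝[>] 0) (𝓝 0)) :
    ∀ z ∈ closedBall z0 R, v z ≤ M := by
  by_contra hcon
  push Not at hcon
  obtain ⟨z1, hz1, hv1⟩ := hcon
  have hR : 0 < R := by
    rcases (dist_nonneg.trans hz1).lt_or_eq with h | h
    · exact h
    · exfalso
      have : z1 ∈ sphere z0 R := by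
        rw [mem_closedBall, ← h] at hz1
        rw [mem_sphere, ← h]
        exact le_antisymm hz1 dist_nonneg
      exact absurd (hM z1 this) (not_le.2 hv1)
  obtain ⟨δ, hδ, hδ2⟩ : ∃ δ : ℝ, 0 < δ ∧ M + δ * R ^ 2 < v z1 := by
    refine ⟨(v z1 - M) / (2 * R ^ 2), by
      apply div_pos (by linarith) (by positivity), ?_⟩
    have : (v z1 - M) / (2 * R ^ 2) * R ^ 2 = (v z1 - M) / 2 := by
      field_simp
    rw [this]
    linarith
  let w : ℂ → ℝ := fun z => v z + δ * ‖z - z0‖ ^ 2
  have hw : Continuous w := by fun_prop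
  obtain ⟨z2, hz2, hmax⟩ := (isCompact_closedBall z0 R).exists_isMaxOn ⟨z1, hz1⟩ hw.continuousOn
  have h12 : w z1 ≤ w z2 := hmax hz1
  have hz2' : z2 ∈ ball z0 R := by
    rw [mem_ball]
    rcases lt_or_eq_of_le (mem_closedBall.1 hz2) with h | h
    · exact h
    · exfalso
      have h3 := hM z2 (mem_sphere.2 h)
      have h4 : w z2 = v z2 + δ * R ^ 2 := by
        simp only [w]; rw [← dist_eq_norm, h]
      have h5 : v z1 ≤ w z1 := by
        simp only [w]
        have : 0 ≤ δ * ‖z1 - z0‖ ^ 2 := by positivity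
        linarith
      linarith
  have h6 := hasy z2 hz2'
  have h7 : ∀ᶠ r : ℝ in 𝓝[>] 0, (Real.circleAverage v z2 r - v z2) / r ^ 2 ≤ -δ := by
    have hpos : 0 < R - dist z2 z0 := sub_pos.2 (mem_ball.1 hz2')
    filter_upwards [Ioo_mem_nhdsGT hpos] with r hr
    have h8 : Real.circleAverage w z2 r ≤ w z2 := by
      apply Real.circleAverage_mono_on_of_le_circle hw.continuousOn.circleIntegrable'
      intro x hx
      rw [mem_sphere, abs_of_pos hr.1] at hx
      apply hmax
      rw [mem_closedBall]
      have := dist_triangle x z2 z0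
      linarith [hr.2]
    have h9 : Real.circleAverage w z2 r =
        Real.circleAverage v z2 r + δ * (‖z2 - z0‖ ^ 2 + r ^ 2) := by
      have e1 : Real.circleAverage w z2 r = Real.circleAverage v z2 r +
          Real.circleAverage (fun z => δ * ‖z - z0‖ ^ 2) z2 r :=
        Real.circleAverage_fun_add hv.continuousOn.circleIntegrable'
          (by apply ContinuousOn.circleIntegrable'; fun_prop)
      have e2 := Real.circleAverage_fun_smul (a := δ) (f := fun z => ‖z - z0‖ ^ 2) (c := z2)
        (R := r)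
      simp only [smul_eq_mul] at e2
      rw [e1, e2, avg_sq]
    rw [h9] at h8
    have h10 : (0 : ℝ) < r ^ 2 := pow_pos hr.1 2
    rw [div_le_iff₀ h10]
    simp only [w] at h8
    linarith
  have h8 := le_of_tendsto h6 h7
  linarith

/-- Blaschke–Privalov: a continuous function with the asymptotic mean value property has the
exact mean value property. -/
lemma exact_mean {z0 : ℂ} {R : ℝ} (hR : 0 < R) {H : ℂ → ℂ} (hH : Continuous H)
    (hasy : ∀ z ∈ ball z0 R,
      Tendsto (fun r : ℝ => (Real.circleAverage H z r - H z) / (r : ℂ) ^ 2) (𝓝[>] 0) (𝓝 0))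
    {z : ℂ} {r : ℝ} (hr : 0 ≤ r) (hsub : closedBall z r ⊆ closedBall z0 R) :
    Real.circleAverage H z r = H z := by
  have main : ∀ ε > 0, ‖Real.circleAverage H z r - H z‖ ≤ 2 * ε := by
    intro ε hε
    obtain ⟨P, hP, hPH⟩ := exists_MV (z0 := z0) hR hε hH
    have hq : ∀ ζ ∈ closedBall z0 R, ‖H ζ - P ζ‖ ≤ ε := by
      intro ζ hζ
      by_cases h0 : H ζ - P ζ = 0
      · rw [h0, norm_zero]; exact hε.le
      set c : ℂ := starRingEnd ℂ (H ζ - P ζ) / ‖H ζ - P ζ‖ with hc
      have hn0 : ‖H ζ - P ζ‖ ≠ 0 := norm_ne_zero_iff.2 h0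
      have hn0' : (‖H ζ - P ζ‖ : ℂ) ≠ 0 := by exact_mod_cast hn0
      have hcn : ‖c‖ = 1 := by
        rw [hc, norm_div, RCLike.norm_conj, Complex.norm_real, norm_norm, div_self hn0]
      let v : ℂ → ℝ := fun x => (c * (H x - P x)).re
      have hvc : Continuous v :=
        Complex.continuous_re.comp (continuous_const.mul (hH.sub hP.1))
      have hv : ∀ x ∈ closedBall z0 R, v x ≤ ε := by
        apply max_principle hvc
        · intro x hx
          calc (c * (H x - P x)).re ≤ ‖c * (H x - P x)‖ := Complex.re_le_norm _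
            _ = ‖H x - P x‖ := by rw [norm_mul, hcn, one_mul]
            _ ≤ ε := hPH x hx
        · intro x hx
          have h1 := hasy x hx
          have h2 : ∀ r : ℝ, Real.circleAverage v x r - v x =
              (c * (Real.circleAverage H x r - H x)).re := by
            intro r
            have e1 : v = (Complex.reCLM : ℂ → ℝ) ∘ (fun x => c * (H x - P x)) := rfl
            have e2 : Real.circleAverage (fun x => c * (H x - P x)) x r =
                c * (Real.circleAverage H x r - P x) := by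
              have := Real.circleAverage_fun_smul (a := c) (f := fun x => H x - P x) (c := x)
                (R := r)
              simp only [smul_eq_mul] at this
              rw [this, Real.circleAverage_fun_sub hH.continuousOn.circleIntegrable'
                hP.1.continuousOn.circleIntegrable', hP.2]
            rw [e1, Complex.reCLM.circleAverage_comp_comm, e2]
            · simp only [Function.comp, Complex.reCLM_apply]
              rw [← Complex.sub_re]
              congr 1
              ring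
            · apply ContinuousOn.circleIntegrable'
              exact (continuous_const.mul (hH.sub hP.1)).continuousOn
          have h3 : (fun r : ℝ => (Real.circleAverage v x r - v x) / r ^ 2) =
              fun r : ℝ => (c * ((Real.circleAverage H x r - H x) / (r : ℂ) ^ 2)).re := by
            ext r
            rw [h2 r, ← mul_div_assoc]
            have : ((r : ℂ) ^ 2) = ((r ^ 2 : ℝ) : ℂ) := by push_cast; ring
            rw [this, Complex.div_ofReal_re]
          rw [h3]
          have h4 := (Complex.continuous_re.tendsto _).comp (h1.const_mul c)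
          rw [mul_zero, Complex.zero_re] at h4
          exact h4
      have h5 := hv ζ hζ
      have h6 : v ζ = ‖H ζ - P ζ‖ := by
        simp only [v]
        rw [hc, div_mul_eq_mul_div, mul_comm, Complex.mul_conj, Complex.normSq_eq_norm_sq]
        rw [← Complex.ofReal_div, Complex.ofReal_re]
        field_simp
      rw [← h6]
      exact h5
    have h1 : Real.circleAverage H z r - H z =
        Real.circleAverage (fun x => H x - P x) z r - (H z - P z) := by
      rw [Real.circleAverage_fun_sub hH.continuousOn.circleIntegrable'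
        hP.1.continuousOn.circleIntegrable', hP.2]
      ring
    have hz : z ∈ closedBall z0 R := hsub (mem_closedBall_self hr)
    have h2 : ‖Real.circleAverage (fun x => H x - P x) z r‖ ≤ ε := by
      rw [Real.circleAverage_def, norm_smul]
      have h3 : ‖∫ θ in (0 : ℝ)..2 * Real.pi, (fun x => H x - P x) (circleMap z r θ)‖ ≤
          ε * |2 * Real.pi - 0| := by
        apply intervalIntegral.norm_integral_le_of_norm_le_const
        intro θ _
        apply hq
        apply hsub
        exact circleMap_mem_closedBall z hr θ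
      have hpi : 0 < 2 * Real.pi := by positivity
      rw [sub_zero, abs_of_pos hpi] at h3
      rw [norm_inv, Real.norm_of_nonneg hpi.le]
      calc (2 * Real.pi)⁻¹ * ‖∫ θ in (0 : ℝ)..2 * Real.pi, (fun x => H x - P x) (circleMap z r θ)‖
          ≤ (2 * Real.pi)⁻¹ * (ε * (2 * Real.pi)) := by gcongr
        _ = ε := by field_simp
    rw [h1]
    calc _ ≤ ‖Real.circleAverage (fun x => H x - P x) z r‖ + ‖H z - P z‖ := norm_sub_le _ _
      _ ≤ ε + ε := add_le_add h2 (hq z hz)
      _ = 2 * ε := by ring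
  have h0 : ‖Real.circleAverage H z r - H z‖ ≤ 0 := by
    apply le_of_forall_pos_le_add
    intro ε hε
    have := main (ε / 2) (by positivity)
    linarith
  exact sub_eq_zero.1 (norm_le_zero_iff.1 h0)

end Pool.Agent.Helpers29.Morera
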