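import Mathlib
import Pool.Agent.Helpers29.Morera3

set_option autoImplicit false

namespace Pool.Agent.Helpers29.Morera

open MeasureTheory Metric Set Filter Topology Convolution

variable {g : ℂ → ℂ}

/-- asymptotic mean value property of the potential -/
lemma pot_asymptotic (hg : Continuous g) (hc : HasCompactSupport g) (z : ℂ)
    (h : Tendsto (fun r : ℝ => ((r : ℂ) ^ 2)⁻¹ * ∮ ζ in C(z, r), g ζ) (𝓝[>] 0) (𝓝 0)) :
    Tendsto (fun r : ℝ => (Real.circleAverage (pot g) z r - pot g z) / (r : ℂ) ^ 2)
      (𝓝[>] 0) (𝓝 0) := by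
  rw [Metric.tendsto_nhdsWithin_nhds] at h ⊢
  intro ε hε
  obtain ⟨δ, hδ, hd⟩ := h (ε / 2) (by positivity)
  refine ⟨δ, hδ, fun r hr hrd => ?_⟩
  have hr0 : (0 : ℝ) < r := hr
  have hA : ∀ s : ℝ, 0 < s → s ≤ r → ‖A g z s‖ ≤ ε / 2 * r := by
    intro s hs hsr
    have h1 := hd hs (by
      rw [Real.dist_eq, sub_zero, abs_of_pos hs]
      rw [Real.dist_eq, sub_zero, abs_of_pos hr0] at hrd
      linarith)
    rw [dist_zero_right, circleIntegral_eq] at h1
    have hs' : (s : ℂ) ≠ 0 := by exact_mod_cast hs.ne'
    have h2 : ((s : ℂ) ^ 2)⁻¹ * (s * Complex.I * A g z s) = (s : ℂ)⁻¹ * (Complex.I * A g z s) := by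
      field_simp
    rw [h2, norm_mul, norm_mul, Complex.norm_I, one_mul, norm_inv, Complex.norm_real,
      Real.norm_of_nonneg hs.le] at h1
    have h3 : ‖A g z s‖ = s * (s⁻¹ * ‖A g z s‖) := by field_simp
    rw [h3]
    nlinarith
  have h4 : ‖∫ s in (0 : ℝ)..r, A g z s‖ ≤ ε / 2 * r * |r - 0| := by
    apply intervalIntegral.norm_integral_le_of_norm_le_const
    intro s hs
    rw [uIoc_of_le hr0.le] at hs
    exact hA s hs.1 hs.2
  rw [dist_zero_right, key hg hc z hr0, norm_div, norm_pow, Complex.norm_real,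
    Real.norm_of_nonneg hr0.le, div_lt_iff₀ (by positivity)]
  rw [sub_zero, abs_of_pos hr0] at h4
  have : 0 < ε * r ^ 2 := by positivity
  nlinarith

lemma A_eq_zero (hg : Continuous g) (hc : HasCompactSupport g) {z0 : ℂ} {R : ℝ} (hR : 0 < R)
    (h : ∀ z ∈ ball z0 R,
      Tendsto (fun r : ℝ => ((r : ℂ) ^ 2)⁻¹ * ∮ ζ in C(z, r), g ζ) (𝓝[>] 0) (𝓝 0))
    {z : ℂ} {r : ℝ} (hr : 0 < r) (hsub : ‖z - z0‖ + r < R) : A g z r = 0 := by
  have h1 : ∀ s : ℝ, 0 < s → ‖z - z0‖ + s < R → ∫ t in (0 : ℝ)..s, A g z t = 0 := by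
    intro s hs hsR
    rw [← key hg hc z hs, exact_mean hR (pot_continuous hg hc)
      (fun z hz => pot_asymptotic hg hc z (h z hz)) hs.le, sub_self]
    intro x hx
    rw [mem_closedBall] at hx ⊢
    have := dist_triangle x z z0
    rw [dist_eq_norm z z0] at this
    linarith
  have h2 : HasDerivAt (fun s => ∫ t in (0 : ℝ)..s, A g z t) (A g z r) r :=
    intervalIntegral.integral_hasDerivAt_right ((A_continuous hg z).intervalIntegrable _ _)
      (A_continuous hg z).aestronglyMeasurable.stronglyMeasurableAtFilter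
      (A_continuous hg z).continuousAt
  have h3 : (fun s => ∫ t in (0 : ℝ)..s, A g z t) =ᶠ[𝓝 r] fun _ => 0 := by
    have : Ioo 0 (R - ‖z - z0‖) ∈ 𝓝 r := Ioo_mem_nhds hr (by linarith)
    filter_upwards [this] with s hs
    exact h1 s hs.1 (by linarith [hs.2])
  exact h2.unique ((hasDerivAt_const r (0 : ℂ)).congr_of_eventuallyEq h3)

lemma integral_exp_two : ∫ θ in (0 : ℝ)..(2 * Real.pi),
    Complex.exp (θ * Complex.I) * Complex.exp (θ * Complex.I) = 0 := by
  have h : ∀ θ : ℝ, Complex.exp (θ * Complex.I) * Complex.exp (θ * Complex.I) =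
      Complex.exp ((2 * Complex.I) * θ) := by
    intro θ
    rw [← Complex.exp_add]
    congr 1
    ring
  simp_rw [h]
  rw [integral_exp_mul_complex (by simp)]
  have e : Complex.exp (2 * Complex.I * ((2 * Real.pi : ℝ) : ℂ)) = 1 := by
    rw [Complex.exp_eq_one_iff]
    exact ⟨2, by push_cast; ring⟩
  rw [e]
  simp

lemma integral_exp_one : ∫ θ in (0 : ℝ)..(2 * Real.pi), Complex.exp (θ * Complex.I) = 0 := by
  have h : ∀ θ : ℝ, Complex.exp (θ * Complex.I) = Complex.exp (Complex.I * θ) := by
    intro θ
    rw [mul_comm]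
  simp_rw [h]
  rw [integral_exp_mul_complex (by simp)]
  have e : Complex.exp (Complex.I * ((2 * Real.pi : ℝ) : ℂ)) = 1 := by
    rw [Complex.exp_eq_one_iff]
    exact ⟨1, by push_cast; ring⟩
  rw [e]
  simp

/-- a real differentiable function with vanishing small circle integrals is complex
differentiable -/
lemma complex_diff {G : ℂ → ℂ} (hG : Continuous G) {z : ℂ} (hd : DifferentiableAt ℝ G z)
    {ρ : ℝ} (hρ : 0 < ρ) (h : ∀ s : ℝ, 0 < s → s < ρ → A G z s = 0) :
    DifferentiableAt ℂ G z := by
  rw [differentiableAt_complex_iff_differentiableAt_real]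
  refine ⟨hd, ?_⟩
  set L := fderiv ℝ G z with hL
  have hL1 : ∀ w : ℂ, L w = ((L 1 - Complex.I * L Complex.I) / 2) * w +
      ((L 1 + Complex.I * L Complex.I) / 2) * starRingEnd ℂ w := by
    intro w
    have h1 : w = w.re • (1 : ℂ) + w.im • Complex.I := by
      simp [Complex.real_smul]
    have h2 : L w = w.re * L 1 + w.im * L Complex.I := by
      conv_lhs => rw [h1]
      rw [map_add, map_smul, map_smul, Complex.real_smul, Complex.real_smul]
    have h3 : (starRingEnd ℂ w) = w.re - w.im * Complex.I := by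
      apply Complex.ext <;> simp
    have h4 : w = w.re + w.im * Complex.I := (Complex.re_add_im w).symm
    rw [h2, h3]
    conv_rhs => rw [h4]
    simp only [Complex.add_re, Complex.add_im, Complex.ofReal_re, Complex.ofReal_im,
      Complex.mul_re, Complex.mul_im, Complex.I_re, Complex.I_im, mul_zero, sub_zero, mul_one,
      add_zero, zero_add, zero_mul]
    ring_nf
    rw [Complex.I_sq]
    ring
  set b : ℂ := (L 1 + Complex.I * L Complex.I) / 2 with hb
  set a : ℂ := (L 1 - Complex.I * L Complex.I) / 2 with ha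
  suffices hb0 : b = 0 by
    have h1 : L 1 + Complex.I * L Complex.I = 0 := by
      have : (L 1 + Complex.I * L Complex.I) = 2 * b := by rw [hb]; ring
      rw [this, hb0, mul_zero]
    have h2 : Complex.I * (L 1 + Complex.I * L Complex.I) = 0 := by rw [h1, mul_zero]
    rw [mul_add, ← mul_assoc, Complex.I_mul_I] at h2
    rw [smul_eq_mul]
    linear_combination (-1 : ℂ) * h2
  have main : ∀ ε > 0, ‖b‖ ≤ ε := by
    intro ε hε
    have h1 := hd.hasFDerivAt.isLittleO
    rw [Asymptotics.isLittleO_iff] at h1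
    have h2 := h1 hε
    rw [Metric.eventually_nhds_iff] at h2
    obtain ⟨δ, hδ, h3⟩ := h2
    obtain ⟨s, hs0, hsδ, hsρ⟩ : ∃ s : ℝ, 0 < s ∧ s < δ ∧ s < ρ :=
      ⟨min δ ρ / 2, by positivity, by linarith [min_le_left δ ρ, lt_min hδ hρ],
        by linarith [min_le_right δ ρ, lt_min hδ hρ]⟩
    have h4 := h s hs0 hsρ
    have hint1 : IntervalIntegrable (fun θ : ℝ => Complex.exp (θ * Complex.I) * G (circleMap z s θ))
        volume 0 (2 * Real.pi) := by
      apply Continuous.intervalIntegrable
      unfold circleMap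
      fun_prop
    have hint2 : IntervalIntegrable (fun θ : ℝ => Complex.exp (θ * Complex.I) *
        (G z + L (s * Complex.exp (θ * Complex.I)))) volume 0 (2 * Real.pi) := by
      apply Continuous.intervalIntegrable
      have : Continuous L := L.continuous
      fun_prop
    have h5 : ∫ θ in (0 : ℝ)..(2 * Real.pi), Complex.exp (θ * Complex.I) *
        (G z + L (s * Complex.exp (θ * Complex.I))) = 2 * Real.pi * s * b := by
      have e1 : ∀ θ : ℝ, Complex.exp (θ * Complex.I) *
          (G z + L (s * Complex.exp (θ * Complex.I))) =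
          G z * Complex.exp (θ * Complex.I) +
          (s * a) * (Complex.exp (θ * Complex.I) * Complex.exp (θ * Complex.I)) + s * b := by
        intro θ
        rw [hL1, map_mul, Complex.conj_ofReal, ← Complex.exp_conj, map_mul, Complex.conj_ofReal,
          Complex.conj_I]
        have e2 : Complex.exp (θ * Complex.I) * Complex.exp (θ * -Complex.I) = 1 := by
          rw [← Complex.exp_add]
          simp
        linear_combination (s * b) * e2
      simp_rw [e1]
      rw [intervalIntegral.integral_add, intervalIntegral.integral_add,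
        intervalIntegral.integral_const_mul, intervalIntegral.integral_const_mul,
        integral_exp_one, integral_exp_two, intervalIntegral.integral_const]
      · rw [sub_zero, Complex.real_smul]
        push_cast
        ring
      · apply Continuous.intervalIntegrable; fun_prop
      · apply Continuous.intervalIntegrable; fun_prop
      · apply Continuous.intervalIntegrable; fun_prop
      · apply Continuous.intervalIntegrable; fun_prop
    have h6 : ‖A G z s - 2 * Real.pi * s * b‖ ≤ (ε * s) * |2 * Real.pi - 0| := by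
      rw [← h5, A, ← intervalIntegral.integral_sub hint1 hint2]
      apply intervalIntegral.norm_integral_le_of_norm_le_const
      intro θ _
      rw [← mul_sub, norm_mul, Complex.norm_exp_ofReal_mul_I, one_mul]
      have h7 := h3 (y := circleMap z s θ) (by
        rw [dist_eq_norm, circleMap_sub_center, norm_circleMap_zero, abs_of_pos hs0]
        exact hsδ)
      rw [circleMap_sub_center, norm_circleMap_zero, abs_of_pos hs0] at h7
      have e : circleMap 0 s θ = s * Complex.exp (θ * Complex.I) := circleMap_zero s θ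
      rw [e] at h7
      rw [← sub_sub]
      exact h7
    rw [h4, zero_sub, norm_neg, sub_zero, norm_mul, norm_mul, norm_mul, Complex.norm_real,
      Complex.norm_real, Real.norm_of_nonneg hs0.le, Real.norm_of_nonneg Real.pi_pos.le,
      abs_of_pos (by positivity : 0 < 2 * Real.pi)] at h6
    have h8 : ‖(2 : ℂ)‖ = 2 := by norm_num
    rw [h8] at h6
    have h9 : (2 * Real.pi * s) * ‖b‖ ≤ (2 * Real.pi * s) * ε := by linarith
    exact le_of_mul_le_mul_left h9 (by positivity)
  have : ‖b‖ ≤ 0 := le_of_forall_pos_le_add (fun ε hε => by linarith [main ε hε])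
  exact norm_le_zero_iff.1 this

end Pool.Agent.Helpers29.Morera
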