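import Mathlib
import Pool.Agent.Helpers29.Morera4

set_option autoImplicit false

namespace Pool.Agent.Helpers29.Morera

open MeasureTheory Metric Set Filter Topology Convolution

variable {g : ℂ → ℂ}

/-- mollification -/
noncomputable def moll (φ : ContDiffBump (0 : ℂ)) (g : ℂ → ℂ) : ℂ → ℂ :=
  φ.normed volume ⋆[ContinuousLinearMap.lsmul ℝ ℝ, volume] g

lemma moll_apply (φ : ContDiffBump (0 : ℂ)) (g : ℂ → ℂ) (z : ℂ) :
    moll φ g z = ∫ w in closedBall 0 φ.rOut, (φ.normed volume w : ℂ) * g (z - w) := by
  have h1 : moll φ g z = ∫ w, (φ.normed volume w : ℂ) * g (z - w) := by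
    unfold moll
    rw [convolution_def]
    congr 1
  rw [h1, ← integral_indicator isClosed_closedBall.measurableSet]
  congr 1
  ext w
  by_cases hw : w ∈ closedBall (0 : ℂ) φ.rOut
  · rw [indicator_of_mem hw]
  · rw [indicator_of_notMem hw]
    have : φ.normed volume w = 0 := by
      have h2 : w ∉ Function.support (φ.normed volume) := by
        rw [φ.support_normed_eq]
        exact fun h => hw (ball_subset_closedBall h)
      exact Function.notMem_support.1 h2
    rw [this]
    simp

lemma moll_contDiff (φ : ContDiffBump (0 : ℂ)) (hg : Continuous g) :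
    ContDiff ℝ 1 (moll φ g) := by
  have := φ.hasCompactSupport_normed (μ := volume) |>.contDiff_convolution_left
    (𝕜 := ℝ) (n := 1) (ContinuousLinearMap.lsmul ℝ ℝ)
    (φ.contDiff_normed (n := 1)) (hg.locallyIntegrable (μ := volume))
  exact_mod_cast this

lemma A_moll (φ : ContDiffBump (0 : ℂ)) (hg : Continuous g) (z : ℂ) (s : ℝ) :
    A (moll φ g) z s =
      ∫ w in closedBall 0 φ.rOut, (φ.normed volume w : ℂ) * A g (z - w) s := by
  have hcont : Continuous (Function.uncurry fun (θ : ℝ) (w : ℂ) =>
      Complex.exp (θ * Complex.I) * ((φ.normed volume w : ℂ) * g (circleMap z s θ - w))) := by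
    have h1 : Continuous (φ.normed volume) := φ.continuous_normed
    unfold circleMap
    fun_prop
  have hint : Integrable (Function.uncurry fun (θ : ℝ) (w : ℂ) =>
      Complex.exp (θ * Complex.I) * ((φ.normed volume w : ℂ) * g (circleMap z s θ - w)))
      ((volume.restrict (Ioc (0 : ℝ) (2 * Real.pi))).prod
        (volume.restrict (closedBall (0 : ℂ) φ.rOut))) := by
    rw [Measure.prod_restrict]
    have : IntegrableOn (Function.uncurry fun (θ : ℝ) (w : ℂ) =>
      Complex.exp (θ * Complex.I) * ((φ.normed volume w : ℂ) * g (circleMap z s θ - w)))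
      (Icc (0 : ℝ) (2 * Real.pi) ×ˢ closedBall (0 : ℂ) φ.rOut) (volume.prod volume) :=
      hcont.continuousOn.integrableOn_compact (isCompact_Icc.prod (isCompact_closedBall _ _))
    exact this.mono_set (prod_mono Ioc_subset_Icc_self le_rfl)
  have h1 : A (moll φ g) z s = ∫ θ in Ioc (0 : ℝ) (2 * Real.pi),
      ∫ w in closedBall (0 : ℂ) φ.rOut,
        Complex.exp (θ * Complex.I) * ((φ.normed volume w : ℂ) * g (circleMap z s θ - w)) := by
    rw [A, intervalIntegral.integral_of_le (by positivity)]
    congr 1
    ext θ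
    rw [moll_apply, integral_const_mul]
  rw [h1, integral_integral_swap hint]
  congr 1
  ext w
  rw [A, intervalIntegral.integral_of_le (by positivity), ← integral_const_mul]
  congr 1
  ext θ
  have : circleMap (z - w) s θ = circleMap z s θ - w := by
    unfold circleMap; ring
  rw [this]
  ring

lemma moll_differentiable (hg : Continuous g) {z0 : ℂ} {R : ℝ}
    (h : ∀ z r, 0 < r → ‖z - z0‖ + r < R → A g z r = 0) (φ : ContDiffBump (0 : ℂ))
    (hφ : φ.rOut < R / 4) : DifferentiableOn ℂ (moll φ g) (ball z0 (R / 2)) := by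
  intro z hz
  have hR : 0 < R := by linarith [φ.rOut_pos]
  apply DifferentiableAt.differentiableWithinAt
  have hsm := moll_contDiff φ hg
  refine complex_diff hsm.continuous (hsm.differentiable (by norm_num) z) (ρ := R / 4)
    (by linarith) ?_
  intro s hs hsR
  rw [A_moll φ hg]
  have : ∀ w ∈ closedBall (0 : ℂ) φ.rOut, (φ.normed volume w : ℂ) * A g (z - w) s = 0 := by
    intro w hw
    rw [h (z - w) s hs, mul_zero]
    rw [mem_closedBall_zero_iff] at hw
    rw [mem_ball, dist_eq_norm] at hz
    have e : z - w - z0 = (z - z0) - w := by ring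
    rw [e]
    have := norm_sub_le (z - z0) w
    linarith
  rw [setIntegral_congr_fun isClosed_closedBall.measurableSet this]
  simp

lemma differentiable_of_A (hg : Continuous g) (hc : HasCompactSupport g) {z0 : ℂ} {R : ℝ}
    (hR : 0 < R) (h : ∀ z r, 0 < r → ‖z - z0‖ + r < R → A g z r = 0) :
    DifferentiableOn ℂ g (ball z0 (R / 2)) := by
  have huc : UniformContinuous g := hc.uniformContinuous_of_continuous hg
  let φ : ℕ → ContDiffBump (0 : ℂ) := fun n =>
    { rIn := R / (16 * (n + 1)), rOut := R / (8 * (n + 1)),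
      rIn_pos := by positivity,
      rIn_lt_rOut := by
        apply div_lt_div_of_pos_left hR (by positivity)
        have : (0 : ℝ) < (n : ℝ) + 1 := by positivity
        linarith }
  have hout : ∀ n, (φ n).rOut = R / (8 * (n + 1)) := fun n => rfl
  have hlt : ∀ n, (φ n).rOut < R / 4 := by
    intro n
    rw [hout]
    apply div_lt_div_of_pos_left hR (by norm_num)
    have : (0 : ℝ) ≤ n := Nat.cast_nonneg n
    linarith
  have hlim : TendstoLocallyUniformlyOn (fun n => moll (φ n) g) g atTop (ball z0 (R / 2)) := by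
    apply TendstoUniformlyOn.tendstoLocallyUniformlyOn
    apply TendstoUniformly.tendstoUniformlyOn
    rw [Metric.tendstoUniformly_iff]
    intro ε hε
    obtain ⟨δ, hδ, hd⟩ := Metric.uniformContinuous_iff.1 huc (ε / 2) (by positivity)
    have h0 : Tendsto (fun n : ℕ => R / (8 * ((n : ℝ) + 1))) atTop (𝓝 0) := by
      have h1 := tendsto_one_div_add_atTop_nhds_zero_nat (𝕜 := ℝ)
      have h2 := h1.const_mul (R / 8)
      rw [mul_zero] at h2
      refine h2.congr fun n => ?_
      field_simp
    filter_upwards [h0.eventually (gt_mem_nhds hδ)] with n hn x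
    have h3 := (φ n).dist_normed_convolution_le (μ := volume) (g := g) (x₀ := x) (ε := ε / 2)
      hg.aestronglyMeasurable (fun y hy => (hd (by
        rw [mem_ball, hout] at hy
        exact hy.trans hn)).le)
    rw [dist_comm]
    exact lt_of_le_of_lt h3 (by linarith)
  exact hlim.differentiableOn
    (Eventually.of_forall fun n => moll_differentiable hg h (φ n) (hlt n)) isOpen_ball

/-- The local form of the theorem. -/
lemma local_theorem (hg : Continuous g) (hc : HasCompactSupport g) {z0 : ℂ} {R : ℝ} (hR : 0 < R)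
    (h : ∀ z ∈ ball z0 R,
      Tendsto (fun r : ℝ => ((r : ℂ) ^ 2)⁻¹ * ∮ ζ in C(z, r), g ζ) (𝓝[>] 0) (𝓝 0)) :
    DifferentiableOn ℂ g (ball z0 (R / 2)) :=
  differentiable_of_A hg hc hR (fun _ _ hr hsub => A_eq_zero hg hc hR h hr hsub)

theorem main2 {D : Set ℂ} (hD : IsOpen D) {f : ℂ → ℂ} (hf : ContinuousOn f D)
    (h : ∀ z ∈ D,
      Tendsto (fun r : ℝ => ((r : ℂ) ^ 2)⁻¹ * ∮ ζ in C(z, r), f ζ) (𝓝[>] 0) (𝓝 0)) :
    DifferentiableOn ℂ f D := by
  intro z0 hz0
  apply DifferentiableAt.differentiableWithinAt
  obtain ⟨R0, hR0, hsub⟩ := Metric.isOpen_iff.1 hD z0 hz0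
  set R : ℝ := R0 / 3 with hRdef
  have hR : 0 < R := by positivity
  let χ : ContDiffBump z0 := { rIn := R, rOut := 2 * R, rIn_pos := hR, rIn_lt_rOut := by linarith }
  let g : ℂ → ℂ := fun z => (χ z : ℂ) * f z
  have hsupp : tsupport g ⊆ closedBall z0 (2 * R) := by
    have h1 : Function.support g ⊆ closedBall z0 (2 * R) := by
      intro z hz
      by_contra hcon
      apply hz
      have : χ z = 0 := by
        have h2 : z ∉ Function.support χ := by
          rw [χ.support_eq]
          exact fun h => hcon (ball_subset_closedBall h)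
        exact Function.notMem_support.1 h2
      simp only [g]
      rw [this]
      simp
    exact closure_minimal h1 isClosed_closedBall
  have hcb : closedBall z0 (2 * R) ⊆ D := by
    intro z hz
    apply hsub
    rw [mem_closedBall] at hz
    rw [mem_ball]
    linarith
  have hg : Continuous g := by
    have h1 : ContinuousOn g D := by
      apply ContinuousOn.mul _ hf
      exact (Complex.continuous_ofReal.comp χ.continuous).continuousOn
    exact continuous_of_tsupport fun x hx => h1.continuousAt (hD.mem_nhds (hcb (hsupp hx)))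
  have hc : HasCompactSupport g :=
    HasCompactSupport.of_support_subset_isCompact (isCompact_closedBall z0 (2 * R))
      (subset_closure.trans hsupp)
  have heq : ∀ z ∈ ball z0 R, g z = f z := by
    intro z hz
    have : χ z = 1 := χ.one_of_mem_closedBall (ball_subset_closedBall hz)
    simp only [g]
    rw [this]
    simp
  have hloc := local_theorem hg hc hR (fun z hz => by
    have hzD : z ∈ D := hcb (closedBall_subset_closedBall (by linarith)
      (ball_subset_closedBall hz))
    refine (h z hzD).congr' ?_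
    have hpos : 0 < R - dist z z0 := sub_pos.2 (mem_ball.1 hz)
    filter_upwards [Ioo_mem_nhdsGT hpos] with r hr
    congr 1
    refine circleIntegral.integral_congr hr.1.le fun ζ hζ => ?_
    refine (heq ζ ?_).symm
    rw [mem_sphere] at hζ
    rw [mem_ball]
    have := dist_triangle ζ z z0
    linarith [hr.2])
  have h1 : DifferentiableAt ℂ g z0 :=
    (hloc z0 (mem_ball_self (by positivity))).differentiableAt
      (isOpen_ball.mem_nhds (mem_ball_self (by positivity)))
  refine h1.congr_of_eventuallyEq ?_
  filter_upwards [isOpen_ball.mem_nhds (mem_ball_self hR)] with z hz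
  exact (heq z hz).symm

theorem main1 {D : Set ℂ} (hD : IsOpen D) {f : ℂ → ℂ} (hf : ContinuousOn f D)
    (h : ∀ z ∈ D, ∃ ρ > 0, ∀ r, 0 < r → r ≤ ρ → closedBall z r ⊆ D → (∮ ζ in C(z, r), f ζ) = 0) :
    DifferentiableOn ℂ f D := by
  refine main2 hD hf fun z hz => ?_
  obtain ⟨ρ, hρ, hρ2⟩ := h z hz
  obtain ⟨R0, hR0, hsub⟩ := Metric.isOpen_iff.1 hD z hz
  refine tendsto_const_nhds.congr' ?_
  filter_upwards [Ioo_mem_nhdsGT (lt_min hρ hR0)] with r hr
  have h1 : r < ρ := hr.2.trans_le (min_le_left _ _)
  have h2 : r < R0 := hr.2.trans_le (min_le_right _ _)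
  rw [hρ2 r hr.1 h1.le ((closedBall_subset_ball h2).trans hsub), mul_zero]

end Pool.Agent.Helpers29.Morera
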