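import Mathlib
import Pool.Agent.Helpers29.Corson3

set_option autoImplicit false

namespace Pool.Agent.Helpers29.Sp

open Set Filter Topology Cardinal Pool.Agent.Helpers29.Corson

variable {T : Type} [TopologicalSpace T] [CompactSpace T] [T2Space T]

/-- splittability over Corson compacta, in terms of maps to `Σ`-products -/
def Split (T : Type) [TopologicalSpace T] : Prop :=
  ∀ A : Set T, ∃ (Γ : Type) (F : T → Γ → ℝ), Continuous F ∧
    (∀ x, (Function.support (F x)).Countable) ∧ ∀ x y, F x = F y → (x ∈ A ↔ y ∈ A)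

lemma exists_fin {Γ : Type} {S : Set Γ} (hS : S.Countable) :
    ∃ fs : ℕ → Set Γ, (∀ n, (fs n).Finite) ∧ Monotone fs ∧ ∀ γ ∈ S, ∃ n, γ ∈ fs n := by
  obtain ⟨c, hc⟩ := Set.countable_iff_exists_injOn.1 hS
  refine ⟨fun n => {γ ∈ S | c γ ≤ n}, fun n => ?_, ?_, ?_⟩
  · apply Set.Finite.of_finite_image (f := c)
    · refine (finite_Iic n).subset ?_
      rintro _ ⟨γ, hγ, rfl⟩
      exact hγ.2
    · exact hc.mono fun γ hγ => hγ.1
  · intro n m hnm γ hγ
    exact ⟨hγ.1, hγ.2.trans hnm⟩
  · intro γ hγ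
    exact ⟨c γ, hγ, le_rfl⟩

/-- `T` is Fréchet–Urysohn -/
lemma exists_seq (hT : Split T) {E : Set T} {x : T} (hx : x ∈ closure E) :
    ∃ u : ℕ → T, (∀ n, u n ∈ E) ∧ Tendsto u atTop (𝓝 x) := by
  classical
  obtain ⟨Γ, F, hF, hFs, hFx⟩ := hT {x}
  choose fs hfin hmono hcov using fun y => exists_fin (hFs y)
  have hpick : ∀ (n : ℕ) (h : Finset T), ∃ u ∈ E, ∀ γ, (γ ∈ fs x n ∨ ∃ y ∈ h, γ ∈ fs y n) →
      |F u γ - F x γ| < 1 / ((n : ℝ) + 1) := by
    intro n h
    let G : Set Γ := fs x n ∪ ⋃ y ∈ h, fs y n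
    have hG : G.Finite := (hfin x n).union (h.finite_toSet.biUnion fun y _ => hfin y n)
    have hop : IsOpen {u : T | ∀ γ ∈ G, |F u γ - F x γ| < 1 / ((n : ℝ) + 1)} := by
      have : {u : T | ∀ γ ∈ G, |F u γ - F x γ| < 1 / ((n : ℝ) + 1)} =
          ⋂ γ ∈ G, {u : T | |F u γ - F x γ| < 1 / ((n : ℝ) + 1)} := by
        ext u; simp
      rw [this]
      refine hG.isOpen_biInter fun γ _ => ?_
      exact isOpen_lt ((((continuous_apply γ).comp hF).sub continuous_const).abs) continuous_const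
    obtain ⟨u, hu1, hu2⟩ := mem_closure_iff.1 hx _ hop (by
      intro γ _
      rw [sub_self, abs_zero]
      positivity)
    refine ⟨u, hu2, fun γ hγ => hu1 γ ?_⟩
    rcases hγ with hγ | ⟨y, hy, hγ⟩
    · exact Or.inl hγ
    · exact Or.inr (mem_biUnion hy hγ)
  choose pick hpE hpick using hpick
  let hist : ℕ → Finset T := fun n => Nat.rec ∅ (fun n h => insert (pick n h) h) n
  let u : ℕ → T := fun n => pick n (hist n)
  have hsucc : ∀ n, hist (n + 1) = insert (u n) (hist n) := fun n => rfl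
  have hmem : ∀ k n, k < n → u k ∈ hist n := by
    intro k n hkn
    induction n with
    | zero => omega
    | succ n ih =>
      rw [hsucc]
      rcases Nat.lt_succ_iff_lt_or_eq.1 hkn with h | h
      · exact Finset.mem_insert_of_mem (ih h)
      · rw [h]; exact Finset.mem_insert_self _ _
  refine ⟨u, fun n => hpE n _, ?_⟩
  have hto : Tendsto (fun n => F (u n)) atTop (𝓝 (F x)) := by
    rw [tendsto_pi_nhds]
    intro γ
    by_cases h1 : ∃ N, ∀ n, N ≤ n → (γ ∈ fs x n ∨ ∃ y ∈ hist n, γ ∈ fs y n)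
    · obtain ⟨N, hN⟩ := h1
      rw [tendsto_iff_dist_tendsto_zero]
      refine squeeze_zero' (Eventually.of_forall fun n => dist_nonneg) ?_
        tendsto_one_div_add_atTop_nhds_zero_nat
      filter_upwards [eventually_ge_atTop N] with n hn
      rw [Real.dist_eq]
      exact (hpick n (hist n) γ (hN n hn)).le
    · have hx0 : F x γ = 0 := by
        by_contra h
        obtain ⟨N, hN⟩ := hcov x γ h
        exact h1 ⟨N, fun n hn => Or.inl (hmono x hn hN)⟩
      have hu0 : ∀ n, F (u n) γ = 0 := by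
        intro k
        by_contra h
        obtain ⟨N, hN⟩ := hcov (u k) γ h
        refine h1 ⟨max N (k + 1), fun n hn => Or.inr ⟨u k, hmem k n ?_, ?_⟩⟩
        · have := le_max_right N (k + 1)
          omega
        · exact hmono (u k) ((le_max_left _ _).trans hn) hN
      rw [hx0]
      exact (tendsto_const_nhds (x := (0 : ℝ))).congr fun n => (hu0 n).symm
  refine tendsto_nhds_of_unique_mapClusterPt fun y hy => ?_
  have hy' : MapClusterPt (F y) atTop (fun n => F (u n)) := hy.continuousAt_comp hF.continuousAt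
  have : F y = F x := by
    by_contra hne
    obtain ⟨U, V, hU, hV, hUy, hVx, hd⟩ := t2_separation hne
    have h1 := (mapClusterPt_iff_frequently.1 hy') U (hU.mem_nhds hUy)
    have h2 := hto.eventually (hV.mem_nhds hVx)
    obtain ⟨n, hn1, hn2⟩ := (h1.and_eventually h2).exists
    exact (disjoint_left.1 hd) hn1 hn2
  have := (hFx y x this).2 (mem_singleton x)
  exact this

/-- the index set for the continuous functions (with a dummy factor) -/
abbrev YY (T : Type) [TopologicalSpace T] : Type := {f : T → ℝ // Continuous f} × ℕ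

/-- evaluation -/
def ev (t : T) (y : YY T) : ℝ := y.1.1 t

omit [CompactSpace T] [T2Space T] in
lemma ev_cont (y : YY T) : Continuous fun t : T => ev t y := y.1.2

lemma exists_Phi (hT : Split T) (M : Set (YY T ⊕ T)) (hM : M.Infinite) :
    ∃ Φ : Set (YY T), #Φ ≤ #M ∧ ∀ p ∈ closure (MT M), ∀ q ∈ closure (MT M),
      (∀ y ∈ Φ, ev p y = ev q y) → p = q := by
  classical
  have hMinf : ℵ₀ ≤ #M := by
    rw [Cardinal.aleph0_le_mk_iff]; exact hM.to_subtype
  have hDM : #(MT M) ≤ #M := by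
    refine Cardinal.mk_le_of_injective (f := fun t : MT M => (⟨Sum.inr t.1, t.2⟩ : M)) ?_
    intro a b hab
    have := congrArg Subtype.val hab
    exact Subtype.ext (Sum.inr_injective this)
  -- injection of the closure into `Set M`
  have hseq : ∀ x : closure (MT M), ∃ u : ℕ → MT M,
      Tendsto (fun n => (u n : T)) atTop (𝓝 (x : T)) := by
    intro x
    obtain ⟨u, hu1, hu2⟩ := exists_seq hT x.2
    exact ⟨fun n => ⟨u n, hu1 n⟩, hu2⟩
  choose u hu using hseq
  have huinj : Function.Injective u := by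
    intro x y hxy
    apply Subtype.ext
    exact tendsto_nhds_unique (hu x) (by rw [hxy]; exact hu y)
  have hcard : #(closure (MT M)) ≤ #(Set M) := by
    calc #(closure (MT M)) ≤ #(ℕ → MT M) := mk_le_of_injective huinj
      _ = #(MT M) ^ ℵ₀ := by simp
      _ ≤ (2 ^ #M) ^ ℵ₀ := Cardinal.power_le_power_right (hDM.trans (Cardinal.cantor _).le)
      _ = 2 ^ (#M * ℵ₀) := by rw [Cardinal.power_mul]
      _ = 2 ^ #M := by rw [Cardinal.mul_aleph0_eq hMinf]
      _ = #(Set M) := by rw [Cardinal.mk_set]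
  obtain ⟨ι⟩ := Cardinal.le_def _ _ |>.1 hcard
  -- the split functions
  choose Γ F hF hFs hFA using fun z : M => hT {x : T | ∃ h : x ∈ closure (MT M), z ∈ ι ⟨x, h⟩}
  let Φ : Set (YY T) := ⋃ z : M, ⋃ d : MT M, (fun γ : Γ z =>
    ((⟨fun t => F z t γ, (continuous_apply γ).comp (hF z)⟩, 0) : YY T)) '' Function.support (F z d.1)
  refine ⟨Φ, ?_, ?_⟩
  · have h1 : ∀ z : M, ∀ d : MT M, #↥((fun γ : Γ z =>
      ((⟨fun t => F z t γ, (continuous_apply γ).comp (hF z)⟩, 0) : YY T)) ''
        Function.support (F z d.1)) ≤ ℵ₀ := fun z d =>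
      Cardinal.le_aleph0_iff_set_countable.2 ((hFs z d.1).image _)
    have h2 : ∀ z : M, #↥(⋃ d : MT M, (fun γ : Γ z =>
      ((⟨fun t => F z t γ, (continuous_apply γ).comp (hF z)⟩, 0) : YY T)) ''
        Function.support (F z d.1)) ≤ #M := by
      intro z
      refine (mk_iUnion_le _).trans ?_
      calc #(MT M) * ⨆ d : MT M, #↥((fun γ : Γ z =>
            ((⟨fun t => F z t γ, (continuous_apply γ).comp (hF z)⟩, 0) : YY T)) ''
            Function.support (F z d.1)) ≤ #M * ℵ₀ := by
            gcongr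
            exact ciSup_le' fun d => h1 z d
        _ = #M := Cardinal.mul_aleph0_eq hMinf
    refine (mk_iUnion_le _).trans ?_
    calc #M * ⨆ z : M, #↥(⋃ d : MT M, (fun γ : Γ z =>
      ((⟨fun t => F z t γ, (continuous_apply γ).comp (hF z)⟩, 0) : YY T)) ''
        Function.support (F z d.1)) ≤ #M * #M := by
            gcongr
            exact ciSup_le' fun z => h2 z
      _ = #M := Cardinal.mul_eq_self hMinf
  · intro p hp q hq hpq
    by_contra hne
    have hι : ι ⟨p, hp⟩ ≠ ι ⟨q, hq⟩ := fun h => hne (congrArg Subtype.val (ι.injective h))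
    have hz : ∃ z : M, ¬ (z ∈ ι ⟨p, hp⟩ ↔ z ∈ ι ⟨q, hq⟩) := by
      by_contra hcon
      push Not at hcon
      exact hι (Set.ext hcon)
    obtain ⟨z, hz⟩ := hz
    have hFne : F z p ≠ F z q := by
      intro h
      have := hFA z p q h
      apply hz
      constructor
      · intro hzp
        obtain ⟨_, h'⟩ := this.1 ⟨hp, hzp⟩
        exact h'
      · intro hzq
        obtain ⟨_, h'⟩ := this.2 ⟨hq, hzq⟩
        exact h'
    obtain ⟨γ, hγ⟩ := Function.ne_iff.1 hFne
    have hd : ∃ d ∈ MT M, F z d γ ≠ 0 := by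
      by_contra hcon
      push Not at hcon
      have hzero : ∀ x ∈ closure (MT M), F z x γ = 0 := by
        intro x hx
        exact closure_minimal (s := MT M) (t := {x | F z x γ = 0}) hcon
          (isClosed_eq ((continuous_apply γ).comp (hF z)) continuous_const) hx
      rw [hzero p hp, hzero q hq] at hγ
      exact hγ rfl
    obtain ⟨d, hd1, hd2⟩ := hd
    apply hγ
    exact hpq (⟨fun t => F z t γ, (continuous_apply γ).comp (hF z)⟩, 0)
      (mem_iUnion.2 ⟨z, mem_iUnion.2 ⟨⟨d, hd1⟩, ⟨γ, hd2, rfl⟩⟩⟩)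

end Pool.Agent.Helpers29.Sp
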