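import Mathlib
import Pool.Agent.Helpers29.Sp1

set_option autoImplicit false

namespace Pool.Agent.Helpers29.Sp

open Set Filter Topology Cardinal Pool.Agent.Helpers29.Corson

variable {T : Type} [TopologicalSpace T] [CompactSpace T] [T2Space T]

/-- all pairs of points of the closure are separated -/
def Sep (M : Set (YY T ⊕ T)) : Prop :=
  ∀ p ∈ closure (MT M), ∀ q ∈ closure (MT M), Ag ev M p q → p = q

/-- closed under the density operation -/
abbrev DC (M : Set (YY T ⊕ T)) : Prop := Cld (dop (ev (T := T)) univ) M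

/-- a point-countable (on the closure) separating family -/
def Good1 (M : Set (YY T ⊕ T)) : Prop :=
  ∃ (I : Type) (h : I → T → ℝ), (∀ i, Continuous (h i)) ∧
    (∀ f ∈ closure (MT M), {i | h i f ≠ 0}.Countable) ∧
    ∀ p ∈ closure (MT M), ∀ q ∈ closure (MT M), (∀ i, h i p = h i q) → p = q

lemma exists_dns {M : Set (YY T ⊕ T)} (hM : DC M) (p : T) :
    ∃ q ∈ closure (MT M), Ag ev M q p := by
  obtain ⟨q, hq1, hq2⟩ := density (fun y => ev_cont y) hM (p := p) (by simp)
  exact ⟨q, by simpa using hq1, hq2⟩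

omit [CompactSpace T] [T2Space T] [TopologicalSpace T] in
/-- directed unions of closed sets are closed -/
lemma cld_directed {Z : Type} {Sk : Finset Z → Set Z} {I : Type} [Nonempty I] (N : I → Set Z)
    (hdir : ∀ i j, ∃ k, N i ⊆ N k ∧ N j ⊆ N k) (h : ∀ i, Cld Sk (N i)) : Cld Sk (⋃ i, N i) := by
  classical
  intro t ht
  have hk : ∃ k, (↑t : Set Z) ⊆ N k := by
    induction t using Finset.induction_on with
    | empty =>
      obtain ⟨i⟩ := (inferInstance : Nonempty I)
      exact ⟨i, by simp⟩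
    | insert x t hx ih =>
      obtain ⟨k, hk⟩ := ih (fun z hz => ht (by simp only [Finset.coe_insert]; exact Or.inr hz))
      obtain ⟨k', hk'⟩ := mem_iUnion.1 (ht (show x ∈ (↑(insert x t) : Set Z) by simp))
      obtain ⟨l, hl, hl'⟩ := hdir k k'
      refine ⟨l, ?_⟩
      intro z hz
      simp only [Finset.coe_insert, mem_insert_iff] at hz
      rcases hz with rfl | hz
      · exact hl' hk'
      · exact hl (hk hz)
  obtain ⟨k, hk⟩ := hk
  exact (h k t hk).trans (subset_iUnion N k)

/-- the retraction -/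
lemma exists_retr {M : Set (YY T ⊕ T)} (hM : DC M) (hS : Sep M) :
    ∃ r : T → T, Continuous r ∧ (∀ p, r p ∈ closure (MT M)) ∧ ∀ p, Ag ev M (r p) p := by
  choose r hr1 hr2 using exists_dns hM
  refine ⟨r, ?_, hr1, hr2⟩
  let C : Set T := closure (MT M)
  have hC : CompactSpace C := isCompact_iff_compactSpace.1 isClosed_closure.isCompact
  let ρ : T → (MY M → ℝ) := fun t y => ev t y
  have hρ : Continuous ρ := continuous_pi fun y => ev_cont _
  let ρC : C → (MY M → ℝ) := fun t => ρ t
  have hρC : Continuous ρC := hρ.comp continuous_subtype_val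
  have hinj : Function.Injective ρC := by
    intro a b hab
    apply Subtype.ext
    exact hS a.1 a.2 b.1 b.2 (fun y hy => congrFun hab ⟨y, hy⟩)
  have hemb : IsEmbedding ρC := (hρC.isClosedEmbedding hinj).isEmbedding
  let rC : T → C := fun t => ⟨r t, hr1 t⟩
  have hrC : Continuous rC := by
    rw [hemb.continuous_iff]
    have : ρC ∘ rC = ρ := by
      ext t y
      exact hr2 t y y.2
    rw [this]
    exact hρ
  exact continuous_subtype_val.comp hrC

omit [CompactSpace T] [T2Space T] in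
lemma retr_unique {M : Set (YY T ⊕ T)} (hS : Sep M) {r : T → T}
    (hr1 : ∀ p, r p ∈ closure (MT M)) (hr2 : ∀ p, Ag ev M (r p) p) {p q : T}
    (hq : q ∈ closure (MT M)) (h : Ag ev M q p) : q = r p :=
  hS q hq (r p) (hr1 p) (fun y hy => (h y hy).trans (hr2 p y hy).symm)

section glue

variable {J : Type} [LinearOrder J] [WellFoundedLT J]

omit [CompactSpace T] [T2Space T] [WellFoundedLT J] in
/-- the union of the previous pieces -/
def prev (N : J → Set (YY T ⊕ T)) (a0 a : J) : Set (YY T ⊕ T) := N a0 ∪ ⋃ b : Iio a, N b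

omit [CompactSpace T] [T2Space T] [WellFoundedLT J] in
lemma prev_subset {N : J → Set (YY T ⊕ T)} (hN : Monotone N) {a0 : J} (ha0 : ∀ a, a0 ≤ a) (a : J) :
    prev N a0 a ⊆ N a := by
  refine union_subset (hN (ha0 a)) ?_
  exact iUnion_subset fun b => hN (le_of_lt b.2)

omit [CompactSpace T] [T2Space T] [WellFoundedLT J] in
lemma prev_DC {N : J → Set (YY T ⊕ T)} (hN : Monotone N) (hD : ∀ a, DC (N a)) {a0 : J}
    (ha0 : ∀ a, a0 ≤ a) (a : J) : DC (prev N a0 a) := by
  have : prev N a0 a = ⋃ o : Option (Iio a), (o.elim (N a0) (fun b => N b)) := by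
    ext z
    simp only [prev, mem_union, mem_iUnion]
    constructor
    · rintro (h | ⟨b, hb⟩)
      · exact ⟨none, h⟩
      · exact ⟨some b, hb⟩
    · rintro ⟨(_ | b), hb⟩
      · exact Or.inl hb
      · exact Or.inr ⟨b, hb⟩
  rw [this]
  apply cld_directed
  · rintro (_ | b) (_ | c)
    · exact ⟨none, le_rfl, le_rfl⟩
    · exact ⟨some c, hN (ha0 c), le_rfl⟩
    · exact ⟨some b, le_rfl, hN (ha0 b)⟩
    · rcases le_total (b : J) c with h | h
      · exact ⟨some c, hN h, le_rfl⟩
      · exact ⟨some b, le_rfl, hN h⟩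
  · rintro (_ | b)
    · exact hD a0
    · exact hD b

lemma jumps (hT : Split T) {N : J → Set (YY T ⊕ T)} (hN : Monotone N) (hD : ∀ a, DC (N a))
    (hS : ∀ a, Sep (N a)) {a0 : J} (ha0 : ∀ a, a0 ≤ a) (hS0 : ∀ a, Sep (prev N a0 a))
    (r r' : J → T → T)
    (hr1 : ∀ a p, r a p ∈ closure (MT (prev N a0 a))) (hr2 : ∀ a p, Ag ev (prev N a0 a) (r a p) p)
    (hr1' : ∀ a p, r' a p ∈ closure (MT (N a))) (hr2' : ∀ a p, Ag ev (N a) (r' a p) p) (f : T) :
    {a | r' a f ≠ r a f}.Countable := by
  by_contra hunc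
  obtain ⟨B, hBsub, hBunc, hBinit⟩ := exists_omega_one hunc
  have hBne : B.Nonempty := by
    by_contra h
    rw [not_nonempty_iff_eq_empty] at h
    exact hBunc (h ▸ countable_empty)
  have hBne' : Nonempty B := hBne.to_subtype
  let NB : Set (YY T ⊕ T) := ⋃ b : B, N b
  have hNB : DC NB := by
    apply cld_directed
    · intro b c
      rcases le_total (b : J) c with h | h
      · exact ⟨c, hN h, le_rfl⟩
      · exact ⟨b, le_rfl, hN h⟩
    · intro b
      exact hD b
  obtain ⟨q, hq1, hq2⟩ := exists_dns hNB f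
  obtain ⟨u, hu1, hu2⟩ := exists_seq hT hq1
  have hcap : ∀ n, ∃ b : B, Sum.inr (u n) ∈ N b := fun n => mem_iUnion.1 (hu1 n)
  choose β hβ using hcap
  have hbound : ∃ b ∈ B, ∀ n, (β n : J) < b := by
    by_contra hcon
    push Not at hcon
    apply hBunc
    have : B ⊆ ⋃ n, {b ∈ B | b ≤ β n} := by
      intro b hb
      obtain ⟨n, hbn⟩ := hcon b hb
      exact mem_iUnion.2 ⟨n, hb, hbn⟩
    exact (countable_iUnion fun n => hBinit (β n) (β n).2).mono this
  obtain ⟨b, hbB, hb⟩ := hbound
  have hq3 : q ∈ closure (MT (prev N a0 b)) := by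
    refine mem_closure_of_tendsto hu2 (Eventually.of_forall fun n => ?_)
    exact Or.inr (mem_iUnion.2 ⟨⟨β n, hb n⟩, hβ n⟩)
  have hq4 : q ∈ closure (MT (N b)) := closure_mono (MT_mono (prev_subset hN ha0 b)) hq3
  have hsub : N b ⊆ NB := fun z hz => mem_iUnion.2 ⟨⟨b, hbB⟩, hz⟩
  have e1 : q = r b f := retr_unique (hS0 b) (hr1 b) (hr2 b) hq3
    (hq2.mono ((prev_subset hN ha0 b).trans hsub))
  have e2 : q = r' b f := retr_unique (hS b) (hr1' b) (hr2' b) hq4 (hq2.mono hsub)
  exact hBsub hbB (e2.symm.trans e1)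

/-- the gluing lemma -/
lemma glue (hT : Split T) {N : J → Set (YY T ⊕ T)} (hN : Monotone N) (hD : ∀ a, DC (N a))
    (hS : ∀ a, Sep (N a)) {a0 : J} (ha0 : ∀ a, a0 ≤ a) (hS0 : ∀ a, Sep (prev N a0 a))
    (hSU : Sep (⋃ a, N a)) (ih : ∀ a, Good1 (N a)) : Good1 (⋃ a, N a) := by
  choose r rc hr1 hr2 using fun a : J => exists_retr (prev_DC hN hD ha0 a) (hS0 a)
  choose r' rc' hr1' hr2' using fun a : J => exists_retr (hD a) (hS a)
  have hj := jumps hT hN hD hS ha0 hS0 r r' hr1 hr2 hr1' hr2'
  unfold Good1 at ih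
  choose I h hc hs hsep using ih
  have hprev : ∀ a p, r a p ∈ closure (MT (N a)) := fun a p =>
    closure_mono (MT_mono (prev_subset hN ha0 a)) (hr1 a p)
  refine ⟨I a0 ⊕ (Σ a, I a), Sum.elim (fun i f => h a0 i (r' a0 f))
    (fun x f => h x.1 x.2 (r' x.1 f) - h x.1 x.2 (r x.1 f)), ?_, ?_, ?_⟩
  · rintro (i | x)
    · exact (hc a0 i).comp (rc' a0)
    · exact ((hc x.1 x.2).comp (rc' x.1)).sub ((hc x.1 x.2).comp (rc x.1))
  · intro f _
    have h1 : (Sum.inl '' {i | h a0 i (r' a0 f) ≠ 0} : Set (I a0 ⊕ (Σ a, I a))).Countable :=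
      (hs a0 _ (hr1' a0 f)).image _
    have h2 : (Sum.inr '' (⋃ a ∈ {a | r' a f ≠ r a f},
        (Sigma.mk a) '' ({i | h a i (r' a f) ≠ 0} ∪ {i | h a i (r a f) ≠ 0})) :
          Set (I a0 ⊕ (Σ a, I a))).Countable :=
      ((hj f).biUnion fun a _ => ((hs a _ (hr1' a f)).union (hs a _ (hprev a f))).image _).image _
    refine (h1.union h2).mono ?_
    rintro (i | ⟨a, i⟩) hi
    · exact Or.inl ⟨i, hi, rfl⟩
    · right
      refine ⟨⟨a, i⟩, ?_, rfl⟩
      have hi' : h a i (r' a f) - h a i (r a f) ≠ 0 := hi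
      refine mem_biUnion (x := a) ?_ ⟨i, ?_, rfl⟩
      · intro heq
        rw [heq, sub_self] at hi'
        exact hi' rfl
      · by_contra hcon
        simp only [mem_union, mem_ofPred_eq, not_or, not_not] at hcon
        rw [hcon.1, hcon.2, sub_self] at hi'
        exact hi' rfl
  · intro p hp q hq hpq
    have hinl : ∀ i, h a0 i (r' a0 p) = h a0 i (r' a0 q) := fun i => hpq (Sum.inl i)
    have hinr : ∀ a i, h a i (r' a p) - h a i (r a p) = h a i (r' a q) - h a i (r a q) :=
      fun a i => hpq (Sum.inr ⟨a, i⟩)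
    have hag0 : Ag ev (N a0) p q := by
      have := hsep a0 _ (hr1' a0 p) _ (hr1' a0 q) hinl
      intro y hy
      rw [← hr2' a0 p y hy, ← hr2' a0 q y hy, this]
    have hag : ∀ a, Ag ev (N a) p q := by
      intro a
      induction a using WellFoundedLT.induction with
      | ind a iha =>
        have hlow : Ag ev (prev N a0 a) p q := by
          intro y hy
          rcases hy with hy | hy
          · exact hag0 y hy
          · obtain ⟨b, hb⟩ := mem_iUnion.1 hy
            exact iha b b.2 y hb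
        have h1 : r a p = r a q := by
          refine retr_unique (hS0 a) (hr1 a) (hr2 a) (hr1 a p) ?_
          intro y hy
          rw [hr2 a p y hy, hlow y hy]
        have h2 : ∀ i, h a i (r' a p) = h a i (r' a q) := by
          intro i
          have := hinr a i
          rw [h1] at this
          linarith
        have h3 := hsep a _ (hr1' a p) _ (hr1' a q) h2
        intro y hy
        rw [← hr2' a p y hy, ← hr2' a q y hy, h3]
    refine hSU p hp q hq ?_
    intro y hy
    obtain ⟨a, ha⟩ := mem_iUnion.1 hy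
    exact hag a y ha

end glue

end Pool.Agent.Helpers29.Sp
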