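import Mathlib
import Pool.Agent.Helpers29.Sp2

set_option autoImplicit false

namespace Pool.Agent.Helpers29.Sp

open Set Filter Topology Cardinal Pool.Agent.Helpers29.Corson

/-- colouring lemma -/
lemma coloring {J X : Type} [LinearOrder J] [WellFoundedLT J] (B : Set J) (P Q : J → X)
    (hne : ∀ a ∈ B, P a ≠ Q a)
    (hnew : ∀ a ∈ B, ¬ ((∃ b ∈ B, b < a ∧ (P b = P a ∨ Q b = P a)) ∧
      (∃ b ∈ B, b < a ∧ (P b = Q a ∨ Q b = Q a)))) :
    ∃ A : Set X, ∀ a ∈ B, ¬ (P a ∈ A ↔ Q a ∈ A) := by
  classical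
  let old : X → J → Prop := fun x a => ∃ b ∈ B, b < a ∧ (P b = x ∨ Q b = x)
  let n : J → X := fun a => if old (Q a) a then P a else Q a
  let o : J → X := fun a => if old (Q a) a then Q a else P a
  have hn : ∀ a ∈ B, ¬ old (n a) a := by
    intro a ha
    by_cases h : old (Q a) a
    · have : n a = P a := if_pos h
      rw [this]
      exact fun h' => hnew a ha ⟨h', h⟩
    · have : n a = Q a := if_neg h
      rw [this]
      exact h
  have hno : ∀ a ∈ B, n a ≠ o a := by
    intro a ha
    by_cases h : old (Q a) a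
    · simp only [n, o, h, if_true]
      exact hne a ha
    · simp only [n, o, h, if_false]
      exact (hne a ha).symm
  have hold : ∀ b ∈ B, ∀ a, b < a → old (n b) a ∧ old (o b) a := by
    intro b hb a hba
    by_cases h : old (Q b) b
    · simp only [n, o, h, if_true]
      exact ⟨⟨b, hb, hba, Or.inl rfl⟩, ⟨b, hb, hba, Or.inr rfl⟩⟩
    · simp only [n, o, h, if_false]
      exact ⟨⟨b, hb, hba, Or.inr rfl⟩, ⟨b, hb, hba, Or.inl rfl⟩⟩
  let c : J → Prop := WellFoundedLT.fix fun a ih => ¬ ∃ b, ∃ h : b < a, b ∈ B ∧ n b = o a ∧ ih b h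
  have hc' : ∀ a, c a = ¬ ∃ b, ∃ _ : b < a, b ∈ B ∧ n b = o a ∧ c b := fun a =>
    WellFoundedLT.fix_eq _ a
  have hc : ∀ a, c a ↔ ¬ ∃ b, ∃ _ : b < a, b ∈ B ∧ n b = o a ∧ c b := fun a => iff_of_eq (hc' a)
  let A : Set X := {x | ∃ a ∈ B, n a = x ∧ c a}
  have hnA : ∀ a ∈ B, (n a ∈ A ↔ c a) := by
    intro a ha
    constructor
    · rintro ⟨b, hb, hba, hcb⟩
      rcases lt_trichotomy a b with h | h | h
      · exact absurd (hold a ha b h).1 (by rw [← hba]; exact hn b hb)
      · rw [h]; exact hcb
      · exact absurd (hold b hb a h).1 (by rw [hba]; exact hn a ha)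
    · intro h
      exact ⟨a, ha, rfl, h⟩
  have hoA : ∀ a ∈ B, (o a ∈ A ↔ ¬ c a) := by
    intro a ha
    rw [hc a, not_not]
    constructor
    · rintro ⟨b, hb, hba, hcb⟩
      rcases lt_trichotomy a b with h | h | h
      · exact absurd (hold a ha b h).2 (by rw [← hba]; exact hn b hb)
      · subst h
        exact absurd hba (hno a ha)
      · exact ⟨b, h, hb, hba, hcb⟩
    · rintro ⟨b, hlt, hb, hba, hcb⟩
      exact ⟨b, hb, hba, hcb⟩
  refine ⟨A, fun a ha h => ?_⟩
  have h1 := hnA a ha
  have h2 := hoA a ha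
  by_cases h' : old (Q a) a
  · simp only [n, o, h', if_true] at h1 h2
    rw [h1, h2] at h
    tauto
  · simp only [n, o, h', if_false] at h1 h2
    rw [h1, h2] at h
    tauto

lemma bounded_of_lt {J : Type} [LinearOrder J] {S : Set J} (h : #S < Order.cof J) :
    ∃ b, ∀ s ∈ S, s < b := by
  have : ¬ IsCofinal S := fun hc => absurd (Order.cof_le hc) (not_le.2 h)
  unfold IsCofinal at this
  push Not at this
  exact this

variable {T : Type} [TopologicalSpace T] [CompactSpace T] [T2Space T]

/-- a fixed countable infinite set of indices -/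
def S0 (T : Type) [TopologicalSpace T] : Set (YY T ⊕ T) :=
  range fun n : ℕ => Sum.inl ((⟨fun _ => 0, continuous_const⟩, n) : YY T)

omit [CompactSpace T] [T2Space T] in
lemma S0_infinite : (S0 T).Infinite := by
  apply infinite_range_of_injective
  intro n m h
  have := Sum.inl_injective h
  exact congrArg Prod.snd this

omit [CompactSpace T] [T2Space T] in
lemma S0_countable : (S0 T).Countable := countable_range _

open Classical in
/-- separating families -/
noncomputable def Phi (hT : Split T) (M : Set (YY T ⊕ T)) : Set (YY T) :=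
  if h : M.Infinite then (exists_Phi hT M h).choose else ∅

lemma Phi_card (hT : Split T) {M : Set (YY T ⊕ T)} (hM : M.Infinite) : #(Phi hT M) ≤ #M := by
  unfold Phi
  rw [dif_pos hM]
  exact (exists_Phi hT M hM).choose_spec.1

lemma Phi_sep (hT : Split T) {M : Set (YY T ⊕ T)} (hM : M.Infinite) :
    ∀ p ∈ closure (MT M), ∀ q ∈ closure (MT M), (∀ y ∈ Phi hT M, ev p y = ev q y) → p = q := by
  unfold Phi
  rw [dif_pos hM]
  exact (exists_Phi hT M hM).choose_spec.2

/-- the density operation -/
noncomputable abbrev Op (T : Type) [TopologicalSpace T] : Finset (YY T ⊕ T) → Set (YY T ⊕ T) :=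
  dop (ev (T := T)) univ

omit [CompactSpace T] [T2Space T] in
lemma Op_countable (t : Finset (YY T ⊕ T)) : (Op T t).Countable := dop_countable _ _ _

section chain

variable {J : Type} [LinearOrder J] [WellFoundedLT J]

/-- the chain of the regular case -/
noncomputable def chain (hT : Split T) (z : J → YY T ⊕ T) : J → Set (YY T ⊕ T) :=
  WellFoundedLT.fix fun a ih => hull (Op T) (S0 T ∪ ⋃ b : Iio a,
    (ih b.1 b.2 ∪ Sum.inl '' Phi hT (ih b.1 b.2) ∪ {z b.1}))

lemma chain_eq (hT : Split T) (z : J → YY T ⊕ T) (a : J) :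
    chain hT z a = hull (Op T) (S0 T ∪ ⋃ b : Iio a,
      (chain hT z b.1 ∪ Sum.inl '' Phi hT (chain hT z b.1) ∪ {z b.1})) := by
  conv_lhs => unfold chain
  rw [WellFoundedLT.fix_eq]
  rfl

lemma chain_DC (hT : Split T) (z : J → YY T ⊕ T) (a : J) : DC (chain hT z a) := by
  rw [chain_eq]
  exact hull_cld _ _

lemma chain_infinite (hT : Split T) (z : J → YY T ⊕ T) (a : J) : (chain hT z a).Infinite := by
  rw [chain_eq]
  exact S0_infinite.mono (subset_union_left.trans (subset_hull _ _))

lemma S0_sub_chain (hT : Split T) (z : J → YY T ⊕ T) (a : J) : S0 T ⊆ chain hT z a := by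
  rw [chain_eq]
  exact subset_union_left.trans (subset_hull _ _)

lemma chain_sub (hT : Split T) (z : J → YY T ⊕ T) {a b : J} (h : b < a) :
    chain hT z b ∪ Sum.inl '' Phi hT (chain hT z b) ∪ {z b} ⊆ chain hT z a := by
  rw [chain_eq hT z a]
  refine Subset.trans ?_ (subset_hull _ _)
  refine Subset.trans ?_ subset_union_right
  exact subset_iUnion (fun b : Iio a =>
    (chain hT z b.1 ∪ Sum.inl '' Phi hT (chain hT z b.1) ∪ {z b.1})) ⟨b, h⟩

lemma chain_mono (hT : Split T) (z : J → YY T ⊕ T) : Monotone (chain hT z) := by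
  intro a b hab
  rcases lt_or_eq_of_le hab with h | h
  · exact (subset_union_left.trans subset_union_left).trans (chain_sub hT z h)
  · rw [h]

lemma chain_sep (hT : Split T) (z : J → YY T ⊕ T) {a b : J} (h : b < a) {p q : T}
    (hp : p ∈ closure (MT (chain hT z b))) (hq : q ∈ closure (MT (chain hT z b)))
    (hpq : Ag ev (chain hT z a) p q) : p = q := by
  apply Phi_sep hT (chain_infinite hT z b) p hp q hq
  intro y hy
  apply hpq
  exact chain_sub hT z h (Or.inl (Or.inr ⟨y, hy, rfl⟩))

lemma chain_cont (hT : Split T) (z : J → YY T ⊕ T) {s : J} {S : Set J} (hS : ∀ c ∈ S, c < s)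
    (hne : S.Nonempty) (hcof : ∀ b < s, ∃ c ∈ S, b < c) :
    chain hT z s = ⋃ c : S, chain hT z c := by
  have hne' : Nonempty S := hne.to_subtype
  apply Subset.antisymm
  · conv_lhs => rw [chain_eq]
    refine hull_min ?_ ?_
    · refine union_subset ?_ ?_
      · obtain ⟨c⟩ := hne'
        exact (S0_sub_chain hT z (c : J)).trans (subset_iUnion (fun c : S => chain hT z c) c)
      · refine iUnion_subset fun b => ?_
        obtain ⟨c, hc, hbc⟩ := hcof b b.2
        exact (chain_sub hT z hbc).trans (subset_iUnion (fun c : S => chain hT z c) ⟨c, hc⟩)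
    · apply cld_directed
      · intro c d
        rcases le_total (c : J) d with h | h
        · exact ⟨d, chain_mono hT z h, le_rfl⟩
        · exact ⟨c, le_rfl, chain_mono hT z h⟩
      · intro c
        exact chain_DC hT z c
  · exact iUnion_subset fun c => chain_mono hT z (hS c c.2).le

lemma chain_card (hT : Split T) (z : J → YY T ⊕ T) (a : J) :
    #(chain hT z a) ≤ max ℵ₀ #(Iio a) := by
  induction a using WellFoundedLT.induction with
  | ind a ih =>
    rw [chain_eq]
    refine (card_hull Op_countable _).trans (max_le (le_max_left _ _) ?_)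
    have hb : ∀ b : Iio a, #(chain hT z b.1) ≤ max ℵ₀ #(Iio a) := fun b =>
      (ih b.1 b.2).trans (max_le_max le_rfl (mk_le_mk_of_subset (Iio_subset_Iio (le_of_lt b.2))))
    have h1 : ∀ b : Iio a, #↥(chain hT z b.1 ∪ Sum.inl '' Phi hT (chain hT z b.1) ∪ {z b.1}) ≤
        max ℵ₀ #(Iio a) := by
      intro b
      refine (mk_union_le _ _).trans ?_
      refine (add_le_add ((mk_union_le _ _).trans (add_le_add (hb b)
        (mk_image_le.trans ((Phi_card hT (chain_infinite hT z b.1)).trans (hb b)))))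
          (show #({z b.1} : Set (YY T ⊕ T)) ≤ max ℵ₀ #(Iio a) from ?_)).trans ?_
      · rw [mk_singleton]
        exact one_le_aleph0.trans (le_max_left _ _)
      · rw [add_eq_self (le_max_left _ _), add_eq_self (le_max_left _ _)]
    refine (mk_union_le _ _).trans ?_
    refine (add_le_add (S0_countable.le_aleph0.trans (le_max_left _ _)) ((mk_iUnion_le _).trans
      (show #(Iio a) * ⨆ b : Iio a, #↥(chain hT z b.1 ∪ Sum.inl '' Phi hT (chain hT z b.1) ∪
        {z b.1}) ≤ max ℵ₀ #(Iio a) from ?_))).trans (add_eq_self (le_max_left _ _)).le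
    calc #(Iio a) * ⨆ b : Iio a, #↥(chain hT z b.1 ∪ Sum.inl '' Phi hT (chain hT z b.1) ∪
        {z b.1}) ≤ max ℵ₀ #(Iio a) * max ℵ₀ #(Iio a) := by
          gcongr
          · exact le_max_right _ _
          · exact ciSup_le' h1
      _ = max ℵ₀ #(Iio a) := mul_eq_self (le_max_left _ _)

end chain

end Pool.Agent.Helpers29.Sp
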