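import Mathlib
import Pool.Agent.Helpers29.Sp3

set_option autoImplicit false

namespace Pool.Agent.Helpers29.Sp

open Set Filter Topology Cardinal Pool.Agent.Helpers29.Corson

variable {T : Type} [TopologicalSpace T] [CompactSpace T] [T2Space T]

omit [CompactSpace T] [T2Space T] in
lemma Good1.mono {M M' : Set (YY T ⊕ T)} (h : MT M ⊆ MT M') (hg : Good1 M') : Good1 M := by
  obtain ⟨I, f, hc, hs, hsep⟩ := hg
  have hcl := closure_mono h
  exact ⟨I, f, hc, fun x hx => hs x (hcl hx), fun p hp q hq => hsep p (hcl hp) q (hcl hq)⟩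

omit [CompactSpace T] [T2Space T] in
lemma good1_of_isEmpty (h : IsEmpty T) (M : Set (YY T ⊕ T)) : Good1 M :=
  ⟨Empty, fun i => i.elim, fun i => i.elim, fun f => h.elim f, fun p => h.elim p⟩

lemma regular_step (hT : Split T) (κ : Cardinal.{0}) (hunc : ℵ₀ < κ) (hreg : κ.ord.cof = κ)
    (M : Set (YY T ⊕ T)) (hM : #M = κ) (ih : ∀ M' : Set (YY T ⊕ T), #M' < κ → Good1 M') :
    Good1 M := by
  classical
  by_cases hTne : IsEmpty T
  · exact good1_of_isEmpty hTne M
  rw [not_isEmpty_iff] at hTne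
  let J := κ.ord.ToType
  have hcofJ : Order.cof J = κ := by rw [Ordinal.cof_toType, hreg]
  have hJM : #J = #M := by rw [mk_ord_toType, hM]
  obtain ⟨g⟩ := Cardinal.eq.1 hJM
  let z : J → YY T ⊕ T := fun a => (g a : YY T ⊕ T)
  let N : J → Set (YY T ⊕ T) := chain hT z
  let U : Set (YY T ⊕ T) := ⋃ a, N a
  have hNmono : Monotone N := chain_mono hT z
  have hcount : ∀ u : ℕ → J, ∃ b, ∀ n, u n < b := by
    intro u
    obtain ⟨b, hb⟩ := bounded_of_lt (S := range u) (by
      rw [hcofJ]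
      exact lt_of_le_of_lt (Cardinal.le_aleph0_iff_set_countable.2 (countable_range u)) hunc)
    exact ⟨b, fun n => hb _ ⟨n, rfl⟩⟩
  have hnomax : ∀ a : J, ∃ b, a < b := fun a => by
    obtain ⟨b, hb⟩ := hcount fun _ => a
    exact ⟨b, hb 0⟩
  have hNcard : ∀ a, #(N a) < κ := fun a =>
    lt_of_le_of_lt (chain_card hT z a) (max_lt hunc (mk_Iio_toType_ord_lt a))
  have hMU : M ⊆ U := by
    intro x hx
    obtain ⟨b, hb⟩ := hnomax (g.symm ⟨x, hx⟩)
    refine mem_iUnion.2 ⟨b, chain_sub hT z hb (Or.inr ?_)⟩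
    simp [z]
  have hclU : ∀ p ∈ closure (MT U), ∃ a, p ∈ closure (MT (N a)) := by
    intro p hp
    obtain ⟨u, hu1, hu2⟩ := exists_seq hT hp
    have : ∀ n, ∃ a, Sum.inr (u n) ∈ N a := fun n => mem_iUnion.1 (hu1 n)
    choose β hβ using this
    obtain ⟨b, hb⟩ := hcount β
    exact ⟨b, mem_closure_of_tendsto hu2 (Eventually.of_forall fun n => hNmono (hb n).le (hβ n))⟩
  have hSU : Sep U := by
    intro p hp q hq hpq
    obtain ⟨a, ha⟩ := hclU p hp
    obtain ⟨b, hb⟩ := hclU q hq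
    obtain ⟨c, hc⟩ := hnomax (max a b)
    refine chain_sep hT z hc (closure_mono (MT_mono (hNmono (le_max_left a b))) ha)
      (closure_mono (MT_mono (hNmono (le_max_right a b))) hb) ?_
    exact hpq.mono (subset_iUnion N c)
  -- bad pairs
  let B : Set J := {a | ¬ Sep (N a)}
  have hbad : ∀ a ∈ B, ∃ p q : T, p ∈ closure (MT (N a)) ∧ q ∈ closure (MT (N a)) ∧
      Ag ev (N a) p q ∧ p ≠ q := by
    intro a ha
    have ha' : ¬ Sep (N a) := ha
    unfold Sep at ha'
    push Not at ha'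
    obtain ⟨p, hp, q, hq, h1, h2⟩ := ha'
    exact ⟨p, q, hp, hq, h1, h2⟩
  choose! P Q hP hQ hPQ hne using hbad
  obtain ⟨A, hA⟩ := coloring B P Q hne (by
    rintro a ha ⟨⟨b, hb, hba, hb'⟩, ⟨c, hc, hca, hc'⟩⟩
    apply hne a ha
    have h1 : P a ∈ closure (MT (N b)) := by
      rcases hb' with h | h
      · rw [← h]; exact hP b hb
      · rw [← h]; exact hQ b hb
    have h2 : Q a ∈ closure (MT (N c)) := by
      rcases hc' with h | h
      · rw [← h]; exact hP c hc
      · rw [← h]; exact hQ c hc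
    exact chain_sep hT z (max_lt hba hca) (closure_mono (MT_mono (hNmono (le_max_left b c))) h1)
      (closure_mono (MT_mono (hNmono (le_max_right b c))) h2) (hPQ a ha))
  obtain ⟨Γ, F, hF, hFs, hFA⟩ := hT A
  have hFne : ∀ a ∈ B, F (P a) ≠ F (Q a) := fun a ha h => hA a ha (hFA _ _ h)
  -- determining sets
  have hCU : CompactSpace (closure (MT U)) :=
    isCompact_iff_compactSpace.1 isClosed_closure.isCompact
  have hdet := fun γ : Γ => det_countable (T := closure (MT U)) (Y := MY U)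
    (e := fun p y => ev (p : T) (y : YY T))
    (fun y => (ev_cont _).comp continuous_subtype_val)
    (fun p q h => Subtype.ext (hSU p p.2 q q.2 fun y hy => h ⟨y, hy⟩))
    (ψ := fun p => F (p : T) γ)
    (((continuous_apply γ).comp hF).comp continuous_subtype_val)
  choose C' hC'1 hC'2 using hdet
  let C : Γ → Set (YY T) := fun γ => Subtype.val '' C' γ
  have hCc : ∀ γ, (C γ).Countable := fun γ => (hC'1 γ).image _
  have hCU : ∀ γ, ∀ y ∈ C γ, Sum.inl y ∈ U := by
    rintro γ _ ⟨y, _, rfl⟩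
    exact y.2
  have hCdet : ∀ γ, ∀ p ∈ closure (MT U), ∀ q ∈ closure (MT U), (∀ y ∈ C γ, ev p y = ev q y) →
      F p γ = F q γ := fun γ p hp q hq h =>
    hC'2 γ ⟨p, hp⟩ ⟨q, hq⟩ fun y hy => h y ⟨y, hy, rfl⟩
  let fcl : Set (YY T ⊕ T) → Prop := fun L => ∀ x ∈ MT L, ∀ γ, F x γ ≠ 0 → C γ ⊆ MY L
  let K : Set J := {a | fcl (N a)}
  have hKgood : ∀ a ∈ K, Sep (N a) := by
    intro a ha
    by_contra hcon
    have haB : a ∈ B := hcon
    obtain ⟨γ, hγ⟩ := Function.ne_iff.1 (hFne a haB)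
    have hx : ∃ x ∈ MT (N a), F x γ ≠ 0 := by
      by_contra hcon
      push Not at hcon
      have hzero : ∀ x ∈ closure (MT (N a)), F x γ = 0 := fun x hx =>
        closure_minimal (s := MT (N a)) (t := {x | F x γ = 0}) hcon
          (isClosed_eq ((continuous_apply γ).comp hF) continuous_const) hx
      rw [hzero _ (hP a haB), hzero _ (hQ a haB)] at hγ
      exact hγ rfl
    obtain ⟨x, hx1, hx2⟩ := hx
    have hsub := ha x hx1 γ hx2
    have hclsub : closure (MT (N a)) ⊆ closure (MT U) := closure_mono (MT_mono (subset_iUnion N a))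
    exact hγ (hCdet γ _ (hclsub (hP a haB)) _ (hclsub (hQ a haB)) fun y hy =>
      hPQ a haB y (hsub hy))
  -- closing off
  have hstep : ∀ a, ∃ b, a < b ∧ ∀ x ∈ MT (N a), ∀ γ, F x γ ≠ 0 → C γ ⊆ MY (N b) := by
    intro a
    let S : Set (YY T) := ⋃ x : MT (N a), ⋃ γ : Function.support (F x.1), C γ.1
    have hScard : #S < κ := by
      have h0 : #(MT (N a)) ≤ #(N a) := by
        refine Cardinal.mk_le_of_injective (f := fun t : MT (N a) => (⟨Sum.inr t.1, t.2⟩ : N a)) ?_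
        intro x y hxy
        exact Subtype.ext (Sum.inr_injective (congrArg Subtype.val hxy))
      have h1 : ∀ x : MT (N a), #↥(⋃ γ : Function.support (F x.1), C γ.1) ≤ ℵ₀ := by
        intro x
        have : Countable (Function.support (F x.1)) := (hFs x.1).to_subtype
        exact Cardinal.le_aleph0_iff_set_countable.2 (countable_iUnion fun γ => hCc γ.1)
      refine lt_of_le_of_lt (mk_iUnion_le _) ?_
      refine lt_of_le_of_lt (show _ ≤ max ℵ₀ #(N a) * max ℵ₀ #(N a) from ?_) ?_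
      · gcongr
        · exact h0.trans (le_max_right _ _)
        · exact (ciSup_le' h1).trans (le_max_left _ _)
      · rw [mul_eq_self (le_max_left _ _)]
        exact max_lt hunc (hNcard a)
    have hSU' : ∀ y : S, ∃ b, Sum.inl y.1 ∈ N b := by
      rintro ⟨y, hy⟩
      simp only [S, mem_iUnion] at hy
      obtain ⟨x, γ, hy⟩ := hy
      exact mem_iUnion.1 (hCU γ.1 y hy)
    choose β hβ using hSU'
    obtain ⟨b, hb⟩ := bounded_of_lt (S := insert a (range β)) (by
      rw [hcofJ]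
      refine lt_of_le_of_lt mk_insert_le ?_
      exact add_lt_of_lt hunc.le (lt_of_le_of_lt mk_range_le hScard) (one_lt_aleph0.trans hunc))
    refine ⟨b, hb a (mem_insert _ _), fun x hx γ hγ y hy => ?_⟩
    have hyS : y ∈ S := mem_iUnion.2 ⟨⟨x, hx⟩, mem_iUnion.2 ⟨⟨γ, hγ⟩, hy⟩⟩
    exact hNmono (hb _ (mem_insert_of_mem _ ⟨⟨y, hyS⟩, rfl⟩)).le (hβ ⟨y, hyS⟩)
  choose st hst1 hst2 using hstep
  have hfclU : ∀ (S : Set J), (∀ c ∈ S, ∃ d ∈ S, ∀ x ∈ MT (N c), ∀ γ, F x γ ≠ 0 →
      C γ ⊆ MY (N d)) → fcl (⋃ c : S, N c) := by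
    intro S hS x hx γ hγ y hy
    obtain ⟨c, hc⟩ := mem_iUnion.1 hx
    obtain ⟨d, hd, hd'⟩ := hS c c.2
    exact mem_iUnion.2 ⟨⟨d, hd⟩, hd' x hc γ hγ hy⟩
  have hlub : ∀ S : Set J, S.Nonempty → (∃ b, ∀ c ∈ S, c < b) → (∀ c ∈ S, ∃ d ∈ S, c < d) →
      ∃ s, (∀ c ∈ S, c < s) ∧ (∀ b, (∀ c ∈ S, c < b) → s ≤ b) ∧ N s = ⋃ c : S, N c := by
    intro S hSne hSb hSnm
    obtain ⟨s, hs, hmin⟩ := WellFounded.has_min (wellFounded_lt (α := J))
      {b | ∀ c ∈ S, c < b} hSb
    refine ⟨s, hs, fun b hb => not_lt.1 (hmin b hb), ?_⟩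
    refine chain_cont hT z hs hSne ?_
    intro b hb
    have : ¬ ∀ c ∈ S, c < b := fun h => hmin b h hb
    push Not at this
    obtain ⟨c, hc, hbc⟩ := this
    obtain ⟨d, hd, hcd⟩ := hSnm c hc
    exact ⟨d, hd, lt_of_le_of_lt hbc hcd⟩
  have hKcof : ∀ a, ∃ b ∈ K, a ≤ b := by
    intro a
    let it : ℕ → J := fun n => st^[n] a
    have hits : ∀ n, it (n + 1) = st (it n) := fun n => Function.iterate_succ_apply' st n a
    obtain ⟨s, hs1, -, hs3⟩ := hlub (range it) (range_nonempty it) (by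
      obtain ⟨b, hb⟩ := hcount it
      exact ⟨b, by rintro _ ⟨n, rfl⟩; exact hb n⟩) (by
      rintro _ ⟨n, rfl⟩
      exact ⟨it (n + 1), ⟨n + 1, rfl⟩, by rw [hits]; exact hst1 _⟩)
    refine ⟨s, ?_, (hs1 (it 0) ⟨0, rfl⟩).le⟩
    change fcl (N s)
    rw [hs3]
    apply hfclU
    rintro _ ⟨n, rfl⟩
    exact ⟨it (n + 1), ⟨n + 1, rfl⟩, by rw [hits]; exact hst2 _⟩
  -- the chain over `K`
  have hJne : Nonempty J := by
    by_contra h
    rw [not_nonempty_iff] at h
    have : Order.cof J = 0 := Order.cof_eq_zero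
    rw [hcofJ] at this
    rw [this] at hunc
    exact absurd hunc (not_lt.2 (zero_le))
  obtain ⟨j⟩ := hJne
  obtain ⟨k, hk, -⟩ := hKcof j
  obtain ⟨a0, ha0K, ha0⟩ := WellFounded.has_min (wellFounded_lt (α := J)) K ⟨k, hk⟩
  have hunion : (⋃ a : K, N a) = U := by
    apply Subset.antisymm
    · exact iUnion_subset fun a => subset_iUnion N a
    · refine iUnion_subset fun a => ?_
      obtain ⟨b, hb, hab⟩ := hKcof a
      exact (hNmono hab).trans (subset_iUnion (fun a : K => N a) ⟨b, hb⟩)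
  have hglue : Good1 (⋃ a : K, N a) := by
    refine glue hT (J := K) (N := fun a => N a) (fun a b hab => hNmono hab)
      (fun a => chain_DC hT z a) (fun a => hKgood a a.2) (a0 := ⟨a0, ha0K⟩)
      (fun a => not_lt.1 (ha0 a a.2)) ?_ (by rw [hunion]; exact hSU) (fun a => ih _ (hNcard a))
    intro a
    let S : Set J := {b | b ∈ K ∧ b < a}
    have hprev : prev (fun a : K => N a) ⟨a0, ha0K⟩ a = N a0 ∪ ⋃ c : S, N c := by
      ext w
      simp only [prev, mem_union, mem_iUnion]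
      constructor
      · rintro (h | ⟨b, hb⟩)
        · exact Or.inl h
        · exact Or.inr ⟨⟨b.1, b.1.2, b.2⟩, hb⟩
      · rintro (h | ⟨c, hc⟩)
        · exact Or.inl h
        · exact Or.inr ⟨⟨⟨c.1, c.2.1⟩, c.2.2⟩, hc⟩
    rw [hprev]
    by_cases hSne : S.Nonempty
    · obtain ⟨c0, hc0⟩ := hSne
      have hsub0 : N a0 ⊆ ⋃ c : S, N c :=
        (hNmono (not_lt.1 (ha0 c0 hc0.1))).trans (subset_iUnion (fun c : S => N c) ⟨c0, hc0⟩)
      rw [union_eq_self_of_subset_left hsub0]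
      by_cases hmax : ∃ b ∈ S, ∀ c ∈ S, c ≤ b
      · obtain ⟨b, hb, hbmax⟩ := hmax
        have : (⋃ c : S, N c) = N b := by
          apply Subset.antisymm
          · exact iUnion_subset fun c => hNmono (hbmax c c.2)
          · exact subset_iUnion (fun c : S => N c) ⟨b, hb⟩
        rw [this]
        exact hKgood b hb.1
      · push Not at hmax
        obtain ⟨s, hs1, hs2, hs3⟩ := hlub S ⟨c0, hc0⟩ ⟨a, fun c hc => hc.2⟩ hmax
        rw [← hs3]
        apply hKgood
        change fcl (N s)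
        rw [hs3]
        apply hfclU
        intro c hc
        exact ⟨c, hc, hc.1⟩
    · rw [not_nonempty_iff_eq_empty] at hSne
      have : (⋃ c : S, N c) = ∅ := by
        have : IsEmpty S := by rw [hSne]; exact inferInstance
        simp
      rw [this, union_empty]
      exact hKgood a0 ha0K
  rw [hunion] at hglue
  exact hglue.mono (MT_mono hMU)

end Pool.Agent.Helpers29.Sp
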