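import Mathlib
import Pool.Agent.Helpers29.Sp4

set_option autoImplicit false

namespace Pool.Agent.Helpers29.Sp

open Set Filter Topology Cardinal Pool.Agent.Helpers29.Corson

variable {T : Type} [TopologicalSpace T] [CompactSpace T] [T2Space T]

lemma exists_iot (hT : Split T) (M : Set (YY T ⊕ T)) :
    ∃ ι : YY T → YY T ⊕ T, (∀ y ∈ Phi hT M, ι y ∈ M) ∧ InjOn ι (Phi hT M) := by
  classical
  by_cases hM : M.Infinite
  · obtain ⟨f⟩ := (Cardinal.le_def _ _).1 (Phi_card hT hM)
    refine ⟨fun y => if h : y ∈ Phi hT M then (f ⟨y, h⟩ : YY T ⊕ T) else Sum.inl y, ?_, ?_⟩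
    · intro y hy
      simp only [hy, dif_pos]
      exact (f ⟨y, hy⟩).2
    · intro y hy y' hy' h
      simp only [hy, hy', dif_pos] at h
      have := f.injective (Subtype.ext h)
      exact congrArg Subtype.val this
  · have : Phi hT M = ∅ := by
      unfold Phi
      rw [dif_neg hM]
    refine ⟨Sum.inl, ?_, ?_⟩
    · intro y hy
      rw [this] at hy
      exact absurd hy (notMem_empty _)
    · rw [this]
      exact injOn_empty _

/-- the distributing function -/
noncomputable def iot (hT : Split T) (M : Set (YY T ⊕ T)) : YY T → YY T ⊕ T :=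
  (exists_iot hT M).choose

lemma iot_mem (hT : Split T) {M : Set (YY T ⊕ T)} {y : YY T} (hy : y ∈ Phi hT M) :
    iot hT M y ∈ M := (exists_iot hT M).choose_spec.1 y hy

lemma iot_inj (hT : Split T) (M : Set (YY T ⊕ T)) : InjOn (iot hT M) (Phi hT M) :=
  (exists_iot hT M).choose_spec.2

/-- the part of the separating family of `M` assigned to `L` -/
def dst (hT : Split T) (M L : Set (YY T ⊕ T)) : Set (YY T ⊕ T) :=
  Sum.inl '' {y | y ∈ Phi hT M ∧ iot hT M y ∈ L}

lemma dst_card (hT : Split T) (M L : Set (YY T ⊕ T)) : #(dst hT M L) ≤ #L := by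
  refine mk_image_le.trans ?_
  refine Cardinal.mk_le_of_injective
    (f := fun y : {y | y ∈ Phi hT M ∧ iot hT M y ∈ L} => (⟨iot hT M y.1, y.2.2⟩ : L)) ?_
  intro a b hab
  exact Subtype.ext (iot_inj hT M a.2.1 b.2.1 (congrArg Subtype.val hab))

lemma dst_mono (hT : Split T) (M : Set (YY T ⊕ T)) {L L' : Set (YY T ⊕ T)} (h : L ⊆ L') :
    dst hT M L ⊆ dst hT M L' := image_mono fun _ hy => ⟨hy.1, h hy.2⟩

section build

variable {I W : Type} [LinearOrder I] [LinearOrder W] [WellFoundedLT W]

/-- the cuts -/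
def cut : Option (I × Bool) → Set I
  | none => univ
  | some (i, true) => Iic i
  | some (i, false) => Iio i

/-- the double chain of the singular case -/
noncomputable def dch (hT : Split T) (base : I → Set (YY T ⊕ T)) : W → I → Set (YY T ⊕ T) :=
  WellFoundedLT.fix fun ζ ih j => hull (Op T) (base j ∪ ⋃ η : Iio ζ, (ih η.1 η.2 j ∪
    ⋃ u : Option (I × Bool), dst hT (⋃ i : cut u, ih η.1 η.2 i.1) (ih η.1 η.2 j)))

variable (hT : Split T) (base : I → Set (YY T ⊕ T))

lemma dch_eq (ζ : W) (j : I) : dch hT base ζ j = hull (Op T) (base j ∪ ⋃ η : Iio ζ,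
    (dch hT base η.1 j ∪
    ⋃ u : Option (I × Bool), dst hT (⋃ i : cut u, dch hT base η.1 i.1) (dch hT base η.1 j))) := by
  conv_lhs => unfold dch
  rw [WellFoundedLT.fix_eq]
  rfl

lemma dch_cld (ζ : W) (j : I) : DC (dch hT base ζ j) := by
  rw [dch_eq]
  exact hull_cld _ _

lemma base_sub_dch (ζ : W) (j : I) : base j ⊆ dch hT base ζ j := by
  rw [dch_eq]
  exact subset_union_left.trans (subset_hull _ _)

lemma dch_sub {ζ η : W} (h : η < ζ) (j : I) : dch hT base η j ∪
    ⋃ u : Option (I × Bool), dst hT (⋃ i : cut u, dch hT base η i.1) (dch hT base η j) ⊆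
      dch hT base ζ j := by
  rw [dch_eq hT base ζ j]
  refine Subset.trans ?_ (subset_hull _ _)
  refine Subset.trans ?_ subset_union_right
  exact subset_iUnion (fun η : Iio ζ => (dch hT base η.1 j ∪
    ⋃ u : Option (I × Bool), dst hT (⋃ i : cut u, dch hT base η.1 i.1) (dch hT base η.1 j))) ⟨η, h⟩

lemma dch_mono (j : I) : Monotone fun ζ : W => dch hT base ζ j := by
  intro η ζ h
  rcases lt_or_eq_of_le h with h | h
  · exact subset_union_left.trans (dch_sub hT base h j)
  · rw [h]

lemma dch_mono' (hb : Monotone base) (ζ : W) : Monotone fun j => dch hT base ζ j := by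
  induction ζ using WellFoundedLT.induction with
  | ind ζ ih =>
    intro j j' hj
    change dch hT base ζ j ⊆ dch hT base ζ j'
    rw [dch_eq hT base ζ j, dch_eq hT base ζ j']
    apply hull_mono
    refine union_subset_union (hb hj) ?_
    refine iUnion_mono fun η => ?_
    refine union_subset_union (ih η.1 η.2 hj) ?_
    exact iUnion_mono fun u => dst_mono hT _ (ih η.1 η.2 hj)

lemma dch_card (j : I) (L : Cardinal.{0}) (hL : ℵ₀ ≤ L) (hLW : #W ≤ L) (hLI : #I ≤ L)
    (hLb : #(base j) ≤ L) (ζ : W) : #(dch hT base ζ j) ≤ L := by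
  induction ζ using WellFoundedLT.induction with
  | ind ζ ih =>
    rw [dch_eq]
    refine (card_hull Op_countable _).trans (max_le hL ?_)
    refine (mk_union_le _ _).trans ?_
    refine (add_le_add hLb (show _ ≤ L from ?_)).trans (add_eq_self hL).le
    refine (mk_iUnion_le _).trans ?_
    have hO : #(Option (I × Bool)) ≤ L := by
      rw [mk_option, mk_prod]
      simp only [lift_id, mk_bool]
      calc #I * 2 + 1 ≤ L * L + L := by
            gcongr
            · exact (Cardinal.nat_lt_aleph0 2).le.trans hL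
            · exact one_le_aleph0.trans hL
        _ = L := by rw [mul_eq_self hL, add_eq_self hL]
    have h1 : ∀ η : Iio ζ, #↥(dch hT base η.1 j ∪ ⋃ u : Option (I × Bool),
        dst hT (⋃ i : cut u, dch hT base η.1 i.1) (dch hT base η.1 j)) ≤ L := by
      intro η
      refine (mk_union_le _ _).trans ?_
      refine (add_le_add (ih η.1 η.2) (show _ ≤ L from ?_)).trans (add_eq_self hL).le
      refine (mk_iUnion_le _).trans ?_
      calc #(Option (I × Bool)) * ⨆ u : Option (I × Bool),
            #(dst hT (⋃ i : cut u, dch hT base η.1 i.1) (dch hT base η.1 j)) ≤ L * L := by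
            gcongr
            exact ciSup_le' fun u => (dst_card hT _ _).trans (ih η.1 η.2)
        _ = L := mul_eq_self hL
    calc #(Iio ζ) * ⨆ η : Iio ζ, #↥(dch hT base η.1 j ∪ ⋃ u : Option (I × Bool),
        dst hT (⋃ i : cut u, dch hT base η.1 i.1) (dch hT base η.1 j)) ≤ L * L := by
          gcongr
          · exact (mk_set_le _).trans hLW
          · exact ciSup_le' h1
      _ = L := mul_eq_self hL

/-- the pieces attached to cuts -/
def NN (u : Option (I × Bool)) : Set (YY T ⊕ T) :=
  ⋃ ζ : W, ⋃ i : cut u, dch hT base ζ i.1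

lemma sep_NN (hW : ℵ₀ < Order.cof W) (hS0 : ∀ i, S0 T ⊆ base i) (u : Option (I × Bool))
    (hu : (cut u).Nonempty) : Sep (NN (W := W) hT base u) := by
  have hcount : ∀ v : ℕ → W, ∃ b, ∀ n, v n < b := by
    intro v
    obtain ⟨b, hb⟩ := bounded_of_lt (S := range v)
      (lt_of_le_of_lt (Cardinal.le_aleph0_iff_set_countable.2 (countable_range v)) hW)
    exact ⟨b, fun n => hb _ ⟨n, rfl⟩⟩
  let Nn : W → Set (YY T ⊕ T) := fun ζ => ⋃ i : cut u, dch hT base ζ i.1
  have hNn : Monotone Nn := fun η ζ h => iUnion_mono fun i => dch_mono hT base i.1 h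
  have hcl : ∀ p ∈ closure (MT (NN (W := W) hT base u)), ∃ ζ, p ∈ closure (MT (Nn ζ)) := by
    intro p hp
    obtain ⟨v, hv1, hv2⟩ := exists_seq hT hp
    have : ∀ n, ∃ ζ, Sum.inr (v n) ∈ Nn ζ := fun n => mem_iUnion.1 (hv1 n)
    choose β hβ using this
    obtain ⟨b, hb⟩ := hcount β
    exact ⟨b, mem_closure_of_tendsto hv2 (Eventually.of_forall fun n => hNn (hb n).le (hβ n))⟩
  intro p hp q hq hpq
  obtain ⟨η, hη⟩ := hcl p hp
  obtain ⟨η', hη'⟩ := hcl q hq
  let ζ := max η η'
  obtain ⟨ζ', hζ'⟩ := hcount fun _ => ζ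
  have hinf : (Nn ζ).Infinite := by
    obtain ⟨i, hi⟩ := hu
    exact (S0_infinite (T := T)).mono (((hS0 i).trans (base_sub_dch hT base ζ i)).trans
      (subset_iUnion (fun i : cut u => dch hT base ζ i.1) ⟨i, hi⟩))
  refine Phi_sep hT hinf p (closure_mono (MT_mono (hNn (le_max_left _ _))) hη) q
    (closure_mono (MT_mono (hNn (le_max_right _ _))) hη') ?_
  intro y hy
  apply hpq
  obtain ⟨j, hj⟩ := mem_iUnion.1 (iot_mem hT hy)
  refine mem_iUnion.2 ⟨ζ', mem_iUnion.2 ⟨j, dch_sub hT base (hζ' 0) j.1 (Or.inr ?_)⟩⟩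
  exact mem_iUnion.2 ⟨u, ⟨y, ⟨hy, hj⟩, rfl⟩⟩

end build

lemma singular_step (hT : Split T) (κ : Cardinal.{0}) (hunc : ℵ₀ < κ) (hsing : κ.ord.cof < κ)
    (M : Set (YY T ⊕ T)) (hM : #M = κ) (ih : ∀ M' : Set (YY T ⊕ T), #M' < κ → Good1 M') :
    Good1 M := by
  classical
  let μ := κ.ord.cof
  let J := κ.ord.ToType
  have hcofJ : Order.cof J = μ := Ordinal.cof_toType _
  have hμinf : ℵ₀ ≤ μ := by
    rw [Ordinal.aleph0_le_cof_iff, Ordinal.one_lt_cof_iff]
    exact isSuccLimit_ord hunc.le
  have hJM : #J = #M := by rw [mk_ord_toType, hM]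
  obtain ⟨g⟩ := Cardinal.eq.1 hJM
  let z : J → YY T ⊕ T := fun a => (g a : YY T ⊕ T)
  let I := μ.ord.ToType
  let W := (ℵ₁).ord.ToType
  have hIcard : #I = μ := mk_ord_toType _
  have hWcard : #W = ℵ₁ := mk_ord_toType _
  have hcofW : Order.cof W = ℵ₁ := by
    rw [Ordinal.cof_toType]
    exact isRegular_aleph_one.cof_eq
  have hW : ℵ₀ < Order.cof W := by
    rw [hcofW]
    exact aleph0_lt_aleph_one
  have hκ1 : ℵ₁ < κ := by
    have h1 : ℵ₁ ≤ κ := by
      rw [← succ_aleph0]
      exact Order.succ_le_of_lt hunc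
    rcases lt_or_eq_of_le h1 with h | h
    · exact h
    · exfalso
      rw [← h] at hsing
      rw [isRegular_aleph_one.cof_eq] at hsing
      exact lt_irrefl _ hsing
  obtain ⟨s, hs1, hs2⟩ := Order.exists_cof_eq (α := J)
  have hIs : #I = #s := by rw [hIcard, hs2, hcofJ]
  obtain ⟨cI⟩ := Cardinal.eq.1 hIs
  let c : I → J := fun i => (cI i : J)
  have hc : ∀ a : J, ∃ i, a ≤ c i := by
    intro a
    obtain ⟨b, hb, hab⟩ := hs1 a
    exact ⟨cI.symm ⟨b, hb⟩, by simpa [c] using hab⟩
  let base : I → Set (YY T ⊕ T) := fun j => S0 T ∪ z '' {a | ∃ i ≤ j, a ≤ c i}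
  have hbmono : Monotone base := by
    intro i j hij
    refine union_subset_union le_rfl (image_mono ?_)
    rintro a ⟨k, hk, hak⟩
    exact ⟨k, hk.trans hij, hak⟩
  have hbcard : ∀ j, #(base j) < κ := by
    intro j
    have h1 : #(c '' Iic j) < Order.cof J := by
      rw [hcofJ]
      refine lt_of_le_of_lt mk_image_le ?_
      have h1 : Iic j ⊆ insert j (Iio j) := by
        intro b hb
        rcases lt_or_eq_of_le (mem_Iic.1 hb) with h | h
        · exact Or.inr h
        · exact Or.inl h
      refine lt_of_le_of_lt (mk_le_mk_of_subset h1) ?_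
      refine lt_of_le_of_lt mk_insert_le ?_
      exact add_lt_of_lt hμinf (mk_Iio_toType_ord_lt j) (lt_of_lt_of_le one_lt_aleph0 hμinf)
    obtain ⟨b, hb⟩ := bounded_of_lt h1
    have h2 : base j ⊆ S0 T ∪ z '' Iio b := by
      refine union_subset_union le_rfl (image_mono ?_)
      rintro a ⟨k, hk, hak⟩
      exact lt_of_le_of_lt hak (hb _ ⟨k, hk, rfl⟩)
    refine lt_of_le_of_lt (mk_le_mk_of_subset h2) ?_
    refine lt_of_le_of_lt (mk_union_le _ _) ?_
    exact add_lt_of_lt hunc.le (lt_of_le_of_lt S0_countable.le_aleph0 hunc)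
      (lt_of_le_of_lt mk_image_le (mk_Iio_toType_ord_lt b))
  let L : I → Cardinal.{0} := fun j => max ℵ₁ (max μ #(base j))
  have hL : ∀ j, L j < κ := fun j => max_lt hκ1 (max_lt hsing (hbcard j))
  have hLinf : ∀ j, ℵ₀ ≤ L j := fun j => aleph0_lt_aleph_one.le.trans (le_max_left _ _)
  have hdc : ∀ j (ζ : W), #(dch hT base ζ j) ≤ L j := fun j ζ =>
    dch_card hT base j (L j) (hLinf j) (by rw [hWcard]; exact le_max_left _ _)
      (by rw [hIcard]; exact (le_max_left _ _).trans (le_max_right _ _))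
      ((le_max_right _ _).trans (le_max_right _ _)) ζ
  have hWne : Nonempty W := by
    rw [← mk_ne_zero_iff, hWcard]
    exact (aleph0_pos.trans aleph0_lt_aleph_one).ne'
  have hIne : Nonempty I := by
    rw [← mk_ne_zero_iff, hIcard]
    exact (lt_of_lt_of_le aleph0_pos hμinf).ne'
  let N : I → Set (YY T ⊕ T) := fun i => ⋃ ζ : W, dch hT base ζ i
  have hNmono : Monotone N := fun i j hij => iUnion_mono fun ζ => dch_mono' hT base hbmono ζ hij
  have hNcard : ∀ i, #(N i) < κ := by
    intro i
    refine lt_of_le_of_lt ((mk_iUnion_le _).trans (?_ : _ ≤ L i)) (hL i)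
    calc #W * ⨆ ζ : W, #(dch hT base ζ i) ≤ L i * L i := by
          gcongr
          · rw [hWcard]; exact le_max_left _ _
          · exact ciSup_le' fun ζ => hdc i ζ
      _ = L i := mul_eq_self (hLinf i)
  have hND : ∀ i, DC (N i) := by
    intro i
    apply cld_directed
    · intro η ζ
      rcases le_total η ζ with h | h
      · exact ⟨ζ, dch_mono hT base i h, le_rfl⟩
      · exact ⟨η, le_rfl, dch_mono hT base i h⟩
    · intro ζ
      exact dch_cld hT base ζ i
  have hsep := fun u hu => sep_NN (W := W) hT base hW (fun i => subset_union_left) u hu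
  have hNN : ∀ u, NN (W := W) hT base u = ⋃ i : cut u, N i := by
    intro u
    unfold NN
    rw [iUnion_comm]
  have hNS : ∀ i, Sep (N i) := by
    intro i
    have h1 : N i = NN (W := W) hT base (some (i, true)) := by
      rw [hNN]
      apply Subset.antisymm
      · exact subset_iUnion (fun j : cut (some (i, true)) => N j) ⟨i, (le_refl i : i ≤ i)⟩
      · exact iUnion_subset fun j => hNmono j.2
    rw [h1]
    exact hsep _ ⟨i, (le_refl i : i ≤ i)⟩
  obtain ⟨a0, -, ha0⟩ := WellFounded.has_min (wellFounded_lt (α := I)) univ univ_nonempty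
  have ha0' : ∀ a, a0 ≤ a := fun a => not_lt.1 (ha0 a (mem_univ _))
  have hU : (⋃ i, N i) = NN (W := W) hT base none := by
    rw [hNN]
    apply Subset.antisymm
    · exact iUnion_subset fun i => subset_iUnion (fun j : cut (none : Option (I × Bool)) => N j) ⟨i, trivial⟩
    · exact iUnion_subset fun j => subset_iUnion N j.1
  have hglue : Good1 (⋃ i, N i) := by
    refine glue hT hNmono hND hNS ha0' ?_ (by rw [hU]; exact hsep _ ⟨a0, trivial⟩)
      (fun a => ih _ (hNcard a))
    intro a
    rcases lt_or_eq_of_le (ha0' a) with h | h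
    · have : prev N a0 a = NN (W := W) hT base (some (a, false)) := by
        rw [hNN]
        unfold prev
        rw [union_eq_self_of_subset_left]
        · rfl
        · exact subset_iUnion (fun b : Iio a => N b) ⟨a0, h⟩
      rw [this]
      exact hsep _ ⟨a0, h⟩
    · have : prev N a0 a = N a0 := by
        unfold prev
        have hemp : IsEmpty (Iio a) := by
          refine ⟨fun b => ?_⟩
          have hb : (b : I) < a := b.2
          have hb' : (b : I) < a0 := lt_of_lt_of_eq hb h.symm
          exact absurd hb' (not_lt.2 (ha0' b))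
        simp
      rw [this]
      exact hNS a0
  refine hglue.mono (MT_mono ?_)
  intro x hx
  obtain ⟨i, hi⟩ := hc (g.symm ⟨x, hx⟩)
  refine mem_iUnion.2 ⟨i, mem_iUnion.2 ⟨hWne.some, base_sub_dch hT base _ i (Or.inr ?_)⟩⟩
  exact ⟨g.symm ⟨x, hx⟩, ⟨i, le_rfl, hi⟩, by simp [z]⟩

/-- every set is good -/
theorem good_all (hT : Split T) : ∀ (κ : Cardinal.{0}) (M : Set (YY T ⊕ T)), #M = κ → Good1 M := by
  intro κ
  induction κ using WellFoundedLT.induction with
  | ind κ ih =>
    intro M hM
    by_cases hc : κ ≤ ℵ₀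
    · -- countable case
      let M' : Set (YY T ⊕ T) := M ∪ S0 T
      have hM'inf : M'.Infinite := S0_infinite.mono subset_union_right
      have hM'c : #M' ≤ ℵ₀ := by
        refine (mk_union_le _ _).trans ?_
        rw [hM]
        exact (add_le_add hc S0_countable.le_aleph0).trans (add_eq_self le_rfl).le
      have hΦc : (Phi hT M').Countable :=
        Cardinal.le_aleph0_iff_set_countable.1 ((Phi_card hT hM'inf).trans hM'c)
      have hΦ : Countable (Phi hT M') := hΦc.to_subtype
      have hg : Good1 M' := ⟨Phi hT M', fun y t => ev t y.1, fun y => ev_cont _,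
        fun f _ => to_countable _, fun p hp q hq h => Phi_sep hT hM'inf p hp q hq
          fun y hy => h ⟨y, hy⟩⟩
      exact hg.mono (MT_mono subset_union_left)
    · have hunc : ℵ₀ < κ := not_le.1 hc
      have ih' : ∀ M' : Set (YY T ⊕ T), #M' < κ → Good1 M' := fun M' h => ih _ h M' rfl
      by_cases hreg : κ.ord.cof = κ
      · exact regular_step hT κ hunc hreg M hM ih'
      · exact singular_step hT κ hunc (lt_of_le_of_ne (Ordinal.cof_ord_le κ) hreg) M hM ih'

/-- A compact space splittable over Corson compacta is Corson compact. -/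
theorem corson_of_split (hT : Split T) :
    ∃ (Γ : Type) (φ : T → (Γ → ℝ)), Topology.IsEmbedding φ ∧
      ∀ t, (Function.support (φ t)).Countable := by
  obtain ⟨I, h, hc, hs, hsep⟩ := good_all hT _ (Set.univ : Set (YY T ⊕ T)) rfl
  have huniv : MT (Set.univ : Set (YY T ⊕ T)) = Set.univ := rfl
  refine ⟨I, fun t i => h i t, ?_, fun t => hs t (by rw [huniv]; simp)⟩
  have hcont : Continuous (fun t i => h i t) := continuous_pi hc
  refine (hcont.isClosedEmbedding ?_).isEmbedding
  intro p q hpq
  exact hsep p (by rw [huniv]; simp) q (by rw [huniv]; simp) (fun i => congrFun hpq i)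

end Pool.Agent.Helpers29.Sp
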