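import Mathlib

/-!
Basics on the space `G X` of continuous functions `X → Bool` with the pointwise topology:
identification with clopen sets, convergence of sequences, closure points, and tags.
-/

set_option autoImplicit false
set_option linter.unusedSectionVars false
universe u

namespace Pool.Agent.Helpers29.Sq

open Set Topology Filter

/-- `C_p(X, 𝔻)`. -/
abbrev G (X : Type u) [TopologicalSpace X] : Type u := {f : X → Bool // Continuous f}

variable {X : Type u} [TopologicalSpace X]

/-- The clopen set of a function. -/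
def sp (f : G X) : Set X := {x | f.1 x = true}

theorem sp_clopen (f : G X) : IsClopen (sp f) :=
  (isClopen_discrete {true}).preimage f.2

/-- The function of a clopen set. -/
noncomputable def mk (C : Set X) (h : IsClopen C) : G X :=
  ⟨C.boolIndicator, (continuous_boolIndicator_iff_isClopen C).2 h⟩

@[simp] theorem sp_mk (C : Set X) (h : IsClopen C) : sp (mk C h) = C := by
  ext x
  exact (mem_iff_boolIndicator C x).symm

theorem sp_injective : Function.Injective (sp : G X → Set X) := by
  intro f g h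
  apply Subtype.ext
  funext x
  have h1 : x ∈ sp f ↔ x ∈ sp g := by rw [h]
  change f.1 x = true ↔ g.1 x = true at h1
  exact Bool.eq_iff_iff.2 h1

theorem eq_mk_of_sp (f : G X) (C : Set X) (h : IsClopen C) (e : sp f = C) : f = mk C h := by
  apply sp_injective
  rw [sp_mk, e]

theorem tendsto_iff (f : ℕ → G X) (g : G X) :
    Tendsto f atTop (𝓝 g) ↔ ∀ x, ∀ᶠ k in atTop, (x ∈ sp (f k) ↔ x ∈ sp g) := by
  rw [tendsto_subtype_rng, tendsto_pi_nhds]
  refine forall_congr' (fun x => ?_)
  rw [nhds_discrete, tendsto_pure]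
  refine eventually_congr (Eventually.of_forall fun k => ?_)
  exact Bool.eq_iff_iff

/-- The zero function. -/
noncomputable def zero : G X := mk ∅ isClopen_empty

@[simp] theorem sp_zero : sp (zero : G X) = ∅ := sp_mk _ _

theorem mem_closure_zero (A : Set (G X))
    (h : ∀ E : Finset X, ∃ f ∈ A, ∀ x ∈ E, x ∉ sp f) : (zero : G X) ∈ closure A := by
  rw [mem_closure_iff]
  intro o ho hz
  obtain ⟨o', ho', rfl⟩ := isOpen_induced_iff.1 ho
  obtain ⟨I, u, hu, hsub⟩ := isOpen_pi_iff.1 ho' zero.1 hz
  obtain ⟨f, hf, hfE⟩ := h I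
  refine ⟨f, ?_, hf⟩
  apply hsub
  intro x hx
  have h1 : f.1 x = zero.1 x := by
    have h2 : x ∉ sp f := hfE x hx
    have h3 : x ∉ sp (zero : G X) := by simp
    change ¬ f.1 x = true at h2
    change ¬ zero.1 x = true at h3
    rw [Bool.not_eq_true] at h2 h3
    rw [h2, h3]
  rw [h1]
  exact (hu x hx).2

/-- Dichotomy for sequences of natural numbers. -/
theorem nat_dichotomy (n : ℕ → ℕ) :
    (∃ c, ∃ k : ℕ → ℕ, StrictMono k ∧ ∀ i, n (k i) = c) ∨
      (∃ k : ℕ → ℕ, StrictMono k ∧ StrictMono (fun i => n (k i))) := by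
  by_cases h : ∃ c, ∃ᶠ i in atTop, n i = c
  · obtain ⟨c, hc⟩ := h
    obtain ⟨k, hk, hkc⟩ := extraction_of_frequently_atTop hc
    exact Or.inl ⟨c, k, hk, hkc⟩
  · right
    push Not at h
    have ht : Tendsto n atTop atTop := by
      rw [tendsto_atTop]
      intro b
      have h1 : ∀ᶠ i in atTop, ∀ c ∈ Finset.range b, n i ≠ c := by
        rw [Filter.eventually_all_finset]
        intro c _
        exact h c
      filter_upwards [h1] with i hi
      by_contra hlt
      exact hi (n i) (Finset.mem_range.2 (not_le.1 hlt)) rfl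
    obtain ⟨k, hk, hk2⟩ := strictMono_subseq_of_tendsto_atTop ht
    exact ⟨k, hk, hk2⟩

/-- A sequence of pairwise disjoint clopen sets which are not P-spaces. -/
structure Tags (X : Type u) [TopologicalSpace X] where
  C : ℕ → Set X
  C_clopen : ∀ n, IsClopen (C n)
  disj : ∀ n m, n ≠ m → Disjoint (C n) (C m)
  V : ℕ → ℕ → Set X
  V_clopen : ∀ n m, IsClopen (V n m)
  V_sub : ∀ n m, V n m ⊆ C n
  V_anti : ∀ n, Antitone (V n)
  V_not : ∀ n, ¬ IsOpen (⋂ m, V n m)

variable (T : Tags X)

theorem Tags.V_nonempty (n m : ℕ) : (T.V n m).Nonempty := by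
  by_contra h
  rw [Set.not_nonempty_iff_eq_empty] at h
  apply T.V_not n
  have : (⋂ m, T.V n m) = ∅ := by
    apply Set.eq_empty_of_subset_empty
    intro x hx
    have := mem_iInter.1 hx m
    rw [h] at this
    exact this
  rw [this]
  exact isOpen_empty

theorem Tags.ev_notMem (x : X) : ∃ n0, ∀ n, n0 ≤ n → x ∉ T.C n := by
  by_cases h : ∃ n, x ∈ T.C n
  · obtain ⟨n, hn⟩ := h
    refine ⟨n + 1, fun m hm hx => ?_⟩
    exact Set.disjoint_left.1 (T.disj n m (by omega)) hn hx
  · push Not at h
    exact ⟨0, fun n _ => h n⟩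

/-- A convergent sequence of functions with tags `V n (m k)` has a constant tag infinitely
often. -/
theorem Tags.const (f : ℕ → G X) (g : G X) (hf : Tendsto f atTop (𝓝 g)) (n : ℕ) (m : ℕ → ℕ)
    (h : ∀ k, sp (f k) ∩ T.C n = T.V n (m k)) :
    ∃ c, ∃ k : ℕ → ℕ, StrictMono k ∧ ∀ i, m (k i) = c := by
  rcases nat_dichotomy m with h1 | ⟨k, hk, hkm⟩
  · exact h1
  · exfalso
    apply T.V_not n
    have : (⋂ m, T.V n m) = sp g ∩ T.C n := by
      rw [tendsto_iff] at hf
      ext x
      rw [mem_iInter]
      constructor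
      · intro hx
        refine ⟨?_, T.V_sub n 0 (hx 0)⟩
        obtain ⟨j, hj⟩ := (hf x).exists
        apply hj.1
        have : x ∈ sp (f j) ∩ T.C n := by rw [h j]; exact hx _
        exact this.1
      · rintro ⟨hx, hxC⟩ l
        obtain ⟨j0, hj0⟩ := eventually_atTop.1 (hf x)
        let i := max j0 l
        have h2 : j0 ≤ k i := (le_max_left _ _).trans (hk.le_apply)
        have h3 : l ≤ m (k i) := (le_max_right j0 l).trans (hkm.le_apply)
        have h4 : x ∈ sp (f (k i)) ∩ T.C n := ⟨(hj0 _ h2).2 hx, hxC⟩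
        rw [h (k i)] at h4
        exact T.V_anti n h3 h4
    rw [this]
    exact (sp_clopen g).2.inter (T.C_clopen n).2

end Pool.Agent.Helpers29.Sq
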