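import Pool.Agent.Helpers29.Sq1

/-!
Consequences of sequentiality of `G X`: countable subcovers, convergent selections with tags,
boundedness of sequences of functions to `ℕ`.
-/

set_option autoImplicit false
set_option linter.unusedSectionVars false
universe u

namespace Pool.Agent.Helpers29.Sq

open Set Topology Filter

variable {X : Type u} [TopologicalSpace X]

/-- Countable tightness: clopen `ω`-covers have countable subcovers. -/
theorem countable_cover [SequentialSpace (G X)] (P : Set X → Prop)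
    (h : ∀ E : Finset X, ∃ O : Set X, IsClopen O ∧ P O ∧ ∀ x ∈ E, x ∈ O) :
    ∃ O : ℕ → Set X, (∀ j, IsClopen (O j) ∧ P (O j)) ∧ ∀ x, ∃ j, x ∈ O j := by
  let A : Set (G X) := {f | P (sp f)ᶜ}
  let B : Set (G X) := {f | ∃ A' : Set (G X), A'.Countable ∧ A' ⊆ A ∧ f ∈ closure A'}
  have hB : IsClosed B := by
    apply IsSeqClosed.isClosed
    intro f g hf hfg
    choose A' hc hs hm using hf
    refine ⟨⋃ k, A' k, countable_iUnion hc, iUnion_subset hs, ?_⟩
    refine isClosed_closure.mem_of_tendsto hfg ?_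
    exact Eventually.of_forall (fun k => closure_mono (subset_iUnion A' k) (hm k))
  have hAB : A ⊆ B := fun f hf =>
    ⟨{f}, countable_singleton f, singleton_subset_iff.2 hf, subset_closure rfl⟩
  have h0 : (zero : G X) ∈ B := by
    apply hB.closure_subset_iff.2 hAB
    apply mem_closure_zero
    intro E
    obtain ⟨O, hO, hP, hE⟩ := h E
    refine ⟨mk Oᶜ hO.compl, ?_, ?_⟩
    · change P (sp (mk Oᶜ hO.compl))ᶜ
      rw [sp_mk, compl_compl]
      exact hP
    · intro x hx hx2
      rw [sp_mk] at hx2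
      exact hx2 (hE x hx)
  obtain ⟨A', hc, hs, hm⟩ := h0
  have hne : A'.Nonempty := by
    by_contra hne
    rw [Set.not_nonempty_iff_eq_empty] at hne
    rw [hne, closure_empty] at hm
    exact hm
  obtain ⟨f, hf⟩ := hc.exists_eq_range hne
  refine ⟨fun j => (sp (f j))ᶜ, fun j => ⟨(sp_clopen _).compl, hs (by rw [hf]; exact mem_range_self j)⟩, ?_⟩
  intro x
  -- the set of functions not containing `x` is an open neighbourhood of zero
  have hopen : IsOpen {f : G X | f.1 x = false} := by
    have : Continuous (fun f : G X => f.1 x) := (continuous_apply x).comp continuous_subtype_val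
    exact (isOpen_discrete {false}).preimage this
  have hz : (zero : G X) ∈ {f : G X | f.1 x = false} := by
    have h3 : x ∉ sp (zero : G X) := by simp
    change ¬ (zero : G X).1 x = true at h3
    rw [Bool.not_eq_true] at h3
    exact h3
  obtain ⟨g, hg, hgA⟩ := mem_closure_iff.1 hm _ hopen hz
  rw [hf] at hgA
  obtain ⟨j, rfl⟩ := hgA
  refine ⟨j, ?_⟩
  intro hx
  change (f j).1 x = false at hg
  change (f j).1 x = true at hx
  rw [hx] at hg
  exact absurd hg (by decide)

/-- `h` is good on `O` for the rows `b`. -/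
def Good (b : ℕ → ℕ → Set X) (h : ℕ → ℕ) (O : Set X) : Prop :=
  ∀ x ∈ O, ∀ᶠ k in atTop, x ∉ b k (h k)

theorem Good.subseq {b : ℕ → ℕ → Set X} (hb : ∀ m, Monotone (fun n => b n m)) {h : ℕ → ℕ}
    {O : Set X} (hg : Good b h O) (φ : ℕ → ℕ) (hφ : StrictMono φ) : Good b (fun k => h (φ k)) O := by
  intro x hx
  have h1 := hφ.tendsto_atTop.eventually (hg x hx)
  filter_upwards [h1] with k hk hk2
  exact hk (hb _ hφ.le_apply hk2)

/-- The convergent selection. -/
theorem step [SequentialSpace (G X)] (T : Tags X) (b : ℕ → ℕ → Set X)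
    (hbc : ∀ n m, IsClopen (b n m)) (hb : ∀ m, Monotone (fun n => b n m))
    (hb0 : ∀ n x, ∀ᶠ m in atTop, x ∉ b n m) (h : ℕ → ℕ) (hh : StrictMono h) (E : Finset X) :
    ∃ φ : ℕ → ℕ, StrictMono φ ∧ ∃ O : Set X, IsClopen O ∧ (∀ x ∈ E, x ∈ O) ∧
      Good b (fun k => h (φ k)) O := by
  have hcl : ∀ n m, IsClopen ((b n (h m) \ T.C n) ∪ T.V n m) := fun n m =>
    ((hbc n (h m)).diff (T.C_clopen n)).union (T.V_clopen n m)
  let F : ℕ → ℕ → G X := fun n m => mk _ (hcl n m)
  have hF : ∀ n m, sp (F n m) = (b n (h m) \ T.C n) ∪ T.V n m := fun n m => sp_mk _ _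
  have hFC : ∀ n m, sp (F n m) ∩ T.C n = T.V n m := by
    intro n m
    rw [hF]
    ext x
    constructor
    · rintro ⟨h1 | h1, h2⟩
      · exact absurd h2 h1.2
      · exact h1
    · intro h1
      exact ⟨Or.inr h1, T.V_sub n m h1⟩
  let A : Set (G X) := {f | ∃ n m, n ≤ m ∧ f = F n m ∧ ∀ x ∈ E, x ∉ sp f}
  have h0 : (zero : G X) ∈ closure A := by
    classical
    apply mem_closure_zero
    intro E'
    have h1 : ∃ n, ∀ x ∈ E ∪ E', x ∉ T.C n := by
      choose n0 hn0 using fun x => T.ev_notMem x
      refine ⟨(E ∪ E').sup n0, fun x hx => hn0 x _ (Finset.le_sup hx)⟩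
    obtain ⟨n, hn⟩ := h1
    have h2 : ∀ᶠ m in atTop, ∀ x ∈ E ∪ E', x ∉ b n (h m) := by
      rw [Filter.eventually_all_finset]
      intro x _
      exact hh.tendsto_atTop.eventually (hb0 n x)
    obtain ⟨m, hm, hnm⟩ := (h2.and (eventually_ge_atTop n)).exists
    have h3 : ∀ x ∈ E ∪ E', x ∉ sp (F n m) := by
      intro x hx hx2
      rw [hF] at hx2
      rcases hx2 with hx2 | hx2
      · exact hm x hx hx2.1
      · exact hn x hx (T.V_sub n m hx2)
    exact ⟨F n m, ⟨n, m, hnm, rfl, fun x hx => h3 x (Finset.mem_union_left _ hx)⟩,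
      fun x hx => h3 x (Finset.mem_union_right _ hx)⟩
  have h0' : (zero : G X) ∉ A := by
    rintro ⟨n, m, _, h2, _⟩
    obtain ⟨x, hx⟩ := T.V_nonempty n m
    have : x ∈ sp (F n m) := by rw [hF]; exact Or.inr hx
    rw [← h2, sp_zero] at this
    exact this
  have hns : ¬ IsSeqClosed A := by
    intro hs
    exact h0' (hs.isClosed.closure_subset h0)
  unfold IsSeqClosed at hns
  push Not at hns
  obtain ⟨f, g, hf, hfg, hg⟩ := hns
  choose n m hnm hfF hfE using hf
  rcases nat_dichotomy n with ⟨c, k, hk, hkc⟩ | ⟨k, hk, hkn⟩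
  · exfalso
    have hfk : Tendsto (fun i => f (k i)) atTop (𝓝 g) := hfg.comp hk.tendsto_atTop
    obtain ⟨d, l, hl, hld⟩ := T.const (fun i => f (k i)) g hfk c (fun i => m (k i)) (by
      intro i
      have := hFC (n (k i)) (m (k i))
      rw [hkc i] at this
      show sp (f (k i)) ∩ T.C c = _
      rw [hfF (k i), hkc i]
      exact this)
    apply hg
    have hfl : Tendsto (fun i => f (k (l i))) atTop (𝓝 g) := hfk.comp hl.tendsto_atTop
    have hconst : ∀ i, f (k (l i)) = F c d := by
      intro i
      rw [hfF (k (l i)), hkc (l i)]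
      congr 1
      exact hld i
    have : g = F c d := by
      have h4 : Tendsto (fun i => f (k (l i))) atTop (𝓝 (F c d)) := by
        simp only [hconst]
        exact tendsto_const_nhds
      exact tendsto_nhds_unique hfl h4
    refine ⟨c, d, ?_, this, ?_⟩
    · have := hnm (k (l 0))
      rw [hkc (l 0)] at this
      have h5 := hld 0
      change m (k (l 0)) = d at h5
      omega
    · intro x hx
      rw [this, ← hconst 0]
      exact hfE _ x hx
  · -- now `n (k i)` is strictly increasing; make `m (k i)` strictly increasing as well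
    rcases nat_dichotomy (fun i => m (k i)) with ⟨c, l, hl, hlc⟩ | ⟨l, hl, hlm⟩
    · exfalso
      have h1 : c + 1 ≤ n (k (l (c + 1))) := by
        have h2 : c + 1 ≤ l (c + 1) := hl.le_apply
        exact h2.trans hkn.le_apply
      have h3 := hnm (k (l (c + 1)))
      have h4 := hlc (c + 1)
      change m (k (l (c + 1))) = c at h4
      omega
    · refine ⟨fun i => m (k (l i)), hlm, (sp g)ᶜ, (sp_clopen g).compl, ?_, ?_⟩
      · intro x hx hxg
        rw [tendsto_iff] at hfg
        obtain ⟨j, hj⟩ := (hfg x).exists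
        exact hfE j x hx (hj.2 hxg)
      · intro x hx
        have hfl : Tendsto (fun i => f (k (l i))) atTop (𝓝 g) :=
          (hfg.comp hk.tendsto_atTop).comp hl.tendsto_atTop
        rw [tendsto_iff] at hfl
        obtain ⟨n0, hn0⟩ := T.ev_notMem x
        filter_upwards [hfl x, eventually_ge_atTop n0] with i hi hin
        intro hxb
        apply hx
        apply hi.1
        rw [hfF, hF]
        have h5 : i ≤ n (k (l i)) := (hl.le_apply : i ≤ l i).trans hkn.le_apply
        exact Or.inl ⟨hb _ h5 hxb, hn0 _ (hin.trans h5)⟩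

/-- Sequences of continuous functions to `ℕ` are eventually bounded, uniformly. -/
theorem bounded_of_monotone [SequentialSpace (G X)] (T : Tags X) (g : ℕ → X → ℕ)
    (hg : ∀ n m, IsClopen {x | m ≤ g n x}) (hmono : ∀ x, Monotone (fun n => g n x)) :
    ∃ B : ℕ → ℕ, ∀ x, ∀ᶠ n in atTop, g n x ≤ B n := by
  let Bd : Set X → Prop := fun Y => ∃ B : ℕ → ℕ, ∀ x ∈ Y, ∀ᶠ n in atTop, g n x ≤ B n
  have hU : ∀ Y : ℕ → Set X, (∀ k, Bd (Y k)) → Bd (⋃ k, Y k) := by
    intro Y hY
    choose B hB using hY
    refine ⟨fun n => (Finset.range (n + 1)).sup (fun j => B j n), ?_⟩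
    intro x hx
    obtain ⟨k, hk⟩ := mem_iUnion.1 hx
    filter_upwards [hB k x hk, eventually_ge_atTop k] with n h1 h2
    exact h1.trans (Finset.le_sup (f := fun j => B j n) (Finset.mem_range.2 (by omega)))
  have hmn : ∀ Y Z : Set X, Y ⊆ Z → Bd Z → Bd Y := by
    rintro Y Z hYZ ⟨B, hB⟩
    exact ⟨B, fun x hx => hB x (hYZ hx)⟩
  let A1 : Set (G X) := {f | ∃ n m, sp f ∩ T.C n = T.V n m ∧ {x | m ≤ g n x} \ T.C n ⊆ sp f}
  let A2 : Set (G X) := {f | Bd (sp f)ᶜ}
  have hcl : IsClosed (A1 ∪ A2) := by
    apply IsSeqClosed.isClosed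
    intro f p hf hfp
    by_cases h2 : ∃ᶠ k in atTop, f k ∈ A2
    · right
      obtain ⟨k, hk, hkA⟩ := extraction_of_frequently_atTop h2
      have hfk : Tendsto (fun i => f (k i)) atTop (𝓝 p) := hfp.comp hk.tendsto_atTop
      rw [tendsto_iff] at hfk
      apply hmn _ _ _ (hU (fun i => (sp (f (k i)))ᶜ) hkA)
      intro x hx
      obtain ⟨j, hj⟩ := (hfk x).exists
      exact mem_iUnion.2 ⟨j, fun hxj => hx (hj.1 hxj)⟩
    · rw [not_frequently] at h2
      obtain ⟨N, hN⟩ := eventually_atTop.1 h2
      have hA1 : ∀ i, f (N + i) ∈ A1 := by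
        intro i
        exact (hf (N + i)).resolve_right (hN (N + i) (by omega))
      choose n m hnm hW using hA1
      have hf' : Tendsto (fun i => f (N + i)) atTop (𝓝 p) :=
        hfp.comp (tendsto_atTop_mono (fun i => Nat.le_add_left i N) tendsto_id)
      rcases nat_dichotomy n with ⟨c, k, hk, hkc⟩ | ⟨k, hk, hkn⟩
      · left
        have hfk : Tendsto (fun i => f (N + k i)) atTop (𝓝 p) := hf'.comp hk.tendsto_atTop
        obtain ⟨d, l, hl, hld⟩ := T.const (fun i => f (N + k i)) p hfk c (fun i => m (k i)) (by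
          intro i
          have := hnm (k i)
          rw [hkc i] at this
          exact this)
        have hfl : Tendsto (fun i => f (N + k (l i))) atTop (𝓝 p) := hfk.comp hl.tendsto_atTop
        rw [tendsto_iff] at hfl
        refine ⟨c, d, ?_, ?_⟩
        · ext x
          obtain ⟨j, hj⟩ := (hfl x).exists
          have h3 : sp (f (N + k (l j))) ∩ T.C c = T.V c d := by
            have := hnm (k (l j))
            rw [hkc (l j)] at this
            rw [this]
            congr 1
            exact hld j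
          rw [← h3]
          constructor
          · rintro ⟨h4, h5⟩
            exact ⟨hj.2 h4, h5⟩
          · rintro ⟨h4, h5⟩
            exact ⟨hj.1 h4, h5⟩
        · intro x hx
          obtain ⟨j, hj⟩ := (hfl x).exists
          apply hj.1
          have h3 := hW (k (l j))
          rw [hkc (l j)] at h3
          have h4 : m (k (l j)) = d := hld j
          rw [h4] at h3
          exact h3 hx
      · right
        refine ⟨fun i => m (k i), ?_⟩
        intro x hx
        have hfk : Tendsto (fun i => f (N + k i)) atTop (𝓝 p) := hf'.comp hk.tendsto_atTop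
        rw [tendsto_iff] at hfk
        obtain ⟨n0, hn0⟩ := T.ev_notMem x
        filter_upwards [hfk x, eventually_ge_atTop n0] with i hi hin
        by_contra hlt
        push Not at hlt
        apply hx
        apply hi.1
        have h5 : i ≤ n (k i) := hkn.le_apply
        apply hW (k i)
        refine ⟨?_, hn0 _ (hin.trans h5)⟩
        have h6 : g i x ≤ g (n (k i)) x := hmono x h5
        show m (k i) ≤ g (n (k i)) x
        omega
  have h0 : (zero : G X) ∈ A1 ∪ A2 := by
    apply hcl.closure_subset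
    apply mem_closure_zero
    intro E
    have h1 : ∃ n, ∀ x ∈ E, x ∉ T.C n := by
      choose n0 hn0 using fun x => T.ev_notMem x
      refine ⟨E.sup n0, fun x hx => hn0 x _ (Finset.le_sup hx)⟩
    obtain ⟨n, hn⟩ := h1
    let m := E.sup (fun x => g n x) + 1
    have hc : IsClopen (({x | m ≤ g n x} \ T.C n) ∪ T.V n m) :=
      ((hg n m).diff (T.C_clopen n)).union (T.V_clopen n m)
    refine ⟨mk _ hc, Or.inl ⟨n, m, ?_, ?_⟩, ?_⟩
    · rw [sp_mk]
      ext x
      constructor
      · rintro ⟨h1 | h1, h2⟩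
        · exact absurd h2 h1.2
        · exact h1
      · intro h1
        exact ⟨Or.inr h1, T.V_sub n m h1⟩
    · rw [sp_mk]
      exact subset_union_left
    · intro x hx
      rw [sp_mk]
      rintro (h1 | h1)
      · have h2 : m ≤ g n x := h1.1
        have h3 : g n x ≤ E.sup (fun x => g n x) := Finset.le_sup (f := fun x => g n x) hx
        omega
      · exact hn x hx (T.V_sub n m h1)
  rcases h0 with ⟨n, m, h1, _⟩ | h1
  · exfalso
    rw [sp_zero, empty_inter] at h1
    obtain ⟨x, hx⟩ := T.V_nonempty n m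
    rw [← h1] at hx
    exact hx
  · obtain ⟨B, hB⟩ := h1
    refine ⟨B, fun x => hB x ?_⟩
    rw [sp_zero]
    exact fun h => h

end Pool.Agent.Helpers29.Sq
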