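import Pool.Agent.Helpers29.Sq1

/-!
Finite picks: a Rothberger-type property for sequences of finite clopen families.
-/

set_option autoImplicit false
set_option linter.unusedSectionVars false
universe u

namespace Pool.Agent.Helpers29.Sq

open Set Topology Filter

/-- Injective choice from a sequence of infinite sets. -/
theorem exists_strictMono_choice (E : ℕ → Set ℕ) (hE : ∀ n, (E n).Infinite) :
    ∃ e : ℕ → ℕ, StrictMono e ∧ ∀ n, e n ∈ E n := by
  have h : ∀ n b, ∃ c ∈ E n, b < c := fun n b => (hE n).exists_gt b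
  choose c hc hb using h
  let e : ℕ → ℕ := fun n => Nat.rec (c 0 0) (fun k r => c (k + 1) r) n
  refine ⟨e, strictMono_nat_of_lt_succ (fun n => hb (n + 1) (e n)), ?_⟩
  intro n
  cases n with
  | zero => exact hc 0 0
  | succ k => exact hc (k + 1) (e k)

/-- Splitting: given infinite sets `D k j`, there are disjoint sets `R k` with `R k ∩ D k j`
infinite. -/
theorem exists_split (D : ℕ → ℕ → Set ℕ) (hD : ∀ k j, (D k j).Infinite) :
    ∃ R : ℕ → Set ℕ, (∀ k l, k ≠ l → Disjoint (R k) (R l)) ∧ ∀ k j, (R k ∩ D k j).Infinite := by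
  obtain ⟨e, he, hm⟩ := exists_strictMono_choice
    (fun n => D (Nat.unpair n).1 (Nat.unpair (Nat.unpair n).2).1) (fun n => hD _ _)
  refine ⟨fun k => {r | ∃ n, (Nat.unpair n).1 = k ∧ e n = r}, ?_, ?_⟩
  · intro k l hkl
    rw [Set.disjoint_left]
    rintro r ⟨n, hn, rfl⟩ ⟨n', hn', h⟩
    have : n' = n := he.injective h
    subst this
    exact hkl (hn.symm.trans hn')
  · intro k j
    have hinj : Function.Injective (fun t : ℕ => e (Nat.pair k (Nat.pair j t))) := by
      intro t t' h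
      have h1 := he.injective h
      have h2 := (Nat.pair_eq_pair.1 h1).2
      exact (Nat.pair_eq_pair.1 h2).2
    refine (Set.infinite_range_of_injective hinj).mono ?_
    rintro r ⟨t, rfl⟩
    refine ⟨⟨Nat.pair k (Nat.pair j t), by simp, rfl⟩, ?_⟩
    have := hm (Nat.pair k (Nat.pair j t))
    simpa using this

variable {X : Type u} [TopologicalSpace X]

/-- Block covering sets. -/
def blk {ι : ℕ → Type} (U : ∀ n, ι n → Set X) (r : ℕ) (τ : ∀ n, ι n) : Set X :=
  {x | ∃ n, r * r ≤ n ∧ n < r * r + r ∧ x ∈ U n (τ n)}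

theorem blk_clopen {ι : ℕ → Type} (U : ∀ n, ι n → Set X) (hU : ∀ n i, IsClopen (U n i))
    (r : ℕ) (τ : ∀ n, ι n) : IsClopen (blk U r τ) := by
  have : blk U r τ = ⋃ n ∈ Finset.Ico (r * r) (r * r + r), U n (τ n) := by
    ext x
    simp only [blk, mem_iUnion, Finset.mem_Ico]
    constructor
    · rintro ⟨n, h1, h2, h3⟩
      exact ⟨n, ⟨h1, h2⟩, h3⟩
    · rintro ⟨n, ⟨h1, h2⟩, h3⟩
      exact ⟨n, h1, h2, h3⟩
  rw [this]
  exact Set.Finite.isClopen_biUnion (Finset.finite_toSet _) (fun n _ => hU n _)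

theorem blk_congr {ι : ℕ → Type} (U : ∀ n, ι n → Set X) (r : ℕ) (τ σ : ∀ n, ι n)
    (h : ∀ n, r * r ≤ n → n < r * r + r → τ n = σ n) : blk U r τ = blk U r σ := by
  ext x
  constructor
  · rintro ⟨n, h1, h2, h3⟩
    exact ⟨n, h1, h2, by rw [← h n h1 h2]; exact h3⟩
  · rintro ⟨n, h1, h2, h3⟩
    exact ⟨n, h1, h2, by rw [h n h1 h2]; exact h3⟩

/-- For a fixed block there are finitely many sets: a constant one occurs infinitely often. -/
theorem blk_const {ι : ℕ → Type} [∀ n, Finite (ι n)] (U : ∀ n, ι n → Set X) (r : ℕ)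
    (τ : ℕ → ∀ n, ι n) : ∃ σ : ∀ n, ι n, ∃ᶠ k in atTop, blk U r (τ k) = blk U r σ := by
  let p : ℕ → (∀ n : Finset.Ico (r * r) (r * r + r), ι n) := fun k n => τ k n
  obtain ⟨y, hy⟩ := Finite.exists_infinite_fiber p
  have hy' : (p ⁻¹' {y}).Infinite := Set.infinite_coe_iff.1 hy
  obtain ⟨k0, hk0⟩ := hy'.nonempty
  refine ⟨τ k0, ?_⟩
  rw [Nat.frequently_atTop_iff_infinite]
  refine hy'.mono ?_
  intro k hk
  apply blk_congr
  intro n h1 h2
  have h3 : p k = p k0 := by
    rw [mem_preimage, mem_singleton_iff] at hk hk0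
    rw [hk, hk0]
  exact congrFun h3 ⟨n, Finset.mem_Ico.2 ⟨h1, h2⟩⟩

/-- The invariant. -/
def Inv {ι : ℕ → Type} (U : ∀ n, ι n → Set X) (Y : Set X) : Prop :=
  (∃ r τ, Y ⊆ blk U r τ) ∨
  ∃ D : ℕ → Set ℕ, (∀ j, (D j).Infinite) ∧ ∀ R : Set ℕ, (∀ j, (R ∩ D j).Infinite) →
    ∃ τ : ℕ → ∀ n, ι n, ∀ x ∈ Y, ∃ r ∈ R, x ∈ blk U r (τ r)

theorem picks [SequentialSpace (G X)] {ι : ℕ → Type} [∀ n, Finite (ι n)] [∀ n, Nonempty (ι n)]
    (U : ∀ n, ι n → Set X) (hU : ∀ n i, IsClopen (U n i))
    (hcov : ∀ x, ∀ᶠ n in atTop, ∃ i, x ∈ U n i) :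
    ∃ t : ∀ n, ι n, ∀ x, ∃ n, x ∈ U n (t n) := by
  classical
  let A : Set (G X) := {f | Inv U (sp f)ᶜ}
  have hcl : IsClosed A := by
    apply IsSeqClosed.isClosed
    intro f p hf hfp
    by_cases h2 : ∃ᶠ k in atTop, ∃ D : ℕ → Set ℕ, (∀ j, (D j).Infinite) ∧
        ∀ R : Set ℕ, (∀ j, (R ∩ D j).Infinite) →
          ∃ τ : ℕ → ∀ n, ι n, ∀ x ∈ (sp (f k))ᶜ, ∃ r ∈ R, x ∈ blk U r (τ r)
    · obtain ⟨k, hk, hkD⟩ := extraction_of_frequently_atTop h2
      choose D hDi hD using hkD
      have hfk : Tendsto (fun i => f (k i)) atTop (𝓝 p) := hfp.comp hk.tendsto_atTop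
      rw [tendsto_iff] at hfk
      right
      refine ⟨fun n => D (Nat.unpair n).1 (Nat.unpair n).2, fun j => hDi _ _, ?_⟩
      intro R hR
      obtain ⟨S, hSd, hS⟩ := exists_split (fun i j => R ∩ D i j) (fun i j => by
        have := hR (Nat.pair i j)
        simpa using this)
      have h3 : ∀ i, ∃ τ : ℕ → ∀ n, ι n, ∀ x ∈ (sp (f (k i)))ᶜ, ∃ r ∈ S i ∩ R,
          x ∈ blk U r (τ r) := by
        intro i
        apply hD i (S i ∩ R)
        intro j
        have := hS i j
        refine this.mono ?_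
        rintro r ⟨h4, h5, h6⟩
        exact ⟨⟨h4, h5⟩, h6⟩
      choose τ hτ using h3
      refine ⟨fun r => if h : ∃ i, r ∈ S i then τ h.choose r else τ 0 r, ?_⟩
      intro x hx
      obtain ⟨i, hi⟩ := (hfk x).exists
      obtain ⟨r, ⟨hrS, hrR⟩, hxr⟩ := hτ i x (fun h4 => hx (hi.1 h4))
      refine ⟨r, hrR, ?_⟩
      have hex : ∃ i, r ∈ S i := ⟨i, hrS⟩
      have hii : hex.choose = i := by
        by_contra hne
        exact Set.disjoint_left.1 (hSd _ _ hne) hex.choose_spec hrS
      beta_reduce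
      rw [dif_pos hex, hii]
      exact hxr
    · rw [not_frequently] at h2
      obtain ⟨N, hN⟩ := eventually_atTop.1 h2
      have hS : ∀ i, ∃ r τ, (sp (f (N + i)))ᶜ ⊆ blk U r τ := by
        intro i
        rcases hf (N + i) with h3 | h3
        · exact h3
        · exact absurd h3 (hN _ (by omega))
      choose r τ hS using hS
      have hf' : Tendsto (fun i => f (N + i)) atTop (𝓝 p) :=
        hfp.comp (tendsto_atTop_mono (fun i => Nat.le_add_left i N) tendsto_id)
      rcases nat_dichotomy r with ⟨c, k, hk, hkc⟩ | ⟨k, hk, hkr⟩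
      · left
        obtain ⟨σ, hσ⟩ := blk_const U c (fun i => τ (k i))
        obtain ⟨l, hl, hlσ⟩ := extraction_of_frequently_atTop hσ
        refine ⟨c, σ, ?_⟩
        have hfl : Tendsto (fun i => f (N + k (l i))) atTop (𝓝 p) :=
          (hf'.comp hk.tendsto_atTop).comp hl.tendsto_atTop
        rw [tendsto_iff] at hfl
        intro x hx
        obtain ⟨i, hi⟩ := (hfl x).exists
        rw [← hlσ i]
        have h4 := hS (k (l i)) (fun h5 => hx (hi.1 h5))
        rw [hkc (l i)] at h4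
        exact h4
      · right
        have hfk : Tendsto (fun i => f (N + k i)) atTop (𝓝 p) := hf'.comp hk.tendsto_atTop
        rw [tendsto_iff] at hfk
        refine ⟨fun _ => range (fun i => r (k i)), fun _ =>
          Set.infinite_range_of_injective hkr.injective, ?_⟩
        intro R hR
        refine ⟨fun s => if h : ∃ i, r (k i) = s then τ (k h.choose) else τ 0, ?_⟩
        intro x hx
        obtain ⟨i0, hi0⟩ := eventually_atTop.1 (hfk x)
        obtain ⟨s, ⟨hsR, i, hi⟩, hsi⟩ := (hR 0).exists_gt (r (k i0))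
        refine ⟨s, hsR, ?_⟩
        change r (k i) = s at hi
        have hex : ∃ i, r (k i) = s := ⟨i, hi⟩
        have hii : hex.choose = i := hkr.injective (hex.choose_spec.trans hi.symm)
        beta_reduce
        rw [dif_pos hex, hii]
        have h6 : i0 ≤ i := by
          by_contra hlt
          push Not at hlt
          have h7 : r (k i) < r (k i0) := hkr hlt
          omega
        have h7 := hS (k i) (fun h5 => hx ((hi0 i h6).1 h5))
        rw [hi] at h7
        exact h7
  have h0 : (zero : G X) ∈ A := by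
    apply hcl.closure_subset
    apply mem_closure_zero
    intro E
    choose n0 hn0 using fun x => eventually_atTop.1 (hcov x)
    let r := max (E.card + 1) (E.sup n0)
    have hr1 : E.card ≤ r := by
      have : E.card + 1 ≤ r := le_max_left _ _
      omega
    have hr0 : 1 ≤ r := by
      have : E.card + 1 ≤ r := le_max_left _ _
      omega
    have hr2 : ∀ x ∈ E, ∀ n, r * r ≤ n → ∃ i, x ∈ U n i := by
      intro x hx n hn
      apply hn0 x n
      have h1 : n0 x ≤ E.sup n0 := Finset.le_sup hx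
      have h2 : E.sup n0 ≤ r := le_max_right _ _
      have h3 : r ≤ r * r := Nat.le_mul_self r
      omega
    -- enumerate `E`
    let e := E.equivFin
    have h3 : ∀ x : E, ∃ i : ι (r * r + (e x : ℕ)), x.1 ∈ U (r * r + (e x : ℕ)) i := fun x =>
      hr2 x.1 x.2 _ (by omega)
    choose i hi using h3
    let τ : ∀ n, ι n := fun n =>
      if h : ∃ x : E, r * r + (e x : ℕ) = n then h.choose_spec ▸ i h.choose else Classical.arbitrary _
    have hτ : ∀ x : E, x.1 ∈ U (r * r + (e x : ℕ)) (τ (r * r + (e x : ℕ))) := by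
      intro x
      have hex : ∃ y : E, r * r + (e y : ℕ) = r * r + (e x : ℕ) := ⟨x, rfl⟩
      have hyx : hex.choose = x := by
        have := hex.choose_spec
        apply e.injective
        apply Fin.ext
        omega
      have h4 : τ (r * r + (e x : ℕ)) = i x := by
        show (if h : ∃ y : E, r * r + (e y : ℕ) = r * r + (e x : ℕ) then
          h.choose_spec ▸ i h.choose else Classical.arbitrary _) = i x
        rw [dif_pos hex]
        have : ∀ (y : E) (hy : r * r + (e y : ℕ) = r * r + (e x : ℕ)), y = x →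
            (hy ▸ i y : ι (r * r + (e x : ℕ))) = i x := by
          intro y hy hyx
          subst hyx
          rfl
        exact this _ _ hyx
      rw [h4]
      exact hi x
    refine ⟨mk (blk U r τ)ᶜ (blk_clopen U hU r τ).compl, Or.inl ⟨r, τ, ?_⟩, ?_⟩
    · rw [sp_mk, compl_compl]
    · intro x hx
      rw [sp_mk]
      intro hn
      apply hn
      have hlt : ((e ⟨x, hx⟩ : Fin E.card) : ℕ) < E.card := (e ⟨x, hx⟩).2
      exact ⟨r * r + (e ⟨x, hx⟩ : ℕ), by omega, by omega, hτ ⟨x, hx⟩⟩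
  rcases h0 with ⟨r, τ, h1⟩ | ⟨D, hDi, hD⟩
  · refine ⟨τ, fun x => ?_⟩
    have : x ∈ blk U r τ := h1 (by rw [sp_zero]; exact fun h => h)
    obtain ⟨n, _, _, hn⟩ := this
    exact ⟨n, hn⟩
  · obtain ⟨τ, hτ⟩ := hD univ (fun j => by rw [univ_inter]; exact hDi j)
    refine ⟨fun n => τ (Nat.sqrt n) n, fun x => ?_⟩
    obtain ⟨r, _, n, h1, h2, h3⟩ := hτ x (by rw [sp_zero]; exact fun h => h)
    have h4 : r = Nat.sqrt n := by
      rw [Nat.eq_sqrt]
      constructor
      · exact h1
      · nlinarith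
    refine ⟨n, ?_⟩
    beta_reduce
    rw [← h4]
    exact h3

end Pool.Agent.Helpers29.Sq
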