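import Pool.Agent.Helpers29.Sq2
import Pool.Agent.Helpers29.Sq3

/-!
The case when there are tags: good selections exist.
-/

set_option autoImplicit false
set_option linter.unusedSectionVars false
universe u

namespace Pool.Agent.Helpers29.Sq

open Set Topology Filter

variable {X : Type u} [TopologicalSpace X]

theorem bounded [SequentialSpace (G X)] (T : Tags X) (L : ℕ → ℕ → Set X)
    (hL : ∀ n l, IsClopen (L n l)) (hmono : ∀ n, Monotone (L n))
    (hcov : ∀ n x, ∃ l, x ∈ L n l) : ∃ B : ℕ → ℕ, ∀ x, ∀ᶠ n in atTop, x ∈ L n (B n) := by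
  classical
  have hex : ∀ n x, ∃ l, ∀ i ≤ n, x ∈ L i l := by
    intro n x
    choose l hl using fun i => hcov i x
    refine ⟨(Finset.range (n + 1)).sup l, fun i hi => ?_⟩
    exact hmono i (Finset.le_sup (Finset.mem_range.2 (by omega))) (hl i)
  let g : ℕ → X → ℕ := fun n x => Nat.find (hex n x)
  have hg : ∀ n m, IsClopen {x | m ≤ g n x} := by
    intro n m
    cases m with
    | zero =>
      have : {x | 0 ≤ g n x} = univ := by ext x; simp
      rw [this]
      exact isClopen_univ
    | succ m =>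
      have : {x | m + 1 ≤ g n x} = (⋂ i ∈ Finset.range (n + 1), L i m)ᶜ := by
        ext x
        simp only [mem_compl_iff, mem_iInter, Finset.mem_range]
        constructor
        · intro h1 h2
          have h3 : Nat.find (hex n x) ≤ m := Nat.find_min' _ (fun i hi => h2 i (by omega))
          have h4 : m + 1 ≤ Nat.find (hex n x) := h1
          omega
        · intro h1
          show m + 1 ≤ Nat.find (hex n x)
          by_contra h2
          apply h1
          intro i hi
          exact hmono i (by omega) (Nat.find_spec (hex n x) i (by omega))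
      rw [this]
      exact (Set.Finite.isClopen_biInter (Finset.finite_toSet _) (fun i _ => hL i m)).compl
  obtain ⟨B, hB⟩ := bounded_of_monotone T g hg (by
    intro x n n' hn
    show Nat.find (hex n x) ≤ Nat.find (hex n' x)
    apply Nat.find_min'
    intro i hi
    exact Nat.find_spec (hex n' x) i (hi.trans hn))
  refine ⟨B, fun x => ?_⟩
  filter_upwards [hB x] with n hn
  exact hmono n hn (Nat.find_spec (hex n x) n le_rfl)

/-- Strictly increasing sequences. -/
abbrev St : Type := {φ : ℕ → ℕ // StrictMono φ}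

theorem exists_next [SequentialSpace (G X)] (T : Tags X) (b : ℕ → ℕ → Set X)
    (hbc : ∀ n m, IsClopen (b n m)) (hb : ∀ m, Monotone (fun n => b n m))
    (hb0 : ∀ n x, ∀ᶠ m in atTop, x ∉ b n m) (h : St) :
    ∃ O : ℕ → Set X, ∃ φ : ℕ → St, (∀ j, IsClopen (O j)) ∧ (∀ x, ∃ j, x ∈ O j) ∧
      ∀ j, Good b (fun k => h.1 ((φ j).1 k)) (O j) := by
  obtain ⟨O, hO, hc⟩ := countable_cover (X := X)
    (fun O => ∃ φ : St, Good b (fun k => h.1 (φ.1 k)) O) (by
      intro E
      obtain ⟨φ, hφ, O, hO, hE, hg⟩ := step T b hbc hb hb0 h.1 h.2 E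
      exact ⟨O, hO, ⟨⟨φ, hφ⟩, hg⟩, hE⟩)
  choose φ hφ using fun j => (hO j).2
  exact ⟨O, φ, fun j => (hO j).1, hc, hφ⟩

/-- The finite sets of nodes. -/
def Sn : List ℕ → Finset (List ℕ)
  | [] => {[]}
  | c :: t => Finset.image₂ List.cons (Finset.range (c + 1)) (Sn t)

theorem cons_mem_Sn (c j : ℕ) (t s : List ℕ) (hs : s ∈ Sn t) (hj : j ≤ c) :
    j :: s ∈ Sn (c :: t) := by
  unfold Sn
  rw [Finset.mem_image₂]
  exact ⟨j, Finset.mem_range.2 (by omega), s, hs, rfl⟩

theorem exists_good_of_tags [SequentialSpace (G X)] (T : Tags X) (b : ℕ → ℕ → Set X)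
    (hbc : ∀ n m, IsClopen (b n m)) (hb : ∀ m, Monotone (fun n => b n m))
    (hb0 : ∀ n x, ∀ᶠ m in atTop, x ∉ b n m) :
    ∃ h : ℕ → ℕ, ∀ x, ∀ᶠ k in atTop, x ∉ b k (h k) := by
  classical
  choose O φ hOc hOcov hOg using fun h : St => exists_next T b hbc hb hb0 h
  -- states of nodes
  let st : List ℕ → St := fun s => List.rec (motive := fun _ => St) ⟨id, strictMono_id⟩
    (fun j _ h => ⟨fun k => h.1 ((φ h j).1 k), h.2.comp (φ h j).2⟩) s
  have st_cons : ∀ j s, st (j :: s) = ⟨fun k => (st s).1 ((φ (st s) j).1 k),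
      (st s).2.comp (φ (st s) j).2⟩ := fun j s => rfl
  -- the bounding
  let L : List ℕ → ℕ → Set X := fun t l => {x | ∀ s ∈ Sn t, ∃ j ≤ l, x ∈ O (st s) j}
  have hLc : ∀ t l, IsClopen (L t l) := by
    intro t l
    have : L t l = ⋂ s ∈ Sn t, ⋃ j ∈ Finset.range (l + 1), O (st s) j := by
      ext x
      simp only [L, mem_setOf_eq, mem_iInter, mem_iUnion, Finset.mem_range]
      refine forall_congr' (fun s => forall_congr' (fun _ => ?_))
      constructor
      · rintro ⟨j, h1, h2⟩
        exact ⟨j, by omega, h2⟩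
      · rintro ⟨j, h1, h2⟩
        exact ⟨j, by omega, h2⟩
    rw [this]
    exact Set.Finite.isClopen_biInter (Finset.finite_toSet _) (fun s _ =>
      Set.Finite.isClopen_biUnion (Finset.finite_toSet _) (fun j _ => hOc _ _))
  have hLm : ∀ t, Monotone (L t) := by
    intro t l l' hl x hx s hs
    obtain ⟨j, h1, h2⟩ := hx s hs
    exact ⟨j, h1.trans hl, h2⟩
  have hLcov : ∀ t x, ∃ l, x ∈ L t l := by
    intro t x
    choose j hj using fun s => hOcov (st s) x
    exact ⟨(Sn t).sup j, fun s hs => ⟨j s, Finset.le_sup hs, hj s⟩⟩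
  obtain ⟨B0, hB0⟩ := bounded T (fun n => L (Denumerable.ofNat (List ℕ) n))
    (fun n l => hLc _ l) (fun n => hLm _) (fun n x => hLcov _ x)
  let B : List ℕ → ℕ := fun t => B0 (Encodable.encode t)
  let t : ℕ → List ℕ := fun n => Nat.rec (motive := fun _ => List ℕ) [] (fun _ r => B r :: r) n
  have t_succ : ∀ n, t (n + 1) = B (t n) :: t n := fun n => rfl
  have t_len : ∀ n, (t n).length = n := by
    intro n
    induction n with
    | zero => rfl
    | succ n ih => rw [t_succ, List.length_cons, ih]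
  have hev : ∀ x, ∀ᶠ n in atTop, x ∈ L (t n) (B (t n)) := by
    intro x
    have hinj : Function.Injective (fun n => Encodable.encode (t n)) := by
      intro n n' h
      have h1 : t n = t n' := Encodable.encode_injective h
      rw [← t_len n, ← t_len n', h1]
    have h1 := hinj.tendsto_cofinite
    rw [Nat.cofinite_eq_atTop] at h1
    have h2 := h1.eventually (hB0 x)
    filter_upwards [h2] with n hn
    have h3 : Denumerable.ofNat (List ℕ) (Encodable.encode (t n)) = t n :=
      Denumerable.ofNat_encode _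
    rw [h3] at hn
    exact hn
  -- the finite picks
  obtain ⟨c, hc⟩ := picks (X := X) (ι := fun n => ({s // s ∈ Sn (t n)} → Fin (B (t n) + 1)))
    (fun n c => ⋂ s, O (st s.1) (c s)) (fun n c => isClopen_iInter_of_finite (fun s => hOc _ _))
    (by
      intro x
      filter_upwards [hev x] with n hn
      choose j hj1 hj2 using hn
      refine ⟨fun s => ⟨j s.1 s.2, by have := hj1 s.1 s.2; omega⟩, ?_⟩
      rw [mem_iInter]
      intro s
      exact hj2 s.1 s.2)
  -- the branch
  let br : ∀ n, {s // s ∈ Sn (t n)} := fun n => Nat.rec (motive := fun n => {s // s ∈ Sn (t n)})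
    ⟨[], by show [] ∈ Sn []; simp [Sn]⟩
    (fun n r => ⟨(c n r : ℕ) :: r.1, cons_mem_Sn _ _ _ _ r.2 (Nat.lt_succ_iff.1 (c n r).2)⟩) n
  have br_succ : ∀ n, (br (n + 1)).1 = (c n (br n) : ℕ) :: (br n).1 := fun n => rfl
  let h : ℕ → St := fun n => st (br n).1
  have h_succ : ∀ n, ∀ k, (h (n + 1)).1 k = (h n).1 ((φ (h n) (c n (br n))).1 k) := by
    intro n k
    show (st (br (n + 1)).1).1 k = _
    rw [br_succ, st_cons]
  have h_sub : ∀ n i, ∃ ψ : ℕ → ℕ, StrictMono ψ ∧ ∀ k, (h (n + i)).1 k = (h n).1 (ψ k) := by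
    intro n i
    induction i with
    | zero => exact ⟨id, strictMono_id, fun k => rfl⟩
    | succ i ih =>
      obtain ⟨ψ, hψ, hψ2⟩ := ih
      refine ⟨fun k => ψ ((φ (h (n + i)) (c (n + i) (br (n + i)))).1 k), hψ.comp (φ _ _).2, ?_⟩
      intro k
      have := h_succ (n + i) k
      rw [show n + (i + 1) = n + i + 1 from rfl, this, hψ2]
  refine ⟨fun k => (h k).1 k, ?_⟩
  intro x
  obtain ⟨n, hn⟩ := hc x
  have hxO : x ∈ O (h n) (c n (br n)) := mem_iInter.1 hn (br n)
  have hg := hOg (h n) (c n (br n)) x hxO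
  obtain ⟨j0, hj0⟩ := eventually_atTop.1 hg
  filter_upwards [eventually_ge_atTop (max j0 (n + 1))] with k hk
  intro hxk
  have hk1 : j0 ≤ k := (le_max_left _ _).trans hk
  have hk2 : n + 1 ≤ k := (le_max_right _ _).trans hk
  obtain ⟨i, rfl⟩ := Nat.exists_eq_add_of_le hk2
  obtain ⟨ψ, hψ, hψ2⟩ := h_sub (n + 1) i
  have h1 : (h (n + 1 + i)).1 (n + 1 + i) = (h (n + 1)).1 (ψ (n + 1 + i)) := hψ2 _
  have h2 : n + 1 + i ≤ ψ (n + 1 + i) := hψ.le_apply
  have h3 := hj0 (ψ (n + 1 + i)) (hk1.trans h2)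
  beta_reduce at h3
  rw [← h_succ, ← h1] at h3
  exact h3 (hb _ h2 hxk)

end Pool.Agent.Helpers29.Sq
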