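import Pool.Agent.Helpers29.Sq4

/-!
The case without tags, and the theorem: if `C_p(X, 𝔻)` is sequential then it is Fréchet–Urysohn.
-/

set_option autoImplicit false
set_option linter.unusedSectionVars false
universe u

namespace Pool.Agent.Helpers29.Sq

open Set Topology Filter

variable {X : Type u} [TopologicalSpace X]

/-- `C` contains a decreasing sequence of clopen sets with a non-open intersection. -/
def NP (C : Set X) : Prop :=
  ∃ V : ℕ → Set X, (∀ m, IsClopen (V m)) ∧ (∀ m, V m ⊆ C) ∧ Antitone V ∧ ¬ IsOpen (⋂ m, V m)

section NoTags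

variable (β : ℕ → Set X)

open Classical in
/-- The characteristic map of the sequence. -/
noncomputable def psi (x : X) : ℕ → Bool := fun i => decide (x ∈ β i)

/-- The cells. -/
def cell (y : ℕ → Bool) (n : ℕ) : Set X := {x | ∀ i < n, psi β x i = y i}

theorem psi_true (x : X) (i : ℕ) : psi β x i = true ↔ x ∈ β i := by
  classical
  unfold psi
  exact decide_eq_true_iff

theorem isClopen_eq (hβ : ∀ i, IsClopen (β i)) (i : ℕ) (c : Bool) :
    IsClopen {x | psi β x i = c} := by
  cases c
  · have : {x | psi β x i = false} = (β i)ᶜ := by
      ext x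
      have := psi_true β x i
      constructor
      · intro h hx
        rw [← this] at hx
        rw [mem_setOf_eq, hx] at h
        exact absurd h (by decide)
      · intro hx
        rw [mem_setOf_eq, ← Bool.not_eq_true, this]
        exact hx
    rw [this]
    exact (hβ i).compl
  · have : {x | psi β x i = true} = β i := by
      ext x
      exact psi_true β x i
    rw [this]
    exact hβ i

theorem cell_clopen (hβ : ∀ i, IsClopen (β i)) (y : ℕ → Bool) (n : ℕ) : IsClopen (cell β y n) := by
  have : cell β y n = ⋂ i ∈ Finset.range n, {x | psi β x i = y i} := by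
    ext x
    simp [cell]
  rw [this]
  exact Set.Finite.isClopen_biInter (Finset.finite_toSet _) (fun i _ => isClopen_eq β hβ i _)

theorem cell_anti (y : ℕ → Bool) : Antitone (cell β y) := fun _ _ h _ hx i hi =>
  hx i (lt_of_lt_of_le hi h)

theorem cell_congr (y z : ℕ → Bool) (n : ℕ) (h : ∀ i < n, y i = z i) : cell β y n = cell β z n := by
  ext x
  constructor
  · intro hx i hi
    rw [hx i hi, h i hi]
  · intro hx i hi
    rw [hx i hi, h i hi]

/-- On a clopen set without such sequences the map `psi` has countably many values. -/
theorem countable_of_not_NP [SequentialSpace (G X)] (hβ : ∀ i, IsClopen (β i)) (C : Set X)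
    (hC : IsClopen C) (h : ¬ NP C) : (psi β '' C).Countable := by
  classical
  have hK : ∀ y : ℕ → Bool, IsClopen (C ∩ {x | psi β x = y}) := by
    intro y
    have heq : C ∩ {x | psi β x = y} = ⋂ m, (C ∩ cell β y m) := by
      ext x
      rw [mem_iInter]
      constructor
      · rintro ⟨h1, h2⟩ m
        exact ⟨h1, fun i _ => congrFun h2 i⟩
      · intro hx
        refine ⟨(hx 0).1, ?_⟩
        show psi β x = y
        funext i
        exact (hx (i + 1)).2 i (by omega)
    have hcl : ∀ m, IsClopen (C ∩ cell β y m) := fun m => hC.inter (cell_clopen β hβ y m)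
    refine ⟨?_, ?_⟩
    · rw [heq]
      exact isClosed_iInter (fun m => (hcl m).1)
    · by_contra hno
      rw [heq] at hno
      exact h ⟨fun m => C ∩ cell β y m, hcl, fun m => inter_subset_left, fun m m' hm =>
        inter_subset_inter_right _ (cell_anti β y hm), hno⟩
  obtain ⟨O, hO, hcov⟩ := countable_cover (X := X)
    (fun O => ∃ F : Finset (ℕ → Bool), ∀ x ∈ O, x ∈ C → psi β x ∈ F) (by
      intro E
      refine ⟨Cᶜ ∪ ⋃ x ∈ E, (C ∩ {z | psi β z = psi β x}), ?_, ⟨E.image (psi β), ?_⟩, ?_⟩
      · exact hC.compl.union (Set.Finite.isClopen_biUnion (Finset.finite_toSet _)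
          (fun x _ => hK _))
      · intro x hx hxC
        rcases hx with hx | hx
        · exact absurd hxC hx
        · simp only [mem_iUnion] at hx
          obtain ⟨z, hz, _, hxz⟩ := hx
          have hxz' : psi β x = psi β z := hxz
          rw [hxz']
          exact Finset.mem_image_of_mem _ hz
      · intro x hx
        by_cases hxC : x ∈ C
        · right
          simp only [mem_iUnion]
          exact ⟨x, hx, hxC, rfl⟩
        · exact Or.inl hxC)
  choose F hF using fun j => (hO j).2
  refine (countable_iUnion (fun j => (F j).countable_toSet)).mono ?_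
  rintro y ⟨x, hx, rfl⟩
  obtain ⟨j, hj⟩ := hcov x
  exact mem_iUnion.2 ⟨j, hF j x hj hx⟩

theorem countable_range_psi [SequentialSpace (G X)] (hβ : ∀ i, IsClopen (β i))
    (hno : ¬ Nonempty (Tags X)) : (range (psi β)).Countable := by
  classical
  -- the codes of cells
  let cd : (ℕ → Bool) → ℕ → List Bool := fun y n => (List.range n).map y
  have hcd : ∀ y z n m, cd y n = cd z m → n = m ∧ ∀ i < n, y i = z i := by
    intro y z n m h
    have h1 : n = m := by
      have := congrArg List.length h
      simpa [cd] using this
    subst h1
    refine ⟨rfl, ?_⟩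
    intro i hi
    have h2 : (List.range n).map y = (List.range n).map z := h
    rw [List.map_inj_left] at h2
    exact h2 i (by simpa using hi)
  -- heavy points
  let Hv : Set (ℕ → Bool) := {y | ∀ n, NP (cell β y n)}
  have hsib : ∀ y ∈ Hv, ∃ n0, ∀ n, n0 ≤ n →
      ¬ NP (cell β (Function.update y n (!(y n))) (n + 1)) := by
    intro y _
    by_contra hcon
    push Not at hcon
    have hfr : ∃ᶠ n in atTop, NP (cell β (Function.update y n (!(y n))) (n + 1)) := by
      rw [frequently_atTop]
      intro a
      obtain ⟨n, h1, h2⟩ := hcon a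
      exact ⟨n, h1, h2⟩
    obtain ⟨k, hk, hkn⟩ := extraction_of_frequently_atTop hfr
    choose V hV1 hV2 hV3 hV4 using hkn
    apply hno
    refine ⟨⟨fun i => cell β (Function.update y (k i) (!(y (k i)))) (k i + 1),
      fun i => cell_clopen β hβ _ _, ?_, V, hV1, hV2, hV3, hV4⟩⟩
    have key : ∀ i j, i < j → Disjoint
        (cell β (Function.update y (k i) (!(y (k i)))) (k i + 1))
        (cell β (Function.update y (k j) (!(y (k j)))) (k j + 1)) := by
      intro i j hij
      rw [Set.disjoint_left]
      intro x hx hx'
      have hlt : k i < k j := hk hij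
      have h1 := hx (k i) (by omega)
      have h2 := hx' (k i) (by omega)
      rw [Function.update_self] at h1
      rw [Function.update_of_ne (by omega)] at h2
      rw [h1] at h2
      revert h2
      cases y (k i) <;> decide
    intro i j hij
    rcases lt_or_gt_of_ne hij with h | h
    · exact key i j h
    · exact (key j i h).symm
  choose! n0 hn0 using hsib
  have hHv : Hv.Countable := by
    have hinj : Set.InjOn (fun y => cd y (n0 y)) Hv := by
      intro y hy z hz h
      obtain ⟨h1, h2⟩ := hcd _ _ _ _ h
      by_contra hne
      have hex : ∃ i, y i ≠ z i := Function.ne_iff.1 hne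
      let n := Nat.find hex
      have hn : y n ≠ z n := Nat.find_spec hex
      have hlt : ∀ i < n, y i = z i := fun i hi => by
        by_contra h3
        exact Nat.find_min hex hi h3
      have hle : n0 y ≤ n := by
        by_contra h3
        push Not at h3
        exact hn (h2 n h3)
      apply hn0 y hy n hle
      have heq : cell β (Function.update y n (!(y n))) (n + 1) = cell β z (n + 1) := by
        apply cell_congr
        intro i hi
        rcases Nat.lt_succ_iff_lt_or_eq.1 hi with h4 | h4
        · rw [Function.update_of_ne (by omega)]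
          exact hlt i h4
        · subst h4
          rw [Function.update_self]
          revert hn
          cases y n <;> cases z n <;> decide
      rw [heq]
      exact hz (n + 1)
    exact Set.countable_of_injective_of_countable_image hinj (to_countable _)
  -- all values
  have hsub : range (psi β) ⊆ Hv ∪ ⋃ s : {s : List Bool // ∃ y n, cd y n = s ∧ ¬ NP (cell β y n)},
      psi β '' (cell β s.2.choose s.2.choose_spec.choose) := by
    rintro y ⟨x, rfl⟩
    by_cases hx : psi β x ∈ Hv
    · exact Or.inl hx
    · right
      have hx' : ¬ ∀ n, NP (cell β (psi β x) n) := hx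
      push Not at hx'
      obtain ⟨n, hn⟩ := hx'
      refine mem_iUnion.2 ⟨⟨cd (psi β x) n, psi β x, n, rfl, hn⟩, ?_⟩
      have hex : ∃ y m, cd y m = cd (psi β x) n ∧ ¬ NP (cell β y m) := ⟨psi β x, n, rfl, hn⟩
      refine ⟨x, ?_, rfl⟩
      show x ∈ cell β hex.choose hex.choose_spec.choose
      obtain ⟨h1, h2⟩ := hcd _ _ _ _ hex.choose_spec.choose_spec.1
      intro i hi
      exact (h2 i hi).symm
  refine (hHv.union (countable_iUnion (fun s => ?_))).mono hsub
  exact countable_of_not_NP β hβ _ (cell_clopen β hβ _ _) s.2.choose_spec.choose_spec.2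

end NoTags

theorem exists_good [SequentialSpace (G X)] (b : ℕ → ℕ → Set X)
    (hbc : ∀ n m, IsClopen (b n m)) (hb : ∀ m, Monotone (fun n => b n m))
    (hb0 : ∀ n x, ∀ᶠ m in atTop, x ∉ b n m) :
    ∃ h : ℕ → ℕ, ∀ x, ∀ᶠ k in atTop, x ∉ b k (h k) := by
  classical
  by_cases hT : Nonempty (Tags X)
  · obtain ⟨T⟩ := hT
    exact exists_good_of_tags T b hbc hb hb0
  · rcases isEmpty_or_nonempty X with hX | hX
    · exact ⟨id, fun x => (hX.false x).elim⟩
    · let β : ℕ → Set X := fun i => b (Nat.unpair i).1 (Nat.unpair i).2
      have hc := countable_range_psi β (fun i => hbc _ _) hT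
      obtain ⟨y, hy⟩ := hc.exists_eq_range (range_nonempty _)
      have hex : ∀ j, ∃ x, psi β x = y j := by
        intro j
        have : y j ∈ range (psi β) := by rw [hy]; exact mem_range_self j
        exact this
      choose x hx using hex
      have h1 : ∀ k, ∃ m, ∀ j ∈ Finset.range (k + 1), x j ∉ b k m := by
        intro k
        have : ∀ᶠ m in atTop, ∀ j ∈ Finset.range (k + 1), x j ∉ b k m := by
          rw [Filter.eventually_all_finset]
          intro j _
          exact hb0 k (x j)
        exact this.exists
      choose h hh using h1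
      refine ⟨h, fun z => ?_⟩
      have hz : psi β z ∈ range y := by rw [← hy]; exact mem_range_self z
      obtain ⟨j, hj⟩ := hz
      filter_upwards [eventually_ge_atTop j] with k hk
      intro hzk
      apply hh k j (Finset.mem_range.2 (by omega))
      have h2 : psi β (x j) = psi β z := (hx j).trans hj
      have h3 : β (Nat.pair k (h k)) = b k (h k) := by simp [β]
      rw [← h3, ← psi_true β, h2, psi_true β, h3]
      exact hzk

/-- **Main theorem.** If `C_p(X, 𝔻)` is sequential, then it is Fréchet–Urysohn. -/
theorem frechet_of_sequential [SequentialSpace (G X)] : FrechetUrysohnSpace (G X) := by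
  refine ⟨fun A => ?_⟩
  have hcl : IsClosed (seqClosure A) := by
    apply IsSeqClosed.isClosed
    intro v p hv hvp
    choose a haA hav using hv
    have hbc : ∀ n m, IsClopen (⋃ i ∈ Finset.range (n + 1), symmDiff (sp (a i m)) (sp (v i))) := by
      intro n m
      refine Set.Finite.isClopen_biUnion (Finset.finite_toSet _) (fun i _ => ?_)
      exact ((sp_clopen _).diff (sp_clopen _)).union ((sp_clopen _).diff (sp_clopen _))
    obtain ⟨h, hh⟩ := exists_good
      (fun n m => ⋃ i ∈ Finset.range (n + 1), symmDiff (sp (a i m)) (sp (v i))) hbc (by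
        intro m n n' hn
        apply biUnion_subset_biUnion_left
        intro i hi
        rw [Finset.mem_coe, Finset.mem_range] at hi ⊢
        omega) (by
        intro n x
        have : ∀ᶠ m in atTop, ∀ i ∈ Finset.range (n + 1), (x ∈ sp (a i m) ↔ x ∈ sp (v i)) := by
          rw [Filter.eventually_all_finset]
          intro i _
          exact (tendsto_iff _ _).1 (hav i) x
        filter_upwards [this] with m hm hx
        simp only [mem_iUnion] at hx
        obtain ⟨i, hi, hx⟩ := hx
        rcases hx with ⟨h1, h2⟩ | ⟨h1, h2⟩
        · exact h2 ((hm i hi).1 h1)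
        · exact h2 ((hm i hi).2 h1))
    refine ⟨fun k => a k (h k), fun k => haA _ _, ?_⟩
    rw [tendsto_iff]
    intro x
    filter_upwards [hh x, (tendsto_iff _ _).1 hvp x] with k h1 h2
    rw [← h2]
    by_contra hne
    apply h1
    simp only [mem_iUnion]
    refine ⟨k, Finset.mem_range.2 (by omega), ?_⟩
    rw [Set.mem_symmDiff]
    tauto
  exact hcl.closure_subset_iff.2 subset_seqClosure

end Pool.Agent.Helpers29.Sq
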