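import Mathlib

set_option autoImplicit false

namespace Pool.Agent.Helpers29.TwistedFS

open CategoryTheory Matrix
open scoped MatrixOrder ComplexOrder

/-- trace of left multiplication on the group algebra -/
lemma trace_group {G : Type} [Group G] [Fintype G] [DecidableEq G] (g : G) :
    LinearMap.trace ℂ (MonoidAlgebra ℂ G) (LinearMap.mulLeft ℂ (MonoidAlgebra.of ℂ G g)) =
      if g = 1 then (Fintype.card G : ℂ) else 0 := by
  rw [LinearMap.trace_eq_matrix_trace ℂ (MonoidAlgebra.basis G ℂ)]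
  simp only [Matrix.trace, Matrix.diag_apply, LinearMap.toMatrix_apply, MonoidAlgebra.basis_apply,
    LinearMap.mulLeft_apply, MonoidAlgebra.of_apply, MonoidAlgebra.single_mul_single, one_mul]
  have h : ∀ x : G, ((MonoidAlgebra.basis G ℂ).repr (MonoidAlgebra.single (g * x) 1)) x =
      if g = 1 then 1 else 0 := by
    intro x
    have h2 : ((MonoidAlgebra.basis G ℂ).repr (MonoidAlgebra.single (g * x) 1)) =
      Finsupp.single (g * x) 1 := rfl
    rw [h2, Finsupp.single_apply]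
    simp
  simp_rw [h]
  split_ifs <;> simp

/-- trace of left multiplication on a product of matrix algebras -/
lemma trace_pi {n : ℕ} {d : Fin n → ℕ} (x : Π i, Matrix (Fin (d i)) (Fin (d i)) ℂ) :
    LinearMap.trace ℂ (Π i, Matrix (Fin (d i)) (Fin (d i)) ℂ) (LinearMap.mulLeft ℂ x) =
      ∑ i, (d i : ℂ) * (x i).trace := by
  rw [LinearMap.trace_eq_matrix_trace ℂ
    (Pi.basis (fun i => Matrix.stdBasis ℂ (Fin (d i)) (Fin (d i))))]
  simp only [Matrix.trace, Matrix.diag_apply, LinearMap.toMatrix_apply]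
  rw [Fintype.sum_sigma]
  refine Finset.sum_congr rfl fun i _ => ?_
  rw [Fintype.sum_prod_type, Finset.mul_sum]
  refine Finset.sum_congr rfl fun a _ => ?_
  have : ∀ b : Fin (d i), ((Pi.basis fun i ↦ stdBasis ℂ (Fin (d i)) (Fin (d i))).repr
        ((LinearMap.mulLeft ℂ x) ((Pi.basis fun i ↦ stdBasis ℂ (Fin (d i)) (Fin (d i))) ⟨i, (a, b)⟩)))
      ⟨i, (a, b)⟩ = x i a a := by
    intro b
    rw [Pi.basis_repr, Pi.basis_apply, LinearMap.mulLeft_apply, Pi.mul_apply, Pi.single_eq_same,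
      Matrix.stdBasis_eq_single]
    have h2 : ∀ A : Matrix (Fin (d i)) (Fin (d i)) ℂ,
      (Matrix.stdBasis ℂ (Fin (d i)) (Fin (d i))).repr A (a, b) = A a b := fun A => by
        simp [Matrix.stdBasis]
    change (Matrix.stdBasis ℂ (Fin (d i)) (Fin (d i))).repr _ (a, b) = _
    rw [h2]
    simp [Matrix.mul_apply, Matrix.single_apply]
  simp_rw [this]
  simp

section ineq

variable {n : Type} [Fintype n] [DecidableEq n]

lemma norm_entry_le (C : Matrix n n ℂ) (a b : n) :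
    ‖(Cᴴ * C) a b‖ ≤ (((Cᴴ * C) a a).re + ((Cᴴ * C) b b).re) / 2 := by
  have hd : ∀ a, ((Cᴴ * C) a a).re = ∑ c, ‖C c a‖ ^ 2 := by
    intro a
    rw [Matrix.mul_apply, Complex.re_sum]
    refine Finset.sum_congr rfl fun c _ => ?_
    rw [conjTranspose_apply, Complex.star_def, ← Complex.normSq_eq_conj_mul_self,
      Complex.ofReal_re, Complex.normSq_eq_norm_sq]
  rw [hd, hd, ← Finset.sum_add_distrib, Finset.sum_div, Matrix.mul_apply]
  refine (norm_sum_le _ _).trans (Finset.sum_le_sum fun c _ => ?_)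
  rw [norm_mul, conjTranspose_apply, norm_star]
  nlinarith [sq_nonneg (‖C c a‖ - ‖C c b‖)]

lemma swap_trace_le (C : Matrix (n × n) (n × n) ℂ) :
    ‖∑ i, ∑ j, (Cᴴ * C) (i, j) (j, i)‖ ≤ ((Cᴴ * C).trace).re := by
  have h1 : ‖∑ i, ∑ j, (Cᴴ * C) (i, j) (j, i)‖ ≤
      ∑ i, ∑ j, (((Cᴴ * C) (i, j) (i, j)).re + ((Cᴴ * C) (j, i) (j, i)).re) / 2 := by
    refine (norm_sum_le _ _).trans (Finset.sum_le_sum fun i _ => ?_)
    refine (norm_sum_le _ _).trans (Finset.sum_le_sum fun j _ => ?_)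
    exact norm_entry_le C _ _
  refine h1.trans (le_of_eq ?_)
  have h2 : ((Cᴴ * C).trace).re = ∑ i, ∑ j, ((Cᴴ * C) (i, j) (i, j)).re := by
    rw [Matrix.trace, Complex.re_sum, Fintype.sum_prod_type]
    rfl
  have h3 : ∑ i, ∑ j, ((Cᴴ * C) (j, i) (j, i)).re = ∑ i, ∑ j, ((Cᴴ * C) (i, j) (i, j)).re :=
    Finset.sum_comm
  simp_rw [add_div, Finset.sum_add_distrib, ← Finset.sum_div]
  rw [h3, h2]
  ring

end ineq

section unitary

variable {G : Type} [Group G] [Fintype G] {n : Type} [Fintype n] [DecidableEq n]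

/-- the averaging projection -/
noncomputable def proj (D : G →* Matrix n n ℂ) (α : G ≃* G) : Matrix (n × n) (n × n) ℂ :=
  (Fintype.card G : ℂ)⁻¹ • ∑ g, (kroneckerMap (· * ·) (D g) (D (α g)))

lemma proj_herm (D : G →* Matrix n n ℂ) (α : G ≃* G) (hD : ∀ g, (D g)ᴴ = D g⁻¹) :
    (proj D α)ᴴ = proj D α := by
  unfold proj
  rw [conjTranspose_smul, conjTranspose_sum]
  congr 1
  · simp
  · rw [← Equiv.sum_comp (Equiv.inv G)]
    refine Finset.sum_congr rfl fun g _ => ?_
    rw [conjTranspose_kronecker]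
    simp only [Equiv.inv_apply, map_inv, hD, inv_inv]

lemma proj_idem (D : G →* Matrix n n ℂ) (α : G ≃* G) : proj D α * proj D α = proj D α := by
  have h0 : (Fintype.card G : ℂ) ≠ 0 := Nat.cast_ne_zero.2 Fintype.card_ne_zero
  have h1 : ∀ h : G, kroneckerMap (· * ·) (D h) (D (α h)) *
      (∑ g, kroneckerMap (· * ·) (D g) (D (α g))) =
      ∑ g, kroneckerMap (· * ·) (D g) (D (α g)) := by
    intro h
    rw [Finset.mul_sum, ← Equiv.sum_comp (Equiv.mulLeft h)
      (fun g => kroneckerMap (· * ·) (D g) (D (α g)))]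
    refine Finset.sum_congr rfl fun g _ => ?_
    rw [← mul_kronecker_mul]
    simp only [Equiv.coe_mulLeft, map_mul]
  unfold proj
  rw [Matrix.smul_mul, Matrix.mul_smul, smul_smul, Finset.sum_mul]
  simp_rw [h1]
  rw [Finset.sum_const, Finset.card_univ, ← Nat.cast_smul_eq_nsmul ℂ, smul_smul]
  congr 1
  field_simp

lemma proj_trace (D : G →* Matrix n n ℂ) (α : G ≃* G) :
    (proj D α).trace = (Fintype.card G : ℂ)⁻¹ * ∑ g, (D g).trace * (D (α g)).trace := by
  unfold proj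
  rw [trace_smul, trace_sum, smul_eq_mul]
  simp_rw [trace_kronecker]

lemma proj_swap (D : G →* Matrix n n ℂ) (α : G ≃* G) :
    ∑ i, ∑ j, proj D α (i, j) (j, i) = (Fintype.card G : ℂ)⁻¹ * ∑ g, (D (g * α g)).trace := by
  have h : ∀ g, (D (g * α g)).trace = ∑ i, ∑ j, D g i j * D (α g) j i := by
    intro g
    rw [map_mul, Matrix.trace]
    refine Finset.sum_congr rfl fun i _ => ?_
    rw [diag_apply, Matrix.mul_apply]
  simp_rw [h]
  unfold proj
  simp only [Matrix.smul_apply, Matrix.sum_apply, kroneckerMap_apply, smul_eq_mul,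
    ← Finset.mul_sum]
  congr 1
  calc ∑ i, ∑ j, ∑ g, D g i j * D (α g) j i = ∑ i, ∑ g, ∑ j, D g i j * D (α g) j i :=
        Finset.sum_congr rfl fun i _ => Finset.sum_comm
    _ = ∑ g, ∑ i, ∑ j, D g i j * D (α g) j i := Finset.sum_comm

lemma unitary_bound (D : G →* Matrix n n ℂ) (α : G ≃* G) (hD : ∀ g, (D g)ᴴ = D g⁻¹) :
    ‖(Fintype.card G : ℂ)⁻¹ * ∑ g, (D (g * α g)).trace‖ ≤
      ((Fintype.card G : ℂ)⁻¹ * ∑ g, (D g).trace * (D (α g)).trace).re := by
  rw [← proj_swap, ← proj_trace]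
  have h := swap_trace_le (proj D α)
  rw [proj_herm D α hD, proj_idem] at h
  exact h

/-- Weyl's unitary trick -/
lemma unitarize (D : G →* Matrix n n ℂ) : ∃ D' : G →* Matrix n n ℂ,
    (∀ g, (D' g)ᴴ = D' g⁻¹) ∧ ∀ g, (D' g).trace = (D g).trace := by
  classical
  have hM : (∑ g, (D g)ᴴ * D g).PosDef := by
    rw [← Finset.add_sum_erase _ _ (Finset.mem_univ (1 : G))]
    refine PosDef.add_posSemidef ?_ ?_
    · rw [map_one, conjTranspose_one, one_mul]
      exact PosDef.one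
    · exact posSemidef_sum _ fun g _ => posSemidef_conjTranspose_mul_self _
  obtain ⟨B, hB⟩ := CStarAlgebra.nonneg_iff_eq_star_mul_self.mp hM.posSemidef.nonneg
  rw [star_eq_conjTranspose] at hB
  have hu : IsUnit B.det := by
    have h1 : IsUnit (∑ g, (D g)ᴴ * D g).det := (isUnit_iff_isUnit_det _).1 hM.isUnit
    rw [hB, det_mul] at h1
    exact isUnit_of_mul_isUnit_right h1
  have hBB : B⁻¹ * B = 1 := nonsing_inv_mul B hu
  have hBB' : B * B⁻¹ = 1 := mul_nonsing_inv B hu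
  let D' : G →* Matrix n n ℂ :=
    { toFun := fun g => B * D g * B⁻¹
      map_one' := by rw [map_one, mul_one, hBB']
      map_mul' := fun g h => by
        rw [map_mul]
        calc B * (D g * D h) * B⁻¹ = B * D g * 1 * D h * B⁻¹ := by
              simp only [mul_one, mul_assoc]
          _ = B * D g * B⁻¹ * (B * D h * B⁻¹) := by
              rw [← hBB]
              simp only [mul_assoc] }
  have hD' : ∀ g, D' g = B * D g * B⁻¹ := fun g => rfl
  have hinv : ∀ g, (D g)ᴴ * (Bᴴ * B) * D g = Bᴴ * B := by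
    intro g
    rw [← hB, Finset.mul_sum, Finset.sum_mul,
      ← Equiv.sum_comp (Equiv.mulRight g) (fun g => (D g)ᴴ * D g)]
    refine Finset.sum_congr rfl fun h _ => ?_
    simp only [Equiv.coe_mulRight, map_mul, conjTranspose_mul, mul_assoc]
  have hun : ∀ g, (D' g)ᴴ * D' g = 1 := by
    intro g
    have e1 : (B⁻¹)ᴴ * Bᴴ = 1 := by
      rw [← conjTranspose_mul, hBB', conjTranspose_one]
    rw [hD', conjTranspose_mul, conjTranspose_mul]
    calc (B⁻¹)ᴴ * ((D g)ᴴ * Bᴴ) * (B * D g * B⁻¹) =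
        (B⁻¹)ᴴ * ((D g)ᴴ * (Bᴴ * B) * D g) * B⁻¹ := by simp only [mul_assoc]
      _ = ((B⁻¹)ᴴ * Bᴴ) * (B * B⁻¹) := by rw [hinv]; simp only [mul_assoc]
      _ = 1 := by rw [e1, hBB', one_mul]
  refine ⟨D', ?_, ?_⟩
  · intro g
    have h1 : D' g * D' g⁻¹ = 1 := by rw [← map_mul, mul_inv_cancel, map_one]
    calc (D' g)ᴴ = (D' g)ᴴ * (D' g * D' g⁻¹) := by rw [h1, mul_one]
      _ = D' g⁻¹ := by rw [← mul_assoc, hun, one_mul]
  · intro g
    rw [hD', trace_mul_comm, ← mul_assoc, hBB, one_mul]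

lemma twisted_bound (D : G →* Matrix n n ℂ) (α : G ≃* G) :
    ‖(Fintype.card G : ℂ)⁻¹ * ∑ g, (D (g * α g)).trace‖ ≤
      ((Fintype.card G : ℂ)⁻¹ * ∑ g, (D g).trace * (D (α g)).trace).re := by
  obtain ⟨D', h1, h2⟩ := unitarize D
  have := unitary_bound D' α h1
  simpa only [h2] using this

end unitary

section reps

variable {G : Type} [Group G] [Fintype G]

/-- the representation attached to a matrix representation -/
noncomputable def rp {m : ℕ} (D : G →* Matrix (Fin m) (Fin m) ℂ) :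
    Representation ℂ G (Fin m → ℂ) :=
  (Matrix.toLinAlgEquiv' : Matrix (Fin m) (Fin m) ℂ ≃ₐ[ℂ] _).toMonoidHom.comp D

/-- as an object of `FDRep` -/
noncomputable def vp {m : ℕ} (D : G →* Matrix (Fin m) (Fin m) ℂ) : FDRep ℂ G := FDRep.of (rp D)

lemma char_vp {m : ℕ} (D : G →* Matrix (Fin m) (Fin m) ℂ) (g : G) :
    (vp D).character g = (D g).trace := by
  change LinearMap.trace ℂ (Fin m → ℂ) (rp D g) = _
  change LinearMap.trace ℂ (Fin m → ℂ) (Matrix.toLin' (D g)) = _
  exact Matrix.trace_toLin'_eq _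

lemma finrank_vp {m : ℕ} (D : G →* Matrix (Fin m) (Fin m) ℂ) :
    Module.finrank ℂ (vp D) = m := by
  change Module.finrank ℂ (Fin m → ℂ) = m
  simp

lemma intertwining_finrank {m : ℕ} (hm : m ≠ 0) (D : G →* Matrix (Fin m) (Fin m) ℂ)
    (hD : ∀ M : Matrix (Fin m) (Fin m) ℂ, (∀ g, M * D g = D g * M) → ∃ c : ℂ, c • 1 = M) :
    Module.finrank ℂ (Representation.IntertwiningMap (rp D) (rp D)) = 1 := by
  have hm' : NeZero m := ⟨hm⟩
  let one : Representation.IntertwiningMap (rp D) (rp D) := ⟨LinearMap.id, fun g => rfl⟩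
  have hone : one ≠ 0 := by
    intro h
    have h2 : one.toLinearMap = (0 : Representation.IntertwiningMap (rp D) (rp D)).toLinearMap := by
      rw [h]
    have h3 : (LinearMap.id : (Fin m → ℂ) →ₗ[ℂ] (Fin m → ℂ)) = 0 := h2
    have h4 := congrFun (DFunLike.congr_fun h3 (fun _ => 1)) 0
    simp at h4
  rw [finrank_eq_one_iff_of_nonzero' one hone]
  intro f
  obtain ⟨c, hc⟩ := hD (LinearMap.toMatrix' f.toLinearMap) (by
    intro g
    have h := f.isIntertwining' g
    have h2 : f.toLinearMap ∘ₗ Matrix.toLin' (D g) = Matrix.toLin' (D g) ∘ₗ f.toLinearMap := h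
    have h3 := congrArg LinearMap.toMatrix' h2
    rw [LinearMap.toMatrix'_comp, LinearMap.toMatrix'_comp, LinearMap.toMatrix'_toLin'] at h3
    exact h3)
  refine ⟨c, ?_⟩
  apply Representation.IntertwiningMap.ext
  have h5 : f.toLinearMap = Matrix.toLin' (c • (1 : Matrix (Fin m) (Fin m) ℂ)) := by
    rw [hc, Matrix.toLin'_toMatrix']
  rw [h5, map_smul, Matrix.toLin'_one]
  rfl

lemma simple_vp {m : ℕ} (hm : m ≠ 0) (D : G →* Matrix (Fin m) (Fin m) ℂ)
    (hD : ∀ M : Matrix (Fin m) (Fin m) ℂ, (∀ g, M * D g = D g * M) → ∃ c : ℂ, c • 1 = M) :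
    Simple (vp D) := by
  rw [FDRep.simple_iff_char_is_norm_one]
  have hc : (Nat.card G : ℂ) ≠ 0 := Nat.cast_ne_zero.2 Nat.card_pos.ne'
  have : Invertible (Nat.card G : ℂ) := invertibleOfNonzero hc
  have h := Representation.card_inv_mul_sum_char_mul_char_eq_finrank (rp D) (rp D)
  rw [intertwining_finrank hm D hD, Nat.cast_one, inv_mul_eq_one₀ hc] at h
  exact h.symm

/-- the twisted inner product of the character is at most one -/
lemma twisted_inner {m : ℕ} (D : G →* Matrix (Fin m) (Fin m) ℂ) (hs : Simple (vp D))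
    (α : G ≃* G) :
    ((Fintype.card G : ℂ)⁻¹ * ∑ g, (D g).trace * (D (α g)).trace).re ≤ 1 := by
  have hc : (Nat.card G : ℂ) ≠ 0 := Nat.cast_ne_zero.2 Nat.card_pos.ne'
  have : Invertible (Nat.card G : ℂ) := invertibleOfNonzero hc
  let W : FDRep ℂ G := FDRep.of (Representation.dual (vp (D.comp α.toMonoidHom)).ρ)
  have hW : ∀ g, W.character g = (D (α g⁻¹)).trace := by
    intro g
    rw [FDRep.char_dual, char_vp]
    rfl
  have hWs : Simple W := by
    rw [FDRep.simple_iff_char_is_norm_one] at hs ⊢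
    rw [← hs]
    simp_rw [hW, char_vp, inv_inv]
    rw [← Equiv.sum_comp ((Equiv.inv G).trans α.toEquiv) (fun g => (D g).trace * (D g⁻¹).trace)]
    refine Finset.sum_congr rfl fun g _ => ?_
    simp
  have h := FDRep.char_orthonormal (vp D) W
  simp_rw [hW, inv_inv, char_vp, Nat.card_eq_fintype_card] at h
  rw [h]
  split_ifs <;> simp

end reps

section main

variable {G : Type} [Group G] [Fintype G] {n : ℕ} {d : Fin n → ℕ}

/-- components of the Wedderburn isomorphism -/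
noncomputable def comp (e : MonoidAlgebra ℂ G ≃ₐ[ℂ] Π i, Matrix (Fin (d i)) (Fin (d i)) ℂ)
    (i : Fin n) : G →* Matrix (Fin (d i)) (Fin (d i)) ℂ :=
  ((Pi.evalMonoidHom (fun i => Matrix (Fin (d i)) (Fin (d i)) ℂ) i).comp
    (e : MonoidAlgebra ℂ G →* Π i, Matrix (Fin (d i)) (Fin (d i)) ℂ)).comp (MonoidAlgebra.of ℂ G)

lemma comp_apply (e : MonoidAlgebra ℂ G ≃ₐ[ℂ] Π i, Matrix (Fin (d i)) (Fin (d i)) ℂ)
    (i : Fin n) (g : G) : comp e i g = e (MonoidAlgebra.of ℂ G g) i := rfl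

/-- a property of all components: every linear relation on the group elements extends -/
lemma extend_linear (e : MonoidAlgebra ℂ G ≃ₐ[ℂ] Π i, Matrix (Fin (d i)) (Fin (d i)) ℂ)
    {N : Type} [AddCommGroup N] [Module ℂ N]
    (L : (Π i, Matrix (Fin (d i)) (Fin (d i)) ℂ) →ₗ[ℂ] N)
    (h : ∀ g : G, L (e (MonoidAlgebra.of ℂ G g)) = 0) (x : Π i, Matrix (Fin (d i)) (Fin (d i)) ℂ) :
    L x = 0 := by
  obtain ⟨a, rfl⟩ := e.surjective x
  induction a using MonoidAlgebra.induction_on with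
  | of g => exact h g
  | add a b ha hb => rw [map_add, map_add, ha, hb, add_zero]
  | smul c a ha => rw [map_smul, map_smul, ha, smul_zero]

lemma regular_character (e : MonoidAlgebra ℂ G ≃ₐ[ℂ] Π i, Matrix (Fin (d i)) (Fin (d i)) ℂ)
    [DecidableEq G] (g : G) :
    ∑ i, (d i : ℂ) * (comp e i g).trace = if g = 1 then (Fintype.card G : ℂ) else 0 := by
  rw [← trace_group g]
  have h1 := trace_pi (e (MonoidAlgebra.of ℂ G g))
  have h2 : LinearMap.mulLeft ℂ (e (MonoidAlgebra.of ℂ G g)) =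
      e.toLinearEquiv.conj (LinearMap.mulLeft ℂ (MonoidAlgebra.of ℂ G g)) := by
    refine LinearMap.ext fun x => ?_
    rw [LinearEquiv.conj_apply_apply, LinearMap.mulLeft_apply, LinearMap.mulLeft_apply]
    change _ = e (MonoidAlgebra.of ℂ G g * e.symm x)
    rw [map_mul, e.apply_symm_apply]
  rw [h2, LinearMap.trace_conj'] at h1
  exact h1.symm

lemma comp_simple (e : MonoidAlgebra ℂ G ≃ₐ[ℂ] Π i, Matrix (Fin (d i)) (Fin (d i)) ℂ)
    (i : Fin n) (hd : d i ≠ 0) : Simple (vp (comp e i)) := by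
  refine simple_vp hd _ fun M hM => ?_
  have h := extend_linear e
    ((LinearMap.mulLeft ℂ M - LinearMap.mulRight ℂ M).comp (LinearMap.proj i)) (by
      intro g
      have := hM g
      rw [comp_apply] at this
      simpa [sub_eq_zero] using this)
  have h2 : ∀ A : Matrix (Fin (d i)) (Fin (d i)) ℂ, M * A = A * M := by
    intro A
    have := h (Pi.single i A)
    simp at this
    exact sub_eq_zero.1 this
  obtain ⟨c, hc⟩ := Matrix.mem_range_scalar_of_commute_single (M := M)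
    (fun a b _ => (h2 (Matrix.single a b 1)).symm)
  exact ⟨c, by rw [← hc]; simp [Matrix.smul_one_eq_diagonal]⟩

lemma comp_inj (e : MonoidAlgebra ℂ G ≃ₐ[ℂ] Π i, Matrix (Fin (d i)) (Fin (d i)) ℂ)
    (hd : ∀ i, d i ≠ 0) (i j : Fin n) (h : Nonempty (vp (comp e i) ≅ vp (comp e j))) :
    i = j := by
  obtain ⟨f⟩ := h
  by_contra hij
  have hch := FDRep.char_iso f
  have h := extend_linear e
    ((Matrix.traceLinearMap (Fin (d i)) ℂ ℂ).comp (LinearMap.proj i) -
      (Matrix.traceLinearMap (Fin (d j)) ℂ ℂ).comp (LinearMap.proj j)) (by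
      intro g
      have := congrFun hch g
      rw [char_vp, char_vp, comp_apply, comp_apply] at this
      simpa [sub_eq_zero] using this)
  have h2 := h (Pi.single i 1)
  have h3 : (Pi.single i (1 : Matrix (Fin (d i)) (Fin (d i)) ℂ) :
    Π i, Matrix (Fin (d i)) (Fin (d i)) ℂ) j = 0 := Pi.single_eq_of_ne (fun h => hij h.symm) _
  simp [h3] at h2
  exact hd i h2

open scoped Classical in
theorem main (G : Type) [Group G] [Finite G] (α : G ≃* G) :
      ∃ (n : ℕ) (V : Fin n → FDRep ℂ G),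
        (∀ i, Simple (V i)) ∧
        (∀ i j, Nonempty (V i ≅ V j) → i = j) ∧
        Nat.card {g : G // α g = g⁻¹} ≤ ∑ i, Module.finrank ℂ (V i) := by
  have : Fintype G := Fintype.ofFinite G
  have : NeZero (Nat.card G : ℂ) := ⟨Nat.cast_ne_zero.2 Nat.card_pos.ne'⟩
  obtain ⟨n, d, hd, ⟨e⟩⟩ :=
    IsSemisimpleRing.exists_algEquiv_pi_matrix_of_isAlgClosed ℂ (MonoidAlgebra ℂ G)
  have hs : ∀ i, Simple (vp (comp e i)) := fun i => comp_simple e i (hd i).out
  refine ⟨n, fun i => vp (comp e i), hs, comp_inj e (fun i => (hd i).out), ?_⟩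
  simp only [finrank_vp]
  have hc : (Fintype.card G : ℂ) ≠ 0 := Nat.cast_ne_zero.2 Fintype.card_ne_zero
  have key : ((Nat.card {g : G // α g = g⁻¹} : ℕ) : ℂ) =
      ∑ i, (d i : ℂ) * ((Fintype.card G : ℂ)⁻¹ * ∑ g, (comp e i (g * α g)).trace) := by
    have h1 : ∑ g : G, ∑ i, (d i : ℂ) * (comp e i (g * α g)).trace =
        ∑ g : G, if g * α g = 1 then (Fintype.card G : ℂ) else 0 :=
      Finset.sum_congr rfl fun g _ => regular_character e _
    have h2 : ∑ g : G, (if g * α g = 1 then (Fintype.card G : ℂ) else 0) =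
        (Fintype.card G : ℂ) * (Nat.card {g : G // α g = g⁻¹} : ℕ) := by
      rw [← Finset.sum_filter, Finset.sum_const, nsmul_eq_mul, mul_comm, Nat.card_eq_fintype_card,
        Fintype.card_subtype]
      congr 3
      ext g
      simp only [Finset.mem_filter, Finset.mem_univ, true_and]
      rw [mul_eq_one_iff_inv_eq, eq_comm]
    rw [h2, Finset.sum_comm] at h1
    have h3 : ∑ i, (d i : ℂ) * ((Fintype.card G : ℂ)⁻¹ * ∑ g, (comp e i (g * α g)).trace) =
        (Fintype.card G : ℂ)⁻¹ * ∑ i, ∑ g, (d i : ℂ) * (comp e i (g * α g)).trace := by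
      rw [Finset.mul_sum]
      refine Finset.sum_congr rfl fun i _ => ?_
      rw [← Finset.mul_sum]
      ring
    rw [h3, h1, ← mul_assoc, inv_mul_cancel₀ hc, one_mul]
  have hfin : ((Nat.card {g : G // α g = g⁻¹} : ℕ) : ℝ) ≤ ∑ i, (d i : ℝ) := by
    have h1 : ((Nat.card {g : G // α g = g⁻¹} : ℕ) : ℝ) =
        ‖((Nat.card {g : G // α g = g⁻¹} : ℕ) : ℂ)‖ := by simp
    rw [h1, key]
    refine (norm_sum_le _ _).trans (Finset.sum_le_sum fun i _ => ?_)
    rw [norm_mul]
    have h2 := (twisted_bound (comp e i) α).trans (twisted_inner (comp e i) (hs i) α)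
    have h3 : ‖(d i : ℂ)‖ = d i := by simp
    rw [h3]
    have h4 : (0 : ℝ) ≤ d i := Nat.cast_nonneg _
    nlinarith
  exact_mod_cast hfin

end main

end Pool.Agent.Helpers29.TwistedFS
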