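import Mathlib

set_option autoImplicit false

namespace Pool.Agent.Helpers29.UC

open MeasureTheory Measure

/-- prepend -/
def cns {Z : Type} (a : Z) (y : ℕ → Z) : ℕ → Z
  | 0 => a
  | n + 1 => y n

lemma cns_zero {Z : Type} (a : Z) (y : ℕ → Z) : cns a y 0 = a := rfl
lemma cns_succ {Z : Type} (a : Z) (y : ℕ → Z) (n : ℕ) : cns a y (n + 1) = y n := rfl

lemma measurable_cns {Z : Type} [MeasurableSpace Z] :
    Measurable (fun p : Z × (ℕ → Z) => cns p.1 p.2) := by
  rw [measurable_pi_iff]
  intro n
  cases n with
  | zero => exact measurable_fst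
  | succ n => exact (measurable_pi_apply n).comp measurable_snd

lemma consPi {Z : Type} [MeasurableSpace Z] (ν : Measure Z) [IsProbabilityMeasure ν] :
    (ν.prod (infinitePi (fun _ : ℕ => ν))).map (fun p => cns p.1 p.2) =
      infinitePi (fun _ : ℕ => ν) := by
  classical
  apply eq_infinitePi
  intro s t ht
  have hms : MeasurableSet (Set.pi (↑s : Set ℕ) t) :=
    MeasurableSet.pi s.countable_toSet (fun i _ => ht i)
  rw [Measure.map_apply measurable_cns hms]
  let s' : Finset ℕ := s.preimage (· + 1) (fun a _ b _ h => by simpa using h)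
  have hs' : ∀ n, n ∈ s' ↔ n + 1 ∈ s := fun n => Finset.mem_preimage
  have hpre : (fun p : Z × (ℕ → Z) => cns p.1 p.2) ⁻¹' (Set.pi (↑s : Set ℕ) t) =
      (if 0 ∈ s then t 0 else Set.univ) ×ˢ (Set.pi (↑s' : Set ℕ) (fun n => t (n + 1))) := by
    ext ⟨a, y⟩
    simp only [Set.mem_preimage, Set.mem_pi, Finset.mem_coe, Set.mem_prod]
    constructor
    · intro h
      constructor
      · split_ifs with h0
        · exact h 0 h0
        · trivial
      · intro n hn
        exact h (n + 1) ((hs' _).1 hn)
    · rintro ⟨h1, h2⟩ i hi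
      cases i with
      | zero =>
        rw [if_pos hi] at h1
        exact h1
      | succ n => exact h2 n ((hs' _).2 hi)
  rw [hpre, prod_prod, infinitePi_pi]
  · rw [← Finset.prod_filter_mul_prod_filter_not s (fun i => i = 0)]
    congr 1
    · by_cases h0 : 0 ∈ s
      · have : s.filter (fun i => i = 0) = {0} := by
          ext i
          simp only [Finset.mem_filter, Finset.mem_singleton]
          constructor
          · exact fun h => h.2
          · rintro rfl; exact ⟨h0, rfl⟩
        rw [this, Finset.prod_singleton, if_pos h0]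
      · have : s.filter (fun i => i = 0) = ∅ := by
          ext i
          simp only [Finset.mem_filter, Finset.notMem_empty, iff_false, not_and]
          rintro hi rfl
          exact h0 hi
        rw [this, Finset.prod_empty, if_neg h0, measure_univ]
    · refine Finset.prod_bij (fun n _ => n + 1) ?_ ?_ ?_ ?_
      · intro n hn
        exact Finset.mem_filter.2 ⟨(hs' _).1 hn, Nat.succ_ne_zero n⟩
      · intro a _ b _ h
        simpa using h
      · intro i hi
        simp only [Finset.mem_filter] at hi
        obtain ⟨n, rfl⟩ := Nat.exists_eq_succ_of_ne_zero hi.2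
        exact ⟨n, (hs' _).2 hi.1, rfl⟩
      · intro n _
        rfl
  · intro n hn
    exact ht (n + 1)

/-- bounded measurable functions -/
def Nice {Z : Type} [MeasurableSpace Z] (F : Z → ℝ) : Prop :=
  Measurable F ∧ ∃ C, ∀ z, |F z| ≤ C

section nice

variable {Z : Type} [MeasurableSpace Z] {F G : Z → ℝ}

lemma Nice.mul (hF : Nice F) (hG : Nice G) : Nice (fun z => F z * G z) := by
  obtain ⟨C, hC⟩ := hF.2
  obtain ⟨D, hD⟩ := hG.2
  refine ⟨hF.1.mul hG.1, C * D, fun z => ?_⟩
  rw [abs_mul]
  exact mul_le_mul (hC z) (hD z) (abs_nonneg _) ((abs_nonneg _).trans (hC z))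

lemma Nice.add (hF : Nice F) (hG : Nice G) : Nice (fun z => F z + G z) := by
  obtain ⟨C, hC⟩ := hF.2
  obtain ⟨D, hD⟩ := hG.2
  exact ⟨hF.1.add hG.1, C + D, fun z => (abs_add_le _ _).trans (add_le_add (hC z) (hD z))⟩

lemma Nice.const (c : ℝ) : Nice (fun _ : Z => c) := ⟨measurable_const, |c|, fun _ => le_rfl⟩

lemma Nice.comp {Z' : Type} [MeasurableSpace Z'] (hF : Nice F) {φ : Z' → Z}
    (hφ : Measurable φ) : Nice (fun z => F (φ z)) := by
  obtain ⟨C, hC⟩ := hF.2
  exact ⟨hF.1.comp hφ, C, fun z => hC _⟩

lemma Nice.integrable (hF : Nice F) {ν : Measure Z} [IsFiniteMeasure ν] : Integrable F ν := by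
  obtain ⟨C, hC⟩ := hF.2
  exact Integrable.of_bound hF.1.aestronglyMeasurable C (Filter.Eventually.of_forall hC)

end nice

lemma integral_cons {Z : Type} [MeasurableSpace Z] (ν : Measure Z) [IsProbabilityMeasure ν]
    {F : (ℕ → Z) → ℝ} (hF : Nice F) :
    ∫ y, F y ∂(infinitePi (fun _ : ℕ => ν)) =
      ∫ a, ∫ y, F (cns a y) ∂(infinitePi (fun _ : ℕ => ν)) ∂ν := by
  have h1 : ∫ y, F y ∂(infinitePi (fun _ : ℕ => ν)) =
      ∫ y, F y ∂((ν.prod (infinitePi (fun _ : ℕ => ν))).map (fun p => cns p.1 p.2)) := by
    rw [consPi]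
  rw [h1, integral_map measurable_cns.aemeasurable hF.1.aestronglyMeasurable,
    integral_prod _ (Nice.integrable (hF.comp measurable_cns))]

lemma nice_inner {Z : Type} [MeasurableSpace Z] (ν : Measure Z) [IsProbabilityMeasure ν]
    {F : (ℕ → Z) → ℝ} (hF : Nice F) :
    Nice (fun a => ∫ y, F (cns a y) ∂(infinitePi (fun _ : ℕ => ν))) := by
  obtain ⟨C, hC⟩ := hF.2
  constructor
  · have h0 : StronglyMeasurable (Function.uncurry (fun (a : Z) (y : ℕ → Z) => F (cns a y))) :=
      (hF.1.comp (measurable_cns (Z := Z))).stronglyMeasurable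
    exact (h0.integral_prod_right (ν := infinitePi (fun _ : ℕ => ν))).measurable
  · refine ⟨C, fun a => ?_⟩
    rw [← Real.norm_eq_abs]
    refine (norm_integral_le_of_norm_le_const (C := C) (Filter.Eventually.of_forall fun y => ?_)).trans
      ?_
    · exact hC _
    · simp

/-- sign -/
def sg (b : Bool) : ℝ := if b then -1 else 1

lemma sg_mul_self (b : Bool) : sg b * sg b = 1 := by cases b <;> simp [sg]

/-- transition probabilities -/
noncomputable def qq (a b : Bool) : ℝ := (1 + sg a * sg b / 2) / 2

/-- the biased coin -/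
noncomputable def bia : Measure Bool :=
  (3 / 4 : ENNReal) • dirac false + (1 / 4 : ENNReal) • dirac true

instance : IsProbabilityMeasure bia := by
  constructor
  unfold bia
  simp only [Measure.coe_add, Measure.coe_smul, Pi.add_apply, Pi.smul_apply, measure_univ,
    smul_eq_mul, mul_one]
  rw [ENNReal.div_add_div_same]
  norm_num
  exact ENNReal.div_self (by norm_num) (by norm_num)

lemma integral_bia (F : Bool → ℝ) : ∫ a, F a ∂bia = 3 / 4 * F false + 1 / 4 * F true := by
  unfold bia
  rw [integral_add_measure, integral_smul_measure, integral_smul_measure, integral_dirac,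
    integral_dirac]
  · simp only [smul_eq_mul, ENNReal.toReal_div, ENNReal.toReal_ofNat, ENNReal.toReal_one]
  · apply Integrable.smul_measure _ (by finiteness)
    exact integrable_dirac (by simp)
  · apply Integrable.smul_measure _ (by finiteness)
    exact integrable_dirac (by simp)

/-- the chain from its increments -/
def Ch (b : Bool) (w : ℕ → Bool) : ℕ → Bool
  | 0 => b
  | i + 1 => xor (Ch b w i) (w i)

lemma Ch_cns (b a : Bool) (w : ℕ → Bool) : Ch b (cns a w) = cns b (Ch (xor b a) w) := by
  funext i
  cases i with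
  | zero => rfl
  | succ i =>
    induction i with
    | zero => rfl
    | succ i ih =>
      change xor (Ch b (cns a w) (i + 1)) (w i) = Ch (xor b a) w (i + 1)
      rw [ih]
      rfl

lemma measurable_Ch (b : Bool) : Measurable (Ch b) := by
  rw [measurable_pi_iff]
  intro i
  induction i with
  | zero => exact measurable_const
  | succ i ih =>
    have : (fun w => Ch b w (i + 1)) = (fun p : Bool × Bool => xor p.1 p.2) ∘
      (fun w => (Ch b w i, w i)) := rfl
    rw [this]
    exact (measurable_of_countable _).comp (ih.prodMk (measurable_pi_apply i))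

/-- the chain started at `b` -/
noncomputable def mub (b : Bool) : Measure (ℕ → Bool) :=
  (infinitePi (fun _ : ℕ => bia)).map (Ch b)

instance (b : Bool) : IsProbabilityMeasure (mub b) :=
  Measure.isProbabilityMeasure_map (measurable_Ch b).aemeasurable

/-- the stationary chain -/
noncomputable def mu : Measure (ℕ → Bool) :=
  (1 / 2 : ENNReal) • mub false + (1 / 2 : ENNReal) • mub true

instance : IsProbabilityMeasure mu := by
  constructor
  unfold mu
  simp only [Measure.coe_add, Measure.coe_smul, Pi.add_apply, Pi.smul_apply, measure_univ,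
    smul_eq_mul, mul_one]
  exact ENNReal.add_halves 1

lemma integral_mu {F : (ℕ → Bool) → ℝ} (hF : Nice F) :
    ∫ z, F z ∂mu = 1 / 2 * ∫ z, F z ∂(mub false) + 1 / 2 * ∫ z, F z ∂(mub true) := by
  unfold mu
  rw [integral_add_measure, integral_smul_measure, integral_smul_measure]
  · simp only [smul_eq_mul, ENNReal.toReal_div, ENNReal.toReal_ofNat, ENNReal.toReal_one]
  · exact (Nice.integrable hF).smul_measure (by finiteness)
  · exact (Nice.integrable hF).smul_measure (by finiteness)

lemma measurable_cns_right {Z : Type} [MeasurableSpace Z] (a : Z) :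
    Measurable (fun y : ℕ → Z => cns a y) :=
  measurable_cns.comp (measurable_const.prodMk measurable_id)

lemma integral_mub_cns {F : (ℕ → Bool) → ℝ} (hF : Nice F) (b : Bool) :
    ∫ z, F z ∂(mub b) = 3 / 4 * ∫ z, F (cns b z) ∂(mub b) +
      1 / 4 * ∫ z, F (cns b z) ∂(mub (!b)) := by
  unfold mub
  rw [integral_map (measurable_Ch b).aemeasurable hF.1.aestronglyMeasurable,
    integral_map (measurable_Ch b).aemeasurable
      (hF.comp (measurable_cns_right b)).1.aestronglyMeasurable,
    integral_map (measurable_Ch _).aemeasurable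
      (hF.comp (measurable_cns_right b)).1.aestronglyMeasurable,
    integral_cons bia (hF.comp (measurable_Ch b)), integral_bia]
  simp_rw [Ch_cns]
  simp

/-- the peeling operator -/
noncomputable def peel (F : (ℕ → Bool) → ℝ) (z : ℕ → Bool) : ℝ :=
  qq false (z 0) * F (cns false z) + qq true (z 0) * F (cns true z)

lemma nice_z (G : Bool → ℝ) (i : ℕ) : Nice (fun z : ℕ → Bool => G (z i)) := by
  refine ⟨(measurable_of_countable G).comp (measurable_pi_apply i), |G false| + |G true|,
    fun z => ?_⟩
  change |G (z i)| ≤ _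
  cases z i
  · linarith [abs_nonneg (G true)]
  · linarith [abs_nonneg (G false)]

lemma nice_peel {F : (ℕ → Bool) → ℝ} (hF : Nice F) : Nice (peel F) :=
  ((nice_z (fun b => qq false b) 0).mul (hF.comp (measurable_cns_right false))).add
    ((nice_z (fun b => qq true b) 0).mul (hF.comp (measurable_cns_right true)))

lemma integral_mub_zero {G : Bool → (ℕ → Bool) → ℝ} (b : Bool) :
    ∫ z, G (z 0) z ∂(mub b) = ∫ z, G b z ∂(mub b) := by
  apply integral_congr_ae
  have h : ∀ᵐ z ∂(mub b), z 0 = b := by
    unfold mub
    rw [ae_map_iff (measurable_Ch b).aemeasurable]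
    · exact Filter.Eventually.of_forall fun w => rfl
    · exact measurableSet_eq_fun (measurable_pi_apply 0) measurable_const
  filter_upwards [h] with z hz
  rw [hz]

/-- The peeling identity. -/
lemma integral_peel {F : (ℕ → Bool) → ℝ} (hF : Nice F) :
    ∫ z, F z ∂mu = ∫ z, peel F z ∂mu := by
  rw [integral_mu hF, integral_mu (nice_peel hF), integral_mub_cns hF, integral_mub_cns hF]
  have h1 : ∀ b, ∫ z, peel F z ∂(mub b) = qq false b * ∫ z, F (cns false z) ∂(mub b) +
      qq true b * ∫ z, F (cns true z) ∂(mub b) := by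
    intro b
    have e1 := integral_mub_zero (G := fun c z => qq false c * F (cns false z) +
      qq true c * F (cns true z)) b
    have e2 : ∫ z, peel F z ∂(mub b) = ∫ z, (fun c z => qq false c * F (cns false z) +
      qq true c * F (cns true z)) (z 0) z ∂(mub b) := rfl
    rw [e2, e1, integral_add, integral_const_mul, integral_const_mul]
    · exact (Nice.integrable (hF.comp (measurable_cns_right false))).const_mul _
    · exact (Nice.integrable (hF.comp (measurable_cns_right true))).const_mul _
  rw [h1, h1]
  simp only [qq, sg, Bool.not_false, Bool.not_true]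
  norm_num
  ring

end Pool.Agent.Helpers29.UC
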