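import Pool.Agent.Helpers29.UC1

set_option autoImplicit false

namespace Pool.Agent.Helpers29.UC

open MeasureTheory Measure

/-- `f` depends on the coordinates in `I` only -/
def Dep (I : Set ℕ) (f : (ℕ → Bool) → ℝ) : Prop :=
  ∀ z z' : ℕ → Bool, (∀ i ∈ I, z i = z' i) → f z = f z'

lemma qq_add (s : Bool) : qq false s + qq true s = 1 := by
  cases s <;> norm_num [qq, sg]

lemma qq_sub (s : Bool) : qq false s - qq true s = sg s / 2 := by
  cases s <;> norm_num [qq, sg]

lemma nice_chi (i : ℕ) : Nice (fun z : ℕ → Bool => sg (z i)) := nice_z sg i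

/-- shifting a function of the future -/
def shf (g : (ℕ → Bool) → ℝ) (z : ℕ → Bool) : ℝ := g (cns false z)

lemma nice_shf {g : (ℕ → Bool) → ℝ} (hg : Nice g) : Nice (shf g) :=
  hg.comp (measurable_cns_right false)

lemma shf_dep {g : (ℕ → Bool) → ℝ} {m : ℕ} (hg : Dep {i | m + 1 ≤ i} g) :
    Dep {i | m ≤ i} (shf g) := by
  intro z z' h
  apply hg
  intro i hi
  cases i with
  | zero => rfl
  | succ i => exact h i (by simpa using hi)

lemma dep_cns {g : (ℕ → Bool) → ℝ} {m : ℕ} (hg : Dep {i | m + 1 ≤ i} g) (a : Bool)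
    (z : ℕ → Bool) : g (cns a z) = shf g z := by
  apply hg
  intro i hi
  cases i with
  | zero => simp at hi
  | succ i => rfl

lemma peel_mul {f g : (ℕ → Bool) → ℝ} {m : ℕ} (hg : Dep {i | m + 1 ≤ i} g) (z : ℕ → Bool) :
    peel (fun z => f z * g z) z = peel f z * shf g z := by
  unfold peel
  simp only [dep_cns hg]
  ring

lemma peel_dep {f : (ℕ → Bool) → ℝ} {l : ℕ} (hf : Dep {i | i ≤ l + 1} f) :
    Dep {i | i ≤ l} (peel f) := by
  intro z z' h
  unfold peel
  rw [h 0 (Nat.zero_le l)]
  have : ∀ a, f (cns a z) = f (cns a z') := by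
    intro a
    apply hf
    intro i hi
    cases i with
    | zero => rfl
    | succ i => exact h i (by simpa using hi)
  rw [this, this]

lemma integral_shf {g : (ℕ → Bool) → ℝ} {m : ℕ} (hg : Dep {i | m + 1 ≤ i} g) (hn : Nice g) :
    ∫ z, g z ∂mu = ∫ z, shf g z ∂mu := by
  rw [integral_peel hn]
  congr 1
  funext z
  unfold peel
  simp only [dep_cns hg]
  rw [← add_mul, qq_add, one_mul]

lemma dep_mul_chi {g : (ℕ → Bool) → ℝ} {m i : ℕ} (hg : Dep {i | m ≤ i} g) (hi : m ≤ i) :
    Dep {i | m ≤ i} (fun z => g z * sg (z i)) := by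
  intro z z' h
  change g z * sg (z i) = g z' * sg (z' i)
  rw [hg z z' h, h i hi]

lemma integral_chi (i : ℕ) : ∫ z : ℕ → Bool, sg (z i) ∂mu = 0 := by
  induction i with
  | zero =>
    rw [integral_mu (nice_chi 0)]
    have h : ∀ b, ∫ z : ℕ → Bool, sg (z 0) ∂(mub b) = sg b := by
      intro b
      rw [integral_mub_zero (G := fun c _ => sg c) b]
      simp
    rw [h, h]
    norm_num [sg]
  | succ i ih =>
    have hd : Dep {j | 0 + 1 ≤ j} (fun z : ℕ → Bool => sg (z (i + 1))) := by
      intro z z' h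
      change sg (z (i + 1)) = sg (z' (i + 1))
      rw [h (i + 1) (by simp)]
    rw [integral_shf hd (nice_chi _)]
    exact ih

/-- first step of the chain lemma -/
lemma chain0 (k : ℕ) : ∀ g : (ℕ → Bool) → ℝ, Nice g → Dep {i | k ≤ i} g →
    ∫ z, sg (z 0) * g z ∂mu = (1 / 2) ^ k * ∫ z, g z * sg (z k) ∂mu := by
  induction k with
  | zero =>
    intro g _ _
    rw [pow_zero, one_mul]
    congr 1
    funext z
    ring
  | succ k ih =>
    intro g hn hg
    have h1 : ∫ z, sg (z 0) * g z ∂mu = ∫ z, (1 / 2) * (sg (z 0) * shf g z) ∂mu := by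
      rw [integral_peel ((nice_chi 0).mul hn)]
      congr 1
      funext z
      rw [peel_mul hg]
      have : peel (fun z : ℕ → Bool => sg (z 0)) z = sg (z 0) / 2 := by
        have := qq_sub (z 0)
        unfold peel
        simp only [cns_zero]
        norm_num [sg] at this ⊢
        linarith
      rw [this]
      ring
    rw [h1, integral_const_mul, ih (shf g) (nice_shf hn) (shf_dep hg)]
    have hg' : Dep {i | k + 1 ≤ i} (fun z => g z * sg (z (k + 1))) := dep_mul_chi hg (le_refl _)
    rw [integral_shf hg' (hn.mul (nice_chi _))]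
    change _ = (1 / 2) ^ (k + 1) * ∫ z, shf g z * sg (z k) ∂mu
    rw [pow_succ]
    ring

/-- The chain lemma. -/
lemma chain (k l : ℕ) : ∀ f g : (ℕ → Bool) → ℝ, Nice f → Nice g → Dep {i | i ≤ l} f →
    Dep {i | l + k ≤ i} g →
    ∫ z, f z * g z ∂mu = (∫ z, f z ∂mu) * (∫ z, g z ∂mu) +
      (1 / 2) ^ k * ((∫ z, f z * sg (z l) ∂mu) * ∫ z, g z * sg (z (l + k)) ∂mu) := by
  induction l with
  | zero =>
    intro f g hnf hng hf hg
    obtain ⟨α, β, h⟩ : ∃ α β : ℝ, ∀ z, f z = α + β * sg (z 0) := by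
      refine ⟨(f (fun _ => false) + f (fun _ => true)) / 2,
        (f (fun _ => false) - f (fun _ => true)) / 2, fun z => ?_⟩
      have : f z = f (fun _ => z 0) := by
        apply hf
        intro i hi
        have : i = 0 := by simpa using hi
        rw [this]
      rw [this]
      cases z 0
      · norm_num [sg]
        ring
      · norm_num [sg]
        ring
    rw [zero_add] at hg
    have i1 : Integrable g mu := hng.integrable
    have i2 : Integrable (fun z : ℕ → Bool => sg (z 0) * g z) mu := ((nice_chi 0).mul hng).integrable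
    have i3 : Integrable (fun z : ℕ → Bool => sg (z 0)) mu := (nice_chi 0).integrable
    have e1 : ∫ z, f z * g z ∂mu = α * ∫ z, g z ∂mu + β * ∫ z, sg (z 0) * g z ∂mu := by
      rw [← integral_const_mul, ← integral_const_mul, ← integral_add (i1.const_mul _) (i2.const_mul _)]
      congr 1
      funext z
      rw [h]
      ring
    have e2 : ∫ z, f z ∂mu = α := by
      have : ∫ z, f z ∂mu = ∫ z, (α + β * sg (z 0)) ∂mu := by
        congr 1
        funext z
        rw [h]
      rw [this, integral_add (integrable_const _) (i3.const_mul _), integral_const_mul, integral_chi]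
      simp
    have e3 : ∫ z, f z * sg (z 0) ∂mu = β := by
      have : ∫ z, f z * sg (z 0) ∂mu = ∫ z, (α * sg (z 0) + β) ∂mu := by
        congr 1
        funext z
        rw [h, add_mul, mul_assoc, sg_mul_self, mul_one]
      rw [this, integral_add (i3.const_mul _) (integrable_const _), integral_const_mul, integral_chi]
      simp
    rw [e1, e2, e3, chain0 k g hng hg, zero_add]
    ring
  | succ l ih =>
    intro f g hnf hng hf hg
    have hg1 : Dep {i | l + k + 1 ≤ i} g := by
      have : l + k + 1 = l + 1 + k := by ring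
      rw [this]
      exact hg
    rw [integral_peel (hnf.mul hng)]
    have e1 : ∫ z, peel (fun z => f z * g z) z ∂mu = ∫ z, peel f z * shf g z ∂mu := by
      congr 1
      funext z
      rw [peel_mul hg1]
    rw [e1, ih (peel f) (shf g) (nice_peel hnf) (nice_shf hng) (peel_dep hf) (shf_dep hg1),
      ← integral_peel hnf, ← integral_shf hg1 hng]
    congr 2
    congr 1
    · rw [integral_peel (hnf.mul (nice_chi (l + 1)))]
      congr 1
      funext z
      unfold peel
      simp only [cns_succ]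
      ring
    · have hd : Dep {i | l + k + 1 ≤ i} (fun z => g z * sg (z (l + 1 + k))) :=
        dep_mul_chi hg1 (by omega)
      rw [integral_shf hd (hng.mul (nice_chi _))]
      have : l + 1 + k = l + k + 1 := by ring
      rw [this]
      rfl

/-- covariance of the chain -/
lemma sq_le_var {f : (ℕ → Bool) → ℝ} (hf : Nice f) (l : ℕ) :
    (∫ z, f z * sg (z l) ∂mu) ^ 2 ≤ ∫ z, f z * f z ∂mu - (∫ z, f z ∂mu) ^ 2 := by
  set α := ∫ z, f z ∂mu with hα
  set β := ∫ z, f z * sg (z l) ∂mu with hβ
  have h0 : 0 ≤ ∫ z, (f z - α - β * sg (z l)) ^ 2 ∂mu := integral_nonneg fun z => sq_nonneg _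
  have i1 : Integrable f mu := hf.integrable
  have i2 : Integrable (fun z => f z * f z) mu := (hf.mul hf).integrable
  have i3 : Integrable (fun z : ℕ → Bool => sg (z l)) mu := (nice_chi l).integrable
  have i4 : Integrable (fun z : ℕ → Bool => f z * sg (z l)) mu := (hf.mul (nice_chi l)).integrable
  have h1 : ∫ z, (f z - α - β * sg (z l)) ^ 2 ∂mu =
      ∫ z, (((f z * f z + (-2 * α) * f z) + (-2 * β) * (f z * sg (z l))) +
        (2 * α * β) * sg (z l)) + (α ^ 2 + β ^ 2) ∂mu := by
    congr 1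
    funext z
    have := sg_mul_self (z l)
    linear_combination β ^ 2 * this
  rw [h1, integral_add, integral_add, integral_add, integral_add, integral_const_mul,
    integral_const_mul, integral_const_mul, integral_chi, ← hα, ← hβ] at h0
  · simp at h0
    nlinarith
  · exact i2
  · exact i1.const_mul _
  · exact i2.add (i1.const_mul _)
  · exact i4.const_mul _
  · exact (i2.add (i1.const_mul _)).add (i4.const_mul _)
  · exact i3.const_mul _
  · exact ((i2.add (i1.const_mul _)).add (i4.const_mul _)).add (i3.const_mul _)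
  · exact integrable_const _

lemma chain_cov {k l : ℕ} {f g : (ℕ → Bool) → ℝ} (hf : Nice f) (hg : Nice g)
    (hf1 : Dep {i | i ≤ l} f) (hg1 : Dep {i | l + k ≤ i} g) :
    |∫ z, f z * g z ∂mu - (∫ z, f z ∂mu) * (∫ z, g z ∂mu)| ≤
      (1 / 2) ^ k / 2 * ((∫ z, f z * f z ∂mu - (∫ z, f z ∂mu) ^ 2) +
        (∫ z, g z * g z ∂mu - (∫ z, g z ∂mu) ^ 2)) := by
  rw [chain k l f g hf hg hf1 hg1]
  have h1 := sq_le_var hf l
  have h2 := sq_le_var hg (l + k)
  set β := ∫ z, f z * sg (z l) ∂mu
  set γ := ∫ z, g z * sg (z (l + k)) ∂mu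
  rw [add_sub_cancel_left, abs_mul, abs_of_nonneg (by positivity : (0 : ℝ) ≤ (1 / 2) ^ k)]
  have h3 : |β * γ| ≤ (β ^ 2 + γ ^ 2) / 2 := by
    rw [abs_le]
    constructor <;> nlinarith [sq_nonneg (β - γ), sq_nonneg (β + γ)]
  have h4 : (0 : ℝ) ≤ (1 / 2) ^ k := by positivity
  calc (1 / 2 : ℝ) ^ k * |β * γ| ≤ (1 / 2) ^ k * ((β ^ 2 + γ ^ 2) / 2) :=
        mul_le_mul_of_nonneg_left h3 h4
    _ ≤ (1 / 2) ^ k * (((∫ z, f z * f z ∂mu - (∫ z, f z ∂mu) ^ 2) +
        (∫ z, g z * g z ∂mu - (∫ z, g z ∂mu) ^ 2)) / 2) := by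
        apply mul_le_mul_of_nonneg_left _ h4
        linarith
    _ = _ := by ring

end Pool.Agent.Helpers29.UC
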