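import Pool.Agent.Helpers29.UC2

set_option autoImplicit false

namespace Pool.Agent.Helpers29.UC

open MeasureTheory Measure

/-- the product measure: independent chains -/
noncomputable def Pi0 : Measure (ℕ → ℕ → Bool) := infinitePi (fun _ : ℕ => mu)

instance : IsProbabilityMeasure Pi0 := by unfold Pi0; infer_instance

/-- dependence on finitely many chains, and on the times in `I` -/
def DepN (I : Set ℕ) (N : ℕ) (f : (ℕ → ℕ → Bool) → ℝ) : Prop :=
  ∀ y y' : ℕ → ℕ → Bool, (∀ n < N, ∀ i ∈ I, y n i = y' n i) → f y = f y'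

lemma depN_inner {I : Set ℕ} {N : ℕ} {f : (ℕ → ℕ → Bool) → ℝ} (hf : DepN I (N + 1) f)
    (a : ℕ → Bool) : DepN I N (fun y => f (cns a y)) := by
  intro y y' h
  apply hf
  intro n hn i hi
  cases n with
  | zero => rfl
  | succ n => exact h n (by omega) i hi

lemma depN_outer {I : Set ℕ} {N : ℕ} {f : (ℕ → ℕ → Bool) → ℝ} (hf : DepN I (N + 1) f) :
    Dep I (fun a => ∫ y, f (cns a y) ∂Pi0) := by
  intro z z' h
  change ∫ y, f (cns z y) ∂Pi0 = ∫ y, f (cns z' y) ∂Pi0
  congr 1
  funext y
  apply hf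
  intro n hn i hi
  cases n with
  | zero => exact h i hi
  | succ n => rfl

lemma tensor (k l : ℕ) (N : ℕ) : ∀ f g : (ℕ → ℕ → Bool) → ℝ, Nice f → Nice g →
    DepN {i | i ≤ l} N f → DepN {i | l + k ≤ i} N g →
    |∫ z, f z * g z ∂Pi0 - (∫ z, f z ∂Pi0) * (∫ z, g z ∂Pi0)| ≤
      (1 / 2) ^ k / 2 * ((∫ z, f z * f z ∂Pi0 - (∫ z, f z ∂Pi0) ^ 2) +
        (∫ z, g z * g z ∂Pi0 - (∫ z, g z ∂Pi0) ^ 2)) := by
  induction N with
  | zero =>
    intro f g hnf hng hf hg
    obtain ⟨c, hc⟩ : ∃ c, f = fun _ => c :=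
      ⟨f (fun _ _ => false), funext fun y => hf _ _ (fun n hn => absurd hn (Nat.not_lt_zero n))⟩
    obtain ⟨d, hd⟩ : ∃ d, g = fun _ => d :=
      ⟨g (fun _ _ => false), funext fun y => hg _ _ (fun n hn => absurd hn (Nat.not_lt_zero n))⟩
    subst hc hd
    simp only [integral_const, probReal_univ, one_smul, sub_self, abs_zero]
    ring_nf
    exact le_refl _
  | succ N ih =>
    intro f g hnf hng hf hg
    have cons : ∀ F : (ℕ → ℕ → Bool) → ℝ, Nice F →
        ∫ y, F y ∂Pi0 = ∫ a, ∫ y, F (cns a y) ∂Pi0 ∂mu := fun F hF => integral_cons mu hF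
    have inner : ∀ F : (ℕ → ℕ → Bool) → ℝ, Nice F →
        Nice (fun a => ∫ y, F (cns a y) ∂Pi0) := fun F hF => nice_inner mu hF
    have nfb := inner f hnf
    have ngb := inner g hng
    have h1 := fun a => ih (fun y => f (cns a y)) (fun y => g (cns a y))
      (hnf.comp (measurable_cns_right a)) (hng.comp (measurable_cns_right a))
      (depN_inner hf a) (depN_inner hg a)
    have h2 := chain_cov nfb ngb (depN_outer hf) (depN_outer hg)
    rw [cons _ (hnf.mul hng), cons _ hnf, cons _ hng, cons _ (hnf.mul hnf), cons _ (hng.mul hng)]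
    have nfg := inner _ (hnf.mul hng)
    have nff := inner _ (hnf.mul hnf)
    have ngg := inner _ (hng.mul hng)
    set fb : (ℕ → Bool) → ℝ := fun a => ∫ y, f (cns a y) ∂Pi0 with hfb
    set gb : (ℕ → Bool) → ℝ := fun a => ∫ y, g (cns a y) ∂Pi0 with hgb
    set FG : (ℕ → Bool) → ℝ := fun a => ∫ y, f (cns a y) * g (cns a y) ∂Pi0 with hFG
    set FF : (ℕ → Bool) → ℝ := fun a => ∫ y, f (cns a y) * f (cns a y) ∂Pi0 with hFF
    set GG : (ℕ → Bool) → ℝ := fun a => ∫ y, g (cns a y) * g (cns a y) ∂Pi0 with hGG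
    -- integrated inner inequality
    have h3 : |∫ a, (FG a - fb a * gb a) ∂mu| ≤
        ∫ a, (1 / 2 : ℝ) ^ k / 2 * ((FF a - fb a ^ 2) + (GG a - gb a ^ 2)) ∂mu := by
      refine (abs_integral_le_integral_abs).trans (integral_mono_of_nonneg ?_ ?_ ?_)
      · exact Filter.Eventually.of_forall fun a => abs_nonneg _
      · apply Integrable.const_mul
        have i1 : Integrable (fun a => fb a ^ 2) mu := by
          have := (nfb.mul nfb).integrable (ν := mu)
          simpa only [sq] using this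
        have i2 : Integrable (fun a => gb a ^ 2) mu := by
          have := (ngb.mul ngb).integrable (ν := mu)
          simpa only [sq] using this
        exact (nff.integrable.sub i1).add (ngg.integrable.sub i2)
      · exact Filter.Eventually.of_forall fun a => h1 a
    have i1 : Integrable (fun a => fb a * fb a) mu := (nfb.mul nfb).integrable
    have i2 : Integrable (fun a => gb a * gb a) mu := (ngb.mul ngb).integrable
    have i3 : Integrable (fun a => fb a * gb a) mu := (nfb.mul ngb).integrable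
    have i4 : Integrable FF mu := nff.integrable
    have i5 : Integrable GG mu := ngg.integrable
    have i6 : Integrable FG mu := nfg.integrable
    simp only [sq] at h3 h2 ⊢
    have e2 : ∫ a, ((FF a - fb a * fb a) + (GG a - gb a * gb a)) ∂mu =
        (∫ a, FF a ∂mu - ∫ a, fb a * fb a ∂mu) + (∫ a, GG a ∂mu - ∫ a, gb a * gb a ∂mu) := by
      have := integral_add (f := fun a => FF a - fb a * fb a)
        (g := fun a => GG a - gb a * gb a) (i4.sub i1) (i5.sub i2)
      rw [this, integral_sub i4 i1, integral_sub i5 i2]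
    rw [integral_sub i6 i3, integral_const_mul, e2] at h3
    have h4 := abs_add_le (∫ a, FG a ∂mu - ∫ a, fb a * gb a ∂mu)
      (∫ a, fb a * gb a ∂mu - (∫ a, fb a ∂mu) * ∫ a, gb a ∂mu)
    rw [sub_add_sub_cancel] at h4
    refine h4.trans ((add_le_add h3 h2).trans (le_of_eq ?_))
    ring

end Pool.Agent.Helpers29.UC
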