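import Pool.Agent.Helpers29.UC3

set_option autoImplicit false

namespace Pool.Agent.Helpers29.UC

open MeasureTheory Measure

/-- exchange time and chain index -/
def swp (y : ℕ → ℕ → Bool) : ℕ → ℕ → Bool := fun i n => y n i

lemma measurable_swp : Measurable swp := by
  rw [measurable_pi_iff]
  intro i
  rw [measurable_pi_iff]
  intro n
  exact (measurable_pi_apply i).comp (measurable_pi_apply n)

/-- the law of the process -/
noncomputable def PP : Measure (ℕ → ℕ → Bool) := Pi0.map swp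

instance : IsProbabilityMeasure PP := Measure.isProbabilityMeasure_map measurable_swp.aemeasurable

lemma ind_congr {α : Type} {u : Set α} {y y' : α} (h : y ∈ u ↔ y' ∈ u) :
    u.indicator (1 : α → ℝ) y = u.indicator (1 : α → ℝ) y' := by
  by_cases h1 : y ∈ u
  · rw [Set.indicator_of_mem h1, Set.indicator_of_mem (h.1 h1)]
    rfl
  · rw [Set.indicator_of_notMem h1, Set.indicator_of_notMem (fun h2 => h1 (h.2 h2))]

lemma mu_shift : mu.map (fun (z : ℕ → Bool) (n : ℕ) => z (n + 1)) = mu := by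
  have hm : Measurable (fun (z : ℕ → Bool) (n : ℕ) => z (n + 1)) := by
    rw [measurable_pi_iff]
    intro n
    exact measurable_pi_apply (n + 1)
  have : IsProbabilityMeasure (mu.map (fun (z : ℕ → Bool) (n : ℕ) => z (n + 1))) :=
    Measure.isProbabilityMeasure_map hm.aemeasurable
  ext s hs
  rw [Measure.map_apply hm hs]
  have key : mu.real ((fun (z : ℕ → Bool) (n : ℕ) => z (n + 1)) ⁻¹' s) = mu.real s := by
    rw [← integral_indicator_one (hm hs), ← integral_indicator_one hs]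
    have hn : Nice (((fun (z : ℕ → Bool) (n : ℕ) => z (n + 1)) ⁻¹' s).indicator
        (1 : (ℕ → Bool) → ℝ)) := by
      refine ⟨(measurable_indicator_const_iff (1 : ℝ)).2 (hm hs), 1, fun z => ?_⟩
      by_cases h : z ∈ (fun (z : ℕ → Bool) (n : ℕ) => z (n + 1)) ⁻¹' s
      · simp [Set.indicator_of_mem h]
      · simp [Set.indicator_of_notMem h]
    have hd : Dep {i | 0 + 1 ≤ i} (((fun (z : ℕ → Bool) (n : ℕ) => z (n + 1)) ⁻¹' s).indicator
        (1 : (ℕ → Bool) → ℝ)) := by
      intro z z' h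
      have e : (fun n => z (n + 1)) = (fun n => z' (n + 1)) := by
        funext n
        exact h (n + 1) (by simp)
      have : z ∈ (fun (z : ℕ → Bool) (n : ℕ) => z (n + 1)) ⁻¹' s ↔
          z' ∈ (fun (z : ℕ → Bool) (n : ℕ) => z (n + 1)) ⁻¹' s := by
        change (fun n => z (n + 1)) ∈ s ↔ (fun n => z' (n + 1)) ∈ s
        rw [e]
      exact ind_congr this
    rw [integral_shf hd hn]
    rfl
  rw [measureReal_def, measureReal_def] at key
  exact (ENNReal.toReal_eq_toReal_iff' (measure_ne_top _ _) (measure_ne_top _ _)).1 key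

lemma PP_shift : PP.map (fun (ω : ℕ → ℕ → Bool) (n : ℕ) => ω (n + 1)) = PP := by
  have hm1 : Measurable (fun (z : ℕ → Bool) (n : ℕ) => z (n + 1)) := by
    rw [measurable_pi_iff]
    intro n
    exact measurable_pi_apply (n + 1)
  have hm2 : Measurable (fun (ω : ℕ → ℕ → Bool) (n : ℕ) => ω (n + 1)) := by
    rw [measurable_pi_iff]
    intro n
    exact measurable_pi_apply (n + 1)
  have hm3 : Measurable (fun (y : ℕ → ℕ → Bool) (n : ℕ) =>
      (fun (z : ℕ → Bool) (i : ℕ) => z (i + 1)) (y n)) := by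
    rw [measurable_pi_iff]
    intro n
    exact hm1.comp (measurable_pi_apply n)
  have h1 : Pi0.map (fun (y : ℕ → ℕ → Bool) (n : ℕ) =>
      (fun (z : ℕ → Bool) (i : ℕ) => z (i + 1)) (y n)) = Pi0 := by
    unfold Pi0
    rw [infinitePi_map_pi (μ := fun _ : ℕ => mu)
      (f := fun _ => fun (z : ℕ → Bool) (i : ℕ) => z (i + 1)) (fun _ => hm1)]
    congr 1
    funext n
    exact mu_shift
  unfold PP
  rw [Measure.map_map hm2 measurable_swp]
  conv_rhs => rw [← h1]
  rw [Measure.map_map measurable_swp hm3]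
  rfl

/-- the sigma-algebra of the times in `I` -/
abbrev mI (I : Set ℕ) : MeasurableSpace (ℕ → ℕ → Bool) :=
  ⨆ (i : ℕ) (_ : i ∈ I), MeasurableSpace.comap (fun ω : ℕ → ℕ → Bool => ω i) inferInstance

/-- Sets depending on finitely many chains, measurable with respect to the times in `I`. -/
def AI (I : Set ℕ) : Set (Set (ℕ → ℕ → Bool)) :=
  {t | @MeasurableSet (ℕ → ℕ → Bool)
      (⨆ (i : ℕ) (_ : i ∈ I), MeasurableSpace.comap (fun ω : ℕ → ℕ → Bool => ω i) inferInstance) t ∧
    ∃ N : ℕ, ∀ ω ω' : ℕ → ℕ → Bool, (∀ i ∈ I, ∀ n < N, ω i n = ω' i n) → (ω ∈ t ↔ ω' ∈ t)}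

lemma AI_alg (I : Set ℕ) : IsSetAlgebra (AI I) where
  empty_mem := ⟨@MeasurableSet.empty _ (mI I), 0, fun _ _ _ => Iff.rfl⟩
  compl_mem := by
    rintro s ⟨h1, N, h2⟩
    exact ⟨@MeasurableSet.compl _ _ _ h1, N, fun ω ω' h => not_congr (h2 ω ω' h)⟩
  union_mem := by
    rintro s t ⟨h1, N, h2⟩ ⟨h3, M, h4⟩
    refine ⟨@MeasurableSet.union _ _ _ _ h1 h3, max N M, fun ω ω' h => ?_⟩
    exact or_congr (h2 ω ω' fun i hi n hn => h i hi n (lt_of_lt_of_le hn (le_max_left _ _)))
      (h4 ω ω' fun i hi n hn => h i hi n (lt_of_lt_of_le hn (le_max_right _ _)))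

lemma AI_gen (I : Set ℕ) :
    (⨆ (i : ℕ) (_ : i ∈ I), MeasurableSpace.comap (fun ω : ℕ → ℕ → Bool => ω i) inferInstance) =
      MeasurableSpace.generateFrom (AI I) := by
  apply le_antisymm
  · refine iSup₂_le fun i hi => ?_
    rw [← measurable_iff_comap_le]
    refine (@measurable_pi_iff _ _ _ (MeasurableSpace.generateFrom (AI I)) _ _).2 fun n s hs => ?_
    apply MeasurableSpace.measurableSet_generateFrom
    refine ⟨?_, n + 1, fun ω ω' h => ?_⟩
    · have : MeasurableSpace.comap (fun ω : ℕ → ℕ → Bool => ω i) inferInstance ≤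
        (⨆ (i : ℕ) (_ : i ∈ I),
          MeasurableSpace.comap (fun ω : ℕ → ℕ → Bool => ω i) inferInstance) :=
        le_iSup₂ (f := fun (i : ℕ) (_ : i ∈ I) =>
          MeasurableSpace.comap (fun ω : ℕ → ℕ → Bool => ω i) inferInstance) i hi
      apply this
      exact ⟨(fun z : ℕ → Bool => z n) ⁻¹' s, measurable_pi_apply n hs, rfl⟩
    · change ω i n ∈ s ↔ ω' i n ∈ s
      rw [h i hi n (Nat.lt_succ_self n)]
  · exact MeasurableSpace.generateFrom_le fun t ht => ht.1

lemma mI_le (I : Set ℕ) :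
    (⨆ (i : ℕ) (_ : i ∈ I), MeasurableSpace.comap (fun ω : ℕ → ℕ → Bool => ω i) inferInstance) ≤
      (inferInstance : MeasurableSpace (ℕ → ℕ → Bool)) :=
  iSup₂_le fun i _ => (measurable_pi_apply i).comap_le

lemma approx (I : Set ℕ) {A : Set (ℕ → ℕ → Bool)}
    (hA : @MeasurableSet (ℕ → ℕ → Bool)
      (⨆ (i : ℕ) (_ : i ∈ I), MeasurableSpace.comap (fun ω : ℕ → ℕ → Bool => ω i) inferInstance) A)
    {ε : ℝ} (hε : 0 < ε) : ∃ t ∈ AI I, PP.real (symmDiff A t) < ε := by
  have hfin : IsFiniteMeasure (PP.trim (mI_le I)) := isFiniteMeasure_trim _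
  have hd := @Measure.MeasureDense.of_generateFrom_isSetAlgebra_finite _
    (mI I) (PP.trim (mI_le I)) (AI I) hfin (AI_alg I) (AI_gen I)
  obtain ⟨t, ht, h⟩ := @Measure.MeasureDense.approx _ (mI I) _ _ hd A hA
    (@measure_ne_top _ (mI I) _ hfin A) ε hε
  refine ⟨t, ht, ?_⟩
  have hmt : @MeasurableSet (ℕ → ℕ → Bool)
      (⨆ (i : ℕ) (_ : i ∈ I), MeasurableSpace.comap (fun ω : ℕ → ℕ → Bool => ω i) inferInstance)
      (symmDiff A t) := @MeasurableSet.symmDiff _ _ _ _ hA ht.1
  rw [trim_measurableSet_eq (mI_le I) hmt] at h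
  rw [measureReal_def]
  exact (ENNReal.lt_ofReal_iff_toReal_lt (measure_ne_top _ _)).1 h

lemma mixing_alg (k l : ℕ) {t s : Set (ℕ → ℕ → Bool)} (ht : t ∈ AI {i | i ≤ l})
    (hs : s ∈ AI {i | l + k ≤ i}) :
    |PP.real (t ∩ s) - PP.real t * PP.real s| ≤ (1 / 2) ^ k / 4 := by
  obtain ⟨ht1, N, ht2⟩ := ht
  obtain ⟨hs1, M, hs2⟩ := hs
  have mt : MeasurableSet t := mI_le _ _ ht1
  have ms : MeasurableSet s := mI_le _ _ hs1
  have mt' : MeasurableSet (swp ⁻¹' t) := measurable_swp mt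
  have ms' : MeasurableSet (swp ⁻¹' s) := measurable_swp ms
  have nice_ind : ∀ u : Set (ℕ → ℕ → Bool), MeasurableSet u →
      Nice (u.indicator (1 : (ℕ → ℕ → Bool) → ℝ)) := by
    intro u hu
    refine ⟨(measurable_indicator_const_iff (1 : ℝ)).2 hu, 1, fun z => ?_⟩
    by_cases h : z ∈ u
    · simp [Set.indicator_of_mem h]
    · simp [Set.indicator_of_notMem h]
  have key := tensor k l (max N M) ((swp ⁻¹' t).indicator 1) ((swp ⁻¹' s).indicator 1)
    (nice_ind _ mt') (nice_ind _ ms') ?_ ?_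
  · have prod : ∀ u v : Set (ℕ → ℕ → Bool), (fun z => (u.indicator (1 : (ℕ → ℕ → Bool) → ℝ)) z *
        (v.indicator (1 : (ℕ → ℕ → Bool) → ℝ)) z) = (u ∩ v).indicator 1 := by
      intro u v
      rw [Set.inter_indicator_one]
      rfl
    rw [prod, prod, prod, Set.inter_self, Set.inter_self, integral_indicator_one mt',
      integral_indicator_one ms', integral_indicator_one (mt'.inter ms')] at key
    have e : ∀ u : Set (ℕ → ℕ → Bool), MeasurableSet u → PP.real u = Pi0.real (swp ⁻¹' u) := by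
      intro u hu
      unfold PP
      rw [measureReal_def, measureReal_def, Measure.map_apply measurable_swp hu]
    rw [e _ mt, e _ ms, e _ (mt.inter ms), Set.preimage_inter]
    refine key.trans ?_
    have h4 : (0 : ℝ) ≤ (1 / 2) ^ k := by positivity
    have h5 : ∀ p : ℝ, p - p ^ 2 ≤ 1 / 4 := fun p => by nlinarith [sq_nonneg (p - 1 / 2)]
    have h6 := h5 (Pi0.real (swp ⁻¹' t))
    have h7 := h5 (Pi0.real (swp ⁻¹' s))
    nlinarith
  · intro y y' h
    have : y ∈ swp ⁻¹' t ↔ y' ∈ swp ⁻¹' t :=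
      ht2 _ _ fun i hi n hn => h n (lt_of_lt_of_le hn (le_max_left _ _)) i hi
    exact ind_congr this
  · intro y y' h
    have : y ∈ swp ⁻¹' s ↔ y' ∈ swp ⁻¹' s :=
      hs2 _ _ fun i hi n hn => h n (lt_of_lt_of_le hn (le_max_right _ _)) i hi
    exact ind_congr this

lemma mixing (k l : ℕ) {A S : Set (ℕ → ℕ → Bool)}
    (hA : @MeasurableSet (ℕ → ℕ → Bool)
      (⨆ (i : ℕ) (_ : i ≤ l), MeasurableSpace.comap (fun ω : ℕ → ℕ → Bool => ω i) inferInstance) A)
    (hS : @MeasurableSet (ℕ → ℕ → Bool)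
      (⨆ (i : ℕ) (_ : l + k ≤ i),
        MeasurableSpace.comap (fun ω : ℕ → ℕ → Bool => ω i) inferInstance) S) :
    |PP.real (A ∩ S) - PP.real A * PP.real S| ≤ (1 / 2) ^ k / 4 := by
  apply le_of_forall_pos_le_add
  intro ε hε
  obtain ⟨t, ht, h1⟩ := approx {i | i ≤ l} hA (show (0 : ℝ) < ε / 4 by positivity)
  obtain ⟨s, hs, h2⟩ := approx {i | l + k ≤ i} hS (show (0 : ℝ) < ε / 4 by positivity)
  have h3 := mixing_alg k l ht hs
  have mA : MeasurableSet A := mI_le {i | i ≤ l} _ hA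
  have mS : MeasurableSet S := mI_le {i | l + k ≤ i} _ hS
  have mt : MeasurableSet t := mI_le _ _ ht.1
  have ms : MeasurableSet s := mI_le _ _ hs.1
  have hmono : ∀ {u v w : Set (ℕ → ℕ → Bool)}, u ⊆ v ∪ w → PP.real u ≤ PP.real v + PP.real w :=
    fun {u v w} h => (measureReal_mono h (measure_ne_top _ _)).trans (measureReal_union_le _ _)
  have a1 : PP.real A ≤ PP.real t + PP.real (symmDiff A t) := hmono (by
    intro x hx
    by_cases h : x ∈ t
    · exact Or.inl h
    · exact Or.inr (Or.inl ⟨hx, h⟩))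
  have a2 : PP.real t ≤ PP.real A + PP.real (symmDiff A t) := hmono (by
    intro x hx
    by_cases h : x ∈ A
    · exact Or.inl h
    · exact Or.inr (Or.inr ⟨hx, h⟩))
  have b1 : PP.real S ≤ PP.real s + PP.real (symmDiff S s) := hmono (by
    intro x hx
    by_cases h : x ∈ s
    · exact Or.inl h
    · exact Or.inr (Or.inl ⟨hx, h⟩))
  have b2 : PP.real s ≤ PP.real S + PP.real (symmDiff S s) := hmono (by
    intro x hx
    by_cases h : x ∈ S
    · exact Or.inl h
    · exact Or.inr (Or.inr ⟨hx, h⟩))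
  have c1 : PP.real (A ∩ S) ≤ PP.real (t ∩ s) + (PP.real (symmDiff A t) + PP.real (symmDiff S s)) := by
    refine (hmono (v := t ∩ s) (w := symmDiff A t ∪ symmDiff S s) ?_).trans
      (add_le_add le_rfl (measureReal_union_le _ _))
    rintro x ⟨hx, hx'⟩
    by_cases h : x ∈ t
    · by_cases h' : x ∈ s
      · exact Or.inl ⟨h, h'⟩
      · exact Or.inr (Or.inr (Or.inl ⟨hx', h'⟩))
    · exact Or.inr (Or.inl (Or.inl ⟨hx, h⟩))
  have c2 : PP.real (t ∩ s) ≤ PP.real (A ∩ S) + (PP.real (symmDiff A t) + PP.real (symmDiff S s)) := by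
    refine (hmono (v := A ∩ S) (w := symmDiff A t ∪ symmDiff S s) ?_).trans
      (add_le_add le_rfl (measureReal_union_le _ _))
    rintro x ⟨hx, hx'⟩
    by_cases h : x ∈ A
    · by_cases h' : x ∈ S
      · exact Or.inl ⟨h, h'⟩
      · exact Or.inr (Or.inr (Or.inr ⟨hx', h'⟩))
    · exact Or.inr (Or.inl (Or.inr ⟨hx, h⟩))
  have p1 : PP.real A ≤ 1 := measureReal_le_one
  have p2 : PP.real S ≤ 1 := measureReal_le_one
  have p3 : PP.real t ≤ 1 := measureReal_le_one
  have p4 : PP.real s ≤ 1 := measureReal_le_one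
  have q1 : 0 ≤ PP.real A := measureReal_nonneg
  have q2 : 0 ≤ PP.real S := measureReal_nonneg
  have q3 : 0 ≤ PP.real t := measureReal_nonneg
  have q4 : 0 ≤ PP.real s := measureReal_nonneg
  have d : |PP.real t * PP.real s - PP.real A * PP.real S| ≤ ε / 2 := by
    have : PP.real t * PP.real s - PP.real A * PP.real S =
        (PP.real t - PP.real A) * PP.real s + PP.real A * (PP.real s - PP.real S) := by ring
    rw [this]
    refine (abs_add_le _ _).trans ?_
    rw [abs_mul, abs_mul, abs_of_nonneg q4, abs_of_nonneg q1]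
    have e1 : |PP.real t - PP.real A| ≤ ε / 4 := by
      rw [abs_le]; constructor <;> linarith
    have e2 : |PP.real s - PP.real S| ≤ ε / 4 := by
      rw [abs_le]; constructor <;> linarith
    have := mul_le_mul e1 p4 q4 (by positivity)
    have := mul_le_mul p1 e2 (abs_nonneg _) (by norm_num)
    linarith
  have e : |PP.real (A ∩ S) - PP.real (t ∩ s)| ≤ ε / 2 := by
    rw [abs_le]; constructor <;> linarith
  have : PP.real (A ∩ S) - PP.real A * PP.real S =
      (PP.real (A ∩ S) - PP.real (t ∩ s)) + (PP.real (t ∩ s) - PP.real t * PP.real s) +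
        (PP.real t * PP.real s - PP.real A * PP.real S) := by ring
  rw [this]
  refine (abs_add_le _ _).trans ?_
  have := abs_add_le (PP.real (A ∩ S) - PP.real (t ∩ s)) (PP.real (t ∩ s) - PP.real t * PP.real s)
  linarith

end Pool.Agent.Helpers29.UC
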