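import Pool.Agent.Helpers29.UC4

set_option autoImplicit false

namespace Pool.Agent.Helpers29.UC

open MeasureTheory Measure ProbabilityTheory Filter Topology

/-- the fair coin -/
noncomputable def fai : Measure Bool :=
  (1 / 2 : ENNReal) • dirac false + (1 / 2 : ENNReal) • dirac true

instance : IsProbabilityMeasure fai := by
  constructor
  unfold fai
  simp only [Measure.coe_add, Measure.coe_smul, Pi.add_apply, Pi.smul_apply, measure_univ,
    smul_eq_mul, mul_one]
  exact ENNReal.add_halves 1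

lemma integral_fai : ∫ a, sg a ∂fai = 0 := by
  unfold fai
  rw [integral_add_measure, integral_smul_measure, integral_smul_measure, integral_dirac,
    integral_dirac]
  · simp [sg]
  · apply Integrable.smul_measure _ (by finiteness)
    exact integrable_dirac (by simp)
  · apply Integrable.smul_measure _ (by finiteness)
    exact integrable_dirac (by simp)

/-- the marginal -/
noncomputable def Q0 : Measure (ℕ → Bool) := infinitePi (fun _ : ℕ => fai)

instance : IsProbabilityMeasure Q0 := by unfold Q0; infer_instance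

lemma mu_zero : mu.map (fun z : ℕ → Bool => z 0) = fai := by
  have h : ∀ b, (mub b).map (fun z : ℕ → Bool => z 0) = dirac b := by
    intro b
    unfold mub
    rw [Measure.map_map (measurable_pi_apply 0) (measurable_Ch b)]
    have : (fun z : ℕ → Bool => z 0) ∘ Ch b = fun _ => b := by
      funext w
      rfl
    rw [this, Measure.map_const, measure_univ, one_smul]
  unfold mu
  rw [Measure.map_add _ _ (measurable_pi_apply 0), Measure.map_smul, Measure.map_smul, h, h]
  rfl

lemma PP_marg : PP.map (fun ω : ℕ → ℕ → Bool => ω 0) = Q0 := by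
  unfold PP
  rw [Measure.map_map (measurable_pi_apply 0) measurable_swp]
  have : (fun ω : ℕ → ℕ → Bool => ω 0) ∘ swp =
      fun (y : ℕ → ℕ → Bool) (n : ℕ) => (fun z : ℕ → Bool => z 0) (y n) := rfl
  rw [this]
  unfold Pi0 Q0
  rw [infinitePi_map_pi (μ := fun _ : ℕ => mu) (f := fun _ => fun z : ℕ → Bool => z 0)
    (fun _ => measurable_pi_apply 0)]
  congr 1
  funext n
  exact mu_zero

/-- the empirical correlation tends to zero -/
def Orth (x y : ℕ → Bool) : Prop :=
  Tendsto (fun N : ℕ => (∑ n ∈ Finset.range N, sg (x n) * sg (y n)) / (N : ℝ)) atTop (𝓝 0)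

lemma sg_abs (b : Bool) : |sg b| ≤ 1 := by cases b <;> simp [sg]

lemma measurable_sg : Measurable sg := measurable_of_countable _

lemma iid_orth {m : ℕ} {i j : Fin m} (hij : i ≠ j) :
    ∀ᵐ x ∂(Measure.pi (fun _ : Fin m => Q0)), Orth (x i) (x j) := by
  have hI0 := iIndepFun_uncurry_infinitePi' (ι := Fin m) (κ := ℕ) (Ω := fun _ _ => Bool)
    (𝓧 := fun _ _ => ℝ) (X := fun _ _ => sg) (fun _ _ => fai) (fun _ _ => measurable_sg)
  have e0 : infinitePi (fun _ : Fin m => infinitePi (fun _ : ℕ => fai)) =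
      Measure.pi (fun _ : Fin m => Q0) := infinitePi_eq_pi (fun _ : Fin m => Q0)
  rw [e0] at hI0
  set ν := Measure.pi (fun _ : Fin m => Q0) with hν
  have hmeas : ∀ p : Fin m × ℕ, Measurable (fun ω : Fin m → ℕ → Bool => sg (ω p.1 p.2)) :=
    fun p => measurable_sg.comp ((measurable_pi_apply p.2).comp (measurable_pi_apply p.1))
  have hlaw : ∀ p : Fin m × ℕ, ν.map (fun ω : Fin m → ℕ → Bool => sg (ω p.1 p.2)) =
      fai.map sg := by
    intro p
    have h1 : ν.map (fun ω : Fin m → ℕ → Bool => ω p.1) = Q0 :=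
      (measurePreserving_eval (fun _ : Fin m => Q0) p.1).map_eq
    have h2 : Q0.map (fun z : ℕ → Bool => z p.2) = fai :=
      infinitePi_map_eval (fun _ : ℕ => fai) p.2
    have h3 : (fun ω : Fin m → ℕ → Bool => sg (ω p.1 p.2)) =
        sg ∘ ((fun z : ℕ → Bool => z p.2) ∘ fun ω : Fin m → ℕ → Bool => ω p.1) := rfl
    rw [h3, ← Measure.map_map measurable_sg
        ((measurable_pi_apply p.2).comp (measurable_pi_apply p.1)),
      ← Measure.map_map (measurable_pi_apply p.2) (measurable_pi_apply p.1), h1, h2]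
  have hE : ∀ p : Fin m × ℕ, ∫ ω, sg (ω p.1 p.2) ∂ν = 0 := by
    intro p
    have h4 : ∫ ω, sg (ω p.1 p.2) ∂ν =
        ∫ r, r ∂(ν.map (fun ω : Fin m → ℕ → Bool => sg (ω p.1 p.2))) := by
      rw [integral_map (f := fun r : ℝ => r) (hmeas p).aemeasurable aestronglyMeasurable_id]
    rw [h4, hlaw, integral_map (f := fun r : ℝ => r) measurable_sg.aemeasurable
      aestronglyMeasurable_id]
    exact integral_fai
  have hpair : ∀ n : ℕ, IndepFun (fun ω : Fin m → ℕ → Bool => sg (ω i n))
      (fun ω : Fin m → ℕ → Bool => sg (ω j n)) ν := fun n =>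
    hI0.indepFun (i := (i, n)) (j := (j, n)) (by simpa using hij)
  have hs := strong_law_ae_real (μ := ν) (fun n ω => sg (ω i n) * sg (ω j n)) ?_ ?_ ?_
  · have hz : ∫ ω, sg (ω i 0) * sg (ω j 0) ∂ν = 0 := by
      rw [(hpair 0).integral_fun_mul_eq_mul_integral (hmeas (i, 0)).aestronglyMeasurable
        (hmeas (j, 0)).aestronglyMeasurable, hE (i, 0), zero_mul]
    rw [hz] at hs
    exact hs
  · apply Integrable.of_bound (C := 1)
    · exact ((hmeas (i, 0)).mul (hmeas (j, 0))).aestronglyMeasurable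
    · refine Filter.Eventually.of_forall fun ω => ?_
      rw [Real.norm_eq_abs, abs_mul]
      exact mul_le_one₀ (sg_abs _) (abs_nonneg _) (sg_abs _)
  · intro n n' hn
    have := hI0.indepFun_mul_mul (fun p => hmeas p) (i, n) (j, n) (i, n') (j, n')
      (by simp [hn]) (by simp [hn]) (by simp [hn]) (by simp [hn])
    exact this
  · intro n
    have h5 : IdentDistrib (fun ω : Fin m → ℕ → Bool => (sg (ω i n), sg (ω j n)))
        (fun ω : Fin m → ℕ → Bool => (sg (ω i 0), sg (ω j 0))) ν ν := by
      refine ⟨((hmeas (i, n)).prodMk (hmeas (j, n))).aemeasurable,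
        ((hmeas (i, 0)).prodMk (hmeas (j, 0))).aemeasurable, ?_⟩
      rw [(hpair n).map_prod_eq_prod_map_map (hmeas (i, n)).aemeasurable
        (hmeas (j, n)).aemeasurable,
        (hpair 0).map_prod_eq_prod_map_map (hmeas (i, 0)).aemeasurable
        (hmeas (j, 0)).aemeasurable, hlaw (i, n), hlaw (j, n), hlaw (i, 0), hlaw (j, 0)]
    exact h5.comp (measurable_fst.mul measurable_snd)

lemma chain_corr (a k : ℕ) : ∫ z : ℕ → Bool, sg (z a) * sg (z (a + k)) ∂mu = (1 / 2) ^ k := by
  have h := chain k a (fun z => sg (z a)) (fun z => sg (z (a + k))) (nice_chi _) (nice_chi _)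
    (fun z z' h => by
      change sg (z a) = sg (z' a)
      rw [h a (le_refl a)])
    (fun z z' h => by
      change sg (z (a + k)) = sg (z' (a + k))
      rw [h (a + k) (le_refl (a + k))])
  rw [h, integral_chi]
  simp only [sg_mul_self]
  simp

lemma chain_corr_ne (a b : ℕ) : ∫ z : ℕ → Bool, sg (z a) * sg (z b) ∂mu ≠ 0 := by
  rcases le_total a b with h | h
  · obtain ⟨k, rfl⟩ := Nat.exists_eq_add_of_le h
    rw [chain_corr]
    positivity
  · obtain ⟨k, rfl⟩ := Nat.exists_eq_add_of_le h
    have : ∀ z : ℕ → Bool, sg (z (b + k)) * sg (z b) = sg (z b) * sg (z (b + k)) :=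
      fun z => mul_comm _ _
    simp only [this]
    rw [chain_corr]
    positivity

lemma measurable_avg (a b : ℕ) (N : ℕ) : Measurable (fun ω : ℕ → ℕ → Bool =>
    (∑ n ∈ Finset.range N, sg (ω a n) * sg (ω b n)) / (N : ℝ)) := by
  apply Measurable.div_const
  apply Finset.measurable_fun_sum
  intro n _
  exact (measurable_sg.comp ((measurable_pi_apply n).comp (measurable_pi_apply a))).mul
    (measurable_sg.comp ((measurable_pi_apply n).comp (measurable_pi_apply b)))

lemma chain_not_orth (a b : ℕ) : ∀ᵐ ω ∂PP, ¬ Orth (ω a) (ω b) := by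
  have hm : MeasurableSet {ω : ℕ → ℕ → Bool | Orth (ω a) (ω b)} :=
    measurableSet_tendsto (𝓝 0) (fun N => measurable_avg a b N)
  unfold PP
  refine (ae_map_iff (p := fun ω : ℕ → ℕ → Bool => ¬ Orth (ω a) (ω b))
    measurable_swp.aemeasurable hm.compl).2 ?_
  have hmeas : Measurable (fun z : ℕ → Bool => sg (z a) * sg (z b)) :=
    (measurable_sg.comp (measurable_pi_apply a)).mul (measurable_sg.comp (measurable_pi_apply b))
  have hI := iIndepFun_infinitePi (P := fun _ : ℕ => mu)
    (X := fun (_ : ℕ) (z : ℕ → Bool) => sg (z a) * sg (z b)) (fun _ => hmeas)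
  have hlaw : ∀ n : ℕ, Pi0.map (fun y : ℕ → ℕ → Bool => y n) = mu := fun n =>
    infinitePi_map_eval (fun _ : ℕ => mu) n
  have hs := strong_law_ae_real (μ := Pi0)
    (fun n (y : ℕ → ℕ → Bool) => sg (y n a) * sg (y n b)) ?_ ?_ ?_
  · have hz : ∫ y : ℕ → ℕ → Bool, sg (y 0 a) * sg (y 0 b) ∂Pi0 =
        ∫ z : ℕ → Bool, sg (z a) * sg (z b) ∂mu := by
      rw [← hlaw 0, integral_map (measurable_pi_apply 0).aemeasurable hmeas.aestronglyMeasurable]
    rw [hz] at hs
    filter_upwards [hs] with y hy h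
    exact chain_corr_ne a b (tendsto_nhds_unique hy h)
  · apply Integrable.of_bound (C := 1)
    · exact (hmeas.comp (measurable_pi_apply 0)).aestronglyMeasurable
    · refine Filter.Eventually.of_forall fun ω => ?_
      rw [Real.norm_eq_abs, abs_mul]
      exact mul_le_one₀ (sg_abs _) (abs_nonneg _) (sg_abs _)
  · intro n n' hn
    exact hI.indepFun hn
  · intro n
    have h5 : IdentDistrib (fun y : ℕ → ℕ → Bool => y n) (fun y : ℕ → ℕ → Bool => y 0) Pi0 Pi0 :=
      ⟨(measurable_pi_apply n).aemeasurable, (measurable_pi_apply 0).aemeasurable, by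
        rw [hlaw, hlaw]⟩
    exact h5.comp hmeas

lemma Q0_single (x : ℕ → Bool) : Q0 {x} = 0 := by
  have h : ∀ N : ℕ, Q0 {x} ≤ (1 / 2) ^ N := by
    intro N
    have h1 : ({x} : Set (ℕ → Bool)) ⊆ Set.pi (↑(Finset.range N) : Set ℕ) (fun i => {x i}) := by
      intro y hy i _
      have : y = x := hy
      rw [this]
      rfl
    refine (measure_mono h1).trans ?_
    unfold Q0
    rw [infinitePi_pi (fun _ : ℕ => fai) (fun i _ => measurableSet_singleton _)]
    have h2 : ∀ b : Bool, fai {b} = 1 / 2 := by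
      intro b
      unfold fai
      cases b <;> simp
    rw [Finset.prod_congr rfl (fun i _ => h2 (x i)), Finset.prod_const, Finset.card_range]
  have h3 : Tendsto (fun N : ℕ => ((1 / 2 : ENNReal)) ^ N) atTop (𝓝 0) :=
    ENNReal.tendsto_pow_atTop_nhds_zero_of_lt_one (by
      rw [ENNReal.div_lt_iff] <;> norm_num)
  exact le_antisymm (ge_of_tendsto' h3 h) zero_le

lemma Q0_range (ω : ℕ → ℕ → Bool) : Q0 (Set.range ω) = 0 := by
  have : Set.range ω = ⋃ i, {ω i} := by
    ext x
    simp [eq_comm]
  rw [this]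
  exact measure_iUnion_null fun i => Q0_single _

end Pool.Agent.Helpers29.UC
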