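import Pool.Agent.Helpers29.UC5

set_option autoImplicit false

namespace Pool.Agent.Helpers29.UC

open MeasureTheory Measure ProbabilityTheory Filter Topology

lemma iid_orth' {i j : ℕ} (hij : i ≠ j) :
    ∀ᵐ x ∂(infinitePi (fun _ : ℕ => Q0)), Orth (x i) (x j) := by
  have hI0 := iIndepFun_uncurry_infinitePi' (ι := ℕ) (κ := ℕ) (Ω := fun _ _ => Bool)
    (𝓧 := fun _ _ => ℝ) (X := fun _ _ => sg) (fun _ _ => fai) (fun _ _ => measurable_sg)
  have e0 : infinitePi (fun _ : ℕ => infinitePi (fun _ : ℕ => fai)) =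
      infinitePi (fun _ : ℕ => Q0) := rfl
  rw [e0] at hI0
  set ν := infinitePi (fun _ : ℕ => Q0) with hν
  have hmeas : ∀ p : ℕ × ℕ, Measurable (fun ω : ℕ → ℕ → Bool => sg (ω p.1 p.2)) :=
    fun p => measurable_sg.comp ((measurable_pi_apply p.2).comp (measurable_pi_apply p.1))
  have hlaw : ∀ p : ℕ × ℕ, ν.map (fun ω : ℕ → ℕ → Bool => sg (ω p.1 p.2)) =
      fai.map sg := by
    intro p
    have h1 : ν.map (fun ω : ℕ → ℕ → Bool => ω p.1) = Q0 :=
      infinitePi_map_eval (fun _ : ℕ => Q0) p.1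
    have h2 : Q0.map (fun z : ℕ → Bool => z p.2) = fai :=
      infinitePi_map_eval (fun _ : ℕ => fai) p.2
    have h3 : (fun ω : ℕ → ℕ → Bool => sg (ω p.1 p.2)) =
        sg ∘ ((fun z : ℕ → Bool => z p.2) ∘ fun ω : ℕ → ℕ → Bool => ω p.1) := rfl
    rw [h3, ← Measure.map_map measurable_sg
        ((measurable_pi_apply p.2).comp (measurable_pi_apply p.1)),
      ← Measure.map_map (measurable_pi_apply p.2) (measurable_pi_apply p.1), h1, h2]
  have hE : ∀ p : ℕ × ℕ, ∫ ω, sg (ω p.1 p.2) ∂ν = 0 := by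
    intro p
    have h4 : ∫ ω, sg (ω p.1 p.2) ∂ν =
        ∫ r, r ∂(ν.map (fun ω : ℕ → ℕ → Bool => sg (ω p.1 p.2))) := by
      rw [integral_map (f := fun r : ℝ => r) (hmeas p).aemeasurable aestronglyMeasurable_id]
    rw [h4, hlaw, integral_map (f := fun r : ℝ => r) measurable_sg.aemeasurable
      aestronglyMeasurable_id]
    exact integral_fai
  have hpair : ∀ n : ℕ, IndepFun (fun ω : ℕ → ℕ → Bool => sg (ω i n))
      (fun ω : ℕ → ℕ → Bool => sg (ω j n)) ν := fun n =>
    hI0.indepFun (i := (i, n)) (j := (j, n)) (by simpa using hij)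
  have hs := strong_law_ae_real (μ := ν) (fun n ω => sg (ω i n) * sg (ω j n)) ?_ ?_ ?_
  · have hz : ∫ ω, sg (ω i 0) * sg (ω j 0) ∂ν = 0 := by
      rw [(hpair 0).integral_fun_mul_eq_mul_integral (hmeas (i, 0)).aestronglyMeasurable
        (hmeas (j, 0)).aestronglyMeasurable, hE (i, 0), zero_mul]
    rw [hz] at hs
    exact hs
  · apply Integrable.of_bound (C := 1)
    · exact ((hmeas (i, 0)).mul (hmeas (j, 0))).aestronglyMeasurable
    · refine Filter.Eventually.of_forall fun ω => ?_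
      rw [Real.norm_eq_abs, abs_mul]
      exact mul_le_one₀ (sg_abs _) (abs_nonneg _) (sg_abs _)
  · intro n n' hn
    have := hI0.indepFun_mul_mul (fun p => hmeas p) (i, n) (j, n) (i, n') (j, n')
      (by simp [hn]) (by simp [hn]) (by simp [hn]) (by simp [hn])
    exact this
  · intro n
    have h5 : IdentDistrib (fun ω : ℕ → ℕ → Bool => (sg (ω i n), sg (ω j n)))
        (fun ω : ℕ → ℕ → Bool => (sg (ω i 0), sg (ω j 0))) ν ν := by
      refine ⟨((hmeas (i, n)).prodMk (hmeas (j, n))).aemeasurable,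
        ((hmeas (i, 0)).prodMk (hmeas (j, 0))).aemeasurable, ?_⟩
      rw [(hpair n).map_prod_eq_prod_map_map (hmeas (i, n)).aemeasurable
        (hmeas (j, n)).aemeasurable,
        (hpair 0).map_prod_eq_prod_map_map (hmeas (i, 0)).aemeasurable
        (hmeas (j, 0)).aemeasurable, hlaw (i, n), hlaw (j, n), hlaw (i, 0), hlaw (j, 0)]
    exact h5.comp (measurable_fst.mul measurable_snd)

/-- the good realisations -/
def Om : Set (ℕ → ℕ → Bool) := {ω | ∀ a b : ℕ, ¬ Orth (ω a) (ω b)}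

/-- the class -/
def FF : Set ((ℕ → Bool) → ℝ) :=
  {f | ∃ ω ∈ Om, f = (Set.range ω).indicator 1} ∪ {f | ∃ c : ℝ, 0 ≤ c ∧ c ≤ 1 ∧ f = fun _ => c}

lemma FF_infinite : FF.Infinite := by
  have hinj : Function.Injective (fun (n : ℕ) (_ : ℕ → Bool) => (1 : ℝ) / ((n : ℝ) + 1)) := by
    intro n n' h
    have h1 := congrFun h (fun _ => false)
    have h2 : (1 : ℝ) / ((n : ℝ) + 1) = 1 / ((n' : ℝ) + 1) := h1
    have h3 : ((n : ℝ) + 1) = ((n' : ℝ) + 1) := by
      have := congrArg (fun x : ℝ => 1 / x) h2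
      simpa using this
    exact_mod_cast add_right_cancel h3
  refine Set.infinite_of_injective_forall_mem hinj fun n => Or.inr ⟨1 / ((n : ℝ) + 1), ?_, ?_, rfl⟩
  · positivity
  · rw [div_le_one (by positivity)]
    have : (0 : ℝ) ≤ n := Nat.cast_nonneg n
    linarith

lemma hmr (ω : ℕ → ℕ → Bool) : MeasurableSet (Set.range ω) :=
  (Set.countable_range ω).measurableSet

lemma hint (ω : ℕ → ℕ → Bool) :
    ∫ y, (Set.range ω).indicator (1 : (ℕ → Bool) → ℝ) y ∂Q0 = 0 := by
  rw [integral_indicator_one (hmr ω), measureReal_def, Q0_range]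
  rfl

lemma FF_bdd : ∀ f ∈ FF, Measurable f ∧ ∀ x, 0 ≤ f x ∧ f x ≤ 1 := by
  rintro f (⟨ω, _, rfl⟩ | ⟨c, h0, h1, rfl⟩)
  · refine ⟨(measurable_indicator_const_iff (1 : ℝ)).2 (hmr ω), fun x => ?_⟩
    by_cases h : x ∈ Set.range ω
    · rw [Set.indicator_of_mem h]
      exact ⟨zero_le_one, le_refl _⟩
    · rw [Set.indicator_of_notMem h]
      exact ⟨le_refl _, zero_le_one⟩
  · exact ⟨measurable_const, fun _ => ⟨h0, h1⟩⟩

lemma process_one (m : ℕ) (hm : 1 ≤ m) : PP
    {ω : ℕ → ℕ → Bool | ∃ f ∈ FF,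
      (1 / 2 : ℝ) < |(1 / (m : ℝ)) * ∑ i ∈ Finset.range m, f (ω i) - ∫ y, f y ∂Q0|} = 1 := by
  have hOm : ∀ᵐ ω ∂PP, ω ∈ Om := by
    unfold Om
    simp only [Set.mem_ofPred_eq]
    rw [ae_all_iff]
    intro a
    rw [ae_all_iff]
    intro b
    exact chain_not_orth a b
  apply le_antisymm prob_le_one
  have h1 : PP Set.univ ≤ PP
    {ω : ℕ → ℕ → Bool | ∃ f ∈ FF,
      (1 / 2 : ℝ) < |(1 / (m : ℝ)) * ∑ i ∈ Finset.range m, f (ω i) - ∫ y, f y ∂Q0|} := by
    apply measure_mono_ae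
    filter_upwards [hOm] with ω hω _
    refine ⟨(Set.range ω).indicator 1, Or.inl ⟨ω, hω, rfl⟩, ?_⟩
    rw [hint]
    have h2 : ∀ i ∈ Finset.range m, (Set.range ω).indicator (1 : (ℕ → Bool) → ℝ) (ω i) = 1 := by
      intro i _
      rw [Set.indicator_of_mem (Set.mem_range_self i)]
      rfl
    rw [Finset.sum_congr rfl h2]
    have hm' : (m : ℝ) ≠ 0 := by positivity
    simp only [Finset.sum_const, Finset.card_range, nsmul_eq_mul, mul_one, sub_zero]
    rw [one_div_mul_cancel hm']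
    norm_num
  rwa [measure_univ] at h1

lemma iid_zero (ε : ℝ) (hε : 0 < ε) (m : ℕ) (hm1 : 1 ≤ m) (hmε : 1 / (m : ℝ) < ε) :
    infinitePi (fun _ : ℕ => Q0)
    {x : ℕ → ℕ → Bool | ∃ f ∈ FF,
      ε < |(1 / (m : ℝ)) * ∑ i ∈ Finset.range m, f (x i) - ∫ y, f y ∂Q0|} = 0 := by
  classical
  have hm0 : (0 : ℝ) < m := by exact_mod_cast hm1
  have hgood : ∀ᵐ x ∂(infinitePi (fun _ : ℕ => Q0)),
      ∀ i j : ℕ, i ≠ j → Orth (x i) (x j) := by
    rw [ae_all_iff]
    intro i
    rw [ae_all_iff]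
    intro j
    by_cases hij : i = j
    · exact Filter.Eventually.of_forall fun x h => absurd hij h
    · filter_upwards [iid_orth' hij] with x hx _
      exact hx
  refine measure_mono_null ?_ hgood
  rintro x ⟨f, hf, hlt⟩ hx
  rcases hf with ⟨ω, hω, rfl⟩ | ⟨c, h0, h1, rfl⟩
  · rw [hint, sub_zero] at hlt
    have hle : ∑ i ∈ Finset.range m, (Set.range ω).indicator (1 : (ℕ → Bool) → ℝ) (x i) ≤ 1 := by
      by_cases hex : ∃ i ∈ Finset.range m, x i ∈ Set.range ω
      · obtain ⟨i, him, hi⟩ := hex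
        rw [Finset.sum_eq_single i]
        · rw [Set.indicator_of_mem hi]
          exact le_refl _
        · intro j _ hj
          rw [Set.indicator_of_notMem]
          intro hj'
          obtain ⟨a, ha⟩ := hj'
          obtain ⟨b, hb⟩ := hi
          apply hω a b
          rw [ha, hb]
          exact hx j i hj
        · intro h
          exact absurd him h
      · push Not at hex
        rw [Finset.sum_eq_zero fun i hi => Set.indicator_of_notMem (hex i hi) _]
        exact zero_le_one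
    have hge : 0 ≤ ∑ i ∈ Finset.range m, (Set.range ω).indicator (1 : (ℕ → Bool) → ℝ) (x i) :=
      Finset.sum_nonneg fun i _ => Set.indicator_nonneg (fun _ _ => zero_le_one) _
    rw [abs_of_nonneg (mul_nonneg (by positivity) hge)] at hlt
    have : 1 / (m : ℝ) * ∑ i ∈ Finset.range m, (Set.range ω).indicator (1 : (ℕ → Bool) → ℝ) (x i) ≤
        1 / (m : ℝ) * 1 := mul_le_mul_of_nonneg_left hle (by positivity)
    linarith
  · have hc : (1 / (m : ℝ)) * ∑ _i ∈ Finset.range m, c - ∫ _y, c ∂Q0 = 0 := by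
      simp only [Finset.sum_const, Finset.card_range, nsmul_eq_mul,
        integral_const, probReal_univ, one_smul]
      field_simp
      ring
    rw [hc, abs_zero] at hlt
    linarith

end Pool.Agent.Helpers29.UC
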